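import Pool.Agent.DynBad.QInt

/-!
# Module LemmaQ: no invariant quadratic differential on an indifferent cycle

Assume `α ≠ 0` or `β_0 ≠ 0`.  By `norm_RR_add`, off the finite set `{± z_j}`, `RR y` and `RR (-y)`
are nonnegative real multiples of each other.  The polynomials
`P(y) = RR(y) ∏_j (y-z_j)^2 ∏_j (y+z_j)^2` and `Q(y) = RR(-y) (same product)` satisfy:
`P(y) conj(Q(y))` is real `≥ 0` for all `y`; `P, Q ≠ 0` (`RR` has a pole at `z_0`).  So the
meromorphic function `P/Q` is real where defined, hence (open mapping theorem /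
Cauchy-Riemann) constant `= k ≥ 0`: `RR(y) = k RR(-y)` for all `y` off a finite set; replacing
`y` by `-y`, `k^2 = 1`, `k = 1`: `RR` is even.  But `RR` is unbounded near `z_0`
(`α ≠ 0`: double pole; `α = 0`, `β_0 ≠ 0`: simple pole, the `z_j` being distinct) and bounded near
`-z_0`: `-z_0 ≠ z_j` for all `j < d`, because `-z_0 = z_j` gives `f(z_0) = f(z_j)`,
i.e. `z_1 = z_{j+1}`, so `j = 0` (cycle with distinct points; for `j + 1 = d` use `z_d = z_0`)
and `z_0 = 0`, contradicting `∏ ‖2 z_j‖ = 1`.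
-/

namespace DynBad

open Finset Filter Topology

private lemma no_ray {h g₁ : ℂ → ℂ} {z₀ : ℂ} (hh : ContinuousAt h z₀) (hg : ContinuousAt g₁ z₀)
    (h0 : h z₀ ≠ 0) (g0 : g₁ z₀ ≠ 0) {M : ℕ} (hM : 1 ≤ M)
    (H : ∀ᶠ y in 𝓝[≠] z₀, ∃ s : ℝ, 0 < s ∧ h y = s * (y - z₀) ^ M * g₁ y) : False := by
  set q₀ : ℂ := h z₀ / g₁ z₀ with hq₀
  have hq0 : q₀ ≠ 0 := div_ne_zero h0 g0
  obtain ⟨ω, hω⟩ := IsAlgClosed.exists_pow_nat_eq (-q₀) (n := M) (by omega)
  have hω0 : ω ≠ 0 := by
    rintro rfl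
    rw [zero_pow (by omega)] at hω
    exact hq0 (neg_eq_zero.mp hω.symm)
  have hpath : Tendsto (fun t : ℝ => z₀ + t * ω) (𝓝[>] 0) (𝓝[≠] z₀) := by
    refine tendsto_nhdsWithin_iff.mpr ⟨?_, ?_⟩
    · have h1 : Tendsto (fun t : ℝ => z₀ + (t : ℂ) * ω) (𝓝 0) (𝓝 (z₀ + ((0 : ℝ) : ℂ) * ω)) := by
        have : Continuous (fun t : ℝ => z₀ + (t : ℂ) * ω) := by fun_prop
        exact this.tendsto 0
      simp only [Complex.ofReal_zero, zero_mul, add_zero] at h1
      exact h1.mono_left nhdsWithin_le_nhds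
    · filter_upwards [self_mem_nhdsWithin] with t ht
      have ht' : (t : ℂ) ≠ 0 := Complex.ofReal_ne_zero.mpr (ne_of_gt ht)
      simp [ht', hω0]
  have hcont : ContinuousAt (fun y => (h y / g₁ y / q₀).re) z₀ :=
    Complex.continuous_re.continuousAt.comp ((hh.div hg g0).div_const q₀)
  have hval : (h z₀ / g₁ z₀ / q₀).re = 1 := by
    rw [← hq₀, div_self hq0, Complex.one_re]
  have hpos : ∀ᶠ y in 𝓝 z₀, 0 < (h y / g₁ y / q₀).re :=
    hcont.eventually (lt_mem_nhds (show (0 : ℝ) < (h z₀ / g₁ z₀ / q₀).re by rw [hval]; exact one_pos))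
  have hgne : ∀ᶠ y in 𝓝 z₀, g₁ y ≠ 0 := hg.eventually_ne g0
  have hall : ∀ᶠ y in 𝓝[≠] z₀, (∃ s : ℝ, 0 < s ∧ h y = s * (y - z₀) ^ M * g₁ y) ∧
      0 < (h y / g₁ y / q₀).re ∧ g₁ y ≠ 0 :=
    H.and (Eventually.and (nhdsWithin_le_nhds hpos) (nhdsWithin_le_nhds hgne))
  have hev := hpath.eventually hall
  obtain ⟨t, ⟨⟨s, hs, hst⟩, hre, hgt⟩, ht⟩ := (hev.and self_mem_nhdsWithin).exists
  have ht0 : (0 : ℝ) < t := ht
  have e : h (z₀ + t * ω) / g₁ (z₀ + t * ω) / q₀ = ((-(s * t ^ M) : ℝ) : ℂ) := by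
    rw [hst]
    have : z₀ + t * ω - z₀ = t * ω := by ring
    rw [this, mul_pow, hω]
    push_cast
    field_simp
  rw [e, Complex.ofReal_re] at hre
  have : 0 < s * t ^ M := by positivity
  linarith

theorem lemmaQ {d : ℕ} (hd : 1 ≤ d) (z β : ℕ → ℂ) (c α : ℂ)
    (hz : ∀ j, z (j + 1) = z j ^ 2 + c)
    (hper : z d = z 0) (hinj : ∀ i < d, ∀ j < d, z i = z j → i = j)
    (hmul : ‖∏ j ∈ range d, 2 * z j‖ = 1)
    (hβ : ∀ j < d, 2 * z j * β (j + 1) = β j - α / z j) (hβper : β d = β 0)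
    (hsum : ∑ j ∈ range d, β j = 0) (hne : α ≠ 0 ∨ β 0 ≠ 0) : False := by
  have hz0 : ∀ j < d, z j ≠ 0 := by
    intro j hj h0
    have : ∏ j ∈ range d, 2 * z j = 0 := prod_eq_zero (mem_range.mpr hj) (by rw [h0, mul_zero])
    rw [this, norm_zero] at hmul
    exact zero_ne_one hmul
  have hnz : ∀ j < d, -z 0 ≠ z j := by
    intro j hj h
    have h1 : z 1 = z (j + 1) := by
      rw [hz 0, hz j, ← h, neg_sq]
    have hj0 : j = 0 := by
      rcases Nat.lt_or_ge (j + 1) d with h2 | h2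
      · have := hinj 1 (by omega) (j + 1) h2 h1
        omega
      · have h3 : j + 1 = d := by omega
        rw [h3, hper] at h1
        rcases Nat.lt_or_ge 1 d with h4 | h4
        · have := hinj 1 h4 0 (by omega) h1
          omega
        · omega
    rw [hj0] at h
    have h5 : z 0 = 0 := by
      have : (2 : ℂ) * z 0 = 0 := by linear_combination -h
      simpa using this
    exact hz0 0 (by omega) h5
  set R : ℂ → ℂ := fun y => RR d z β α y with hR
  -- analyticity of `R` off the poles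
  have hRan : ∀ y : ℂ, (∀ j < d, y ≠ z j) → AnalyticAt ℂ R y := by
    intro y hy
    have : R = fun y => ∑ j ∈ range d, (α / (y - z j) ^ 2 + β j / (y - z j)) := rfl
    rw [this]
    refine Finset.analyticAt_fun_sum _ fun j hj => ?_
    have h : y - z j ≠ 0 := sub_ne_zero.mpr (hy j (mem_range.mp hj))
    have h1 : AnalyticAt ℂ (fun y : ℂ => y - z j) y := analyticAt_id.sub analyticAt_const
    exact (analyticAt_const.div (h1.pow 2) (pow_ne_zero 2 h)).add (analyticAt_const.div h1 h)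
  -- regular part at `z 0`
  set S : ℂ → ℂ := fun y => ∑ j ∈ (range d).erase 0, (α / (y - z j) ^ 2 + β j / (y - z j)) with hS
  have hSc : ContinuousAt S (z 0) := by
    simp only [hS]
    refine tendsto_finsetSum _ fun j hj => ?_
    rw [mem_erase, mem_range] at hj
    have h : z 0 - z j ≠ 0 := sub_ne_zero.mpr fun h => hj.1 (hinj 0 (by omega) j hj.2 h).symm
    have h1 : ContinuousAt (fun y : ℂ => y - z j) (z 0) := by fun_prop
    exact (continuousAt_const.div (h1.pow 2) (pow_ne_zero 2 h)).add (continuousAt_const.div h1 h)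
  have hRS : ∀ y, R y = α / (y - z 0) ^ 2 + β 0 / (y - z 0) + S y := by
    intro y
    simp only [hR, hS, RR]
    rw [← add_sum_erase _ _ (mem_range.mpr (by omega : 0 < d))]
  -- pole at `z 0`
  obtain ⟨m, hm, h, hhc, hh0, hRh⟩ : ∃ m : ℕ, 1 ≤ m ∧ ∃ h : ℂ → ℂ, ContinuousAt h (z 0) ∧
      h (z 0) ≠ 0 ∧ ∀ y, y ≠ z 0 → R y * (y - z 0) ^ m = h y := by
    by_cases hα : α = 0
    · refine ⟨1, le_refl _, fun y => β 0 + (y - z 0) * S y, ?_, ?_, ?_⟩
      · exact continuousAt_const.add (ContinuousAt.mul (by fun_prop) hSc)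
      · simpa using hne.resolve_left (fun h => h hα)
      · intro y hy
        have : y - z 0 ≠ 0 := sub_ne_zero.mpr hy
        rw [hRS, hα]
        field_simp
        ring
    · refine ⟨2, by norm_num, fun y => α + β 0 * (y - z 0) + (y - z 0) ^ 2 * S y, ?_, ?_, ?_⟩
      · exact ContinuousAt.add (by fun_prop) (ContinuousAt.mul (by fun_prop) hSc)
      · simpa using hα
      · intro y hy
        have : y - z 0 ≠ 0 := sub_ne_zero.mpr hy
        rw [hRS]
        field_simp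
  -- `g y = R (-y)` is analytic at `z 0`
  have hgan : AnalyticAt ℂ (fun y => R (-y)) (z 0) := by
    have h1 : AnalyticAt ℂ R (-z 0) := hRan _ hnz
    have h2 : AnalyticAt ℂ (fun y : ℂ => -y) (z 0) := analyticAt_id.neg
    exact AnalyticAt.fun_comp (g := R) h1 h2
  have hnear : ∀ᶠ y in 𝓝[≠] (z 0), (∀ j < d, y ≠ z j) ∧ ∀ j < d, y ≠ - z j := by
    have h1 : ∀ᶠ y in 𝓝[≠] (z 0), ∀ j ∈ range d, y ≠ z j := by
      rw [Filter.eventually_all_finset]
      intro j hj
      by_cases hj0 : j = 0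
      · rw [hj0]
        exact self_mem_nhdsWithin
      · exact nhdsWithin_le_nhds (isOpen_ne.mem_nhds
          (fun h => hj0 (hinj 0 (by omega) j (mem_range.mp hj) h).symm))
    have h2 : ∀ᶠ y in 𝓝[≠] (z 0), ∀ j ∈ range d, y ≠ - z j := by
      rw [Filter.eventually_all_finset]
      intro j hj
      exact nhdsWithin_le_nhds (isOpen_ne.mem_nhds
        (fun h => hnz j (mem_range.mp hj) (by rw [h, neg_neg])))
    filter_upwards [h1, h2] with y hy hy'
    exact ⟨fun j hj => hy j (mem_range.mpr hj), fun j hj => hy' j (mem_range.mpr hj)⟩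
  by_cases hev : ∀ᶠ y in 𝓝 (z 0), R (-y) = 0
  · -- identity theorem
    have hzero : ∀ᶠ y in 𝓝 (-z 0), R y = 0 := by
      have h1 : Tendsto (fun y : ℂ => -y) (𝓝 (-z 0)) (𝓝 (z 0)) := by
        have : Tendsto (fun y : ℂ => -y) (𝓝 (-z 0)) (𝓝 (- -z 0)) :=
          (continuous_neg (G := ℂ)).tendsto (-z 0)
        rwa [neg_neg] at this
      filter_upwards [h1.eventually hev] with y hy
      rwa [neg_neg] at hy
    set T : Set ℂ := {y | ∀ j < d, y ≠ z j} with hT
    have hTc : IsPreconnected T := by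
      have h1 : T = (((range d).image z : Finset ℂ) : Set ℂ)ᶜ := by
        ext y
        simp only [hT, Set.mem_ofPred_eq, coe_image, Set.mem_compl_iff, Set.mem_image,
          Finset.mem_coe, mem_range, not_exists, not_and]
        exact ⟨fun h j hj e => h j hj e.symm, fun h j hj e => h j hj e.symm⟩
      rw [h1]
      refine (Set.Countable.isConnected_compl_of_one_lt_rank ?_
        ((range d).image z).finite_toSet.countable).isPreconnected
      rw [Complex.rank_real_complex]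
      norm_num
    have hall : Set.EqOn R 0 T :=
      AnalyticOnNhd.eqOn_zero_of_preconnected_of_eventuallyEq_zero (fun y hy => hRan y hy) hTc
        (show -z 0 ∈ T from hnz) hzero
    have h1 : ∀ᶠ y in 𝓝[≠] (z 0), h y = 0 := by
      filter_upwards [hnear, self_mem_nhdsWithin] with y hy hy0
      rw [← hRh y hy0, hall (show y ∈ T from hy.1)]
      simp
    have h2 : ∀ᶠ y in 𝓝[≠] (z 0), h y ≠ 0 := nhdsWithin_le_nhds (hhc.eventually_ne hh0)
    obtain ⟨y, hy1, hy2⟩ := (h1.and h2).exists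
    exact hy2 hy1
  · obtain ⟨n, g₁, hg₁an, hg₁0, hg₁⟩ :=
      (hgan.exists_eventuallyEq_pow_smul_nonzero_iff).mpr hev
    refine no_ray (M := m + n) hhc hg₁an.continuousAt hh0 hg₁0 (by omega) ?_
    have h3 : ∀ᶠ y in 𝓝[≠] (z 0), h y ≠ 0 := nhdsWithin_le_nhds (hhc.eventually_ne hh0)
    have h4 : ∀ᶠ y in 𝓝[≠] (z 0), g₁ y ≠ 0 :=
      nhdsWithin_le_nhds (hg₁an.continuousAt.eventually_ne hg₁0)
    filter_upwards [hnear, self_mem_nhdsWithin, nhdsWithin_le_nhds hg₁, h3, h4]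
      with y hy hy0 hgy hhy hg1y
    have hy0' : y - z 0 ≠ 0 := sub_ne_zero.mpr hy0
    have hnorm := norm_RR_add hd z β c α hz hper hinj hmul hβ hβper hsum y hy.1 hy.2
    have hray : SameRay ℝ (R y) (R (-y)) := sameRay_iff_norm_add.mpr hnorm
    have hRy : R y ≠ 0 := by
      intro h0
      apply hhy
      rw [← hRh y hy0, h0, zero_mul]
    rw [smul_eq_mul] at hgy
    have hRy' : R (-y) ≠ 0 := by
      rw [hgy]
      exact mul_ne_zero (pow_ne_zero _ hy0') hg1y
    obtain ⟨r₁, r₂, hr₁, hr₂, hr⟩ := hray.exists_pos hRy hRy'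
    refine ⟨r₂ / r₁, by positivity, ?_⟩
    have hr₁' : (r₁ : ℂ) ≠ 0 := Complex.ofReal_ne_zero.mpr hr₁.ne'
    have e1 : R y = (r₂ / r₁ : ℂ) * R (-y) := by
      rw [Complex.real_smul, Complex.real_smul] at hr
      field_simp
      linear_combination hr
    rw [← hRh y hy0, e1, hgy]
    push_cast
    ring

end DynBad
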