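import Pool.Agent.DynBad.SLowerA
import Pool.Agent.DynBad.LemmaQ

/-!
# Module SingLower: no singular point of `Φ_N` of exact period `d < N` over `ℂ`

`lower_mult` (over `ℂ`): `λ = ∏_{j<d} X_j ≠ 1` is a root of unity and the derivative of the
multiplier in the tangent direction `(a_d, -b_d)` of the curve `F_d = 0` vanishes.

In the dual numbers put `x_ε = x + ε a_d`, `u_ε = u - ε b_d`, `z_j = X_j/2`, `z_j + ε z'_j` =
half of `XX x_ε u_ε j`, `c = u + x/2 - x^2/4`, `c + ε c'` = the same expression at `(x_ε, u_ε)`.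
`z_{j+1} = z_j^2 + c` and the same for the dual numbers, so `z'_{j+1} = 2 z_j z'_j + c'`;
`F_d(x_ε,u_ε) = 0` (`F_add_sq_zero`) so `z'_d = z'_0` (`XX_add_of_eq_zero`).
(5) `∏_j (z_j + ε z'_j) = ∏_j z_j` says `∑_{j<d} z'_j/z_j = 0` (`λ ≠ 0`).
(6) `c' ≠ 0`: else `z'_d = λ z'_0 = z'_0`, `z'_0 = 0`, i.e. `a_d = 0`, and from
`c' = -b_d + a_d/2 - x a_d/2 = 0` also `b_d = 0`; but `2 b_d + (x-1) a_d = λ - 1 ≠ 0`
(`two_bb_add`).
(7) Let `β` be the solution of `2 z_j β_{j+1} = β_j - 1/z_j` with `β_d = β_0`: `β_d` is an affine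
function of `β_0` with linear part `1/λ ≠ 1`, so such a `β_0` exists.
`c' ∑_{j<d} β_{j+1} = ∑ β_{j+1} (z'_{j+1} - 2 z_j z'_j) = ∑ β_{j+1} z'_{j+1} - ∑ (β_j - 1/z_j) z'_j
= ∑ z'_j/z_j = 0`, so `∑_{j<d} β_j = 0`.  `lemmaQ` with `α = 1` gives a contradiction: the `z_j`,
`j < d`, are distinct (`z_j - z_i = F_j - F_i = F (XX i) (UU i) (j - i) ≠ 0`, `F_shift`,
`F_orbit_iff`), `‖λ‖ = 1`.
-/

namespace DynBad

open Finset

private lemma prod_dual {E : Type*} [CommRing E] [Algebra ℂ E] {e : E} (he : e * e = 0)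
    (X w : ℕ → ℂ) (n : ℕ) (hX : ∀ j < n, X j ≠ 0) :
    ∏ j ∈ range n, (algebraMap ℂ E (X j) + e * algebraMap ℂ E (w j)) =
      algebraMap ℂ E (∏ j ∈ range n, X j) +
        e * algebraMap ℂ E ((∏ j ∈ range n, X j) * ∑ j ∈ range n, w j / X j) := by
  induction n with
  | zero => simp
  | succ n ih =>
    rw [prod_range_succ, ih (fun j hj => hX j (by omega)), prod_range_succ, sum_range_succ]
    have h1 := hX n (by omega)
    have h2 : (∏ j ∈ range n, X j) * X n * (∑ j ∈ range n, w j / X j + w n / X n) =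
        (∏ j ∈ range n, X j) * w n + (∏ j ∈ range n, X j) * (∑ j ∈ range n, w j / X j) * X n := by
      field_simp
      ring
    rw [h2]
    simp only [map_mul, map_add]
    linear_combination (algebraMap ℂ E (∏ j ∈ range n, X j) *
      algebraMap ℂ E (∑ j ∈ range n, w j / X j) * algebraMap ℂ E (w n)) * he

theorem no_sing_lower {N d : ℕ} (hN : 1 ≤ N) (hd : 1 ≤ d) (hdN : d ∣ N) (hlt : d < N) (x u : ℂ)
    (h : F x u d = 0) (h' : ∀ k, 0 < k → k < d → F x u k ≠ 0) : ¬ Sing N x u := by
  intro hs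
  obtain ⟨hlam1, ⟨m, hm, hlamm⟩, hdual⟩ := lower_mult hN hd hdN hlt x u h h' hs
  set lam : ℂ := ∏ j ∈ range d, XX x u j with hlam
  have hlam0 : lam ≠ 0 := by
    intro h0
    rw [h0, zero_pow hm.ne'] at hlamm
    exact zero_ne_one hlamm
  have hnorm : ‖lam‖ = 1 := by
    have h1 : ‖lam‖ ^ m = 1 := by rw [← norm_pow, hlamm, norm_one]
    exact (pow_eq_one_iff_of_nonneg (norm_nonneg _) hm.ne').mp h1
  have hX0 : ∀ j < d, XX x u j ≠ 0 := by
    intro j hj h0
    exact hlam0 (prod_eq_zero (mem_range.mpr hj) h0)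
  set a : ℂ := aa x u d with ha
  set b : ℂ := bb x u d with hb
  set z : ℕ → ℂ := fun j => XX x u j / 2 with hz
  have h2z : ∀ j, 2 * z j = XX x u j := fun j => by simp only [hz]; ring
  have hz0 : ∀ j < d, z j ≠ 0 := by
    intro j hj h0
    have := h2z j
    rw [h0, mul_zero] at this
    exact hX0 j hj this.symm
  -- derivative of the orbit
  set w : ℕ → ℂ := fun j => a + 2 * (a * bb x u j - b * aa x u j) with hw
  set z' : ℕ → ℂ := fun j => a / 2 + a * bb x u j - b * aa x u j with hz'
  set c' : ℂ := -b + a / 2 - x * a / 2 with hc'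
  have hrec : ∀ j, z' (j + 1) = 2 * z j * z' j + c' := by
    intro j
    rw [h2z]
    simp only [hz', hc', bb_succ, aa_succ, XX]
    ring
  have hz'0 : z' 0 = a / 2 := by simp [hz']
  have hz'd : z' d = z' 0 := by
    rw [hz'0]
    simp only [hz']
    rw [← ha, ← hb]
    ring
  -- the multiplier does not vary
  have hS : ∑ j ∈ range d, z' j / z j = 0 := by
    have heps : (DualNumber.eps : DualNumber ℂ) * DualNumber.eps = 0 := DualNumber.eps_mul_eps
    have hXX : ∀ j, XX (algebraMap ℂ (DualNumber ℂ) x + DualNumber.eps * algebraMap ℂ _ a)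
        (algebraMap ℂ (DualNumber ℂ) u + DualNumber.eps * algebraMap ℂ _ (-b)) j =
        algebraMap ℂ (DualNumber ℂ) (XX x u j) + DualNumber.eps * algebraMap ℂ _ (w j) := by
      intro j
      rw [XX, F_add_sq_zero _ _ heps, ← map_F, ← map_bb, ← map_aa]
      simp only [XX, hw, map_add, map_mul, map_neg, map_sub, map_ofNat]
      ring
    rw [prod_congr rfl fun j _ => hXX j, prod_dual heps _ _ d hX0, ← hlam] at hdual
    have h1 := congrArg TrivSqZeroExt.snd hdual
    have h2 : lam * ∑ j ∈ range d, w j / XX x u j = 0 := by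
      have h3 : TrivSqZeroExt.snd (algebraMap ℂ (DualNumber ℂ) lam +
          DualNumber.eps * algebraMap ℂ (DualNumber ℂ) (lam * ∑ j ∈ range d, w j / XX x u j)) =
          lam * ∑ j ∈ range d, w j / XX x u j := by
        rw [TrivSqZeroExt.snd_add, TrivSqZeroExt.snd_mul]
        have e1 : ∀ t : ℂ, TrivSqZeroExt.snd (algebraMap ℂ (DualNumber ℂ) t) = 0 := fun t => rfl
        have e2 : ∀ t : ℂ, TrivSqZeroExt.fst (algebraMap ℂ (DualNumber ℂ) t) = t := fun t => rfl
        rw [e1, e1, e2, DualNumber.fst_eps, DualNumber.snd_eps, smul_zero, zero_add, zero_add]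
        exact one_mul _
      rw [← h3, h1]
      rfl
    have h4 := (mul_eq_zero.mp h2).resolve_left hlam0
    rw [← h4]
    refine sum_congr rfl fun j hj => ?_
    have h5 := hX0 j (mem_range.mp hj)
    simp only [hz', hz, hw]
    field_simp
    ring
  have hc'0 : c' ≠ 0 := by
    intro h0
    have h1 : ∀ j, z' j = (∏ i ∈ range j, XX x u i) * z' 0 := by
      intro j
      induction j with
      | zero => simp
      | succ j ih => rw [hrec, h0, add_zero, h2z, ih, prod_range_succ]; ring
    have h2 := h1 d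
    rw [hz'd, ← hlam, hz'0] at h2
    have h3 : (lam - 1) * a = 0 := by linear_combination -2 * h2
    have ha0 : a = 0 := (mul_eq_zero.mp h3).resolve_left (sub_ne_zero.mpr hlam1)
    have hb0 : b = 0 := by
      rw [hc', ha0] at h0
      linear_combination -h0
    have h4 := two_bb_add x u d
    rw [← ha, ← hb, ha0, hb0, ← hlam] at h4
    apply hlam1
    linear_combination -h4
  -- the residues
  set κ : ℕ → ℂ := fun j => (∏ k ∈ range j, XX x u k)⁻¹ with hκ
  let B : ℕ → ℂ := fun n => Nat.rec 0 (fun j t => (t - 1 / z j) / XX x u j) n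
  have hB0 : B 0 = 0 := rfl
  have hBs : ∀ j, B (j + 1) = (B j - 1 / z j) / XX x u j := fun j => rfl
  have hκ0 : κ 0 = 1 := by simp [hκ]
  have hκs : ∀ j, κ (j + 1) = κ j / XX x u j := by
    intro j
    simp only [hκ, prod_range_succ, mul_inv]
    rw [div_eq_mul_inv]
  have hκd : κ d = lam⁻¹ := rfl
  have hκd1 : 1 - κ d ≠ 0 := by
    rw [hκd]
    intro h0
    apply hlam1
    have : lam⁻¹ = 1 := by linear_combination -h0
    exact inv_eq_one.mp this
  set t : ℂ := B d / (1 - κ d) with ht
  set β : ℕ → ℂ := fun j => t * κ j + B j with hβdef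
  have hβ : ∀ j < d, 2 * z j * β (j + 1) = β j - 1 / z j := by
    intro j hj
    have h1 := hX0 j hj
    rw [h2z]
    simp only [hβdef, hBs, hκs]
    field_simp
    ring
  have hβper : β d = β 0 := by
    simp only [hβdef, hκ0, hB0]
    have : t * (1 - κ d) = B d := by rw [ht]; field_simp
    linear_combination -this
  have hshift : ∀ f : ℕ → ℂ, f d = f 0 → ∑ j ∈ range d, f (j + 1) = ∑ j ∈ range d, f j := by
    intro f hf
    have h1 := sum_range_succ f d
    have h2 := sum_range_succ' f d
    rw [h1, hf] at h2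
    exact (add_right_cancel h2).symm
  have hsum : ∑ j ∈ range d, β j = 0 := by
    have h1 : c' * ∑ j ∈ range d, β (j + 1) = 0 := by
      have h2 : c' * ∑ j ∈ range d, β (j + 1) = ∑ j ∈ range d, β (j + 1) * z' (j + 1) -
          ∑ j ∈ range d, β j * z' j + ∑ j ∈ range d, z' j / z j := by
        rw [mul_sum, ← sum_sub_distrib, ← sum_add_distrib]
        refine sum_congr rfl fun j hj => ?_
        have h3 := hβ j (mem_range.mp hj)
        have h4 := hz0 j (mem_range.mp hj)
        have h5 : z' j / z j = 1 / z j * z' j := by ring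
        rw [hrec, h5]
        linear_combination -z' j * h3
      rw [h2, hS, hshift (fun j => β j * z' j) (by simp only [hβper, hz'd])]
      ring
    rw [hshift β hβper] at h1
    exact (mul_eq_zero.mp h1).resolve_left hc'0
  -- distinctness
  have hinj' : ∀ i j, i < j → j < d → z i ≠ z j := by
    intro i j hij hj he
    have h1 : XX x u i = XX x u j := by rw [← h2z, ← h2z, he]
    have h2 : F x u i = F x u j := by
      have h3 : (2 : ℂ) * F x u i = 2 * F x u j := by
        simp only [XX] at h1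
        linear_combination h1
      exact mul_left_cancel₀ two_ne_zero h3
    have h3 := F_shift x u i (j - i)
    rw [Nat.add_sub_cancel' hij.le, h2, sub_self] at h3
    exact h' (j - i) (by omega) (by omega) ((F_orbit_iff hd h i (j - i)).mp h3)
  have hinj : ∀ i < d, ∀ j < d, z i = z j → i = j := by
    intro i hi j hj he
    rcases lt_trichotomy i j with hlt | heq | hgt
    · exact absurd he (hinj' i j hlt hj)
    · exact heq
    · exact absurd he.symm (hinj' j i hgt hi)
  refine lemmaQ hd z β (u + x / 2 - x ^ 2 / 4) 1 ?_ ?_ hinj ?_ hβ hβper hsum (Or.inl one_ne_zero)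
  · intro j
    simp only [hz, XX, F_succ]
    ring
  · have := XX_add_of_eq_zero h 0
    simp only [add_zero] at this
    simp only [hz, this]
  · have : ∏ j ∈ range d, 2 * z j = lam := prod_congr rfl fun j _ => h2z j
    rw [this, hnorm]

end DynBad
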