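import Pool.Agent.DynBad.SingExact
import Pool.Agent.DynBad.SingLower

/-!
# Module JacInt: smoothness in characteristic zero, integral form

`no_sing_complex`: let `(x,u)` be a singular point, `F_N(x,u) = 0` (`F_eq_zero_of_ev_Phi`), `d` the
least positive integer with `F_d = 0`; `d ∣ N` by `F_gcd`; use `no_sing_exact` (`d = N`) or
`no_sing_lower`.

`exists_M`: Nullstellensatz.  Let `I ⊆ ℚ[X][X]` be generated by the images of `Φ_N`, `dX Φ_N`,
`derivative Φ_N`.  If `I ≠ ⊤`, take a maximal ideal `m ⊇ I`; `ℚ[X][X] ⧸ m` is a field of finite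
type over `ℚ`, hence finite over `ℚ` (Zariski's lemma, `finite_of_finite_type_of_isJacobsonRing`),
embeds in `ℂ`, and gives a singular point over `ℂ` (`ev_comp`, `ev_map`).  So `1 ∈ I`; clear
denominators.
-/

namespace DynBad

open Polynomial

theorem no_sing_complex {N : ℕ} (hN : 1 ≤ N) (x u : ℂ) : ¬ Sing N x u := by
  intro hs
  have hF := F_eq_zero_of_ev_Phi x u hN hs.1
  have hex : ∃ d, 0 < d ∧ F x u d = 0 := ⟨N, hN, hF⟩
  classical
  obtain ⟨hd0, hFd⟩ := Nat.find_spec hex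
  have hmin : ∀ k, 0 < k → k < Nat.find hex → F x u k ≠ 0 := fun k hk hlt h0 =>
    Nat.find_min hex hlt ⟨hk, h0⟩
  have hle : Nat.find hex ≤ N := Nat.find_min' hex ⟨hN, hF⟩
  have hg : F x u ((Nat.find hex).gcd N) = 0 := F_gcd hFd hF
  have hgpos : 0 < (Nat.find hex).gcd N := Nat.gcd_pos_of_pos_left _ hd0
  have hgd : (Nat.find hex).gcd N = Nat.find hex :=
    le_antisymm (Nat.gcd_le_left N hd0) (Nat.find_min' hex ⟨hgpos, hg⟩)
  have hdvd : Nat.find hex ∣ N := Nat.gcd_eq_left_iff_dvd.1 hgd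
  rcases lt_or_eq_of_le hle with hlt | heq
  · exact no_sing_lower hN hd0 hdvd hlt x u hFd hmin hs
  · rw [heq] at hmin
    exact no_sing_exact hN x u hF hmin hs

/-- clearing denominators in one variable -/
private theorem clear_one (P : ℚ[X]) :
    ∃ n : ℤ, n ≠ 0 ∧ ∃ P' : ℤ[X], C (n : ℚ) * P = P'.map (Int.castRingHom ℚ) := by
  induction P using Polynomial.induction_on' with
  | add p q hp hq =>
    obtain ⟨n, hn, p', hp'⟩ := hp
    obtain ⟨m, hm, q', hq'⟩ := hq
    refine ⟨n * m, mul_ne_zero hn hm, C m * p' + C n * q', ?_⟩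
    rw [Polynomial.map_add, Polynomial.map_mul, Polynomial.map_mul, ← hp', ← hq', map_C, map_C,
      eq_intCast, eq_intCast, Int.cast_mul, C_mul]
    ring
  | monomial k a =>
    refine ⟨a.den, Int.natCast_ne_zero.2 a.den_nz, monomial k a.num, ?_⟩
    rw [C_mul_monomial, map_monomial, eq_intCast]
    congr 1
    rw [Int.cast_natCast, mul_comm]
    exact Rat.mul_den_eq_num a

/-- clearing denominators in two variables -/
private theorem clear_two (P : ℚ[X][X]) :
    ∃ n : ℤ, n ≠ 0 ∧ ∃ P' : ℤ[X][X],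
      C (C (n : ℚ)) * P = P'.map (mapRingHom (Int.castRingHom ℚ)) := by
  induction P using Polynomial.induction_on' with
  | add p q hp hq =>
    obtain ⟨n, hn, p', hp'⟩ := hp
    obtain ⟨m, hm, q', hq'⟩ := hq
    refine ⟨n * m, mul_ne_zero hn hm, C (C m) * p' + C (C n) * q', ?_⟩
    rw [Polynomial.map_add, Polynomial.map_mul, Polynomial.map_mul, ← hp', ← hq', map_C, map_C,
      coe_mapRingHom, map_C, map_C, eq_intCast, eq_intCast, Int.cast_mul, C_mul, C_mul]
    ring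
  | monomial k a =>
    obtain ⟨n, hn, a', ha'⟩ := clear_one a
    refine ⟨n, hn, monomial k a', ?_⟩
    rw [C_mul_monomial, map_monomial, coe_mapRingHom, ha']

private theorem ev_self (P : ℚ[X][X]) : ev (R := ℚ) (C X : ℚ[X][X]) X P = P := by
  have : ev (R := ℚ) (C X : ℚ[X][X]) X = RingHom.id _ := by
    apply Polynomial.ringHom_ext'
    · apply Polynomial.ringHom_ext'
      · exact RingHom.ext_rat _ _
      · simp [ev]
    · simp [ev]
  rw [this]
  rfl

theorem exists_M {N : ℕ} (hN : 1 ≤ N) : ∃ M : ℤ, M ≠ 0 ∧ ∃ α β γ : ℤ[X][X],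
    α * Phi N + β * dX (Phi N) + γ * derivative (Phi N) = C (C M) := by
  set φ : ℤ[X][X] →+* ℚ[X][X] := mapRingHom (mapRingHom (Int.castRingHom ℚ)) with hφ
  have hinj : Function.Injective φ :=
    Polynomial.map_injective _ (Polynomial.map_injective _ Int.cast_injective)
  set I : Ideal ℚ[X][X] :=
    Ideal.span {φ (Phi N), φ (dX (Phi N)), φ (derivative (Phi N))} with hI
  have htop : I = ⊤ := by
    by_contra hne
    obtain ⟨m, hm, hIm⟩ := Ideal.exists_le_maximal I hne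
    letI : Field (ℚ[X][X] ⧸ m) := Ideal.Quotient.field m
    haveI : Algebra.FiniteType ℚ ℚ[X][X] :=
      Algebra.FiniteType.trans (S := ℚ[X]) inferInstance inferInstance
    haveI : Algebra.FiniteType ℚ (ℚ[X][X] ⧸ m) :=
      Algebra.FiniteType.trans (S := ℚ[X][X]) inferInstance inferInstance
    haveI : Module.Finite ℚ (ℚ[X][X] ⧸ m) := finite_of_finite_type_of_isJacobsonRing ℚ _
    let ψ : (ℚ[X][X] ⧸ m) →ₐ[ℚ] ℂ := IsAlgClosed.lift
    let θ : ℚ[X][X] →ₐ[ℚ] ℂ := ψ.comp (Ideal.Quotient.mkₐ ℚ m)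
    have key : ∀ P : ℤ[X][X], φ P ∈ I → ev (θ (C X)) (θ X) P = 0 := by
      intro P hP
      have h0 : θ (φ P) = 0 := by
        show ψ (Ideal.Quotient.mk m (φ P)) = 0
        rw [Ideal.Quotient.eq_zero_iff_mem.2 (hIm hP), map_zero]
      have h1 := ev_comp (R := ℚ) (θ : ℚ[X][X] →+* ℂ) (by ext; simp) (C X) X (φ P)
      rw [ev_self] at h1
      have h2 := ev_map (R := ℚ) (θ (C X)) (θ X) P
      rw [← h2]
      exact h1.symm.trans h0
    exact no_sing_complex hN (θ (C X)) (θ X)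
      ⟨key _ (Ideal.subset_span (by simp)), key _ (Ideal.subset_span (by simp)),
        key _ (Ideal.subset_span (by simp))⟩
  have h1 : (1 : ℚ[X][X]) ∈ I := by rw [htop]; exact Submodule.mem_top
  rw [hI, Ideal.mem_span_insert] at h1
  obtain ⟨a, z, hz, h1⟩ := h1
  rw [Ideal.mem_span_pair] at hz
  obtain ⟨b, c, rfl⟩ := hz
  obtain ⟨n1, hn1, a', ha'⟩ := clear_two a
  obtain ⟨n2, hn2, b', hb'⟩ := clear_two b
  obtain ⟨n3, hn3, c', hc'⟩ := clear_two c
  refine ⟨n1 * n2 * n3, mul_ne_zero (mul_ne_zero hn1 hn2) hn3, C (C (n2 * n3)) * a',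
    C (C (n1 * n3)) * b', C (C (n1 * n2)) * c', hinj ?_⟩
  have hCC : ∀ n : ℤ, φ (C (C n)) = C (C (n : ℚ)) := fun n => by
    rw [hφ, coe_mapRingHom, map_C, coe_mapRingHom, map_C, eq_intCast]
  have ha'' : φ a' = C (C (n1 : ℚ)) * a := ha'.symm
  have hb'' : φ b' = C (C (n2 : ℚ)) * b := hb'.symm
  have hc'' : φ c' = C (C (n3 : ℚ)) * c := hc'.symm
  rw [hCC]
  simp only [map_add, map_mul φ, hCC, ha'', hb'', hc'', Int.cast_mul, C_mul]
  linear_combination (-(C (C (n1 : ℚ)) * C (C (n2 : ℚ)) * C (C (n3 : ℚ)))) * h1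

end DynBad
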