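import Pool.Agent.DynBad.PhiBasic

/-!
# Module PhiEv: evaluation of `Φ_N` and its derivatives

All statements follow from `prod_Phi` (apply the ring homomorphism `ev x u`; for the derivatives
use `derivative_mul`, `dX_mul` and `F_N = Φ_N * ∏_{d ∣ N, d < N} Φ_d`,
`Nat.cons_self_properDivisors` / `Finset.prod_cons`) and `F_gcd`.
-/

namespace DynBad

open Polynomial Finset

section
variable {E : Type*} [CommRing E] (x u : E)

theorem prod_ev_Phi {n : ℕ} (hn : 1 ≤ n) : ∏ d ∈ n.divisors, ev x u (Phi d) = F x u n := by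
  rw [← ev_FP, ← prod_Phi hn, map_prod]

theorem ev_Phi_dvd {d n : ℕ} (hn : 1 ≤ n) (hd : d ∣ n) : ev x u (Phi d) ∣ F x u n := by
  rw [← prod_ev_Phi x u hn]
  exact Finset.dvd_prod_of_mem _ (Nat.mem_divisors.mpr ⟨hd, by omega⟩)

theorem F_eq_zero_of_ev_Phi {n : ℕ} (hn : 1 ≤ n) (h : ev x u (Phi n) = 0) : F x u n = 0 := by
  have h1 := ev_Phi_dvd x u hn (dvd_refl n)
  rw [h] at h1
  exact zero_dvd_iff.mp h1

private theorem FP_eq_mul {N : ℕ} (hN : 1 ≤ N) : FP N = Phi N * ∏ d ∈ N.properDivisors, Phi d := by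
  rw [← prod_Phi hN, ← Nat.cons_self_properDivisors (by omega), Finset.prod_cons]

theorem aa_eq_of_root {N : ℕ} (hN : 1 ≤ N) (h : ev x u (Phi N) = 0) :
    aa x u N = ev x u (derivative (Phi N)) * ∏ d ∈ N.properDivisors, ev x u (Phi d) := by
  rw [← ev_derivative_FP, FP_eq_mul hN, derivative_mul, map_add, map_mul, map_mul, h, zero_mul,
    add_zero, map_prod]

theorem bb_eq_of_root {N : ℕ} (hN : 1 ≤ N) (h : ev x u (Phi N) = 0) :
    bb x u N = ev x u (dX (Phi N)) * ∏ d ∈ N.properDivisors, ev x u (Phi d) := by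
  rw [← ev_dX_FP, FP_eq_mul hN, dX_mul, map_add, map_mul, map_mul, h, zero_mul,
    add_zero, map_prod]

/-- for a proper divisor `d` of `N`, `Φ_N` divides the cofactor of `F_d` in `F_N`:
`F_N / F_d = ∏_{e ∣ N, ¬ e ∣ d} Φ_e`. -/
theorem exists_cofactor {N d : ℕ} (hN : 1 ≤ N) (hd : d ∣ N) (hdN : d < N) :
    ∃ G H : ℤ[X][X], FP N = FP d * G ∧ G = Phi N * H ∧
      H = ∏ e ∈ N.properDivisors.filter (fun e => ¬ e ∣ d), Phi e := by
  have hd1 : 1 ≤ d := Nat.pos_of_dvd_of_pos hd (by omega)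
  refine ⟨Phi N * ∏ e ∈ N.properDivisors.filter (fun e => ¬ e ∣ d), Phi e,
    ∏ e ∈ N.properDivisors.filter (fun e => ¬ e ∣ d), Phi e, ?_, rfl, rfl⟩
  rw [FP_eq_mul hN, ← prod_Phi hd1]
  have h1 : N.properDivisors.filter (fun e => e ∣ d) = d.divisors := by
    ext e
    rw [Finset.mem_filter, Nat.mem_properDivisors, Nat.mem_divisors]
    constructor
    · rintro ⟨_, h⟩
      exact ⟨h, by omega⟩
    · rintro ⟨h, _⟩
      exact ⟨⟨h.trans hd, (Nat.le_of_dvd hd1 h).trans_lt hdN⟩, h⟩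
  rw [← Finset.prod_filter_mul_prod_filter_not N.properDivisors (fun e => e ∣ d), h1]
  ring

variable [IsDomain E]

/-- if `F_N = 0` and `F_d ≠ 0` for all proper divisors `d` of `N` then `Φ_N = 0`. -/
theorem ev_Phi_eq_zero {N : ℕ} (hN : 1 ≤ N) (h : F x u N = 0)
    (h' : ∀ d, d ∣ N → d < N → F x u d ≠ 0) : ev x u (Phi N) = 0 := by
  rw [← prod_ev_Phi x u hN, Finset.prod_eq_zero_iff] at h
  obtain ⟨d, hd, h0⟩ := h
  rw [Nat.mem_divisors] at hd
  have hd1 : 1 ≤ d := Nat.pos_of_dvd_of_pos hd.1 (by omega)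
  rcases lt_or_eq_of_le (Nat.le_of_dvd (by omega) hd.1) with h1 | h1
  · exact absurd (F_eq_zero_of_ev_Phi x u hd1 h0) (h' d hd.1 h1)
  · rw [← h1]
    exact h0

private theorem prod_proper_ne {N : ℕ} (hN : 1 ≤ N) 
    (h' : ∀ d, d ∣ N → d < N → F x u d ≠ 0) :
    ∏ d ∈ N.properDivisors, ev x u (Phi d) ≠ 0 := by
  rw [Finset.prod_ne_zero_iff]
  intro d hd h0
  rw [Nat.mem_properDivisors] at hd
  have hd1 : 1 ≤ d := Nat.pos_of_dvd_of_pos hd.1 (by omega)
  exact h' d hd.1 hd.2 (F_eq_zero_of_ev_Phi x u hd1 h0)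

/-- at a point of exact period `N` the two derivatives of `F_N` vanish iff those of `Φ_N` do. -/
theorem sing_iff_of_exact {N : ℕ} (hN : 1 ≤ N) (h : F x u N = 0)
    (h' : ∀ d, d ∣ N → d < N → F x u d ≠ 0) :
    Sing N x u ↔ aa x u N = 0 ∧ bb x u N = 0 := by
  have h1 := ev_Phi_eq_zero x u hN h h'
  have h2 := prod_proper_ne x u hN h'
  rw [aa_eq_of_root x u hN h1, bb_eq_of_root x u hN h1, mul_eq_zero, mul_eq_zero]
  unfold Sing
  constructor
  · rintro ⟨_, h3, h4⟩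
    exact ⟨Or.inl h4, Or.inl h3⟩
  · rintro ⟨h3, h4⟩
    exact ⟨h1, h4.resolve_right h2, h3.resolve_right h2⟩

end

section
variable {K : Type*} [Field K] (V : ValuationSubring K) {x u : K} {N : ℕ}

/-- At infinity everything is separable: `aa ≠ 0` (`cusp_aa_ne_zero`), so by `aa_eq_of_root` the
derivative of `Φ_N` and all `Φ_d`, `d ∣ N` proper, are nonzero; hence `F_d ≠ 0` for proper `d ∣ N`
(`prod_ev_Phi`), and `F_k ≠ 0` for `0 < k < N` by `F_gcd`. -/
theorem generic_of_notMem (hN : 1 ≤ N) (h : ev x u (Phi N) = 0) (hx : x ∉ V) :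
    aa x u N ≠ 0 ∧ ev x u (derivative (Phi N)) ≠ 0 ∧
      (∀ d ∈ N.properDivisors, ev x u (Phi d) ≠ 0) ∧ ∀ k, 0 < k → k < N → F x u k ≠ 0 := by
  have hF := F_eq_zero_of_ev_Phi x u hN h
  have h1 := cusp_aa_ne_zero V hN hF hx hN
  have h2 := h1
  rw [aa_eq_of_root x u hN h, mul_ne_zero_iff, Finset.prod_ne_zero_iff] at h2
  refine ⟨h1, h2.1, h2.2, fun k hk hkN h0 => ?_⟩
  have h3 : F x u (k.gcd N) = 0 := F_gcd h0 hF
  have hg1 : 1 ≤ k.gcd N := Nat.gcd_pos_of_pos_left _ hk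
  have hgN : k.gcd N < N := (Nat.gcd_le_left N hk).trans_lt hkN
  rw [← prod_ev_Phi x u hg1, Finset.prod_eq_zero_iff] at h3
  obtain ⟨d, hd, hd0⟩ := h3
  rw [Nat.mem_divisors] at hd
  refine h2.2 d ?_ hd0
  rw [Nat.mem_properDivisors]
  exact ⟨hd.1.trans (Nat.gcd_dvd_right k N), (Nat.le_of_dvd hg1 hd.1).trans_lt hgN⟩

end

/-- the same conclusion when `x` is transcendental over a subring: there is a valuation subring of
`K` not containing `x` as soon as `x` is not integral over the prime ring `ℤ`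
(if every valuation subring of `K` contained `x`, then `x` would be integral over `ℤ`). -/
theorem generic_of_not_integral {K : Type*} [Field K] {x u : K} {N : ℕ} (hN : 1 ≤ N)
    (h : ev x u (Phi N) = 0) (hx : ¬ IsIntegral ℤ x) :
    aa x u N ≠ 0 ∧ ev x u (derivative (Phi N)) ≠ 0 ∧
      (∀ d ∈ N.properDivisors, ev x u (Phi d) ≠ 0) ∧ ∀ k, 0 < k → k < N → F x u k ≠ 0 := by
  obtain ⟨V, hV⟩ := exists_val_notMem hx
  exact generic_of_notMem V hN h hV

end DynBad
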