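import Pool.Agent.DynBad.ValExist
import Pool.Agent.DynBad.PhiEv
import Pool.Agent.DynBad.JacInt

/-!
# Module DynBasic: first facts on the function field

* `CharZero K`: `x` is transcendental over `ℤ_p`, so `ℤ_p → K` is injective.
* `x` is not integral over `ℤ` (transcendental over `ℤ_p`), so `generic_of_not_integral` applies.
* `mem_of_x`: `u` is a root of the polynomial `Φ_N(x, ·)`, monic with coefficients in `ℤ[x]`, so
  a valuation ring containing `ℤ_p` and `x` contains `u`, hence `A`.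
* `exists_M_field`: evaluate `exists_M` at `(x, u)`.
-/

namespace DynBad

open Polynomial

variable {p : ℕ} [Fact p.Prime] {K : Type*} [Field K] [Algebra ℤ_[p] K] {N : ℕ}

namespace DynBasicAux

theorem injective_of_transc {x : K} (h : Transcendental ℤ_[p] x) :
    Function.Injective (algebraMap ℤ_[p] K) := by
  rw [injective_iff_map_eq_zero]
  intro a ha
  by_contra hne
  refine h ⟨C a, ?_, ?_⟩
  · rw [Ne, Polynomial.C_eq_zero]
    exact hne
  · rw [aeval_C]
    exact ha

theorem val_unit (V : ValuationSubring K) (hV : Over p V) (a : ℤ_[p]ˣ) :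
    V.valuation (algebraMap ℤ_[p] K a) = 1 := by
  have h1 : V.valuation (algebraMap ℤ_[p] K a) ≤ 1 := (V.valuation_le_one_iff _).mpr (hV _)
  have h2 : V.valuation (algebraMap ℤ_[p] K (a⁻¹ : ℤ_[p]ˣ)) ≤ 1 :=
    (V.valuation_le_one_iff _).mpr (hV _)
  have h3 : V.valuation (algebraMap ℤ_[p] K a) *
      V.valuation (algebraMap ℤ_[p] K (a⁻¹ : ℤ_[p]ˣ)) = 1 := by
    rw [← map_mul, ← map_mul, Units.mul_inv, map_one, map_one]
  refine le_antisymm h1 ?_
  calc (1 : V.ValueGroup) = V.valuation (algebraMap ℤ_[p] K a) *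
      V.valuation (algebraMap ℤ_[p] K (a⁻¹ : ℤ_[p]ˣ)) := h3.symm
    _ ≤ V.valuation (algebraMap ℤ_[p] K a) * 1 := mul_le_mul_right h2 _
    _ = V.valuation (algebraMap ℤ_[p] K a) := mul_one _

theorem val_int (V : ValuationSubring K) (hV : Over p V) (hp : V.valuation (p : K) = 1) {M : ℤ}
    (hM : M ≠ 0) : V.valuation (M : K) = 1 := by
  have h0 : (M : ℤ_[p]) ≠ 0 := Int.cast_ne_zero.mpr hM
  have h1 := PadicInt.unitCoeff_spec h0
  have h2 : (M : K) = algebraMap ℤ_[p] K (PadicInt.unitCoeff h0 : ℤ_[p]) *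
      (p : K) ^ (M : ℤ_[p]).valuation := by
    have h3 : algebraMap ℤ_[p] K (M : ℤ_[p]) = (M : K) := map_intCast _ _
    rw [← h3]
    conv_lhs => rw [h1]
    rw [map_mul, map_pow, map_natCast]
  rw [h2, map_mul, map_pow, val_unit V hV, hp, one_pow, one_mul]

theorem ev_mem {S : Subalgebra ℤ_[p] K} {x u : K} (hx : x ∈ S) (hu : u ∈ S)
    (P : ℤ_[p][X][X]) : ev x u P ∈ S := by
  have h1 : ∀ Q : ℤ_[p][X], eval₂ (algebraMap ℤ_[p] K) x Q ∈ S := by
    intro Q
    rw [eval₂_eq_sum_range]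
    exact S.sum_mem fun i _ => S.mul_mem (S.algebraMap_mem _) (S.pow_mem hx _)
  have h2 : ev x u P = eval₂ (eval₂RingHom (algebraMap ℤ_[p] K) x) u P := rfl
  rw [h2, eval₂_eq_sum_range]
  exact S.sum_mem fun i _ => S.mul_mem (h1 _) (S.pow_mem hu _)

end DynBasicAux

open DynBasicAux

theorem DynField.charZero (D : DynField p N K) : CharZero K :=
  charZero_of_injective_algebraMap (injective_of_transc D.transc)

theorem DynField.generic (D : DynField p N K) (hN : 1 ≤ N) :
    F D.x D.u N = 0 ∧ aa D.x D.u N ≠ 0 ∧ D.PU ≠ 0 ∧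
      (∀ d ∈ N.properDivisors, ev D.x D.u (Phi d) ≠ 0) ∧
      ∀ k, 0 < k → k < N → F D.x D.u k ≠ 0 := by
  have hx : ¬ IsIntegral ℤ D.x := by
    intro h
    have h1 : IsIntegral ℤ_[p] D.x := h.tower_top
    exact D.transc h1.isAlgebraic
  obtain ⟨h1, h2, h3, h4⟩ := generic_of_not_integral hN D.root hx
  exact ⟨F_eq_zero_of_ev_Phi D.x D.u hN D.root, h1, h2, h3, h4⟩

theorem DynField.x_mem (D : DynField p N K) : D.x ∈ D.A :=
  Algebra.subset_adjoin (by simp)

theorem DynField.u_mem (D : DynField p N K) : D.u ∈ D.A :=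
  Algebra.subset_adjoin (by simp)

/-- every element of `A` is the value of a polynomial -/
theorem DynField.mem_A_iff (D : DynField p N K) (z : K) :
    z ∈ D.A ↔ ∃ P : ℤ_[p][X][X], z = ev D.x D.u P := by
  constructor
  · intro hz
    have hz' : z ∈ Algebra.adjoin ℤ_[p] ({D.x, D.u} : Set K) := hz
    induction hz' using Algebra.adjoin_induction with
    | mem y hy =>
      rcases hy with rfl | rfl
      · exact ⟨C X, (ev_CX _ _).symm⟩
      · exact ⟨X, (ev_X _ _).symm⟩
    | algebraMap a => exact ⟨C (C a), (ev_CC _ _ _).symm⟩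
    | add y z _ _ h1 h2 =>
      obtain ⟨P, hP⟩ := h1 (by assumption)
      obtain ⟨Q, hQ⟩ := h2 (by assumption)
      exact ⟨P + Q, by rw [map_add, hP, hQ]⟩
    | mul y z _ _ h1 h2 =>
      obtain ⟨P, hP⟩ := h1 (by assumption)
      obtain ⟨Q, hQ⟩ := h2 (by assumption)
      exact ⟨P * Q, by rw [map_mul, hP, hQ]⟩
  · rintro ⟨P, rfl⟩
    exact ev_mem D.x_mem D.u_mem P

theorem DynField.F_mem (D : DynField p N K) (k : ℕ) : F D.x D.u k ∈ D.A := by
  induction k with
  | zero => exact D.A.zero_mem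
  | succ k ih =>
    rw [F_succ]
    exact D.A.add_mem (D.A.add_mem (D.A.pow_mem ih 2) (D.A.mul_mem D.x_mem ih)) D.u_mem

theorem DynBasicAux.ev_int_mem (D : DynField p N K) (P : ℤ[X][X]) : ev D.x D.u P ∈ D.A := by
  rw [← ev_map (R := ℤ_[p])]
  exact ev_mem D.x_mem D.u_mem _

theorem DynField.PU_mem (D : DynField p N K) : D.PU ∈ D.A := DynBasicAux.ev_int_mem D _

theorem DynField.PX_mem (D : DynField p N K) : D.PX ∈ D.A := DynBasicAux.ev_int_mem D _

theorem DynField.mem_of_x (D : DynField p N K) (hN : 1 ≤ N) (V : ValuationSubring K)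
    (hV : Over p V) (hx : D.x ∈ V) : Le D.A V := by
  have hu : D.u ∈ V := by
    have hint : IsIntegral V.toSubring D.u := by
      refine ⟨(Phi N).map (eval₂RingHom (Int.castRingHom V.toSubring) ⟨D.x, hx⟩),
        (Phi_monic hN).map _, ?_⟩
      rw [eval₂_map]
      have h1 : (algebraMap V.toSubring K).comp
          (eval₂RingHom (Int.castRingHom V.toSubring) ⟨D.x, hx⟩) =
          eval₂RingHom (algebraMap ℤ K) D.x := by
        apply Polynomial.ringHom_ext'
        · exact RingHom.ext_int _ _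
        · simp
          rfl
      rw [h1]
      exact D.root
    exact mem_of_isIntegral (B := V.toSubring) V (fun b hb => hb) hint
  intro z hz
  have hz' : z ∈ Algebra.adjoin ℤ_[p] ({D.x, D.u} : Set K) := hz
  induction hz' using Algebra.adjoin_induction with
  | mem y hy =>
    rcases hy with rfl | rfl
    · exact hx
    · exact hu
  | algebraMap a => exact hV a
  | add y z _ _ h1 h2 => exact V.add_mem _ _ (h1 (by assumption)) (h2 (by assumption))
  | mul y z _ _ h1 h2 => exact V.mul_mem _ _ (h1 (by assumption)) (h2 (by assumption))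

theorem DynField.exists_M_field (D : DynField p N K) (hN : 1 ≤ N) :
    ∃ M : ℤ, M ≠ 0 ∧ ∃ α ∈ D.A, ∃ β ∈ D.A, α * D.PX + β * D.PU = (M : K) := by
  obtain ⟨M, hM, α, β, γ, h⟩ := exists_M hN
  refine ⟨M, hM, ev D.x D.u β, DynBasicAux.ev_int_mem D _, ev D.x D.u γ,
    DynBasicAux.ev_int_mem D _, ?_⟩
  have h1 := congrArg (ev D.x D.u) h
  rw [map_add, map_add, map_mul, map_mul, map_mul, D.root, mul_zero, zero_add, ev_CC] at h1
  have h2 : algebraMap ℤ K M = (M : K) := eq_intCast _ _
  rw [h2] at h1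
  exact h1

/-- in a valuation ring `V ⊇ A` with `v(p) = 1`, one of the partial derivatives is a unit
(`M` is a unit of `V`, because `V ⊇ ℚ_p`). -/
theorem DynField.unit_partial (D : DynField p N K) (hN : 1 ≤ N) (V : ValuationSubring K)
    (hV : Le D.A V) (hp : V.valuation (p : K) = 1) :
    V.valuation D.PU = 1 ∨ V.valuation D.PX = 1 := by
  obtain ⟨M, hM, α, hα, β, hβ, h⟩ := D.exists_M_field hN
  have hM1 := val_int V hV.over hp hM
  have hPU : V.valuation D.PU ≤ 1 := (V.valuation_le_one_iff _).mpr (hV _ D.PU_mem)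
  have hPX : V.valuation D.PX ≤ 1 := (V.valuation_le_one_iff _).mpr (hV _ D.PX_mem)
  have hα1 : V.valuation α ≤ 1 := (V.valuation_le_one_iff _).mpr (hV _ hα)
  have hβ1 : V.valuation β ≤ 1 := (V.valuation_le_one_iff _).mpr (hV _ hβ)
  by_contra hcon
  rw [not_or] at hcon
  have h1 : V.valuation D.PU < 1 := lt_of_le_of_ne hPU hcon.1
  have h2 : V.valuation D.PX < 1 := lt_of_le_of_ne hPX hcon.2
  have h3 : V.valuation (α * D.PX + β * D.PU) < 1 := by
    refine V.valuation.map_add_lt ?_ ?_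
    · rw [map_mul]
      exact mul_lt_one_of_nonneg_of_lt_one_right hα1 zero_le h2
    · rw [map_mul]
      exact mul_lt_one_of_nonneg_of_lt_one_right hβ1 zero_le h1
  rw [h, hM1] at h3
  exact lt_irrefl _ h3

end DynBad
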