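import Pool.Agent.DynBad.JacEtale
import Pool.Agent.DynBad.DynBasic

/-!
# Module AEtale: the two étale charts `A[1/Φ_U]` (over `ℤ_p[x]`) and `A[1/Φ_X]` (over `ℤ_p[u]`)

`A = ℤ_p[X][U]/(Φ_N)` by `D.ker`.  For `etaleU` apply `jac_etale` with `R = ℤ_p[X]` acting via
`X ↦ x`, `f = Φ_N ∈ ℤ_p[X][U]`, `B = adjoin {x, u, PU⁻¹}`.  For `etaleX` exchange the roles
(`Bivariate.swap`): `R = ℤ_p[U]`, `f = swap Φ_N ∈ ℤ_p[U][X]`, whose derivative is `swap (dX Φ_N)`.
`Frac` follows from `D.frac`.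
-/

namespace DynBad

open Polynomial

section aux

private theorem ae_clear {R K : Type*} [CommRing R] [Field K] [Algebra R K] (x u c : K)
    (hc : c ∈ Algebra.adjoin R {x, u}) (hc0 : c ≠ 0) (z : K)
    (hz : z ∈ Algebra.adjoin R {x, u, c⁻¹}) : ∃ n : ℕ, z * c ^ n ∈ Algebra.adjoin R {x, u} := by
  induction hz using Algebra.adjoin_induction with
  | mem z hz =>
    simp only [Set.mem_insert_iff, Set.mem_singleton_iff] at hz
    rcases hz with rfl | rfl | rfl
    · exact ⟨0, by rw [pow_zero, mul_one]; exact Algebra.subset_adjoin (by simp)⟩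
    · exact ⟨0, by rw [pow_zero, mul_one]; exact Algebra.subset_adjoin (by simp)⟩
    · exact ⟨1, by rw [pow_one, inv_mul_cancel₀ hc0]; exact Subalgebra.one_mem _⟩
  | algebraMap r => exact ⟨0, by rw [pow_zero, mul_one]; exact Subalgebra.algebraMap_mem _ r⟩
  | add a b _ _ ha hb =>
    obtain ⟨n, hn⟩ := ha
    obtain ⟨m, hm⟩ := hb
    refine ⟨n + m, ?_⟩
    have : (a + b) * c ^ (n + m) = a * c ^ n * c ^ m + b * c ^ m * c ^ n := by ring
    rw [this]
    exact Subalgebra.add_mem _ (Subalgebra.mul_mem _ hn (Subalgebra.pow_mem _ hc m))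
      (Subalgebra.mul_mem _ hm (Subalgebra.pow_mem _ hc n))
  | mul a b _ _ ha hb =>
    obtain ⟨n, hn⟩ := ha
    obtain ⟨m, hm⟩ := hb
    refine ⟨n + m, ?_⟩
    have : a * b * c ^ (n + m) = a * c ^ n * (b * c ^ m) := by ring
    rw [this]
    exact Subalgebra.mul_mem _ hn hm

private theorem ae_sub {R K : Type*} [CommRing R] [Field K] [Algebra R K] (x u c : K) :
    Algebra.adjoin R {x, u} ≤ Algebra.adjoin R {x, u, c⁻¹} := by
  apply Algebra.adjoin_mono
  intro y hy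
  simp only [Set.mem_insert_iff, Set.mem_singleton_iff] at hy ⊢
  rcases hy with h | h
  · exact Or.inl h
  · exact Or.inr (Or.inl h)

variable {R K : Type*} [CommRing R] [Field K] [Algebra R K]

private theorem ae_etale (S : Subalgebra R K) (t v : K) (ht : t ∈ S) (hv : v ∈ S) (f : R[X][X])
    (c : K) (hc0 : c ≠ 0) (hcinv : c⁻¹ ∈ S) (hf : ev t v f = 0) (hc : ev t v (derivative f) = c)
    (hsurj : ∀ b ∈ S, ∃ (n : ℕ) (g : R[X][X]), b * c ^ n = ev t v g)
    (hker : ∀ g : R[X][X], ev t v g = 0 → f ∣ g) :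
    ((Polynomial.aeval (⟨t, ht⟩ : S) : R[X] →ₐ[R] S) : R[X] →+* S).Etale := by
  let alg : Algebra R[X] S := ((Polynomial.aeval (⟨t, ht⟩ : S) : R[X] →ₐ[R] S) : R[X] →+* S).toAlgebra
  have hcoe : ∀ g : R[X][X], (((aeval (⟨v, hv⟩ : S) g : S)) : K) = ev t v g := by
    intro g
    have h1 : (S.val : S →+* K).comp
        ((aeval (⟨v, hv⟩ : S) : R[X][X] →ₐ[R[X]] S) : R[X][X] →+* S) = ev t v := by
      apply Polynomial.ringHom_ext'
      · apply Polynomial.ringHom_ext'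
        · ext a
          simp [ev, alg, RingHom.algebraMap_toAlgebra]
        · simp [ev, alg, RingHom.algebraMap_toAlgebra]
      · simp [ev]
    exact congr($h1 g)
  have hcS : c ∈ S := by
    rw [← hc, ← hcoe]
    exact Subtype.prop _
  show Algebra.Etale R[X] S
  apply jac_etale R[X] S f (⟨v, hv⟩ : S)
  · apply Subtype.ext
    rw [hcoe, hf]
    rfl
  · have h1 : aeval (⟨v, hv⟩ : S) (derivative f) = (⟨c, hcS⟩ : S) := by
      apply Subtype.ext
      rw [hcoe, hc]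
    rw [h1]
    apply IsUnit.of_mul_eq_one (⟨c⁻¹, hcinv⟩ : S)
    apply Subtype.ext
    exact mul_inv_cancel₀ hc0
  · intro b
    obtain ⟨n, g, hg⟩ := hsurj b b.2
    refine ⟨n, g, ?_⟩
    apply Subtype.ext
    push_cast
    rw [hcoe, hcoe, hc, hg]
  · intro g hg
    refine ⟨0, ?_⟩
    rw [pow_zero, one_mul]
    apply hker
    rw [← hcoe, hg]
    rfl

private theorem ae_ev_swap (x u : K) (P : R[X][X]) : ev u x (Bivariate.swap P) = ev x u P := by
  have h1 : (ev (R := R) u x).comp (Bivariate.swap : R[X][X] ≃ₐ[R] R[X][X]).toRingEquiv.toRingHom =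
      ev x u := by
    apply Polynomial.ringHom_ext'
    · apply Polynomial.ringHom_ext'
      · ext a
        simp [ev, Bivariate.swap_C]
      · simp [ev, Bivariate.swap_C]
    · have h : Bivariate.swap (R := R) X = C X := Bivariate.swap_Y
      simp [ev, h]
  exact congr($h1 P)

private theorem ae_swap_map {R' : Type*} [CommRing R'] (φ : R →+* R') (P : R[X][X]) :
    Bivariate.swap (P.map (mapRingHom φ)) = (Bivariate.swap P).map (mapRingHom φ) := by
  have h1 : ((Bivariate.swap : R'[X][X] ≃ₐ[R'] R'[X][X]).toRingEquiv.toRingHom).comp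
      (mapRingHom (mapRingHom φ)) = (mapRingHom (mapRingHom φ)).comp
      (Bivariate.swap : R[X][X] ≃ₐ[R] R[X][X]).toRingEquiv.toRingHom := by
    apply Polynomial.ringHom_ext'
    · apply Polynomial.ringHom_ext'
      · ext a
        simp [Bivariate.swap_C]
      · simp [Bivariate.swap_C]
    · have h : Bivariate.swap (R := R) X = C X := Bivariate.swap_Y
      have h' : Bivariate.swap (R := R') X = C X := Bivariate.swap_Y
      simp [h, h']
  exact congr($h1 P)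

end aux

variable {p : ℕ} [Fact p.Prime] {K : Type*} [Field K] [Algebra ℤ_[p] K] {N : ℕ}

theorem DynField.etaleU (D : DynField p N K) (hN : 1 ≤ N) :
    EtaleChart (Algebra.adjoin ℤ_[p] {D.x, D.u, D.PU⁻¹}) := by
  have hPU : D.PU ≠ 0 := (D.generic hN).2.2.1
  have hx : D.x ∈ Algebra.adjoin ℤ_[p] {D.x, D.u, D.PU⁻¹} := Algebra.subset_adjoin (by simp)
  have hu : D.u ∈ Algebra.adjoin ℤ_[p] {D.x, D.u, D.PU⁻¹} := Algebra.subset_adjoin (by simp)
  have hc : D.PU⁻¹ ∈ Algebra.adjoin ℤ_[p] {D.x, D.u, D.PU⁻¹} := Algebra.subset_adjoin (by simp)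
  refine ⟨Subalgebra.fg_def.mpr ⟨_, Set.toFinite _, rfl⟩, ?_, ⟨⟨D.x, hx⟩, ?_⟩⟩
  · intro z
    obtain ⟨a, ha, b, hb, hb0, hab⟩ := D.frac z
    exact ⟨a, ae_sub _ _ _ ha, b, ae_sub _ _ _ hb, hb0, hab⟩
  · apply ae_etale _ D.x D.u hx hu ((Phi N).map (mapRingHom (Int.castRingHom ℤ_[p]))) D.PU hPU hc
    · rw [ev_map, D.root]
    · rw [derivative_map, ev_map]
      rfl
    · intro b hb
      obtain ⟨n, hn⟩ := ae_clear D.x D.u D.PU D.PU_mem hPU b hb
      obtain ⟨g, hg⟩ := (D.mem_A_iff _).mp hn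
      exact ⟨n, g, hg⟩
    · exact D.ker

theorem DynField.etaleX (D : DynField p N K) (hN : 1 ≤ N) (hX : D.PX ≠ 0) :
    EtaleChart (Algebra.adjoin ℤ_[p] {D.x, D.u, D.PX⁻¹}) := by
  have hx : D.x ∈ Algebra.adjoin ℤ_[p] {D.x, D.u, D.PX⁻¹} := Algebra.subset_adjoin (by simp)
  have hu : D.u ∈ Algebra.adjoin ℤ_[p] {D.x, D.u, D.PX⁻¹} := Algebra.subset_adjoin (by simp)
  have hc : D.PX⁻¹ ∈ Algebra.adjoin ℤ_[p] {D.x, D.u, D.PX⁻¹} := Algebra.subset_adjoin (by simp)
  refine ⟨Subalgebra.fg_def.mpr ⟨_, Set.toFinite _, rfl⟩, ?_, ⟨⟨D.u, hu⟩, ?_⟩⟩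
  · intro z
    obtain ⟨a, ha, b, hb, hb0, hab⟩ := D.frac z
    exact ⟨a, ae_sub _ _ _ ha, b, ae_sub _ _ _ hb, hb0, hab⟩
  · apply ae_etale _ D.u D.x hu hx
      (Bivariate.swap ((Phi N).map (mapRingHom (Int.castRingHom ℤ_[p])))) D.PX hX hc
    · rw [ae_ev_swap, ev_map, D.root]
    · rw [ae_swap_map, derivative_map, ev_map]
      unfold DynField.PX dX
      rw [← ae_ev_swap D.x D.u, Bivariate.swap_swap_apply]
    · intro b hb
      obtain ⟨n, hn⟩ := ae_clear D.x D.u D.PX D.PX_mem hX b hb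
      obtain ⟨g, hg⟩ := (D.mem_A_iff _).mp hn
      exact ⟨n, Bivariate.swap g, by rw [ae_ev_swap]; exact hg⟩
    · intro g hg
      have h1 : ev D.x D.u (Bivariate.swap g) = 0 := by rw [ae_ev_swap]; exact hg
      obtain ⟨h, hh⟩ := D.ker _ h1
      refine ⟨Bivariate.swap h, ?_⟩
      rw [← map_mul, ← hh, Bivariate.swap_swap_apply]

end DynBad
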