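import Pool.Agent.DynBad.Val

/-!
# Module EtaleNormal: étale over a normal domain is normal

Let `R'` be an integrally closed domain, `C` a domain, étale over `R'`.  Then `C` is integrally
closed.  Proof: let `L = Frac R'`.  Mathlib
(`TensorProduct.toIntegralClosure_bijective_of_smooth`, file
`Mathlib/RingTheory/Smooth/IntegralClosure.lean`): `C ⊗ integralClosure R' L →
integralClosure C (C ⊗ L)` is bijective, and `integralClosure R' L = R'`, so `C` is integrally
closed in `C ⊗ L`.  `R' → C` is injective (flat, `C` a nonzero domain), `C ⊗ L` is the localization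
of `C` at the nonzero elements of `R'`, so it is a domain, étale over the field `L`, hence finite
over `L`, hence a field, hence `= Frac C`.

`chart_normal`: apply this to `R' = ℤ_p[T]` (a UFD, so integrally closed) and `C = S`.
`loc_normal`: a localization of an integrally closed domain is integrally closed.
-/

namespace DynBad

open Polynomial

/-- the same without assuming `C` a domain a priori embedded: if `C` is a domain étale over the
domain `R'`, then `R' → C` is injective -/
theorem etale_injective (R' C : Type*) [CommRing R'] [IsDomain R'] [CommRing C] [IsDomain C]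
    [Algebra R' C] [Algebra.Etale R' C] : Function.Injective (algebraMap R' C) := by
  rw [injective_iff_map_eq_zero]
  intro r hr
  by_contra h0
  have h1 : IsSMulRegular C r :=
    Module.Flat.isSMulRegular_of_nonZeroDivisors (mem_nonZeroDivisors_of_ne_zero h0)
  have h2 : (1 : C) = 0 := h1 (by simp [Algebra.smul_def, hr])
  exact one_ne_zero h2

private theorem le_nzd (R' C : Type*) [CommRing R'] [IsDomain R'] [CommRing C]
    [IsDomain C] [Algebra R' C] [Algebra.Etale R' C] :
    Algebra.algebraMapSubmonoid C (nonZeroDivisors R') ≤ nonZeroDivisors C := by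
  rintro _ ⟨r, hr, rfl⟩
  apply mem_nonZeroDivisors_of_ne_zero
  intro h
  exact nonZeroDivisors.ne_zero hr ((injective_iff_map_eq_zero _).1 (etale_injective R' C) r h)

open TensorProduct in
private theorem isField_tensor (R' C : Type*) [CommRing R'] [IsDomain R'] [CommRing C]
    [IsDomain C] [Algebra R' C] [Algebra.Etale R' C] :
    IsField (C ⊗[R'] FractionRing R') := by
  have hle := le_nzd R' C
  have hD : IsDomain (C ⊗[R'] FractionRing R') :=
    IsLocalization.isDomain_of_le_nonZeroDivisors _ hle
  let e := Algebra.TensorProduct.comm R' C (FractionRing R')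
  have hD' : IsDomain (FractionRing R' ⊗[R'] C) := e.symm.toMulEquiv.isDomain _
  have hfin : Module.Finite (FractionRing R') (FractionRing R' ⊗[R'] C) :=
    Algebra.FormallyUnramified.finite_of_free _ _
  have hF : IsField (FractionRing R' ⊗[R'] C) :=
    isField_of_isIntegral_of_isField' (Field.toIsField (FractionRing R'))
  exact e.toMulEquiv.isField hF

open TensorProduct in
theorem etale_isIntegrallyClosed (R' C : Type*) [CommRing R'] [IsDomain R']
    [IsIntegrallyClosed R'] [CommRing C] [IsDomain C] [Algebra R' C] [Algebra.Etale R' C] :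
    IsIntegrallyClosed C := by
  have hF := isField_tensor R' C
  have hle := le_nzd R' C
  have hinj : Function.Injective (algebraMap C (C ⊗[R'] FractionRing R')) :=
    IsLocalization.injective _ hle
  have hfr : IsFractionRing C (C ⊗[R'] FractionRing R') :=
    IsLocalization.of_le (Algebra.algebraMapSubmonoid C (nonZeroDivisors R')) _ hle
      (fun c hc => by
        have hc0 : algebraMap C (C ⊗[R'] FractionRing R') c ≠ 0 := by
          intro h
          exact nonZeroDivisors.ne_zero hc ((injective_iff_map_eq_zero _).1 hinj c h)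
        obtain ⟨b, hb⟩ := hF.mul_inv_cancel hc0
        exact IsUnit.of_mul_eq_one b hb)
  rw [isIntegrallyClosed_iff (C ⊗[R'] FractionRing R')]
  intro x hx
  obtain ⟨y, hy⟩ := (TensorProduct.toIntegralClosure_bijective_of_smooth (R := R') (S := C)
    (B := FractionRing R')).2 ⟨x, hx⟩
  have key : ∀ y : C ⊗[R'] integralClosure R' (FractionRing R'),
      ∃ c : C, algebraMap C (C ⊗[R'] FractionRing R') c =
        (TensorProduct.toIntegralClosure R' C (FractionRing R') y : C ⊗[R'] FractionRing R') := by
    intro y
    induction y with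
    | zero => exact ⟨0, by simp⟩
    | add a b ha hb =>
      obtain ⟨c, hc⟩ := ha
      obtain ⟨d, hd⟩ := hb
      exact ⟨c + d, by rw [map_add, hc, hd, map_add]; rfl⟩
    | tmul c l =>
      have hl : (l : FractionRing R') ∈ (⊥ : Subalgebra R' (FractionRing R')) := by
        rw [← IsIntegrallyClosed.integralClosure_eq_bot R' (FractionRing R')]
        exact l.2
      obtain ⟨r, hr⟩ := Algebra.mem_bot.1 hl
      refine ⟨r • c, ?_⟩
      have h1 : (TensorProduct.toIntegralClosure R' C (FractionRing R') (c ⊗ₜ l) :
          C ⊗[R'] FractionRing R') = c ⊗ₜ (l : FractionRing R') := rfl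
      rw [h1, ← hr, Algebra.TensorProduct.algebraMap_apply, Algebra.algebraMap_self,
        RingHom.id_apply, Algebra.algebraMap_eq_smul_one r, TensorProduct.tmul_smul,
        TensorProduct.smul_tmul']
  obtain ⟨c, hc⟩ := key y
  exact ⟨c, by rw [hc, hy]⟩

section
variable {p : ℕ} [Fact p.Prime] {K : Type*} [Field K] [Algebra ℤ_[p] K]

theorem chart_normal (S : Subalgebra ℤ_[p] K) (hS : EtaleChart S) (z : K) (hz : IsIntegral S z) :
    z ∈ S := by
  obtain ⟨t, ht⟩ := hS.etale
  let : Algebra ℤ_[p][X] S := ((Polynomial.aeval t : ℤ_[p][X] →ₐ[ℤ_[p]] S) :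
    ℤ_[p][X] →+* S).toAlgebra
  have : Algebra.Etale ℤ_[p][X] S := ht
  have hc : IsIntegrallyClosed S := etale_isIntegrallyClosed ℤ_[p][X] S
  have hfr : IsFractionRing S K := IsFractionRing.of_field S K fun z => by
    obtain ⟨a, ha, b, hb, hb0, h⟩ := hS.frac z
    exact ⟨⟨a, ha⟩, ⟨b, hb⟩, by
      change z = a / b
      rw [← h]
      field_simp⟩
  obtain ⟨y, hy⟩ := (isIntegrallyClosed_iff K).1 hc hz
  rw [← hy]
  exact y.2

end

theorem loc_normal {R K : Type*} [CommRing R] [Field K] [Algebra R K] (S : Subalgebra R K)
    (hfr : Frac S) (h : ∀ z : K, IsIntegral S z → z ∈ S) (V : ValuationSubring K) (hSV : Le S V)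
    (z : K) (hz : IsIntegral (loc V S) z) : z ∈ loc V S := by
  let M : Submonoid S :=
    { carrier := {b | V.valuation (b : K) = 1}
      mul_mem' := fun {a b} ha hb => by
        change V.valuation ((a * b : S) : K) = 1
        change V.valuation (a : K) = 1 at ha
        change V.valuation (b : K) = 1 at hb
        rw [MulMemClass.coe_mul, map_mul, ha, hb, one_mul]
      one_mem' := by simp }
  let i : S →+* loc V S :=
    { toFun := fun a => ⟨a, le_loc V S a.2⟩
      map_one' := rfl
      map_mul' := fun _ _ => rfl
      map_zero' := rfl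
      map_add' := fun _ _ => rfl }
  let : Algebra S (loc V S) := i.toAlgebra
  have : IsScalarTower S (loc V S) K := IsScalarTower.of_algebraMap_eq fun _ => rfl
  have hloc : IsLocalization M (loc V S) :=
    { map_units := fun ⟨b, hb⟩ => by
        have hb1 : V.valuation (b : K) = 1 := hb
        have hb0 : (b : K) ≠ 0 := by
          intro h0
          rw [h0, map_zero] at hb1
          exact zero_ne_one hb1
        refine IsUnit.of_mul_eq_one ⟨(b : K)⁻¹, loc_inv (le_loc V S b.2) hb1⟩ ?_
        apply Subtype.ext
        exact mul_inv_cancel₀ hb0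
      surj := fun z => by
        obtain ⟨a, ha, b, hb, hb1, hab⟩ := z.2
        exact ⟨(⟨a, ha⟩, ⟨⟨b, hb⟩, hb1⟩), Subtype.ext hab⟩
      exists_of_eq := fun {a b} hab => ⟨1, by
        have : (a : K) = b := congrArg (fun w : loc V S => (w : K)) hab
        rw [Subtype.ext this]⟩ }
  obtain ⟨m, hm⟩ := IsIntegral.exists_multiple_integral_of_isLocalization M z hz
  have h1 := h _ hm
  exact ⟨_, h1, (m : S), (m : S).2, m.2, by
    rw [Submonoid.smul_def, Algebra.smul_def, mul_comm]
    rfl⟩

end DynBad
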