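import Pool.Agent.DynBad.GaussW
import Pool.Agent.DynBad.EtaleNormal

/-!
# Module ANormal: the coordinate ring `A = ℤ_p[x,u]` is integrally closed in `K`

Let `z ∈ K` be integral over `A`.
(1) `z ∈ A[1/p]`: the ideal of denominators `I = {b ∈ A : b z ∈ A}`.  If a prime `𝔮 ⊇ I` of `A` does
not contain `p`, take a valuation ring `V` with centre `𝔮` (`exists_val_subalgebra`); `z ∈ V`
(integral), `v(p) = 1`, so `V = loc V A` (`A_zero`), `z = a/b`, `b ∉ 𝔮`, contradiction.  So
`p ∈ √I`, i.e. `p^n z ∈ A` for some `n`; take `n` minimal and suppose `n ≥ 1`.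
(2) `a = p^n z ∈ A` is not in `p A`.  Write `a = P(x,u)` with `P ∈ ℤ_p[X][U]` of degree `< m`
in `U`, `m = deg Φ_N` (division by the monic `Φ_N`); not all coefficients of `P` are divisible by
`p`, so `P̄ ∈ 𝔽_p[X][U]` is nonzero of degree `< m`.  `Φ̄_N` is separable over `𝔽_p(X)`
(`generic_of_not_integral` over an algebraic closure of `𝔽_p(X)`), so there is a root `w` of
`Φ̄_N(X,·)` in an algebraic closure `Ω` of `𝔽_p(X)` with `P̄(X, w) ≠ 0` (else `P̄` would have `m`
distinct roots).  The homomorphism `A → Ω`, `x ↦ X`, `u ↦ w` (exists by `D.ker`), has prime kernel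
`𝔮 ∋ p`; let `W` be a valuation ring with centre `𝔮`.  `W` is Gauss (`x̄` is transcendental) and
`W.valuation a = 1`.  But `z ∈ W` and `a = p^n z`, `n ≥ 1`, gives `W.valuation a < 1`.
-/

namespace DynBad

open Polynomial

variable {p : ℕ} [Fact p.Prime] {K : Type*} [Field K] [CharZero K] [Algebra ℤ_[p] K] {N : ℕ}

/-- Part (1): denominators are powers of `p`. -/
private theorem exists_pow_mul_mem (D : DynField p N K) (hN : 1 ≤ N) (z : K)
    (hz : IsIntegral D.A z) : ∃ n : ℕ, (p : K) ^ n * z ∈ D.A := by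
  let I : Ideal D.A :=
    { carrier := {b | (b : K) * z ∈ D.A}
      add_mem' := fun {a b} ha hb => by
        change ((a + b : D.A) : K) * z ∈ D.A
        rw [AddMemClass.coe_add, add_mul]
        exact D.A.add_mem ha hb
      zero_mem' := by
        change ((0 : D.A) : K) * z ∈ D.A
        rw [ZeroMemClass.coe_zero, zero_mul]
        exact D.A.zero_mem
      smul_mem' := fun c a ha => by
        change ((c * a : D.A) : K) * z ∈ D.A
        rw [MulMemClass.coe_mul, mul_assoc]
        exact D.A.mul_mem c.2 ha }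
  by_cases hp : ((p : ℕ) : D.A) ∈ I.radical
  · obtain ⟨n, hn⟩ := hp
    refine ⟨n, ?_⟩
    have h1 : (((p : ℕ) : D.A) ^ n : D.A) * z ∈ D.A := hn
    simpa using h1
  · exfalso
    rw [Ideal.radical_eq_sInf, Ideal.mem_sInf] at hp
    push Not at hp
    obtain ⟨q, ⟨hIq, hq⟩, hpq⟩ := hp
    obtain ⟨V, hV, hV'⟩ := exists_val_subalgebra D.A q
    have hzV : z ∈ V := mem_of_isIntegral_subalgebra V hV hz
    have hp1 : V.valuation (p : K) = 1 := by
      have h1 : V.valuation (p : K) ≤ 1 := by
        rw [V.valuation_le_one_iff]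
        exact natCast_mem V p
      have h3 : ¬ V.valuation (p : K) < 1 := by
        intro h
        apply hpq
        rw [← hV' ((p : ℕ) : D.A)]
        simpa using h
      exact le_antisymm h1 (not_lt.1 h3)
    obtain ⟨a, ha, b, hb, hb1, hab⟩ := D.A_zero hN V hV hp1 z hzV
    have h4 : (⟨b, hb⟩ : D.A) ∈ I := by
      change b * z ∈ D.A
      rw [mul_comm, hab]
      exact ha
    have h5 := (hV' ⟨b, hb⟩).2 (hIq h4)
    change V.valuation b < 1 at h5
    rw [hb1] at h5
    exact lt_irrefl _ h5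

/-- The algebraically closed field used for the reduction. -/
private theorem exists_omega (p : ℕ) [Fact p.Prime] : ∃ (Ω : Type) (_ : Field Ω)
    (_ : IsAlgClosed Ω) (j : (ZMod p)[X] →+* Ω), Function.Injective j ∧ (p : Ω) = 0 ∧
      ¬ IsIntegral ℤ (j X) := by
  have hinj : Function.Injective ((algebraMap (FractionRing (ZMod p)[X])
      (AlgebraicClosure (FractionRing (ZMod p)[X]))).comp
        (algebraMap (ZMod p)[X] (FractionRing (ZMod p)[X]))) :=
    (algebraMap (FractionRing (ZMod p)[X])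
      (AlgebraicClosure (FractionRing (ZMod p)[X]))).injective.comp
      (IsFractionRing.injective (ZMod p)[X] _)
  refine ⟨AlgebraicClosure (FractionRing (ZMod p)[X]), inferInstance, inferInstance, _, hinj, ?_, ?_⟩
  · have h1 : ((p : ℕ) : (ZMod p)[X]) = 0 := by
      have h2 : ((p : ℕ) : (ZMod p)[X]) = C ((p : ℕ) : ZMod p) := by simp
      rw [h2, ZMod.natCast_self, C_0]
    have h3 := congrArg ((algebraMap (FractionRing (ZMod p)[X])
      (AlgebraicClosure (FractionRing (ZMod p)[X]))).comp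
        (algebraMap (ZMod p)[X] (FractionRing (ZMod p)[X]))) h1
    rwa [map_natCast, map_zero] at h3
  · intro hi
    obtain ⟨P, hP, hP0⟩ := hi
    generalize (algebraMap (FractionRing (ZMod p)[X])
      (AlgebraicClosure (FractionRing (ZMod p)[X]))).comp
        (algebraMap (ZMod p)[X] (FractionRing (ZMod p)[X])) = φ at hP0 hinj
    have h1 : φ (P.map (Int.castRingHom (ZMod p))) = 0 := by
      rw [← hP0]
      have h3 : P.map (Int.castRingHom (ZMod p)) =
          eval₂ (C.comp (Int.castRingHom (ZMod p))) X P := rfl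
      rw [h3, hom_eval₂]
      congr 1
      exact RingHom.ext_int _ _
    rw [map_eq_zero_iff _ hinj] at h1
    exact (hP.map (Int.castRingHom (ZMod p))).ne_zero h1

theorem DynField.A_normal (D : DynField p N K) (hN : 1 ≤ N) (z : K) (hz : IsIntegral D.A z) :
    z ∈ D.A := by
  classical
  have h1 := exists_pow_mul_mem D hN z hz
  let n := Nat.find h1
  have hn : (p : K) ^ n * z ∈ D.A := Nat.find_spec h1
  rcases Nat.eq_zero_or_pos n with h0 | hpos
  · rw [h0] at hn
    simpa using hn
  exfalso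
  have hn' : ¬ (p : K) ^ (n - 1) * z ∈ D.A := Nat.find_min h1 (by omega)
  have hpK : (p : K) ≠ 0 := Nat.cast_ne_zero.2 (Fact.out : p.Prime).ne_zero
  obtain ⟨P, hP⟩ := (D.mem_A_iff _).1 hn
  set Φ : ℤ_[p][X][X] := (Phi N).map (mapRingHom (Int.castRingHom ℤ_[p])) with hΦ
  have hΦm : Φ.Monic := (Phi_monic hN).map _
  have hΦ0 : ev D.x D.u Φ = 0 := by
    rw [hΦ, ev_map]
    exact D.root
  set Q : ℤ_[p][X][X] := P %ₘ Φ with hQ
  have hPQ : ev D.x D.u Q = (p : K) ^ n * z := by
    have h3 := congrArg (ev D.x D.u) (modByMonic_add_div P Φ)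
    rw [map_add, map_mul, hΦ0, zero_mul, add_zero] at h3
    rw [hP, ← h3]
  have hdeg : Q.degree < Φ.degree := degree_modByMonic_lt P hΦm
  -- not all coefficients are divisible by `p`
  have hQ0 : Q.map (mapRingHom (PadicInt.toZMod (p := p))) ≠ 0 := by
    intro h
    apply hn'
    have h3 : ∀ i k, (p : ℤ_[p]) ∣ (Q.coeff i).coeff k := by
      intro i k
      have h4 := congrArg (fun R => (R.coeff i).coeff k) h
      simp only [coeff_map, coe_mapRingHom, coeff_zero] at h4
      have h5 : (Q.coeff i).coeff k ∈ RingHom.ker (PadicInt.toZMod (p := p)) := h4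
      rw [PadicInt.ker_toZMod, PadicInt.maximalIdeal_eq_span_p, Ideal.mem_span_singleton] at h5
      exact h5
    have h4 : C (C (p : ℤ_[p])) ∣ Q := by
      rw [C_dvd_iff_dvd_coeff]
      intro i
      rw [C_dvd_iff_dvd_coeff]
      exact h3 i
    obtain ⟨R, hR⟩ := h4
    rw [D.mem_A_iff]
    refine ⟨R, ?_⟩
    have h5 := hPQ
    rw [hR, map_mul, ev_CC, map_natCast] at h5
    have h6 : (p : K) ^ n = (p : K) * (p : K) ^ (n - 1) := by
      rw [← pow_succ']
      congr 1
      omega
    rw [h6, mul_assoc] at h5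
    exact (mul_left_cancel₀ hpK h5).symm
  obtain ⟨Ω, _, _, j, hj, hpΩ, hjX⟩ := exists_omega p
  set x₀ : Ω := j X with hx₀
  let g₀ : ℤ_[p][X] →+* Ω := j.comp (mapRingHom (PadicInt.toZMod (p := p)))
  -- the reduction of `Φ` over `Ω`
  have hcomp : ∀ w : Ω, ∀ T : ℤ[X][X],
      eval w ((T.map (mapRingHom (Int.castRingHom ℤ_[p]))).map g₀) = ev x₀ w T := by
    intro w T
    have h3 : (((evalRingHom w).comp (mapRingHom g₀)).comp
        (mapRingHom (mapRingHom (Int.castRingHom ℤ_[p])))) = ev x₀ w := by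
      apply Polynomial.ringHom_ext'
      · apply Polynomial.ringHom_ext'
        · exact RingHom.ext_int _ _
        · simp [g₀, ev, hx₀]
      · simp [ev]
    exact congr($h3 T)
  have hsep : (Φ.map g₀).Separable := by
    rw [separable_def, isCoprime_iff_aeval_ne_zero_of_isAlgClosed Ω Ω]
    intro w
    by_contra hcon
    push Not at hcon
    obtain ⟨h3, h4⟩ := hcon
    rw [coe_aeval_eq_eval] at h3 h4
    rw [hΦ, hcomp] at h3
    rw [hΦ, derivative_map, derivative_map, hcomp] at h4
    exact (generic_of_not_integral hN h3 hjX).2.1 h4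
  have hQ1 : Q.map g₀ ≠ 0 := by
    have h3 : Q.map g₀ = (Q.map (mapRingHom (PadicInt.toZMod (p := p)))).map j := by
      rw [Polynomial.map_map]
    rw [h3]
    intro h4
    exact hQ0 ((Polynomial.map_eq_zero_iff hj).1 h4)
  have hdeg' : (Q.map g₀).natDegree < (Φ.map g₀).natDegree := by
    have h3 : (Φ.map g₀).degree = Φ.degree := hΦm.degree_map g₀
    exact natDegree_lt_natDegree hQ1 (by rw [h3]; exact (degree_map_le).trans_lt hdeg)
  have hw : ∃ w : Ω, eval w (Φ.map g₀) = 0 ∧ eval w (Q.map g₀) ≠ 0 := by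
    by_contra hcon
    push Not at hcon
    have h3 : (Φ.map g₀).roots.card = (Φ.map g₀).natDegree :=
      (splits_iff_card_roots.1 (IsAlgClosed.splits _))
    have h4 : (Φ.map g₀).roots.toFinset ⊆ (Q.map g₀).roots.toFinset := by
      intro w hw
      rw [Multiset.mem_toFinset, mem_roots'] at hw ⊢
      exact ⟨hQ1, hcon w hw.2⟩
    have h5 : (Φ.map g₀).roots.toFinset.card = (Φ.map g₀).roots.card :=
      Multiset.toFinset_card_of_nodup (nodup_roots hsep)
    have h6 := Finset.card_le_card h4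
    have h7 : (Q.map g₀).roots.toFinset.card ≤ (Q.map g₀).natDegree :=
      (Multiset.toFinset_card_le _).trans (card_roots' _)
    omega
  obtain ⟨w, hw0, hw1⟩ := hw
  let g : ℤ_[p][X][X] →+* Ω := eval₂RingHom g₀ w
  have hg : ∀ T, g T = eval w (T.map g₀) := fun T => by
    rw [eval_map]
    rfl
  let f : ℤ_[p][X][X] →+* D.A := (ev D.x D.u).codRestrict D.A (fun T => (D.mem_A_iff _).2 ⟨T, rfl⟩)
  have hf : Function.Surjective f := by
    rintro ⟨y, hy⟩
    obtain ⟨T, hT⟩ := (D.mem_A_iff y).1 hy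
    exact ⟨T, Subtype.ext hT.symm⟩
  have hker : RingHom.ker f ≤ RingHom.ker g := by
    intro T hT
    have h3 : ev D.x D.u T = 0 := congrArg Subtype.val hT
    obtain ⟨R, hR⟩ := D.ker T h3
    rw [RingHom.mem_ker, hR, map_mul, ← hΦ, hg, hw0, zero_mul]
  let ψ : D.A →+* Ω := RingHom.liftOfSurjective f hf ⟨g, hker⟩
  have hψ : ∀ T, ψ (f T) = g T := fun T => RingHom.liftOfRightInverse_comp_apply _ _ _ ⟨g, hker⟩ T
  have hprime : (RingHom.ker ψ).IsPrime := RingHom.ker_isPrime ψ
  obtain ⟨W, hW, hW'⟩ := exists_val_subalgebra D.A (RingHom.ker ψ)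
  have hzW : z ∈ W := mem_of_isIntegral_subalgebra W hW hz
  have hpW : W.valuation (p : K) < 1 := by
    have h3 : W.valuation (((p : ℕ) : D.A) : K) < 1 := by
      rw [hW', RingHom.mem_ker, map_natCast]
      exact hpΩ
    simpa using h3
  have haW : ¬ W.valuation ((p : K) ^ n * z) < 1 := by
    have h3 : (⟨(p : K) ^ n * z, hn⟩ : D.A) = f Q := Subtype.ext hPQ.symm
    intro h4
    have h5 := (hW' ⟨(p : K) ^ n * z, hn⟩).1 h4
    rw [RingHom.mem_ker, h3, hψ, hg] at h5
    exact hw1 h5
  apply haW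
  rw [map_mul, map_pow]
  have h3 : W.valuation z ≤ 1 := (W.valuation_le_one_iff z).2 hzW
  have h4 : W.valuation (p : K) ^ n < 1 := pow_lt_one₀ zero_le hpW (by omega)
  exact mul_lt_one_of_lt_of_le h4 h3

end DynBad
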