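import Pool.Agent.DynBad.DynDer

/-!
# Module EtaMem: where the differential `η` is regular

`η = (∏_{q ∣ N prime} F_{N/q}) / aa`, `aa = PU * ∏_{d ∣ N, d < N} Φ_d(x,u)` (`aa_eq_of_root`).

`eta_eq`: every proper divisor `d` of `N` divides `N/q` for some prime `q ∣ N`, so
`∏_q F_{N/q} = ∏_q ∏_{d ∣ N/q} Φ_d(x,u) = (∏_{d ∣ N, d<N} Φ_d(x,u)) g` with `g ∈ A`
(exponent of `Φ_d` is the number of `q` with `d ∣ N/q`, which is `≥ 1`), so `η = g/PU`.

`eta_mem_of_smooth`: `η = g/PU = (g/PU) δx = - (g/PX) δu` (`der_u`).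

`eta_mem_of_cusp`: `|F_{N/q}| ≤ |x|` (`cusp_F`), `|aa| = |x|^(N-1)` (`cusp_aa`), and the number
`ω(N)` of primes dividing `N` satisfies `ω(N) ≤ N - 3` for `N ≥ 4`
(`N = 4, 5, 6` by hand; `ω(N) ≤ log₂ N`).  So `|η| ≤ |x|^(-2)` and
`η = - (η x^2) δ(x⁻¹)` with `x⁻¹, η x^2 ∈ V` (`δ(x⁻¹) = - x^(-2)`).

`eta_regular`: for `v(p) = 1` either `x ∉ V`, or `A ≤ V` and `unit_partial`.
-/

namespace DynBad

open Polynomial

variable {p : ℕ} [Fact p.Prime] {K : Type*} [Field K] [CharZero K] [Algebra ℤ_[p] K] {N : ℕ}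

private lemma exists_prime_factor {N d : ℕ} (h : d ∈ N.properDivisors) :
    ∃ q ∈ N.primeFactors, d ∣ N / q := by
  rw [Nat.mem_properDivisors] at h
  obtain ⟨⟨m, rfl⟩, hlt⟩ := h
  have hm : m ≠ 1 := by
    rintro rfl
    simp at hlt
  obtain ⟨q, hq, hqm⟩ := Nat.exists_prime_and_dvd hm
  obtain ⟨k, rfl⟩ := hqm
  refine ⟨q, ?_, ?_⟩
  · rw [Nat.mem_primeFactors]
    exact ⟨hq, ⟨d * k, by ring⟩, by omega⟩
  · have : d * (q * k) / q = d * k := by
      rw [show d * (q * k) = q * (d * k) by ring]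
      exact Nat.mul_div_cancel_left _ hq.pos
    rw [this]
    exact dvd_mul_right d k

private lemma prod_Phi_dvd {N : ℕ} (hN : 1 ≤ N) :
    (∏ d ∈ N.properDivisors, Phi d) ∣ ∏ q ∈ N.primeFactors, FP (N / q) := by
  classical
  choose! f hf using fun (d : ℕ) (h : d ∈ N.properDivisors) => exists_prime_factor h
  rw [← Finset.prod_fiberwise_of_maps_to (t := N.primeFactors) (g := f) (fun d hd => (hf d hd).1)]
  refine Finset.prod_dvd_prod_of_dvd _ _ (fun q hq => ?_)
  have hq' := Nat.mem_primeFactors.1 hq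
  have h1 : 1 ≤ N / q := Nat.div_pos (Nat.le_of_dvd hN hq'.2.1) hq'.1.pos
  rw [← prod_Phi h1]
  refine Finset.prod_dvd_prod_of_subset _ _ _ (fun d hd => ?_)
  rw [Finset.mem_filter] at hd
  rw [Nat.mem_divisors]
  have := (hf d hd.1).2
  rw [hd.2] at this
  exact ⟨this, by omega⟩

private lemma ev_mem_A (D : DynField p N K) (G : ℤ[X][X]) : ev D.x D.u G ∈ D.A := by
  rw [D.mem_A_iff]
  exact ⟨G.map (mapRingHom (Int.castRingHom ℤ_[p])), (ev_map D.x D.u G).symm⟩

private lemma card_primeFactors_add {N : ℕ} (hN : 4 ≤ N) : N.primeFactors.card + 3 ≤ N := by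
  rcases Nat.lt_or_ge 4 N with h | h
  · have hsub : N.primeFactors ⊆ ((((Finset.range (N + 1)).erase 0).erase 1).erase (N - 1)).erase
        (N - 2) := by
      intro q hq
      have hq' := Nat.mem_primeFactors.1 hq
      have hle := Nat.le_of_dvd (by omega) hq'.2.1
      have h2 := hq'.1.two_le
      simp only [Finset.mem_erase, Finset.mem_range]
      refine ⟨?_, ?_, by omega, by omega, by omega⟩
      · rintro rfl
        have h3 : (N - 2) ∣ N - (N - 2) := Nat.dvd_sub hq'.2.1 dvd_rfl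
        have h4 := Nat.le_of_dvd (by omega) h3
        omega
      · rintro rfl
        have h3 : (N - 1) ∣ N - (N - 1) := Nat.dvd_sub hq'.2.1 dvd_rfl
        have h4 := Nat.le_of_dvd (by omega) h3
        omega
    have hc := Finset.card_le_card hsub
    rw [Finset.card_erase_of_mem, Finset.card_erase_of_mem, Finset.card_erase_of_mem,
      Finset.card_erase_of_mem, Finset.card_range] at hc
    · omega
    all_goals
      simp only [Finset.mem_erase, Finset.mem_range]
      omega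
  · have : N = 4 := by omega
    subst this
    have h4 : Nat.primeFactors 4 = {2} := by
      rw [show (4 : ℕ) = 2 ^ 2 by norm_num, Nat.primeFactors_prime_pow (by norm_num)
        Nat.prime_two]
    rw [h4]
    simp

theorem DynField.eta_eq (D : DynField p N K) (hN : 1 ≤ N) :
    ∃ g ∈ D.A, D.eta = g / D.PU := by
  obtain ⟨G, hG⟩ := prod_Phi_dvd hN
  refine ⟨ev D.x D.u G, ev_mem_A D G, ?_⟩
  obtain ⟨hF, haa, hPU, hPhi, hFk⟩ := D.generic hN
  have h1 : ∏ q ∈ N.primeFactors, F D.x D.u (N / q) =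
      (∏ d ∈ N.properDivisors, ev D.x D.u (Phi d)) * ev D.x D.u G := by
    have := congrArg (ev (R := ℤ) D.x D.u) hG
    rw [map_prod, map_mul, map_prod] at this
    rw [← this]
    exact Finset.prod_congr rfl (fun q _ => (ev_FP _ _ _).symm)
  have h2 : (∏ d ∈ N.properDivisors, ev D.x D.u (Phi d)) ≠ 0 :=
    Finset.prod_ne_zero_iff.2 hPhi
  have h3 := aa_eq_of_root D.x D.u hN D.root
  unfold DynField.eta
  rw [h1, h3]
  change _ / (D.PU * _) = _
  rw [mul_comm D.PU, mul_div_mul_left _ _ h2]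

theorem DynField.eta_ne_zero (D : DynField p N K) (hN : 2 ≤ N) : D.eta ≠ 0 := by
  obtain ⟨hF, haa, hPU, hPhi, hFk⟩ := D.generic (by omega)
  refine div_ne_zero (Finset.prod_ne_zero_iff.2 (fun q hq => ?_)) haa
  have hq' := Nat.mem_primeFactors.1 hq
  exact hFk _ (Nat.div_pos (Nat.le_of_dvd (by omega) hq'.2.1) hq'.1.pos)
    (Nat.div_lt_self (by omega) hq'.1.one_lt)

theorem DynField.eta_mem_of_smooth (D : DynField p N K) (hN : 1 ≤ N) (δ : Derivation ℤ_[p] K K)
    (hδ : δ D.x = 1) (V : ValuationSubring K) (hV : Le D.A V)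
    (h : V.valuation D.PU = 1 ∨ V.valuation D.PX = 1) : D.eta ∈ Lam δ V.toSubring := by
  obtain ⟨g, hg, hη⟩ := D.eta_eq hN
  obtain ⟨hF, haa, hPU, hPhi, hFk⟩ := D.generic hN
  have hgV : V.valuation g ≤ 1 := (V.valuation_le_one_iff _).2 (hV g hg)
  rcases h with h | h
  · have hm : g / D.PU ∈ V := by
      rw [← V.valuation_le_one_iff, map_div₀, h, div_one]
      exact hgV
    have h1 : δ D.x ∈ Lam δ V.toSubring :=
      Submodule.subset_span ⟨D.x, hV _ D.x_mem, rfl⟩
    have h2 := Submodule.smul_mem (Lam δ V.toSubring) (⟨g / D.PU, hm⟩ : V.toSubring) h1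
    rw [hη]
    have h3 : (⟨g / D.PU, hm⟩ : V.toSubring) • δ D.x = g / D.PU := by
      rw [hδ]
      change (g / D.PU) * 1 = _
      rw [mul_one]
    rwa [h3] at h2
  · have hPX : D.PX ≠ 0 := by
      intro h0
      rw [h0] at h
      simp at h
    have hm : -(g / D.PX) ∈ V := by
      rw [← V.valuation_le_one_iff, Valuation.map_neg, map_div₀, h, div_one]
      exact hgV
    have h1 : δ D.u ∈ Lam δ V.toSubring :=
      Submodule.subset_span ⟨D.u, hV _ D.u_mem, rfl⟩
    have h2 := Submodule.smul_mem (Lam δ V.toSubring) (⟨-(g / D.PX), hm⟩ : V.toSubring) h1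
    rw [hη]
    have h3 : (⟨-(g / D.PX), hm⟩ : V.toSubring) • δ D.u = g / D.PU := by
      change (-(g / D.PX)) * δ D.u = _
      have h4 := (D.der_u hN δ hδ).1
      have h5 : δ D.u = - D.PX / D.PU := by
        rw [eq_div_iff hPU, mul_comm]
        exact h4
      rw [h5]
      field_simp
    rwa [h3] at h2

theorem DynField.eta_mem_of_cusp (D : DynField p N K) (hN : 4 ≤ N) (δ : Derivation ℤ_[p] K K)
    (hδ : δ D.x = 1) (V : ValuationSubring K) (hx : D.x ∉ V) : D.eta ∈ Lam δ V.toSubring := by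
  obtain ⟨hF, haa, hPU, hPhi, hFk⟩ := D.generic (by omega : 1 ≤ N)
  have hx1 : 1 < V.valuation D.x := by
    rw [← not_le, V.valuation_le_one_iff]
    exact hx
  have hx0 : D.x ≠ 0 := by
    intro h0
    rw [h0] at hx
    exact hx V.zero_mem
  have hxi : D.x⁻¹ ∈ V := (V.mem_or_inv_mem D.x).resolve_left hx
  have hprod : V.valuation (∏ q ∈ N.primeFactors, F D.x D.u (N / q)) ≤
      V.valuation D.x ^ N.primeFactors.card := by
    rw [map_prod]
    exact Finset.prod_le_pow_card _ _ _ (fun q _ => cusp_F V (by omega) hF hx _)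
  have hm : -(D.eta * D.x ^ 2) ∈ V := by
    rw [← V.valuation_le_one_iff, Valuation.map_neg, map_mul, map_pow]
    unfold DynField.eta
    rw [map_div₀, cusp_aa V (by omega) hF hx (by omega : 1 ≤ N), div_mul_eq_mul_div]
    refine div_le_one_of_le₀ ?_ zero_le'
    calc _ ≤ V.valuation D.x ^ N.primeFactors.card * V.valuation D.x ^ 2 := by gcongr
      _ = V.valuation D.x ^ (N.primeFactors.card + 2) := by rw [pow_add]
      _ ≤ V.valuation D.x ^ (N - 1) :=
        pow_le_pow_right₀ hx1.le (by have := card_primeFactors_add hN; omega)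
  have h1 : δ D.x⁻¹ ∈ Lam δ V.toSubring :=
    Submodule.subset_span ⟨D.x⁻¹, hxi, rfl⟩
  have h2 := Submodule.smul_mem (Lam δ V.toSubring) (⟨-(D.eta * D.x ^ 2), hm⟩ : V.toSubring) h1
  have h3 : (⟨-(D.eta * D.x ^ 2), hm⟩ : V.toSubring) • δ D.x⁻¹ = D.eta := by
    change (-(D.eta * D.x ^ 2)) * δ D.x⁻¹ = _
    rw [Derivation.leibniz_inv, hδ, smul_eq_mul]
    field_simp
  rwa [h3] at h2

theorem DynField.eta_regular (D : DynField p N K) (hN : 4 ≤ N) (δ : Derivation ℤ_[p] K K)
    (hδ : δ D.x = 1) : Regular δ D.eta := by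
  intro V hV hp
  by_cases hx : D.x ∈ V
  · have hA := D.mem_of_x (by omega) V hV hx
    exact D.eta_mem_of_smooth (by omega) δ hδ V hA (D.unit_partial (by omega) V hA hp)
  · exact D.eta_mem_of_cusp hN δ hδ V hx

end DynBad
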