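import Pool.Agent.DynBad.EtaleNormal

/-!
# Module EtaleLoc: unramifiedness and flatness of an étale chart

`S ⊆ K` étale over `ℤ_p[T]` via `T ↦ t`, `V ⊇ S`, `𝔮 = 𝔪_V ∩ S`, `𝔭 = 𝔮 ∩ ℤ_p[T]`.

(max) `S_𝔮` is the localization `loc V S`; `ℤ_p[T]_𝔭 → S_𝔮` is a local homomorphism of local
rings, formally unramified and essentially of finite type, so the maximal ideal of `S_𝔮` is
generated by `𝔭` (`Algebra.FormallyUnramified.map_maximalIdeal`).

(closed) If `v(p) < 1` and the residue class of `t` is algebraic over `𝔽_p`, then so is that of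
every `s ∈ S`: the residue field of `S_𝔮` is a finite (algebraic) extension of the residue field
of `ℤ_p[T]_𝔭` (étale, so quasi-finite; `Algebra.FormallyUnramified` residue field results), which
is generated by the class of `t` over `𝔽_p`.  An element `α` algebraic over `𝔽_p` lies in a finite
field `𝔽_{p^n}`, so `α^(p^n) = α`.

(flat) `S` is flat over `ℤ_p[T]`, so `S/pS` is flat, hence torsion free, over `𝔽_p[T]`, and so is
its localization `S_𝔮/p S_𝔮`: if `g` is not divisible by `p` and `g(t) z ∈ p S_𝔮` then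
`z ∈ p S_𝔮`.

(transc) `t` is transcendental over `ℤ_p` (flatness: `ℤ_p[T] → S` is injective, `S ≠ 0` a domain).
-/

namespace DynBad

open Polynomial

/-! ### General facts -/

theorem EtaleLoc_max {R S : Type*} [CommRing R] [CommRing S] [Algebra R S] [Algebra.Etale R S]
    (q : Ideal S) [q.IsPrime] (a : S) (ha : a ∈ q) :
    ∃ m : S, m ∉ q ∧ m * a ∈ (q.under R).map (algebraMap R S) := by
  let := Localization.AtPrime.algebraOfLiesOver (q.under R) q
  have h := ((Algebra.isUnramifiedAt_iff_map_eq R (q.under R) q).mp inferInstance).2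
  have h1 : algebraMap S (Localization.AtPrime q) a ∈
      ((q.under R).map (algebraMap R S)).map (algebraMap S (Localization.AtPrime q)) := by
    rw [Ideal.map_map, ← IsScalarTower.algebraMap_eq, h]
    exact (IsLocalization.AtPrime.to_map_mem_maximal_iff (Localization.AtPrime q) q a).2 ha
  obtain ⟨x, hx⟩ := (IsLocalization.mem_map_algebraMap_iff q.primeCompl _).1 h1
  rw [← map_mul] at hx
  obtain ⟨c, hc⟩ := IsLocalization.exists_of_eq (M := q.primeCompl) hx
  refine ⟨c * x.2, ?_, ?_⟩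
  · exact (c * x.2).2
  · have h2 : (c : S) * x.2 * a = c * x.1 := by
      rw [← hc]
      ring
    rw [h2]
    exact Ideal.mul_mem_left _ _ x.1.2

theorem EtaleLoc_finite {R S : Type*} [CommRing R] [CommRing S] [Algebra R S] [Algebra.Etale R S]
    (q : Ideal S) [q.IsPrime] (hm : (q.under R).IsMaximal) (hf : Finite (R ⧸ q.under R)) :
    Finite (S ⧸ q) := by
  let := Localization.AtPrime.algebraOfLiesOver (q.under R) q
  have h1 : Finite (q.under R).ResidueField :=
    Finite.of_surjective _ (Ideal.bijective_algebraMap_quotient_residueField (q.under R)).2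
  have h2 : Module.Finite (q.under R).ResidueField q.ResidueField := inferInstance
  have h3 : Finite q.ResidueField := Module.finite_of_finite (q.under R).ResidueField
  exact Finite.of_injective _ (Ideal.injective_algebraMap_quotient_residueField q)

theorem EtaleLoc_padic {p : ℕ} [Fact p.Prime] {B : Type*} [CommRing B] (hp : (p : B) = 0)
    (ψ₁ ψ₂ : ℤ_[p] →+* B) : ψ₁ = ψ₂ := by
  have key : ∀ ψ : ℤ_[p] →+* B, ∀ c : ℤ_[p], ψ c = (c.zmodRepr : B) := by
    intro ψ c
    have h := PadicInt.sub_zmodRepr_mem c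
    rw [PadicInt.maximalIdeal_eq_span_p, Ideal.mem_span_singleton] at h
    obtain ⟨d, hd⟩ := h
    have h1 : c = (c.zmodRepr : ℤ_[p]) + p * d := by rw [← hd]; ring
    rw [h1, map_add, map_mul, map_natCast, map_natCast, hp, zero_mul, add_zero, ← h1]
  ext c
  rw [key, key]

/-- The ring `B` is a domain, `p = 0` in `B`, `φ : ℤ_p[X] → B` and `φ(X)` is algebraic over
`𝔽_p`: all values of `φ` satisfy `b ^ p ^ n = b`. -/
theorem EtaleLoc_frob {p : ℕ} [Fact p.Prime] {B : Type*} [CommRing B] [IsDomain B]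
    (hp : (p : B) = 0) (φ : ℤ_[p][X] →+* B) (n : ℕ) (h : φ X ^ p ^ n = φ X) (f : ℤ_[p][X]) :
    φ f ^ p ^ n = φ f := by
  have : CharP B p := (CharP.charP_iff_prime_eq_zero Fact.out).2 hp
  have h1 : (iterateFrobenius B p n).comp φ = φ := by
    apply Polynomial.ringHom_ext'
    · exact EtaleLoc_padic hp _ _
    · simpa [iterateFrobenius_def] using h
  have h2 := congrArg (fun ψ : ℤ_[p][X] →+* B => ψ f) h1
  simpa [iterateFrobenius_def] using h2

theorem EtaleLoc_finite_image {A B : Type*} [CommRing A] [CommRing B] [IsDomain B] (g : A →+* B)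
    (hg : Function.Injective g) (N : ℕ) (hN : 1 < N) (h : ∀ x, g x ^ N = g x) : Finite A := by
  have hpol : (X ^ N - X : B[X]) ≠ 0 := by
    intro h0
    have h1 := congrArg (fun f : B[X] => f.coeff 1) h0
    simp only [coeff_sub, coeff_X_pow, coeff_X_one, coeff_zero] at h1
    rw [if_neg (by omega), zero_sub, neg_eq_zero] at h1
    exact one_ne_zero h1
  have h2 : {b : B | b ^ N = b}.Finite := by
    refine (Polynomial.finite_setOfPred_isRoot hpol).subset fun b hb => ?_
    change Polynomial.IsRoot _ b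
    rw [Polynomial.IsRoot.def, eval_sub, eval_pow, eval_X, sub_eq_zero]
    exact hb
  have h3 : (Set.range g).Finite := h2.subset (by rintro _ ⟨x, rfl⟩; exact h x)
  have h4 : Finite (Set.range g) := h3
  exact Finite.of_injective (fun x => (⟨g x, x, rfl⟩ : Set.range g))
    fun x y hxy => hg (congrArg Subtype.val hxy)

theorem EtaleLoc_closed_gen {p : ℕ} [Fact p.Prime] {S : Type*} [CommRing S] [Algebra ℤ_[p][X] S]
    [Algebra.Etale ℤ_[p][X] S] (q : Ideal S) [q.IsPrime] (hp : (p : S) ∈ q) (n : ℕ) (hn : 1 ≤ n)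
    (h : algebraMap ℤ_[p][X] S X ^ p ^ n - algebraMap ℤ_[p][X] S X ∈ q) (z : S) :
    ∃ m : ℕ, 1 ≤ m ∧ z ^ p ^ m - z ∈ q := by
  have hpS : (p : S ⧸ q) = 0 := by
    have h2 := (Ideal.Quotient.eq_zero_iff_mem).2 hp
    simpa using h2
  let φ : ℤ_[p][X] →+* S ⧸ q := (Ideal.Quotient.mk q).comp (algebraMap ℤ_[p][X] S)
  have hX : φ X ^ p ^ n = φ X := by
    change Ideal.Quotient.mk q (algebraMap ℤ_[p][X] S X) ^ p ^ n =
      Ideal.Quotient.mk q (algebraMap ℤ_[p][X] S X)
    rw [← map_pow, Ideal.Quotient.eq]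
    exact h
  have hfrob := EtaleLoc_frob hpS φ n hX
  -- `ℤ_p[X]/P` is finite
  have hP : Finite (ℤ_[p][X] ⧸ q.under ℤ_[p][X]) := by
    let g : ℤ_[p][X] ⧸ q.under ℤ_[p][X] →+* S ⧸ q :=
      Ideal.quotientMap q (algebraMap ℤ_[p][X] S) le_rfl
    have hg : Function.Injective g := Ideal.quotientMap_injective
    have hgi : ∀ x, g x ^ p ^ n = g x := by
      intro x
      obtain ⟨f, rfl⟩ := Ideal.Quotient.mk_surjective x
      have h1 : g (Ideal.Quotient.mk _ f) = φ f := Ideal.quotientMap_mk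
      rw [h1, hfrob f]
    exact EtaleLoc_finite_image g hg (p ^ n)
      (Nat.one_lt_pow (by omega) (Nat.Prime.one_lt Fact.out)) hgi
  have hPm : (q.under ℤ_[p][X]).IsMaximal :=
    Ideal.Quotient.maximal_of_isField _ (Finite.isField_of_domain _)
  have hfin : Finite (S ⧸ q) := EtaleLoc_finite q hPm hP
  let : Field (S ⧸ q) := (Finite.isField_of_domain (S ⧸ q)).toField
  have hchar : CharP (S ⧸ q) p := (CharP.charP_iff_prime_eq_zero Fact.out).2 hpS
  have : Fintype (S ⧸ q) := Fintype.ofFinite _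
  obtain ⟨m, -, hm⟩ := FiniteField.card (S ⧸ q) p
  refine ⟨m, m.2, ?_⟩
  have h5 := FiniteField.pow_card (Ideal.Quotient.mk q z)
  rw [hm, ← map_pow, Ideal.Quotient.eq] at h5
  exact h5

section centre

variable {R K : Type*} [CommRing R] [Field K] [Algebra R K]

/-- The centre of `V` on `S`. -/
def EtaleLoc_ctr (S : Subalgebra R K) (V : ValuationSubring K) (hSV : Le S V) : Ideal S where
  carrier := {s | V.valuation (s : K) < 1}
  add_mem' := fun {a b} ha hb => by
    change V.valuation ((a + b : S) : K) < 1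
    exact lt_of_le_of_lt (V.valuation.map_add _ _) (max_lt ha hb)
  zero_mem' := by
    change V.valuation ((0 : S) : K) < 1
    simp
  smul_mem' := fun c a ha => by
    change V.valuation ((c * a : S) : K) < 1
    change V.valuation (a : K) < 1 at ha
    rw [MulMemClass.coe_mul, map_mul]
    exact mul_lt_one_of_nonneg_of_lt_one_right ((V.valuation_le_one_iff _).2 (hSV _ c.2))
      zero_le ha

theorem EtaleLoc_mem {S : Subalgebra R K} {V : ValuationSubring K} {hSV : Le S V} {s : S} :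
    s ∈ EtaleLoc_ctr S V hSV ↔ V.valuation (s : K) < 1 := Iff.rfl

theorem EtaleLoc_notMem {S : Subalgebra R K} {V : ValuationSubring K} {hSV : Le S V} {s : S} :
    s ∉ EtaleLoc_ctr S V hSV ↔ V.valuation (s : K) = 1 := by
  rw [EtaleLoc_mem, not_lt]
  exact ⟨fun h => le_antisymm ((V.valuation_le_one_iff _).2 (hSV _ s.2)) h, fun h => h.ge⟩

theorem EtaleLoc_prime (S : Subalgebra R K) (V : ValuationSubring K) (hSV : Le S V) :
    (EtaleLoc_ctr S V hSV).IsPrime where
  ne_top' := by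
    rw [Ideal.ne_top_iff_one]
    exact EtaleLoc_notMem.2 (by simp)
  mem_or_mem' := fun {a b} hab => by
    by_contra hcon
    rw [not_or] at hcon
    have h1 := EtaleLoc_notMem.1 hcon.1
    have h2 := EtaleLoc_notMem.1 hcon.2
    have h3 := EtaleLoc_mem.1 hab
    rw [MulMemClass.coe_mul, map_mul, h1, h2, one_mul] at h3
    exact lt_irrefl _ h3

end centre

variable {p : ℕ} [Fact p.Prime] {K : Type*} [Field K] [CharZero K] [Algebra ℤ_[p] K]
  (S : Subalgebra ℤ_[p] K) (hS : EtaleChart S) (t : S)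
  (ht : ((Polynomial.aeval t : ℤ_[p][X] →ₐ[ℤ_[p]] S) : ℤ_[p][X] →+* S).Etale)

include hS ht

theorem etale_max (V : ValuationSubring K) (hSV : Le S V) (z : K) (hz : z ∈ loc V S)
    (hz1 : V.valuation z < 1) :
    z ∈ Submodule.span (loc V S)
      {w : K | ∃ f : ℤ_[p][X], w = aeval (t : K) f ∧ V.valuation w < 1} := by
  let : Algebra ℤ_[p][X] S := ((Polynomial.aeval t : ℤ_[p][X] →ₐ[ℤ_[p]] S) :
    ℤ_[p][X] →+* S).toAlgebra
  have : Algebra.Etale ℤ_[p][X] S := ht
  have hq := EtaleLoc_prime S V hSV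
  set q := EtaleLoc_ctr S V hSV with hqdef
  have hmap : ∀ f : ℤ_[p][X], ((algebraMap ℤ_[p][X] S f : S) : K) = aeval (t : K) f := fun f => by
    change ((aeval t f : S) : K) = _
    rw [← Subalgebra.coe_val, ← Polynomial.aeval_algHom_apply]
  obtain ⟨a, ha, b, hb, hb1, hab⟩ := hz
  have haq : (⟨a, ha⟩ : S) ∈ q := by
    rw [hqdef, EtaleLoc_mem]
    change V.valuation a < 1
    rw [← hab, map_mul, hb1, mul_one]
    exact hz1
  obtain ⟨m, hm, hma⟩ := EtaleLoc_max (R := ℤ_[p][X]) q ⟨a, ha⟩ haq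
  have hm1 : V.valuation (m : K) = 1 := EtaleLoc_notMem.1 hm
  have hspan : ∀ y ∈ (q.under ℤ_[p][X]).map (algebraMap ℤ_[p][X] S),
      (y : K) ∈ Submodule.span (loc V S)
        {w : K | ∃ f : ℤ_[p][X], w = aeval (t : K) f ∧ V.valuation w < 1} := by
    intro y hy
    refine Submodule.span_induction (p := fun (y : S) _ => (y : K) ∈ Submodule.span (loc V S)
        {w : K | ∃ f : ℤ_[p][X], w = aeval (t : K) f ∧ V.valuation w < 1}) ?_ ?_ ?_ ?_ hy
    · rintro _ ⟨f, hf, rfl⟩
      refine Submodule.subset_span ⟨f, hmap f, ?_⟩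
      exact (EtaleLoc_mem (hSV := hSV)).1 hf
    · simp
    · intro x y _ _ hx hy
      rw [AddMemClass.coe_add]
      exact Submodule.add_mem _ hx hy
    · intro c x _ hx
      rw [smul_eq_mul, MulMemClass.coe_mul]
      exact Submodule.smul_mem _ (⟨(c : K), le_loc V S c.2⟩ : loc V S) hx
  have h1 := hspan _ hma
  have hmb : V.valuation ((m : K) * b) = 1 := by rw [map_mul, hm1, hb1, one_mul]
  have hmb0 : (m : K) * b ≠ 0 := by
    intro h0
    rw [h0, map_zero] at hmb
    exact zero_ne_one hmb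
  have hinv : ((m : K) * b)⁻¹ ∈ loc V S := loc_inv (le_loc V S (S.mul_mem m.2 hb)) hmb
  have h2 := Submodule.smul_mem _ (⟨((m : K) * b)⁻¹, hinv⟩ : loc V S) h1
  have h3 : (⟨((m : K) * b)⁻¹, hinv⟩ : loc V S) • (((m * ⟨a, ha⟩ : S)) : K) = z := by
    change ((m : K) * b)⁻¹ * ((m : K) * a) = z
    rw [← hab]
    have hb0 : b ≠ 0 := right_ne_zero_of_mul hmb0
    have hm0 : (m : K) ≠ 0 := left_ne_zero_of_mul hmb0
    field_simp
  rw [h3] at h2
  exact h2

theorem etale_closed (V : ValuationSubring K) (hSV : Le S V) (hp : V.valuation (p : K) < 1)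
    (h : ResAlg p V (t : K)) : Closed V S := by
  let : Algebra ℤ_[p][X] S := ((Polynomial.aeval t : ℤ_[p][X] →ₐ[ℤ_[p]] S) :
    ℤ_[p][X] →+* S).toAlgebra
  have : Algebra.Etale ℤ_[p][X] S := ht
  have hq := EtaleLoc_prime S V hSV
  obtain ⟨n, hn, hn1⟩ := h
  have hX : (algebraMap ℤ_[p][X] S X : S) = t := by
    change (aeval t X : S) = t
    simp
  intro z hz
  obtain ⟨m, hm, hm1⟩ := EtaleLoc_closed_gen (EtaleLoc_ctr S V hSV)
    (EtaleLoc_mem.2 (by simpa using hp)) n hn
    (by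
      rw [hX, EtaleLoc_mem]
      simpa using hn1) ⟨z, hz⟩
  refine ⟨m, hm, ?_⟩
  have h5 := EtaleLoc_mem.1 hm1
  simpa using h5

theorem etale_flat (V : ValuationSubring K) (hSV : Le S V) (g : ℤ_[p][X])
    (hg : ¬ (C (p : ℤ_[p]) : ℤ_[p][X]) ∣ g) (z : K) (hz : z ∈ loc V S)
    (h : ∃ w ∈ loc V S, aeval (t : K) g * z = p * w) : ∃ w ∈ loc V S, z = p * w := by
  let : Algebra ℤ_[p][X] S := ((Polynomial.aeval t : ℤ_[p][X] →ₐ[ℤ_[p]] S) :
    ℤ_[p][X] →+* S).toAlgebra
  have : Algebra.Etale ℤ_[p][X] S := ht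
  have hflat : Module.Flat ℤ_[p][X] S := inferInstance
  have hmap : ∀ f : ℤ_[p][X], ((algebraMap ℤ_[p][X] S f : S) : K) = aeval (t : K) f := fun f => by
    change ((aeval t f : S) : K) = _
    rw [← Subalgebra.coe_val, ← Polynomial.aeval_algHom_apply]
  obtain ⟨w, ⟨c, hc, d, hd, hd1, hcd⟩, hw⟩ := h
  obtain ⟨a, ha, b, hb, hb1, hab⟩ := hz
  have hd0 : d ≠ 0 := by
    intro h0
    rw [h0, map_zero] at hd1
    exact zero_ne_one hd1
  have hb0 : b ≠ 0 := by
    intro h0
    rw [h0, map_zero] at hb1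
    exact zero_ne_one hb1
  have hrel : algebraMap ℤ_[p][X] S g * (⟨a, ha⟩ * ⟨d, hd⟩) =
      algebraMap ℤ_[p][X] S (C (p : ℤ_[p])) * (⟨c, hc⟩ * ⟨b, hb⟩) := by
    apply Subtype.ext
    simp only [MulMemClass.coe_mul]
    rw [hmap, hmap, aeval_C, ← hab, ← hcd, map_natCast]
    linear_combination (b * d) * hw
  have hsum : ∑ i : Fin 2, (![g, -(C (p : ℤ_[p]))] : Fin 2 → ℤ_[p][X]) i •
      (![⟨a, ha⟩ * ⟨d, hd⟩, ⟨c, hc⟩ * ⟨b, hb⟩] : Fin 2 → S) i = 0 := by
    rw [Fin.sum_univ_two]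
    simp only [Matrix.cons_val_zero, Matrix.cons_val_one, Algebra.smul_def, map_neg]
    linear_combination hrel
  obtain ⟨k, e, y, he1, he2⟩ := Module.Flat.isTrivialRelation_of_sum_smul_eq_zero
    (R := ℤ_[p][X]) (M := S) (f := (![g, -(C (p : ℤ_[p]))] : Fin 2 → ℤ_[p][X]))
    (x := (![⟨a, ha⟩ * ⟨d, hd⟩, ⟨c, hc⟩ * ⟨b, hb⟩] : Fin 2 → S)) hsum
  have hpp : Prime (C (p : ℤ_[p]) : ℤ_[p][X]) := Polynomial.prime_C_iff.2 PadicInt.prime_p
  have hdiv : ∀ j, ∃ u : ℤ_[p][X], e 0 j = C (p : ℤ_[p]) * u := by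
    intro j
    have h1 := he2 j
    rw [Fin.sum_univ_two] at h1
    simp only [Matrix.cons_val_zero, Matrix.cons_val_one] at h1
    have h2 : (C (p : ℤ_[p]) : ℤ_[p][X]) ∣ g * e 0 j := ⟨e 1 j, by linear_combination h1⟩
    exact (hpp.dvd_or_dvd h2).resolve_left hg
  choose u hu using hdiv
  have hfin : ⟨a, ha⟩ * ⟨d, hd⟩ = algebraMap ℤ_[p][X] S (C (p : ℤ_[p])) * ∑ j, u j • y j := by
    have h1 := he1 0
    simp only [Matrix.cons_val_zero] at h1
    rw [h1, Finset.mul_sum]
    refine Finset.sum_congr rfl fun j _ => ?_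
    rw [hu j, Algebra.smul_def, Algebra.smul_def, map_mul]
    ring
  set s : S := ∑ j, u j • y j with hs
  refine ⟨(s : K) * (b * d)⁻¹, ?_, ?_⟩
  · refine (loc V S).mul_mem (le_loc V S s.2) (loc_inv (le_loc V S (S.mul_mem hb hd)) ?_)
    rw [map_mul, hb1, hd1, one_mul]
  · have h1 : (a : K) * d = p * s := by
      have h2 := congrArg (fun w : S => (w : K)) hfin
      simp only [MulMemClass.coe_mul] at h2
      rw [hmap, aeval_C, map_natCast] at h2
      exact h2
    have h2 : z = a * d * (b * d)⁻¹ := by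
      rw [← hab]
      field_simp
    rw [h2, h1]
    ring

theorem etale_transc : Transcendental ℤ_[p] (t : K) := by
  let : Algebra ℤ_[p][X] S := ((Polynomial.aeval t : ℤ_[p][X] →ₐ[ℤ_[p]] S) :
    ℤ_[p][X] →+* S).toAlgebra
  have : Algebra.Etale ℤ_[p][X] S := ht
  rw [transcendental_iff_injective]
  have h1 := etale_injective ℤ_[p][X] S
  have h2 : (aeval (t : K) : ℤ_[p][X] →ₐ[ℤ_[p]] K) = (S.val).comp (aeval t) := by
    ext
    simp
  rw [h2]
  exact Subtype.val_injective.comp h1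

end DynBad
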