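import Mathlib

/-!
# Module PrimesZpT: prime ideals of `ℤ_p[T]`

(a) If `p ∉ 𝔭`, then `𝔭 ℚ_p[T]` is principal, generated by some `g ∈ 𝔭` (clear denominators), so
every `f ∈ 𝔭` satisfies `p^n f ∈ (g)` for some `n`.
(b) If `p ∈ 𝔭`, the image of `𝔭` in `𝔽_p[T]` is `0` or generated by an irreducible `ḡ`, and in the
second case `𝔽_p[T]/(ḡ)` is a finite field with `p^n` elements, so `T^(p^n) - T ∈ 𝔭`.
-/

namespace DynBad

open Polynomial

variable {p : ℕ} [Fact p.Prime]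

/-- Pseudo division by an element of least degree. -/
private theorem pseudo (P : Ideal ℤ_[p][X]) {g : ℤ_[p][X]} (hg : g ∈ P) (hg0 : g ≠ 0)
    (hmin : ∀ f ∈ P, f ≠ 0 → g.natDegree ≤ f.natDegree) :
    ∀ N : ℕ, ∀ f ∈ P, (f = 0 ∨ f.natDegree < N) →
      ∃ (n : ℕ) (h : ℤ_[p][X]), C (p : ℤ_[p]) ^ n * f = g * h := by
  intro N
  induction N with
  | zero =>
    rintro f - (rfl | h)
    · exact ⟨0, 0, by simp⟩
    · exact absurd h (Nat.not_lt_zero _)
  | succ N ih =>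
    rintro f hf (rfl | hN)
    · exact ⟨0, 0, by simp⟩
    by_cases hf0 : f = 0
    · exact ⟨0, 0, by simp [hf0]⟩
    have hp0 : (p : ℤ_[p]) ≠ 0 := by
      exact_mod_cast (Fact.out : p.Prime).ne_zero
    have hdeg := hmin f hf hf0
    have hlc : g.leadingCoeff ≠ 0 := leadingCoeff_ne_zero.2 hg0
    set a := g.leadingCoeff with ha
    set b := f.leadingCoeff with hb
    have hb0 : b ≠ 0 := leadingCoeff_ne_zero.2 hf0
    set m := a.valuation with hm
    set w := PadicInt.unitCoeff hlc with hw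
    have hspec : a = (w : ℤ_[p]) * (p : ℤ_[p]) ^ m := PadicInt.unitCoeff_spec hlc
    set c : ℤ_[p] := ((w⁻¹ : ℤ_[p]ˣ) : ℤ_[p]) * b with hc
    have hca : c * a = (p : ℤ_[p]) ^ m * b := by
      rw [hc, hspec]
      have : ((w⁻¹ : ℤ_[p]ˣ) : ℤ_[p]) * (w : ℤ_[p]) = 1 := Units.inv_mul w
      linear_combination b * (p : ℤ_[p]) ^ m * this
    have hc0 : c ≠ 0 := by
      rw [hc]
      exact mul_ne_zero (Units.ne_zero _) hb0
    set F1 := C ((p : ℤ_[p]) ^ m) * f with hF1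
    set F2 := C c * X ^ (f.natDegree - g.natDegree) * g with hF2
    have hpm : (p : ℤ_[p]) ^ m ≠ 0 := pow_ne_zero _ hp0
    have l1 : F1.leadingCoeff = (p : ℤ_[p]) ^ m * b := by
      rw [hF1, leadingCoeff_mul, leadingCoeff_C]
    have l2 : F2.leadingCoeff = c * a := by
      rw [hF2, leadingCoeff_mul, leadingCoeff_mul, leadingCoeff_C, leadingCoeff_X_pow, mul_one]
    have hF10 : F1 ≠ 0 := mul_ne_zero (C_ne_zero.2 hpm) hf0
    have hF20 : F2 ≠ 0 := mul_ne_zero (mul_ne_zero (C_ne_zero.2 hc0) (pow_ne_zero _ X_ne_zero)) hg0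
    have n1 : F1.natDegree = f.natDegree := natDegree_C_mul hpm
    have n2 : F2.natDegree = f.natDegree := by
      rw [hF2, mul_assoc, natDegree_C_mul hc0, natDegree_X_pow_mul _ hg0]
      omega
    have hd : F1.degree = F2.degree := by
      rw [degree_eq_natDegree hF10, degree_eq_natDegree hF20, n1, n2]
    have hlt := degree_sub_lt hd hF10 (by rw [l1, l2, hca])
    have hsub : F1 - F2 ∈ P := P.sub_mem (P.mul_mem_left _ hf) (P.mul_mem_left _ hg)
    obtain ⟨n, h, hn⟩ := ih (F1 - F2) hsub (by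
      by_cases h0 : F1 - F2 = 0
      · exact Or.inl h0
      · right
        have := natDegree_lt_natDegree h0 hlt
        omega)
    refine ⟨n + m, h + C (p : ℤ_[p]) ^ n * (C c * X ^ (f.natDegree - g.natDegree)), ?_⟩
    have e1 : F1 = C (p : ℤ_[p]) ^ m * f := by rw [hF1, C_pow]
    rw [mul_sub, e1, hF2] at hn
    rw [pow_add]
    linear_combination hn

theorem primes_notMem (P : Ideal ℤ_[p][X]) (hP : P.IsPrime) (hp : (C (p : ℤ_[p]) : ℤ_[p][X]) ∉ P) :
    ∃ g ∈ P, ∀ f ∈ P, ∃ (n : ℕ) (h : ℤ_[p][X]), C (p : ℤ_[p]) ^ n * f = g * h := by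
  classical
  by_cases hne : ∃ f ∈ P, f ≠ 0
  · have hex : ∃ d : ℕ, ∃ f ∈ P, f ≠ 0 ∧ f.natDegree = d := by
      obtain ⟨f, hf, hf0⟩ := hne
      exact ⟨_, f, hf, hf0, rfl⟩
    obtain ⟨g, hg, hg0, hgd⟩ := Nat.find_spec hex
    refine ⟨g, hg, fun f hf => pseudo P hg hg0 (fun f hf hf0 => ?_) (f.natDegree + 1) f hf
      (Or.inr (Nat.lt_succ_self _))⟩
    rw [hgd]
    exact Nat.find_min' hex ⟨f, hf, hf0, rfl⟩
  · push Not at hne
    exact ⟨0, P.zero_mem, fun f hf => ⟨0, 0, by rw [hne f hf]; simp⟩⟩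

private theorem ker_iff (f : ℤ_[p][X]) :
    f.map (PadicInt.toZMod (p := p)) = 0 ↔ (C (p : ℤ_[p]) : ℤ_[p][X]) ∣ f := by
  rw [C_dvd_iff_dvd_coeff, Polynomial.ext_iff]
  refine forall_congr' fun n => ?_
  rw [coeff_map, coeff_zero, ← RingHom.mem_ker, PadicInt.ker_toZMod,
    PadicInt.maximalIdeal_eq_span_p, Ideal.mem_span_singleton]

theorem primes_mem (P : Ideal ℤ_[p][X]) (hP : P.IsPrime) (hp : (C (p : ℤ_[p]) : ℤ_[p][X]) ∈ P) :
    (∀ f ∈ P, (C (p : ℤ_[p]) : ℤ_[p][X]) ∣ f) ∨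
    ((∃ n : ℕ, 1 ≤ n ∧ (X ^ p ^ n - X : ℤ_[p][X]) ∈ P) ∧
      ∃ g ∈ P, ¬ (C (p : ℤ_[p]) : ℤ_[p][X]) ∣ g ∧
        ∀ f ∈ P, ∃ a b : ℤ_[p][X], f = C (p : ℤ_[p]) * a + g * b) := by
  set ψ : ℤ_[p][X] →+* (ZMod p)[X] := mapRingHom (PadicInt.toZMod (p := p)) with hψ
  have hψa : ∀ f, ψ f = f.map (PadicInt.toZMod (p := p)) := fun f => rfl
  have hker : ∀ f, ψ f = 0 ↔ (C (p : ℤ_[p]) : ℤ_[p][X]) ∣ f := fun f => ker_iff f
  have hsurj : Function.Surjective ψ :=
    map_surjective _ (ZMod.ringHom_surjective (PadicInt.toZMod (p := p)))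
  have hkerle : RingHom.ker ψ ≤ P := by
    intro f hf
    rw [RingHom.mem_ker, hker] at hf
    exact P.mem_of_dvd hf hp
  have hmem : ∀ f, ψ f ∈ P.map ψ ↔ f ∈ P := by
    intro f
    rw [← Ideal.mem_comap, Ideal.comap_map_of_surjective' ψ hsurj, sup_eq_left.2 hkerle]
  have hprime : (P.map ψ).IsPrime := Ideal.map_isPrime_of_surjective hsurj hkerle
  by_cases hbot : P.map ψ = ⊥
  · left
    intro f hf
    have h1 := (hmem f).2 hf
    rw [hbot, Ideal.mem_bot, hker] at h1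
    exact h1
  right
  obtain ⟨G, hG⟩ := (IsPrincipalIdealRing.principal (P.map ψ)).principal
  have hG' : P.map ψ = Ideal.span {G} := hG
  have hG0 : G ≠ 0 := by
    rintro rfl
    apply hbot
    rw [hG', Ideal.span_singleton_eq_bot]
  have hGp : Prime G := by
    rw [← Ideal.span_singleton_prime hG0, ← hG']
    exact hprime
  have hirr : Irreducible G := hGp.irreducible
  obtain ⟨g, rfl⟩ := hsurj G
  have hgP : g ∈ P := by
    rw [← hmem, hG']
    exact Ideal.mem_span_singleton_self _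
  refine ⟨?_, g, hgP, fun h => hG0 ((hker g).2 h), fun f hf => ?_⟩
  · have : Fact (Irreducible (ψ g)) := ⟨hirr⟩
    have hfd : Module.Finite (ZMod p) (AdjoinRoot (ψ g)) := (AdjoinRoot.powerBasis hG0).finite
    have hfin : Finite (AdjoinRoot (ψ g)) := Module.finite_of_finite (ZMod p)
    let _ := Fintype.ofFinite (AdjoinRoot (ψ g))
    have hchar : CharP (AdjoinRoot (ψ g)) p :=
      charP_of_injective_algebraMap (algebraMap (ZMod p) (AdjoinRoot (ψ g))).injective p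
    obtain ⟨n, -, hn⟩ := FiniteField.card (AdjoinRoot (ψ g)) p
    refine ⟨n, n.pos, ?_⟩
    rw [← hmem, hG', Ideal.mem_span_singleton, ← AdjoinRoot.mk_eq_zero]
    have h1 := FiniteField.pow_card (AdjoinRoot.root (ψ g))
    rw [hn] at h1
    rw [map_sub, map_pow, hψa X, Polynomial.map_X, map_sub, map_pow, AdjoinRoot.mk_X, h1, sub_self]
  · have h1 := (hmem f).2 hf
    rw [hG', Ideal.mem_span_singleton] at h1
    obtain ⟨B, hB⟩ := h1
    obtain ⟨b, rfl⟩ := hsurj B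
    have h2 : ψ (f - g * b) = 0 := by rw [map_sub, map_mul, hB, sub_self]
    obtain ⟨a, ha⟩ := (hker _).1 h2
    exact ⟨a, b, by rw [← ha]; ring⟩

end DynBad
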