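import Pool.Agent.DynBad.ValPrinc
import Pool.Agent.DynBad.PrimesZpT
import Pool.Agent.DynBad.EtaleLoc

/-!
# Module ChartGen: local rings of an étale chart at non-closed points

`𝔭 = {f ∈ ℤ_p[T] : v(f(t)) < 1}` is a prime ideal.

`chart_gen` (`v(p) < 1`, not closed): `p ∈ 𝔭`; in the second case of `primes_mem` `T^(p^n)-T ∈ 𝔭`,
so `t` is residually algebraic and the centre is closed (`etale_closed`), excluded.  So all
elements of `𝔭` are divisible by `p`, and by `etale_max` every `z ∈ loc V S` with `v(z) < 1` is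
`p w`, `w ∈ loc V S`.  Apply `valPrinc` with `π = p`.

`chart_zero` (`v(p) = 1`): by `primes_notMem` there is `g ∈ 𝔭` with `p^n f ∈ (g)` for all
`f ∈ 𝔭`; `p` is a unit of `loc V S`, so by `etale_max` the elements `z ∈ loc V S` with `v(z) < 1`
are multiples of `g(t)`.  Apply `valPrinc` with `π = g(t)`.
-/

namespace DynBad

open Polynomial

variable {p : ℕ} [Fact p.Prime] {K : Type*} [Field K] [CharZero K] [Algebra ℤ_[p] K]

private noncomputable def evV (S : Subalgebra ℤ_[p] K) (t : S) (V : ValuationSubring K) (hSV : Le S V) :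
    ℤ_[p][X] →+* V :=
  ((algebraMap S K).comp ((Polynomial.aeval t : ℤ_[p][X] →ₐ[ℤ_[p]] S) : ℤ_[p][X] →+* S)).codRestrict
    V.toSubring (fun f => hSV _ (by simp))

private lemma coe_evV (S : Subalgebra ℤ_[p] K) (t : S) (V : ValuationSubring K) (hSV : Le S V)
    (f : ℤ_[p][X]) : ((evV S t V hSV f : V) : K) = aeval (t : K) f := by
  have h1 : ((evV S t V hSV f : V) : K) = algebraMap S K (aeval t f) := rfl
  rw [h1, ← Polynomial.aeval_algebraMap_apply]
  rfl

private noncomputable def cen (S : Subalgebra ℤ_[p] K) (t : S) (V : ValuationSubring K) (hSV : Le S V) :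
    Ideal ℤ_[p][X] := (IsLocalRing.maximalIdeal V).comap (evV S t V hSV)

private lemma cen_prime (S : Subalgebra ℤ_[p] K) (t : S) (V : ValuationSubring K) (hSV : Le S V) :
    (cen S t V hSV).IsPrime := by
  unfold cen
  infer_instance

private lemma mem_cen (S : Subalgebra ℤ_[p] K) (t : S) (V : ValuationSubring K) (hSV : Le S V)
    (f : ℤ_[p][X]) : f ∈ cen S t V hSV ↔ V.valuation (aeval (t : K) f) < 1 := by
  unfold cen
  rw [Ideal.mem_comap, ValuationSubring.valuation_lt_one_iff, coe_evV]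

private lemma aeval_mem (S : Subalgebra ℤ_[p] K) (t : S) (f : ℤ_[p][X]) :
    aeval (t : K) f ∈ S := by
  have h1 : aeval (t : K) f = algebraMap S K (aeval t f) := by
    rw [← Polynomial.aeval_algebraMap_apply]
    rfl
  rw [h1]
  exact (aeval t f).2

private lemma mul_of_span (S : Subalgebra ℤ_[p] K) (t : S) (V : ValuationSubring K) (π : K)
    (h : ∀ f : ℤ_[p][X], V.valuation (aeval (t : K) f) < 1 →
      ∃ w ∈ loc V S, aeval (t : K) f = π * w) (z : K)
    (hz : z ∈ Submodule.span (loc V S)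
      {w : K | ∃ f : ℤ_[p][X], w = aeval (t : K) f ∧ V.valuation w < 1}) :
    ∃ w ∈ loc V S, z = π * w := by
  induction hz using Submodule.span_induction with
  | mem x hx =>
    obtain ⟨f, rfl, hf⟩ := hx
    exact h f hf
  | zero => exact ⟨0, (loc V S).zero_mem, by simp⟩
  | add x y _ _ hx hy =>
    obtain ⟨a, ha, rfl⟩ := hx
    obtain ⟨b, hb, rfl⟩ := hy
    exact ⟨a + b, (loc V S).add_mem ha hb, by ring⟩
  | smul a x _ hx =>
    obtain ⟨b, hb, rfl⟩ := hx
    refine ⟨a * b, (loc V S).mul_mem a.2 hb, ?_⟩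
    rw [Subring.smul_def, smul_eq_mul]
    ring

theorem chart_gen (S : Subalgebra ℤ_[p] K) (hS : EtaleChart S) (V : ValuationSubring K)
    (hSV : Le S V) (hp : V.valuation (p : K) < 1) (hc : ¬ Closed V S) :
    (∀ z ∈ V, z ∈ loc V S) ∧
      ∀ z : K, z ≠ 0 → ∃ n : ℤ, ∃ w : K, V.valuation w = 1 ∧ z = (p : K) ^ n * w := by
  obtain ⟨t, ht⟩ := hS.etale
  have hp0 : (p : K) ≠ 0 := by
    exact_mod_cast (Fact.out : p.Prime).ne_zero
  have hpC : (C (p : ℤ_[p]) : ℤ_[p][X]) ∈ cen S t V hSV := by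
    rw [mem_cen]
    simpa using hp
  have hpS : (p : K) ∈ S := by
    have := S.algebraMap_mem (p : ℤ_[p])
    simpa using this
  have hdiv : ∀ f ∈ cen S t V hSV, (C (p : ℤ_[p]) : ℤ_[p][X]) ∣ f := by
    rcases primes_mem _ (cen_prime S t V hSV) hpC with h | ⟨⟨n, hn, h⟩, _⟩
    · exact h
    · exfalso
      apply hc
      refine etale_closed S hS t ht V hSV hp ⟨n, hn, ?_⟩
      rw [mem_cen] at h
      simpa using h
  have key := valPrinc S hS.fg hS.frac V hSV (p : K) (le_loc V S hpS) hp (fun z hz hz1 => by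
    refine mul_of_span S t V (p : K) (fun f hf => ?_) z (etale_max S hS t ht V hSV z hz hz1)
    obtain ⟨g, rfl⟩ := hdiv f ((mem_cen S t V hSV f).2 hf)
    exact ⟨aeval (t : K) g, le_loc V S (aeval_mem S t g), by simp⟩)
  exact ⟨key.1, key.2 hp0⟩

theorem chart_zero (S : Subalgebra ℤ_[p] K) (hS : EtaleChart S) (V : ValuationSubring K)
    (hSV : Le S V) (hp : V.valuation (p : K) = 1) : ∀ z ∈ V, z ∈ loc V S := by
  obtain ⟨t, ht⟩ := hS.etale
  have hp0 : (p : K) ≠ 0 := by
    exact_mod_cast (Fact.out : p.Prime).ne_zero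
  have hpC : (C (p : ℤ_[p]) : ℤ_[p][X]) ∉ cen S t V hSV := by
    rw [mem_cen]
    simp [hp]
  have hpS : (p : K) ∈ S := by
    have := S.algebraMap_mem (p : ℤ_[p])
    simpa using this
  have hpi : (p : K)⁻¹ ∈ loc V S := loc_inv (le_loc V S hpS) hp
  obtain ⟨g, hg, hgen⟩ := primes_notMem _ (cen_prime S t V hSV) hpC
  exact (valPrinc S hS.fg hS.frac V hSV (aeval (t : K) g) (le_loc V S (aeval_mem S t g))
    ((mem_cen S t V hSV g).1 hg) (fun z hz hz1 => by
    refine mul_of_span S t V _ (fun f hf => ?_) z (etale_max S hS t ht V hSV z hz hz1)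
    obtain ⟨n, h, hnh⟩ := hgen f ((mem_cen S t V hSV f).2 hf)
    refine ⟨aeval (t : K) h * (p : K)⁻¹ ^ n,
      (loc V S).mul_mem (le_loc V S (aeval_mem S t h)) ((loc V S).pow_mem hpi n), ?_⟩
    have h2 := congrArg (aeval (t : K)) hnh
    simp only [map_mul, map_pow, map_natCast] at h2
    rw [← mul_assoc, ← h2, mul_right_comm, ← mul_pow, mul_inv_cancel₀ hp0, one_pow, one_mul])).1

end DynBad
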