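import Pool.Agent.DynBad.DynBasic

/-!
# Module DynDer: the derivation `δ` with `δ x = 1`

Existence.  Consider `δ₀ : ℤ_p[X][U] → K`,
`δ₀(P) = P_X(x,u) - P_U(x,u) Φ_X(x,u)/Φ_U(x,u)` (`Φ_U(x,u) = PU ≠ 0`), a derivation (with `K` a
module over `ℤ_p[X][U]` via evaluation at `(x,u)`) which kills all multiples of `Φ_N`, i.e.
(`D.ker`) the kernel of the evaluation.  So it descends to `A` and extends to `K = Frac A` by the
quotient rule.  (Alternatively: `K` is a finite separable extension of `Frac ℤ_p[x]`, and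
derivations extend uniquely; Mathlib has derivations of algebraic separable / formally étale
extensions: `Differential`, `Derivation` lifting for `FormallyEtale`, Kaehler differentials.)

`der_u`: apply `δ` to `Φ_N(x,u) = 0` and to `F_N(x,u) = 0` (chain rule for polynomial
expressions).

`der_mem`: `z = P(x,u)`, `δ z = P_X(x,u) + P_U(x,u) δ u`.

`der_ext`: a derivation of `K` over `ℤ_p` with values in a `K`-vector space which is
determined by its value on `x`.
-/

namespace DynBad

open Polynomial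

section DynDerAux

variable {R K : Type*} [CommRing R] [Field K] [Algebra R K]

/-- the ring homomorphism `z ↦ z + δ z ε` -/
private noncomputable def dynderHom (δ : Derivation R K K) : K →+* DualNumber K where
  toFun z := TrivSqZeroExt.inl z + TrivSqZeroExt.inr (δ z)
  map_one' := by
    apply TrivSqZeroExt.ext <;> simp
  map_mul' z w := by
    apply TrivSqZeroExt.ext
    · simp
    · simp
      ring
  map_zero' := by
    apply TrivSqZeroExt.ext <;> simp
  map_add' z w := by
    apply TrivSqZeroExt.ext <;> simp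

private lemma dynderHom_eq (δ : Derivation R K K) (z : K) : dynderHom δ z =
    TrivSqZeroExt.inl z + (DualNumber.eps : DualNumber K) * TrivSqZeroExt.inl (δ z) := by
  apply TrivSqZeroExt.ext <;> simp [dynderHom]

/-- evaluation of integral polynomials -/
private noncomputable abbrev evD {E : Type*} [CommRing E] (x u : E) : ℤ[X][X] →+* E := ev x u

private lemma dynder_ev_inl (x u : K) (P : ℤ[X][X]) :
    evD (TrivSqZeroExt.inl x : DualNumber K) (TrivSqZeroExt.inl u : DualNumber K) P =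
      TrivSqZeroExt.inl (ev x u P) :=
  (ev_comp_int (TrivSqZeroExt.inlHom K K) x u P).symm

private lemma dynder_ev_add (x u x' u' : K) (P : ℤ[X][X]) :
    evD ((TrivSqZeroExt.inl x : DualNumber K) + DualNumber.eps * TrivSqZeroExt.inl x')
      ((TrivSqZeroExt.inl u : DualNumber K) + DualNumber.eps * TrivSqZeroExt.inl u') P =
      TrivSqZeroExt.inl (ev x u P) + DualNumber.eps *
        TrivSqZeroExt.inl (x' * ev x u (dX P) + u' * ev x u (derivative P)) := by
  rw [ev_add_sq_zero _ _ DualNumber.eps_mul_eps, dynder_ev_inl, dynder_ev_inl, dynder_ev_inl,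
    ← TrivSqZeroExt.inl_mul, ← TrivSqZeroExt.inl_mul, ← TrivSqZeroExt.inl_add]

/-- chain rule for the evaluation of an integral polynomial -/
private lemma dynder_ev (δ : Derivation R K K) (x u : K) (P : ℤ[X][X]) :
    δ (ev x u P) = δ x * ev x u (dX P) + δ u * ev x u (derivative P) := by
  have h1 : dynderHom δ (ev x u P) = evD (dynderHom δ x) (dynderHom δ u) P :=
    ev_comp_int _ _ _ _
  rw [dynderHom_eq, dynderHom_eq, dynderHom_eq, dynder_ev_add] at h1
  have h3 := congrArg TrivSqZeroExt.snd h1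
  simpa using h3

private lemma dynder_F (δ : Derivation R K K) (x u : K) (n : ℕ) :
    δ (F x u n) = δ x * bb x u n + δ u * aa x u n := by
  rw [← ev_FP, dynder_ev, ev_dX_FP, ev_derivative_FP]

end DynDerAux

variable {p : ℕ} [Fact p.Prime] {K : Type*} [Field K] [Algebra ℤ_[p] K] {N : ℕ}

/-- a derivation of `K` killing `x` is zero -/
private lemma DynField.dynder_zero (D : DynField p N K) (hN : 1 ≤ N) (δ : Derivation ℤ_[p] K K)
    (hδ : δ D.x = 0) (z : K) : δ z = 0 := by
  obtain ⟨-, -, hPU, -⟩ := D.generic hN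
  have hu : δ D.u = 0 := by
    have h1 := dynder_ev δ D.x D.u (Phi N)
    rw [D.root, map_zero, hδ, zero_mul, zero_add] at h1
    rcases mul_eq_zero.1 h1.symm with h | h
    · exact h
    · exact absurd h hPU
  have hA : ∀ w ∈ D.A, δ w = 0 := by
    intro w hw
    unfold DynField.A at hw
    induction hw using Algebra.adjoin_induction with
    | mem y hy =>
      rcases hy with rfl | hy
      · exact hδ
      · rw [Set.mem_singleton_iff] at hy
        rw [hy, hu]
    | algebraMap r => exact δ.map_algebraMap r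
    | add y z _ _ h1 h2 => rw [map_add, h1, h2, add_zero]
    | mul y z _ _ h1 h2 => rw [Derivation.leibniz, h1, h2, smul_zero, smul_zero, add_zero]
  obtain ⟨a, ha, b, hb, hb0, hab⟩ := D.frac z
  have h1 : δ (z * b) = 0 := by
    rw [hab]
    exact hA a ha
  rw [Derivation.leibniz, hA b hb, smul_zero, zero_add, smul_eq_mul] at h1
  exact (mul_eq_zero.1 h1).resolve_left hb0

theorem DynField.exists_der (D : DynField p N K) (hN : 1 ≤ N) :
    ∃ δ : Derivation ℤ_[p] K K, δ D.x = 1 := by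
  obtain ⟨-, -, hPU, -⟩ := D.generic hN
  obtain ⟨u', hu'⟩ : ∃ u' : K, 1 * D.PX + u' * D.PU = 0 :=
    ⟨-D.PX / D.PU, by field_simp; ring⟩
  obtain ⟨x1, hx1⟩ : ∃ x1 : DualNumber K, x1 = TrivSqZeroExt.inl D.x +
    DualNumber.eps * TrivSqZeroExt.inl 1 := ⟨_, rfl⟩
  obtain ⟨u1, hu1⟩ : ∃ u1 : DualNumber K, u1 = TrivSqZeroExt.inl D.u +
    DualNumber.eps * TrivSqZeroExt.inl u' := ⟨_, rfl⟩
  have hg0 : evD x1 u1 (Phi N) = 0 := by
    rw [hx1, hu1, dynder_ev_add, D.root]
    have : 1 * ev D.x D.u (dX (Phi N)) + u' * ev D.x D.u (derivative (Phi N)) = 0 := hu'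
    rw [this]
    simp
  have hker : ∀ P : ℤ_[p][X][X], ev D.x D.u P = 0 → ev x1 u1 P = 0 := by
    intro P hP
    obtain ⟨Q, rfl⟩ := D.ker P hP
    rw [map_mul, ev_map, hg0, zero_mul]
  have hfst : ∀ P : ℤ_[p][X][X], (ev x1 u1 P).fst = ev D.x D.u P := by
    intro P
    have h1 := ev_comp (R := ℤ_[p]) (TrivSqZeroExt.fstHom K K K).toRingHom
      (by ext a; rfl) x1 u1 P
    have h2 : x1.fst = D.x := by rw [hx1]; simp
    have h3 : u1.fst = D.u := by rw [hu1]; simp
    change (ev x1 u1 P).fst = ev x1.fst u1.fst P at h1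
    rw [h1, h2, h3]
  -- the coordinate ring
  let e : ℤ_[p][X][X] →+* D.A :=
    (ev D.x D.u).codRestrict D.A (fun P => (D.mem_A_iff _).2 ⟨P, rfl⟩)
  have he1 : ∀ P, ((e P : D.A) : K) = ev D.x D.u P := fun P => rfl
  have he : Function.Surjective e := by
    rintro ⟨z, hz⟩
    obtain ⟨P, hP⟩ := (D.mem_A_iff z).1 hz
    exact ⟨P, Subtype.ext hP.symm⟩
  have hle : RingHom.ker e ≤ RingHom.ker (ev (R := ℤ_[p]) x1 u1) := by
    intro P hP
    rw [RingHom.mem_ker] at hP ⊢
    apply hker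
    rw [← he1, hP]
    rfl
  obtain ⟨φA, hφA⟩ : ∃ φA : D.A →+* DualNumber K, ∀ P, φA (e P) = ev x1 u1 P :=
    ⟨RingHom.liftOfSurjective e he ⟨ev x1 u1, hle⟩, fun P =>
      RingHom.liftOfRightInverse_comp_apply _ _ _ ⟨ev x1 u1, hle⟩ P⟩
  have hφfst : ∀ z : D.A, (φA z).fst = z := by
    intro z
    obtain ⟨P, rfl⟩ := he z
    rw [hφA, hfst, he1]
  have : IsFractionRing D.A K := by
    apply IsFractionRing.of_field
    intro z
    obtain ⟨a, ha, b, hb, hb0, hab⟩ := D.frac z
    refine ⟨⟨a, ha⟩, ⟨b, hb⟩, ?_⟩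
    exact (eq_div_iff hb0).2 hab
  have hunit : ∀ y : nonZeroDivisors D.A, IsUnit (φA y) := by
    intro y
    rw [TrivSqZeroExt.isUnit_iff_isUnit_fst, hφfst, isUnit_iff_ne_zero]
    intro h0
    exact nonZeroDivisors.ne_zero y.2 (Subtype.ext h0)
  let φ : K →+* DualNumber K := IsLocalization.lift (M := nonZeroDivisors D.A) hunit
  have hφ : ∀ z : D.A, φ (z : K) = φA z := fun z => IsLocalization.lift_eq hunit z
  have hφf : ∀ z : K, (φ z).fst = z := by
    intro z
    obtain ⟨a, ha, b, hb, hb0, hab⟩ := D.frac z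
    have h1 : φ z * φA ⟨b, hb⟩ = φA ⟨a, ha⟩ := by
      rw [← hφ, ← hφ, ← map_mul]
      exact congrArg φ hab
    have h2 := congrArg TrivSqZeroExt.fst h1
    rw [TrivSqZeroExt.fst_mul, hφfst, hφfst] at h2
    exact mul_right_cancel₀ hb0 (h2.trans hab.symm)
  have hφalg : ∀ r : ℤ_[p], φ (algebraMap ℤ_[p] K r) = algebraMap ℤ_[p] (DualNumber K) r := by
    intro r
    have h1 : (e (C (C r)) : K) = algebraMap ℤ_[p] K r := by
      rw [he1, ev_CC]
    rw [← h1, hφ, hφA, ev_CC]
  have hφx : φ D.x = x1 := by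
    have h1 : (e (C X) : K) = D.x := by
      rw [he1, ev_CX]
    rw [← h1, hφ, hφA, ev_CX]
  refine ⟨Derivation.mk' ⟨⟨fun z => (φ z).snd, ?_⟩, ?_⟩ ?_, ?_⟩
  · intro z w
    rw [map_add, TrivSqZeroExt.snd_add]
  · intro r z
    simp only [RingHom.id_apply]
    rw [Algebra.smul_def, map_mul, hφalg, ← Algebra.smul_def, TrivSqZeroExt.snd_smul]
  · intro z w
    simp only [LinearMap.coe_mk, AddHom.coe_mk]
    rw [map_mul, DualNumber.snd_mul, hφf, hφf, smul_eq_mul, smul_eq_mul]
    ring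
  · change (φ D.x).snd = 1
    rw [hφx, hx1]
    simp

theorem DynField.der_u (D : DynField p N K) (hN : 1 ≤ N) (δ : Derivation ℤ_[p] K K)
    (hδ : δ D.x = 1) : D.PU * δ D.u = - D.PX ∧ aa D.x D.u N * δ D.u = - bb D.x D.u N := by
  constructor
  · have h1 := dynder_ev δ D.x D.u (Phi N)
    rw [D.root, map_zero, hδ, one_mul] at h1
    unfold DynField.PU DynField.PX
    linear_combination -h1
  · have h1 := dynder_F δ D.x D.u N
    rw [F_eq_zero_of_ev_Phi _ _ hN D.root, map_zero, hδ, one_mul] at h1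
    linear_combination -h1

theorem DynField.der_mem (D : DynField p N K) (δ : Derivation ℤ_[p] K K)
    (hδ : δ D.x = 1) (z : K) (hz : z ∈ D.A) :
    ∃ a ∈ D.A, ∃ b ∈ D.A, δ z = a + b * δ D.u := by
  have hz' := hz
  unfold DynField.A at hz'
  induction hz' using Algebra.adjoin_induction with
  | mem y hy =>
    rcases hy with rfl | hy
    · exact ⟨1, D.A.one_mem, 0, D.A.zero_mem, by rw [hδ]; ring⟩
    · rw [Set.mem_singleton_iff] at hy
      exact ⟨0, D.A.zero_mem, 1, D.A.one_mem, by rw [hy]; ring⟩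
  | algebraMap r =>
    exact ⟨0, D.A.zero_mem, 0, D.A.zero_mem, by rw [δ.map_algebraMap r]; ring⟩
  | add y w hy hw h1 h2 =>
    obtain ⟨a, ha, b, hb, h⟩ := h1 hy
    obtain ⟨a', ha', b', hb', h'⟩ := h2 hw
    exact ⟨a + a', D.A.add_mem ha ha', b + b', D.A.add_mem hb hb', by
      rw [map_add, h, h']; ring⟩
  | mul y w hy hw h1 h2 =>
    obtain ⟨a, ha, b, hb, h⟩ := h1 hy
    obtain ⟨a', ha', b', hb', h'⟩ := h2 hw
    exact ⟨y * a' + w * a, D.A.add_mem (D.A.mul_mem hy ha') (D.A.mul_mem hw ha),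
      y * b' + w * b, D.A.add_mem (D.A.mul_mem hy hb') (D.A.mul_mem hw hb), by
      rw [Derivation.leibniz, h, h', smul_eq_mul, smul_eq_mul]; ring⟩

/-- chain rule for an automorphism -/
theorem DynField.chain (D : DynField p N K) (hN : 1 ≤ N) (δ : Derivation ℤ_[p] K K)
    (hδ : δ D.x = 1) (σ : K ≃ₐ[ℤ_[p]] K) :
    δ (σ D.x) ≠ 0 ∧ ∀ z, δ (σ z) = δ (σ D.x) * σ (δ z) := by
  -- the conjugated derivation minus a multiple of `δ`
  let δ' : Derivation ℤ_[p] K K := Derivation.mk'
    (σ.symm.toLinearMap ∘ₗ δ.toLinearMap ∘ₗ σ.toLinearMap) (by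
      intro a b
      simp only [LinearMap.comp_apply, AlgEquiv.toLinearMap_apply, Derivation.coeFn_coe,
        map_mul, Derivation.leibniz, smul_eq_mul, map_add, AlgEquiv.symm_apply_apply])
  have hδ' : ∀ z, δ' z = σ.symm (δ (σ z)) := fun z => rfl
  have h1 : ∀ z, (δ' - δ' D.x • δ) z = 0 := by
    intro z
    apply D.dynder_zero hN
    rw [Derivation.sub_apply, Derivation.smul_apply, hδ, smul_eq_mul, mul_one, sub_self]
  have h2 : ∀ z, δ (σ z) = δ (σ D.x) * σ (δ z) := by
    intro z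
    have h3 := h1 z
    rw [Derivation.sub_apply, Derivation.smul_apply, smul_eq_mul, sub_eq_zero, hδ', hδ'] at h3
    have h4 := congrArg σ h3
    rwa [map_mul, AlgEquiv.apply_symm_apply, AlgEquiv.apply_symm_apply] at h4
  refine ⟨?_, h2⟩
  intro h0
  have h5 := h2 (σ.symm D.x)
  rw [AlgEquiv.apply_symm_apply, hδ, h0, zero_mul] at h5
  exact one_ne_zero h5

end DynBad
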