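import Pool.Agent.DynBad.AEtale
import Pool.Agent.DynBad.ChartGen
import Pool.Agent.DynBad.DynDer

/-!
# Module GaussW: Gauss valuations

Let `W` be Gauss: `A ≤ W`, `w(p) < 1`, not closed on `A`.

`gauss_units`: the residue class `x̄` of `x` in `κ = W/𝔪_W` is transcendental over `𝔽_p` (if it
were algebraic, `ū` is integral over `𝔽_p[x̄]`, so all residue classes of `A` would be algebraic,
hence fixed by a power of Frobenius).  `κ` has characteristic `p` and `x̄` is not integral over
`ℤ`.  `generic_of_not_integral` in `κ` (evaluate at `(x̄, ū)`, `ev_comp_int`, `map_F`, `map_aa`).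

`gauss_gen`: `S₁ = adjoin {x, u, PU⁻¹} ≤ W`, not closed; `loc W S₁ = loc W A` (`w(PU) = 1`); use
`etaleU` and `chart_gen`.

`A_zero`: by `unit_partial` `PU` or `PX` is a unit of `V`; use `etaleU` or `etaleX` and
`chart_zero`.

`exists_gauss`: the ideal `p ℤ_p[x]` is prime in `ℤ_p[x] ⊆ K` (`x` transcendental); take a
valuation ring with this centre (`exists_val_subalgebra` for `adjoin {x}`); `x̄` is transcendental.

`gauss_lam`: `δ` maps `W` to `W`: `δ u = - PX/PU ∈ W`, `δ(A) ⊆ W` (`der_mem`), `W = loc W A` and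
quotient rule; and `δ x = 1`.

`gauss_eta`: `η = ∏ F_{N/q} / aa` is a unit.
-/

namespace DynBad

open Polynomial

section aux

/-- an element of a field of characteristic `p` which is integral over `ℤ` is fixed by a power of
Frobenius -/
private theorem gw_frob {p : ℕ} [Fact p.Prime] {κ : Type*} [Field κ] [CharP κ p] {α : κ}
    (h : IsIntegral ℤ α) : ∃ n : ℕ, 1 ≤ n ∧ α ^ p ^ n = α := by
  let _ : Algebra (ZMod p) κ := ZMod.algebra κ p
  have h1 : IsIntegral (ZMod p) α := by
    obtain ⟨P, hP, hP0⟩ := h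
    refine ⟨P.map (Int.castRingHom (ZMod p)), hP.map _, ?_⟩
    rw [eval₂_map, RingHom.ext_int ((algebraMap (ZMod p) κ).comp (Int.castRingHom (ZMod p)))
      (algebraMap ℤ κ)]
    exact hP0
  have : FiniteDimensional (ZMod p) (IntermediateField.adjoin (ZMod p) {α}) :=
    IntermediateField.adjoin.finiteDimensional h1
  have : Finite (IntermediateField.adjoin (ZMod p) {α}) :=
    Module.finite_of_finite (ZMod p)
  let _ : Fintype (IntermediateField.adjoin (ZMod p) {α}) := Fintype.ofFinite _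
  have : CharP (IntermediateField.adjoin (ZMod p) {α}) p :=
    charP_of_injective_algebraMap
      (algebraMap (ZMod p) (IntermediateField.adjoin (ZMod p) {α})).injective p
  obtain ⟨n, _, hn⟩ := FiniteField.card (IntermediateField.adjoin (ZMod p) {α}) p
  refine ⟨n, n.2, ?_⟩
  have h2 := FiniteField.pow_card (K := IntermediateField.adjoin (ZMod p) {α})
    ⟨α, IntermediateField.mem_adjoin_simple_self (ZMod p) α⟩
  rw [hn] at h2
  have h3 := congrArg (algebraMap (IntermediateField.adjoin (ZMod p) {α}) κ) h2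
  rw [map_pow] at h3
  exact h3

private theorem gw_res {K : Type*} [Field K] (W : ValuationSubring K) (w : W) :
    IsLocalRing.residue W w ≠ 0 ↔ W.valuation (w : K) = 1 := by
  rw [Ne, IsLocalRing.residue_eq_zero_iff, ValuationSubring.valuation_lt_one_iff, not_lt]
  exact ⟨fun h => le_antisymm (W.valuation_le_one w) h, fun h => h.ge⟩

/-- elements of `S[c⁻¹]` -/
private theorem gw_clear {R K : Type*} [CommRing R] [Field K] [Algebra R K] (x u c : K)
    (hc : c ∈ Algebra.adjoin R {x, u}) (hc0 : c ≠ 0) (z : K)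
    (hz : z ∈ Algebra.adjoin R {x, u, c⁻¹}) : ∃ n : ℕ, z * c ^ n ∈ Algebra.adjoin R {x, u} := by
  induction hz using Algebra.adjoin_induction with
  | mem z hz =>
    simp only [Set.mem_insert_iff, Set.mem_singleton_iff] at hz
    rcases hz with rfl | rfl | rfl
    · exact ⟨0, by rw [pow_zero, mul_one]; exact Algebra.subset_adjoin (by simp)⟩
    · exact ⟨0, by rw [pow_zero, mul_one]; exact Algebra.subset_adjoin (by simp)⟩
    · exact ⟨1, by rw [pow_one, inv_mul_cancel₀ hc0]; exact Subalgebra.one_mem _⟩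
  | algebraMap r => exact ⟨0, by rw [pow_zero, mul_one]; exact Subalgebra.algebraMap_mem _ r⟩
  | add a b _ _ ha hb =>
    obtain ⟨n, hn⟩ := ha
    obtain ⟨m, hm⟩ := hb
    refine ⟨n + m, ?_⟩
    have : (a + b) * c ^ (n + m) = a * c ^ n * c ^ m + b * c ^ m * c ^ n := by ring
    rw [this]
    exact Subalgebra.add_mem _ (Subalgebra.mul_mem _ hn (Subalgebra.pow_mem _ hc m))
      (Subalgebra.mul_mem _ hm (Subalgebra.pow_mem _ hc n))
  | mul a b _ _ ha hb =>
    obtain ⟨n, hn⟩ := ha
    obtain ⟨m, hm⟩ := hb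
    refine ⟨n + m, ?_⟩
    have : a * b * c ^ (n + m) = a * c ^ n * (b * c ^ m) := by ring
    rw [this]
    exact Subalgebra.mul_mem _ hn hm

private theorem gw_loc {R K : Type*} [CommRing R] [Field K] [Algebra R K] (V : ValuationSubring K)
    (x u c : K) (hc : c ∈ Algebra.adjoin R {x, u}) (hc1 : V.valuation c = 1) (z : K)
    (hz : z ∈ loc V (Algebra.adjoin R {x, u, c⁻¹})) : z ∈ loc V (Algebra.adjoin R {x, u}) := by
  have hc0 : c ≠ 0 := by
    rintro rfl
    simp at hc1
  obtain ⟨a, ha, b, hb, hb1, hab⟩ := hz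
  obtain ⟨n, hn⟩ := gw_clear x u c hc hc0 a ha
  obtain ⟨m, hm⟩ := gw_clear x u c hc hc0 b hb
  refine ⟨a * c ^ n * c ^ m, Subalgebra.mul_mem _ hn (Subalgebra.pow_mem _ hc m),
    b * c ^ m * c ^ n, Subalgebra.mul_mem _ hm (Subalgebra.pow_mem _ hc n), ?_, ?_⟩
  · rw [map_mul, map_mul, map_pow, map_pow, hb1, hc1]
    simp
  · rw [← hab]
    ring

private theorem gw_le {R K : Type*} [CommRing R] [Field K] [Algebra R K] (V : ValuationSubring K)
    (x u c : K) (hle : Le (Algebra.adjoin R {x, u}) V) (hc1 : V.valuation c = 1) :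
    Le (Algebra.adjoin R {x, u, c⁻¹}) V := by
  intro z hz
  induction hz using Algebra.adjoin_induction with
  | mem z hz =>
    simp only [Set.mem_insert_iff, Set.mem_singleton_iff] at hz
    rcases hz with rfl | rfl | rfl
    · exact hle _ (Algebra.subset_adjoin (by simp))
    · exact hle _ (Algebra.subset_adjoin (by simp))
    · rw [← V.valuation_le_one_iff, map_inv₀, hc1, inv_one]
  | algebraMap r => exact hle _ (Subalgebra.algebraMap_mem _ r)
  | add a b _ _ ha hb => exact V.add_mem _ _ ha hb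
  | mul a b _ _ ha hb => exact V.mul_mem _ _ ha hb

end aux

variable {p : ℕ} [Fact p.Prime] {K : Type*} [Field K] [CharZero K] [Algebra ℤ_[p] K] {N : ℕ}

theorem DynField.gauss_units (D : DynField p N K) (hN : 1 ≤ N) (W : ValuationSubring K)
    (hW : D.Gauss W) :
    W.valuation (aa D.x D.u N) = 1 ∧ W.valuation D.PU = 1 ∧
      ∀ k, 0 < k → k < N → W.valuation (F D.x D.u k) = 1 := by
  obtain ⟨hle, hp, hc⟩ := hW
  -- the residue field
  let κ := IsLocalRing.ResidueField W
  let res : W →+* κ := IsLocalRing.residue W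
  let X' : W := ⟨D.x, hle _ D.x_mem⟩
  let U' : W := ⟨D.u, hle _ D.u_mem⟩
  have hpκ : ((p : ℕ) : κ) = 0 := by
    by_contra h
    have h1 : IsLocalRing.residue W ((p : ℕ) : W) ≠ 0 := by
      rw [map_natCast]
      exact h
    rw [gw_res] at h1
    have h2 : (((p : ℕ) : W) : K) = (p : K) := by norm_cast
    rw [h2] at h1
    exact absurd h1 hp.ne
  have : CharP κ p := (CharP.charP_iff_prime_eq_zero (Fact.out : p.Prime)).mpr hpκ
  -- the residue of `ℤ_p`
  have hZp : ∀ a : ℤ_[p], ∀ h : algebraMap ℤ_[p] K a ∈ W,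
      IsIntegral ℤ (res ⟨algebraMap ℤ_[p] K a, h⟩) := by
    intro a h
    obtain ⟨n, hn, hna⟩ := PadicInt.exists_mem_range a
    rw [PadicInt.maximalIdeal_eq_span_p, Ideal.mem_span_singleton] at hna
    obtain ⟨b, hb⟩ := hna
    have hbW : algebraMap ℤ_[p] K b ∈ W := hle.over b
    have h1 : (⟨algebraMap ℤ_[p] K a, h⟩ : W) = (n : W) + (p : W) * ⟨algebraMap ℤ_[p] K b, hbW⟩ := by
      apply Subtype.ext
      have h2 : algebraMap ℤ_[p] K a = (n : K) + (p : K) * algebraMap ℤ_[p] K b := by
        have h3 : a = n + p * b := by rw [← hb]; ring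
        rw [h3, map_add, map_mul, map_natCast, map_natCast]
      push_cast
      exact h2
    rw [h1, map_add, map_mul, map_natCast, map_natCast, hpκ, zero_mul, add_zero]
    exact isIntegral_natCast n
  have hnot : ¬ IsIntegral ℤ (res X') := by
    intro hint
    apply hc
    -- `u` is integral over `ℤ[x]`
    have hU : IsIntegral ℤ (res U') := by
      have h1 : ev (res X') (res U') (Phi N) = 0 := by
        have h2 : ev (R := ℤ) X' U' (Phi N) = 0 := by
          apply Subtype.ext
          have h3 := ev_comp_int W.subtype X' U' (Phi N)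
          have h4 : W.subtype (ev X' U' (Phi N)) = ev D.x D.u (Phi N) := h3
          rw [D.root] at h4
          exact h4
        have h6 := ev_comp_int res X' U' (Phi N)
        rw [h2, map_zero] at h6
        exact h6.symm
      -- monic polynomial over the integral closure
      have h5 : IsIntegral (integralClosure ℤ κ) (res U') := by
        let x0 : integralClosure ℤ κ := ⟨res X', hint⟩
        refine ⟨(Phi N).map (eval₂RingHom (Int.castRingHom _) x0), (Phi_monic hN).map _, ?_⟩
        rw [eval₂_map]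
        rw [← h1]
        unfold ev
        simp only [coe_eval₂RingHom]
        congr 1
        apply Polynomial.ringHom_ext
        · intro a
          simp
        · simp [x0]
      exact isIntegral_trans (R := ℤ) (A := integralClosure ℤ κ) _ h5
    -- all elements of `A`
    have hall : ∀ z : K, ∀ hz : z ∈ D.A, IsIntegral ℤ (res ⟨z, hle z hz⟩) := by
      intro z hz
      have key : ∀ y : K, y ∈ Algebra.adjoin ℤ_[p] {D.x, D.u} →
          ∃ h : y ∈ W, IsIntegral ℤ (res ⟨y, h⟩) := by
        intro y hy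
        induction hy using Algebra.adjoin_induction with
        | mem y hy =>
          simp only [Set.mem_insert_iff, Set.mem_singleton_iff] at hy
          rcases hy with rfl | rfl
          · exact ⟨hle _ D.x_mem, hint⟩
          · exact ⟨hle _ D.u_mem, hU⟩
        | algebraMap r => exact ⟨hle.over r, hZp r _⟩
        | add a b _ _ ha hb =>
          obtain ⟨h1, h2⟩ := ha
          obtain ⟨h3, h4⟩ := hb
          refine ⟨W.add_mem _ _ h1 h3, ?_⟩
          have : (⟨a + b, W.add_mem _ _ h1 h3⟩ : W) = ⟨a, h1⟩ + ⟨b, h3⟩ := rfl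
          rw [this, map_add]
          exact h2.add h4
        | mul a b _ _ ha hb =>
          obtain ⟨h1, h2⟩ := ha
          obtain ⟨h3, h4⟩ := hb
          refine ⟨W.mul_mem _ _ h1 h3, ?_⟩
          have : (⟨a * b, W.mul_mem _ _ h1 h3⟩ : W) = ⟨a, h1⟩ * ⟨b, h3⟩ := rfl
          rw [this, map_mul]
          exact h2.mul h4
      obtain ⟨_, h⟩ := key z hz
      exact h
    intro z hz
    obtain ⟨n, hn, hfr⟩ := gw_frob (p := p) (hall z hz)
    refine ⟨n, hn, ?_⟩
    have h1 : res ((⟨z, hle z hz⟩ : W) ^ p ^ n - ⟨z, hle z hz⟩) = 0 := by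
      rw [map_sub, map_pow, hfr, sub_self]
    have h2 : (⟨z, hle z hz⟩ : W) ^ p ^ n - ⟨z, hle z hz⟩ ∈ IsLocalRing.maximalIdeal W := by
      rw [← IsLocalRing.residue_eq_zero_iff]
      exact h1
    rw [ValuationSubring.valuation_lt_one_iff] at h2
    exact h2
  have h1 : ev (res X') (res U') (Phi N) = 0 := by
    have h2 : ev (R := ℤ) X' U' (Phi N) = 0 := by
      apply Subtype.ext
      have h4 : W.subtype (ev X' U' (Phi N)) = ev D.x D.u (Phi N) :=
        ev_comp_int W.subtype X' U' (Phi N)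
      rw [D.root] at h4
      exact h4
    have h6 := ev_comp_int res X' U' (Phi N)
    rw [h2, map_zero] at h6
    exact h6.symm
  obtain ⟨g1, g2, _, g4⟩ := generic_of_not_integral hN h1 hnot
  refine ⟨?_, ?_, ?_⟩
  · have h3 : IsLocalRing.residue W (aa X' U' N) ≠ 0 := by
      have : res (aa X' U' N) = aa (res X') (res U') N := map_aa X' U' res N
      exact this ▸ g1
    rw [gw_res] at h3
    have h4 : W.subtype (aa X' U' N) = aa D.x D.u N := map_aa X' U' W.subtype N
    rw [← h4]
    exact h3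
  · have h3 : IsLocalRing.residue W (ev X' U' (derivative (Phi N))) ≠ 0 := by
      have : res (ev X' U' (derivative (Phi N))) = ev (res X') (res U') (derivative (Phi N)) :=
        ev_comp_int res X' U' _
      exact this ▸ g2
    rw [gw_res] at h3
    have h4 : W.subtype (ev X' U' (derivative (Phi N))) = D.PU :=
      ev_comp_int W.subtype X' U' _
    rw [← h4]
    exact h3
  · intro k hk hkN
    have h3 : IsLocalRing.residue W (F X' U' k) ≠ 0 := by
      have : res (F X' U' k) = F (res X') (res U') k := map_F X' U' res k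
      exact this ▸ g4 k hk hkN
    rw [gw_res] at h3
    have h4 : W.subtype (F X' U' k) = F D.x D.u k := map_F X' U' W.subtype k
    rw [← h4]
    exact h3

theorem DynField.gauss_gen (D : DynField p N K) (hN : 1 ≤ N) (W : ValuationSubring K)
    (hW : D.Gauss W) :
    (∀ z ∈ W, z ∈ loc W D.A) ∧
      ∀ z : K, z ≠ 0 → ∃ n : ℤ, ∃ w : K, W.valuation w = 1 ∧ z = (p : K) ^ n * w := by
  obtain ⟨_, hPU, _⟩ := D.gauss_units hN W hW
  obtain ⟨hle, hp, hc⟩ := hW
  have hle1 : Le (Algebra.adjoin ℤ_[p] {D.x, D.u, D.PU⁻¹}) W := gw_le W D.x D.u D.PU hle hPU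
  have hc1 : ¬ Closed W (Algebra.adjoin ℤ_[p] {D.x, D.u, D.PU⁻¹}) := by
    intro h
    apply hc
    intro z hz
    apply h z
    have : Algebra.adjoin ℤ_[p] {D.x, D.u} ≤ Algebra.adjoin ℤ_[p] {D.x, D.u, D.PU⁻¹} := by
      apply Algebra.adjoin_mono
      intro y hy
      simp only [Set.mem_insert_iff, Set.mem_singleton_iff] at hy ⊢
      rcases hy with h | h
      · exact Or.inl h
      · exact Or.inr (Or.inl h)
    exact this hz
  obtain ⟨h1, h2⟩ := chart_gen _ (D.etaleU hN) W hle1 hp hc1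
  exact ⟨fun z hz => gw_loc W D.x D.u D.PU D.PU_mem hPU z (h1 z hz), h2⟩

theorem DynField.A_zero (D : DynField p N K) (hN : 1 ≤ N) (V : ValuationSubring K)
    (hV : Le D.A V) (hp : V.valuation (p : K) = 1) : ∀ z ∈ V, z ∈ loc V D.A := by
  rcases D.unit_partial hN V hV hp with h | h
  · intro z hz
    exact gw_loc V D.x D.u D.PU D.PU_mem h z
      (chart_zero _ (D.etaleU hN) V (gw_le V D.x D.u D.PU hV h) hp z hz)
  · intro z hz
    have h0 : D.PX ≠ 0 := by
      intro h'
      rw [h'] at h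
      simp at h
    exact gw_loc V D.x D.u D.PX D.PX_mem h z
      (chart_zero _ (D.etaleX hN h0) V (gw_le V D.x D.u D.PX hV h) hp z hz)

theorem DynField.exists_gauss (D : DynField p N K) (hN : 1 ≤ N) :
    ∃ W : ValuationSubring K, D.Gauss W := by
  have hinj : Function.Injective (aeval D.x : ℤ_[p][X] →ₐ[ℤ_[p]] K) :=
    transcendental_iff_injective.mp D.transc
  let e : ℤ_[p][X] ≃ₐ[ℤ_[p]] (aeval D.x : ℤ_[p][X] →ₐ[ℤ_[p]] K).range :=
    AlgEquiv.ofInjective _ hinj
  have hprime : (Ideal.span {(C (p : ℤ_[p]) : ℤ_[p][X])}).IsPrime := by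
    rw [Ideal.span_singleton_prime]
    · exact Polynomial.prime_C_iff.mpr PadicInt.prime_p
    · rw [Ne, C_eq_zero]
      exact_mod_cast (Fact.out : p.Prime).ne_zero
  have := hprime
  have : (Ideal.comap (e.symm : (aeval D.x : ℤ_[p][X] →ₐ[ℤ_[p]] K).range →+* ℤ_[p][X])
      (Ideal.span {(C (p : ℤ_[p]) : ℤ_[p][X])})).IsPrime := Ideal.IsPrime.comap _
  obtain ⟨V, hV, hV1⟩ := exists_val_subalgebra (aeval D.x : ℤ_[p][X] →ₐ[ℤ_[p]] K).range
    (Ideal.comap (e.symm : (aeval D.x : ℤ_[p][X] →ₐ[ℤ_[p]] K).range →+* ℤ_[p][X])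
      (Ideal.span {(C (p : ℤ_[p]) : ℤ_[p][X])}))
  have hV2 : ∀ f : ℤ_[p][X], V.valuation (aeval D.x f) < 1 ↔ (C (p : ℤ_[p]) : ℤ_[p][X]) ∣ f := by
    intro f
    have h1 := hV1 (e f)
    have h2 : ((e f : (aeval D.x : ℤ_[p][X] →ₐ[ℤ_[p]] K).range) : K) = aeval D.x f := rfl
    rw [h2, Ideal.mem_comap] at h1
    rw [h1, ← Ideal.mem_span_singleton]
    have h3 : (e.symm : (aeval D.x : ℤ_[p][X] →ₐ[ℤ_[p]] K).range →+* ℤ_[p][X]) (e f) = f :=
      e.symm_apply_apply f
    rw [h3]
  have hx : D.x ∈ V := hV _ ⟨X, by simp⟩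
  have hA := D.mem_of_x hN V hV.over hx
  refine ⟨V, hA, ?_, ?_⟩
  · have := (hV2 (C (p : ℤ_[p]))).mpr dvd_rfl
    simpa using this
  · intro hcl
    obtain ⟨n, hn, h⟩ := hcl D.x D.x_mem
    have h1 := (hV2 (X ^ p ^ n - X)).mp (by simpa using h)
    rw [C_dvd_iff_dvd_coeff] at h1
    have h2 := h1 1
    have hne : p ^ n ≠ 1 := by
      have := Nat.one_lt_pow (by omega : n ≠ 0) (Fact.out : p.Prime).one_lt
      omega
    rw [coeff_sub, coeff_X_pow, coeff_X_one, if_neg (fun h => hne h.symm), zero_sub, dvd_neg] at h2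
    exact PadicInt.prime_p.not_isUnit (isUnit_of_dvd_one h2)

theorem DynField.gauss_lam (D : DynField p N K) (hN : 1 ≤ N) (δ : Derivation ℤ_[p] K K)
    (hδ : δ D.x = 1) (W : ValuationSubring K) (hW : D.Gauss W) (z : K) :
    z ∈ Lam δ W.toSubring ↔ z ∈ W := by
  obtain ⟨_, hPU, _⟩ := D.gauss_units hN W hW
  obtain ⟨hloc, _⟩ := D.gauss_gen hN W hW
  obtain ⟨hle, hp, hc⟩ := hW
  have hu : δ D.u ∈ W := by
    have h1 := (D.der_u hN δ hδ).1
    rw [← W.valuation_le_one_iff]
    have h2 := congrArg W.valuation h1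
    rw [map_mul, hPU, one_mul, Valuation.map_neg] at h2
    rw [h2, W.valuation_le_one_iff]
    exact hle _ D.PX_mem
  have hA : ∀ a ∈ D.A, δ a ∈ W := by
    intro a ha
    obtain ⟨b, hb, c, hc, h⟩ := D.der_mem δ hδ a ha
    rw [h]
    exact W.add_mem _ _ (hle _ hb) (W.mul_mem _ _ (hle _ hc) hu)
  have hδW : ∀ w ∈ W, δ w ∈ W := by
    intro w hw
    obtain ⟨a, ha, b, hb, hb1, hab⟩ := hloc w hw
    have h1 : δ w * b = δ a - w * δ b := by
      rw [← hab, Derivation.leibniz, smul_eq_mul, smul_eq_mul]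
      ring
    have h2 : δ a - w * δ b ∈ W := sub_mem (hA a ha) (W.mul_mem _ _ hw (hA b hb))
    rw [← h1, ← W.valuation_le_one_iff, map_mul, hb1, mul_one] at h2
    rwa [W.valuation_le_one_iff] at h2
  constructor
  · intro hz
    unfold Lam at hz
    induction hz using Submodule.span_induction with
    | mem y hy =>
      obtain ⟨w, hw, rfl⟩ := hy
      exact hδW w hw
    | zero => exact W.zero_mem
    | add a b _ _ ha hb => exact W.add_mem _ _ ha hb
    | smul r a _ ha => exact W.mul_mem _ _ r.2 ha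
  · intro hz
    unfold Lam
    have h1 : z = (⟨z, hz⟩ : W.toSubring) • δ D.x := by
      rw [hδ]
      exact (mul_one z).symm
    rw [h1]
    exact Submodule.smul_mem _ _ (Submodule.subset_span ⟨D.x, hle _ D.x_mem, rfl⟩)

theorem DynField.gauss_eta (D : DynField p N K) (hN : 1 ≤ N) (W : ValuationSubring K)
    (hW : D.Gauss W) : W.valuation D.eta = 1 := by
  obtain ⟨ha, _, hF⟩ := D.gauss_units hN W hW
  unfold DynField.eta
  rw [map_div₀, ha, div_one, map_prod]
  apply Finset.prod_eq_one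
  intro q hq
  have hqp := Nat.prime_of_mem_primeFactors hq
  have hqN := Nat.dvd_of_mem_primeFactors hq
  apply hF
  · exact Nat.div_pos (Nat.le_of_dvd (by omega) hqN) hqp.pos
  · exact Nat.div_lt_self (by omega) hqp.one_lt

end DynBad
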