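import Pool.Agent.DynBad.Contraction
import Pool.Agent.DynBad.EtaMem
import Pool.Agent.DynBad.GaussW

/-!
# Module AllGauss: if `η ∈ Λ(D₀)` then `D₀` is the only Gauss valuation

Let `W` be Gauss.  If `W ≠ D₀`, then `W` is not Gen (`huniq`), it has uniformizer `p`
(`gauss_gen`), and `contraction` (its `D` is `D₀`) with `k = 0`, `η = D.eta` (`eta_regular`) gives
`η ∈ p Λ(W) = pW` (`gauss_lam`), contradiction to `gauss_eta`.  With `exists_gauss`, `D₀` is Gauss.
-/

namespace DynBad

variable {p : ℕ} [Fact p.Prime] {K : Type*} [Field K] [CharZero K] [Algebra ℤ_[p] K] {N : ℕ}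

theorem all_gauss (D : DynField p N K) (hN : 4 ≤ N) (M : SmoothModel p K)
    (D₀ : ValuationSubring K) (hD₀ : M.Gen D₀) (huniq : ∀ D', M.Gen D' → D' = D₀)
    (δ : Derivation ℤ_[p] K K) (hδ : δ D.x = 1) (hη : D.eta ∈ Lam δ D₀.toSubring) :
    D.Gauss D₀ ∧ ∀ W, D.Gauss W → W = D₀ := by
  have hN1 : 1 ≤ N := by omega
  have hδ0 : δ ≠ 0 := by
    rintro rfl
    simp at hδ
  have key : ∀ W, D.Gauss W → W = D₀ := by
    intro W hW
    by_contra hne
    have hng : ¬ M.Gen W := fun h => hne (huniq W h)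
    have hunif : ∀ z : K, W.valuation z < 1 → ∃ w ∈ W, z = p * w := by
      intro z hz
      by_cases hz0 : z = 0
      · exact ⟨0, W.zero_mem, by simp [hz0]⟩
      obtain ⟨n, w, hw, hzw⟩ := (D.gauss_gen hN1 W hW).2 z hz0
      have hp0 : (p : K) ≠ 0 := Nat.cast_ne_zero.mpr (Fact.out : p.Prime).ne_zero
      have hpv : W.valuation (p : K) ≠ 0 := by simpa using hp0
      have hn : 1 ≤ n := by
        by_contra hcon
        have hn0 : n ≤ 0 := by omega
        rw [hzw, map_mul, hw, mul_one, map_zpow₀] at hz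
        obtain ⟨k, hk⟩ := Int.eq_ofNat_of_zero_le (a := -n) (by omega)
        have : n = -(k : ℤ) := by omega
        rw [this, zpow_neg, zpow_natCast] at hz
        have h1 : W.valuation (p : K) ^ k ≤ 1 := pow_le_one₀ zero_le hW.2.1.le
        have h2 : 1 ≤ (W.valuation (p : K) ^ k)⁻¹ := (one_le_inv₀ (by
          exact zero_lt_iff.mpr (pow_ne_zero _ hpv))).mpr h1
        exact absurd hz (not_lt.mpr h2)
      refine ⟨(p : K) ^ (n - 1) * w, ?_, ?_⟩
      · rw [← W.valuation_le_one_iff, map_mul, hw, mul_one, map_zpow₀]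
        obtain ⟨k, hk⟩ := Int.eq_ofNat_of_zero_le (a := n - 1) (by omega)
        rw [hk]
        simp only [zpow_natCast]
        exact pow_le_one₀ zero_le hW.2.1.le
      · rw [hzw, ← mul_assoc, ← zpow_one_add₀ hp0]
        congr 2
        ring
    obtain ⟨D', hD', hcon⟩ := contraction M δ hδ0 W hW.1.over hW.2.1 hunif hng
    have hDD : D' = D₀ := huniq D' hD'
    subst hDD
    obtain ⟨z, hz, hez⟩ := hcon D.eta (D.eta_regular hN δ hδ) 0 ⟨D.eta, hη, by simp⟩
    have hz' := (W.valuation_le_one_iff z).mpr ((D.gauss_lam hN1 δ hδ W hW z).mp hz)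
    have h1 := D.gauss_eta hN1 W hW
    rw [hez, map_mul] at h1
    simp only [zero_add, zpow_one] at h1
    have h2 : W.valuation (p : K) * W.valuation z < 1 :=
      mul_lt_one_of_nonneg_of_lt_one_left zero_le hW.2.1 hz'
    rw [h1] at h2
    exact lt_irrefl _ h2
  obtain ⟨W, hW⟩ := D.exists_gauss hN1
  exact ⟨key W hW ▸ hW, key⟩

end DynBad
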