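import Pool.Agent.DynBad.ClosedPt

/-!
# Module GenBasic: generic points of the special fibre of a smooth model

`resAlg_loc`: residue classes fixed by `Frob^n` and `Frob^m` are fixed by `Frob^(nm)`; the fixed
elements of `Frob^(nm)` in the residue field (char `p`) form a subfield.
`gen_iff`: if `S, S' ≤ V` are charts, `loc V S = loc V S'` (`sep`), so `Closed V S → Closed V S'`
by `resAlg_loc`.
`gen_unif`: `chart_gen`.
`gen_eq_of_le`: for `z ∈ D`, `z ≠ 0`, write `z = p^n w`, `w` a unit of `V'`, hence of `D`; so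
`n ≥ 0` and `z ∈ V'`.
`dominate_not_gen`: if `O = loc V S` is closed and `D` is Gen with `O ≤ D` then `D` does not
dominate `O`, i.e. some `z ∈ O` has `v(z) < 1` and `v_D(z) = 1` (otherwise
`s^(p^n) - s ∈ 𝔪_V ∩ O ⊆ 𝔪_D` for `s ∈ S` and `D` would be closed on `S`, contradicting
`gen_iff`).
-/

namespace DynBad

variable {p : ℕ} [Fact p.Prime] {K : Type*} [Field K] [CharZero K] [Algebra ℤ_[p] K]

section aux

omit [CharZero K] in
private lemma val_pow_sub {V : ValuationSubring K} {x y : K} (hx : x ∈ V) (hy : y ∈ V)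
    (h : V.valuation (x - y) < 1) (q : ℕ) : V.valuation (x ^ q - y ^ q) < 1 := by
  rw [← geom_sum₂_mul x y q, map_mul]
  have h1 : (∑ i ∈ Finset.range q, x ^ i * y ^ (q - 1 - i)) ∈ V :=
    sum_mem fun i _ => mul_mem (pow_mem hx _) (pow_mem hy _)
  have h2 := (V.valuation_le_one_iff _).mpr h1
  calc _ ≤ 1 * V.valuation (x - y) := mul_le_mul_left h2 _
    _ < 1 := by rw [one_mul]; exact h

omit [CharZero K] in
private lemma val_frob {V : ValuationSubring K} {x : K} (hx : x ∈ V) {n : ℕ}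
    (h : V.valuation (x ^ p ^ n - x) < 1) (k : ℕ) :
    V.valuation (x ^ p ^ (n * k) - x) < 1 := by
  induction k with
  | zero => simp
  | succ k ih =>
    have e : x ^ p ^ (n * (k + 1)) - x =
        ((x ^ p ^ (n * k)) ^ p ^ n - x ^ p ^ n) + (x ^ p ^ n - x) := by
      rw [← pow_mul, ← pow_add, Nat.mul_succ]
      ring
    rw [e]
    exact V.valuation.map_add_lt (val_pow_sub (pow_mem hx _) hx ih _) h

omit [CharZero K] in
private lemma zpow_lt_one_pos {V : ValuationSubring K} {π w : K} (hπ0 : π ≠ 0)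
    (hπ : V.valuation π < 1) (hw : V.valuation w = 1) {n : ℤ}
    (h : V.valuation (π ^ n * w) < 1) : 0 < n := by
  by_contra hn
  push Not at hn
  obtain ⟨k, rfl⟩ : ∃ k : ℕ, n = -(k : ℤ) := ⟨n.natAbs, by omega⟩
  rw [map_mul, hw, mul_one, zpow_neg, zpow_natCast, map_inv₀, map_pow] at h
  have h1 : V.valuation π ^ k ≤ 1 := pow_le_one₀ zero_le' hπ.le
  have h2 : 0 < V.valuation π ^ k := by
    apply pow_pos
    rw [zero_lt_iff]
    exact (Valuation.ne_zero_iff _).mpr hπ0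
  have h3 : 1 ≤ (V.valuation π ^ k)⁻¹ := (one_le_inv₀ h2).mpr h1
  exact absurd h (not_lt.mpr h3)

omit [CharZero K] in
private lemma zpow_le_one_nonneg {V : ValuationSubring K} {π : K} (hπ0 : π ≠ 0)
    (hπ : V.valuation π < 1) {n : ℤ} (h : V.valuation (π ^ n) ≤ 1) : 0 ≤ n := by
  by_contra hn
  push Not at hn
  obtain ⟨k, rfl⟩ : ∃ k : ℕ, n = -((k : ℤ) + 1) := ⟨n.natAbs - 1, by omega⟩
  have e : π ^ (-((k : ℤ) + 1)) = (π ^ (k + 1))⁻¹ := by
    rw [zpow_neg]
    norm_cast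
  rw [e, map_inv₀, map_pow] at h
  have h1 : V.valuation π ^ (k + 1) < 1 := pow_lt_one₀ zero_le' hπ (Nat.succ_ne_zero k)
  have h2 : 0 < V.valuation π ^ (k + 1) := by
    apply pow_pos
    rw [zero_lt_iff]
    exact (Valuation.ne_zero_iff _).mpr hπ0
  have h3 : 1 < (V.valuation π ^ (k + 1))⁻¹ := (one_lt_inv₀ h2).mpr h1
  exact absurd h (not_le.mpr h3)

end aux

theorem resAlg_loc (S : Subalgebra ℤ_[p] K) (V : ValuationSubring K) (hSV : Le S V)
    (hp : V.valuation (p : K) < 1) (hc : Closed V S) (z : K) (hz : z ∈ loc V S) :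
    ResAlg p V z := by
  obtain ⟨a, ha, b, hb, hb1, hab⟩ := hz
  have hzV : z ∈ V := loc_le hSV ⟨a, ha, b, hb, hb1, hab⟩
  obtain ⟨n, hn, hna⟩ := hc a ha
  obtain ⟨m, hm, hmb⟩ := hc b hb
  have h1 := val_frob (hSV a ha) hna m
  have h2 := val_frob (hSV b hb) hmb n
  rw [mul_comm m n] at h2
  refine ⟨n * m, Nat.mul_pos hn hm, ?_⟩
  have e : b ^ p ^ (n * m) * (z ^ p ^ (n * m) - z) =
      (a ^ p ^ (n * m) - a) - (b ^ p ^ (n * m) - b) * z := by
    rw [← hab]
    ring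
  have h3 : V.valuation (b ^ p ^ (n * m) * (z ^ p ^ (n * m) - z)) < 1 := by
    rw [e]
    apply V.valuation.map_sub_lt h1
    rw [map_mul]
    have := (V.valuation_le_one_iff z).mpr hzV
    calc _ ≤ V.valuation (b ^ p ^ (n * m) - b) * 1 := mul_le_mul_right this _
      _ < 1 := by rw [mul_one]; exact h2
  rwa [map_mul, map_pow, hb1, one_pow, one_mul] at h3

theorem gen_iff (M : SmoothModel p K) (S : Subalgebra ℤ_[p] K) (hS : S ∈ M.charts)
    (V : ValuationSubring K) (hSV : Le S V) (hp : V.valuation (p : K) < 1) :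
    M.Gen V ↔ ¬ Closed V S := by
  constructor
  · rintro ⟨-, S', hS', hS'V, hn⟩ hc
    apply hn
    intro z hz
    have h1 : z ∈ loc V S := by
      rw [M.sep S hS S' hS' V hSV hS'V]
      exact le_loc V S' hz
    exact resAlg_loc S V hSV hp hc z h1
  · intro h
    exact ⟨hp, S, hS, hSV, h⟩

theorem gen_unif (M : SmoothModel p K) (V : ValuationSubring K) (hV : M.Gen V) :
    (∀ z : K, V.valuation z < 1 → ∃ w ∈ V, z = p * w) ∧
      ∀ z : K, z ≠ 0 → ∃ n : ℤ, ∃ w : K, V.valuation w = 1 ∧ z = (p : K) ^ n * w := by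
  have hp0 : (p : K) ≠ 0 := by
    have := (Fact.out : p.Prime).ne_zero
    exact_mod_cast this
  obtain ⟨hp, S, hS, hSV, hc⟩ := hV
  obtain ⟨-, h2⟩ := chart_gen S (M.etale S hS) V hSV hp hc
  refine ⟨?_, h2⟩
  intro z hz
  by_cases hz0 : z = 0
  · exact ⟨0, zero_mem V, by rw [hz0, mul_zero]⟩
  obtain ⟨n, w, hw, rfl⟩ := h2 z hz0
  have hn := zpow_lt_one_pos hp0 hp hw hz
  obtain ⟨k, rfl⟩ : ∃ k : ℕ, n = (k : ℤ) + 1 := ⟨n.toNat - 1, by omega⟩
  refine ⟨(p : K) ^ k * w, mul_mem (pow_mem ?_ _) ?_, ?_⟩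
  · exact (V.valuation_le_one_iff _).mp hp.le
  · exact (V.valuation_le_one_iff _).mp hw.le
  · rw [zpow_add_one₀ hp0, zpow_natCast]
    ring

theorem gen_eq_of_le (M : SmoothModel p K) (V' D : ValuationSubring K) (hV' : M.Gen V')
    (hD : M.Gen D) (h : ∀ z ∈ V', z ∈ D) : V' = D := by
  have hp0 : (p : K) ≠ 0 := by
    have := (Fact.out : p.Prime).ne_zero
    exact_mod_cast this
  ext z
  refine ⟨h z, fun hz => ?_⟩
  by_cases hz0 : z = 0
  · rw [hz0]; exact zero_mem V'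
  obtain ⟨n, w, hw, rfl⟩ := (gen_unif M V' hV').2 z hz0
  have hw0 : w ≠ 0 := by
    rintro rfl
    simp at hw
  have hwV : w ∈ V' := (V'.valuation_le_one_iff _).mp hw.le
  have hwiV : w⁻¹ ∈ V' := by
    apply (V'.valuation_le_one_iff _).mp
    rw [map_inv₀, hw, inv_one]
  have h1 : (p : K) ^ n ∈ D := by
    have := mul_mem hz (h _ hwiV)
    rwa [mul_assoc, mul_inv_cancel₀ hw0, mul_one] at this
  have hn : 0 ≤ n := zpow_le_one_nonneg hp0 hD.1 ((D.valuation_le_one_iff _).mpr h1)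
  obtain ⟨k, rfl⟩ : ∃ k : ℕ, n = (k : ℤ) := ⟨n.toNat, by omega⟩
  rw [zpow_natCast]
  exact mul_mem (pow_mem ((V'.valuation_le_one_iff _).mp hV'.1.le) _) hwV

theorem dominate_not_gen (M : SmoothModel p K) (S : Subalgebra ℤ_[p] K) (hS : S ∈ M.charts)
    (V : ValuationSubring K) (hSV : Le S V) (hp : V.valuation (p : K) < 1) (hc : Closed V S)
    (D : ValuationSubring K) (hD : M.Gen D) (hOD : ∀ z ∈ loc V S, z ∈ D) :
    ∃ z ∈ loc V S, V.valuation z < 1 ∧ D.valuation z = 1 := by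
  by_contra hcon
  push Not at hcon
  have hSD : Le S D := fun z hz => hOD z (le_loc V S hz)
  apply (gen_iff M S hS D hSD hD.1).mp hD
  intro s hs
  obtain ⟨n, hn, hv⟩ := hc s hs
  refine ⟨n, hn, ?_⟩
  have h1 : s ^ p ^ n - s ∈ loc V S := le_loc V S (S.sub_mem (S.pow_mem hs _) hs)
  have h2 := hcon _ h1 hv
  have h3 := (D.valuation_le_one_iff _).mpr (hOD _ h1)
  exact lt_of_le_of_ne h3 h2

end DynBad
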