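import Pool.Agent.DynBad.PhiEv

/-!
# Module PhiZero: restriction to `U = 0`

`F_n = U * r_n` with `r_{n+1} = F_n r_n + X r_n + 1`, so modulo `U` we get `r_n = 1 + X + ... +
X^(n-1) = ∏_{d ∣ n, d > 1} cyclotomic d` (`Polynomial.prod_cyclotomic_eq_geom_sum`).  Since
`Φ_1 = U` and `∏_{d ∣ n} Φ_d = F_n`, cancelling `U` gives
`∏_{d ∣ n, d > 1} Φ_d(X, 0) = ∏_{d ∣ n, d > 1} cyclotomic d`; strong induction on `n` (cancel the
nonzero monic factors `d < n`) gives `Φ_n(X, 0) = cyclotomic n`.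
-/

namespace DynBad

open Polynomial Finset

namespace PhiZeroAux

theorem exists_R (n : ℕ) : ∃ R : ℤ[X][X], FP n = X * R ∧ R.eval 0 = ∑ i ∈ range n, X ^ i := by
  induction n with
  | zero => exact ⟨0, by rw [mul_zero]; rfl, by simp⟩
  | succ n ih =>
    obtain ⟨R, hR, hR0⟩ := ih
    have h1 : FP (n + 1) = FP n ^ 2 + C X * FP n + X := rfl
    refine ⟨FP n * R + C X * R + 1, ?_, ?_⟩
    · rw [h1, hR]
      ring
    · rw [eval_add, eval_add, eval_mul, eval_mul, eval_C, eval_one, hR0, hR, eval_mul, eval_X,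
        zero_mul, zero_mul, zero_add, Finset.sum_range_succ', pow_zero, Finset.mul_sum]
      congr 1
      refine Finset.sum_congr rfl fun i _ => ?_
      rw [pow_succ']

theorem prod_erase {n : ℕ} (hn : 1 ≤ n) :
    ∏ d ∈ n.divisors.erase 1, (Phi d).eval 0 = ∏ d ∈ n.divisors.erase 1, cyclotomic d ℤ := by
  obtain ⟨R, hR, hR0⟩ := exists_R n
  have h1 : (1 : ℕ) ∈ n.divisors := Nat.one_mem_divisors.mpr (by omega)
  have h2 := prod_Phi hn
  rw [hR, ← Finset.mul_prod_erase _ _ h1, Phi_one] at h2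
  have h3 : ∏ d ∈ n.divisors.erase 1, Phi d = R := mul_left_cancel₀ X_ne_zero h2
  rw [prod_cyclotomic_eq_geom_sum (by omega), ← hR0, ← h3, eval_prod]

theorem ev_zero {E : Type*} [CommRing E] (x : E) (P : ℤ[X][X]) :
    ev x 0 P = aeval x (P.eval 0) := by
  have h1 : ev x 0 P = eval₂ (eval₂RingHom (algebraMap ℤ E) x) 0 P := rfl
  rw [h1, eval₂_at_zero, coeff_zero_eq_eval_zero]
  rfl

theorem dX_eval_zero (P : ℤ[X][X]) : (dX P).eval 0 = derivative (P.eval 0) := by
  induction P using Polynomial.induction_on' with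
  | add P Q hP hQ => rw [dX_add, eval_add, eval_add, derivative_add, hP, hQ]
  | monomial n a =>
    rcases n with _ | n
    · rw [monomial_zero_left, dX_C, eval_C, eval_C]
    · rw [← monomial_mul_X, dX_mul, dX_X]
      simp

end PhiZeroAux

open PhiZeroAux

theorem Phi_eval_zero {n : ℕ} (hn : 2 ≤ n) : (Phi n).eval 0 = cyclotomic n ℤ := by
  induction n using Nat.strong_induction_on with
  | _ n ih =>
  have h1 := prod_erase (n := n) (by omega)
  have h2 : n ∈ n.divisors.erase 1 := by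
    rw [Finset.mem_erase]
    exact ⟨by omega, Nat.mem_divisors_self n (by omega)⟩
  rw [← Finset.mul_prod_erase _ _ h2, ← Finset.mul_prod_erase _ _ h2] at h1
  have h3 : ∏ d ∈ (n.divisors.erase 1).erase n, (Phi d).eval 0 =
      ∏ d ∈ (n.divisors.erase 1).erase n, cyclotomic d ℤ := by
    refine Finset.prod_congr rfl fun d hd => ?_
    rw [Finset.mem_erase, Finset.mem_erase, Nat.mem_divisors] at hd
    have hd0 : 0 < d := Nat.pos_of_dvd_of_pos hd.2.2.1 (by omega)
    have hdn : d ≤ n := Nat.le_of_dvd (by omega) hd.2.2.1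
    exact ih d (by omega) (by omega)
  rw [h3] at h1
  refine mul_right_cancel₀ ?_ h1
  rw [Finset.prod_ne_zero_iff]
  intro d _
  exact cyclotomic_ne_zero d ℤ

variable {E : Type*} [CommRing E] (x : E)

/-- `ev x 0 P = aeval x (P.eval 0)` -/
theorem ev_zero_Phi {n : ℕ} (hn : 2 ≤ n) : ev x 0 (Phi n) = aeval x (cyclotomic n ℤ) := by
  rw [ev_zero, Phi_eval_zero hn]

/-- `(dX P).eval 0 = derivative (P.eval 0)` -/
theorem ev_zero_dX_Phi {n : ℕ} (hn : 2 ≤ n) :
    ev x 0 (dX (Phi n)) = aeval x (derivative (cyclotomic n ℤ)) := by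
  rw [ev_zero, dX_eval_zero, Phi_eval_zero hn]

end DynBad
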