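import Pool.Agent.DynBad.TwoCentre
import Pool.Agent.DynBad.EtaMem
import Pool.Agent.DynBad.GaussW
import Pool.Agent.DynBad.GenBasic
import Pool.Agent.DynBad.PhiZero

/-!
# Module CentreD0: in the unramified case `η` is regular along `D₀`, and `D₀` is Gauss

(1) `η ∈ Λ(D₀)`.  If `x ∉ D₀`: `eta_mem_of_cusp`.  If `x ∈ D₀`, `A ≤ D₀` (`mem_of_x`).  If `A` is
not closed at `D₀`, `D₀` is Gauss, `PU` is a unit (`gauss_units`), `eta_mem_of_smooth`.
If `A` is closed at `D₀`: the residue classes of `x`, `u` are algebraic over `𝔽_p`, hence in `𝔽_p`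
(`hfp`): `x ≡ a`, `u ≡ b` mod `𝔪` with `a, b ∈ ℕ` (the roots of `T^p - T` in a field of char `p`).
`σ(𝔪) = 𝔪` (`hσ`), so `σ x ≡ a ≡ x`, i.e. `2 b ≡ 0`, and `σ u ≡ u`: `b^2 + a b ≡ b`.
 Case `p ≠ 2`: `p ∤ N`, `b ≡ 0`; `0 ≡ Φ_N(a, 0) = cyclotomic N (a)` mod `p`, and since `p ∤ N`
 `cyclotomic N` is separable mod `p`, so `PX ≡ (cyclotomic N)'(a) ≢ 0` (`ev_zero_dX_Phi`); `PX` is
 a unit: `eta_mem_of_smooth`.
 Case `p = 2`: `4 ∤ N`; `(a,b)` mod 2 is `(0,0)`, `(1,0)` or `(0,1)` and `Φ_N(a,b) ≡ 0`,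
 contradicting `two_centre`.
(2) Every Gauss `W` equals `D₀`: otherwise `W` is not Gen (`huniq`), it has uniformizer `p`
(`gauss_gen`), and `contraction` with `k = 0` gives `η ∈ p Λ(W) = pW` (`gauss_lam`), contradiction
to `gauss_eta`.  With `exists_gauss`, `D₀` is Gauss.
-/

namespace DynBad

open Polynomial

variable {p : ℕ} [Fact p.Prime]

private lemma exists_of_pow_eq {κ : Type*} [Field κ] [CharP κ p] (ξ : κ) (h : ξ ^ p = ξ) :
    ∃ a : ZMod p, ZMod.castHom (dvd_refl p) κ a = ξ := by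
  classical
  have hpp : p.Prime := Fact.out
  let ι := ZMod.castHom (dvd_refl p) κ
  have hP0 : (X ^ p - X : κ[X]) ≠ 0 := FiniteField.X_pow_card_sub_X_ne_zero κ hpp.one_lt
  have hdeg : (X ^ p - X : κ[X]).natDegree = p :=
    FiniteField.X_pow_card_sub_X_natDegree_eq κ hpp.one_lt
  have hroot : ∀ y : κ, y ∈ (X ^ p - X : κ[X]).roots.toFinset ↔ y ^ p = y := by
    intro y
    rw [Multiset.mem_toFinset, mem_roots hP0, IsRoot.def, eval_sub, eval_pow, eval_X, sub_eq_zero]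
  have hcard : (X ^ p - X : κ[X]).roots.toFinset.card ≤ p := by
    refine (Multiset.toFinset_card_le _).trans ?_
    have := card_roots' (X ^ p - X : κ[X])
    omega
  have himg : (Finset.univ.image ι) ⊆ (X ^ p - X : κ[X]).roots.toFinset := by
    intro y hy
    rw [Finset.mem_image] at hy
    obtain ⟨a, -, rfl⟩ := hy
    rw [hroot, ← map_pow, ZMod.pow_card]
  have hc2 : (Finset.univ.image ι).card = p := by
    rw [Finset.card_image_of_injective _ ι.injective, Finset.card_univ, ZMod.card]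
  have heq := Finset.eq_of_subset_of_card_le himg (by rw [hc2]; exact hcard)
  have : ξ ∈ Finset.univ.image ι := by rw [heq, hroot]; exact h
  rw [Finset.mem_image] at this
  obtain ⟨a, -, ha⟩ := this
  exact ⟨a, ha⟩

private lemma zmod_two_aux : ∀ a b : ZMod 2, b ^ 2 + a * b = b →
    (a = 0 ∧ b = 0) ∨ (a = 1 ∧ b = 0) ∨ (a = 0 ∧ b = 1) := by
  decide

private lemma ev_lift' {E E' : Type*} [CommRing E] [CommRing E'] (φ : E →+* E') (x' u' : E)
    {x u : E'} (hx : φ x' = x) (hu : φ u' = u) (P : ℤ[X][X]) :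
    φ (ev x' u' P) = ev x u P := by
  rw [ev_comp_int, hx, hu]

variable {K : Type*} [Field K] [CharZero K] [Algebra ℤ_[p] K] {N : ℕ}

theorem eta_mem_D0 (D : DynField p N K) (hN : 4 ≤ N)
    (hram : ¬ ((p ≠ 2 ∧ p ∣ N) ∨ (p = 2 ∧ 4 ∣ N))) (D₀ : ValuationSubring K) (hov : Over p D₀)
    (hp : D₀.valuation (p : K) < 1)
    (hfp : ∀ z ∈ D₀, ResAlg p D₀ z → D₀.valuation (z ^ p - z) < 1)
    (δ : Derivation ℤ_[p] K K) (hδ : δ D.x = 1) (σ : K ≃ₐ[ℤ_[p]] K)
    (hx : σ D.x = D.x + 2 * D.u) (hu : σ D.u = D.u ^ 2 + D.x * D.u)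
    (hσ : D₀.comap (σ : K →+* K) = D₀) : D.eta ∈ Lam δ D₀.toSubring := by
  have hpp : p.Prime := Fact.out
  have hN1 : 1 ≤ N := by omega
  have hN2 : 2 ≤ N := by omega
  by_cases hxD : D.x ∈ D₀
  swap
  · exact D.eta_mem_of_cusp hN δ hδ D₀ hxD
  have hA : Le D.A D₀ := D.mem_of_x hN1 D₀ hov hxD
  by_cases hc : Closed D₀ D.A
  swap
  · exact D.eta_mem_of_smooth hN1 δ hδ D₀ hA (Or.inl (D.gauss_units hN1 D₀ ⟨hA, hp, hc⟩).2.1)
  have huD : D.u ∈ D₀ := hA _ D.u_mem
  -- residue field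
  let κ := IsLocalRing.ResidueField D₀
  let ρ : D₀ →+* κ := IsLocalRing.residue D₀
  have hρ : ∀ z : D₀, ρ z = 0 ↔ D₀.valuation (z : K) < 1 := fun z => by
    rw [← ValuationSubring.valuation_lt_one_iff]
    exact IsLocalRing.residue_eq_zero_iff z
  have hpκ : ((p : ℕ) : κ) = 0 := by
    have h1 : ρ (p : D₀) = 0 := by
      rw [hρ]
      have : ((p : D₀) : K) = (p : K) := by simp
      rw [this]; exact hp
    rwa [map_natCast] at h1
  have : CharP κ p := by
    refine (CharP.charP_iff_prime_eq_zero hpp).mpr hpκ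
  let ι : ZMod p →+* κ := ZMod.castHom (dvd_refl p) κ
  have hx1 : ρ ⟨D.x, hxD⟩ ^ p = ρ ⟨D.x, hxD⟩ := by
    have h1 := hfp _ hxD (hc _ D.x_mem)
    have h2 := (hρ (⟨D.x, hxD⟩ ^ p - ⟨D.x, hxD⟩)).mpr (by simpa using h1)
    rw [map_sub, map_pow, sub_eq_zero] at h2
    exact h2
  have hu1 : ρ ⟨D.u, huD⟩ ^ p = ρ ⟨D.u, huD⟩ := by
    have h1 := hfp _ huD (hc _ D.u_mem)
    have h2 := (hρ (⟨D.u, huD⟩ ^ p - ⟨D.u, huD⟩)).mpr (by simpa using h1)
    rw [map_sub, map_pow, sub_eq_zero] at h2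
    exact h2
  obtain ⟨a, ha⟩ := exists_of_pow_eq _ hx1
  obtain ⟨b, hb⟩ := exists_of_pow_eq _ hu1
  -- invariance of the centre
  have hmem : ∀ z, z ∈ D₀ ↔ σ z ∈ D₀ := by
    intro z
    conv_lhs => rw [← hσ]
    rfl
  have hfix : ∀ (z : K) (hz : z ∈ D₀) (c : ZMod p), ι c = ρ ⟨z, hz⟩ →
      ρ ⟨σ z, (hmem z).mp hz⟩ = ρ ⟨z, hz⟩ := by
    intro z hz c hcz
    obtain ⟨n, rfl⟩ := ZMod.natCast_zmod_surjective c
    rw [← hcz, map_natCast, ← sub_eq_zero, ← map_natCast ρ, ← map_sub, hρ]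
    have h1 : D₀.valuation (z - n) < 1 := by
      have : ρ (⟨z, hz⟩ - (n : D₀)) = 0 := by
        rw [map_sub, map_natCast, ← hcz, map_natCast, sub_self]
      rw [hρ] at this
      simpa using this
    have h2 : D₀.valuation (σ (z - n)) < 1 := by
      by_contra h3
      have h3' : D₀.valuation (σ (z - n)) = 1 := by
        refine le_antisymm ?_ (not_lt.mp h3)
        rw [D₀.valuation_le_one_iff, ← hmem]
        exact (D₀.valuation_le_one_iff _).mp h1.le
      have h4 : (σ (z - n))⁻¹ ∈ D₀ := by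
        rw [← D₀.valuation_le_one_iff, map_inv₀, h3', inv_one]
      rw [← map_inv₀, ← hmem, ← D₀.valuation_le_one_iff, map_inv₀] at h4
      have h5 : z - n ≠ 0 := by
        rintro h0
        rw [h0] at h3'
        simp at h3'
      have h6 : 0 < D₀.valuation (z - n) := zero_lt_iff.mpr ((Valuation.ne_zero_iff _).mpr h5)
      exact absurd h4 (not_le.mpr ((one_lt_inv₀ h6).mpr h1))
    rw [map_sub, map_natCast] at h2
    simpa using h2
  have h2b : (2 : ZMod p) * b = 0 := by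
    have h1 := hfix D.x hxD a ha
    have h2 : (⟨σ D.x, (hmem D.x).mp hxD⟩ : D₀) = ⟨D.x, hxD⟩ + 2 * ⟨D.u, huD⟩ := by
      ext; push_cast; exact hx
    rw [h2, map_add, map_mul, map_ofNat, add_eq_left, ← hb] at h1
    apply ι.injective
    rw [map_mul, map_ofNat, map_zero]
    exact h1
  have hbb : b ^ 2 + a * b = b := by
    have h1 := hfix D.u huD b hb
    have h2 : (⟨σ D.u, (hmem D.u).mp huD⟩ : D₀) =
        ⟨D.u, huD⟩ ^ 2 + ⟨D.x, hxD⟩ * ⟨D.u, huD⟩ := by
      ext; push_cast; exact hu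
    rw [h2, map_add, map_mul, map_pow, ← hb, ← ha] at h1
    apply ι.injective
    rw [map_add, map_mul, map_pow]
    exact h1
  -- evaluation on residues
  let x' : D.A := ⟨D.x, D.x_mem⟩
  let u' : D.A := ⟨D.u, D.u_mem⟩
  let ρA : D.A →+* κ := ρ.comp (Subring.inclusion (S := D.A.toSubring) (T := D₀.toSubring) hA)
  have hρA : ∀ P : ℤ[X][X], ρA (ev x' u' P) = ι (ev a b P) := by
    intro P
    rw [ev_comp_int ι, ev_comp_int ρA, ha, hb]
    rfl
  have hcoe : ∀ P : ℤ[X][X], ((ev x' u' P : D.A) : K) = ev D.x D.u P := fun P =>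
    ev_comp_int (D.A.val : D.A →+* K) x' u' P
  have hval : ∀ P : ℤ[X][X], ev a b P ≠ 0 → D₀.valuation (ev D.x D.u P) = 1 := by
    intro P hP
    refine le_antisymm ((D₀.valuation_le_one_iff _).mpr ?_) (not_lt.mp fun hlt => hP ?_)
    · rw [← hcoe]; exact hA _ (ev x' u' P).2
    · apply ι.injective
      rw [map_zero, ← hρA]
      change ρ _ = 0
      rw [hρ]
      change D₀.valuation ((ev x' u' P : D.A) : K) < 1
      rw [hcoe]
      exact hlt
  have hPhi : ev a b (Phi N) = 0 := by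
    by_contra h
    have := hval _ h
    rw [D.root] at this
    simp at this
  by_cases hp2 : p = 2
  · subst hp2
    have h4 : ¬ 4 ∣ N := fun h => hram (Or.inr ⟨rfl, h⟩)
    obtain ⟨h00, h10, h01⟩ := two_centre hN h4
    exfalso
    rcases zmod_two_aux a b hbb with ⟨ha', hb'⟩ | ⟨ha', hb'⟩ | ⟨ha', hb'⟩ <;> subst ha' <;> subst hb'
    · exact h00 hPhi
    · exact h10 hPhi
    · exact h01 hPhi
  · have h20 : (2 : ZMod p) ≠ 0 := by
      intro h
      have h1 : ((2 : ℕ) : ZMod p) = 0 := by exact_mod_cast h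
      rw [ZMod.natCast_eq_zero_iff] at h1
      exact hp2 ((Nat.prime_dvd_prime_iff_eq hpp Nat.prime_two).mp h1)
    have hb0 : b = 0 := by
      rcases mul_eq_zero.mp h2b with h | h
      · exact absurd h h20
      · exact h
    subst hb0
    have hpN : ¬ p ∣ N := fun h => hram (Or.inl ⟨hp2, h⟩)
    have hN0 : NeZero ((N : ℕ) : ZMod p) := ⟨by rwa [Ne, ZMod.natCast_eq_zero_iff]⟩
    refine D.eta_mem_of_smooth hN1 δ hδ D₀ hA (Or.inr (hval _ ?_))
    rw [ev_zero_Phi a hN2] at hPhi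
    rw [ev_zero_dX_Phi a hN2]
    have hsep := Polynomial.separable_cyclotomic N (ZMod p)
    intro hd
    have h1 : (cyclotomic N (ZMod p)).eval a = 0 := by
      rw [← map_cyclotomic_int, eval_map]
      simpa [aeval_def] using hPhi
    have h2 : (derivative (cyclotomic N (ZMod p))).eval a = 0 := by
      rw [← map_cyclotomic_int, derivative_map, eval_map]
      simpa [aeval_def] using hd
    have h3 := hsep.aeval_derivative_ne_zero (x := a) (by simpa [aeval_def] using h1)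
    apply h3
    simpa [aeval_def] using h2

end DynBad
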