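import Pool.Agent.DynBad.Val

/-!
# Module LamChart: differentials of an étale chart are generated by one `δ T`

`S` étale over `ℤ_p[T]` (via `T ↦ t`): `Ω_{S/ℤ_p[T]} = 0`.  The derivation `S → K / S δt` induced
by `δ` vanishes on `t`, so it is `ℤ_p[T]`-linear, hence zero.  So `δ s ∈ S δ t` for all `s ∈ S`.
For the local ring use `δ(a/b) = (b δa - a δb)/b^2`.
-/

namespace DynBad

open Polynomial

variable {p : ℕ} [Fact p.Prime] {K : Type*} [Field K] [Algebra ℤ_[p] K]

/-- derivations of an unramified algebra over `R'` into an `S`-module vanish if they vanish on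
the image of `R'` -/
private lemma der_zero_of_unramified {R S M : Type*} [CommRing R] [CommRing S] [Algebra R S]
    [AddCommGroup M] [Module R M] [Module S M] [IsScalarTower R S M]
    [Algebra.FormallyUnramified R S] (D : Derivation R S M) (s : S) : D s = 0 := by
  have h := D.liftKaehlerDifferential_comp_D s
  rw [← h]
  have h2 : KaehlerDifferential.D R S s = 0 := Subsingleton.elim _ _
  rw [h2, map_zero]

private lemma chart_gen_der (δ : Derivation ℤ_[p] K K) (S : Subalgebra ℤ_[p] K) (t : S)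
    (ht : ((Polynomial.aeval t : ℤ_[p][X] →ₐ[ℤ_[p]] S) : ℤ_[p][X] →+* S).Etale) :
    ∀ s ∈ S, ∃ a ∈ S, δ s = a * δ t := by
  set N : Submodule S K := Submodule.span S {δ (t : K)} with hN
  let φ : ℤ_[p][X] →+* S := (Polynomial.aeval t : ℤ_[p][X] →ₐ[ℤ_[p]] S)
  letI : Algebra ℤ_[p][X] S := φ.toAlgebra
  haveI : Algebra.Etale ℤ_[p][X] S := ht
  letI : Module ℤ_[p][X] (K ⧸ N) := Module.compHom _ φ
  haveI : IsScalarTower ℤ_[p][X] S (K ⧸ N) := ⟨by
    intro f s m
    rw [Algebra.smul_def, mul_smul]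
    rfl⟩
  -- the derivation into the quotient
  let g : S → K ⧸ N := fun s => N.mkQ (δ (s : K))
  have hg_add : ∀ a b, g (a + b) = g a + g b := by
    intro a b
    simp only [g]
    rw [← map_add]
    congr 1
    simp
  have hg_mul : ∀ a b : S, g (a * b) = a • g b + b • g a := by
    intro a b
    have e : δ ((a * b : S) : K) = a • (δ (b : K)) + b • (δ (a : K)) := by
      have : ((a * b : S) : K) = (a : K) * b := rfl
      rw [this, δ.leibniz]
      rfl
    change N.mkQ (δ ((a * b : S) : K)) = a • N.mkQ (δ (b : K)) + b • N.mkQ (δ (a : K))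
    rw [e, map_add, N.mkQ.map_smul, N.mkQ.map_smul]
  have hg_t : g t = 0 := by
    simp only [g]
    rw [Submodule.mkQ_apply, Submodule.Quotient.mk_eq_zero]
    exact Submodule.subset_span rfl
  have hg_alg : ∀ a : ℤ_[p], g (algebraMap ℤ_[p] S a) = 0 := by
    intro a
    simp only [g]
    have : ((algebraMap ℤ_[p] S a : S) : K) = algebraMap ℤ_[p] K a := rfl
    rw [this, δ.map_algebraMap, map_zero]
  have hg_one : g 1 = 0 := by
    have := hg_alg 1
    rwa [map_one] at this
  have hg_pow : ∀ n : ℕ, g (t ^ n) = 0 := by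
    intro n
    induction n with
    | zero => rw [pow_zero]; exact hg_one
    | succ n ih => rw [pow_succ, hg_mul, hg_t, ih, smul_zero, smul_zero, add_zero]
  have hg_poly : ∀ f : ℤ_[p][X], g (φ f) = 0 := by
    intro f
    induction f using Polynomial.induction_on' with
    | add f h hf hh => rw [map_add, hg_add, hf, hh, add_zero]
    | monomial n a =>
      have : φ (Polynomial.monomial n a) = algebraMap ℤ_[p] S a * t ^ n := by
        simp [φ, Polynomial.aeval_monomial]
      rw [this, hg_mul, hg_alg, hg_pow, smul_zero, smul_zero, add_zero]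
  let D : Derivation ℤ_[p][X] S (K ⧸ N) := Derivation.mk'
    { toFun := g
      map_add' := hg_add
      map_smul' := by
        intro f s
        have h1 : f • s = φ f * s := rfl
        rw [h1, hg_mul, hg_poly, smul_zero, add_zero]
        rfl }
    (by
      intro a b
      exact hg_mul a b)
  intro s hs
  have h1 := der_zero_of_unramified D ⟨s, hs⟩
  have h2 : N.mkQ (δ s) = 0 := h1
  rw [Submodule.mkQ_apply, Submodule.Quotient.mk_eq_zero, Submodule.mem_span_singleton] at h2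
  obtain ⟨a, ha⟩ := h2
  exact ⟨a, a.2, ha.symm⟩

theorem lam_chart (δ : Derivation ℤ_[p] K K) (S : Subalgebra ℤ_[p] K) (hS : EtaleChart S) :
    ∃ T ∈ S, (∀ s ∈ S, ∃ a ∈ S, δ s = a * δ T) ∧
      ∀ V : ValuationSubring K, Le S V → ∀ z ∈ loc V S, ∃ a ∈ loc V S, δ z = a * δ T := by
  obtain ⟨t, ht⟩ := hS.etale
  have h := chart_gen_der δ S t ht
  refine ⟨t, t.2, h, ?_⟩
  intro V hSV z hz
  obtain ⟨a, ha, b, hb, hb1, hab⟩ := hz
  have hb0 : b ≠ 0 := by
    rintro rfl
    simp at hb1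
  have hzl : z ∈ loc V S := ⟨a, ha, b, hb, hb1, hab⟩
  obtain ⟨a', ha', hda⟩ := h a ha
  obtain ⟨b', hb', hdb⟩ := h b hb
  have hinv : b⁻¹ ∈ loc V S := loc_inv (le_loc V S hb) hb1
  refine ⟨(a' - z * b') * b⁻¹, mul_mem (sub_mem (le_loc V S ha')
    (mul_mem hzl (le_loc V S hb'))) hinv, ?_⟩
  have h1 : δ (z * b) = δ a := by rw [hab]
  rw [δ.leibniz, smul_eq_mul, smul_eq_mul, hda, hdb] at h1
  field_simp
  linear_combination h1

/-- if `δ ≠ 0` then `δ T ≠ 0` for such a `T` (as `K = Frac S`) -/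
theorem lam_chart_ne_zero (δ : Derivation ℤ_[p] K K) (hδ : δ ≠ 0) (S : Subalgebra ℤ_[p] K)
    (hfr : Frac S) (T : K) (h : ∀ s ∈ S, ∃ a ∈ S, δ s = a * δ T) : δ T ≠ 0 := by
  intro hT
  apply hδ
  have h0 : ∀ s ∈ S, δ s = 0 := by
    intro s hs
    obtain ⟨a, _, ha⟩ := h s hs
    rw [ha, hT, mul_zero]
  ext z
  obtain ⟨a, ha, b, hb, hb0, hab⟩ := hfr z
  have h1 : δ (z * b) = δ a := by rw [hab]
  rw [δ.leibniz, smul_eq_mul, smul_eq_mul, h0 a ha, h0 b hb, mul_zero, zero_add] at h1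
  rcases mul_eq_zero.mp h1 with h2 | h2
  · exact absurd h2 hb0
  · exact h2

/-- if `V ≤ loc V S`, i.e. `V = loc V S`, then `Λ(V) = V δT` -/
theorem mem_Lam_of_chart (δ : Derivation ℤ_[p] K K) (S : Subalgebra ℤ_[p] K)
    (V : ValuationSubring K) (hSV : Le S V) (hV : ∀ z ∈ V, z ∈ loc V S) (T : K) (hT : T ∈ S)
    (h : ∀ z ∈ loc V S, ∃ a ∈ loc V S, δ z = a * δ T) (η : K) :
    η ∈ Lam δ V.toSubring ↔ ∃ a ∈ V, η = a * δ T := by
  constructor
  · intro hη
    unfold Lam at hη
    induction hη using Submodule.span_induction with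
    | mem x hx =>
      obtain ⟨z, hz, rfl⟩ := hx
      obtain ⟨a, ha, hda⟩ := h z (hV z hz)
      exact ⟨a, loc_le hSV ha, hda⟩
    | zero => exact ⟨0, zero_mem V, by rw [zero_mul]⟩
    | add x y _ _ hx hy =>
      obtain ⟨a, ha, rfl⟩ := hx
      obtain ⟨b, hb, rfl⟩ := hy
      exact ⟨a + b, add_mem ha hb, by ring⟩
    | smul r x _ hx =>
      obtain ⟨a, ha, rfl⟩ := hx
      refine ⟨r * a, mul_mem r.2 ha, ?_⟩
      rw [mul_assoc]
      rfl
  · rintro ⟨a, ha, rfl⟩
    have h1 : δ T ∈ Lam δ V.toSubring := Submodule.subset_span ⟨T, hSV T hT, rfl⟩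
    exact (Lam δ V.toSubring).smul_mem ⟨a, ha⟩ h1

end DynBad
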