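import Pool.Agent.DynBad.ValExist

/-!
# Module M0: a form of Zariski's main theorem

`O` is an integrally closed local ring with fraction field `K`, dominated by `V`, `p ∈ 𝔪_O`,
residue field algebraic over `𝔽_p`; `S ⊆ V` a finitely generated `ℤ_p`-algebra.  Suppose no
valuation ring `W ⊇ S` with `w(p) < 1`, not closed on `S`, dominates `O`.  Then `S ⊆ O`.

Proof.  `B = O[S] ⊆ V`, a finitely generated `O`-algebra; `𝔫 = 𝔪_V ∩ B`, a prime over `𝔪_O`
(`𝔪_O = {z ∈ O : v(z) < 1}` is the set of nonunits of `O`).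
(1) Every prime `𝔫' ⊆ 𝔫` of `B` with `𝔫' ⊇ 𝔪_O` equals `𝔫`, and `𝔫` is maximal.  Let `W` be a
valuation ring of `K` dominating `B_𝔫'` (exists, Mathlib `LocalSubring.exists_le_valuationSubring`
/ `exists_factor_valuationRing`).  `W ⊇ S, O` and `W` dominates `O`, `w(p) < 1`.  By the hypothesis
(contrapositive) `W` is closed on `S`: all residue classes of elements of `S` in `W` are algebraic
over `𝔽_p`, as are those of elements of `O` (`z^(p^n) - z ∈ 𝔪_O ⊆ 𝔪_W`).  So `B/𝔫'` is a domain
generated by elements algebraic over `𝔽_p`, hence a field and `𝔫'` is maximal, `𝔫' = 𝔫`.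
(2) So `𝔫` is an isolated point of its fibre over `𝔪_O` (the fibre `B/𝔪_O B` is a Noetherian ring,
`𝔫` is both a minimal and a maximal prime of it, so `{𝔫}` is open in its spectrum): `B` is
quasi-finite over `O` at `𝔫` (`Algebra.QuasiFiniteAt`, `quasiFiniteAt_iff_isOpen_singleton_fiber`
/ `QuasiFiniteAt.of_isOpen_singleton_fiber` in `Mathlib/RingTheory/ZariskisMainTheorem.lean`).
(3) Zariski's main theorem (`Algebra.ZariskisMainProperty`, `ZariskisMainProperty.of_finiteType`):
there is `r` integral over `O` in `B`, `r ∉ 𝔫`, with every element of `B` of the form `a / r^n`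
with `a ∈ B` integral over `O`.  `B ⊆ K` and `O` is integrally closed in `K`, so `r ∈ O`,
`v(r) = 1`, `r` is a unit of `O`, and `B ⊆ O`.
-/

namespace DynBad

variable {p : ℕ} [Fact p.Prime] {K : Type*} [Field K] [CharZero K] [Algebra ℤ_[p] K]

/-- a prime of a finite type algebra that is maximal and minimal in its fibre is quasi-finite -/
private lemma M0_quasiFinite {R S : Type*} [CommRing R] [CommRing S] [Algebra R S]
    [Algebra.FiniteType R S] (q : Ideal S) [hq : q.IsPrime] (hmax : q.IsMaximal)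
    (hmin : ∀ Q : Ideal S, Q.IsPrime → Q.comap (algebraMap R S) = q.comap (algebraMap R S) →
      Q ≤ q → Q = q) : Algebra.QuasiFiniteAt R q := by
  let q' : PrimeSpectrum S := ⟨q, hq⟩
  change Algebra.QuasiFiniteAt R q'.asIdeal
  apply Algebra.QuasiFiniteAt.of_isOpen_singleton_fiber q'
  let P := q'.comap (algebraMap R S)
  let e := PrimeSpectrum.preimageHomeomorphFiber R S P
  let e' := PrimeSpectrum.preimageOrderIsoFiber R S P
  have hN : IsNoetherianRing (P.asIdeal.Fiber S) :=
    Algebra.FiniteType.isNoetherianRing P.asIdeal.ResidueField _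
  have hJ : IsJacobsonRing (P.asIdeal.Fiber S) :=
    isJacobsonRing_of_finiteType (A := P.asIdeal.ResidueField)
  rw [← e.isOpen_image, Set.image_singleton]
  apply ((PrimeSpectrum.isOpen_singleton_tfae_of_isNoetherian_of_isJacobsonRing
    (e ⟨q', rfl⟩)).out 0 2).2
  rw [PrimeSpectrum.isClosed_singleton_iff_isMaximal, ← PrimeSpectrum.isMax_iff,
    PrimeSpectrum.stableUnderGeneralization_singleton, ← PrimeSpectrum.isMin_iff]
  have hee : e ⟨q', rfl⟩ = e' ⟨q', rfl⟩ := rfl
  rw [hee]
  constructor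
  · rw [e'.isMax_apply]
    rintro ⟨x, hx⟩ hle
    have h1 : q ≤ x.asIdeal := hle
    have h2 : q = x.asIdeal := hmax.eq_of_le x.2.ne_top h1
    change x.asIdeal ≤ q
    exact h2.ge
  · rw [e'.isMin_apply]
    rintro ⟨x, hx⟩ hle
    have h1 : x.asIdeal ≤ q := hle
    have h3 : x.asIdeal.comap (algebraMap R S) = q.comap (algebraMap R S) :=
      congrArg PrimeSpectrum.asIdeal hx
    have h2 : x.asIdeal = q := hmin x.asIdeal x.2 h3 h1
    change q ≤ x.asIdeal
    exact h2.ge

private lemma M0_maximal {R S : Type*} [CommRing R] [CommRing S] [Algebra R S] (Q : Ideal S)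
    (hQ : Q.IsPrime) (T : Set S) (hT : Algebra.adjoin R T = ⊤)
    (hT2 : ∀ x ∈ T, ∃ k, 1 < k ∧ x ^ k - x ∈ Q) (hm : (Q.comap (algebraMap R S)).IsMaximal) :
    Q.IsMaximal := by
  have h1 : ∀ b : S, b ∈ Algebra.adjoin R T → IsIntegral R (Ideal.Quotient.mk Q b) := by
    intro b hb
    induction hb using Algebra.adjoin_induction with
    | mem x hx =>
      obtain ⟨k, hk, hx1⟩ := hT2 x hx
      refine ⟨Polynomial.X ^ k - Polynomial.X, ?_, ?_⟩
      · apply Polynomial.monic_X_pow_sub
        exact Polynomial.degree_X_le.trans_lt (by exact_mod_cast hk)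
      · rw [Polynomial.eval₂_sub, Polynomial.eval₂_X_pow, Polynomial.eval₂_X, ← map_pow, ← map_sub,
          Ideal.Quotient.eq_zero_iff_mem]
        exact hx1
    | algebraMap r => exact isIntegral_algebraMap (A := S ⧸ Q) (x := r)
    | add x y _ _ hx hy =>
      rw [map_add]
      exact hx.add hy
    | mul x y _ _ hx hy =>
      rw [map_mul]
      exact hx.mul hy
  have hintQ : Algebra.IsIntegral R (S ⧸ Q) := by
    constructor
    intro y
    obtain ⟨b, rfl⟩ := Ideal.Quotient.mk_surjective y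
    exact h1 b (by rw [hT]; trivial)
  have hbot : ((⊥ : Ideal (S ⧸ Q)).comap (algebraMap R (S ⧸ Q))) = Q.comap (algebraMap R S) := by
    ext z
    rw [Ideal.mem_comap, Ideal.mem_bot]
    change Ideal.Quotient.mk Q (algebraMap R S z) = 0 ↔ _
    rw [Ideal.Quotient.eq_zero_iff_mem]
    rfl
  have h2 : (⊥ : Ideal (S ⧸ Q)).IsMaximal := by
    have : (⊥ : Ideal (S ⧸ Q)).IsPrime := Ideal.isPrime_bot
    apply Ideal.isMaximal_of_isIntegral_of_isMaximal_comap (R := R)
    rw [hbot]
    exact hm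
  exact (Ideal.bot_quotient_isMaximal_iff Q).1 h2

theorem M0 (O : Subring K) (V : ValuationSubring K) (S : Subalgebra ℤ_[p] K) (hfg : S.FG)
    (hSV : Le S V) (hOV : ∀ z ∈ O, z ∈ V) (hR : ∀ a : ℤ_[p], algebraMap ℤ_[p] K a ∈ O)
    (hinv : ∀ z ∈ O, V.valuation z = 1 → z⁻¹ ∈ O) (hp : V.valuation (p : K) < 1)
    (hres : ∀ z ∈ O, ResAlg p V z) (hint : ∀ z : K, IsIntegral O z → z ∈ O)
    (hgen : ∀ W : ValuationSubring K, Le S W → W.valuation (p : K) < 1 → ¬ Closed W S →
      (∀ z ∈ O, z ∈ W) → ∃ z ∈ O, V.valuation z < 1 ∧ W.valuation z = 1) :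
    ∀ z ∈ S, z ∈ O := by
  classical
  obtain ⟨B, hB⟩ : ∃ B : Subalgebra O K, B = Algebra.adjoin O (S : Set K) := ⟨_, rfl⟩
  have hSB : ∀ z ∈ S, z ∈ B := fun z hz => hB ▸ Algebra.subset_adjoin hz
  have hOB : ∀ z ∈ O, z ∈ B := fun z hz => B.algebraMap_mem ⟨z, hz⟩
  have hBV : ∀ z ∈ B, z ∈ V := by
    intro z hz
    rw [hB] at hz
    induction hz using Algebra.adjoin_induction with
    | mem x hx => exact hSV x hx
    | algebraMap r => exact hOV _ r.2
    | add x y _ _ hx hy => exact V.add_mem _ _ hx hy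
    | mul x y _ _ hx hy => exact V.mul_mem _ _ hx hy
  have hBfg : B.FG := by
    obtain ⟨t, ht⟩ := hfg
    rw [hB]
    refine ⟨t, le_antisymm ?_ ?_⟩
    · apply Algebra.adjoin_mono
      rw [← ht]
      exact Algebra.subset_adjoin
    · apply Algebra.adjoin_le
      intro z hz
      rw [SetLike.mem_coe, ← ht] at hz
      induction hz using Algebra.adjoin_induction with
      | mem x hx => exact Algebra.subset_adjoin hx
      | algebraMap r => exact Subalgebra.algebraMap_mem _ (⟨_, hR r⟩ : O)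
      | add x y _ _ hx hy => exact Subalgebra.add_mem _ hx hy
      | mul x y _ _ hx hy => exact Subalgebra.mul_mem _ hx hy
  have hft : Algebra.FiniteType O B := (Subalgebra.fg_iff_finiteType B).1 hBfg
  have hT : Algebra.adjoin O (((↑) : B → K) ⁻¹' (S : Set K)) = ⊤ := by
    subst hB
    exact Algebra.adjoin_adjoin_coe_preimage
  -- the prime `𝔫`
  obtain ⟨n, hnp, hn⟩ : ∃ n : Ideal B, n.IsPrime ∧ ∀ b : B, b ∈ n ↔ V.valuation (b : K) < 1 := by
    let i : B →+* V :=
      { toFun := fun b => ⟨b, hBV b b.2⟩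
        map_one' := rfl
        map_mul' := fun _ _ => rfl
        map_zero' := rfl
        map_add' := fun _ _ => rfl }
    exact ⟨(IsLocalRing.maximalIdeal V).comap i, Ideal.IsPrime.comap i,
      fun b => (V.valuation_lt_one_iff (i b)).symm.symm⟩
  obtain ⟨m, hmdef⟩ : ∃ m : Ideal O, m = n.comap (algebraMap O B) := ⟨_, rfl⟩
  have hm : ∀ z : O, z ∈ m ↔ V.valuation (z : K) < 1 := fun z => hmdef ▸ hn _
  have hmmax : m.IsMaximal := by
    rw [Ideal.isMaximal_iff]
    refine ⟨?_, ?_⟩
    · rw [hm]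
      simp
    · intro J x hmJ hx hxJ
      rw [hm] at hx
      have h1 : V.valuation (x : K) = 1 :=
        le_antisymm ((V.valuation_le_one_iff _).2 (hOV _ x.2)) (not_lt.1 hx)
      have h0 : (x : K) ≠ 0 := by
        intro h
        rw [h, map_zero] at h1
        exact zero_ne_one h1
      have h2 : (⟨(x : K)⁻¹, hinv _ x.2 h1⟩ : O) * x = 1 := by
        apply Subtype.ext
        exact inv_mul_cancel₀ h0
      rw [← h2]
      exact J.mul_mem_left _ hxJ
  have key : ∀ Q : Ideal B, Q.IsPrime → (∀ z : O, z ∈ m → algebraMap O B z ∈ Q) → Q ≤ n →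
      Q.IsMaximal := by
    intro Q hQ hmQ hQn
    obtain ⟨W, hBW, hWQ⟩ := exists_val_subalgebra B Q
    have hpO : (p : K) ∈ O := by
      have := hR (p : ℤ_[p])
      rwa [map_natCast] at this
    have hpm : W.valuation (p : K) < 1 := by
      have h1 : (⟨(p : K), hpO⟩ : O) ∈ m := (hm _).2 hp
      exact (hWQ _).2 (hmQ _ h1)
    have hcl : Closed W S := by
      by_contra hcn
      obtain ⟨z, hz, hz1, hz2⟩ := hgen W (fun z hz => hBW z (hSB z hz)) hpm hcn
        (fun z hz => hBW z (hOB z hz))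
      have h1 : (⟨z, hz⟩ : O) ∈ m := (hm _).2 hz1
      have h2 := (hWQ _).2 (hmQ _ h1)
      exact h2.ne hz2
    refine M0_maximal (R := O) Q hQ _ hT ?_ ?_
    · intro x hx
      obtain ⟨k, hk, hx1⟩ := hcl x hx
      have hpk : 1 < p ^ k := Nat.one_lt_pow (by omega) (Fact.out : p.Prime).one_lt
      exact ⟨p ^ k, hpk, (hWQ _).1 hx1⟩
    · have h1 : Q.comap (algebraMap O B) = m := by
        ext z
        rw [Ideal.mem_comap]
        constructor
        · intro h
          have h2 := hQn h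
          rw [hmdef, Ideal.mem_comap]
          exact h2
        · intro h
          exact hmQ z h
      rw [h1]
      exact hmmax
  have hmn : ∀ z : O, z ∈ m → algebraMap O B z ∈ n := by
    intro z hz
    rwa [hmdef, Ideal.mem_comap] at hz
  have hnmax : n.IsMaximal := key n hnp hmn le_rfl
  have hqf : Algebra.QuasiFiniteAt O n := by
    apply M0_quasiFinite n hnmax
    intro Q hQ hQc hQn
    have h1 : Q.IsMaximal := key Q hQ (fun z hz => by
      have h2 : z ∈ Q.comap (algebraMap O B) := by rw [hQc, ← hmdef]; exact hz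
      rwa [Ideal.mem_comap] at h2) hQn
    exact h1.eq_of_le hnp.ne_top hQn
  have hz := Algebra.ZariskisMainProperty.of_finiteType (R := O) n
  rw [Algebra.zariskisMainProperty_iff] at hz
  obtain ⟨r, hrn, hri, hr⟩ := hz
  have hmemO : ∀ b : B, IsIntegral O b → (b : K) ∈ O := by
    intro b hb
    apply hint
    exact hb.map B.val
  have hrO : (r : K) ∈ O := hmemO r hri
  have hr1 : V.valuation (r : K) = 1 := by
    rw [hn] at hrn
    exact le_antisymm ((V.valuation_le_one_iff _).2 (hBV _ r.2)) (not_lt.1 hrn)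
  have hr0 : (r : K) ≠ 0 := by
    intro h
    rw [h, map_zero] at hr1
    exact zero_ne_one hr1
  intro z hz
  obtain ⟨k, hk⟩ := hr ⟨z, hSB z hz⟩
  have h1 := hmemO _ hk
  have h2 : (r : K) ^ k * z ∈ O := h1
  have h3 : z = ((r : K)⁻¹) ^ k * ((r : K) ^ k * z) := by
    rw [← mul_assoc, ← mul_pow, inv_mul_cancel₀ hr0, one_pow, one_mul]
  rw [h3]
  exact O.mul_mem (O.pow_mem (hinv _ hrO hr1) k) h2

end DynBad
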