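import Pool.Agent.DynBad.GenBasic
import Pool.Agent.DynBad.LamChart
import Pool.Agent.DynBad.ANormal
import Pool.Agent.DynBad.M0

/-!
# Module EndGame: the plane model is smooth

`D₀` is Gen and Gauss, the only Gen and the only Gauss valuation.  Let `V ⊇ A`, `v(p) < 1`, `A`
closed at `V`.  Claim: `PU` or `PX` is a unit of `V`.

`V` is not Gen (`V = D₀` would be Gauss, but `A` is closed at `V`).  Let `S ≤ V` be a chart,
closed (`gen_iff`).  `O = loc V S`, `O' = loc V A`.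
(1) `S ⊆ O'`: `M0` with `O'` (`hint`: `A_normal`, `loc_normal`, `D.frac`; `hres`: `resAlg_loc`),
`V`, `S`.  `hgen`: `W ≥ S` not closed on `S` is Gen (`gen_iff`), `W = D₀`; if `O' ≤ D₀` and all
`z ∈ O'` with `v(z) < 1` had `D₀.valuation z < 1` then `A` would be closed at `D₀`
(`z^(p^n) - z ∈ 𝔪`), contradicting Gauss.
(2) `A ⊆ O`: `M0` with `O` (`chart_normal`, `loc_normal`), `V`, `A`.  `hgen`: `W ≥ A` not closed
on `A` is Gauss, so `W = D₀`; `dominate_not_gen`.
(3) `ClosedPt V S D t` (`closedPt_exists`), `D = D₀` (Gen by `gen_iff`).  `T ∈ S` from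
`lam_chart`, `δT ≠ 0` (`lam_chart_ne_zero`, `δ ≠ 0`).  `ω = 1/PU`; `h = ω/δT`.  Claim `h ∈ O` by
`hartogs`:
 * `h ∈ D₀`: `ω ∈ D₀` (`gauss_units`), `D₀ = Λ(D₀)` (`gauss_lam`) `= D₀ δT`
   (`mem_Lam_of_chart`, `chart_gen`), so `ω = a δT`.
 * `V' ⊇ O`, `v'(p) = 1`: `A ⊆ O ⊆ V'`; `M = α PX + β PU` (`exists_M_field`), so
   `M ω = - α δu + β δx ∈ Λ(V')` (`der_u`), and `M` is a unit of `V'`; `Λ(V') = V' δT`
   (`mem_Lam_of_chart`, `chart_zero`).
(4) So `ω = h δT` with `h ∈ O ⊆ O'` (`S ⊆ O'`, `loc_inv` for `O'`) and `T ∈ S ⊆ O'`,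
`T = a/b` with `a, b ∈ A`, `v(b) = 1`; `δT = (b δa - a δb)/b^2` and for `c ∈ A`,
`δc = c₁ + c₂ δu` (`der_mem`) `= (c₁ PU - c₂ PX) ω`.  So `ω = h (α' PU + β' PX) ω` with
`h, α', β' ∈ V`, i.e. `1 = h (α' PU + β' PX)`, so `PU`, `PX` are not both in `𝔪_V`
(both are in `A ≤ V`).
-/

namespace DynBad

variable {p : ℕ} [Fact p.Prime] {K : Type*} [Field K] [CharZero K] [Algebra ℤ_[p] K] {N : ℕ}

omit [CharZero K] in
private lemma fg_A (D : DynField p N K) : D.A.FG := by
  classical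
  exact ⟨{D.x, D.u}, by simp [DynField.A]⟩

omit [CharZero K] in
/-- nonzero integers are units in a valuation ring over `ℤ_p` with `v(p) = 1` -/
private lemma val_int (V : ValuationSubring K) (hV : Over p V) (hp : V.valuation (p : K) = 1)
    (M : ℤ) (hM : M ≠ 0) : V.valuation (M : K) = 1 := by
  have hM' : (M : ℤ_[p]) ≠ 0 := by exact_mod_cast hM
  have h1 := PadicInt.unitCoeff_spec hM'
  have h2 : (M : K) = algebraMap ℤ_[p] K (PadicInt.unitCoeff hM') *
      (p : K) ^ (M : ℤ_[p]).valuation := by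
    have := congrArg (algebraMap ℤ_[p] K) h1
    simpa using this
  have h3 : V.valuation (algebraMap ℤ_[p] K (PadicInt.unitCoeff hM')) = 1 := by
    have hu := (PadicInt.unitCoeff hM').isUnit
    obtain ⟨w, hw⟩ := hu.exists_left_inv
    have h4 : V.valuation (algebraMap ℤ_[p] K w) * V.valuation
        (algebraMap ℤ_[p] K (PadicInt.unitCoeff hM')) = 1 := by
      rw [← map_mul, ← map_mul, hw, map_one, map_one]
    have h5 := (V.valuation_le_one_iff _).mpr (hV w)
    have h6 := (V.valuation_le_one_iff _).mpr (hV (PadicInt.unitCoeff hM' : ℤ_[p]))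
    apply le_antisymm h6
    rw [← h4]
    exact mul_le_of_le_one_left' h5
  rw [h2, map_mul, map_pow, hp, h3, one_pow, one_mul]

theorem endGame (D : DynField p N K) (hN : 1 ≤ N) (M : SmoothModel p K)
    (D₀ : ValuationSubring K) (hD₀ : M.Gen D₀) (huniq : ∀ D', M.Gen D' → D' = D₀)
    (hG : D.Gauss D₀) (hGuniq : ∀ W, D.Gauss W → W = D₀)
    (δ : Derivation ℤ_[p] K K) (hδ : δ D.x = 1)
    (V : ValuationSubring K) (hV : Le D.A V) (hp : V.valuation (p : K) < 1)
    (hc : Closed V D.A) : V.valuation D.PU = 1 ∨ V.valuation D.PX = 1 := by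
  have hVG : ¬ M.Gen V := by
    intro h
    have := huniq V h
    exact hG.2.2 (this ▸ hc)
  obtain ⟨S, hS, hSV⟩ := M.cover V hV.over
  have hSe := M.etale S hS
  have hcS : Closed V S := by
    by_contra h
    exact hVG ((gen_iff M S hS V hSV hp).mpr h)
  -- (1)
  have h1 : ∀ z ∈ S, z ∈ loc V D.A := by
    refine M0 (loc V D.A) V S hSe.fg hSV (fun z hz => loc_le hV hz)
      (fun a => le_loc V D.A (D.A.algebraMap_mem a)) (fun z hz h => loc_inv hz h) hp
      (fun z hz => resAlg_loc D.A V hV hp hc z hz)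
      (fun z hz => loc_normal D.A D.frac (D.A_normal hN) V hV z hz) ?_
    intro W hSW hWp hWc hOW
    have hWD : W = D₀ := huniq W ((gen_iff M S hS W hSW hWp).mpr hWc)
    by_contra hcon
    push Not at hcon
    apply hG.2.2
    rw [← hWD]
    intro z hz
    obtain ⟨n, hn, hzn⟩ := hc z hz
    refine ⟨n, hn, ?_⟩
    have hz' : z ^ p ^ n - z ∈ loc V D.A :=
      le_loc V D.A (D.A.sub_mem (D.A.pow_mem hz _) hz)
    exact lt_of_le_of_ne ((W.valuation_le_one_iff _).mpr (hOW _ hz')) (hcon _ hz' hzn)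
  -- (2)
  have h2 : ∀ z ∈ D.A, z ∈ loc V S := by
    refine M0 (loc V S) V D.A (fg_A D) hV (fun z hz => loc_le hSV hz)
      (fun a => le_loc V S (S.algebraMap_mem a)) (fun z hz h => loc_inv hz h) hp
      (fun z hz => resAlg_loc S V hSV hp hcS z hz)
      (fun z hz => loc_normal S hSe.frac (chart_normal S hSe) V hSV z hz) ?_
    intro W hAW hWp hWc hOW
    have hWD : W = D₀ := hGuniq W ⟨hAW, hWp, hWc⟩
    subst hWD
    exact dominate_not_gen M S hS V hSV hp hcS W hD₀ hOW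
  -- (3)
  obtain ⟨D', τ, hcp⟩ := closedPt_exists S hSe V hSV hp hcS
  have hSD' : Le S D' := fun z hz => hcp.sub z (le_loc V S hz)
  have hDD : D' = D₀ := huniq D' ⟨hcp.valp, S, hS, hSD', hcp.gen⟩
  subst hDD
  obtain ⟨T, hT, hTS, hTV⟩ := lam_chart δ S hSe
  have hδ0 : δ ≠ 0 := by
    rintro rfl
    simp at hδ
  have hT0 := lam_chart_ne_zero δ hδ0 S hSe.frac T hTS
  have hPU0 : D.PU ≠ 0 := (D.generic hN).2.2.1
  obtain ⟨hu1, -⟩ := D.der_u hN δ hδ
  have hu : δ D.u = - D.PX * D.PU⁻¹ := by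
    field_simp
    linear_combination hu1
  have hhO : D.PU⁻¹ / δ T ∈ loc V S := by
    apply hcp.hartogs
    · have hPU := (D.gauss_units hN D' hG).2.1
      have hω : D.PU⁻¹ ∈ D' := by
        rw [← D'.valuation_le_one_iff, map_inv₀, hPU, inv_one]
      have hω' := (D.gauss_lam hN δ hδ D' hG D.PU⁻¹).mpr hω
      obtain ⟨a, ha, ha'⟩ := (mem_Lam_of_chart δ S D' hSD'
        (chart_gen S hSe D' hSD' hcp.valp hcp.gen).1 T hT (hTV D' hSD') D.PU⁻¹).mp hω'
      rw [ha', mul_div_assoc, div_self hT0, mul_one]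
      exact ha
    · intro V' hOV' hp'
      have hSV' : Le S V' := fun z hz => hOV' z (le_loc V S hz)
      have hAV' : Le D.A V' := fun z hz => hOV' z (h2 z hz)
      obtain ⟨m, hm, α, hα, β, hβ, hαβ⟩ := D.exists_M_field hN
      have hm1 := val_int V' hAV'.over hp' m hm
      have hm0 : (m : K) ≠ 0 := by
        intro h
        rw [h, map_zero] at hm1
        exact zero_ne_one hm1
      have hmi : (m : K)⁻¹ ∈ V' := by
        rw [← V'.valuation_le_one_iff, map_inv₀, hm1, inv_one]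
      have e1 : D.PU⁻¹ = (-(m : K)⁻¹ * α) * δ D.u + ((m : K)⁻¹ * β) * δ D.x := by
        rw [hu, hδ]
        field_simp
        linear_combination -hαβ
      have hmemu : δ D.u ∈ Lam δ V'.toSubring :=
        Submodule.subset_span ⟨D.u, hAV' _ D.u_mem, rfl⟩
      have hmemx : δ D.x ∈ Lam δ V'.toSubring :=
        Submodule.subset_span ⟨D.x, hAV' _ D.x_mem, rfl⟩
      have hω : D.PU⁻¹ ∈ Lam δ V'.toSubring := by
        rw [e1]
        refine Submodule.add_mem _ ?_ ?_
        · exact Submodule.smul_mem _ (⟨-(m : K)⁻¹ * α,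
            V'.mul_mem _ _ (V'.neg_mem _ hmi) (hAV' _ hα)⟩ : V'.toSubring) hmemu
        · exact Submodule.smul_mem _ (⟨(m : K)⁻¹ * β,
            V'.mul_mem _ _ hmi (hAV' _ hβ)⟩ : V'.toSubring) hmemx
      obtain ⟨a, ha, ha'⟩ := (mem_Lam_of_chart δ S V' hSV'
        (chart_zero S hSe V' hSV' hp') T hT (hTV V' hSV') D.PU⁻¹).mp hω
      rw [ha', mul_div_assoc, div_self hT0, mul_one]
      exact ha
  -- (4)
  obtain ⟨a, ha, b, hb, hb1, hab⟩ := h1 T hT
  obtain ⟨a₁, ha₁, a₂, ha₂, hδa⟩ := D.der_mem δ hδ a ha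
  obtain ⟨b₁, hb₁, b₂, hb₂, hδb⟩ := D.der_mem δ hδ b hb
  set h := D.PU⁻¹ / δ T with hh
  have hhV : h ∈ V := loc_le hSV hhO
  have hωh : D.PU⁻¹ = h * δ T := by rw [hh, div_mul_cancel₀ _ hT0]
  have e2 : δ T * b = δ a - T * δ b := by
    have := congrArg δ hab
    rw [Derivation.leibniz] at this
    simp only [smul_eq_mul] at this
    linear_combination this
  have e3 : b = h * ((a₁ - T * b₁) * D.PU - (a₂ - T * b₂) * D.PX) := by
    have e4 : D.PU⁻¹ * b = h * (((a₁ - T * b₁) * D.PU - (a₂ - T * b₂) * D.PX) * D.PU⁻¹) := by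
      calc D.PU⁻¹ * b = h * (δ T * b) := by rw [hωh]; ring
        _ = h * ((a₁ + a₂ * δ D.u) - T * (b₁ + b₂ * δ D.u)) := by rw [e2, hδa, hδb]
        _ = _ := by
          rw [hu]
          have : D.PU * D.PU⁻¹ = 1 := mul_inv_cancel₀ hPU0
          linear_combination (-h * (a₁ - T * b₁)) * this
    have := congrArg (· * D.PU) e4
    have hc1 : D.PU⁻¹ * b * D.PU = b := by field_simp
    rw [hc1] at this
    rw [this]
    field_simp
  have hTV' : T ∈ V := hSV T hT
  by_contra hcon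
  push Not at hcon
  have hPUl : V.valuation D.PU < 1 :=
    lt_of_le_of_ne ((V.valuation_le_one_iff _).mpr (hV _ D.PU_mem)) hcon.1
  have hPXl : V.valuation D.PX < 1 :=
    lt_of_le_of_ne ((V.valuation_le_one_iff _).mpr (hV _ D.PX_mem)) hcon.2
  have hlt : V.valuation b < 1 := by
    rw [e3, map_mul]
    refine mul_lt_one_of_nonneg_of_lt_one_right ((V.valuation_le_one_iff _).mpr hhV) zero_le ?_
    refine lt_of_le_of_lt (Valuation.map_sub _ _ _) (max_lt ?_ ?_)
    · rw [map_mul]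
      refine mul_lt_one_of_nonneg_of_lt_one_right ((V.valuation_le_one_iff _).mpr ?_)
        zero_le hPUl
      exact V.toSubring.sub_mem (hV _ ha₁) (V.mul_mem _ _ hTV' (hV _ hb₁))
    · rw [map_mul]
      refine mul_lt_one_of_nonneg_of_lt_one_right ((V.valuation_le_one_iff _).mpr ?_)
        zero_le hPXl
      exact V.toSubring.sub_mem (hV _ ha₂) (V.mul_mem _ _ hTV' (hV _ hb₂))
  rw [hb1] at hlt
  exact lt_irrefl _ hlt

end DynBad
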