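import Pool.Agent.DynBad.ValExist

/-!
# Module CompVal: composite valuation rings

`V` a valuation subring of `K`, `φ : V → L` a ring homomorphism to a field with kernel `𝔪_V`, `B`
a valuation subring of `L`.  `V' = {z ∈ V : φ z ∈ B}` is a valuation subring of `K`:
if `z ∉ V` then `z⁻¹ ∈ 𝔪_V`, `φ(z⁻¹) = 0 ∈ B`; if `z ∈ 𝔪_V` then `φ z = 0 ∈ B`; if `z` is a unit of
`V` then `φ z ∈ B` or `φ(z⁻¹) = (φ z)⁻¹ ∈ B`.
-/

namespace DynBad

lemma val_lt_one_iff_inv {K : Type*} [Field K] (V : ValuationSubring K) (z : K) :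
    V.valuation z < 1 ↔ z = 0 ∨ z⁻¹ ∉ V := by
  by_cases h : z = 0
  · simp [h]
  · have h0 : V.valuation z ≠ 0 := by rwa [Ne, map_eq_zero]
    rw [← V.valuation_le_one_iff, map_inv₀, not_le, one_lt_inv₀ (zero_lt_iff.mpr h0)]
    simp [h]

theorem compVal {K L : Type*} [Field K] [Field L] (V : ValuationSubring K) (φ : V →+* L)
    (hφ : ∀ z : V, φ z = 0 ↔ V.valuation (z : K) < 1) (B : ValuationSubring L) :
    ∃ V' : ValuationSubring K, (∀ z : K, z ∈ V' ↔ ∃ h : z ∈ V, φ ⟨z, h⟩ ∈ B) ∧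
      ∀ (z : K) (h : z ∈ V), z ∈ V' → (V'.valuation z < 1 ↔ B.valuation (φ ⟨z, h⟩) < 1) := by
  have key : ∀ (z : K) (h : z ∈ V), z⁻¹ ∉ V → φ ⟨z, h⟩ = 0 := by
    intro z h hz
    rw [hφ]
    exact (val_lt_one_iff_inv V z).mpr (Or.inr hz)
  have key2 : ∀ (z : K) (h : z ∈ V) (h' : z⁻¹ ∈ V), z ≠ 0 → φ ⟨z⁻¹, h'⟩ = (φ ⟨z, h⟩)⁻¹ := by
    intro z h h' h0
    have h1 : φ ⟨z⁻¹, h'⟩ * φ ⟨z, h⟩ = 1 := by
      rw [← map_mul]
      have : (⟨z⁻¹, h'⟩ * ⟨z, h⟩ : V) = 1 := Subtype.ext (inv_mul_cancel₀ h0)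
      rw [this, map_one]
    exact eq_inv_of_mul_eq_one_left h1
  let V' : ValuationSubring K :=
    { carrier := {z | ∃ h : z ∈ V, φ ⟨z, h⟩ ∈ B}
      mul_mem' := by
        rintro a b ⟨ha, ha'⟩ ⟨hb, hb'⟩
        refine ⟨V.mul_mem _ _ ha hb, ?_⟩
        have := B.mul_mem _ _ ha' hb'
        rwa [← map_mul] at this
      one_mem' := by
        refine ⟨V.one_mem, ?_⟩
        have : φ ⟨1, V.one_mem⟩ = 1 := map_one φ
        rw [this]; exact B.one_mem
      add_mem' := by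
        rintro a b ⟨ha, ha'⟩ ⟨hb, hb'⟩
        refine ⟨V.add_mem _ _ ha hb, ?_⟩
        have := B.add_mem _ _ ha' hb'
        rwa [← map_add] at this
      zero_mem' := by
        refine ⟨V.zero_mem, ?_⟩
        have : φ ⟨0, V.zero_mem⟩ = 0 := map_zero φ
        rw [this]; exact B.zero_mem
      neg_mem' := by
        rintro a ⟨ha, ha'⟩
        refine ⟨V.neg_mem _ ha, ?_⟩
        have := B.neg_mem _ ha'
        rwa [← map_neg] at this
      mem_or_inv_mem' := by
        intro z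
        by_cases h0 : z = 0
        · left
          subst h0
          refine ⟨V.zero_mem, ?_⟩
          have : φ ⟨0, V.zero_mem⟩ = 0 := map_zero φ
          rw [this]; exact B.zero_mem
        · by_cases h : z ∈ V
          · by_cases h' : z⁻¹ ∈ V
            · rcases B.mem_or_inv_mem (φ ⟨z, h⟩) with h1 | h1
              · exact Or.inl ⟨h, h1⟩
              · right
                refine ⟨h', ?_⟩
                rw [key2 z h h' h0]; exact h1
            · left
              refine ⟨h, ?_⟩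
              rw [key z h h']; exact B.zero_mem
          · right
            have h' : z⁻¹ ∈ V := (V.mem_or_inv_mem z).resolve_left h
            refine ⟨h', ?_⟩
            rw [key z⁻¹ h' (by rwa [inv_inv])]; exact B.zero_mem }
  have hV' : ∀ z : K, z ∈ V' ↔ ∃ h : z ∈ V, φ ⟨z, h⟩ ∈ B := fun z => Iff.rfl
  refine ⟨V', hV', fun z h hz => ?_⟩
  rw [val_lt_one_iff_inv, val_lt_one_iff_inv]
  by_cases h0 : z = 0
  · subst h0
    have : φ ⟨0, h⟩ = 0 := map_zero φ
    simp [this]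
  · by_cases h' : z⁻¹ ∈ V
    · have h1 := key2 z h h' h0
      have h2 : φ ⟨z, h⟩ ≠ 0 := by
        intro h3
        have : φ ⟨z⁻¹, h'⟩ * φ ⟨z, h⟩ = 1 := by
          rw [← map_mul]
          have : (⟨z⁻¹, h'⟩ * ⟨z, h⟩ : V) = 1 := Subtype.ext (inv_mul_cancel₀ h0)
          rw [this, map_one]
        rw [h3, mul_zero] at this
        exact zero_ne_one this
      simp only [h0, h2, false_or]
      rw [hV', ← h1]
      exact not_congr ⟨fun ⟨_, h⟩ => h, fun h => ⟨h', h⟩⟩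
    · have h1 := key z h h'
      simp only [h1, true_or, iff_true]
      right
      rw [hV']
      exact fun ⟨h2, _⟩ => h' h2

end DynBad
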