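import Pool.Agent.DynBad.GenBasic
import Pool.Agent.DynBad.LamChart

/-!
# Module Contraction: regular differentials vanish more along contracted divisors

`W ∌` Gen with uniformizer `p`.  Chart `S ≤ W` (`M.cover`), closed by `gen_iff`; `O = loc W S`,
`closedPt_exists` gives `D` (Gen, `gen_iff` applied to `D`, `S ≤ O ≤ D`) with `ClosedPt`; `T ∈ S`
from `lam_chart`, `δ T ≠ 0` (`lam_chart_ne_zero`).
Let `η` be regular and `η ∈ p^k Λ(D)`; `Λ(D) = D δT` (`mem_Lam_of_chart`, `chart_gen`), so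
`h := η / (p^k δT) ∈ D`.  For a valuation ring `V' ⊇ O` with `v'(p) = 1`: `Λ(V') = V' δT`
(`chart_zero`, `mem_Lam_of_chart`), `p` is a unit of `V'`, `η ∈ Λ(V')`, so `h ∈ V'`.
By `hartogs`, `h ∈ O ≤ W`.
`T ∈ S` is residually algebraic: `T^(p^n) - T = p w` with `w ∈ W`, `n ≥ 1`; apply `δ`:
`(p^n T^(p^n - 1) - 1) δT = p δw`, and `p^n T^(p^n-1) - 1` is a unit of `W`; so
`δT ∈ p Λ(W)` and `η = p^k h δT ∈ p^(k+1) Λ(W)`.
-/

namespace DynBad

variable {p : ℕ} [Fact p.Prime] {K : Type*} [Field K] [CharZero K] [Algebra ℤ_[p] K]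

theorem contraction (M : SmoothModel p K) (δ : Derivation ℤ_[p] K K) (hδ : δ ≠ 0)
    (W : ValuationSubring K) (hW : Over p W) (hp : W.valuation (p : K) < 1)
    (hunif : ∀ z : K, W.valuation z < 1 → ∃ w ∈ W, z = p * w) (hng : ¬ M.Gen W) :
    ∃ D : ValuationSubring K, M.Gen D ∧
      ∀ η : K, Regular δ η → ∀ k : ℤ, InLp δ D k η → InLp δ W (k + 1) η := by
  have hp0 : (p : K) ≠ 0 := by
    have := (Fact.out : p.Prime).ne_zero
    exact_mod_cast this
  obtain ⟨S, hS, hSW⟩ := M.cover W hW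
  have hc : Closed W S := by
    by_contra h
    exact hng ((gen_iff M S hS W hSW hp).mpr h)
  obtain ⟨D, τ, hD⟩ := closedPt_exists S (M.etale S hS) W hSW hp hc
  have hSD : Le S D := fun z hz => hD.sub z (le_loc W S hz)
  refine ⟨D, ⟨hD.valp, S, hS, hSD, hD.gen⟩, ?_⟩
  obtain ⟨T, hT, h1, h2⟩ := lam_chart δ S (M.etale S hS)
  have hδT : δ T ≠ 0 := lam_chart_ne_zero δ hδ S (M.etale S hS).frac T h1
  intro η hη k hk
  obtain ⟨z, hz, hηz⟩ := hk
  obtain ⟨a, haD, rfl⟩ := (mem_Lam_of_chart δ S D hSD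
    (chart_gen S (M.etale S hS) D hSD hD.valp hD.gen).1 T hT (h2 D hSD) z).mp hz
  have haW : a ∈ loc W S := by
    apply hD.hartogs a haD
    intro V' hV' hpV'
    have hSV' : Le S V' := fun z hz => hV' z (le_loc W S hz)
    obtain ⟨a', ha', h3⟩ := (mem_Lam_of_chart δ S V' hSV'
      (chart_zero S (M.etale S hS) V' hSV' hpV') T hT (h2 V' hSV') η).mp
        (hη V' hSV'.over hpV')
    have h4 : a' = (p : K) ^ k * a := by
      apply mul_right_cancel₀ hδT
      rw [← h3, hηz]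
      ring
    apply (V'.valuation_le_one_iff a).mp
    have h5 := (V'.valuation_le_one_iff a').mpr ha'
    rwa [h4, map_mul, map_zpow₀, hpV', one_zpow, one_mul] at h5
  have haW' : a ∈ W := loc_le hSW haW
  obtain ⟨n, hn, hTn⟩ := hc T hT
  obtain ⟨w, hw, hTw⟩ := hunif _ hTn
  -- the unit
  set e : K := 1 - (p : K) ^ n * T ^ (p ^ n - 1) with he
  have hTW : T ∈ W := hSW T hT
  have hlt : W.valuation ((p : K) ^ n * T ^ (p ^ n - 1)) < 1 := by
    rw [map_mul, map_pow, map_pow]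
    have h3 : W.valuation (p : K) ^ n < 1 := pow_lt_one₀ zero_le' hp (by omega)
    have h4 : W.valuation T ^ (p ^ n - 1) ≤ 1 :=
      pow_le_one₀ zero_le' ((W.valuation_le_one_iff T).mpr hTW)
    calc _ ≤ W.valuation (p : K) ^ n * 1 := mul_le_mul_right h4 _
      _ < 1 := by rw [mul_one]; exact h3
  have he1 : W.valuation e = 1 := by
    rw [he]
    have h3 := Valuation.map_one_sub_of_lt W.valuation hlt
    exact h3
  have he0 : e ≠ 0 := by
    intro h
    rw [h] at he1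
    simp at he1
  have heW : e⁻¹ ∈ W := by
    apply (W.valuation_le_one_iff _).mp
    rw [map_inv₀, he1, inv_one]
  have hder : e * δ T = -((p : K) * δ w) := by
    have h3 : δ (T ^ p ^ n - T) = δ ((p : K) * w) := by rw [hTw]
    have hp' : δ (p : K) = 0 := by
      have : (p : K) = algebraMap ℤ_[p] K (p : ℤ_[p]) := by simp
      rw [this, δ.map_algebraMap]
    rw [map_sub, δ.leibniz_pow, δ.leibniz, hp', smul_zero, add_zero, smul_eq_mul, smul_eq_mul,
      nsmul_eq_mul] at h3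
    push_cast at h3
    rw [he]
    linear_combination -h3
  have hδTeq : δ T = (p : K) * (-e⁻¹ * δ w) := by
    have h3 : δ T = e⁻¹ * (e * δ T) := by field_simp
    rw [h3, hder]
    ring
  refine ⟨(-(a * e⁻¹)) * δ w, ?_, ?_⟩
  · have h3 : δ w ∈ Lam δ W.toSubring := Submodule.subset_span ⟨w, hw, rfl⟩
    exact (Lam δ W.toSubring).smul_mem ⟨-(a * e⁻¹), neg_mem (mul_mem haW' heW)⟩ h3
  · rw [hηz, hδTeq, zpow_add_one₀ hp0]
    ring

/-- `InLp` filtration along a Gen valuation: every `η` is in some `p^k Λ(D)`, and only `0` is in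
all of them. -/
theorem gen_filtration (M : SmoothModel p K) (δ : Derivation ℤ_[p] K K) (hδ : δ ≠ 0)
    (D : ValuationSubring K) (hD : M.Gen D) (η : K) :
    (∃ k : ℤ, InLp δ D k η) ∧ ((∀ n : ℤ, ∃ k : ℤ, n ≤ k ∧ InLp δ D k η) → η = 0) := by
  have hp0 : (p : K) ≠ 0 := by
    have := (Fact.out : p.Prime).ne_zero
    exact_mod_cast this
  have hu := (gen_unif M D hD).2
  obtain ⟨hp, S, hS, hSD, hc⟩ := hD
  obtain ⟨T, hT, h1, h2⟩ := lam_chart δ S (M.etale S hS)
  have hδT : δ T ≠ 0 := lam_chart_ne_zero δ hδ S (M.etale S hS).frac T h1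
  have hmem := mem_Lam_of_chart δ S D hSD (chart_gen S (M.etale S hS) D hSD hp hc).1 T hT
    (h2 D hSD)
  by_cases hη : η = 0
  · exact ⟨⟨0, 0, zero_mem _, by rw [hη]; simp⟩, fun _ => hη⟩
  obtain ⟨m, w, hw, hηw⟩ := hu (η / δ T) (div_ne_zero hη hδT)
  have hη' : η = (p : K) ^ m * (w * δ T) := by
    rw [← mul_assoc, ← hηw]
    field_simp
  refine ⟨⟨m, w * δ T, ?_, hη'⟩, ?_⟩
  · rw [hmem]
    exact ⟨w, (D.valuation_le_one_iff w).mp hw.le, rfl⟩
  · intro h
    exfalso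
    obtain ⟨k, hk, z, hz, hηz⟩ := h (m + 1)
    obtain ⟨a, ha, rfl⟩ := (hmem z).mp hz
    have h3 : (p : K) ^ m * w = (p : K) ^ k * a := by
      apply mul_right_cancel₀ hδT
      rw [mul_assoc, ← hη', hηz]
      ring
    obtain ⟨j, rfl⟩ : ∃ j : ℕ, k = m + 1 + j := ⟨(k - (m + 1)).toNat, by omega⟩
    have h4 : w = (p : K) * ((p : K) ^ j * a) := by
      apply mul_left_cancel₀ (zpow_ne_zero m hp0)
      rw [h3, zpow_add₀ hp0, zpow_add₀ hp0, zpow_one, zpow_natCast]
      ring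
    have h5 : D.valuation w < 1 := by
      rw [h4, map_mul]
      have h6 : (p : K) ^ j * a ∈ D :=
        mul_mem (pow_mem ((D.valuation_le_one_iff _).mp hp.le) _) ha
      calc _ ≤ D.valuation (p : K) * 1 := mul_le_mul_right ((D.valuation_le_one_iff _).mpr h6) _
        _ < 1 := by rw [mul_one]; exact hp
    exact absurd hw h5.ne

end DynBad
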