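import Pool.Agent.DynBad.RamPoint
import Pool.Agent.DynBad.LamChart
import Pool.Agent.DynBad.DynDer

/-!
# Module RamZeta: the action of `σ` on the cotangent space of the fixed point is `ζ`

`S ≤ V₁` an étale chart, `T ∈ S` with `δ(loc) ⊆ loc δT` (`lam_chart`), `δT ≠ 0`.
`V₁ = loc V₁ S` (`chart_zero`), so `Λ(V₁) = V₁ δT`.  Also `Λ(V₁) = V₁ δu`: `PX` is a unit, so
`δx = 1 = - (PU/PX) δu` (`der_u`), `δ(A) ⊆ V₁ δu` (`der_mem`), `V₁ = loc V₁ A`.  So `δT = c δu` with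
`c` a unit of `V₁`.  `δ(σT) = δ(σx) σ(δT)` (`chain`) `= δ(σx) σ(c) σ(δu) = σ(c) δ(σu)`, and
`δ(σu) = δ(u^2 + x u) = (2u + x) δu + u = (2u + x - u PU/PX) δu`.  So
`δ(σT)/δT = (σ(c)/c) (2u + x - u PU/PX) ∈ V₁` and applying `φ` (with `φ(σ c) = φ(c) ≠ 0`,
`φ(u) = 0`, `φ(x) = ζ`) gives `ζ`.
-/

namespace DynBad

open Polynomial

variable {p : ℕ} [Fact p.Prime] {K : Type*} [Field K] [CharZero K] [Algebra ℤ_[p] K] {N : ℕ}
  {L : Type*} [Field L] [CharZero L] [Algebra ℤ_[p] L]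

theorem RamPt.zeta {D : DynField p N K} {ζ : L} {V₁ : ValuationSubring K} {φ : V₁ →+* L}
    (h : RamPt D ζ V₁ φ) (hN : 2 ≤ N) (hζ : IsPrimitiveRoot ζ N) (σ : K ≃ₐ[ℤ_[p]] K)
    (hx : σ D.x = D.x + 2 * D.u) (hu : σ D.u = D.u ^ 2 + D.x * D.u)
    (δ : Derivation ℤ_[p] K K) (hδ : δ D.x = 1)
    (S : Subalgebra ℤ_[p] K) (hS : EtaleChart S) (hSV : Le S V₁) (T : K) (hT : T ∈ S)
    (hTS : ∀ V : ValuationSubring K, Le S V → ∀ z ∈ loc V S, ∃ a ∈ loc V S, δ z = a * δ T) :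
    δ T ≠ 0 ∧ ∃ h' : δ (σ T) / δ T ∈ V₁, φ ⟨δ (σ T) / δ T, h'⟩ = ζ := by
  have hN1 : 1 ≤ N := by omega
  have hPX : V₁.valuation D.PX = 1 := h.unit_PX hN hζ
  have hPX0 : D.PX ≠ 0 := by
    intro h0
    rw [h0, map_zero] at hPX
    exact zero_ne_one hPX
  obtain ⟨hdu, -⟩ := D.der_u hN1 δ hδ
  have hdu0 : δ D.u ≠ 0 := by
    intro h0
    rw [h0, mul_zero] at hdu
    exact hPX0 (neg_eq_zero.mp hdu.symm)
  have hxV : D.x ∈ V₁ := h.le _ D.x_mem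
  have huV : D.u ∈ V₁ := h.le _ D.u_mem
  -- the coefficient `c₀` with `1 = c₀ δ u`
  have hPXi : D.PX⁻¹ ∈ V₁ := by
    rw [← V₁.valuation_le_one_iff, map_inv₀, hPX, inv_one]
  let c₀ : K := -(D.PU * D.PX⁻¹)
  have hc₀ : c₀ ∈ V₁ := V₁.neg_mem _ (V₁.mul_mem _ _ (h.le _ D.PU_mem) hPXi)
  have hc₀1 : c₀ * δ D.u = 1 := by
    simp only [c₀]
    have : -(D.PU * D.PX⁻¹) * δ D.u = -(D.PU * δ D.u) * D.PX⁻¹ := by ring
    rw [this, hdu, neg_neg, mul_inv_cancel₀ hPX0]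
  -- `Λ(V₁) = V₁ δ u`
  have hA : ∀ z ∈ D.A, ∃ b ∈ V₁, δ z = b * δ D.u := by
    intro z hz
    obtain ⟨a₁, ha₁, b₁, hb₁, h1⟩ := D.der_mem δ hδ z hz
    refine ⟨a₁ * c₀ + b₁, V₁.add_mem _ _ (V₁.mul_mem _ _ (h.le _ ha₁) hc₀) (h.le _ hb₁), ?_⟩
    rw [h1]
    linear_combination -a₁ * hc₀1
  have hB : ∀ z ∈ V₁, ∃ b ∈ V₁, δ z = b * δ D.u := by
    intro z hz
    obtain ⟨a, ha, b, hb, hb1, hab⟩ := D.A_zero hN1 V₁ h.le h.valp z hz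
    obtain ⟨a', ha', h1⟩ := hA a ha
    obtain ⟨b', hb', h2⟩ := hA b hb
    have hb0 : b ≠ 0 := by
      intro h0
      rw [h0, map_zero] at hb1
      exact zero_ne_one hb1
    have hbi : b⁻¹ ∈ V₁ := by
      rw [← V₁.valuation_le_one_iff, map_inv₀, hb1, inv_one]
    refine ⟨(a' - z * b') * b⁻¹, V₁.mul_mem _ _ (V₁.sub_mem ha' (V₁.mul_mem _ _ hz hb')) hbi, ?_⟩
    have h3 : δ (z * b) = z * δ b + b * δ z := by
      rw [Derivation.leibniz, smul_eq_mul, smul_eq_mul]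
    rw [hab, h1, h2] at h3
    field_simp
    linear_combination -h3
  -- `δ T = c δ u`, `δ u = a δ T`
  obtain ⟨c, hc, hcT⟩ := hB T (hSV T hT)
  obtain ⟨a, ha, haT⟩ := hTS V₁ hSV D.u (chart_zero S hS V₁ hSV h.valp D.u huV)
  have haV : a ∈ V₁ := loc_le hSV ha
  have hac : c * a = 1 := by
    have h1 : (c * a - 1) * δ D.u = 0 := by
      linear_combination (-a) * hcT - haT
    rcases mul_eq_zero.mp h1 with h2 | h2
    · exact sub_eq_zero.mp h2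
    · exact absurd h2 hdu0
  have hc0 : c ≠ 0 := left_ne_zero_of_mul_eq_one hac
  have hT0 : δ T ≠ 0 := by
    rw [hcT]
    exact mul_ne_zero hc0 hdu0
  refine ⟨hT0, ?_⟩
  obtain ⟨hσx0, hchain⟩ := D.chain hN1 δ hδ σ
  have hσT : δ (σ T) = σ c * δ (σ D.u) := by
    rw [hchain T, hchain D.u, hcT, map_mul]
    ring
  have hσu : δ (σ D.u) = (2 * D.u + D.x + D.u * c₀) * δ D.u := by
    rw [hu, map_add, Derivation.leibniz, Derivation.leibniz_pow, hδ]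
    simp only [smul_eq_mul, nsmul_eq_mul]
    push_cast
    linear_combination (-D.u) * hc₀1
  obtain ⟨hσc, hφc⟩ := h.sigma hN hζ σ hx hu c hc
  have hratio : δ (σ T) / δ T = σ c * a * (2 * D.u + D.x + D.u * c₀) := by
    rw [div_eq_iff hT0, hσT, hσu, hcT]
    linear_combination (-(σ c * (2 * D.u + D.x + D.u * c₀) * δ D.u)) * hac
  let w : V₁ := 2 * ⟨D.u, huV⟩ + ⟨D.x, hxV⟩ + ⟨D.u, huV⟩ * ⟨c₀, hc₀⟩
  have hmem : δ (σ T) / δ T ∈ V₁ := by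
    rw [hratio]
    exact V₁.mul_mem _ _ (V₁.mul_mem _ _ hσc haV) w.2
  refine ⟨hmem, ?_⟩
  have h1 : (⟨δ (σ T) / δ T, hmem⟩ : V₁) = ⟨σ c, hσc⟩ * ⟨a, haV⟩ * w := Subtype.ext hratio
  rw [h1, map_mul, map_mul, hφc, ← map_mul]
  have h2 : (⟨c, hc⟩ : V₁) * ⟨a, haV⟩ = 1 := Subtype.ext hac
  rw [h2, map_one, one_mul]
  simp only [w]
  rw [map_add, map_add, map_mul, map_mul, h.map_u, h.map_x]
  simp

end DynBad
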