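import Pool.Agent.DynBad.RamAlg
import Pool.Agent.DynBad.RamZeta
import Pool.Agent.DynBad.Contraction
import Pool.Agent.DynBad.CompVal
import Pool.Agent.DynBad.M0

/-!
# Module Ramified: no smooth model in the ramified case

`L = AlgebraicClosure ℚ_[p]`, `ζ ∈ L` primitive `N`-th root of unity, `(V₁, φ)` from
`exists_ramPt`.  Let `B` be a valuation subring of `L` containing the image of `ℤ_p` with
`B.valuation p < 1` (`exists_val` for the image of `ℤ_p` and its maximal ideal).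
`V_Q = {z ∈ V₁ : φ z ∈ B}` (`compVal`).  `Over p V_Q`, `V_Q.valuation p < 1`, and by `RamPt.sigma`
`z ∈ V_Q → σ z ∈ V_Q`, also for `σ⁻¹ = σ^(N-1)`, and `v_Q(σ z) = 1 ↔ v_Q(z) = 1`.
Let `S ∈ M.charts`, `S ≤ V_Q ≤ V₁`, `O = loc V_Q S`.

(a) `S` is closed at `V_Q`: otherwise `chart_gen` for `V_Q`; but there is a nonzero `z ∈ V_Q` with
`z / p^n ∈ V_Q` for all `n`, e.g. `z = u` (`φ(u/p^n) = 0`); `u = p^k w` with `w` a unit
contradicts `u/p^(k+1) ∈ V_Q`.
(b) `closedPt_exists`: `D'`, `t`.  `D'` is Gen, so `D' = D₀`.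
(c) `σ(S) ⊆ O`: `M0` with `O`, `V_Q`, `S' = S.map σ` (`S'` is finitely generated, `≤ V_Q`).
`hint`: `chart_normal`, `loc_normal`.  `hgen`: let `W ≥ S'`, `w(p) < 1`, not closed on `S'`,
`O ≤ W`; `W.comap σ = σ⁻¹(W) ≥ S` is not closed on `S`, so it is Gen (`gen_iff`), `= D₀`; as
`D₀.comap σ = D₀`, `W = D₀`; use `dominate_not_gen`.
(d) So `σ(O) ⊆ O` (`O = loc V_Q S`, `loc_inv`).  `T ∈ S` from `lam_chart`, `δ T ≠ 0`,
`d z := δ z / δ T` is a derivation of `O`, `d T = 1`; `τ = σ|_O`; `φ|_O : O → L`.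
`φ(σ z) = φ(z)`.  `hker`: `O ≤ V₁` and `V₁ = loc V₁ S` (`chart_zero`), so `u = a/b` with
`a, b ∈ S`, `b` a unit in `V₁`, so `a ∈ S ⊆ O` is nonzero with `φ a = 0`; in `D₀`,
`a = p^n w`, `w` a unit of `D₀`, and by `pD` (repeatedly) `a = p^n a'`, `a' ∈ O`, `a' ∉ pO`,
`φ(a') = 0`.
(e) `RamPt.zeta` (chart `S ≤ V₁`) gives `φ(d(σ T)) = ζ`.  Apply `ramAlg` (`hmax`, `hord` from
`ClosedPt.max`, `ClosedPt.order`, `ClosedPt.pD`).
-/

namespace DynBad

variable {p : ℕ} [Fact p.Prime] {K : Type*} [Field K]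

private lemma val_eq_one_iff (V : ValuationSubring K) {z : K} :
    V.valuation z = 1 ↔ z ∈ V ∧ z⁻¹ ∈ V ∧ z ≠ 0 := by
  constructor
  · intro h
    have hz0 : z ≠ 0 := by rintro rfl; simp at h
    refine ⟨(V.valuation_le_one_iff z).mp h.le, (V.valuation_le_one_iff _).mp ?_, hz0⟩
    rw [map_inv₀, h, inv_one]
  · rintro ⟨h1, h2, h0⟩
    have h1' := (V.valuation_le_one_iff z).mpr h1
    have h2' := (V.valuation_le_one_iff _).mpr h2
    rw [map_inv₀] at h2'
    refine le_antisymm h1' ?_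
    have hv0 : V.valuation z ≠ 0 := (Valuation.ne_zero_iff _).mpr h0
    exact (inv_le_one₀ (zero_lt_iff.mpr hv0)).mp h2'

private lemma val_lt_one_iff' (V : ValuationSubring K) {z : K} :
    V.valuation z < 1 ↔ z ∈ V ∧ ¬ (z⁻¹ ∈ V ∧ z ≠ 0) := by
  constructor
  · intro h
    refine ⟨(V.valuation_le_one_iff z).mp h.le, fun h' => h.ne ?_⟩
    exact (val_eq_one_iff V).mpr ⟨(V.valuation_le_one_iff z).mp h.le, h'.1, h'.2⟩
  · rintro ⟨h1, h2⟩
    refine lt_of_le_of_ne ((V.valuation_le_one_iff z).mpr h1) fun h => h2 ?_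
    exact ⟨((val_eq_one_iff V).mp h).2.1, ((val_eq_one_iff V).mp h).2.2⟩

/-- a valuation subring of `L` over `ℤ_p` with `v(p) < 1`. -/
private lemma exists_B (L : Type*) [Field L] [Algebra ℤ_[p] L]
    (hL : Function.Injective (algebraMap ℤ_[p] L)) :
    ∃ B : ValuationSubring L, (∀ a : ℤ_[p], algebraMap ℤ_[p] L a ∈ B) ∧
      B.valuation (p : L) < 1 := by
  let R := (algebraMap ℤ_[p] L).range
  let e : ℤ_[p] ≃+* R := RingEquiv.ofBijective (algebraMap ℤ_[p] L).rangeRestrict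
    ⟨fun a b hab => hL (congrArg Subtype.val hab), (algebraMap ℤ_[p] L).rangeRestrict_surjective⟩
  let P : Ideal R := (IsLocalRing.maximalIdeal ℤ_[p]).comap (e.symm : R →+* ℤ_[p])
  have : P.IsPrime := Ideal.comap_isPrime _ _
  obtain ⟨B, hB1, hB2⟩ := exists_val R P
  refine ⟨B, fun a => hB1 _ ⟨a, rfl⟩, ?_⟩
  have := hB2 (e (p : ℤ_[p]))
  have h1 : ((e (p : ℤ_[p]) : R) : L) = (p : L) := by
    change algebraMap ℤ_[p] L (p : ℤ_[p]) = p
    simp
  rw [h1] at this
  rw [this]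
  change e.symm (e (p : ℤ_[p])) ∈ IsLocalRing.maximalIdeal ℤ_[p]
  rw [e.symm_apply_apply, PadicInt.maximalIdeal_eq_span_p]
  exact Ideal.subset_span rfl

variable [CharZero K] [Algebra ℤ_[p] K] {N : ℕ}

theorem ramified_absurd (D : DynField p N K) (hN : 4 ≤ N) (M : SmoothModel p K)
    (hram : (p ≠ 2 ∧ p ∣ N) ∨ (p = 2 ∧ 4 ∣ N)) (D₀ : ValuationSubring K)
    (huniq : ∀ D', M.Gen D' → D' = D₀) (σ : K ≃ₐ[ℤ_[p]] K)
    (hx : σ D.x = D.x + 2 * D.u) (hu : σ D.u = D.u ^ 2 + D.x * D.u)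
    (hσN : ∀ z : K, σ^[N] z = z) (hσ : D₀.comap (σ : K →+* K) = D₀) : False := by
  classical
  have hpp : p.Prime := Fact.out
  have hN2 : 2 ≤ N := by omega
  have hN1 : 1 ≤ N := by omega
  -- the field `L` and the fixed point
  let L := AlgebraicClosure ℚ_[p]
  have hL : Function.Injective (algebraMap ℤ_[p] L) := by
    rw [IsScalarTower.algebraMap_eq ℤ_[p] ℚ_[p] L]
    exact (algebraMap ℚ_[p] L).injective.comp (FaithfulSMul.algebraMap_injective ℤ_[p] ℚ_[p])
  have : NeZero (N : L) := ⟨by exact_mod_cast (by omega : N ≠ 0)⟩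
  obtain ⟨ζ, hζ⟩ : ∃ ζ : L, IsPrimitiveRoot ζ N := HasEnoughRootsOfUnity.exists_primitiveRoot L N
  obtain ⟨V₁, φ, h₁⟩ := D.exists_ramPt hN2 hL ζ hζ
  obtain ⟨B, hB1, hB2⟩ := exists_B L hL
  obtain ⟨V, hV1, hV2⟩ := compVal V₁ φ h₁.ker B
  have hO1 : Over p V₁ := h₁.le.over
  have hVV : ∀ z ∈ V, z ∈ V₁ := fun z hz => ((hV1 z).mp hz).1
  have hVp : Over p V := by
    intro a
    rw [hV1]
    refine ⟨hO1 a, ?_⟩
    rw [h₁.base a]
    exact hB1 a
  have hpV : (p : K) ∈ V := by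
    have := hVp (p : ℤ_[p])
    simpa using this
  have hpV1 : (p : K) ∈ V₁ := hVV _ hpV
  have hφp : φ ⟨(p : K), hpV1⟩ = (p : L) := by
    have : (⟨(p : K), hpV1⟩ : V₁) = ((p : ℕ) : V₁) := by
      ext; simp
    rw [this, map_natCast]
  have hlt : V.valuation (p : K) < 1 := by
    rw [hV2 _ hpV1 hpV, hφp]
    exact hB2
  -- invariance under `σ`
  have hσV : ∀ z ∈ V, σ z ∈ V := by
    intro z hz
    obtain ⟨hz1, hz2⟩ := (hV1 z).mp hz
    obtain ⟨hz', hz''⟩ := h₁.sigma hN2 hζ σ hx hu z hz1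
    rw [hV1]
    exact ⟨hz', by rw [hz'']; exact hz2⟩
  have hσ1 : ∀ z, V.valuation z = 1 → V.valuation (σ z) = 1 := by
    intro z hz
    rw [val_eq_one_iff] at hz ⊢
    refine ⟨hσV _ hz.1, ?_, ?_⟩
    · rw [← map_inv₀]; exact hσV _ hz.2.1
    · simpa using hz.2.2
  obtain ⟨S, hSM, hSV⟩ := M.cover V hVp
  have hS := M.etale S hSM
  have hSV1 : Le S V₁ := fun z hz => hVV z (hSV z hz)
  have hp0 : (p : K) ≠ 0 := by exact_mod_cast hpp.ne_zero
  -- `u ≠ 0`
  have hu0 : D.u ≠ 0 := by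
    have h := D.generic hN1
    intro h0
    have h1 := h.2.2.2.2 1 one_pos (by omega)
    apply h1
    rw [h0]
    simp [F]
  have hu1 : D.u ∈ V₁ := h₁.le _ D.u_mem
  have hφu : φ ⟨D.u, hu1⟩ = 0 := h₁.map_u hu1
  have hφp0 : φ ⟨(p : K), hpV1⟩ ≠ 0 := by
    rw [hφp]; exact_mod_cast hpp.ne_zero
  have hpinv1 : (p : K)⁻¹ ∈ V₁ := ((val_eq_one_iff V₁).mp h₁.valp).2.1
  -- (a) `S` is closed at `V`
  have hclosed : Closed V S := by
    by_contra hc
    obtain ⟨n, w, hw, hwu⟩ := (chart_gen S hS V hSV hlt hc).2 D.u hu0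
    have hw' := (val_eq_one_iff V).mp hw
    have hk : (p : K)⁻¹ * w ∈ V := by
      have e1 : (p : K)⁻¹ * w = (p : K) ^ (-n - 1) * D.u := by
        rw [hwu, ← mul_assoc, ← zpow_add₀ hp0]
        have : -n - 1 + n = -1 := by ring
        rw [this, zpow_neg_one]
      have e2 : (p : K)⁻¹ * w ∈ V₁ := V₁.mul_mem _ _ hpinv1 (hVV _ hw'.1)
      rw [hV1]
      refine ⟨e2, ?_⟩
      have hz : φ ⟨(p : K)⁻¹ * w, e2⟩ = 0 := by
        rw [h₁.ker]
        change V₁.valuation ((p : K)⁻¹ * w) < 1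
        rw [e1, map_mul, map_zpow₀, h₁.valp, one_zpow, one_mul]
        exact (h₁.ker ⟨D.u, hu1⟩).mp hφu
      rw [hz]
      exact B.zero_mem
    have hinv : (p : K)⁻¹ ∈ V := by
      have := V.mul_mem _ _ hk hw'.2.1
      rwa [mul_assoc, mul_inv_cancel₀ hw'.2.2, mul_one] at this
    exact ((val_lt_one_iff' V).mp hlt).2 ⟨hinv, hp0⟩
  -- (b)
  obtain ⟨D', t, hcp⟩ := closedPt_exists S hS V hSV hlt hclosed
  have hSD' : Le S D' := fun z hz => hcp.sub z (le_loc V S hz)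
  have hGen' : M.Gen D' := ⟨hcp.valp, S, hSM, hSD', hcp.gen⟩
  obtain rfl : D' = D₀ := huniq _ hGen'
  have hOV : ∀ z ∈ loc V S, z ∈ V := fun z hz => loc_le hSV hz
  -- (c)
  have hσO : ∀ z ∈ S, σ z ∈ loc V S := by
    have key := M0 (loc V S) V (S.map (σ : K →ₐ[ℤ_[p]] K)) (hS.fg.map _)
      (by
        rintro z ⟨s, hs, rfl⟩
        exact hσV _ (hSV s hs))
      hOV (fun a => le_loc V S (S.algebraMap_mem a)) (fun z hz h1 => loc_inv hz h1) hlt
      (fun z hz => resAlg_loc S V hSV hlt hclosed z hz)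
      (fun z hz => loc_normal S hS.frac (fun z hz => chart_normal S hS z hz) V hSV z hz)
      (by
        intro W hW1 hW2 hW3 hW4
        have hmem : ∀ z, z ∈ W.comap (σ : K →+* K) ↔ σ z ∈ W := fun z => Iff.rfl
        have hvlt : ∀ z, (W.comap (σ : K →+* K)).valuation z < 1 ↔ W.valuation (σ z) < 1 := by
          intro z
          rw [val_lt_one_iff', val_lt_one_iff', hmem, hmem, map_inv₀]
          simp
        have hSW : Le S (W.comap (σ : K →+* K)) := fun z hz => hW1 _ ⟨z, hz, rfl⟩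
        have hpW : (W.comap (σ : K →+* K)).valuation (p : K) < 1 := by
          rw [hvlt, map_natCast]; exact hW2
        have hGW : M.Gen (W.comap (σ : K →+* K)) := by
          rw [gen_iff M S hSM _ hSW hpW]
          intro hc
          apply hW3
          rintro z ⟨s, hs, rfl⟩
          obtain ⟨n, hn, h⟩ := hc s hs
          refine ⟨n, hn, ?_⟩
          rw [hvlt] at h
          simpa using h
        have hWD := huniq _ hGW
        have hWD' : W = D' := by
          ext z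
          have h1 : z ∈ W ↔ σ.symm z ∈ W.comap (σ : K →+* K) := by
            rw [hmem, AlgEquiv.apply_symm_apply]
          rw [h1, hWD, ← hσ]
          change σ (σ.symm z) ∈ D' ↔ _
          rw [AlgEquiv.apply_symm_apply, hσ]
        subst hWD'
        exact dominate_not_gen M S hSM V hSV hlt hclosed W hGen' hW4)
    intro z hz
    exact key _ ⟨z, hz, rfl⟩
  -- (d)
  have hσO' : ∀ z ∈ loc V S, σ z ∈ loc V S := by
    rintro z ⟨a, ha, b, hb, hb1, hab⟩
    have h1 := loc_inv (hσO b hb) (hσ1 b hb1)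
    have hb0 : σ b ≠ 0 := ((val_eq_one_iff V).mp (hσ1 b hb1)).2.2
    have h2 : σ z = σ a * (σ b)⁻¹ := by
      rw [← hab, map_mul]; field_simp
    rw [h2]
    exact (loc V S).mul_mem (hσO a ha) h1
  obtain ⟨δ, hδ⟩ := D.exists_der hN1
  have hδ0 : δ ≠ 0 := by
    rintro rfl
    simp at hδ
  obtain ⟨T, hTS, hT1, hT2⟩ := lam_chart δ S hS
  have hδT : δ T ≠ 0 := lam_chart_ne_zero δ hδ0 S hS.frac T hT1
  -- the local ring
  let O : Subring K := loc V S
  have hO : ∀ z, z ∈ O ↔ z ∈ loc V S := fun z => Iff.rfl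
  have hunit : ∀ z : O, IsUnit z ↔ V.valuation (z : K) = 1 := by
    intro z
    constructor
    · rintro ⟨w, rfl⟩
      rw [val_eq_one_iff]
      have h1 : ((w : O) : K) * ((w⁻¹ : Oˣ) : O) = 1 := by
        have := congrArg (Subtype.val) w.mul_inv
        exact this
      have h0 : ((w : O) : K) ≠ 0 := left_ne_zero_of_mul_eq_one h1
      refine ⟨hOV _ (w : O).2, ?_, h0⟩
      have h2 : ((w : O) : K)⁻¹ = ((w⁻¹ : Oˣ) : O) := by
        field_simp
        linear_combination -h1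
      rw [h2]
      exact hOV _ ((w⁻¹ : Oˣ) : O).2
    · intro h
      have h1 := loc_inv z.2 h
      have h0 : (z : K) ≠ 0 := ((val_eq_one_iff V).mp h).2.2
      refine IsUnit.of_mul_eq_one ⟨(z : K)⁻¹, h1⟩ ?_
      ext
      simp [h0]
  have hle1 : ∀ z : O, V.valuation (z : K) ≤ 1 :=
    fun z => (V.valuation_le_one_iff _).mpr (hOV _ z.2)
  have hnonunit : ∀ z : O, z ∈ nonunits O ↔ V.valuation (z : K) < 1 := by
    intro z
    rw [mem_nonunits_iff, hunit]
    exact ⟨fun h => lt_of_le_of_ne (hle1 z) h, fun h => h.ne⟩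
  have : IsLocalRing O := by
    refine IsLocalRing.of_nonunits_add ?_
    intro a b ha hb
    rw [hnonunit] at ha hb ⊢
    exact lt_of_le_of_lt (V.valuation.map_add _ _) (max_lt ha hb)
  have htO : t ∈ O := hcp.t_mem
  have hpcoe : ((p : O) : K) = (p : K) := by simp
  have hmax : IsLocalRing.maximalIdeal O = Ideal.span {(p : O), ⟨t, htO⟩} := by
    apply le_antisymm
    · intro z hz
      rw [IsLocalRing.mem_maximalIdeal, hnonunit] at hz
      obtain ⟨a, ha, b, hb, hab⟩ := hcp.max z z.2 hz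
      rw [Ideal.mem_span_pair]
      refine ⟨⟨a, ha⟩, ⟨b, hb⟩, ?_⟩
      ext
      push_cast
      rw [hab]; ring
    · rw [Ideal.span_le]
      rintro z (rfl | rfl)
      · change _ ∈ IsLocalRing.maximalIdeal O
        rw [IsLocalRing.mem_maximalIdeal, hnonunit, hpcoe]
        exact hlt
      · change _ ∈ IsLocalRing.maximalIdeal O
        rw [IsLocalRing.mem_maximalIdeal, hnonunit]
        exact hcp.t_lt
  have hord : ∀ z : O, ¬ (p : O) ∣ z →
      ∃ n : ℕ, ∃ w : O, IsUnit w ∧ ∃ c : O, z = ⟨t, htO⟩ ^ n * w + p * c := by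
    intro z hz
    have hz1 : D'.valuation (z : K) = 1 := by
      by_contra hne
      have hlt' : D'.valuation (z : K) < 1 :=
        lt_of_le_of_ne ((D'.valuation_le_one_iff _).mpr (hcp.sub _ z.2)) hne
      obtain ⟨w, hw, hzw⟩ := hcp.pD z z.2 hlt'
      exact hz ⟨⟨w, hw⟩, by ext; push_cast; rw [hzw]⟩
    obtain ⟨n, w, hw, hw1, c, hc, h⟩ := hcp.order z z.2 hz1
    refine ⟨n, ⟨w, hw⟩, (hunit _).mpr hw1, ⟨c, hc⟩, ?_⟩
    ext
    push_cast
    exact h
  -- derivation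
  have hδO : ∀ z ∈ O, δ z / δ T ∈ O := by
    intro z hz
    obtain ⟨a, ha, h⟩ := hT2 V hSV z hz
    rw [h, mul_div_assoc, div_self hδT, mul_one]
    exact ha
  let d : Derivation ℤ O O := Derivation.mk'
    { toFun := fun z => ⟨δ z / δ T, hδO z z.2⟩
      map_add' := fun a b => by
        ext
        push_cast
        rw [map_add, add_div]
      map_smul' := fun n a => by
        ext
        simp only [zsmul_eq_mul, eq_intCast]
        push_cast
        have : δ ((n : K) * (a : K)) = (n : K) * δ (a : K) := by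
          rw [Derivation.leibniz]
          simp
        rw [this, mul_div_assoc] }
    (fun a b => by
      ext
      simp only [LinearMap.coe_mk, AddHom.coe_mk, smul_eq_mul]
      push_cast
      rw [Derivation.leibniz, smul_eq_mul, smul_eq_mul]
      ring)
  have hd : ∀ z : O, ((d z : O) : K) = δ z / δ T := fun z => rfl
  let τ : O →+* O :=
    { toFun := fun z => ⟨σ z, hσO' z z.2⟩
      map_one' := by ext; simp
      map_mul' := fun a b => by ext; simp
      map_zero' := by ext; simp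
      map_add' := fun a b => by ext; simp }
  have hτ : ∀ z : O, ((τ z : O) : K) = σ z := fun z => rfl
  have hOV1 : O ≤ V₁.toSubring := fun z hz => hVV _ (hOV z hz)
  let φ' : O →+* L := φ.comp (Subring.inclusion hOV1)
  have hφ' : ∀ z : O, φ' z = φ ⟨z, hOV1 z.2⟩ := fun z => rfl
  have hTO : T ∈ O := le_loc V S hTS
  -- an element of the kernel which is not divisible by `p`
  have hpdvd : ∀ z : O, (p : O) ∣ z → D'.valuation (z : K) < 1 := by
    rintro z ⟨c, rfl⟩
    push_cast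
    rw [map_mul]
    have h2 : D'.valuation (c : K) ≤ 1 := (D'.valuation_le_one_iff _).mpr (hcp.sub _ c.2)
    exact mul_lt_one_of_lt_of_le hcp.valp h2
  have hred : ∀ n : ℕ, ∀ w : K, D'.valuation w = 1 → (p : K) ^ n * w ∈ O → w ∈ O := by
    intro n
    induction n with
    | zero => intro w _ h; simpa using h
    | succ n ih =>
      intro w hw h
      apply ih w hw
      have hlt' : D'.valuation ((p : K) ^ (n + 1) * w) < 1 := by
        rw [map_mul, hw, mul_one, map_pow]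
        exact pow_lt_one₀ zero_le hcp.valp (Nat.succ_ne_zero n)
      obtain ⟨w', hw', hww⟩ := hcp.pD _ h hlt'
      have : (p : K) ^ n * w = w' := by
        apply mul_left_cancel₀ hp0
        rw [← hww]; ring
      rw [this]
      exact hw'
  have hker : ∃ z, φ' z = 0 ∧ ¬ (p : O) ∣ z := by
    obtain ⟨a, ha, b, hb, hb1, hab⟩ := chart_zero S hS V₁ hSV1 h₁.valp D.u hu1
    have hb0 : b ≠ 0 := ((val_eq_one_iff V₁).mp hb1).2.2
    have ha0 : a ≠ 0 := by rw [← hab]; exact mul_ne_zero hu0 hb0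
    have hφa : V₁.valuation a < 1 := by
      rw [← hab, map_mul, hb1, mul_one]
      exact (h₁.ker ⟨D.u, hu1⟩).mp hφu
    obtain ⟨n, w, hw, hwa⟩ := (gen_unif M D' hGen').2 a ha0
    have hn : 0 ≤ n := by
      by_contra hneg
      push Not at hneg
      have h1 : D'.valuation a ≤ 1 :=
        (D'.valuation_le_one_iff _).mpr (hSD' _ ha)
      rw [hwa, map_mul, hw, mul_one, map_zpow₀] at h1
      have hv0 : D'.valuation (p : K) ≠ 0 := (Valuation.ne_zero_iff _).mpr hp0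
      have h2 : 1 < D'.valuation (p : K) ^ n := by
        obtain ⟨m, rfl⟩ : ∃ m : ℕ, n = -((m : ℤ) + 1) := ⟨(-n - 1).toNat, by omega⟩
        rw [zpow_neg]
        rw [one_lt_inv₀ (zero_lt_iff.mpr (zpow_ne_zero _ hv0))]
        have : (m : ℤ) + 1 = ((m + 1 : ℕ) : ℤ) := by push_cast; ring
        rw [this, zpow_natCast]
        exact pow_lt_one₀ zero_le hcp.valp (Nat.succ_ne_zero m)
      exact absurd h1 (not_le.mpr h2)
    obtain ⟨m, rfl⟩ := Int.eq_ofNat_of_zero_le hn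
    rw [zpow_natCast] at hwa
    have hwO : w ∈ O := hred m w hw (by rw [← hwa]; exact le_loc V S ha)
    refine ⟨⟨w, hwO⟩, ?_, ?_⟩
    · rw [hφ']
      have hw1 : w ∈ V₁ := hOV1 hwO
      change φ ⟨w, hw1⟩ = 0
      rw [h₁.ker]
      change V₁.valuation w < 1
      rw [hwa, map_mul, map_pow, h₁.valp, one_pow, one_mul] at hφa
      exact hφa
    · intro hdvd
      exact (hpdvd _ hdvd).ne hw
  -- conclusion
  obtain ⟨-, hz1, hz2⟩ := RamPt.zeta h₁ hN2 hζ σ hx hu δ hδ S hS hSV1 T hTS hT2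
  refine ramAlg (O := O) (L := L) hpp hN hram ⟨t, htO⟩ hmax hord d τ ⟨T, hTO⟩ ?_ φ' ?_ hker ζ hζ ?_
  · ext
    rw [hd]
    exact div_self hδT
  · intro z
    rw [hφ', hφ']
    obtain ⟨h1, h2⟩ := h₁.sigma hN2 hζ σ hx hu z (hOV1 z.2)
    exact h2
  · rw [hφ']
    exact hz2

end DynBad
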