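import Pool.Agent.DynBad.ValExist

/-!
# Module LamSigma: behaviour of `Λ(V)` and of regularity under an automorphism

`σ` an automorphism of `K` over `ℤ_p`, `δ(σ z) = s σ(δ z)` for all `z`, `s ≠ 0`.
`V.comap σ = {z : σ z ∈ V} = σ⁻¹(V)`.  The map `η ↦ s σ(η)` sends `a δ b` (`a, b ∈ σ⁻¹V`) to
`σ(a) δ(σ b) ∈ Λ(V)`; its inverse is `η ↦ σ⁻¹(η/s)`.
-/

namespace DynBad

variable {p : ℕ} [Fact p.Prime] {K : Type*} [Field K] [Algebra ℤ_[p] K]
  (δ : Derivation ℤ_[p] K K) (σ : K ≃ₐ[ℤ_[p]] K) (s : K) (hs : s ≠ 0)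
  (h : ∀ z, δ (σ z) = s * σ (δ z))

include hs h

theorem mem_Lam_comap (V : ValuationSubring K) (η : K) :
    η ∈ Lam δ (V.comap (σ : K →+* K)).toSubring ↔ s * σ η ∈ Lam δ V.toSubring := by
  constructor
  · intro hη
    unfold Lam at hη
    induction hη using Submodule.span_induction with
    | mem x hx =>
      obtain ⟨b, hb, rfl⟩ := hx
      rw [← h b]
      exact Submodule.subset_span ⟨σ b, hb, rfl⟩
    | zero => simp
    | add x y _ _ hx hy =>
      rw [map_add, mul_add]
      exact Submodule.add_mem _ hx hy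
    | smul a x _ hx =>
      have h1 : s * σ (a • x) = (⟨σ a, a.2⟩ : V.toSubring) • (s * σ x) := by
        change s * σ ((a : K) * x) = σ a * (s * σ x)
        rw [map_mul]; ring
      rw [h1]
      exact Submodule.smul_mem _ _ hx
  · intro hη
    have key : ∀ ξ ∈ Lam δ V.toSubring,
        σ.symm (ξ / s) ∈ Lam δ (V.comap (σ : K →+* K)).toSubring := by
      intro ξ hξ
      unfold Lam at hξ
      induction hξ using Submodule.span_induction with
      | mem x hx =>
        obtain ⟨b, hb, rfl⟩ := hx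
        have h2 : δ b = s * σ (δ (σ.symm b)) := by rw [← h, σ.apply_symm_apply]
        rw [h2, mul_div_cancel_left₀ _ hs, σ.symm_apply_apply]
        refine Submodule.subset_span ⟨σ.symm b, ?_, rfl⟩
        change σ (σ.symm b) ∈ V
        rw [σ.apply_symm_apply]
        exact hb
      | zero => simp
      | add x y _ _ hx hy =>
        rw [add_div, map_add]
        exact Submodule.add_mem _ hx hy
      | smul a x _ hx =>
        have ha : σ.symm (a : K) ∈ (V.comap (σ : K →+* K)).toSubring := by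
          change σ (σ.symm (a : K)) ∈ V
          rw [σ.apply_symm_apply]
          exact a.2
        have h1 : σ.symm ((a • x) / s) =
            (⟨σ.symm a, ha⟩ : (V.comap (σ : K →+* K)).toSubring) • σ.symm (x / s) := by
          change σ.symm (((a : K) * x) / s) = σ.symm (a : K) * σ.symm (x / s)
          rw [← map_mul, mul_div_assoc]
        rw [h1]
        exact Submodule.smul_mem _ _ hx
    have h3 := key _ hη
    rwa [mul_div_cancel_left₀ _ hs, σ.symm_apply_apply] at h3

omit hs h in
lemma lamSigma_val_one (V : ValuationSubring K) (z : K) (hz : z ≠ 0) :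
    V.valuation z = 1 ↔ z ∈ V ∧ z⁻¹ ∈ V := by
  rw [← V.valuation_le_one_iff, ← V.valuation_le_one_iff, map_inv₀]
  have h0 : V.valuation z ≠ 0 := (Valuation.ne_zero_iff _).mpr hz
  constructor
  · intro h1
    rw [h1]
    simp
  · rintro ⟨h1, h2⟩
    refine le_antisymm h1 ?_
    rwa [inv_le_one₀ (zero_lt_iff.mpr h0)] at h2

omit hs h in
lemma lamSigma_comap (V : ValuationSubring K) (hV : Over p V)
    (hp : V.valuation (p : K) = 1) (τ : K ≃ₐ[ℤ_[p]] K) :
    Over p (V.comap (τ : K →+* K)) ∧ (V.comap (τ : K →+* K)).valuation (p : K) = 1 := by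
  have hp0 : (p : K) ≠ 0 := by
    intro h0
    rw [h0, map_zero] at hp
    exact zero_ne_one hp
  rw [lamSigma_val_one V _ hp0] at hp
  refine ⟨fun a => ?_, ?_⟩
  · change τ (algebraMap ℤ_[p] K a) ∈ V
    rw [τ.commutes]
    exact hV a
  · rw [lamSigma_val_one _ _ hp0]
    constructor
    · change τ (p : K) ∈ V
      rw [map_natCast]
      exact hp.1
    · change τ (p : K)⁻¹ ∈ V
      rw [map_inv₀, map_natCast]
      exact hp.2

theorem regular_sigma (η : K) : Regular δ η ↔ Regular δ (s * σ η) := by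
  constructor
  · intro hη V hV hp
    obtain ⟨h1, h2⟩ := lamSigma_comap V hV hp σ
    exact (mem_Lam_comap δ σ s hs h V η).mp (hη _ h1 h2)
  · intro hη V hV hp
    obtain ⟨h1, h2⟩ := lamSigma_comap V hV hp σ.symm
    have h3 := (mem_Lam_comap δ σ s hs h _ η).mpr (hη _ h1 h2)
    have h4 : (V.comap (σ.symm : K →+* K)).comap (σ : K →+* K) = V := by
      ext z
      change σ.symm (σ z) ∈ V ↔ z ∈ V
      rw [σ.symm_apply_apply]
    rwa [h4] at h3

theorem inLp_comap (V : ValuationSubring K) (k : ℤ) (η : K) :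
    InLp δ (V.comap (σ : K →+* K)) k η ↔ InLp δ V k (s * σ η) := by
  constructor
  · rintro ⟨z, hz, rfl⟩
    refine ⟨s * σ z, (mem_Lam_comap δ σ s hs h V z).mp hz, ?_⟩
    rw [map_mul, map_zpow₀, map_natCast]
    ring
  · rintro ⟨ξ, hξ, hη⟩
    refine ⟨σ.symm (ξ / s), ?_, ?_⟩
    · rw [mem_Lam_comap δ σ s hs h V, σ.apply_symm_apply, mul_div_cancel₀ _ hs]
      exact hξ
    · have h1 : σ η = (p : K) ^ k * (ξ / s) := by
        field_simp
        linear_combination hη
      have h2 := congrArg σ.symm h1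
      rwa [σ.symm_apply_apply, map_mul, map_zpow₀, map_natCast] at h2

end DynBad
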