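import Pool.Agent.DynBad.Contraction
import Pool.Agent.DynBad.LamSigma
import Pool.Agent.DynBad.EtaMem

/-!
# Module SigmaInv: the generic point `D₀` of the special fibre is `σ`-invariant

Let `s = δ(σ x)` and `T η = s σ(η)` (`chain`: `δ(σ z) = s σ(δ z)`, `s ≠ 0`).
`W = D₀.comap σ`.  `W` has uniformizer `p` (transport `gen_unif`), `Over p W`.
Suppose `W ≠ D₀`; then `W` is not Gen, and by `contraction` (the `D` there is Gen, so `= D₀`)
for regular `η`: `InLp δ D₀ k η → InLp δ W (k+1) η ↔ InLp δ D₀ (k+1) (T η)` (`inLp_comap`), and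
`T η` is regular (`regular_sigma`).  Iterating, `InLp δ D₀ k η → InLp δ D₀ (k+n) (T^n η)`.
`T^N η = η`: `T^n η = δ(σ^n x) σ^n(η)` by induction (`chain` for `σ^n`), and `σ^N = 1`, `δ x = 1`.
So for `η = D.eta` (`eta_regular`), starting from some `k` (`gen_filtration`),
`InLp δ D₀ (k + N j) η` for all `j`, so `η = 0` (`gen_filtration`), contradiction to `eta_ne_zero`.
-/

namespace DynBad

variable {p : ℕ} [Fact p.Prime] {K : Type*} [Field K] [CharZero K] [Algebra ℤ_[p] K] {N : ℕ}

namespace SigmaInvAux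

theorem val_lt_one_iff {K : Type*} [Field K] (V : ValuationSubring K) (z : K) :
    V.valuation z < 1 ↔ z = 0 ∨ z⁻¹ ∉ V := by
  by_cases hz : z = 0
  · subst hz
    simp
  · rw [← V.valuation_le_one_iff, map_inv₀, not_le]
    have h0 : 0 < V.valuation z := zero_lt_iff.mpr ((V.valuation.ne_zero_iff).mpr hz)
    rw [one_lt_inv₀ h0]
    simp [hz]

theorem comap_lt_one_iff {K : Type*} [Field K] {R : Type*} [CommRing R] [Algebra R K]
    (V : ValuationSubring K) (σ : K ≃ₐ[R] K) (z : K) :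
    (V.comap (σ : K →+* K)).valuation z < 1 ↔ V.valuation (σ z) < 1 := by
  rw [val_lt_one_iff, val_lt_one_iff, ValuationSubring.mem_comap]
  have h1 : (σ : K →+* K) z⁻¹ = (σ z)⁻¹ := map_inv₀ _ _
  rw [h1, EmbeddingLike.map_eq_zero_iff]

end SigmaInvAux

open SigmaInvAux

theorem sigma_inv (D : DynField p N K) (hN : 4 ≤ N) (M : SmoothModel p K)
    (D₀ : ValuationSubring K) (hD₀ : M.Gen D₀) (huniq : ∀ D', M.Gen D' → D' = D₀)
    (δ : Derivation ℤ_[p] K K) (hδ : δ D.x = 1) (σ : K ≃ₐ[ℤ_[p]] K)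
    (hσN : ∀ z : K, σ^[N] z = z) : D₀.comap (σ : K →+* K) = D₀ := by
  by_contra hne
  obtain ⟨hs, h⟩ := D.chain (by omega) δ hδ σ
  set s := δ (σ D.x) with hsdef
  set W := D₀.comap (σ : K →+* K) with hWdef
  have hmem : ∀ z : K, z ∈ W ↔ σ z ∈ D₀ := fun z => Iff.rfl
  have hOver0 : Over p D₀ := by
    obtain ⟨_, S, _, hS, _⟩ := hD₀
    exact hS.over
  have hOver : Over p W := by
    intro a
    rw [hmem, AlgEquiv.commutes]
    exact hOver0 a
  have hpW : W.valuation (p : K) < 1 := by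
    rw [comap_lt_one_iff, map_natCast]
    exact hD₀.1
  obtain ⟨hun, _⟩ := gen_unif M D₀ hD₀
  have hunif : ∀ z : K, W.valuation z < 1 → ∃ w ∈ W, z = p * w := by
    intro z hz
    rw [comap_lt_one_iff] at hz
    obtain ⟨w, hw, hzw⟩ := hun (σ z) hz
    refine ⟨σ.symm w, ?_, ?_⟩
    · rw [hmem, AlgEquiv.apply_symm_apply]
      exact hw
    · apply σ.injective
      rw [map_mul, map_natCast, AlgEquiv.apply_symm_apply, hzw]
  have hng : ¬ M.Gen W := fun hg => hne (huniq W hg)
  have hδ0 : δ ≠ 0 := by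
    intro h0
    rw [h0] at hδ
    simp at hδ
  obtain ⟨D', hD', hcon⟩ := contraction M δ hδ0 W hOver hpW hunif hng
  have hD'0 : D' = D₀ := huniq D' hD'
  rw [hD'0] at hcon
  set T : K → K := fun η => s * σ η with hT
  have hstep : ∀ η, Regular δ η → ∀ k : ℤ, InLp δ D₀ k η → InLp δ D₀ (k + 1) (T η) := by
    intro η hη k hk
    exact (inLp_comap δ σ s hs h D₀ (k + 1) η).mp (hcon η hη k hk)
  have hreg : ∀ η, Regular δ η → Regular δ (T η) := fun η hη =>
    (regular_sigma δ σ s hs h η).mp hη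
  have hiter : ∀ n : ℕ, ∀ η, Regular δ η → ∀ k : ℤ, InLp δ D₀ k η →
      Regular δ (T^[n] η) ∧ InLp δ D₀ (k + n) (T^[n] η) := by
    intro n
    induction n with
    | zero =>
      intro η hη k hk
      refine ⟨hη, ?_⟩
      rw [Nat.cast_zero, add_zero]
      exact hk
    | succ n ih =>
      intro η hη k hk
      obtain ⟨h1, h2⟩ := ih η hη k hk
      rw [Function.iterate_succ_apply']
      refine ⟨hreg _ h1, ?_⟩
      have h3 := hstep _ h1 _ h2
      rw [Nat.cast_succ, ← add_assoc]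
      exact h3
  have hform : ∀ n : ℕ, ∀ η, T^[n] η = δ (σ^[n] D.x) * σ^[n] η := by
    intro n
    induction n with
    | zero =>
      intro η
      simp [hδ]
    | succ n ih =>
      intro η
      rw [Function.iterate_succ_apply', ih, Function.iterate_succ_apply',
        Function.iterate_succ_apply', h]
      simp only [hT, map_mul]
      ring
  have hTN : ∀ η, T^[N] η = η := by
    intro η
    rw [hform, hσN, hσN, hδ, one_mul]
  have hreg0 := D.eta_regular hN δ hδ
  obtain ⟨⟨k, hk⟩, hfin⟩ := gen_filtration M δ hδ0 D₀ hD₀ D.eta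
  have hj : ∀ j : ℕ, InLp δ D₀ (k + N * j) D.eta := by
    intro j
    induction j with
    | zero =>
      rw [Nat.cast_zero, mul_zero, add_zero]
      exact hk
    | succ j ih =>
      have h1 := (hiter N D.eta hreg0 _ ih).2
      rw [hTN] at h1
      have e : k + (N : ℤ) * ((j + 1 : ℕ) : ℤ) = k + N * j + N := by
        push_cast
        ring
      rw [e]
      exact h1
  refine D.eta_ne_zero (by omega) (hfin fun n => ?_)
  refine ⟨k + N * ((n - k).natAbs : ℕ), ?_, hj _⟩
  have h1 : n - k ≤ ((n - k).natAbs : ℤ) := Int.le_natAbs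
  have h2 : (0 : ℤ) ≤ ((n - k).natAbs : ℤ) := by positivity
  have h3 : (1 : ℤ) ≤ N := by omega
  nlinarith

end DynBad
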