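import Pool.Agent.DynBad.Conn
import Pool.Agent.DynBad.SigmaInv
import Pool.Agent.DynBad.Ramified
import Pool.Agent.DynBad.CentreD0
import Pool.Agent.DynBad.AllGauss
import Pool.Agent.DynBad.EndGame

/-!
# Module BadFinal: assembly of the bad direction

`smoothMod_of_endGame`: a singular point `(a,b)` of `Φ_N` over `k = AlgebraicClosure (ZMod p)`
gives a ring homomorphism `A → k` (`D.ker`, `k` as a `ℤ_p`-algebra through `ZMod p`), `x ↦ a`,
`u ↦ b`, with prime kernel `𝔮 ∋ p, PU, PX`; take `V` with centre `𝔮` (`exists_val_subalgebra`): `A`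
is closed at `V` (elements of `k` are in finite fields) and `PU, PX` are nonunits.
-/

namespace DynBad

open Polynomial

variable {p : ℕ} [Fact p.Prime] {K : Type*} [Field K] [Algebra ℤ_[p] K] {N : ℕ}

private lemma exists_frob_fixed (y : AlgebraicClosure (ZMod p)) :
    ∃ n : ℕ, 1 ≤ n ∧ y ^ p ^ n = y := by
  have hy : IsIntegral (ZMod p) y := (AlgebraicClosure.isAlgebraic (ZMod p)).isAlgebraic y
    |>.isIntegral
  have : FiniteDimensional (ZMod p) (IntermediateField.adjoin (ZMod p) {y}) :=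
    IntermediateField.adjoin.finiteDimensional hy
  have : Finite (IntermediateField.adjoin (ZMod p) {y}) := Module.finite_of_finite (ZMod p)
  have : Fintype (IntermediateField.adjoin (ZMod p) {y}) := Fintype.ofFinite _
  obtain ⟨n, -, hn⟩ := FiniteField.card (IntermediateField.adjoin (ZMod p) {y}) p
  refine ⟨n, n.pos, ?_⟩
  have h1 := FiniteField.pow_card (IntermediateField.AdjoinSimple.gen (ZMod p) y)
  rw [hn] at h1
  have h2 := congrArg (algebraMap (IntermediateField.adjoin (ZMod p) {y})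
    (AlgebraicClosure (ZMod p))) h1
  simpa using h2

private lemma ev_lift {E E' : Type*} [CommRing E] [CommRing E'] (φ : E →+* E') (x' u' : E)
    {x u : E'} (hx : φ x' = x) (hu : φ u' = u) (P : ℤ[X][X]) (h : ev x u P = 0) :
    φ (ev x' u' P) = 0 := by
  rw [ev_comp_int, hx, hu, h]

theorem smoothMod_of_endGame (D : DynField p N K) (hN : 1 ≤ N)
    (h : ∀ V : ValuationSubring K, Le D.A V → V.valuation (p : K) < 1 → Closed V D.A →
      V.valuation D.PU = 1 ∨ V.valuation D.PX = 1) : SmoothMod N p := by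
  intro x u hs
  let k := AlgebraicClosure (ZMod p)
  let _ : Algebra ℤ_[p] k := ((algebraMap (ZMod p) k).comp PadicInt.toZMod).toAlgebra
  let g : ℤ_[p][X][X] →+* k := ev x u
  let x' : D.A := ⟨D.x, D.x_mem⟩
  let u' : D.A := ⟨D.u, D.u_mem⟩
  let ψ : ℤ_[p][X][X] →+* D.A := ev x' u'
  have hψc : ∀ P, ((ψ P : D.A) : K) = ev D.x D.u P := fun P => by
    have := ev_comp (R := ℤ_[p]) (D.A.val : D.A →+* K) (by ext; rfl) x' u' P
    exact this
  have hψ : Function.Surjective ψ := by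
    intro z
    obtain ⟨P, hP⟩ := (D.mem_A_iff z).mp z.2
    exact ⟨P, Subtype.ext (by rw [hψc, ← hP])⟩
  have hker : RingHom.ker ψ ≤ RingHom.ker g := by
    intro P hP
    rw [RingHom.mem_ker] at hP ⊢
    have h1 : ev D.x D.u P = 0 := by rw [← hψc, hP]; rfl
    obtain ⟨Q, rfl⟩ := D.ker P h1
    rw [map_mul]
    have : g ((Phi N).map (mapRingHom (Int.castRingHom ℤ_[p]))) = 0 := by
      change ev x u _ = 0
      rw [ev_map]
      exact hs.1
    rw [this, zero_mul]
  let φ : D.A →+* k := ψ.liftOfSurjective hψ ⟨g, hker⟩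
  have hφ : ∀ P, φ (ψ P) = g P := fun P =>
    RingHom.liftOfSurjective_comp_apply ψ hψ ⟨g, hker⟩ P
  have hφx : φ x' = x := by
    have h1 : ψ (C X) = x' := ev_CX x' u'
    have h2 := hφ (C X)
    rw [h1] at h2
    rw [h2]
    exact ev_CX x u
  have hφu : φ u' = u := by
    have h1 : ψ X = u' := ev_X x' u'
    have h2 := hφ X
    rw [h1] at h2
    rw [h2]
    exact ev_X x u
  have hcoe : ∀ P : ℤ[X][X], ((ev x' u' P : D.A) : K) = ev D.x D.u P := fun P =>
    ev_comp_int (D.A.val : D.A →+* K) x' u' P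
  have : (RingHom.ker φ).IsPrime := RingHom.ker_isPrime φ
  obtain ⟨V, hV1, hV2⟩ := exists_val_subalgebra D.A (RingHom.ker φ)
  have hp : V.valuation (p : K) < 1 := by
    have h1 := hV2 (p : D.A)
    have h2 : ((p : D.A) : K) = (p : K) := by simp
    rw [h2] at h1
    rw [h1, RingHom.mem_ker, map_natCast]
    exact CharP.cast_eq_zero k p
  have hc : Closed V D.A := by
    intro z hz
    obtain ⟨n, hn, h1⟩ := exists_frob_fixed (φ ⟨z, hz⟩)
    refine ⟨n, hn, ?_⟩
    have h2 := hV2 (⟨z, hz⟩ ^ p ^ n - ⟨z, hz⟩)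
    have h3 : (((⟨z, hz⟩ : D.A) ^ p ^ n - ⟨z, hz⟩ : D.A) : K) = z ^ p ^ n - z := by simp
    rw [h3] at h2
    rw [h2, RingHom.mem_ker, map_sub, map_pow, h1, sub_self]
  rcases h V hV1 hp hc with h1 | h1
  · have h2 := (hV2 (ev x' u' (derivative (Phi N)))).mpr (by
      rw [RingHom.mem_ker]; exact ev_lift φ x' u' hφx hφu _ hs.2.2)
    rw [hcoe] at h2
    exact h2.ne h1
  · have h2 := (hV2 (ev x' u' (dX (Phi N)))).mpr (by
      rw [RingHom.mem_ker]; exact ev_lift φ x' u' hφx hφu _ hs.2.1)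
    rw [hcoe] at h2
    exact h2.ne h1

theorem bad_direction (D : DynField p N K) (hN : 4 ≤ N) (M : SmoothModel p K) :
    SmoothMod N p ∧ ¬ ((p ≠ 2 ∧ p ∣ N) ∨ (p = 2 ∧ 4 ∣ N)) := by
  have : CharZero K := D.charZero
  have hN1 : 1 ≤ N := by omega
  obtain ⟨δ, hδ⟩ := D.exists_der hN1
  obtain ⟨σ, hx, hu, hσN⟩ := D.exists_sigma hN1
  obtain ⟨D₀, hD₀, huniq, hfp⟩ := conn M D hN1
  have hσ := sigma_inv D hN M D₀ hD₀ huniq δ hδ σ hσN
  have hram : ¬ ((p ≠ 2 ∧ p ∣ N) ∨ (p = 2 ∧ 4 ∣ N)) := fun h =>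
    ramified_absurd D hN M h D₀ huniq σ hx hu hσN hσ
  obtain ⟨S, -, hS, -⟩ := hD₀.2
  have hη := eta_mem_D0 D hN hram D₀ hS.over hD₀.1 hfp δ hδ σ hx hu hσ
  obtain ⟨hG, hGu⟩ := all_gauss D hN M D₀ hD₀ huniq δ hδ hη
  exact ⟨smoothMod_of_endGame D hN1 fun V hV hp hc =>
    endGame D hN1 M D₀ hD₀ huniq hG hGu δ hδ V hV hp hc, hram⟩

end DynBad
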