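import Pool.Agent.DynBad.DegPoint
import Pool.Agent.DynBad.JacInt

/-!
# Module BadInt: the integer whose prime divisors are the singular primes

`singIdeal N ⊆ ℤ[c][x]` is generated by `Φ_N, ∂_xΦ_N, ∂_cΦ_N`, and `singIdeal N ∩ ℤ = (badNumber N)`.
-/

namespace DynBad

open Polynomial

/-- the ideal of `ℤ[c][x]` generated by `Φ_N`, `∂Φ_N/∂x`, `∂Φ_N/∂c` -/
noncomputable def singIdeal (N : ℕ) : Ideal ℤ[X][X] :=
  Ideal.span {dynatomic N, derivative (dynatomic N), dX (dynatomic N)}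

/-- a generator of the ideal `singIdeal N ∩ ℤ` of `ℤ` -/
noncomputable def badNumber (N : ℕ) : ℤ :=
  Submodule.IsPrincipal.generator ((singIdeal N).comap (C.comp C : ℤ →+* ℤ[X][X]))

lemma badNumber_mem (N : ℕ) : C (C (badNumber N)) ∈ singIdeal N :=
  Submodule.IsPrincipal.generator_mem ((singIdeal N).comap (C.comp C : ℤ →+* ℤ[X][X]))

lemma badNumber_dvd {N : ℕ} {M : ℤ} (h : C (C M) ∈ singIdeal N) : badNumber N ∣ M := by
  have h1 : M ∈ (singIdeal N).comap (C.comp C : ℤ →+* ℤ[X][X]) := h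
  have h2 := (Submodule.IsPrincipal.mem_iff_eq_smul_generator _).mp h1
  obtain ⟨a, ha⟩ := h2
  exact ⟨a, by rw [ha, smul_eq_mul, mul_comm]; rfl⟩

private theorem evi_self (P : ℤ[X][X]) : evi (C X : ℤ[X][X]) X P = P := by
  have : evi (C X : ℤ[X][X]) X = RingHom.id _ := by
    apply Polynomial.ringHom_ext'
    · apply Polynomial.ringHom_ext'
      · exact RingHom.ext_int _ _
      · simp [evi, ev]
    · simp [evi, ev]
  rw [this]
  rfl

private theorem evi_chain {R : Type*} [CommRing R] {N : ℕ} (hN : 1 ≤ N) (x c x' c' : R) :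
    c' * evi c x (dX (dynatomic N)) + x' * evi c x (derivative (dynatomic N)) =
      2 * x' * evi (2 * x) (x ^ 2 - x + c) (dX (Phi N)) +
        ((2 * x - 1) * x' + c') * evi (2 * x) (x ^ 2 - x + c) (derivative (Phi N)) :=
  ConvSingAux.chain_k hN x c x' c'

theorem badNumber_ne_zero {N : ℕ} (hN : 1 ≤ N) : badNumber N ≠ 0 := by
  obtain ⟨M, hM, α, β, γ, h⟩ := exists_M hN
  have h1 : C (C (2 * M)) ∈ singIdeal N := by
    have e0 := evi_dyn hN (X : ℤ[X][X]) (C X)
    have e1 := evi_chain hN (X : ℤ[X][X]) (C X) 0 1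
    have e2 := evi_chain hN (X : ℤ[X][X]) (C X) 1 0
    rw [evi_self] at e0
    rw [evi_self, evi_self] at e1 e2
    have h2 := congrArg (evi (2 * X : ℤ[X][X]) (X ^ 2 - X + C X)) h
    rw [map_add, map_add, map_mul, map_mul, map_mul, ← e0] at h2
    have e3 : evi (2 * X : ℤ[X][X]) (X ^ 2 - X + C X) (C (C M)) = C (C M) := by
      simp [evi, ev]
    rw [e3] at h2
    set α' := evi (2 * X : ℤ[X][X]) (X ^ 2 - X + C X) α
    set β' := evi (2 * X : ℤ[X][X]) (X ^ 2 - X + C X) β
    set γ' := evi (2 * X : ℤ[X][X]) (X ^ 2 - X + C X) γ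
    rw [singIdeal, Ideal.mem_span_insert]
    refine ⟨2 * α', β' * derivative (dynatomic N) + (2 * γ' - (2 * X - 1) * β') * dX (dynatomic N),
      Ideal.mem_span_pair.mpr ⟨_, _, rfl⟩, ?_⟩
    rw [C_mul, C_mul, ← h2]
    simp only [map_ofNat]
    linear_combination (-β') * e2 - (2 * γ' - (2 * X - 1) * β') * e1
  intro h0
  have h2 := badNumber_dvd h1
  rw [h0, zero_dvd_iff] at h2
  omega

section prime

variable {p : ℕ} [Fact p.Prime]

theorem dvd_badNumber_of_singular {N : ℕ} (x c : AlgebraicClosure (ZMod p))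
    (h : IsSingularPt N x c) : (p : ℤ) ∣ badNumber N := by
  rw [ConvSingAux.singular_iff_ev] at h
  have h1 : ∀ P ∈ singIdeal N, evi c x P = 0 := by
    intro P hP
    have h2 : singIdeal N ≤ RingHom.ker (evi c x) := by
      rw [singIdeal, Ideal.span_le]
      rintro Q (rfl | rfl | rfl)
      · exact h.1
      · exact h.2.1
      · exact h.2.2
    exact h2 hP
  have h3 := h1 _ (badNumber_mem N)
  have h4 : ((badNumber N : ℤ) : AlgebraicClosure (ZMod p)) = 0 := by
    rw [← h3]; simp [evi, ev]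
  exact (CharP.intCast_eq_zero_iff (AlgebraicClosure (ZMod p)) p _).mp h4

theorem exists_singular_of_dvd {N : ℕ} (hN : 1 ≤ N) (h : (p : ℤ) ∣ badNumber N) :
    ∃ x c : AlgebraicClosure (ZMod p), IsSingularPt N x c := by
  by_contra hcon
  push Not at hcon
  set φ : ℤ[X][X] →+* (ZMod p)[X][X] := mapRingHom (mapRingHom (Int.castRingHom (ZMod p))) with hφ
  have hsurj : Function.Surjective φ :=
    Polynomial.map_surjective _ (Polynomial.map_surjective _ (ZMod.ringHom_surjective _))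
  have htop : (singIdeal N).map φ = ⊤ := by
    by_contra hne
    obtain ⟨m, hm, hIm⟩ := Ideal.exists_le_maximal _ hne
    let _ : Field ((ZMod p)[X][X] ⧸ m) := Ideal.Quotient.field m
    have : Algebra.FiniteType (ZMod p) (ZMod p)[X][X] :=
      Algebra.FiniteType.trans (S := (ZMod p)[X]) inferInstance inferInstance
    have : Algebra.FiniteType (ZMod p) ((ZMod p)[X][X] ⧸ m) :=
      Algebra.FiniteType.trans (S := (ZMod p)[X][X]) inferInstance inferInstance
    have : Module.Finite (ZMod p) ((ZMod p)[X][X] ⧸ m) :=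
      finite_of_finite_type_of_isJacobsonRing (ZMod p) _
    let ψ : ((ZMod p)[X][X] ⧸ m) →ₐ[ZMod p] AlgebraicClosure (ZMod p) := IsAlgClosed.lift
    let θ : ℤ[X][X] →+* AlgebraicClosure (ZMod p) :=
      ((ψ : ((ZMod p)[X][X] ⧸ m) →+* AlgebraicClosure (ZMod p)).comp
        (Ideal.Quotient.mk m)).comp φ
    have key : ∀ P ∈ singIdeal N, evi (θ (C X)) (θ X) P = 0 := by
      intro P hP
      have h0 : θ P = 0 := by
        have : φ P ∈ m := hIm (Ideal.mem_map_of_mem φ hP)
        change ψ (Ideal.Quotient.mk m (φ P)) = 0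
        rw [Ideal.Quotient.eq_zero_iff_mem.2 this, map_zero]
      rw [← evi_comp, evi_self, h0]
    apply hcon (θ X) (θ (C X))
    rw [ConvSingAux.singular_iff_ev]
    exact ⟨key _ (Ideal.subset_span (by simp)), key _ (Ideal.subset_span (by simp)),
      key _ (Ideal.subset_span (by simp))⟩
  have h1 : (1 : (ZMod p)[X][X]) ∈ (singIdeal N).map φ := by rw [htop]; exact Submodule.mem_top
  obtain ⟨i, hi, hi1⟩ := (Ideal.mem_map_iff_of_surjective φ hsurj).mp h1
  have h2 : C (C (p : ℤ)) ∣ 1 - i := by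
    have h3 : φ (1 - i) = 0 := by rw [map_sub, map_one, hi1, sub_self]
    rw [Polynomial.C_dvd_iff_dvd_coeff]
    intro a
    rw [Polynomial.C_dvd_iff_dvd_coeff]
    intro b
    have h4 := congrArg (fun Q : (ZMod p)[X][X] => (Q.coeff a).coeff b) h3
    simp only [hφ, coe_mapRingHom, coeff_map, coeff_zero, eq_intCast] at h4
    exact (ZMod.intCast_zmod_eq_zero_iff_dvd _ _).mp h4
  obtain ⟨r, hr⟩ := h2
  obtain ⟨q, hq⟩ := h
  have h5 : C (C q) ∈ singIdeal N := by
    have h6 : C (C q) = C (C q) * i + r * C (C (badNumber N)) := by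
      rw [hq, C_mul, C_mul]
      linear_combination (C (C q)) * hr
    rw [h6]
    exact Ideal.add_mem _ (Ideal.mul_mem_left _ _ hi) (Ideal.mul_mem_left _ _ (badNumber_mem N))
  obtain ⟨s, hs⟩ := badNumber_dvd h5
  have h0 := badNumber_ne_zero hN
  have hq0 : q ≠ 0 := by rintro rfl; apply h0; rw [hq, mul_zero]
  have h7 : q * 1 = q * (p * s) := by
    rw [mul_one]
    conv_lhs => rw [hs, hq]
    ring
  have h8 := mul_left_cancel₀ hq0 h7
  have h9 : (p : ℤ) ∣ 1 := ⟨s, h8⟩
  have h10 : p ∣ 1 := by exact_mod_cast h9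
  exact (Fact.out : p.Prime).one_lt.ne' (Nat.dvd_one.mp h10)

end prime

end DynBad
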