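import Pool.Agent.DynBad.PhiEv

/-!
# Module Carlitz: iterates in characteristic two

For a commutative `𝔽_2`-algebra `E` and `x ∈ E` let `MM x` be the additive map `w ↦ w^2 + x w`.
Then `F x u n = ∑_{i<n} (MM x)^i u` (in characteristic two `F_{n+1} = F_n^2 + x F_n + u`).

`MM_frob`: for `R = ∑ r_i T^i ∈ k[T]` put `Θ(R)(w) = ∑ r_i (MM ζ)^i w` (left `k`-linear in `R`).
`Θ(R T)(w) = Θ(R)(MM ζ w)`.  For `n_e = ∏_{i<e} (T - ζ^(2^i))` we get by induction
`Θ(n_{e+1})(w) = Θ(n_e)(w^2 + ζ w) - ζ^(2^e) Θ(n_e)(w) = (w^2+ζ w)^(2^e) - ζ^(2^e) w^(2^e)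
= w^(2^(e+1))`.  For `P ∈ 𝔽_2[T]` we have `Θ(P) = aeval (MM ζ) P`.

`MM_surj`, `MM_ker`: for `P ≠ 0` of degree `e`, `w ↦ aeval (MM x) P w` is a polynomial function of
`w`, the polynomial being monic of degree `2^e`, divisible by `w`, with coefficient of `w` equal to
`P(x)` (induction; e.g. show that `aeval (MM x) P w = eval w A` with
`A = ∑_{i ≤ e} C (c_i) * X^(2^i)`, `c_e = 1`, `c_0 = aeval x P`; write `A_P` for the polynomial,
`A_{T P} = A_P^2 + x A_P`).  For `k` algebraically closed `A - w_0` has a root (surjectivity), and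
if `P(x) ≠ 0`, `e ≥ 1`, then `A / X` has degree `2^e - 1 ≥ 1` and nonzero constant term, so it has
a nonzero root.
-/

namespace DynBad

open Polynomial Finset

section
variable {E : Type*} [CommRing E] [Algebra (ZMod 2) E]

lemma two_eq_zero_carlitz : (2 : E) = 0 := by
  have h := map_ofNat (algebraMap (ZMod 2) E) 2
  rw [← h, show (OfNat.ofNat 2 : ZMod 2) = 0 from rfl, map_zero]

/-- the additive map `w ↦ w^2 + x w` in characteristic two -/
noncomputable def MM (x : E) : Module.End (ZMod 2) E where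
  toFun w := w ^ 2 + x * w
  map_add' v w := by
    have h2 : (2 : E) = 0 := by
      have h := map_ofNat (algebraMap (ZMod 2) E) 2
      rw [← h, show (OfNat.ofNat 2 : ZMod 2) = 0 from rfl, map_zero]
    linear_combination (v * w) * h2
  map_smul' a w := by
    have ha : a ^ 2 = a := by revert a; decide
    simp only [Algebra.smul_def, RingHom.id_apply, mul_pow, ← map_pow, ha]; ring

@[simp] lemma MM_apply (x w : E) : MM x w = w ^ 2 + x * w := rfl

/-- `1 + T + ... + T^(n-1)` over `𝔽_2` -/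
noncomputable def Qn (n : ℕ) : (ZMod 2)[X] := ∑ i ∈ range n, X ^ i

theorem F_eq_MM (x u : E) (n : ℕ) : F x u n = aeval (MM x) (Qn n) u := by
  induction n with
  | zero => simp [F, Qn]
  | succ n ih =>
    have h1 : (Qn (n + 1) : (ZMod 2)[X]) = X * Qn n + 1 := by
      unfold Qn
      rw [sum_range_succ', mul_sum]
      simp [pow_succ']
    rw [h1]
    simp only [F, map_add, map_mul, aeval_X, map_one, LinearMap.add_apply, Module.End.mul_apply,
      Module.End.one_apply, MM_apply, ih]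

theorem aa_eq_Qn (x u : E) (n : ℕ) : aa x u n = aeval x (Qn n) := by
  have h2 : (2 : E) = 0 := two_eq_zero_carlitz
  induction n with
  | zero => simp [aa, Qn]
  | succ n ih =>
    have h1 : (Qn (n + 1) : (ZMod 2)[X]) = X * Qn n + 1 := by
      unfold Qn
      rw [sum_range_succ', mul_sum]
      simp [pow_succ']
    rw [h1]
    simp only [aa, XX, h2, zero_mul, add_zero, map_add, map_mul, aeval_X, map_one, ih]

end

section
variable {k : Type*} [Field k] [Algebra (ZMod 2) k]

/-- left `k`-linear extension -/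
noncomputable def ThetaC (ζ w : k) (R : k[X]) : k := R.sum fun i r => r * (MM ζ ^ i) w

lemma ThetaC_add (ζ w : k) (R S : k[X]) : ThetaC ζ w (R + S) = ThetaC ζ w R + ThetaC ζ w S := by
  unfold ThetaC
  rw [Polynomial.sum_add_index]
  · intro i; simp
  · intro i a b; ring

lemma ThetaC_monomial (ζ w : k) (n : ℕ) (r : k) :
    ThetaC ζ w (monomial n r) = r * (MM ζ ^ n) w := by
  unfold ThetaC
  rw [Polynomial.sum_monomial_index]; simp

lemma ThetaC_C_mul (ζ w r : k) (R : k[X]) : ThetaC ζ w (C r * R) = r * ThetaC ζ w R := by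
  induction R using Polynomial.induction_on' with
  | add p q hp hq => rw [mul_add, ThetaC_add, ThetaC_add, hp, hq]; ring
  | monomial n a => rw [C_mul_monomial, ThetaC_monomial, ThetaC_monomial]; ring

lemma ThetaC_mul_X (ζ w : k) (R : k[X]) : ThetaC ζ w (R * X) = ThetaC ζ (MM ζ w) R := by
  induction R using Polynomial.induction_on' with
  | add p q hp hq => rw [add_mul, ThetaC_add, ThetaC_add, hp, hq]
  | monomial n a =>
    rw [monomial_mul_X, ThetaC_monomial, ThetaC_monomial, pow_succ, Module.End.mul_apply]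

lemma ThetaC_sub (ζ w : k) (R S : k[X]) : ThetaC ζ w (R - S) = ThetaC ζ w R - ThetaC ζ w S := by
  have h := ThetaC_add ζ w (R - S) S
  rw [sub_add_cancel] at h
  rw [h]; ring

lemma ThetaC_map (ζ w : k) (P : (ZMod 2)[X]) :
    ThetaC ζ w (P.map (algebraMap (ZMod 2) k)) = aeval (MM ζ) P w := by
  induction P using Polynomial.induction_on' with
  | add p q hp hq => rw [Polynomial.map_add, ThetaC_add, hp, hq, map_add, LinearMap.add_apply]
  | monomial n a =>
    rw [Polynomial.map_monomial, ThetaC_monomial, aeval_monomial, Module.End.mul_apply]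
    rw [Module.algebraMap_end_apply, Algebra.smul_def]

lemma ThetaC_prod (ζ : k) (e : ℕ) : ∀ w : k,
    ThetaC ζ w (∏ i ∈ range e, (X - C (ζ ^ (2 ^ i)))) = w ^ (2 ^ e) := by
  induction e with
  | zero =>
    intro w
    have : (∏ i ∈ range 0, (X - C (ζ ^ (2 ^ i))) : k[X]) = monomial 0 1 := by simp
    rw [this, ThetaC_monomial]; simp
  | succ e ih =>
    intro w
    have hc : CharP k 2 := charP_of_injective_algebraMap (algebraMap (ZMod 2) k).injective 2
    rw [prod_range_succ, mul_sub, ThetaC_sub, ThetaC_mul_X, ih, mul_comm _ (C _), ThetaC_C_mul, ih,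
      MM_apply]
    have : ExpChar k 2 := ExpChar.prime Nat.prime_two
    rw [add_pow_expChar_pow, mul_pow, add_sub_cancel_right, ← pow_mul]
    congr 1
    rw [pow_succ]; ring

theorem MM_frob (ζ : k) (e : ℕ) (P : (ZMod 2)[X])
    (hP : P.map (algebraMap (ZMod 2) k) = ∏ i ∈ range e, (X - C (ζ ^ (2 ^ i)))) (w : k) :
    aeval (MM ζ) P w = w ^ (2 ^ e) := by
  rw [← ThetaC_map, hP, ThetaC_prod]

lemma dvd_of_aeval_eq_zero_carlitz {m q : (ZMod 2)[X]} (hm : Irreducible m) (hmonic : m.Monic)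
    {ζ : k} (hζ : aeval ζ m = 0) (h : aeval ζ q = 0) : m ∣ q := by
  rw [minpoly.eq_of_irreducible_of_monic hm hζ hmonic]
  exact minpoly.dvd _ _ h

/-- an irreducible `m ∈ 𝔽_2[T]` with root `ζ` factors as `∏_{i < deg m} (T - ζ^(2^i))` -/
theorem irreducible_map_eq (m : (ZMod 2)[X]) (hm : Irreducible m) (ζ : k) (hζ : aeval ζ m = 0) :
    m.map (algebraMap (ZMod 2) k) = ∏ i ∈ range m.natDegree, (X - C (ζ ^ (2 ^ i))) := by
  have hc : CharP k 2 := charP_of_injective_algebraMap (algebraMap (ZMod 2) k).injective 2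
  have hE : ExpChar k 2 := ExpChar.prime Nat.prime_two
  have hmonic : m.Monic := by
    have h0 : m.leadingCoeff ≠ 0 := leadingCoeff_ne_zero.mpr hm.ne_zero
    have h1 : ∀ a : ZMod 2, a ≠ 0 → a = 1 := by decide
    exact h1 _ h0
  have hroot : ∀ i : ℕ, aeval (ζ ^ (2 ^ i)) m = 0 := by
    intro i
    have h1 : (iterateFrobenius k 2 i).comp (algebraMap (ZMod 2) k) = algebraMap (ZMod 2) k :=
      Subsingleton.elim _ _
    have h2 := hom_eval₂ m (algebraMap (ZMod 2) k) (iterateFrobenius k 2 i) ζ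
    rw [h1, iterateFrobenius_def, iterateFrobenius_def, ← aeval_def, ← aeval_def, hζ] at h2
    rw [← h2]
    exact zero_pow (by positivity)
  have hinj : ∀ i ∈ range m.natDegree, ∀ j ∈ range m.natDegree, i < j →
      ζ ^ (2 ^ i) ≠ ζ ^ (2 ^ j) := by
    intro i hi j hj hij h
    obtain ⟨r, rfl⟩ : ∃ r, j = i + r := ⟨j - i, by omega⟩
    have h1 : (ζ ^ (2 ^ r)) ^ (2 ^ i) = ζ ^ (2 ^ i) := by
      rw [h, ← pow_mul]; congr 1; rw [pow_add]; ring
    have h2 : ζ ^ (2 ^ r) = ζ := by
      have := iterateFrobenius_inj k 2 i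
      apply this
      rw [iterateFrobenius_def, iterateFrobenius_def]; exact h1
    have h3 : m ∣ X ^ (Nat.card (ZMod 2)) ^ r - X := by
      have h4 : aeval ζ (X ^ (Nat.card (ZMod 2)) ^ r - X : (ZMod 2)[X]) = 0 := by
        simp [h2]
      exact (dvd_of_aeval_eq_zero_carlitz hm hmonic hζ) h4
    have h5 := hm.natDegree_dvd_of_dvd_X_pow_card_pow_sub_X h3
    have h6 := Nat.le_of_dvd (by omega) h5
    rw [mem_range] at hj
    omega
  have hinj' : Set.InjOn (fun i : ℕ => ζ ^ (2 ^ i)) (range m.natDegree : Set ℕ) := by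
    intro i hi j hj h
    rcases lt_trichotomy i j with hij | hij | hij
    · exact absurd h (hinj i hi j hj hij)
    · exact hij
    · exact absurd h.symm (hinj j hj i hi hij)
  have hdvd : (∏ i ∈ range m.natDegree, (X - C (ζ ^ (2 ^ i)))) ∣
      m.map (algebraMap (ZMod 2) k) := by
    apply Finset.prod_dvd_of_coprime
    · intro i hi j hj hij
      apply isCoprime_X_sub_C_of_isUnit_sub
      rw [isUnit_iff_ne_zero, sub_ne_zero]
      exact fun h => hij (hinj' hi hj h)
    · intro i _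
      rw [dvd_iff_isRoot, IsRoot.def, eval_map_algebraMap]
      exact hroot i
  apply eq_of_monic_of_dvd_of_natDegree_le (monic_prod_of_monic _ _ fun i _ => monic_X_sub_C _)
    (hmonic.map _) hdvd
  rw [natDegree_prod_of_monic _ _ fun i _ => monic_X_sub_C _, natDegree_map]
  rw [Finset.sum_congr rfl fun i _ => natDegree_X_sub_C _]
  simp

/-- the iterates of `MM (C x)` applied to `X` -/
noncomputable def GG (x : k) (i : ℕ) : k[X] := (MM (C x : k[X]) ^ i) X

lemma GG_zero (x : k) : GG x 0 = X := by simp [GG]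

lemma GG_succ (x : k) (i : ℕ) : GG x (i + 1) = GG x i ^ 2 + C x * GG x i := by
  unfold GG
  rw [pow_succ', Module.End.mul_apply, MM_apply]

lemma GG_coeff_zero (x : k) (i : ℕ) : (GG x i).coeff 0 = 0 := by
  induction i with
  | zero => simp [GG_zero]
  | succ i ih => rw [GG_succ]; simp [sq, mul_coeff_zero, ih]

lemma GG_coeff_one (x : k) (i : ℕ) : (GG x i).coeff 1 = x ^ i := by
  induction i with
  | zero => simp [GG_zero]
  | succ i ih =>
    rw [GG_succ, coeff_add, coeff_C_mul, ih, sq, coeff_mul,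
      Finset.Nat.antidiagonal_succ]
    simp [GG_coeff_zero, pow_succ']

lemma GG_monic (x : k) (i : ℕ) : (GG x i).Monic ∧ (GG x i).natDegree = 2 ^ i := by
  induction i with
  | zero => rw [GG_zero]; exact ⟨monic_X, natDegree_X⟩
  | succ i ih =>
    obtain ⟨h1, h2⟩ := ih
    have h3 : (GG x i ^ 2).natDegree = 2 ^ (i + 1) := by
      rw [h1.natDegree_pow, h2]; ring
    have h4 : (C x * GG x i).degree < (GG x i ^ 2).degree := by
      apply degree_lt_degree
      rw [h3]
      calc (C x * GG x i).natDegree ≤ (GG x i).natDegree := natDegree_C_mul_le _ _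
        _ = 2 ^ i := h2
        _ < 2 ^ (i + 1) := Nat.pow_lt_pow_right (by norm_num) (by omega)
    rw [GG_succ]
    refine ⟨(h1.pow 2).add_of_left h4, ?_⟩
    rw [natDegree_add_eq_left_of_degree_lt h4, h3]

/-- the polynomial attached to `P` -/
noncomputable def AC (x : k) (P : (ZMod 2)[X]) : k[X] :=
  aeval (MM (C x : k[X])) P X

lemma AC_eq (x : k) (P : (ZMod 2)[X]) :
    AC x P = ∑ i ∈ range (P.natDegree + 1), C (algebraMap (ZMod 2) k (P.coeff i)) * GG x i := by
  unfold AC
  rw [aeval_eq_sum_range, LinearMap.sum_apply]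
  apply Finset.sum_congr rfl
  intro i _
  rw [LinearMap.smul_apply, Algebra.smul_def, GG]
  rfl

lemma MM_pow_hom {E E' : Type*} [CommRing E] [Algebra (ZMod 2) E] [CommRing E']
    [Algebra (ZMod 2) E'] (φ : E →+* E') (x w : E) (n : ℕ) :
    φ ((MM x ^ n) w) = (MM (φ x) ^ n) (φ w) := by
  induction n with
  | zero => simp
  | succ n ih =>
    rw [pow_succ', pow_succ', Module.End.mul_apply, Module.End.mul_apply, MM_apply, MM_apply,
      map_add, map_pow, map_mul, ih]

lemma AC_eval (x : k) (P : (ZMod 2)[X]) (w : k) : (AC x P).eval w = aeval (MM x) P w := by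
  rw [AC_eq, eval_finsetSum, aeval_eq_sum_range, LinearMap.sum_apply]
  apply Finset.sum_congr rfl
  intro i _
  rw [LinearMap.smul_apply, Algebra.smul_def, eval_mul, eval_C, GG]
  congr 1
  have h := MM_pow_hom (evalRingHom w) (C x) X i
  simpa using h

lemma AC_monic (x : k) (P : (ZMod 2)[X]) (hP : P ≠ 0) :
    (AC x P).Monic ∧ (AC x P).natDegree = 2 ^ P.natDegree := by
  have h0 : P.leadingCoeff ≠ 0 := leadingCoeff_ne_zero.mpr hP
  have h1 : ∀ a : ZMod 2, a ≠ 0 → a = 1 := by decide
  have h2 : P.coeff P.natDegree = 1 := h1 _ h0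
  obtain ⟨g1, g2⟩ := GG_monic x P.natDegree
  have h3 : (∑ i ∈ range P.natDegree, C (algebraMap (ZMod 2) k (P.coeff i)) * GG x i).degree <
      (GG x P.natDegree).degree := by
    apply lt_of_le_of_lt (degree_sum_le _ _)
    rw [Finset.sup_lt_iff]
    · intro i hi
      apply degree_lt_degree
      rw [g2]
      calc (C (algebraMap (ZMod 2) k (P.coeff i)) * GG x i).natDegree ≤ (GG x i).natDegree :=
            natDegree_C_mul_le _ _
        _ = 2 ^ i := (GG_monic x i).2
        _ < 2 ^ P.natDegree := Nat.pow_lt_pow_right (by norm_num) (mem_range.mp hi)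
    · rw [bot_lt_iff_ne_bot, Ne, degree_eq_bot]
      exact g1.ne_zero
  rw [AC_eq, sum_range_succ, h2, map_one, C_1, one_mul]
  refine ⟨g1.add_of_right h3, ?_⟩
  rw [natDegree_add_eq_right_of_degree_lt h3, g2]

lemma AC_coeff_zero (x : k) (P : (ZMod 2)[X]) : (AC x P).coeff 0 = 0 := by
  rw [AC_eq, finsetSum_coeff]
  apply Finset.sum_eq_zero
  intro i _
  rw [coeff_C_mul, GG_coeff_zero, mul_zero]

lemma AC_coeff_one (x : k) (P : (ZMod 2)[X]) : (AC x P).coeff 1 = aeval x P := by
  rw [AC_eq, finsetSum_coeff, aeval_eq_sum_range]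
  apply Finset.sum_congr rfl
  intro i _
  rw [coeff_C_mul, GG_coeff_one, Algebra.smul_def]

theorem MM_surj [IsAlgClosed k] (x : k) (P : (ZMod 2)[X]) (hP : P ≠ 0) :
    Function.Surjective (aeval (MM x) P) := by
  intro w
  obtain ⟨h1, h2⟩ := AC_monic x P hP
  have h3 : (AC x P - C w).degree ≠ 0 := by
    have h4 : (C w).degree < (AC x P).degree := by
      apply degree_lt_degree
      rw [natDegree_C, h2]; positivity
    rw [degree_sub_eq_left_of_degree_lt h4, degree_eq_natDegree h1.ne_zero, h2]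
    simp
  obtain ⟨v, hv⟩ := IsAlgClosed.exists_root _ h3
  refine ⟨v, ?_⟩
  rw [← AC_eval]
  rw [IsRoot.def, eval_sub, eval_C, sub_eq_zero] at hv
  exact hv

theorem MM_ker [IsAlgClosed k] (x : k) (P : (ZMod 2)[X]) (hP : 1 ≤ P.natDegree)
    (hx : aeval x P ≠ 0) : ∃ w : k, w ≠ 0 ∧ aeval (MM x) P w = 0 := by
  have hP0 : P ≠ 0 := by rintro rfl; simp at hP
  obtain ⟨h1, h2⟩ := AC_monic x P hP0
  have h3 : (AC x P).divX * X = AC x P := by
    have := divX_mul_X_add (AC x P)
    rwa [AC_coeff_zero, C_0, add_zero] at this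
  have h4 : (AC x P).divX.natDegree = 2 ^ P.natDegree - 1 := by
    rw [natDegree_divX_eq_natDegree_tsub_one, h2]
  have h5 : 2 ≤ 2 ^ P.natDegree := by
    calc 2 = 2 ^ 1 := by norm_num
      _ ≤ 2 ^ P.natDegree := Nat.pow_le_pow_right (by norm_num) hP
  have h6 : (AC x P).divX.degree ≠ 0 := by
    intro h
    have := natDegree_eq_of_degree_eq_some (n := 0) (by simpa using h)
    omega
  obtain ⟨v, hv⟩ := IsAlgClosed.exists_root _ h6
  refine ⟨v, ?_, ?_⟩
  · rintro rfl
    rw [IsRoot.def, ← coeff_zero_eq_eval_zero, coeff_divX] at hv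
    exact hx (by rw [← AC_coeff_one]; exact hv)
  · rw [← AC_eval, ← h3, eval_mul, IsRoot.def.mp hv, zero_mul]

end

end DynBad
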