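import Pool.Agent.DynBad.Val

/-! # Existence of valuation subrings with prescribed centre. -/

namespace DynBad

open Polynomial

variable {K : Type*} [Field K]

theorem exists_val (B : Subring K) (P : Ideal B) [P.IsPrime] :
    ∃ V : ValuationSubring K, (∀ b ∈ B, b ∈ V) ∧ ∀ b : B, V.valuation (b : K) < 1 ↔ b ∈ P := by
  obtain ⟨V, hV⟩ := (LocalSubring.ofPrime B P).exists_le_valuationSubring
  have h1 : ∀ b ∈ B, b ∈ V := fun b hb => hV.1 (LocalSubring.le_ofPrime B P hb)
  refine ⟨V, h1, fun b => ?_⟩
  have h2 : V.valuation (b : K) < 1 ↔ ¬ IsUnit (⟨b, h1 b b.2⟩ : V) := by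
    rw [← mem_nonunits_iff, ← IsLocalRing.mem_maximalIdeal, ValuationSubring.valuation_lt_one_iff]
  have h3 : IsUnit (⟨b, h1 b b.2⟩ : V) ↔
      IsUnit (⟨b, LocalSubring.le_ofPrime B P b.2⟩ : (LocalSubring.ofPrime B P).toSubring) := by
    constructor
    · intro h
      exact hV.2.1 _ h
    · intro h
      exact h.map (Subring.inclusion hV.1)
  have h4 : IsUnit (⟨b, LocalSubring.le_ofPrime B P b.2⟩ : (LocalSubring.ofPrime B P).toSubring) ↔
      b ∉ P := by
    have := IsLocalization.AtPrime.isUnit_to_map_iff (LocalSubring.ofPrime B P).toSubring P b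
    exact this
  rw [h2, h3, h4, not_not]

theorem exists_val_subalgebra {R : Type*} [CommRing R] [Algebra R K] (S : Subalgebra R K)
    (P : Ideal S) [P.IsPrime] :
    ∃ V : ValuationSubring K, Le S V ∧ ∀ b : S, V.valuation (b : K) < 1 ↔ b ∈ P :=
  exists_val S.toSubring P

/-- an element lying in all valuation subrings containing the subring `B` is integral over `B` -/
theorem isIntegral_of_forall_val (B : Subring K) (z : K)
    (h : ∀ V : ValuationSubring K, (∀ b ∈ B, b ∈ V) → z ∈ V) : IsIntegral B z := by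
  have h1 := iInf_valuationSubring_superset (K := K) (s := (B : Set K))
  have h2 : z ∈ (⨅ V : {V : ValuationSubring K // (B : Set K) ⊆ V.toSubring},
      V.1.toSubring) := by
    rw [Subring.mem_iInf]
    rintro ⟨V, hV⟩
    exact h V hV
  rw [h1] at h2
  have h3 : IsIntegral (Subring.closure (B : Set K)) z := h2
  rwa [Subring.closure_eq] at h3

theorem isIntegral_of_forall_val_subalgebra {R : Type*} [CommRing R] [Algebra R K]
    (S : Subalgebra R K) (z : K) (h : ∀ V : ValuationSubring K, Le S V → z ∈ V) :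
    IsIntegral S z :=
  isIntegral_of_forall_val S.toSubring z h

/-- valuation subrings are integrally closed -/
theorem mem_of_isIntegral {B : Subring K} (V : ValuationSubring K) (hV : ∀ b ∈ B, b ∈ V) {z : K}
    (hz : IsIntegral B z) : z ∈ V := by
  have h1 : IsIntegral V z := by
    obtain ⟨P, hP, hP0⟩ := hz
    refine ⟨P.map (Subring.inclusion (show B ≤ V.toSubring from hV)), hP.map _, ?_⟩
    rw [eval₂_map]
    exact hP0
  obtain ⟨y, hy⟩ := IsIntegrallyClosed.isIntegral_iff.mp h1
  rw [← hy]
  exact y.2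

theorem mem_of_isIntegral_subalgebra {R : Type*} [CommRing R] [Algebra R K] {S : Subalgebra R K}
    (V : ValuationSubring K) (hV : Le S V) {z : K} (hz : IsIntegral S z) : z ∈ V :=
  mem_of_isIntegral (B := S.toSubring) V hV hz

/-- if `x` is not integral over `ℤ`, some valuation subring does not contain `x` -/
theorem exists_val_notMem {x : K} (hx : ¬ IsIntegral ℤ x) : ∃ V : ValuationSubring K, x ∉ V := by
  by_contra hcon
  push Not at hcon
  apply hx
  have h := isIntegral_of_forall_val (⊥ : Subring K) x (fun V _ => hcon V)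
  obtain ⟨P, hP, hP0⟩ := h
  have hs : Function.Surjective (Int.castRingHom (⊥ : Subring K)) := by
    rintro ⟨y, hy⟩
    obtain ⟨n, hn⟩ := Subring.mem_bot.mp hy
    exact ⟨n, Subtype.ext (by simpa using hn)⟩
  obtain ⟨Q, hQ, hQd, hQm⟩ := Polynomial.lifts_and_natDegree_eq_and_monic
    (p := P) (f := Int.castRingHom (⊥ : Subring K))
    ((Polynomial.lifts_iff_coeff_lifts P).mpr fun n => by
      obtain ⟨a, ha⟩ := hs (P.coeff n)
      exact ⟨a, ha⟩) hP
  refine ⟨Q, hQm, ?_⟩
  rw [← hP0, ← hQ, eval₂_map]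
  congr 1

end DynBad
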