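import Pool.Agent.DynBad.ChartGen
import Pool.Agent.DynBad.EtaleNormal
import Pool.Agent.DynBad.ValExist

/-!
# Module ClosedPt: local rings of an étale chart at closed points of the special fibre

`O = loc V S`, `v(p) < 1`, all residue classes algebraic over `𝔽_p`.

Structure.  By `primes_mem` applied to `𝔭 = {f : v(f(t)) < 1}`: the first alternative is excluded
(`T^(p^n) - T ∈ 𝔭` as the class of `t` is algebraic, and it is not divisible by `p`), so there is
`g ∈ 𝔭`, not divisible by `p`, with `𝔭 = (p, g)`.  Put `τ = g(t)`.  By `etale_max` the maximal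
ideal of `O` is `(p, τ)`.  `O/pO` is a Noetherian local ring with maximal ideal `(τ̄)`, and `τ̄` is
not a zero divisor (`etale_flat`), in particular not nilpotent (`O/pO ≠ 0`).  By Krull's
intersection theorem every nonzero element of `O/pO` is `τ̄^n w̄` with `w̄` a unit; so `O/pO` is a
domain, `p` is a prime element of `O`.
`D := O_{(p)} = {a/b : a, b ∈ O, b ∉ pO}`: a Noetherian local domain with maximal ideal
`(p)`, so a valuation ring (either directly, or take a valuation ring `D` dominating this local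
ring (exists, `LocalSubring`), note `D` is not closed on `S`: the class of `t` in `D` is
transcendental since `f(t) ∉ pO` for every `f` not divisible by `p` (`etale_flat` with `z = 1`),
and then `D = loc D S` by `chart_gen`).
`D`-units in `O` are exactly `O ∖ pO`: `pD` : if `z ∈ O`, `v_D(z) < 1` then `z ∈ pO`.
`order`: see above.
`uniq`: if `D' ⊇ O`, `v_{D'}(p) < 1`, `D'` not closed on `S`: by `chart_gen` `𝔪_{D'} = p D'`, and
`P' = 𝔪_{D'} ∩ O` is a prime of `O` containing `p`; `O/pO` is a domain with only two primes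
(every nonzero element is `τ̄^n unit`), `0` and the maximal ideal; `P'` is not the maximal ideal as
`D'` is not closed on `S` (`𝔪_O ⊆ 𝔪_{D'}` would make all residue classes of `S` in `D'`
algebraic).  So `P' = pO` and for `s ∈ S`, `v_{D'}(s) = 1 ↔ s ∉ pO ↔ v_D(s) = 1`, so
`loc D' S = loc D S` and `D' = D` by `chart_gen` (both are `loc`).
`hartogs`: let `h ∈ D` and `h ∈ V'` for all valuation rings `V' ⊇ O` with `v'(p) = 1`.  Ideal of
denominators `I = {b ∈ O : b h ∈ O}`.  If some prime `𝔮 ⊇ I` of `O` does not contain `p`: choose a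
valuation ring `V'` dominating `O_𝔮`; `V' ⊇ O ⊇ S`, `v'(p) = 1`, by `chart_zero` `V' = loc V' S`
so `V' = O_𝔮` and `h ∈ O_𝔮` gives an element of `I` outside `𝔮`, contradiction.  So every prime
containing `I` contains `p`, `p ∈ √I`, `p^n h ∈ O`.  As `h ∈ D`, `h = a/b`, `a, b ∈ O`,
`v_D(b) = 1`, so `b (p^n h) = p^n a` with `b ∉ pO`, and `p` prime in `O` gives `p^n ∣ p^n h` in `O`,
i.e. `h ∈ O`.
-/

namespace DynBad

open Polynomial

variable {p : ℕ} [Fact p.Prime] {K : Type*} [Field K] [CharZero K] [Algebra ℤ_[p] K]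

/-- the local ring `O = loc V S` at a closed point, `D` = generic point of its component of the
special fibre, `τ` = local parameter of that component -/
structure ClosedPt (V : ValuationSubring K) (S : Subalgebra ℤ_[p] K) (D : ValuationSubring K)
    (τ : K) : Prop where
  sub : ∀ z ∈ loc V S, z ∈ D
  valp : D.valuation (p : K) < 1
  gen : ¬ Closed D S
  t_mem : τ ∈ loc V S
  t_lt : V.valuation τ < 1
  t_unit : D.valuation τ = 1
  max : ∀ z ∈ loc V S, V.valuation z < 1 → ∃ a ∈ loc V S, ∃ b ∈ loc V S, z = p * a + τ * b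
  pD : ∀ z ∈ loc V S, D.valuation z < 1 → ∃ w ∈ loc V S, z = p * w
  order : ∀ z ∈ loc V S, D.valuation z = 1 →
    ∃ n : ℕ, ∃ w ∈ loc V S, V.valuation w = 1 ∧ ∃ c ∈ loc V S, z = τ ^ n * w + p * c
  uniq : ∀ D' : ValuationSubring K, (∀ z ∈ loc V S, z ∈ D') → D'.valuation (p : K) < 1 →
    ¬ Closed D' S → D' = D
  hartogs : ∀ h : K, h ∈ D →
    (∀ V' : ValuationSubring K, (∀ z ∈ loc V S, z ∈ V') → V'.valuation (p : K) = 1 → h ∈ V') →
    h ∈ loc V S

section aux

omit [Fact p.Prime] [CharZero K] [Algebra ℤ_[p] K]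

private lemma val_add_lt (V : ValuationSubring K) {a b : K} (ha : V.valuation a < 1)
    (hb : V.valuation b < 1) : V.valuation (a + b) < 1 :=
  (V.valuation.map_add a b).trans_lt (max_lt ha hb)

private lemma val_mul_lt_left (V : ValuationSubring K) {a b : K} (ha : V.valuation a < 1)
    (hb : b ∈ V) : V.valuation (a * b) < 1 := by
  rw [map_mul]
  exact mul_lt_one_of_nonneg_of_lt_one_left zero_le ha ((V.valuation_le_one_iff b).mpr hb)

private lemma val_mul_lt_right (V : ValuationSubring K) {a b : K} (ha : a ∈ V)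
    (hb : V.valuation b < 1) : V.valuation (a * b) < 1 := by
  rw [mul_comm]
  exact val_mul_lt_left V hb ha

private lemma val_eq_one_or_lt (V : ValuationSubring K) {a : K} (ha : a ∈ V) :
    V.valuation a = 1 ∨ V.valuation a < 1 :=
  ((V.valuation_le_one_iff a).mpr ha).eq_or_lt

private lemma mem_of_lt (V : ValuationSubring K) {a : K} (ha : V.valuation a < 1) : a ∈ V :=
  (V.valuation_le_one_iff a).mp ha.le

end aux

section loc
variable {R L : Type*} [CommRing R] [Field L] [Algebra R L]

/-- the submonoid of elements of `S` which are units of `V` -/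
private def unitsOf (V : ValuationSubring L) (S : Subalgebra R L) : Submonoid S where
  carrier := {s | V.valuation (s : L) = 1}
  mul_mem' := by
    intro a b ha hb
    simp only [Set.mem_ofPred_eq] at *
    simp [ha, hb]
  one_mem' := by simp

private lemma loc_noeth [IsNoetherianRing R] (S : Subalgebra R L) (hfg : S.FG)
    (V : ValuationSubring L) : IsNoetherianRing (loc V S) := by
  have : Algebra.FiniteType R S := S.fg_iff_finiteType.mp hfg
  have : IsNoetherianRing S := Algebra.FiniteType.isNoetherianRing R S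
  let _ : Algebra S (loc V S) :=
    (Subring.inclusion (S := S.toSubring) (T := loc V S) (fun z hz => le_loc V S hz)).toAlgebra
  have hmap : ∀ s : S, ((algebraMap S (loc V S) s : loc V S) : L) = s := fun s => rfl
  have : IsLocalization (unitsOf V S) (loc V S) := by
    refine ⟨?_, ?_, ?_⟩
    · rintro ⟨s, hs⟩
      have hs1 : V.valuation (s : L) = 1 := hs
      have hs0 : (s : L) ≠ 0 := by
        intro h
        rw [h] at hs1
        simp at hs1
      refine IsUnit.of_mul_eq_one ⟨(s : L)⁻¹, loc_inv (le_loc V S s.2) hs1⟩ ?_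
      apply Subtype.ext
      change ((algebraMap S (loc V S) s : loc V S) : L) * (s : L)⁻¹ = 1
      rw [hmap]
      exact mul_inv_cancel₀ hs0
    · rintro ⟨z, a, ha, b, hb, hb1, hab⟩
      refine ⟨⟨⟨a, ha⟩, ⟨⟨b, hb⟩, hb1⟩⟩, ?_⟩
      apply Subtype.ext
      exact hab
    · intro x y hxy
      refine ⟨1, ?_⟩
      have h1 : ((algebraMap S (loc V S) x : loc V S) : L) = (algebraMap S (loc V S) y : loc V S) :=
        congrArg Subtype.val hxy
      rw [hmap, hmap] at h1
      rw [Subtype.ext h1]
  exact IsLocalization.isNoetherianRing (unitsOf V S) (loc V S) inferInstance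

private lemma loc_isLocalRing (S : Subalgebra R L) (V : ValuationSubring L) (hSV : Le S V) :
    IsLocalRing (loc V S) := by
  have hu : ∀ z : loc V S, ¬ IsUnit z ↔ V.valuation (z : L) < 1 := by
    intro z
    constructor
    · intro h
      rcases val_eq_one_or_lt V (loc_le hSV z.2) with h1 | h1
      · exfalso
        apply h
        have hz0 : (z : L) ≠ 0 := by
          intro h
          rw [h] at h1
          simp at h1
        exact IsUnit.of_mul_eq_one ⟨(z : L)⁻¹, loc_inv z.2 h1⟩ (Subtype.ext (mul_inv_cancel₀ hz0))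
      · exact h1
    · intro h1 h
      obtain ⟨w, hw⟩ := h.exists_right_inv
      have hw' : (z : L) * (w : L) = 1 := congrArg Subtype.val hw
      have := val_mul_lt_left V h1 (loc_le hSV w.2)
      rw [hw'] at this
      simp at this
  refine IsLocalRing.of_nonunits_add ?_
  intro a b ha hb
  rw [mem_nonunits_iff, hu] at *
  exact val_add_lt V ha hb

end loc

section prime
omit [CharZero K]

/-- the prime ideal of polynomials `f` with `v(f(t)) < 1` -/
private def cen (S : Subalgebra ℤ_[p] K) (V : ValuationSubring K) (hSV : Le S V) (t : S) :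
    Ideal ℤ_[p][X] where
  carrier := {f | V.valuation (aeval (t : K) f) < 1}
  add_mem' := by
    intro a b ha hb
    simp only [Set.mem_ofPred_eq, map_add] at *
    exact val_add_lt V ha hb
  zero_mem' := by simp
  smul_mem' := by
    intro c f hf
    simp only [Set.mem_ofPred_eq, smul_eq_mul, map_mul] at *
    rw [← map_mul]
    refine val_mul_lt_right V (hSV _ ?_) hf
    have : aeval (t : K) c = ((aeval t c : S) : K) := by
      rw [← Subalgebra.coe_val, ← Polynomial.aeval_algHom_apply]
    rw [this]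
    exact (aeval t c : S).2

end prime

omit [CharZero K] in
private lemma aeval_mem (S : Subalgebra ℤ_[p] K) (t : S) (c : ℤ_[p][X]) :
    aeval (t : K) c ∈ S := by
  have : aeval (t : K) c = ((aeval t c : S) : K) := by
    rw [← Subalgebra.coe_val, ← Polynomial.aeval_algHom_apply]
  rw [this]
  exact (aeval t c : S).2

private lemma not_dvd_frob (n : ℕ) (hn : 1 ≤ n) :
    ¬ (C (p : ℤ_[p]) : ℤ_[p][X]) ∣ (X ^ p ^ n - X) := by
  intro h
  rw [C_dvd_iff_dvd_coeff] at h
  have h1 := h (p ^ n)
  have hp : 1 < p := (Fact.out : p.Prime).one_lt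
  have h2 : p ^ n ≠ 1 := by
    have := Nat.one_lt_pow (show n ≠ 0 by omega) hp
    omega
  rw [coeff_sub, coeff_X_pow, coeff_X, if_pos rfl, if_neg (Ne.symm h2), sub_zero] at h1
  exact (PadicInt.prime_p (p := p)).not_isUnit (isUnit_of_dvd_one h1)

/-- part 1: `p` is a prime element, the maximal ideal is `(p, τ)`, and the `τ`-order mod `p` -/
theorem closedPt_struct (S : Subalgebra ℤ_[p] K) (hS : EtaleChart S) (V : ValuationSubring K)
    (hSV : Le S V) (hp : V.valuation (p : K) < 1) (hc : Closed V S) :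
    ∃ τ ∈ loc V S, V.valuation τ < 1 ∧
      (∀ z ∈ loc V S, V.valuation z < 1 → ∃ a ∈ loc V S, ∃ b ∈ loc V S, z = p * a + τ * b) ∧
      (∀ z ∈ loc V S, (¬ ∃ w ∈ loc V S, z = p * w) →
        ∃ n : ℕ, ∃ w ∈ loc V S, V.valuation w = 1 ∧ ∃ c ∈ loc V S, z = τ ^ n * w + p * c) ∧
      (∀ n : ℕ, ¬ ∃ w ∈ loc V S, τ ^ n = p * w) ∧
      (∀ z ∈ loc V S, ∀ z' ∈ loc V S, (∃ w ∈ loc V S, z * z' = p * w) →
        (∃ w ∈ loc V S, z = p * w) ∨ ∃ w ∈ loc V S, z' = p * w) := by
  classical
  obtain ⟨t, ht⟩ := hS.etale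
  have hpO : (p : K) ∈ loc V S := natCast_mem _ p
  -- the prime ideal
  have hPC : ∀ f : ℤ_[p][X], f ∈ cen S V hSV t ↔ V.valuation (aeval (t : K) f) < 1 :=
    fun f => Iff.rfl
  have hprime : (cen S V hSV t).IsPrime := by
    refine ⟨?_, ?_⟩
    · intro h
      have h1 : (1 : ℤ_[p][X]) ∈ cen S V hSV t := by rw [h]; trivial
      rw [hPC] at h1
      simp at h1
    · intro a b hab
      rw [hPC, map_mul, map_mul] at hab
      rw [hPC, hPC]
      rcases val_eq_one_or_lt V (hSV _ (aeval_mem S t a)) with h1 | h1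
      · right
        rwa [h1, one_mul] at hab
      · exact Or.inl h1
  have hpP : (C (p : ℤ_[p]) : ℤ_[p][X]) ∈ cen S V hSV t := by
    rw [hPC, aeval_C, map_natCast]
    exact hp
  obtain ⟨g, hgP, hgd, hgen⟩ : ∃ g ∈ cen S V hSV t, ¬ (C (p : ℤ_[p]) : ℤ_[p][X]) ∣ g ∧
        ∀ f ∈ cen S V hSV t, ∃ a b : ℤ_[p][X], f = C (p : ℤ_[p]) * a + g * b := by
    rcases primes_mem _ hprime hpP with h | h
    · exfalso
      obtain ⟨n, hn, hn1⟩ := hc t t.2
      refine not_dvd_frob (p := p) n hn (h _ ?_)
      rw [hPC]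
      simpa using hn1
    · exact h.2
  set τ : K := aeval (t : K) g with hτdef
  have hτ : τ ∈ loc V S := le_loc V S (aeval_mem S t g)
  have hτ1 : V.valuation τ < 1 := hgP
  -- the maximal ideal
  have hmax : ∀ z ∈ loc V S, V.valuation z < 1 →
      ∃ a ∈ loc V S, ∃ b ∈ loc V S, z = p * a + τ * b := by
    intro z hz hz1
    have h1 := etale_max S hS t ht V hSV z hz hz1
    clear hz hz1
    induction h1 using Submodule.span_induction with
    | mem x hx =>
      obtain ⟨f, rfl, hf⟩ := hx
      obtain ⟨a, b, hab⟩ := hgen f hf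
      refine ⟨aeval (t : K) a, le_loc V S (aeval_mem S t a), aeval (t : K) b,
        le_loc V S (aeval_mem S t b), ?_⟩
      rw [hab, map_add, map_mul, map_mul, aeval_C, map_natCast]
    | zero => exact ⟨0, zero_mem _, 0, zero_mem _, by simp⟩
    | add x y _ _ hx hy =>
      obtain ⟨a, ha, b, hb, rfl⟩ := hx
      obtain ⟨a', ha', b', hb', rfl⟩ := hy
      exact ⟨a + a', add_mem ha ha', b + b', add_mem hb hb', by ring⟩
    | smul c x _ hx =>
      obtain ⟨a, ha, b, hb, rfl⟩ := hx
      refine ⟨c * a, mul_mem c.2 ha, c * b, mul_mem c.2 hb, ?_⟩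
      rw [Subring.smul_def, smul_eq_mul]
      ring
  -- powers of `τ` are not divisible by `p`
  have hpow : ∀ n : ℕ, ¬ ∃ w ∈ loc V S, τ ^ n = p * w := by
    intro n
    induction n with
    | zero =>
      rintro ⟨w, hw, h⟩
      have h1 := val_mul_lt_left V hp (loc_le hSV hw)
      rw [← h] at h1
      simp at h1
    | succ n ih =>
      intro h
      apply ih
      refine etale_flat S hS t ht V hSV g hgd _ (pow_mem hτ n) ?_
      obtain ⟨w, hw, h⟩ := h
      exact ⟨w, hw, by rw [← h, pow_succ']⟩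
  -- orders
  have hord : ∀ z ∈ loc V S, (¬ ∃ w ∈ loc V S, z = p * w) →
        ∃ n : ℕ, ∃ w ∈ loc V S, V.valuation w = 1 ∧ ∃ c ∈ loc V S, z = τ ^ n * w + p * c := by
    intro z hz hzp
    by_contra hcon
    have hstep : ∀ n : ℕ, ∃ w ∈ loc V S, ∃ c ∈ loc V S, z = τ ^ n * w + p * c := by
      intro n
      induction n with
      | zero => exact ⟨z, hz, 0, zero_mem _, by ring⟩
      | succ n ih =>
        obtain ⟨w, hw, c, hc', h⟩ := ih
        rcases val_eq_one_or_lt V (loc_le hSV hw) with h1 | h1
        · exact absurd ⟨n, w, hw, h1, c, hc', h⟩ hcon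
        · obtain ⟨a, ha, b, hb, hab⟩ := hmax w hw h1
          refine ⟨b, hb, c + τ ^ n * a, add_mem hc' (mul_mem (pow_mem hτ n) ha), ?_⟩
          rw [h, hab]
          ring
    have := loc_noeth S hS.fg V
    have := loc_isLocalRing S V hSV
    let P : Ideal (loc V S) := Ideal.span {(⟨p, hpO⟩ : loc V S)}
    have hPne : P ≠ ⊤ := by
      intro h
      rw [Ideal.span_singleton_eq_top] at h
      obtain ⟨w, hw⟩ := h.exists_right_inv
      have hw' : (p : K) * (w : K) = 1 := congrArg Subtype.val hw
      have h1 := val_mul_lt_left V hp (loc_le hSV w.2)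
      rw [hw'] at h1
      simp at h1
    have : Nontrivial (loc V S ⧸ P) := Ideal.Quotient.nontrivial_iff.mpr hPne
    have : IsLocalRing (loc V S ⧸ P) := IsLocalRing.of_surjective' (Ideal.Quotient.mk P)
      Ideal.Quotient.mk_surjective
    let I : Ideal (loc V S ⧸ P) := Ideal.span {Ideal.Quotient.mk P ⟨τ, hτ⟩}
    have hI : I ≠ ⊤ := by
      intro h
      rw [Ideal.span_singleton_eq_top] at h
      obtain ⟨w, hw⟩ := h.exists_right_inv
      obtain ⟨w, rfl⟩ := Ideal.Quotient.mk_surjective w
      rw [← map_mul, ← map_one (Ideal.Quotient.mk P), Ideal.Quotient.eq,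
        Ideal.mem_span_singleton] at hw
      obtain ⟨c, hc'⟩ := hw
      have hw' : τ * (w : K) - 1 = p * c := congrArg Subtype.val hc'
      have h1 : (1 : K) = τ * w + p * (-c) := by linear_combination -hw'
      have h2 := val_add_lt V (val_mul_lt_left V hτ1 (loc_le hSV w.2))
        (val_mul_lt_left V hp (neg_mem (loc_le hSV c.2)))
      rw [← h1] at h2
      simp at h2
    have hbot := Ideal.iInf_pow_eq_bot_of_isLocalRing I hI
    have hz0 : Ideal.Quotient.mk P ⟨z, hz⟩ ∈ (⨅ i : ℕ, I ^ i) := by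
      rw [Ideal.mem_iInf]
      intro n
      obtain ⟨w, hw, c, hc', h⟩ := hstep n
      rw [Ideal.span_singleton_pow, Ideal.mem_span_singleton]
      refine ⟨Ideal.Quotient.mk P ⟨w, hw⟩, ?_⟩
      rw [← map_pow, ← map_mul, Ideal.Quotient.eq, Ideal.mem_span_singleton]
      refine ⟨⟨c, hc'⟩, Subtype.ext ?_⟩
      change z - τ ^ n * w = p * c
      rw [h]
      ring
    rw [hbot, Ideal.mem_bot, Ideal.Quotient.eq_zero_iff_mem, Ideal.mem_span_singleton] at hz0
    obtain ⟨w, hw⟩ := hz0
    exact hzp ⟨w, w.2, congrArg Subtype.val hw⟩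
  refine ⟨τ, hτ, hτ1, hmax, hord, hpow, ?_⟩
  intro z hz z' hz' hzz
  by_contra hcon
  push Not at hcon
  obtain ⟨n, w, hw, hw1, c, hc', h⟩ := hord z hz (by
    rintro ⟨w, hw, h⟩
    exact hcon.1 w hw h)
  obtain ⟨n', w', hw', hw1', c', hc'', h'⟩ := hord z' hz' (by
    rintro ⟨w, hw, h⟩
    exact hcon.2 w hw h)
  obtain ⟨e, he, hee⟩ := hzz
  have hww : V.valuation (w * w') = 1 := by rw [map_mul, hw1, hw1', one_mul]
  have hww0 : w * w' ≠ 0 := by
    intro h0
    rw [h0] at hww
    simp at hww
  have hinv := loc_inv (mul_mem hw hw') hww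
  refine hpow (n + n') ⟨(e - c * (τ ^ n' * w') - c' * z) * (w * w')⁻¹,
    mul_mem (sub_mem (sub_mem he (mul_mem hc' (mul_mem (pow_mem hτ _) hw'))) (mul_mem hc'' hz))
      hinv, ?_⟩
  have h1 : τ ^ (n + n') * (w * w') = p * (e - c * (τ ^ n' * w') - c' * z) := by
    have h2 : z * z' = p * e := hee
    rw [h'] at h2
    rw [h] at h2 ⊢
    rw [pow_add]
    linear_combination h2
  rw [← mul_assoc, ← h1, mul_assoc, mul_inv_cancel₀ hww0, mul_one]

theorem closedPt_exists (S : Subalgebra ℤ_[p] K) (hS : EtaleChart S) (V : ValuationSubring K)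
    (hSV : Le S V) (hp : V.valuation (p : K) < 1) (hc : Closed V S) :
    ∃ D τ, ClosedPt V S D τ := by
  classical
  obtain ⟨t, ht⟩ := hS.etale
  have hpO : (p : K) ∈ loc V S := natCast_mem _ p
  have hp0 : (p : K) ≠ 0 := Nat.cast_ne_zero.mpr (Fact.out : p.Prime).ne_zero
  obtain ⟨τ, hτ, hτ1, hmax, hord, hpow, hpr⟩ := closedPt_struct S hS V hSV hp hc
  -- the prime ideal `(p)` of `O`
  let P : Ideal (loc V S) := Ideal.span {(⟨p, hpO⟩ : loc V S)}
  have hP : ∀ z : loc V S, z ∈ P ↔ ∃ w ∈ loc V S, (z : K) = p * w := by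
    intro z
    rw [Ideal.mem_span_singleton]
    constructor
    · rintro ⟨w, hw⟩
      exact ⟨w, w.2, congrArg Subtype.val hw⟩
    · rintro ⟨w, hw, h⟩
      exact ⟨⟨w, hw⟩, Subtype.ext h⟩
  have hPprime : P.IsPrime := by
    refine ⟨?_, ?_⟩
    · intro h
      have h1 : (1 : loc V S) ∈ P := by rw [h]; trivial
      rw [hP] at h1
      exact hpow 0 (by simpa using h1)
    · intro a b hab
      rw [hP] at hab ⊢
      rw [hP]
      exact hpr a a.2 b b.2 hab
  obtain ⟨D, hOD, hDP⟩ := exists_val (loc V S) P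
  have hDlt : ∀ z ∈ loc V S, D.valuation z < 1 ↔ ∃ w ∈ loc V S, z = p * w := by
    intro z hz
    rw [← hP ⟨z, hz⟩]
    exact hDP ⟨z, hz⟩
  have hDp : D.valuation (p : K) < 1 := by
    rw [hDlt _ hpO]
    exact ⟨1, one_mem _, by ring⟩
  have hSD : Le S D := fun z hz => hOD z (le_loc V S hz)
  have hDc : ¬ Closed D S := by
    intro h
    obtain ⟨n, hn, h1⟩ := h t t.2
    rw [hDlt _ (sub_mem (pow_mem (le_loc V S t.2) _) (le_loc V S t.2))] at h1
    obtain ⟨w, hw, h1⟩ := h1
    have h2 := etale_flat S hS t ht V hSV (X ^ p ^ n - X) (not_dvd_frob n hn) 1 (one_mem _)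
      ⟨w, hw, by simpa using h1⟩
    exact hpow 0 (by simpa using h2)
  have hDτ : D.valuation τ = 1 := by
    rcases val_eq_one_or_lt D (hOD τ hτ) with h | h
    · exact h
    · exfalso
      rw [hDlt _ hτ] at h
      exact hpow 1 (by simpa using h)
  obtain ⟨hDloc, -⟩ := chart_gen S hS D hSD hDp hDc
  refine ⟨D, τ, hOD, hDp, hDc, hτ, hτ1, hDτ, hmax, fun z hz hz1 => (hDlt z hz).mp hz1, ?_, ?_, ?_⟩
  · -- order
    intro z hz hz1
    refine hord z hz ?_
    intro h
    rw [← hDlt z hz, hz1] at h
    exact lt_irrefl _ h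
  · -- uniqueness
    intro D' hOD' hD'p hD'c
    have hSD' : Le S D' := fun z hz => hOD' z (le_loc V S hz)
    obtain ⟨hD'loc, -⟩ := chart_gen S hS D' hSD' hD'p hD'c
    have hτ' : D'.valuation τ = 1 := by
      rcases val_eq_one_or_lt D' (hOD' τ hτ) with h | h
      · exact h
      · exfalso
        apply hD'c
        intro s hs
        obtain ⟨n, hn, h1⟩ := hc s hs
        refine ⟨n, hn, ?_⟩
        obtain ⟨a, ha, b, hb, hab⟩ := hmax _
          (sub_mem (pow_mem (le_loc V S hs) _) (le_loc V S hs)) h1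
        rw [hab]
        exact val_add_lt D' (val_mul_lt_left D' hD'p (hOD' a ha))
          (val_mul_lt_left D' h (hOD' b hb))
    have hD'lt : ∀ z ∈ loc V S, D'.valuation z < 1 ↔ ∃ w ∈ loc V S, z = p * w := by
      intro z hz
      constructor
      · intro h1
        by_contra hcon
        obtain ⟨n, w, hw, hw1, c, hc', h⟩ := hord z hz hcon
        have hw0 : w ≠ 0 := by
          intro h0
          rw [h0] at hw1
          simp at hw1
        have hw' : D'.valuation w = 1 := by
          rcases val_eq_one_or_lt D' (hOD' w hw) with h2 | h2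
          · exact h2
          · exfalso
            have h3 := val_mul_lt_left D' h2 (hOD' _ (loc_inv hw hw1))
            rw [mul_inv_cancel₀ hw0] at h3
            simp at h3
        have h4 : D'.valuation (τ ^ n * w) < 1 := by
          have h5 : τ ^ n * w = z + p * (-c) := by rw [h]; ring
          rw [h5]
          exact val_add_lt D' h1 (val_mul_lt_left D' hD'p (hOD' _ (neg_mem hc')))
        rw [map_mul, map_pow, hτ', hw'] at h4
        simp at h4
      · rintro ⟨w, hw, rfl⟩
        exact val_mul_lt_left D' hD'p (hOD' w hw)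
    have hone : ∀ s ∈ S, D'.valuation s = 1 ↔ D.valuation s = 1 := by
      intro s hs
      have hs' := le_loc V S hs
      have h1 := hD'lt s hs'
      rw [← hDlt s hs'] at h1
      rcases val_eq_one_or_lt D (hOD s hs') with h2 | h2
      · rcases val_eq_one_or_lt D' (hOD' s hs') with h3 | h3
        · exact ⟨fun _ => h2, fun _ => h3⟩
        · exact absurd (h1.mp h3) (by rw [h2]; exact lt_irrefl _)
      · have h3 := h1.mpr h2
        exact ⟨fun h => absurd h h3.ne, fun h => absurd h h2.ne⟩
    apply le_antisymm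
    · intro z hz
      obtain ⟨a, ha, b, hb, hb1, hab⟩ := hD'loc z hz
      exact loc_le hSD ⟨a, ha, b, hb, (hone b hb).mp hb1, hab⟩
    · intro z hz
      obtain ⟨a, ha, b, hb, hb1, hab⟩ := hDloc z hz
      exact loc_le hSD' ⟨a, ha, b, hb, (hone b hb).mpr hb1, hab⟩
  · -- Hartogs
    intro h hh hV'
    -- the ideal of denominators
    let I : Ideal (loc V S) :=
      { carrier := {b | (b : K) * h ∈ loc V S}
        add_mem' := by
          intro a b ha hb
          simp only [Set.mem_ofPred_eq] at *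
          have : ((a + b : loc V S) : K) * h = a * h + b * h := by push_cast; ring
          rw [this]
          exact add_mem ha hb
        zero_mem' := by simp
        smul_mem' := by
          intro c b hb
          simp only [Set.mem_ofPred_eq, smul_eq_mul] at *
          have : ((c * b : loc V S) : K) * h = c * (b * h) := by push_cast; ring
          rw [this]
          exact mul_mem c.2 hb }
    have hI : ∀ b : loc V S, b ∈ I ↔ (b : K) * h ∈ loc V S := fun b => Iff.rfl
    have hrad : (⟨p, hpO⟩ : loc V S) ∈ I.radical := by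
      rw [Ideal.radical_eq_sInf, Ideal.mem_sInf]
      rintro Q ⟨hIQ, hQ⟩
      by_contra hpQ
      obtain ⟨V', hOV', hV'Q⟩ := exists_val (loc V S) Q
      have hV'p : V'.valuation (p : K) = 1 := by
        rcases val_eq_one_or_lt V' (hOV' _ hpO) with h1 | h1
        · exact h1
        · exact absurd ((hV'Q ⟨p, hpO⟩).mp h1) hpQ
      have hSV' : Le S V' := fun z hz => hOV' z (le_loc V S hz)
      obtain ⟨a, ha, b, hb, hb1, hab⟩ := chart_zero S hS V' hSV' hV'p h (hV' V' hOV' hV'p)
      have hbI : (⟨b, le_loc V S hb⟩ : loc V S) ∈ I := by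
        rw [hI]
        change b * h ∈ loc V S
        rw [mul_comm, hab]
        exact le_loc V S ha
      have h2 := (hV'Q ⟨b, le_loc V S hb⟩).mpr (hIQ hbI)
      change V'.valuation b < 1 at h2
      rw [hb1] at h2
      exact lt_irrefl _ h2
    obtain ⟨n, hn⟩ := hrad
    have hn' : (p : K) ^ n * h ∈ loc V S := hn
    clear hn
    obtain ⟨a, ha, b, hb, hb1, hab⟩ := hDloc h hh
    induction n with
    | zero => simpa using hn'
    | succ n ih =>
      apply ih
      rcases hpr b (le_loc V S hb) _ hn'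
        ⟨p ^ n * a, mul_mem (pow_mem hpO n) (le_loc V S ha), by rw [← hab]; ring⟩ with h1 | h1
      · exfalso
        rw [← hDlt b (le_loc V S hb), hb1] at h1
        exact lt_irrefl _ h1
      · obtain ⟨w, hw, h1⟩ := h1
        have : (p : K) ^ n * h = w := by
          apply mul_left_cancel₀ hp0
          rw [← h1]
          ring
        rw [this]
        exact hw

end DynBad
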