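import Pool.Agent.DynBad.CuspCount

/-!
# Module Riemann: a nonconstant function with poles only at one cusp

`m = natDegree (Phi N) ≥ 1`, `V₀` a cusp, `𝒞'` the other cusps, `#𝒞' ≤ m - 1`.
`W_n = ` the `ℚ_p`-span of `x^i u^j`, `j < m`, `i + j ≤ n` (`n ≥ m`).  These elements are linearly
independent over `ℚ_p` (a relation gives, after clearing denominators, `P ∈ ℤ_p[X][U]` of degree
`< m` in `U` with `P(x,u) = 0`, so `Φ_N ∣ P` by `D.ker`, `P = 0`), so
`dim W_n = m (n+1) - m(m-1)/2`.  For `k ≤ n` let `F_k = {f ∈ W_n : v(f) ≤ v(x)^k ∀ V ∈ 𝒞'}`;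
`F_n = W_n` as `|u| ≤ |x|` at cusps (`cusp`).  The map `F_k → ∏_{V ∈ 𝒞'} ℚ_p`,
`f ↦` (residue of `f x^(-k)` at `V`) (`cusp_residue`) is `ℚ_p`-linear with kernel `F_{k-1}`
(`|z| < 1 ⟹ |z| ≤ |x|⁻¹`, `cusp_struct`), so `dim F_{k-1} ≥ dim F_k - (m-1)`,
`dim F_0 ≥ m(n+1) - m(m-1)/2 - n(m-1) = n + m - m(m-1)/2 ≥ 2` for large `n`.  Take
`h ∈ F_0 \ ℚ_p`.
`h ∈ V` for all `V ⊇ ℚ_p` with `x ∈ V` (then `A ≤ V`, `mem_of_x`) and for `V ∈ 𝒞'`.
`h` is transcendental over `ℤ_p`: otherwise `h` is algebraic over `ℚ_p`, so `h ∈ V₀` (integral over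
`ℚ_p ⊆ V₀`), with residue `c ∈ ℚ_p`; `h - c` is algebraic over `ℚ_p` and if nonzero its inverse is
also integral over `ℚ_p`, so in `V₀`, contradicting `|h - c| < 1`; so `h = c ∈ ℚ_p`.
-/

namespace DynBad

open Polynomial

variable {p : ℕ} [Fact p.Prime] {K : Type*} [Field K] [CharZero K] [Algebra ℤ_[p] K]
  [Algebra ℚ_[p] K] [IsScalarTower ℤ_[p] ℚ_[p] K] {N : ℕ}

omit [CharZero K] in
private lemma val_rat_le (V : ValuationSubring K) (hV : Over p V)
    (hp : V.valuation (p : K) = 1) (c : ℚ_[p]) : V.valuation (algebraMap ℚ_[p] K c) ≤ 1 := by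
  obtain ⟨k, hk⟩ : ∃ k : ℕ, ‖(p : ℚ_[p]) ^ k * c‖ ≤ 1 := by
    have hp1 : 1 < (p : ℝ) := by exact_mod_cast (Fact.out : p.Prime).one_lt
    obtain ⟨k, hk⟩ := pow_unbounded_of_one_lt ‖c‖ hp1
    refine ⟨k, ?_⟩
    rw [norm_mul, norm_pow, Padic.norm_p, inv_pow]
    rw [inv_mul_le_iff₀ (by positivity), mul_one]
    exact hk.le
  have h1 : algebraMap ℤ_[p] K ⟨(p : ℚ_[p]) ^ k * c, hk⟩ = (p : K) ^ k * algebraMap ℚ_[p] K c := by
    rw [IsScalarTower.algebraMap_apply ℤ_[p] ℚ_[p] K]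
    have : algebraMap ℤ_[p] ℚ_[p] ⟨(p : ℚ_[p]) ^ k * c, hk⟩ = (p : ℚ_[p]) ^ k * c := rfl
    rw [this, map_mul, map_pow, map_natCast]
  have h2 := (V.valuation_le_one_iff _).mpr (hV ⟨(p : ℚ_[p]) ^ k * c, hk⟩)
  rw [h1, map_mul, map_pow, hp, one_pow, one_mul] at h2
  exact h2

omit [CharZero K] in
private lemma rat_mem (V : ValuationSubring K) (hV : Over p V)
    (hp : V.valuation (p : K) = 1) (c : ℚ_[p]) : algebraMap ℚ_[p] K c ∈ V :=
  (V.valuation_le_one_iff _).mp (val_rat_le V hV hp c)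

omit [CharZero K] in
/-- the family `x^i u^j`, `i < L`, `j < deg Φ_N`, is linearly independent -/
private lemma linInd_rie (D : DynField p N K) (hN : 1 ≤ N) (L : ℕ) :
    LinearIndependent ℚ_[p] (fun ij : Fin L × Fin (Phi N).natDegree =>
      D.x ^ (ij.1 : ℕ) * D.u ^ (ij.2 : ℕ)) := by
  classical
  rw [Fintype.linearIndependent_iff]
  intro g hg
  obtain ⟨b, hb⟩ := IsLocalization.exist_integer_multiples_of_finite (nonZeroDivisors ℤ_[p]) g
  choose a ha using hb
  let P : ℤ_[p][X][X] := ∑ j : Fin (Phi N).natDegree,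
    monomial (j : ℕ) (∑ i : Fin L, monomial (i : ℕ) (a (i, j)))
  have hPe : ev D.x D.u P = 0 := by
    have h1 : ev D.x D.u P = ∑ j : Fin (Phi N).natDegree, ∑ i : Fin L,
        algebraMap ℤ_[p] K (a (i, j)) * D.x ^ (i : ℕ) * D.u ^ (j : ℕ) := by
      simp only [P, map_sum]
      refine Finset.sum_congr rfl fun j _ => ?_
      refine Finset.sum_congr rfl fun i _ => ?_
      rw [← C_mul_X_pow_eq_monomial, map_mul, map_pow, ev_X, ev_C, eval₂_monomial]
    have h2 : ∀ (i : Fin L) (j : Fin (Phi N).natDegree),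
        algebraMap ℤ_[p] K (a (i, j)) * D.x ^ (i : ℕ) * D.u ^ (j : ℕ) =
        algebraMap ℤ_[p] K b * (g (i, j) • (D.x ^ (i : ℕ) * D.u ^ (j : ℕ))) := by
      intro i j
      rw [IsScalarTower.algebraMap_apply ℤ_[p] ℚ_[p] K, ha (i, j), Algebra.smul_def,
        Algebra.smul_def, map_mul, ← IsScalarTower.algebraMap_apply ℤ_[p] ℚ_[p] K]
      ring
    rw [h1]
    simp only [h2]
    rw [Finset.sum_comm, ← Fintype.sum_prod_type']
    rw [← Finset.mul_sum, hg, mul_zero]
  have hdvd := D.ker P hPe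
  have hmon : ((Phi N).map (mapRingHom (Int.castRingHom ℤ_[p]))).Monic := (Phi_monic hN).map _
  have hdeg : ((Phi N).map (mapRingHom (Int.castRingHom ℤ_[p]))).natDegree = (Phi N).natDegree :=
    (Phi_monic hN).natDegree_map _
  have hP0 : P = 0 := by
    by_contra hne
    refine hmon.not_dvd_of_degree_lt hne ?_ hdvd
    rw [degree_eq_natDegree hmon.ne_zero, hdeg]
    refine (degree_sum_le _ _).trans_lt ?_
    rw [Finset.sup_lt_iff (by exact WithBot.bot_lt_coe _)]
    intro j _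
    refine (degree_monomial_le _ _).trans_lt ?_
    exact_mod_cast j.2
  rintro ⟨i, j⟩
  have h3 : (P.coeff j).coeff i = a (i, j) := by
    simp only [P, finsetSum_coeff, coeff_monomial]
    rw [Finset.sum_eq_single j]
    · rw [if_pos rfl]
      simp only [finsetSum_coeff, coeff_monomial]
      rw [Finset.sum_eq_single i]
      · rw [if_pos rfl]
      · intro i' _ hi'
        rw [if_neg (fun h => hi' (Fin.ext h))]
      · simp
    · intro j' _ hj'
      rw [if_neg (fun h => hj' (Fin.ext h)), coeff_zero]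
    · simp
  rw [hP0] at h3
  simp only [coeff_zero] at h3
  have h4 := ha (i, j)
  rw [← h3, map_zero, Algebra.smul_def] at h4
  have hb0 : algebraMap ℤ_[p] ℚ_[p] b ≠ 0 := by
    rw [Ne, FaithfulSMul.algebraMap_eq_zero_iff]
    exact nonZeroDivisors.ne_zero b.2
  simpa [hb0] using h4.symm


/-- elements of `E` whose value has pole order at most `k` at the cusps in `C` -/
private noncomputable def Fk (x : K) {ι : Type*} (ψ : (ι → ℚ_[p]) →ₗ[ℚ_[p]] K)
    (C : Set (ValuationSubring K)) (hC : ∀ V ∈ C, ∀ c : ℚ_[p], V.valuation (algebraMap ℚ_[p] K c) ≤ 1)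
    (k : ℕ) : Submodule ℚ_[p] (ι → ℚ_[p]) where
  carrier := {c | ∀ V ∈ C, V.valuation (ψ c) ≤ V.valuation x ^ k}
  add_mem' := by
    intro a b ha hb V hV
    rw [map_add]
    exact (V.valuation.map_add _ _).trans (max_le (ha V hV) (hb V hV))
  zero_mem' := by
    intro V hV
    rw [map_zero, map_zero]
    exact zero_le
  smul_mem' := by
    intro r a ha V hV
    rw [map_smul, Algebra.smul_def, map_mul]
    exact (mul_le_mul' (hC V hV r) (ha V hV)).trans (by rw [one_mul])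

omit [CharZero K] [Algebra ℤ_[p] K] [IsScalarTower ℤ_[p] ℚ_[p] K] in
private lemma mem_Fk {x : K} {ι : Type*} {ψ : (ι → ℚ_[p]) →ₗ[ℚ_[p]] K}
    {C : Set (ValuationSubring K)} {hC : ∀ V ∈ C, ∀ c : ℚ_[p], V.valuation (algebraMap ℚ_[p] K c) ≤ 1}
    {k : ℕ} {c : ι → ℚ_[p]} : c ∈ Fk x ψ C hC k ↔ ∀ V ∈ C, V.valuation (ψ c) ≤ V.valuation x ^ k :=
  Iff.rfl

private lemma Fk_step (D : DynField p N K) (hN : 1 ≤ N) {ι : Type*} [Fintype ι]
    (ψ : (ι → ℚ_[p]) →ₗ[ℚ_[p]] K)
    (C : Finset (ValuationSubring K)) (hCc : ∀ V ∈ C, V ∈ cusps D)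
    (hC : ∀ V ∈ (C : Set (ValuationSubring K)), ∀ c : ℚ_[p],
      V.valuation (algebraMap ℚ_[p] K c) ≤ 1) (k : ℕ) :
    Module.finrank ℚ_[p] (Fk D.x ψ C hC (k + 1)) ≤
      Module.finrank ℚ_[p] (Fk D.x ψ C hC k) + C.card := by
  classical
  have hres : ∀ V : C, ∃ φ : V.1 →+* ℚ_[p], (∀ z : V.1, φ z = 0 ↔ V.1.valuation (z : K) < 1) ∧
      ∀ (c : ℚ_[p]) (h : algebraMap ℚ_[p] K c ∈ V.1), φ ⟨_, h⟩ = c := fun V =>
    cusp_residue D hN V.1 (hCc V.1 V.2).1 (hCc V.1 V.2).2.1 (hCc V.1 V.2).2.2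
  choose φ hφ0 hφc using hres
  have hx1 : ∀ V : C, 1 < V.1.valuation D.x := fun V => by
    have := (hCc V.1 V.2).2.2
    rw [← V.1.valuation_le_one_iff, not_le] at this
    exact this
  have hx0 : D.x ≠ 0 := by
    intro h
    have := D.transc
    rw [h] at this
    exact this isAlgebraic_zero
  have hmem : ∀ (V : C) (c : Fk D.x ψ C hC (k + 1)), ψ c * (D.x ^ (k + 1))⁻¹ ∈ V.1 := by
    intro V c
    rw [← V.1.valuation_le_one_iff, map_mul, map_inv₀, map_pow]
    have h1 := c.2 V.1 V.2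
    have h2 : V.1.valuation D.x ^ (k + 1) ≠ 0 :=
      pow_ne_zero _ (ne_of_gt (zero_lt_one.trans (hx1 V)))
    calc V.1.valuation (ψ c) * (V.1.valuation D.x ^ (k + 1))⁻¹
        ≤ V.1.valuation D.x ^ (k + 1) * (V.1.valuation D.x ^ (k + 1))⁻¹ := mul_le_mul_left h1 _
      _ = 1 := mul_inv_cancel₀ h2
  let ρ : Fk D.x ψ C hC (k + 1) →ₗ[ℚ_[p]] (C → ℚ_[p]) :=
    { toFun := fun c V => φ V ⟨ψ c * (D.x ^ (k + 1))⁻¹, hmem V c⟩
      map_add' := by
        intro a b
        funext V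
        simp only [Pi.add_apply]
        rw [← map_add]
        congr 1
        apply Subtype.ext
        simp [add_mul]
      map_smul' := by
        intro r a
        funext V
        simp only [Pi.smul_apply, RingHom.id_apply, smul_eq_mul]
        have hr : algebraMap ℚ_[p] K r ∈ V.1 := (V.1.valuation_le_one_iff _).mp (hC V.1 V.2 r)
        conv_rhs => rw [← hφc V r hr]
        rw [← map_mul]
        congr 1
        apply Subtype.ext
        simp only [SetLike.val_smul, map_smul, MulMemClass.mk_mul_mk]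
        rw [Algebra.smul_def, mul_assoc] }
  have h1 := LinearMap.finrank_range_add_finrank_ker ρ
  have h2 : Module.finrank ℚ_[p] (LinearMap.range ρ) ≤ C.card := by
    refine (Submodule.finrank_le _).trans ?_
    rw [Module.finrank_pi]
    simp
  have h3 : Module.finrank ℚ_[p] (LinearMap.ker ρ) ≤ Module.finrank ℚ_[p] (Fk D.x ψ C hC k) := by
    let τ : LinearMap.ker ρ →ₗ[ℚ_[p]] Fk D.x ψ C hC k :=
      LinearMap.codRestrict _ ((Fk D.x ψ C hC (k + 1)).subtype.comp (LinearMap.ker ρ).subtype) (by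
        rintro ⟨c, hc⟩
        rw [mem_Fk]
        intro V hV
        rw [LinearMap.mem_ker] at hc
        have hc' : φ ⟨V, hV⟩ ⟨ψ c * (D.x ^ (k + 1))⁻¹, hmem ⟨V, hV⟩ c⟩ = 0 := congrFun hc ⟨V, hV⟩
        rw [hφ0] at hc'
        simp only [] at hc'
        change V.valuation (ψ c) ≤ V.valuation D.x ^ k
        have hV1 := hx1 ⟨V, hV⟩
        simp only [] at hV1
        by_cases hz : ψ c = 0
        · rw [hz, map_zero]; exact zero_le
        have hs := (cusp_struct D hN V (hCc V hV).1 (hCc V hV).2.1 (hCc V hV).2.2).2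
          (ψ c * (D.x ^ (k + 1))⁻¹) (mul_ne_zero hz (inv_ne_zero (pow_ne_zero _ hx0)))
        obtain ⟨n, hn⟩ := hs
        rw [hn] at hc'
        have hVx0 : V.valuation D.x ≠ 0 := ne_of_gt (zero_lt_one.trans hV1)
        have hn0 : n < 0 := by
          by_contra hge
          push Not at hge
          exact absurd hc' (not_lt.mpr (one_le_zpow₀ hV1.le hge))
        have h5 : V.valuation (ψ c) = V.valuation D.x ^ (n + (k + 1)) := by
          rw [zpow_add₀ hVx0, ← hn, map_mul, map_inv₀, map_pow]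
          rw [show ((k : ℤ) + 1) = ((k + 1 : ℕ) : ℤ) by push_cast; ring, zpow_natCast]
          rw [mul_assoc, inv_mul_cancel₀ (pow_ne_zero _ hVx0), mul_one]
        rw [h5, ← zpow_natCast]
        exact zpow_le_zpow_right₀ hV1.le (by omega))
    exact LinearMap.finrank_le_finrank_of_injective (f := τ) (by
      intro a b hab
      have : (τ a : ι → ℚ_[p]) = τ b := by rw [hab]
      exact Subtype.ext (Subtype.ext this))
  omega

theorem exists_fn (D : DynField p N K) (hN : 1 ≤ N) (V₀ : ValuationSubring K)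
    (hV₀ : V₀ ∈ cusps D) :
    ∃ h : K, (∀ V : ValuationSubring K, Over p V → V.valuation (p : K) = 1 → V ≠ V₀ → h ∈ V) ∧
      Transcendental ℤ_[p] h := by
  classical
  set m := (Phi N).natDegree with hm
  let C : Finset (ValuationSubring K) := (cusps_finite D hN).toFinset.erase V₀
  have hcard : C.card + 1 ≤ m := by
    rw [Finset.card_erase_add_one (by simpa using hV₀)]
    have h0 := Set.ncard_eq_toFinset_card (cusps D) (cusps_finite D hN)
    rw [← h0]
    exact cusps_ncard D hN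
  have hCc : ∀ V ∈ C, V ∈ cusps D := by
    intro V hV
    have := Finset.mem_of_mem_erase hV
    simpa using this
  have hC : ∀ V ∈ (C : Set (ValuationSubring K)), ∀ c : ℚ_[p],
      V.valuation (algebraMap ℚ_[p] K c) ≤ 1 := fun V hV c =>
    val_rat_le V (hCc V hV).1 (hCc V hV).2.1 c
  let L := m * m + 2
  let ψ : (Fin L × Fin m → ℚ_[p]) →ₗ[ℚ_[p]] K := Fintype.linearCombination ℚ_[p]
    (fun ij : Fin L × Fin m => D.x ^ (ij.1 : ℕ) * D.u ^ (ij.2 : ℕ))
  have hψ : Function.Injective ψ := by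
    have := linInd_rie D hN L
    exact this.fintypeLinearCombination_injective
  have hF : F D.x D.u N = 0 := (D.generic hN).1
  -- everything has poles of order at most `L + m`
  have htop : Fk D.x ψ C hC (L + m) = ⊤ := by
    rw [eq_top_iff]
    rintro c -
    rw [mem_Fk]
    intro V hV
    have hx1 : 1 < V.valuation D.x := by
      have := (hCc V hV).2.2
      rwa [← V.valuation_le_one_iff, not_le] at this
    have hu1 : V.valuation D.u ≤ V.valuation D.x := by
      have := (cusp V hN hF (hCc V hV).2.2 0).1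
      simpa using this
    have : ψ c = ∑ ij : Fin L × Fin m, c ij • (D.x ^ (ij.1 : ℕ) * D.u ^ (ij.2 : ℕ)) := by
      simp [ψ, Fintype.linearCombination_apply]
    rw [this]
    apply V.valuation.map_sum_le
    intro ij _
    rw [Algebra.smul_def, map_mul, map_mul, map_pow, map_pow]
    calc V.valuation (algebraMap ℚ_[p] K (c ij)) * (V.valuation D.x ^ (ij.1 : ℕ) *
          V.valuation D.u ^ (ij.2 : ℕ))
        ≤ 1 * (V.valuation D.x ^ (ij.1 : ℕ) * V.valuation D.x ^ (ij.2 : ℕ)) :=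
          mul_le_mul' (hC V hV _) (mul_le_mul' le_rfl (pow_le_pow_left₀ zero_le hu1 _))
      _ = V.valuation D.x ^ ((ij.1 : ℕ) + (ij.2 : ℕ)) := by rw [one_mul, pow_add]
      _ ≤ V.valuation D.x ^ (L + m) := pow_le_pow_right₀ hx1.le (by
          have := ij.1.2; have := ij.2.2; omega)
  have hstep : ∀ k, Module.finrank ℚ_[p] (Fk D.x ψ C hC k) ≤
      Module.finrank ℚ_[p] (Fk D.x ψ C hC 0) + k * C.card := by
    intro k
    induction k with
    | zero => simp
    | succ k ih =>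
      have := Fk_step D hN ψ C hCc hC k
      rw [Nat.succ_mul]
      omega
  have hdim : 2 ≤ Module.finrank ℚ_[p] (Fk D.x ψ C hC 0) := by
    have h1 := hstep (L + m)
    rw [htop, finrank_top, Module.finrank_pi, Fintype.card_prod, Fintype.card_fin,
      Fintype.card_fin] at h1
    have h2 : (L + m) * C.card + (L + m) ≤ (L + m) * m := by
      calc (L + m) * C.card + (L + m) = (L + m) * (C.card + 1) := by ring
        _ ≤ (L + m) * m := Nat.mul_le_mul_left _ hcard
    have h3 : (L + m) * m = L * m + m * m := by ring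
    have h4 : L = m * m + 2 := rfl
    omega
  obtain ⟨c, hc, hcn⟩ : ∃ c ∈ Fk D.x ψ C hC 0, ∀ r : ℚ_[p], ψ c ≠ algebraMap ℚ_[p] K r := by
    by_contra hcon
    push Not at hcon
    have hle : (Fk D.x ψ C hC 0).map ψ ≤ Submodule.span ℚ_[p] {(1 : K)} := by
      rintro _ ⟨c, hc, rfl⟩
      obtain ⟨r, hr⟩ := hcon c hc
      rw [hr, Submodule.mem_span_singleton]
      exact ⟨r, by rw [Algebra.smul_def, mul_one]⟩
    have h1 := Submodule.finrank_mono hle
    rw [finrank_span_singleton one_ne_zero] at h1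
    have h2 := (Submodule.equivMapOfInjective ψ hψ (Fk D.x ψ C hC 0)).finrank_eq
    omega
  set h := ψ c with hh
  have hh1 : ∀ V : ValuationSubring K, Over p V → V.valuation (p : K) = 1 → V ≠ V₀ → h ∈ V := by
    intro V hV hp hne
    by_cases hx : D.x ∈ V
    · have hA := D.mem_of_x hN V hV hx
      have : h = ∑ ij : Fin L × Fin m, c ij • (D.x ^ (ij.1 : ℕ) * D.u ^ (ij.2 : ℕ)) := by
        simp [h, ψ, Fintype.linearCombination_apply]
      rw [this]
      apply sum_mem
      intro ij _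
      rw [Algebra.smul_def]
      exact mul_mem (rat_mem V hV hp _)
        (mul_mem (pow_mem hx _) (pow_mem (hA _ D.u_mem) _))
    · have hVC : V ∈ C := by
        simp only [C, Finset.mem_erase, Set.Finite.mem_toFinset]
        exact ⟨hne, hV, hp, hx⟩
      have := hc V hVC
      rw [pow_zero] at this
      exact (V.valuation_le_one_iff _).mp this
  refine ⟨h, hh1, fun halg => ?_⟩
  -- `h` algebraic
  have halg' : IsAlgebraic ℚ_[p] h := halg.extendScalars (R := ℤ_[p]) (S := ℚ_[p])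
    (FaithfulSMul.algebraMap_injective ℤ_[p] ℚ_[p])
  have hmem : ∀ z : K, IsAlgebraic ℚ_[p] z → z ∈ V₀ := by
    intro z hz
    have hz' := hz.isIntegral
    apply mem_of_isIntegral (B := (algebraMap ℚ_[p] K).range) V₀
    · rintro _ ⟨c, rfl⟩
      exact rat_mem V₀ hV₀.1 hV₀.2.1 c
    · obtain ⟨P, hP, hP0⟩ := hz'
      refine ⟨P.map (algebraMap ℚ_[p] K).rangeRestrict, hP.map _, ?_⟩
      rw [eval₂_map]
      exact hP0
  obtain ⟨r, hr⟩ := (cusp_struct D hN V₀ hV₀.1 hV₀.2.1 hV₀.2.2).1 h (hmem h halg')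
  have hne : h - algebraMap ℚ_[p] K r ≠ 0 := sub_ne_zero.mpr (hcn r)
  have h2 : IsAlgebraic ℚ_[p] (h - algebraMap ℚ_[p] K r)⁻¹ :=
    (halg'.sub (isAlgebraic_algebraMap r)).inv
  have h3 := (V₀.valuation_le_one_iff _).mpr (hmem _ h2)
  rw [map_inv₀] at h3
  have h4 : V₀.valuation (h - algebraMap ℚ_[p] K r) ≠ 0 := by
    rw [Ne, map_eq_zero]; exact hne
  exact absurd h3 (not_le.mpr ((one_lt_inv₀ (lt_of_le_of_ne (zero_le) (Ne.symm h4))).mpr hr))

omit [CharZero K] [Algebra ℚ_[p] K] [IsScalarTower ℤ_[p] ℚ_[p] K] in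
private lemma alg_over_x (D : DynField p N K) (hN : 1 ≤ N) :
    Algebra.IsAlgebraic (Algebra.adjoin ℤ_[p] (Set.range (fun _ : Unit => D.x))) K := by
  set R₁ := Algebra.adjoin ℤ_[p] (Set.range (fun _ : Unit => D.x)) with hR₁
  have hxm : D.x ∈ R₁ := Algebra.subset_adjoin ⟨(), rfl⟩
  have hu : IsIntegral R₁ D.u := by
    refine ⟨(Phi N).map (eval₂RingHom (Int.castRingHom R₁) ⟨D.x, hxm⟩), (Phi_monic hN).map _, ?_⟩
    rw [eval₂_map]
    have h1 := D.root
    rw [ev, coe_eval₂RingHom] at h1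
    rw [← h1]
    congr 1
    apply Polynomial.ringHom_ext'
    · exact RingHom.ext_int _ _
    · simp
  have hA : ∀ a ∈ D.A, IsIntegral R₁ a := by
    intro a ha
    have hle : D.A ≤ (integralClosure R₁ K).restrictScalars ℤ_[p] := by
      rw [DynField.A, Algebra.adjoin_le_iff]
      rintro z (rfl | hz)
      · exact (isIntegral_algebraMap (R := R₁) (A := K) (x := ⟨D.x, hxm⟩))
      · rw [Set.mem_singleton_iff.mp hz]
        exact hu
    exact hle ha
  refine ⟨fun z => ?_⟩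
  obtain ⟨a, ha, b, hb, hb0, hab⟩ := D.frac z
  have hz : z = a * b⁻¹ := by
    rw [← hab]; field_simp
  rw [hz]
  exact (hA a ha).isAlgebraic.mul (hA b hb).isAlgebraic.inv

omit [CharZero K] [Algebra ℚ_[p] K] [IsScalarTower ℤ_[p] ℚ_[p] K] in
private lemma alg_over_fn' (D : DynField p N K) (hN : 1 ≤ N) (h : K)
    (hh : Transcendental ℤ_[p] h)
    (s : K) : ∃ P : ℤ_[p][X][X], P ≠ 0 ∧ ev h s P = 0 := by
  have hxt : AlgebraicIndependent ℤ_[p] (fun _ : Unit => D.x) :=
    algebraicIndependent_unique_type_iff.mpr D.transc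
  have hxb : IsTranscendenceBasis ℤ_[p] (fun _ : Unit => D.x) := by
    rw [isTranscendenceBasis_iff_algebraicIndependent_isAlgebraic]
    exact ⟨hxt, alg_over_x D hN⟩
  have hht : AlgebraicIndependent ℤ_[p] (fun _ : Unit => h) :=
    algebraicIndependent_unique_type_iff.mpr hh
  have hhb : IsTranscendenceBasis ℤ_[p] (fun _ : Unit => h) := by
    have htr : Algebra.trdeg ℤ_[p] K = 1 := by
      have := hxb.lift_cardinalMk_eq_trdeg
      simpa using this.symm
    apply hht.isTranscendenceBasis_of_lift_trdeg_le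
    · rw [htr]; exact Cardinal.one_lt_aleph0
    · rw [htr]; simp
  have halg := hhb.isAlgebraic
  obtain ⟨q, hq0, hq⟩ := halg.isAlgebraic s
  have hr : Set.range (fun _ : Unit => h) = {h} := by ext; simp
  let φ : ℤ_[p][X] →ₐ[ℤ_[p]] Algebra.adjoin ℤ_[p] (Set.range (fun _ : Unit => h)) :=
    aeval ⟨h, Algebra.subset_adjoin ⟨(), rfl⟩⟩
  have hφ : Function.Surjective φ := by
    rintro ⟨z, hz⟩
    have hz' := hz
    rw [hr, Algebra.adjoin_singleton_eq_range_aeval] at hz'
    obtain ⟨f, hf⟩ := hz'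
    refine ⟨f, Subtype.ext ?_⟩
    change _ = z
    rw [← hf]
    simp only [φ]
    rw [← Subalgebra.coe_val, ← Polynomial.aeval_algHom_apply]
    rfl
  obtain ⟨P, hP⟩ := Polynomial.map_surjective φ.toRingHom hφ q
  refine ⟨P, ?_, ?_⟩
  · rintro rfl
    exact hq0 (by rw [← hP]; simp)
  · rw [← hP, aeval_def, eval₂_map] at hq
    rw [← hq, ev, coe_eval₂RingHom]
    congr 1
    apply Polynomial.ringHom_ext'
    · ext a
      simp [φ]
    · simp [φ]

/-- if `h` is transcendental over `ℤ_p`, every `s ∈ K` is algebraic over `ℤ_p[h]`: `K` is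
algebraic over `ℚ_p(x)`; exchange lemma: `P(x,h) = 0` for some nonzero `P ∈ ℤ_p[X][Y]`, which is
nonzero as a polynomial in `X` over `ℤ_p[h]` as `h` is transcendental, so `x` is algebraic over
`ℤ_p[h]`, and so is everything in `K`. -/
theorem alg_over_fn (D : DynField p N K) (hN : 1 ≤ N) (h : K) (hh : Transcendental ℤ_[p] h)
    (s : K) : ∃ P : ℤ_[p][X][X], P ≠ 0 ∧ ev h s P = 0 := by
  exact alg_over_fn' D hN h hh s

end DynBad
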