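import Pool.Agent.DynBad.CuspPt
import Pool.Agent.DynBad.GenBasic
import Pool.Agent.DynBad.Riemann

/-!
# Module ConnUniq: the special fibre is irreducible

`D₀` Gen with the centre of `V₀₀` on it; let `D'` be Gen and suppose `D' ≠ D₀`.

(1) Key claim: let `V'` be a valuation ring, `V' ≤ D'`, `v'(p) < 1`, `f ∈ D'` with
`f ∈ V` for all `V ⊇ ℚ_p` with `V ≠ V₀`.  Then `f ∈ V'`.
If `V'` is Gen, `V' = D'` (`gen_eq_of_le`).  Otherwise let `S' ≤ V'` be a chart, closed;
`O = loc V' S'`, `closedPt_exists`: the unique Gen above `O` is `D'` (`uniq`; `D'` is not closed on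
`S'` by `gen_iff`).  Claim: `¬ O ≤ V₀`.  Suppose `O ≤ V₀`.  Then `O ≤ V₀₀`: let `z ∈ O`, by
`CuspPt.res'` `z p^n ≡ a` at `V₀`; if the residue of `z` is not in `ℤ_p` then some
`b ∈ O` has residue `1/p` (`ℤ_p[residue of z] = ℚ_p`; e.g. residue of `z` is `a/p^n`, `a` a unit,
`n ≥ 1`, `b = p^(n-1) a⁻¹ z`), so `p b - 1 ∈ O` has `V₀.valuation < 1`, but it is a unit of `O`
(`v'(p b) < 1`), contradiction.  Then `V₀₀` dominates `O`: let `z ∈ O`, `v'(z) < 1`, residue
`a ∈ ℤ_p` at `V₀`; if `a` is a unit, `z - a ∈ O` is a unit of `O` but `V₀.valuation (z - a) < 1`,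
contradiction.  So `V₀₀.valuation z < 1` (`CuspPt.mem`).  Hence `S' ≤ V₀₀` and
`loc V₀₀ S' = loc V' S' = O`.  With the chart `S` of the hypothesis (`sep`)
`loc V₀₀ S = loc V₀₀ S' = O`, so `O ≤ D₀`, `D₀` is Gen, not closed on `S'` (`gen_iff`), so `D₀ = D'`
by `uniq`.  Contradiction.
So `¬ O ≤ V₀`; every `V ⊇ O` with `v(p) = 1` is `≠ V₀`, so `f ∈ V`; by `hartogs` `f ∈ O ≤ V'`.
(2) For such `f`, `ResAlg p D' f`: let `κ` be the residue field of `D'`, `ρ : D' → κ`.  For every
valuation subring `B` of `κ` let `V' = {z ∈ D' : ρ z ∈ B}` (`compVal`); `v'(p) < 1`, `Over p V'`;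
by (1) `f ∈ V'`, i.e. `ρ f ∈ B`.  So `ρ f` is integral over the prime ring
(`isIntegral_of_forall_val`), hence algebraic over `𝔽_p`, hence in a finite field.
(3) `h` from `exists_fn`.  Every element `f` of `ℚ_p[h] ∩ D'` (i.e. `f = p^(-n) g(h)`,
`g ∈ ℤ_p[X]`) satisfies (2).  Let `s ∈ S''`, `S''` a chart `≤ D'`.  By `alg_over_fn`:
`∑ f_i(h) s^i = 0`, `f_i ∈ ℤ_p[X]` not all `0`.  `f_i(h) ≠ 0` for `f_i ≠ 0`; divide by the power
of `p` such that all coefficients are in `D'` and some is a unit of `D'` (`gen_unif`).  Reducing,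
`s̄` is algebraic over the algebraic closure of `𝔽_p` in `κ`, so `ResAlg p D' s`.  So `D'` is closed
on `S''`, contradicting `gen_iff`.
-/

namespace DynBad

open Polynomial

variable {p : ℕ} [Fact p.Prime] {K : Type*} [Field K] [CharZero K] [Algebra ℤ_[p] K]
  [Algebra ℚ_[p] K] [IsScalarTower ℤ_[p] ℚ_[p] K] {N : ℕ}

/-- valuations of `p`-adic units -/
private lemma cu_unit_val {V : ValuationSubring K} (hV : Over p V) {a : ℤ_[p]} (ha : IsUnit a) :
    V.valuation (algebraMap ℤ_[p] K a) = 1 := by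
  obtain ⟨u, rfl⟩ := ha
  have h1 := (V.valuation_le_one_iff _).mpr (hV u)
  have h2 := (V.valuation_le_one_iff _).mpr (hV (u⁻¹ : ℤ_[p]ˣ))
  have h3 : V.valuation (algebraMap ℤ_[p] K u) *
      V.valuation (algebraMap ℤ_[p] K ↑(u⁻¹ : ℤ_[p]ˣ)) = 1 := by
    rw [← map_mul, ← map_mul, Units.mul_inv, map_one, map_one]
  refine le_antisymm h1 ?_
  calc (1 : V.ValueGroup) = _ := h3.symm
    _ ≤ V.valuation (algebraMap ℤ_[p] K u) * 1 := mul_le_mul_right h2 _
    _ = _ := mul_one _

private lemma cu_val_one {V : ValuationSubring K} {z : K} (hz0 : z ≠ 0) (h1 : z ∈ V)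
    (h2 : z⁻¹ ∈ V) : V.valuation z = 1 := by
  have h1' := (V.valuation_le_one_iff _).mpr h1
  have h2' := (V.valuation_le_one_iff _).mpr h2
  have h3 : V.valuation z * V.valuation z⁻¹ = 1 := by
    rw [← map_mul, mul_inv_cancel₀ hz0, map_one]
  refine le_antisymm h1' ?_
  calc (1 : V.ValueGroup) = _ := h3.symm
    _ ≤ V.valuation z * 1 := mul_le_mul_right h2' _
    _ = _ := mul_one _

private lemma cu_dvd {a : ℤ_[p]} (ha : ¬ IsUnit a) : ∃ b : ℤ_[p], a = p * b := by
  have h1 : a ∈ IsLocalRing.maximalIdeal ℤ_[p] := (IsLocalRing.mem_maximalIdeal _).mpr ha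
  rw [PadicInt.maximalIdeal_eq_span_p, Ideal.mem_span_singleton] at h1
  exact h1

/-- step (1) -/
theorem conn_key (M : SmoothModel p K) (D : DynField p N K) {V₀ V₀₀ : ValuationSubring K}
    (h : CuspPt D V₀ V₀₀) (D₀ : ValuationSubring K) (hD₀ : M.Gen D₀)
    (hc : ∃ S ∈ M.charts, Le S V₀₀ ∧ Closed V₀₀ S ∧ ∀ z ∈ loc V₀₀ S, z ∈ D₀)
    (D' : ValuationSubring K) (hD' : M.Gen D') (hne : D' ≠ D₀)
    (f : K) (hf : f ∈ D')
    (hfV : ∀ V : ValuationSubring K, Over p V → V.valuation (p : K) = 1 → V ≠ V₀ → f ∈ V)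
    (V' : ValuationSubring K) (hV' : Over p V') (hV'D : ∀ z ∈ V', z ∈ D')
    (hp : V'.valuation (p : K) < 1) : f ∈ V' := by
  obtain ⟨S', hS', hSV'⟩ := M.cover V' hV'
  by_cases hcl : Closed V' S'
  swap
  · have hg : M.Gen V' := ⟨hp, S', hS', hSV', hcl⟩
    rw [gen_eq_of_le M V' D' hg hD' hV'D]
    exact hf
  obtain ⟨D1, τ, hD1⟩ := closedPt_exists S' (M.etale S' hS') V' hSV' hp hcl
  have hOD' : ∀ z ∈ loc V' S', z ∈ D' := fun z hz => hV'D z (loc_le hSV' hz)
  have hSD' : Le S' D' := fun z hz => hOD' z (le_loc V' S' hz)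
  have hD'p : D'.valuation (p : K) < 1 := hD'.1
  have e1 : D' = D1 := hD1.uniq D' hOD' hD'p ((gen_iff M S' hS' D' hSD' hD'p).mp hD')
  have key : ¬ ∀ z ∈ loc V' S', z ∈ V₀ := by
    intro hOV
    have halg : ∀ a : ℤ_[p], algebraMap ℤ_[p] K a ∈ loc V' S' := fun a =>
      le_loc V' S' (S'.algebraMap_mem a)
    have hunit : ∀ z ∈ loc V' S', V'.valuation z = 1 → V₀.valuation z = 1 := by
      intro z hz h1
      have hz0 : z ≠ 0 := by rintro rfl; simp at h1
      exact cu_val_one hz0 (hOV z hz) (hOV _ (loc_inv hz h1))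
    -- `z - a` is a unit of `O` if `v'(z) < 1` and `a` is a unit of `ℤ_p`
    have hsub : ∀ z ∈ loc V' S', V'.valuation z < 1 → ∀ a : ℤ_[p], IsUnit a →
        V₀.valuation (z - algebraMap ℤ_[p] K a) = 1 := by
      intro z hz hz1 a ha
      refine hunit _ ((loc V' S').sub_mem hz (halg a)) ?_
      have h1 : V'.valuation (algebraMap ℤ_[p] K a) = 1 := cu_unit_val hV' ha
      rw [Valuation.map_sub_eq_of_lt_right _ (by rw [h1]; exact hz1), h1]
    have hstep : ∀ n : ℕ, ∀ z ∈ loc V' S', ∀ a : ℤ_[p],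
        V₀.valuation (z * p ^ n - algebraMap ℤ_[p] K a) < 1 → z ∈ V₀₀ := by
      intro n
      induction n with
      | zero =>
        intro z _ a ha
        rw [pow_zero, mul_one] at ha
        exact (h.mem z a ha).1
      | succ n ih =>
        intro z hz a ha
        by_cases hu : IsUnit a
        · exfalso
          have hpO : (p : K) ∈ loc V' S' := by
            have := halg (p : ℤ_[p])
            rwa [map_natCast] at this
          have h1 : z * p ^ (n + 1) ∈ loc V' S' :=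
            (loc V' S').mul_mem hz ((loc V' S').pow_mem hpO _)
          have h2 : V'.valuation (z * (p : K) ^ (n + 1)) < 1 := by
            rw [map_mul, map_pow]
            have hz1 := (V'.valuation_le_one_iff z).mpr (loc_le hSV' hz)
            refine mul_lt_one_of_nonneg_of_lt_one_right hz1 zero_le ?_
            exact pow_lt_one₀ zero_le hp (Nat.succ_ne_zero n)
          have h3 := hsub _ h1 h2 a hu
          rw [h3] at ha
          exact lt_irrefl _ ha
        · obtain ⟨b, rfl⟩ := cu_dvd hu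
          refine ih z hz b ?_
          have h1 : z * (p : K) ^ (n + 1) - algebraMap ℤ_[p] K (p * b) =
              p * (z * p ^ n - algebraMap ℤ_[p] K b) := by
            rw [map_mul, map_natCast]
            ring
          rw [h1, map_mul, h.valp₀, one_mul] at ha
          exact ha
    have hO00 : ∀ z ∈ loc V' S', z ∈ V₀₀ := by
      intro z hz
      obtain ⟨n, a, ha⟩ := h.res' z (hOV z hz)
      exact hstep n z hz a ha
    have hdom : ∀ z ∈ loc V' S', V'.valuation z < 1 → V₀₀.valuation z < 1 := by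
      intro z hz hz1
      obtain ⟨a, ha⟩ := h.res z (hO00 z hz)
      refine (h.mem z a ha).2.mpr fun hu => ?_
      rw [hsub z hz hz1 a hu] at ha
      exact lt_irrefl _ ha
    have hval : ∀ b ∈ S', V₀₀.valuation b = 1 ↔ V'.valuation b = 1 := by
      intro b hb
      have hbO := le_loc V' S' hb
      constructor
      · intro h1
        rcases ((V'.valuation_le_one_iff b).mpr (hSV' b hb)).lt_or_eq with h2 | h2
        · have h3 := hdom b hbO h2
          rw [h1] at h3
          exact absurd h3 (lt_irrefl _)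
        · exact h2
      · intro h1
        have hb0 : b ≠ 0 := by rintro rfl; simp at h1
        exact cu_val_one hb0 (hO00 b hbO) (hO00 _ (loc_inv hbO h1))
    have hloc : ∀ z ∈ loc V' S', z ∈ loc V₀₀ S' := by
      rintro z ⟨a, ha, b, hb, hb1, hab⟩
      exact ⟨a, ha, b, hb, (hval b hb).mpr hb1, hab⟩
    obtain ⟨S, hS, hSV, _, hSD⟩ := hc
    have hsep := M.sep S hS S' hS' V₀₀ hSV (fun z hz => hO00 z (le_loc V' S' hz))
    have hOD₀ : ∀ z ∈ loc V' S', z ∈ D₀ := by
      intro z hz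
      refine hSD z ?_
      rw [hsep]
      exact hloc z hz
    have hSD₀ : Le S' D₀ := fun z hz => hOD₀ z (le_loc V' S' hz)
    have e2 : D₀ = D1 := hD1.uniq D₀ hOD₀ hD₀.1 ((gen_iff M S' hS' D₀ hSD₀ hD₀.1).mp hD₀)
    exact hne (e1.trans e2.symm)
  refine loc_le hSV' (hD1.hartogs f (e1 ▸ hf) fun V'' hOV'' hp'' => ?_)
  refine hfV V'' (fun a => hOV'' _ (le_loc V' S' (S'.algebraMap_mem a))) hp'' ?_
  rintro rfl
  exact key hOV''

/-- an algebraic element over `𝔽_p` is fixed by a power of Frobenius -/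
private lemma cu_frob {κ : Type*} [Field κ] [Algebra (ZMod p) κ] {z : κ}
    (hz : IsAlgebraic (ZMod p) z) : ∃ n : ℕ, 1 ≤ n ∧ z ^ p ^ n = z := by
  have hfin : FiniteDimensional (ZMod p) (IntermediateField.adjoin (ZMod p) {z}) :=
    IntermediateField.adjoin.finiteDimensional hz.isIntegral
  have : Finite (IntermediateField.adjoin (ZMod p) {z}) := Module.finite_of_finite (ZMod p)
  have : Fintype (IntermediateField.adjoin (ZMod p) {z}) := Fintype.ofFinite _
  refine ⟨Module.finrank (ZMod p) (IntermediateField.adjoin (ZMod p) {z}),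
    Module.finrank_pos, ?_⟩
  have h1 := FiniteField.pow_card
    (⟨z, IntermediateField.mem_adjoin_simple_self (ZMod p) z⟩ :
      IntermediateField.adjoin (ZMod p) {z})
  have h2 := Module.card_eq_pow_finrank (K := ZMod p)
    (V := IntermediateField.adjoin (ZMod p) {z})
  rw [h2, ZMod.card] at h1
  have h3 := congrArg (Subtype.val) h1
  simpa using h3

theorem conn_uniq (M : SmoothModel p K) (D : DynField p N K) (hN : 1 ≤ N)
    {V₀ V₀₀ : ValuationSubring K} (h : CuspPt D V₀ V₀₀) (D₀ : ValuationSubring K)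
    (hD₀ : M.Gen D₀)
    (hc : ∃ S ∈ M.charts, Le S V₀₀ ∧ Closed V₀₀ S ∧ ∀ z ∈ loc V₀₀ S, z ∈ D₀)
    (D' : ValuationSubring K) (hD' : M.Gen D') : D' = D₀ := by
  by_contra hne
  obtain ⟨hD'p, S'', hS'', hSD, hncl⟩ := id hD'
  have hover : Over p D' := hSD.over
  have hφ : ∀ z : D', IsLocalRing.residue D' z = 0 ↔ D'.valuation (z : K) < 1 := by
    intro z
    rw [IsLocalRing.residue_eq_zero_iff, ValuationSubring.valuation_lt_one_iff]
  have hpD : (p : K) ∈ D' := by
    have := hover (p : ℤ_[p])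
    rwa [map_natCast] at this
  have hρp : ((p : ℕ) : IsLocalRing.ResidueField D') = 0 := by
    have h1 := (hφ (p : D')).mpr (by simpa using hD'p)
    rwa [map_natCast] at h1
  haveI hchar : CharP (IsLocalRing.ResidueField D') p :=
    (CharP.charP_iff_prime_eq_zero (Fact.out : p.Prime)).mpr hρp
  letI : Algebra (ZMod p) (IsLocalRing.ResidueField D') := ZMod.algebra _ p
  -- residue classes of `p`-adic integers
  have hres : ∀ (a : ℤ_[p]), ∃ n : ℕ,
      IsLocalRing.residue D' ⟨algebraMap ℤ_[p] K a, hover a⟩ = (n : IsLocalRing.ResidueField D') := by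
    intro a
    obtain ⟨n, _, hn⟩ := PadicInt.exists_mem_range a
    rw [PadicInt.maximalIdeal_eq_span_p, Ideal.mem_span_singleton] at hn
    obtain ⟨b, hb⟩ := hn
    refine ⟨n, ?_⟩
    have h1 : (⟨algebraMap ℤ_[p] K a, hover a⟩ : D') = n + p * ⟨algebraMap ℤ_[p] K b, hover b⟩ := by
      apply Subtype.ext
      have h2 : a = n + p * b := by linear_combination hb
      have h3 := congrArg (algebraMap ℤ_[p] K) h2
      simpa using h3
    rw [h1, map_add, map_mul, map_natCast, map_natCast, hρp, zero_mul, add_zero]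
  -- step (2)
  have step2 : ∀ (f : K) (hf : f ∈ D'), (∀ V : ValuationSubring K, Over p V →
      V.valuation (p : K) = 1 → V ≠ V₀ → f ∈ V) →
      IsAlgebraic (ZMod p) (IsLocalRing.residue D' ⟨f, hf⟩) := by
    intro f hf hfV
    have h1 : IsIntegral (⊥ : Subring (IsLocalRing.ResidueField D'))
        (IsLocalRing.residue D' ⟨f, hf⟩) := by
      refine isIntegral_of_forall_val _ _ fun B _ => ?_
      obtain ⟨V', hmem, hval⟩ := compVal D' (IsLocalRing.residue D') hφ B
      have hV' : Over p V' := by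
        intro a
        refine (hmem _).mpr ⟨hover a, ?_⟩
        obtain ⟨n, hn⟩ := hres a
        rw [hn]
        exact natCast_mem B n
      have hpV' : (p : K) ∈ V' := by
        have := hV' (p : ℤ_[p])
        rwa [map_natCast] at this
      have hp' : V'.valuation (p : K) < 1 := by
        refine (hval (p : K) hpD hpV').mpr ?_
        have h2 : IsLocalRing.residue D' ⟨(p : K), hpD⟩ = 0 := (hφ ⟨(p : K), hpD⟩).mpr hD'p
        rw [h2, map_zero]
        exact zero_lt_one
      have h2 := conn_key M D h D₀ hD₀ hc D' hD' hne f hf hfV V' hV'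
        (fun z hz => ((hmem z).mp hz).1) hp'
      exact ((hmem f).mp h2).2
    have h2 : IsIntegral (ZMod p) (IsLocalRing.residue D' ⟨f, hf⟩) := by
      obtain ⟨P, hP, hP0⟩ := h1
      have hs : Function.Surjective
          (Int.castRingHom (⊥ : Subring (IsLocalRing.ResidueField D'))) := by
        rintro ⟨y, hy⟩
        obtain ⟨n, hn⟩ := Subring.mem_bot.mp hy
        exact ⟨n, Subtype.ext (by simpa using hn)⟩
      obtain ⟨Q, hQ, hQd, hQm⟩ := Polynomial.lifts_and_natDegree_eq_and_monic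
        (p := P) (f := Int.castRingHom (⊥ : Subring (IsLocalRing.ResidueField D')))
        ((Polynomial.lifts_iff_coeff_lifts P).mpr fun n => by
          obtain ⟨a, ha⟩ := hs (P.coeff n)
          exact ⟨a, ha⟩) hP
      refine ⟨Q.map (Int.castRingHom (ZMod p)), hQm.map _, ?_⟩
      rw [← hP0, ← hQ, eval₂_map, eval₂_map]
      congr 1
      exact RingHom.ext_int _ _
    exact h2.isAlgebraic
  obtain ⟨g, hg, htr⟩ := exists_fn D hN V₀ ⟨h.ov₀, h.valp₀, h.x_notMem⟩
  refine hncl fun s hs => ?_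
  obtain ⟨P, hP0, hPs⟩ := alg_over_fn D hN g htr s
  have hsD : s ∈ D' := hSD s hs
  -- the coefficients
  obtain ⟨c, hcdef⟩ : ∃ c : ℕ → K, c = fun i => eval₂ (algebraMap ℤ_[p] K) g (P.coeff i) :=
    ⟨_, rfl⟩
  have hc0 : ∀ i ∈ P.support, c i ≠ 0 := by
    intro i hi h0
    rw [hcdef] at h0
    have h1 : aeval g (P.coeff i) = 0 := h0
    have h2 := (transcendental_iff.mp htr) (P.coeff i) h1
    exact (mem_support_iff.mp hi) h2
  have hsum : ∑ i ∈ P.support, c i * s ^ i = 0 := by
    rw [← hPs, hcdef]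
    simp only [ev, coe_eval₂RingHom]
    rw [eval₂_eq_sum, sum_def]
    rfl
  obtain ⟨_, hunif⟩ := gen_unif M D' hD'
  choose! n w hw1 hw2 using hunif
  have hne : P.support.Nonempty := Polynomial.support_nonempty.mpr hP0
  obtain ⟨i₀, hi₀, hmin⟩ := P.support.exists_min_image (fun i => n (c i)) hne
  have hp0 : (p : K) ≠ 0 := Nat.cast_ne_zero.mpr (Fact.out : p.Prime).ne_zero
  obtain ⟨e, hedef⟩ : ∃ e : ℕ → K, e = fun i => (p : K) ^ (- n (c i₀)) * c i := ⟨_, rfl⟩
  have heD : ∀ i ∈ P.support, e i ∈ D' := by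
    intro i hi
    have h1 : e i = (p : K) ^ (n (c i) - n (c i₀)).toNat * w (c i) := by
      rw [hedef]
      show (p : K) ^ (- n (c i₀)) * c i = _
      have h2 := hw2 (c i) (hc0 i hi)
      calc (p : K) ^ (- n (c i₀)) * c i
          = (p : K) ^ (- n (c i₀)) * ((p : K) ^ n (c i) * w (c i)) := by rw [← h2]
        _ = _ := by
          rw [← mul_assoc, ← zpow_add₀ hp0, ← zpow_natCast (p : K),
            Int.toNat_of_nonneg (by linarith [hmin i hi]), add_comm, sub_eq_add_neg]
    rw [h1]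
    exact D'.mul_mem _ _ (pow_mem hpD _)
      ((D'.valuation_le_one_iff _).mp (hw1 (c i) (hc0 i hi)).le)
  have he0 : D'.valuation (e i₀) = 1 := by
    have h1 : e i₀ = w (c i₀) := by
      rw [hedef]
      show (p : K) ^ (- n (c i₀)) * c i₀ = _
      have h2 := hw2 (c i₀) (hc0 i₀ hi₀)
      calc (p : K) ^ (- n (c i₀)) * c i₀
          = (p : K) ^ (- n (c i₀)) * ((p : K) ^ n (c i₀) * w (c i₀)) := by rw [← h2]
        _ = _ := by
          rw [← mul_assoc, ← zpow_add₀ hp0, neg_add_cancel, zpow_zero, one_mul]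
    rw [h1]
    exact hw1 _ (hc0 i₀ hi₀)
  have hesum : ∑ i ∈ P.support, e i * s ^ i = 0 := by
    rw [hedef]
    simp only [mul_assoc]
    rw [← Finset.mul_sum, hsum, mul_zero]
  have heV : ∀ i, ∀ V : ValuationSubring K, Over p V → V.valuation (p : K) = 1 → V ≠ V₀ →
      e i ∈ V := by
    intro i V hV hVp hne'
    rw [hedef]
    show (p : K) ^ (- n (c i₀)) * c i ∈ V
    refine V.mul_mem _ _ ?_ ?_
    · rw [← V.valuation_le_one_iff, map_zpow₀, hVp, one_zpow]
    · rw [hcdef]
      show eval₂ (algebraMap ℤ_[p] K) g (P.coeff i) ∈ V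
      rw [eval₂_eq_sum, sum_def]
      exact V.toSubring.sum_mem fun j _ => V.mul_mem _ _ (hV _) (pow_mem (hg V hV hVp hne') _)
  -- reduction
  have halg : ∀ i (hi : i ∈ P.support), IsLocalRing.residue D' ⟨e i, heD i hi⟩ ∈
      algebraicClosure (ZMod p) (IsLocalRing.ResidueField D') :=
    fun i hi => mem_algebraicClosure_iff.mpr (step2 _ _ (heV i))
  have hsalg : IsAlgebraic (ZMod p) (IsLocalRing.residue D' ⟨s, hsD⟩) := by
    obtain ⟨q, hq⟩ : ∃ q : (algebraicClosure (ZMod p) (IsLocalRing.ResidueField D'))[X],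
        q = ∑ i : P.support, monomial (i : ℕ)
          (⟨IsLocalRing.residue D' ⟨e i, heD i i.2⟩, halg i i.2⟩ :
            algebraicClosure (ZMod p) (IsLocalRing.ResidueField D')) := ⟨_, rfl⟩
    refine IsAlgebraic.restrictScalars (S := algebraicClosure (ZMod p)
      (IsLocalRing.ResidueField D')) (ZMod p) ⟨q, ?_, ?_⟩
    · intro hq0
      have h1 : q.coeff i₀ = ⟨IsLocalRing.residue D' ⟨e i₀, heD i₀ hi₀⟩, halg i₀ hi₀⟩ := by
        rw [hq, finsetSum_coeff, Finset.sum_eq_single ⟨i₀, hi₀⟩]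
        · rw [coeff_monomial_same]
        · intro b _ hb
          rw [coeff_monomial_of_ne]
          intro hb'
          exact hb (Subtype.ext hb'.symm)
        · intro hb
          exact absurd (Finset.mem_univ _) hb
      rw [hq0, coeff_zero] at h1
      have h2 : IsLocalRing.residue D' ⟨e i₀, heD i₀ hi₀⟩ = 0 := (congrArg Subtype.val h1).symm
      have h3 := (hφ ⟨e i₀, heD i₀ hi₀⟩).mp h2
      have h4 : D'.valuation (e i₀) < 1 := h3
      rw [he0] at h4
      exact lt_irrefl _ h4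
    · rw [hq, map_sum]
      have h1 : ∀ i : P.support, aeval (IsLocalRing.residue D' ⟨s, hsD⟩)
          (monomial (i : ℕ) (⟨IsLocalRing.residue D' ⟨e i, heD i i.2⟩, halg i i.2⟩ :
            algebraicClosure (ZMod p) (IsLocalRing.ResidueField D'))) =
          IsLocalRing.residue D' (⟨e i, heD i i.2⟩ * ⟨s, hsD⟩ ^ (i : ℕ)) := by
        intro i
        rw [aeval_monomial, map_mul, map_pow]
        rfl
      rw [Finset.sum_congr rfl fun i _ => h1 i, ← map_sum]
      have h2 : ∑ i : P.support, (⟨e i, heD i i.2⟩ * ⟨s, hsD⟩ ^ (i : ℕ) : D') = 0 := by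
        apply Subtype.ext
        have h3 : ((∑ i : P.support, (⟨e i, heD i i.2⟩ * ⟨s, hsD⟩ ^ (i : ℕ) : D') : D') : K) =
            ∑ i : P.support, e i * s ^ (i : ℕ) := by
          rw [← D'.subtype_apply, map_sum]
          rfl
        rw [h3, Finset.sum_coe_sort P.support (fun i => e i * s ^ i), hesum]
        rfl
      rw [h2, map_zero]
  obtain ⟨m, hm1, hm⟩ := cu_frob hsalg
  refine ⟨m, hm1, ?_⟩
  have h1 := (hφ (⟨s, hsD⟩ ^ p ^ m - ⟨s, hsD⟩)).mp (by rw [map_sub, map_pow, hm, sub_self])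
  simpa using h1

end DynBad
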