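import Pool.Agent.DynBad.ConnFp
import Pool.Agent.DynBad.ConnUniq

/-! # Module Conn: the special fibre has exactly one generic point, with constant field `𝔽_p`. -/

namespace DynBad

variable {p : ℕ} [Fact p.Prime] {K : Type*} [Field K] [CharZero K] [Algebra ℤ_[p] K] {N : ℕ}

/-- `K` is a `ℚ_p`-algebra -/
theorem exists_algebraQp :
    ∃ (_ : Algebra ℚ_[p] K), IsScalarTower ℤ_[p] ℚ_[p] K := by
  have hinj : Function.Injective (algebraMap ℤ_[p] K) := by
    have : CharZero ℤ_[p] := inferInstance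
    intro a b hab
    by_contra hne
    have hab' : a - b ≠ 0 := sub_ne_zero.mpr hne
    have h0 : algebraMap ℤ_[p] K (a - b) = 0 := by rw [map_sub, hab, sub_self]
    obtain ⟨n, hn⟩ : ∃ n : ℕ, Associated (a - b) ((p : ℤ_[p]) ^ n) :=
      IsDiscreteValuationRing.associated_pow_irreducible hab' PadicInt.irreducible_p
    obtain ⟨v, hv⟩ := hn
    have h1 : algebraMap ℤ_[p] K ((p : ℤ_[p]) ^ n) = 0 := by rw [← hv, map_mul, h0, zero_mul]
    rw [map_pow, map_natCast] at h1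
    have h2 : (p : K) ≠ 0 := Nat.cast_ne_zero.mpr (Fact.out : p.Prime).ne_zero
    exact (pow_ne_zero n h2) h1
  let φ : ℚ_[p] →+* K := IsFractionRing.lift (A := ℤ_[p]) (K := ℚ_[p]) hinj
  refine ⟨φ.toAlgebra, ?_⟩
  letI := φ.toAlgebra
  exact IsScalarTower.of_algebraMap_eq fun a => (IsFractionRing.lift_algebraMap hinj a).symm

theorem conn (M : SmoothModel p K) (D : DynField p N K) (hN : 1 ≤ N) :
    ∃ D₀ : ValuationSubring K, M.Gen D₀ ∧ (∀ D', M.Gen D' → D' = D₀) ∧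
      ∀ z ∈ D₀, ResAlg p D₀ z → D₀.valuation (z ^ p - z) < 1 := by
  obtain ⟨_, _⟩ := exists_algebraQp (p := p) (K := K)
  obtain ⟨V₀, hV₀⟩ := cusps_nonempty D hN
  obtain ⟨V₀₀, h⟩ := exists_cuspPt D hN V₀ hV₀
  obtain ⟨D₀, h1, h2, h3⟩ := conn_fp M D h
  exact ⟨D₀, h1, fun D' hD' => conn_uniq M D hN h D₀ h1 h2 D' hD', h3⟩

end DynBad
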