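import Pool.Agent.DynBad.CuspPt
import Pool.Agent.DynBad.GenBasic

/-!
# Module ConnFp: the component through the cusp, and its constants

Chart `S ≤ V₀₀`.  (a) `S` is closed at `V₀₀`: otherwise `chart_gen` for `V₀₀`; but `y = x⁻¹ ≠ 0`
satisfies `y/p^n ∈ V₀₀` for all `n` (`V₀.valuation (y/p^n) < 1`, `CuspPt.mem` with `a = 0`), while
`y = p^k w` with `w` a unit.
(b) `closedPt_exists`: `D₀`, `t`; `O = loc V₀₀ S`; `D₀` is Gen (`gen_iff`).
(c) Let `z ∈ D₀`, `z^(p^n) - z ∈ 𝔪_{D₀}`.  First suppose `z ∈ O`.  The residue class of `z` in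
`V₀₀` is in `𝔽_p` (`CuspPt.res`: `z ≡ a ∈ ℤ_p`; `a ≡ c mod p` with `c ∈ ℕ`; `CuspPt.mem`), so
`m := z - c ∈ 𝔪_O`; `m^(p^n) - m ∈ 𝔪_{D₀} ∩ O = pO` (Frobenius mod `p`;
`c^(p^n) ≡ c mod p`), i.e. `m (m^(p^n - 1) - 1) ∈ pO` with the second factor a unit of `O`, so
`m ∈ pO` and `z ≡ c mod p D₀`, `z^p - z ∈ 𝔪_{D₀}`.
General `z ∈ D₀ = loc D₀ S` (`chart_gen`): `z = a/b`, `a, b ∈ S ≤ O`, `b ∉ pO`.  If `a ∈ pO` then
`z ∈ 𝔪_{D₀}`, fine.  Else `a = t^m w + p c`, `b = t^n w' + p c'` (`ClosedPt.order`); if `m ≥ n`,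
`z ≡ z' := t^(m-n) w w'⁻¹ ∈ O` modulo `𝔪_{D₀}` and the first case applies.  If `m < n`,
`z⁻¹ ≡ z'' := t^(n-m) w' w⁻¹ ∈ O`, the residue class of `z''` is algebraic too, so by the first case
`z'' ≡ c` with `c ∈ ℕ`, `z'' ∈ 𝔪_O` forces `p ∣ c`, so `z'' ∈ 𝔪_{D₀}`, contradiction to
`D₀.valuation t = 1`.
-/

namespace DynBad

variable {p : ℕ} [Fact p.Prime] {K : Type*} [Field K] [CharZero K] [Algebra ℤ_[p] K] {N : ℕ}

section Res

variable {K : Type*} [Field K]

private lemma res_iff (V : ValuationSubring K) (z : V) :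
    IsLocalRing.residue V z = 0 ↔ V.valuation (z : K) < 1 := by
  rw [IsLocalRing.residue_eq_zero_iff, ValuationSubring.valuation_lt_one_iff]

private lemma res_charP {p : ℕ} [Fact p.Prime] (V : ValuationSubring K)
    (hp : V.valuation (p : K) < 1) : CharP (IsLocalRing.ResidueField V) p := by
  have h : ((p : ℕ) : IsLocalRing.ResidueField V) = 0 := by
    have := (res_iff V ((p : ℕ) : V)).mpr (by simpa using hp)
    simpa using this
  exact (CharP.charP_iff_prime_eq_zero Fact.out).mpr h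

end Res

/-- the first case of step (c) -/
private lemma first_case (D : DynField p N K) {V₀ V₀₀ : ValuationSubring K}
    (h : CuspPt D V₀ V₀₀) (S : Subalgebra ℤ_[p] K) (hSV : Le S V₀₀)
    (D₀ : ValuationSubring K) (τ : K) (hcp : ClosedPt V₀₀ S D₀ τ) (z : K)
    (hz : z ∈ loc V₀₀ S) (hr : ResAlg p D₀ z) :
    ∃ c : ℕ, D₀.valuation (z - c) < 1 ∧ V₀₀.valuation (z - c) < 1 := by
  have hzV : z ∈ V₀₀ := loc_le hSV hz
  obtain ⟨a, ha⟩ := h.res z hzV
  set c := a.zmodRepr with hcdef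
  have hac : ¬ IsUnit (a - (c : ℤ_[p])) := by
    have := (PadicInt.zmodRepr_spec a).2
    exact (IsLocalRing.mem_maximalIdeal _).mp this
  have h1 : V₀₀.valuation (z - c) < 1 := by
    refine ((h.mem (z - c) (a - (c : ℤ_[p])) ?_).2).mpr hac
    have : z - (c : K) - algebraMap ℤ_[p] K (a - (c : ℤ_[p])) = z - algebraMap ℤ_[p] K a := by
      rw [map_sub, map_natCast]; ring
    rw [this]
    exact ha
  refine ⟨c, ?_, h1⟩
  have hmO : z - (c : K) ∈ loc V₀₀ S := by
    refine (loc V₀₀ S).sub_mem hz ?_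
    exact natCast_mem (loc V₀₀ S) c
  have hmD : z - (c : K) ∈ D₀ := hcp.sub _ hmO
  obtain ⟨n, hn, hzn⟩ := hr
  set q := p ^ n with hq
  have hq2 : 2 ≤ q := by
    calc 2 ≤ p := (Fact.out : p.Prime).two_le
      _ = p ^ 1 := (pow_one p).symm
      _ ≤ p ^ n := Nat.pow_le_pow_right (Fact.out : p.Prime).pos hn
  -- `m^q - m ∈ 𝔪`
  have hchar := res_charP (p := p) D₀ hcp.valp
  have hzD : z ∈ D₀ := hcp.sub _ hz
  have hcD : (c : K) ∈ D₀ := natCast_mem D₀ c
  have h2 : D₀.valuation ((z - c) ^ q - (z - c)) < 1 := by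
    let z' : D₀ := ⟨z, hzD⟩
    have e1 : IsLocalRing.residue D₀ (z' ^ q - z') = 0 :=
      (res_iff D₀ _).mpr (by simpa using hzn)
    have e2 : IsLocalRing.residue D₀ ((z' - (c : D₀)) ^ q - (z' - (c : D₀))) = 0 := by
      rw [map_sub, map_pow, map_sub, hq, sub_pow_char_pow, map_natCast]
      have e3 : ((c : ℕ) : IsLocalRing.ResidueField D₀) ^ p ^ n = c := by
        have this : ((c : ℕ) : IsLocalRing.ResidueField D₀) ^ p = c :=
          map_natCast (frobenius (IsLocalRing.ResidueField D₀) p) c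
        have e4 : ∀ k : ℕ, ((c : ℕ) : IsLocalRing.ResidueField D₀) ^ p ^ k = c := by
          intro k
          induction k with
          | zero => simp
          | succ k ih => rw [pow_succ, pow_mul, ih]; exact this
        exact e4 n
      rw [e3]
      rw [map_sub, map_pow] at e1
      linear_combination e1
    have := (res_iff D₀ _).mp e2
    simpa using this
  -- factor
  have h3 : (z - (c : K)) ^ q - (z - c) = (z - c) * ((z - c) ^ (q - 1) - 1) := by
    obtain ⟨k, hk⟩ : ∃ k, q = k + 1 := ⟨q - 1, by omega⟩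
    rw [hk, Nat.add_sub_cancel, pow_succ]
    ring
  have h4 : V₀₀.valuation ((z - (c : K)) ^ (q - 1) - 1) = 1 := by
    rw [Valuation.map_sub_eq_of_lt_right, map_one]
    rw [map_one, map_pow]
    exact pow_lt_one₀ zero_le h1 (by omega)
  have hO' : (z - (c : K)) ^ (q - 1) - 1 ∈ loc V₀₀ S :=
    (loc V₀₀ S).sub_mem ((loc V₀₀ S).pow_mem hmO _) (loc V₀₀ S).one_mem
  have h5 : D₀.valuation ((z - (c : K)) ^ (q - 1) - 1) = 1 := by
    have i1 := (D₀.valuation_le_one_iff _).mpr (hcp.sub _ hO')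
    have i2 := (D₀.valuation_le_one_iff _).mpr (hcp.sub _ (loc_inv hO' h4))
    apply le_antisymm i1
    by_contra hcon
    push Not at hcon
    have hne : (z - (c : K)) ^ (q - 1) - 1 ≠ 0 := by
      intro h0; rw [h0, map_zero] at h4; exact zero_ne_one h4
    have : D₀.valuation ((z - (c : K)) ^ (q - 1) - 1) *
        D₀.valuation ((z - (c : K)) ^ (q - 1) - 1)⁻¹ = 1 := by
      rw [← map_mul, mul_inv_cancel₀ hne, map_one]
    have h6 : D₀.valuation ((z - (c : K)) ^ (q - 1) - 1) *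
        D₀.valuation ((z - (c : K)) ^ (q - 1) - 1)⁻¹ < 1 :=
      mul_lt_one_of_nonneg_of_lt_one_left zero_le hcon i2
    rw [this] at h6
    exact lt_irrefl _ h6
  rw [h3, map_mul, h5, mul_one] at h2
  exact h2

omit [CharZero K] in
private lemma unit_up {V₀₀ : ValuationSubring K} {S : Subalgebra ℤ_[p] K}
    {D₀ : ValuationSubring K} {τ : K} (hcp : ClosedPt V₀₀ S D₀ τ) {w : K}
    (hw : w ∈ loc V₀₀ S) (h1 : V₀₀.valuation w = 1) : D₀.valuation w = 1 := by
  have i1 := (D₀.valuation_le_one_iff _).mpr (hcp.sub _ hw)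
  have i2 := (D₀.valuation_le_one_iff _).mpr (hcp.sub _ (loc_inv hw h1))
  apply le_antisymm i1
  by_contra hcon
  push Not at hcon
  have hne : w ≠ 0 := by
    intro h0; rw [h0, map_zero] at h1; exact zero_ne_one h1
  have : D₀.valuation w * D₀.valuation w⁻¹ = 1 := by
    rw [← map_mul, mul_inv_cancel₀ hne, map_one]
  have h6 : D₀.valuation w * D₀.valuation w⁻¹ < 1 :=
    mul_lt_one_of_nonneg_of_lt_one_left zero_le hcon i2
  rw [this] at h6
  exact lt_irrefl _ h6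

omit [Fact p.Prime] [CharZero K] [Algebra ℤ_[p] K] in
/-- congruent elements have the same residual behaviour -/
private lemma resAlg_congr {V : ValuationSubring K} {z z' : K} (hz : z ∈ V) (hz' : z' ∈ V)
    (h : V.valuation (z - z') < 1) (hr : ResAlg p V z) : ResAlg p V z' := by
  obtain ⟨n, hn, hzn⟩ := hr
  refine ⟨n, hn, ?_⟩
  have e0 : IsLocalRing.residue V ⟨z, hz⟩ = IsLocalRing.residue V ⟨z', hz'⟩ := by
    rw [← sub_eq_zero, ← map_sub]
    exact (res_iff V _).mpr h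
  have e1 : IsLocalRing.residue V (⟨z, hz⟩ ^ p ^ n - ⟨z, hz⟩) = 0 :=
    (res_iff V _).mpr (by simpa using hzn)
  have e2 : IsLocalRing.residue V (⟨z', hz'⟩ ^ p ^ n - ⟨z', hz'⟩) = 0 := by
    rw [map_sub, map_pow, ← e0, ← map_pow, ← map_sub, e1]
  have := (res_iff V _).mp e2
  simpa using this

omit [CharZero K] [Algebra ℤ_[p] K] in
private lemma nat_fp {V : ValuationSubring K} (hp : V.valuation (p : K) < 1) {z : K} (hz : z ∈ V)
    (c : ℕ) (h : V.valuation (z - c) < 1) : V.valuation (z ^ p - z) < 1 := by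
  have hchar := res_charP (p := p) V hp
  have e0 : IsLocalRing.residue V ⟨z, hz⟩ = (c : IsLocalRing.ResidueField V) := by
    rw [← map_natCast (IsLocalRing.residue V), ← sub_eq_zero, ← map_sub]
    exact (res_iff V _).mpr (by simpa using h)
  have e2 : IsLocalRing.residue V (⟨z, hz⟩ ^ p - ⟨z, hz⟩) = 0 := by
    rw [map_sub, map_pow, e0]
    have : ((c : ℕ) : IsLocalRing.ResidueField V) ^ p = c :=
      map_natCast (frobenius (IsLocalRing.ResidueField V) p) c
    rw [this, sub_self]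
  have := (res_iff V _).mp e2
  simpa using this

theorem conn_fp (M : SmoothModel p K) (D : DynField p N K) {V₀ V₀₀ : ValuationSubring K}
    (h : CuspPt D V₀ V₀₀) :
    ∃ D₀ : ValuationSubring K, M.Gen D₀ ∧
      (∃ S ∈ M.charts, Le S V₀₀ ∧ Closed V₀₀ S ∧ ∀ z ∈ loc V₀₀ S, z ∈ D₀) ∧
      ∀ z ∈ D₀, ResAlg p D₀ z → D₀.valuation (z ^ p - z) < 1 := by
  obtain ⟨S, hS, hSV⟩ := M.cover V₀₀ h.ov
  have hSe := M.etale S hS
  have hp0 : (p : K) ≠ 0 := Nat.cast_ne_zero.mpr (Fact.out : p.Prime).ne_zero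
  -- (a)
  have hc : Closed V₀₀ S := by
    by_contra hnc
    have hx0 : D.x ≠ 0 := by
      intro h0
      exact h.x_notMem (h0 ▸ V₀.zero_mem)
    obtain ⟨k, w, hw, hyw⟩ := (chart_gen S hSe V₀₀ hSV h.valp hnc).2 D.x⁻¹ (inv_ne_zero hx0)
    have hpk : (p : K) ^ (k + 1) ≠ 0 := zpow_ne_zero _ hp0
    have h1 : V₀.valuation (D.x⁻¹ / (p : K) ^ (k + 1) - algebraMap ℤ_[p] K 0) < 1 := by
      rw [map_zero, sub_zero, map_div₀, map_zpow₀, h.valp₀, one_zpow, div_one, map_inv₀]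
      have h2 : 1 < V₀.valuation D.x := by
        by_contra hcon
        exact h.x_notMem ((V₀.valuation_le_one_iff _).mp (not_lt.mp hcon))
      exact inv_lt_one_of_one_lt₀ h2
    have h2 := (h.mem _ _ h1).1
    rw [hyw, ← V₀₀.valuation_le_one_iff, map_div₀, map_mul, hw, mul_one, zpow_add₀ hp0, zpow_one,
      map_mul] at h2
    have hpk' : V₀₀.valuation ((p : K) ^ k) ≠ 0 :=
      (Valuation.ne_zero_iff _).mpr (zpow_ne_zero k hp0)
    have hpv : V₀₀.valuation (p : K) ≠ 0 := (Valuation.ne_zero_iff _).mpr hp0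
    rw [div_mul_eq_div_div, div_self hpk', one_div] at h2
    have h3 : 1 < (V₀₀.valuation (p : K))⁻¹ :=
      (one_lt_inv₀ (zero_lt_iff.mpr hpv)).mpr h.valp
    exact absurd h2 (not_le.mpr h3)
  -- (b)
  obtain ⟨D₀, τ, hcp⟩ := closedPt_exists S hSe V₀₀ hSV h.valp hc
  have hSD : Le S D₀ := fun z hz => hcp.sub z (le_loc V₀₀ S hz)
  refine ⟨D₀, ⟨hcp.valp, S, hS, hSD, hcp.gen⟩, ⟨S, hS, hSV, hc, hcp.sub⟩, ?_⟩
  -- (c)
  intro z hz hr
  obtain ⟨a, ha, b, hb, hb1, hab⟩ := (chart_gen S hSe D₀ hSD hcp.valp hcp.gen).1 z hz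
  have haD := (D₀.valuation_le_one_iff _).mpr (hSD a ha)
  have hza : D₀.valuation z = D₀.valuation a := by
    rw [← hab, map_mul, hb1, mul_one]
  rcases lt_or_eq_of_le haD with hlt | heq
  · refine nat_fp hcp.valp hz 0 ?_
    rw [Nat.cast_zero, sub_zero, hza]
    exact hlt
  obtain ⟨n₁, w₁, hw₁, hw₁1, c₁, hc₁, ha'⟩ := hcp.order a (le_loc V₀₀ S ha) heq
  obtain ⟨n₂, w₂, hw₂, hw₂1, c₂, hc₂, hb'⟩ := hcp.order b (le_loc V₀₀ S hb) hb1
  have hw₁0 : w₁ ≠ 0 := by rintro rfl; simp at hw₁1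
  have hw₂0 : w₂ ≠ 0 := by rintro rfl; simp at hw₂1
  have hb0 : b ≠ 0 := by rintro rfl; simp at hb1
  -- `x b = p y` with `y ∈ O` implies `x ∈ 𝔪`
  have small : ∀ (x y : K), y ∈ loc V₀₀ S → x * b = p * y → D₀.valuation x < 1 := by
    intro x y hy hxy
    have h1 := congrArg D₀.valuation hxy
    rw [map_mul, map_mul, hb1, mul_one] at h1
    rw [h1]
    exact mul_lt_one_of_nonneg_of_lt_one_left zero_le hcp.valp
      ((D₀.valuation_le_one_iff _).mpr (hcp.sub _ hy))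
  rcases le_or_gt n₂ n₁ with hle | hgt
  · -- `z ≡ z'`
    set z' := τ ^ (n₁ - n₂) * (w₁ * w₂⁻¹) with hz'def
    have hz'O : z' ∈ loc V₀₀ S := (loc V₀₀ S).mul_mem ((loc V₀₀ S).pow_mem hcp.t_mem _)
      ((loc V₀₀ S).mul_mem hw₁ (loc_inv hw₂ hw₂1))
    have e1 : D₀.valuation (z - z') < 1 := by
      apply small _ (c₁ - z' * c₂)
        ((loc V₀₀ S).sub_mem hc₁ ((loc V₀₀ S).mul_mem hz'O hc₂))
      have e2 : z' * (τ ^ n₂ * w₂) = τ ^ n₁ * w₁ := by
        rw [hz'def]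
        have : τ ^ n₁ = τ ^ (n₁ - n₂) * τ ^ n₂ := by rw [← pow_add, Nat.sub_add_cancel hle]
        rw [this]
        field_simp
      rw [sub_mul, hab]
      rw [ha', hb']
      linear_combination -e2
    have hz'D := hcp.sub _ hz'O
    obtain ⟨c, hcD, -⟩ := first_case D h S hSV D₀ τ hcp z' hz'O (resAlg_congr hz hz'D e1 hr)
    refine nat_fp hcp.valp hz c ?_
    have : z - (c : K) = (z - z') + (z' - c) := by ring
    rw [this]
    exact lt_of_le_of_lt (Valuation.map_add _ _ _) (max_lt e1 hcD)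
  · exfalso
    set z' := τ ^ (n₂ - n₁) * (w₂ * w₁⁻¹) with hz'def
    have hz'O : z' ∈ loc V₀₀ S := (loc V₀₀ S).mul_mem ((loc V₀₀ S).pow_mem hcp.t_mem _)
      ((loc V₀₀ S).mul_mem hw₂ (loc_inv hw₁ hw₁1))
    have hz'D := hcp.sub _ hz'O
    have e1 : D₀.valuation (z * z' - 1) < 1 := by
      apply small _ (c₁ * z' - c₂)
        ((loc V₀₀ S).sub_mem ((loc V₀₀ S).mul_mem hc₁ hz'O) hc₂)
      have e2 : z' * (τ ^ n₁ * w₁) = τ ^ n₂ * w₂ := by
        rw [hz'def]
        have : τ ^ n₂ = τ ^ (n₂ - n₁) * τ ^ n₁ := by rw [← pow_add, Nat.sub_add_cancel hgt.le]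
        rw [this]
        field_simp
      have e3 : (z * z' - 1) * b = a * z' - b := by rw [← hab]; ring
      rw [e3, ha', hb']
      linear_combination e2
    -- the residue class of `z'` is the inverse of that of `z`
    have hr' : ResAlg p D₀ z' := by
      obtain ⟨n, hn, hzn⟩ := hr
      refine ⟨n, hn, ?_⟩
      have e4 : IsLocalRing.residue D₀ ⟨z, hz⟩ * IsLocalRing.residue D₀ ⟨z', hz'D⟩ = 1 := by
        have : IsLocalRing.residue D₀ (⟨z, hz⟩ * ⟨z', hz'D⟩ - 1) = 0 :=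
          (res_iff D₀ _).mpr (by simpa using e1)
        rw [map_sub, map_mul, map_one, sub_eq_zero] at this
        exact this
      have e5 : IsLocalRing.residue D₀ (⟨z, hz⟩ ^ p ^ n - ⟨z, hz⟩) = 0 :=
        (res_iff D₀ _).mpr (by simpa using hzn)
      rw [map_sub, map_pow, sub_eq_zero] at e5
      have e6 : IsLocalRing.residue D₀ (⟨z', hz'D⟩ ^ p ^ n - ⟨z', hz'D⟩) = 0 := by
        rw [map_sub, map_pow, sub_eq_zero]
        have e7 := congrArg (· ^ p ^ n) e4
        simp only [mul_pow, one_pow, e5] at e7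
        calc IsLocalRing.residue D₀ ⟨z', hz'D⟩ ^ p ^ n
            = (IsLocalRing.residue D₀ ⟨z, hz⟩ * IsLocalRing.residue D₀ ⟨z', hz'D⟩) *
              IsLocalRing.residue D₀ ⟨z', hz'D⟩ ^ p ^ n := by rw [e4, one_mul]
          _ = IsLocalRing.residue D₀ ⟨z', hz'D⟩ * (IsLocalRing.residue D₀ ⟨z, hz⟩ *
              IsLocalRing.residue D₀ ⟨z', hz'D⟩ ^ p ^ n) := by ring
          _ = _ := by rw [e7, mul_one]
      have := (res_iff D₀ _).mp e6
      simpa using this
    obtain ⟨c, hcD, hcV⟩ := first_case D h S hSV D₀ τ hcp z' hz'O hr'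
    have hz'V : V₀₀.valuation z' < 1 := by
      rw [hz'def, map_mul, map_mul, map_inv₀, hw₁1, hw₂1, inv_one, mul_one, mul_one, map_pow]
      exact pow_lt_one₀ zero_le hcp.t_lt (by omega)
    have hcV' : V₀₀.valuation (c : K) < 1 := by
      have : (c : K) = z' - (z' - c) := by ring
      rw [this]
      exact lt_of_le_of_lt (Valuation.map_sub _ _ _) (max_lt hz'V hcV)
    have hpc : p ∣ c := by
      have hchar := res_charP (p := p) V₀₀ h.valp
      rw [← CharP.cast_eq_zero_iff (IsLocalRing.ResidueField V₀₀) p c]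
      have := (res_iff V₀₀ ((c : ℕ) : V₀₀)).mpr (by simpa using hcV')
      simpa using this
    have hcD' : D₀.valuation (c : K) < 1 := by
      have hchar := res_charP (p := p) D₀ hcp.valp
      have := (CharP.cast_eq_zero_iff (IsLocalRing.ResidueField D₀) p c).mpr hpc
      have h2 := (res_iff D₀ ((c : ℕ) : D₀)).mp (by simpa using this)
      simpa using h2
    have hz'lt : D₀.valuation z' < 1 := by
      have : z' = (z' - c) + c := by ring
      rw [this]
      exact lt_of_le_of_lt (Valuation.map_add _ _ _) (max_lt hcD hcD')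
    have hz'1 : D₀.valuation z' = 1 := by
      rw [hz'def, map_mul, map_mul, map_inv₀, unit_up hcp hw₁ hw₁1, unit_up hcp hw₂ hw₂1, inv_one,
        mul_one, mul_one, map_pow, hcp.t_unit, one_pow]
    rw [hz'1] at hz'lt
    exact lt_irrefl _ hz'lt

end DynBad
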