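import Pool.Agent.DynBad.ResDefs
import Pool.Agent.DynBad.PhiEv

/-!
# Module Conv: from the coordinates `(x, c)` to `(X, U) = (2x, x^2 - x + c)`

`k` a field with `2 ≠ 0`.  `θ : k[c][x] → k[X][U]` the `k`-algebra isomorphism with
`c ↦ U + X/2 - X^2/4`, `x ↦ X/2` (inverse `X ↦ 2x`, `U ↦ x^2 - x + c`; build both with
`aevalAeval` / `eval₂RingHom` and check on generators).
`θ(f_c^n(x) - x) = F_n(X,U)`: induction, `f^{n+1}(x) - x = (f^n(x))^2 + c - x` and
`f^n(x) = F_n + x`: `F_n^2 + 2x F_n + x^2 + c - x = F_n^2 + X F_n + U`.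
`θ(Φ_N) = Φ_N`: `∏_{μ=1} = Φ_N ∏_{μ=-1}` holds for both polynomials (over `ℤ`): for `Phi` it
follows from `prod_Phi` by Moebius inversion; for `dynatomic` transport the divisibility through
`θ` over `ℚ` (`∏_{μ=-1}(iter d - X)` is monic, so divisibility over `ℚ[c][x]` implies
divisibility over `ℤ[c][x]`).  Then cancel the nonzero factor.
-/

namespace DynBad

open Polynomial

namespace ConvAux

theorem moebius_mul {R : Type*} [CommRing R] [IsDomain R] (ψ G : ℕ → R)
    (hψ : ∀ m > 0, ψ m ≠ 0) (hG : ∀ m > 0, G m ≠ 0)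
    (h : ∀ m > 0, ∏ d ∈ m.divisors, ψ d = G m) {n : ℕ} (hn : 0 < n) :
    ψ n * (∏ d ∈ n.divisors.filter (fun d => ArithmeticFunction.moebius (n / d) = -1), G d) =
      ∏ d ∈ n.divisors.filter (fun d => ArithmeticFunction.moebius (n / d) = 1), G d := by
  let ι : R →+* FractionRing R := algebraMap R (FractionRing R)
  have hι : Function.Injective ι := IsFractionRing.injective _ _
  have h1 := (ArithmeticFunction.prod_eq_iff_prod_pow_moebius_eq_of_nonzero
    (f := fun m => ι (ψ m)) (g := fun m => ι (G m))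
    (fun m hm => (map_ne_zero_iff ι hι).mpr (hψ m hm))
    (fun m hm => (map_ne_zero_iff ι hι).mpr (hG m hm))).mp (by
      intro m hm
      rw [← map_prod, h m hm]) n hn
  rw [Nat.prod_divisorsAntidiagonal'
    (f := fun a b => ι (G b) ^ (ArithmeticFunction.moebius a)),
    PhiBasicAux.moebius_split n n.divisors (fun m => ι (G m)), ← map_prod, ← map_prod] at h1
  have hne : ι (∏ d ∈ n.divisors.filter
      (fun d => ArithmeticFunction.moebius (n / d) = -1), G d) ≠ 0 := by
    rw [map_ne_zero_iff ι hι, Finset.prod_ne_zero_iff]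
    intro d hd
    exact hG d (Nat.pos_of_mem_divisors (Finset.mem_filter.mp hd).1)
  apply hι
  rw [map_mul, ← h1, mul_assoc, inv_mul_cancel₀ hne, mul_one]

theorem F_iter (n : ℕ) : F (2 * X : ℤ[X][X]) (X ^ 2 - X + C X) n = iter n - X := by
  induction n with
  | zero =>
    rw [F_zero]
    simp [iter]
  | succ n ih =>
    rw [F_succ, ih]
    have h : iter (n + 1) = iter n ^ 2 + C X := rfl
    rw [h]
    ring

theorem iter_aux (n : ℕ) : (iter n).Monic ∧ (iter n).natDegree = 2 ^ n := by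
  induction n with
  | zero =>
    have h : iter 0 = X := rfl
    rw [h]
    exact ⟨monic_X, by rw [natDegree_X, pow_zero]⟩
  | succ n ih =>
    obtain ⟨hm, hd⟩ := ih
    have h : iter (n + 1) = iter n ^ 2 + C X := rfl
    have h2 : (iter n ^ 2).Monic := hm.pow 2
    have h2d : (iter n ^ 2).natDegree = 2 ^ (n + 1) := by
      rw [hm.natDegree_pow, hd, pow_succ]
      ring
    have hlt : (C X : ℤ[X][X]).natDegree < (iter n ^ 2).natDegree := by
      rw [h2d, natDegree_C]
      positivity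
    rw [h]
    exact ⟨h2.add_of_left (degree_lt_degree hlt),
      by rw [natDegree_add_eq_left_of_natDegree_lt hlt, h2d]⟩

theorem iter_sub_monic {n : ℕ} (hn : 1 ≤ n) : (iter n - X).Monic := by
  obtain ⟨hm, hd⟩ := iter_aux n
  refine hm.sub_of_left (degree_lt_degree ?_)
  rw [natDegree_X, hd]
  exact Nat.one_lt_two_pow (by omega)

theorem prod_monic (n : ℕ) (P : ℕ → Prop) [DecidablePred P] :
    (∏ d ∈ n.divisors.filter P, (iter d - X)).Monic := by
  refine monic_prod_of_monic _ _ fun d hd => ?_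
  exact iter_sub_monic (Nat.pos_of_mem_divisors (Finset.mem_filter.mp hd).1)

end ConvAux

open ConvAux

/-- Moebius form of `prod_Phi` -/
theorem Phi_mul_eq {n : ℕ} (hn : 1 ≤ n) :
    Phi n * (∏ d ∈ n.divisors.filter (fun d => ArithmeticFunction.moebius (n / d) = -1), FP d) =
      ∏ d ∈ n.divisors.filter (fun d => ArithmeticFunction.moebius (n / d) = 1), FP d :=
  moebius_mul Phi FP (fun _ hm => (Phi_monic hm).ne_zero) (fun _ hm => (FP_monic hm).ne_zero)
    (fun _ hm => prod_Phi hm) hn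

namespace ConvAux

theorem ev_inst {E : Type*} [CommRing E] (i1 i2 : Algebra ℤ E) (x u : E) :
    @ev ℤ E _ _ i1 x u = @ev ℤ E _ _ i2 x u := by
  have h : @algebraMap ℤ E _ _ i1 = @algebraMap ℤ E _ _ i2 := Subsingleton.elim _ _
  unfold ev
  rw [h]

theorem ev_mul_eq {n : ℕ} (hn : 1 ≤ n) :
    ev (2 * X : ℤ[X][X]) (X ^ 2 - X + C X) (Phi n) *
      (∏ d ∈ n.divisors.filter (fun d => ArithmeticFunction.moebius (n / d) = -1),
        (iter d - X)) =
      ∏ d ∈ n.divisors.filter (fun d => ArithmeticFunction.moebius (n / d) = 1),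
        (iter d - X) := by
  have h := congrArg (ev (2 * X : ℤ[X][X]) (X ^ 2 - X + C X)) (Phi_mul_eq hn)
  rw [map_mul, map_prod, map_prod] at h
  have h2 : ∀ d : ℕ, ev (2 * X : ℤ[X][X]) (X ^ 2 - X + C X) (FP d) = iter d - X := by
    intro d
    rw [ev_inst _ (Ring.toIntAlgebra ℤ[X][X]), ev_FP, F_iter]
  rw [Finset.prod_congr rfl fun d _ => h2 d, Finset.prod_congr rfl fun d _ => h2 d] at h
  exact h

end ConvAux

/-- `Φ_N(x,c)` as a value of `Phi N`, over any field (also of characteristic 2): the identity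
`Φ_N(x,c) = Phi_N(2x, x^2 - x + c)` holds in `ℤ[c][x]`. -/
theorem ev_conv {n : ℕ} (hn : 1 ≤ n) :
    dynatomic n = ev (2 * X : ℤ[X][X]) (X ^ 2 - X + C X) (Phi n) := by
  rw [dynatomic, ← ev_mul_eq hn, mul_comm]
  exact mul_divByMonic_cancel_left _ (prod_monic n _)

theorem dynatomic_mul_eq {n : ℕ} (hn : 1 ≤ n) :
    dynatomic n *
      (∏ d ∈ n.divisors.filter (fun d => ArithmeticFunction.moebius (n / d) = -1),
        (iter d - X)) =
      ∏ d ∈ n.divisors.filter (fun d => ArithmeticFunction.moebius (n / d) = 1),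
        (iter d - X) := by
  rw [ev_conv hn]
  exact ev_mul_eq hn

theorem dynatomic_monic {n : ℕ} (hn : 1 ≤ n) : (dynatomic n).Monic := by
  refine (prod_monic n (fun d => ArithmeticFunction.moebius (n / d) = -1)).of_mul_monic_right ?_
  rw [dynatomic_mul_eq hn]
  exact prod_monic n _

namespace ConvAux

variable {k : Type} [Field k]

/-- evaluation as an algebra homomorphism -/
noncomputable def evA (a b : k[X][X]) : k[X][X] →ₐ[k] k[X][X] :=
  { ev (R := k) a b with
    commutes' := fun r => ev_CC a b r }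

theorem evA_apply (a b P : k[X][X]) : evA a b P = ev a b P := rfl

theorem evA_comp (a b c d : k[X][X]) (h1 : evA a b c = C X) (h2 : evA a b d = X) :
    (evA a b).comp (evA c d) = AlgHom.id k k[X][X] := by
  apply AlgHom.coe_ringHom_injective
  apply Polynomial.ringHom_ext'
  · apply Polynomial.ringHom_ext'
    · ext r
      simp [evA_apply]
    · have e : evA c d (C X) = c := by rw [evA_apply, ev_CX]
      change evA a b (evA c d (C X)) = C X
      rw [e, h1]
  · have e : evA c d X = d := by rw [evA_apply, ev_X]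
    change evA a b (evA c d X) = X
    rw [e, h2]

end ConvAux

theorem conv {k : Type} [Field k] (h2 : (2 : k) ≠ 0) {N : ℕ} (hN : 1 ≤ N) :
    ∃ θ : k[X][X] ≃ₐ[k] k[X][X],
      θ (C X) = X + C (C (1 / 2) * X - C (1 / 4) * X ^ 2) ∧ θ X = C (C (1 / 2) * X) ∧
      θ (dynatomicOver N k) = (Phi N).map (mapRingHom (Int.castRingHom k)) := by
  set a : k[X][X] := X + C (C (1 / 2) * X - C (1 / 4) * X ^ 2) with ha
  set b : k[X][X] := C (C (1 / 2) * X) with hb
  set c : k[X][X] := 2 * X with hc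
  set d : k[X][X] := X ^ 2 - X + C X with hd
  have e2 : (2 : k[X][X]) = C (C 2) := by rw [map_ofNat, map_ofNat]
  have q2 : (2 : k) * (1 / 2) = 1 := by field_simp
  have q4 : (1 / 2 : k) ^ 2 = 1 / 4 := by
    rw [div_pow, one_pow]
    norm_num
  have hab1 : evA a b c = C X := by
    rw [evA_apply, hc, map_mul, ev_X, e2, ev_CC, hb]
    change C (C 2) * C (C (1 / 2) * X) = C X
    rw [← C_mul, ← mul_assoc, ← C_mul, q2, C_1, one_mul]
  have hab2 : evA a b d = X := by
    rw [evA_apply, hd, map_add, map_sub, map_pow, ev_X, ev_CX, hb, ha]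
    have : (C (1 / 2) * X : k[X]) ^ 2 - C (1 / 2) * X + (C (1 / 2) * X - C (1 / 4) * X ^ 2) = 0 := by
      rw [mul_pow, ← C_pow, q4]
      ring
    calc (C (C (1 / 2) * X) : k[X][X]) ^ 2 - C (C (1 / 2) * X) +
          (X + C (C (1 / 2) * X - C (1 / 4) * X ^ 2))
        = X + C ((C (1 / 2) * X : k[X]) ^ 2 - C (1 / 2) * X +
            (C (1 / 2) * X - C (1 / 4) * X ^ 2)) := by
          simp only [C_add, C_sub, C_pow, C_mul]
          ring
      _ = X := by rw [this, C_0, add_zero]
  have hcd1 : evA c d a = C X := by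
    rw [evA_apply, ha, map_add, ev_X, ev_C, hd, hc]
    simp only [eval₂_sub, eval₂_mul, eval₂_C, eval₂_pow, eval₂_X]
    change X ^ 2 - X + C X + (C (C (1 / 2)) * (2 * X) - C (C (1 / 4)) * (2 * X) ^ 2) = C X
    have h3 : C (C (1 / 2)) * (2 * X) = (X : k[X][X]) := by
      rw [e2, ← mul_assoc, ← C_mul, ← C_mul, mul_comm (1 / 2 : k) 2, q2, C_1, C_1, one_mul]
    have h4 : C (C (1 / 4)) * (2 * X) ^ 2 = (X ^ 2 : k[X][X]) := by
      rw [← q4, C_pow, C_pow, ← mul_pow, h3]
    rw [h3, h4]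
    ring
  have hcd2 : evA c d b = X := by
    rw [evA_apply, hb, ev_C, hc]
    simp only [eval₂_mul, eval₂_C, eval₂_X]
    change C (C (1 / 2)) * (2 * X) = X
    rw [e2, ← mul_assoc, ← C_mul, ← C_mul, mul_comm (1 / 2 : k) 2, q2, C_1, C_1, one_mul]
  refine ⟨AlgEquiv.ofAlgHom (evA a b) (evA c d) (evA_comp a b c d hab1 hab2)
    (evA_comp c d a b hcd1 hcd2), ?_, ?_, ?_⟩
  · change evA a b (C X) = a
    rw [evA_apply, ev_CX]
  · change evA a b X = b
    rw [evA_apply, ev_X]
  · change evA a b (dynatomicOver N k) = _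
    have h5 : dynatomicOver N k =
        evA c d ((Phi N).map (mapRingHom (Int.castRingHom k))) := by
      rw [evA_apply, ev_map, dynatomicOver, ev_conv hN]
      have h6 := ev_comp_int (mapRingHom (mapRingHom (Int.castRingHom k)))
        (2 * X : ℤ[X][X]) (X ^ 2 - X + C X) (Phi N)
      rw [coe_mapRingHom] at h6
      rw [ev_inst _ (Ring.toIntAlgebra ℤ[X][X]), h6, hc, hd,
        ev_inst _ (Ring.toIntAlgebra k[X][X])]
      simp
    rw [h5]
    exact AlgHom.congr_fun (evA_comp a b c d hab1 hab2) _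

end DynBad
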