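import Pool.Agent.DynBad.Conv

/-!
# Module ConvSing: singular points in the two coordinate systems

`Φ_N(x,c) = Phi_N(2x, x^2 - x + c)` (`ev_conv`).  Chain rule:
`∂_x Φ = 2 (∂_X Phi) + (2x-1)(∂_U Phi)`, `∂_c Φ = ∂_U Phi`, so for `2 ≠ 0` the vanishing of both
partial derivatives is the same in both coordinate systems.  (One can use dual numbers:
`ev_add_sq_zero`.)  `x ↦ 2x`, `(x,c) ↦ (2x, x^2-x+c)` is a bijection of `k × k`.
-/

namespace DynBad

open Polynomial

namespace ConvSingAux

theorem ev_dyn {E : Type*} [CommRing E] {N : ℕ} (hN : 1 ≤ N) (x c : E) :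
    ev c x (dynatomic N) = ev (2 * x) (x ^ 2 - x + c) (Phi N) := by
  rw [ev_conv hN, ConvAux.ev_inst _ (Ring.toIntAlgebra ℤ[X][X])]
  have h := ev_comp_int (ev c x : ℤ[X][X] →+* E) (2 * X : ℤ[X][X]) (X ^ 2 - X + C X) (Phi N)
  rw [h]
  simp only [map_mul, map_add, map_sub, map_pow, map_ofNat]
  simp

/-- The chain rule, with the help of a square zero extension. -/
theorem chain {k E : Type*} [CommRing k] [CommRing E] (ι : k →+* E) {ε : E} (hε : ε * ε = 0)
    (hinj : ∀ a b : k, ι a + ε * ι b = 0 → a = 0 ∧ b = 0) {N : ℕ} (hN : 1 ≤ N) (x c x' c' : k) :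
    c' * ev c x (dX (dynatomic N)) + x' * ev c x (derivative (dynatomic N)) =
      2 * x' * ev (2 * x) (x ^ 2 - x + c) (dX (Phi N)) +
        ((2 * x - 1) * x' + c') * ev (2 * x) (x ^ 2 - x + c) (derivative (Phi N)) := by
  have h1 := ev_dyn hN (ι x + ε * ι x') (ι c + ε * ι c')
  have e1 : 2 * (ι x + ε * ι x') = ι (2 * x) + ε * ι (2 * x') := by
    rw [map_mul, map_mul, map_ofNat]
    ring
  have e2 : (ι x + ε * ι x') ^ 2 - (ι x + ε * ι x') + (ι c + ε * ι c') =
      ι (x ^ 2 - x + c) + ε * ι ((2 * x - 1) * x' + c') := by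
    simp only [map_mul, map_add, map_sub, map_pow, map_ofNat, map_one]
    linear_combination (ι x') ^ 2 * hε
  rw [e1, e2, ev_add_sq_zero _ _ hε, ev_add_sq_zero _ _ hε] at h1
  simp only [← ev_comp_int ι] at h1
  have h2 := hinj (ev c x (dynatomic N) - ev (2 * x) (x ^ 2 - x + c) (Phi N))
    (c' * ev c x (dX (dynatomic N)) + x' * ev c x (derivative (dynatomic N)) -
      (2 * x' * ev (2 * x) (x ^ 2 - x + c) (dX (Phi N)) +
        ((2 * x - 1) * x' + c') * ev (2 * x) (x ^ 2 - x + c) (derivative (Phi N)))) (by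
    simp only [map_mul, map_add, map_sub, map_ofNat, map_one] at h1 ⊢
    linear_combination h1)
  exact sub_eq_zero.1 h2.2

theorem dual_inj {k : Type*} [CommRing k] (a b : k)
    (h : (TrivSqZeroExt.inlHom k k : k →+* DualNumber k) a +
      DualNumber.eps * (TrivSqZeroExt.inlHom k k : k →+* DualNumber k) b = 0) : a = 0 ∧ b = 0 := by
  have h1 := congrArg TrivSqZeroExt.fst h
  have h2 := congrArg TrivSqZeroExt.snd h
  simp at h1 h2
  exact ⟨h1, h2⟩

theorem chain_k {k : Type*} [CommRing k] {N : ℕ} (hN : 1 ≤ N) (x c x' c' : k) :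
    c' * ev c x (dX (dynatomic N)) + x' * ev c x (derivative (dynatomic N)) =
      2 * x' * ev (2 * x) (x ^ 2 - x + c) (dX (Phi N)) +
        ((2 * x - 1) * x' + c') * ev (2 * x) (x ^ 2 - x + c) (derivative (Phi N)) :=
  chain (TrivSqZeroExt.inlHom k k : k →+* DualNumber k) (DualNumber.eps_mul_eps) dual_inj hN x c x' c'

theorem ev_eq {k : Type*} [CommRing k] (x c : k) (P : k[X][X]) :
    ev (R := k) c x P = (P.eval (C x)).eval c := by
  have : (ev (R := k) c x) = (evalRingHom c).comp (evalRingHom (C x)) := by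
    apply Polynomial.ringHom_ext'
    · apply Polynomial.ringHom_ext'
      · ext a
        simp [ev]
      · simp [ev]
    · simp [ev]
  exact congr($this P)

theorem eval_map_eq {k : Type} [Field k] (x c : k) (P : ℤ[X][X]) :
    ((P.map (mapRingHom (Int.castRingHom k))).eval (C x)).eval c = ev c x P := by
  rw [← ev_eq, ev_map]

theorem dX_X_pow (n : ℕ) : dX (X ^ n) = 0 := by
  induction n with
  | zero => rw [pow_zero, dX_one]
  | succ n ih => rw [pow_succ, dX_mul, ih, dX_X, zero_mul, mul_zero, add_zero]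

theorem derivative_eval {k : Type} [Field k] (x : k) (P : ℤ[X][X]) :
    ((P.map (mapRingHom (Int.castRingHom k))).eval (C x)).derivative =
      ((dX P).map (mapRingHom (Int.castRingHom k))).eval (C x) := by
  induction P using Polynomial.induction_on' with
  | add P Q hP hQ =>
    rw [Polynomial.map_add, eval_add, derivative_add, hP, hQ, dX_add, Polynomial.map_add, eval_add]
  | monomial n a =>
    rw [← C_mul_X_pow_eq_monomial, dX_mul, dX_X_pow, mul_zero, add_zero, dX_C]
    simp only [Polynomial.map_mul, Polynomial.map_C, Polynomial.map_pow, Polynomial.map_X, eval_mul,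
      eval_C, eval_pow, eval_X, coe_mapRingHom]
    rw [← C_pow, derivative_mul, derivative_C, mul_zero, add_zero, derivative_map]

theorem singular_iff_ev {k : Type} [Field k] {N : ℕ} (x c : k) :
    IsSingularPt N x c ↔ ev c x (dynatomic N) = 0 ∧ ev c x (derivative (dynatomic N)) = 0 ∧
      ev c x (dX (dynatomic N)) = 0 := by
  unfold IsSingularPt dynatomicOver
  rw [derivative_map, derivative_eval, eval_map_eq, eval_map_eq, eval_map_eq]

end ConvSingAux

open ConvSingAux

theorem singularPt_iff {k : Type} [Field k] (h2 : (2 : k) ≠ 0) {N : ℕ} (hN : 1 ≤ N) (x c : k) :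
    IsSingularPt N x c ↔ Sing N (2 * x) (x ^ 2 - x + c) := by
  have h0 := ev_dyn hN x c
  have h3 := chain_k hN x c 0 1
  have h4 := chain_k hN x c 1 0
  simp only [one_mul, zero_mul, mul_zero, add_zero, zero_add, mul_one] at h3 h4
  rw [singular_iff_ev, h0, h4, h3]
  unfold Sing
  constructor
  · rintro ⟨e1, e2, e3⟩
    rw [e3, mul_zero, add_zero] at e2
    exact ⟨e1, (mul_eq_zero.1 e2).resolve_left h2, e3⟩
  · rintro ⟨e1, e2, e3⟩
    refine ⟨e1, ?_, e3⟩
    rw [e2, e3, mul_zero, mul_zero, add_zero]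

theorem smoothMod_iff {p : ℕ} [Fact p.Prime] (hp : p ≠ 2) {N : ℕ} (hN : 1 ≤ N) :
    SmoothMod N p ↔ ∀ x c : AlgebraicClosure (ZMod p), ¬ IsSingularPt N x c := by
  have h2 : (2 : AlgebraicClosure (ZMod p)) ≠ 0 := by
    intro h
    have h1 : ((2 : ℕ) : AlgebraicClosure (ZMod p)) = 0 := by exact_mod_cast h
    rw [CharP.cast_eq_zero_iff (AlgebraicClosure (ZMod p)) p] at h1
    exact hp ((Nat.prime_dvd_prime_iff_eq Fact.out Nat.prime_two).1 h1)
  constructor
  · intro h x c hs
    exact h _ _ ((singularPt_iff h2 hN x c).1 hs)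
  · intro h x u hs
    apply h (x / 2) (u - (x / 2) ^ 2 + x / 2)
    rw [singularPt_iff h2 hN]
    have e1 : 2 * (x / 2) = x := mul_div_cancel₀ x h2
    have e2 : (x / 2) ^ 2 - x / 2 + (u - (x / 2) ^ 2 + x / 2) = u := by ring
    rw [e1, e2]
    exact hs

end DynBad
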