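import Pool.Agent.DynBad.Ident

/-!
# Module Cusp: the cusp lemma

Write `|z| = V.valuation z`, `X_j = XX x u j`, `U_j = UU x u j`.  We have `X_0 = x`, `|x| > 1`
(as `x ∉ V`), `X_{j+1} = X_j + 2 U_j` (`XX_succ`), `U_{j+1} = U_j (U_j + X_j)` (`UU_succ`), and
both sequences are `N`-periodic (`XX_add_of_eq_zero`, `UU_add_of_eq_zero`), so maxima over all `j`
exist (take the maximum over `range N`).

Case `|2| = 1`.  Let `q = 4 u + 2 x - x^2`; one checks `X_j^2 + q = 2 X_{j+1}` for all `j`
(induction: `X_{j+1}^2 - X_j^2 = 4 U_j (U_j + X_j) = 4 U_{j+1} = 2 (X_{j+2} - X_{j+1})`).  Let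
`m = max |X_j| ≥ |x| > 1`, attained at `i`.  `|X_i^2| = m^2 > m ≥ |2 X_{i+1}|`, so `|q| = m^2`, and
then for every `j`, `|X_j^2| = |2 X_{j+1} - q| = m^2`.  So all `|X_j| = m = |x|`.
`2 U_j = X_{j+1} - X_j` gives `|U_j| ≤ m`.  `(X_{j+1} - X_j)(X_{j+1} + X_j) = 4 U_{j+1}` has
absolute value `≤ m < m^2`, so `|X_{j+1} - X_j| < m` or `|X_{j+1} + X_j| < m`, i.e. `|U_j| < m` or
`|U_j + X_j| < m` (`X_{j+1} + X_j = 2 (U_j + X_j)`); the last claim (`X_j ≡ ± x`) is an induction
on `j` using the same alternative.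

Case `|2| < 1`.  Let `M = max |U_j|`, attained at `i`.  `|X_j - x| ≤ |2| M` for all `j`
(`X_j = x + 2 F_j`, `F_j = ∑_{k<j} U_k`).  If `M > |x|` then `|X_i| < M`, `|U_i + X_i| = M` and
`|U_{i+1}| = M^2 > M`, a contradiction.  So `M ≤ |x|`, hence `|X_j - x| ≤ |2| |x| < |x|` and
`|X_j| = |x|`.  Finally `|U_j| |U_j + X_j| = |U_{j+1}| ≤ |x| < |x|^2` gives the alternative.
-/

namespace DynBad

open Finset

variable {K : Type*} [Field K] (V : ValuationSubring K) {x u : K} {N : ℕ}

namespace CuspAux

theorem exists_max {Γ : Type*} [LinearOrder Γ] (g : ℕ → Γ) (hN : 1 ≤ N)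
    (hg : ∀ k, g (N + k) = g k) : ∃ i, ∀ j, g j ≤ g i := by
  obtain ⟨i, _, hi⟩ := Finset.exists_max_image (range N) g ⟨0, mem_range.mpr (by omega)⟩
  refine ⟨i, fun j => ?_⟩
  have hper : Function.Periodic g N := fun k => by rw [add_comm, hg]
  rw [← hper.map_mod_nat j]
  exact hi _ (mem_range.mpr (Nat.mod_lt _ (by omega)))

theorem one_lt (hx : x ∉ V) : 1 < V.valuation x := by
  rw [← V.valuation_le_one_iff, not_le] at hx
  exact hx

theorem val_two_le : V.valuation (2 : K) ≤ 1 := by
  rw [V.valuation_le_one_iff]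
  have h := V.add_mem 1 1 V.one_mem V.one_mem
  have e : (1 : K) + 1 = 2 := by norm_num
  rwa [e] at h

theorem lt_sq {Γ : Type*} [LinearOrderedCommGroupWithZero Γ] {a : Γ} (ha : 1 < a) : a < a ^ 2 := by
  have h0 : 0 < a := zero_lt_one.trans ha
  calc a = a * 1 := (mul_one a).symm
    _ < a * a := mul_lt_mul_of_pos_left ha h0
    _ = a ^ 2 := (pow_two a).symm

/-- the alternative -/
theorem alt {m : V.ValueGroup} (h1 : 1 < m) (hU : ∀ j, V.valuation (UU x u j) ≤ m) (j : ℕ) :
    V.valuation (UU x u j) < m ∨ V.valuation (UU x u j + XX x u j) < m := by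
  by_contra hcon
  push Not at hcon
  obtain ⟨h2, h3⟩ := hcon
  have h4 : m ^ 2 ≤ V.valuation (UU x u (j + 1)) := by
    rw [UU_succ, map_mul, pow_two]
    exact mul_le_mul' h2 h3
  exact absurd ((h4.trans (hU (j + 1))).trans_lt (lt_sq h1)) (lt_irrefl _)

theorem alt2 {m : V.ValueGroup} (h1 : 1 < m) (hU : ∀ j, V.valuation (UU x u j) ≤ m) (j : ℕ) :
    V.valuation (XX x u j - x) < m ∨ V.valuation (XX x u j + x) < m := by
  have h0 : 0 < m := zero_lt_one.trans h1
  have h2le : ∀ z : K, V.valuation z < m → V.valuation (2 * z) < m := by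
    intro z hz
    rw [map_mul]
    exact (mul_le_of_le_one_left' (val_two_le V)).trans_lt hz
  induction j with
  | zero =>
    left
    rw [XX_zero, sub_self, map_zero]
    exact h0
  | succ j ih =>
    rcases alt V h1 hU j with h | h
    · have h' := h2le _ h
      rcases ih with h3 | h3
      · left
        have e : XX x u (j + 1) - x = (XX x u j - x) + 2 * UU x u j := by
          rw [XX_succ]; ring
        rw [e]
        exact Valuation.map_add_lt _ h3 h'
      · right
        have e : XX x u (j + 1) + x = (XX x u j + x) + 2 * UU x u j := by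
          rw [XX_succ]; ring
        rw [e]
        exact Valuation.map_add_lt _ h3 h'
    · have h' := h2le _ h
      rcases ih with h3 | h3
      · right
        have e : XX x u (j + 1) + x = 2 * (UU x u j + XX x u j) + -(XX x u j - x) := by
          rw [XX_succ]; ring
        rw [e]
        exact Valuation.map_add_lt _ h' (by rw [Valuation.map_neg]; exact h3)
      · left
        have e : XX x u (j + 1) - x = 2 * (UU x u j + XX x u j) + -(XX x u j + x) := by
          rw [XX_succ]; ring
        rw [e]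
        exact Valuation.map_add_lt _ h' (by rw [Valuation.map_neg]; exact h3)

theorem sq_add (j : ℕ) : XX x u j ^ 2 + (4 * u + 2 * x - x ^ 2) = 2 * XX x u (j + 1) := by
  induction j with
  | zero => rw [XX_succ, XX_zero, UU_zero]; ring
  | succ j ih =>
    rw [XX_succ x u (j + 1), UU_succ]
    have h := XX_succ x u j
    rw [h] at ih ⊢
    linear_combination ih

/-- the case `|2| = 1` -/
theorem caseA (hN : 1 ≤ N) (hF : F x u N = 0) (hx : x ∉ V) (h2 : V.valuation (2 : K) = 1) (j : ℕ) :
    V.valuation (XX x u j) = V.valuation x ∧ V.valuation (UU x u j) ≤ V.valuation x := by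
  have hx1 := one_lt V hx
  obtain ⟨i, hi⟩ := exists_max (N := N) (fun j => V.valuation (XX x u j)) hN
    (fun k => by rw [XX_add_of_eq_zero hF])
  set m := V.valuation (XX x u i) with hm
  have hxm : V.valuation x ≤ m := by simpa using hi 0
  have hm1 : 1 < m := hx1.trans_le hxm
  have h2z : ∀ z : K, V.valuation (2 * z) = V.valuation z := fun z => by rw [map_mul, h2, one_mul]
  set q := 4 * u + 2 * x - x ^ 2 with hq
  have hqm : V.valuation q = m ^ 2 := by
    have e : q = 2 * XX x u (i + 1) + -(XX x u i ^ 2) := by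
      rw [← sq_add i]
      ring
    rw [e]
    have h3 : V.valuation (2 * XX x u (i + 1)) < V.valuation (-(XX x u i ^ 2)) := by
      rw [h2z, Valuation.map_neg, map_pow, ← hm]
      exact (hi _).trans_lt (lt_sq hm1)
    rw [Valuation.map_add_eq_of_lt_right _ h3, Valuation.map_neg, map_pow]
  have hall : ∀ j, V.valuation (XX x u j) = m := by
    intro j
    have e : XX x u j ^ 2 = 2 * XX x u (j + 1) + -q := by
      rw [← sq_add j]
      ring
    have h3 : V.valuation (2 * XX x u (j + 1)) < V.valuation (-q) := by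
      rw [h2z, Valuation.map_neg, hqm]
      exact (hi _).trans_lt (lt_sq hm1)
    have h4 : V.valuation (XX x u j) ^ 2 = m ^ 2 := by
      rw [← map_pow, e, Valuation.map_add_eq_of_lt_right _ h3, Valuation.map_neg, hqm]
    exact (pow_left_inj₀ zero_le zero_le two_ne_zero).mp h4
  have hxm' : V.valuation x = m := by simpa using hall 0
  refine ⟨by rw [hall, hxm'], ?_⟩
  rw [hxm', ← h2z]
  have e : 2 * UU x u j = XX x u (j + 1) + -XX x u j := by
    rw [XX_succ]; ring
  rw [e]
  refine (Valuation.map_add _ _ _).trans (max_le ?_ ?_)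
  · rw [hall]
  · rw [Valuation.map_neg, hall]

/-- the case `|2| < 1` -/
theorem caseB (hN : 1 ≤ N) (hF : F x u N = 0) (hx : x ∉ V) (h2 : V.valuation (2 : K) < 1) (j : ℕ) :
    V.valuation (XX x u j) = V.valuation x ∧ V.valuation (UU x u j) ≤ V.valuation x := by
  have hx1 := one_lt V hx
  have hx0 : 0 < V.valuation x := zero_lt_one.trans hx1
  obtain ⟨i, hi⟩ := exists_max (N := N) (fun j => V.valuation (UU x u j)) hN
    (fun k => by rw [UU_add_of_eq_zero hF])
  set M := V.valuation (UU x u i) with hM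
  have hFj : ∀ j, V.valuation (F x u j) ≤ M := by
    intro j
    rw [F_eq_sum]
    exact Valuation.map_sum_le _ fun k _ => hi k
  have hXj : ∀ j, V.valuation (XX x u j - x) ≤ V.valuation (2 : K) * M := by
    intro j
    have e : XX x u j - x = 2 * F x u j := by
      rw [XX]; ring
    rw [e, map_mul]
    exact mul_le_mul_right (hFj j) _
  have hMx : M ≤ V.valuation x := by
    by_contra hcon
    rw [not_le] at hcon
    have hM1 : 1 < M := hx1.trans hcon
    have hM0 : 0 < M := zero_lt_one.trans hM1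
    have h3 : V.valuation (XX x u i) < M := by
      have e : XX x u i = (XX x u i - x) + x := by ring
      rw [e]
      refine Valuation.map_add_lt _ ((hXj i).trans_lt ?_) hcon
      calc V.valuation (2 : K) * M < 1 * M := mul_lt_mul_of_pos_right h2 hM0
        _ = M := one_mul M
    have h4 : V.valuation (UU x u i + XX x u i) = M := by
      rw [Valuation.map_add_eq_of_lt_left _ h3]
    have h5 : V.valuation (UU x u (i + 1)) = M ^ 2 := by
      rw [UU_succ, map_mul, h4, pow_two]
    have h6 := hi (i + 1)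
    rw [h5] at h6
    exact absurd (h6.trans_lt (lt_sq hM1)) (lt_irrefl _)
  refine ⟨?_, (hi j).trans hMx⟩
  have h3 : V.valuation (XX x u j - x) < V.valuation x := by
    refine (hXj j).trans_lt ?_
    calc V.valuation (2 : K) * M ≤ V.valuation (2 : K) * V.valuation x := mul_le_mul_right hMx _
      _ < 1 * V.valuation x := mul_lt_mul_of_pos_right h2 hx0
      _ = V.valuation x := one_mul _
  have e : XX x u j = (XX x u j - x) + x := by ring
  rw [e]
  exact Valuation.map_add_eq_of_lt_right _ h3

theorem both (hN : 1 ≤ N) (hF : F x u N = 0) (hx : x ∉ V) (j : ℕ) :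
    V.valuation (XX x u j) = V.valuation x ∧ V.valuation (UU x u j) ≤ V.valuation x := by
  rcases lt_or_eq_of_le (val_two_le V) with h | h
  · exact caseB V hN hF hx h j
  · exact caseA V hN hF hx h j

end CuspAux

open CuspAux

theorem cusp (hN : 1 ≤ N) (hF : F x u N = 0) (hx : x ∉ V) (j : ℕ) :
    V.valuation (UU x u j) ≤ V.valuation x ∧
    V.valuation (XX x u j) = V.valuation x ∧
    (V.valuation (UU x u j) < V.valuation x ∨
      V.valuation (UU x u j + XX x u j) < V.valuation x) ∧
    (V.valuation (XX x u j - x) < V.valuation x ∨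
      V.valuation (XX x u j + x) < V.valuation x) :=
  ⟨(both V hN hF hx j).2, (both V hN hF hx j).1,
    alt V (one_lt V hx) (fun k => (both V hN hF hx k).2) j,
    alt2 V (one_lt V hx) (fun k => (both V hN hF hx k).2) j⟩

/-- `|F_k| ≤ |x|` (`F_k = ∑_{j<k} U_j`). -/
theorem cusp_F (hN : 1 ≤ N) (hF : F x u N = 0) (hx : x ∉ V) (k : ℕ) :
    V.valuation (F x u k) ≤ V.valuation x := by
  rw [F_eq_sum]
  exact Valuation.map_sum_le _ fun j _ => (both V hN hF hx j).2

/-- `|∂F_n/∂u| = |x|^(n-1)`: in `aa_eq_sum` the term `j = 0` has absolute value `|x|^(n-1)`, the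
term `j` has absolute value `|x|^(n-1-j)`, and `|x| > 1`. -/
theorem cusp_aa (hN : 1 ≤ N) (hF : F x u N = 0) (hx : x ∉ V) {n : ℕ} (hn : 1 ≤ n) :
    V.valuation (aa x u n) = V.valuation x ^ (n - 1) := by
  have hx1 := one_lt V hx
  induction n, hn using Nat.le_induction with
  | base => simp
  | succ n hn ih =>
    rw [aa_succ]
    have h1 : V.valuation (XX x u n * aa x u n) = V.valuation x ^ n := by
      rw [map_mul, ih, (both V hN hF hx n).1, ← pow_succ']
      congr 1
      omega
    have h2 : V.valuation (1 : K) < V.valuation (XX x u n * aa x u n) := by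
      rw [h1, map_one]
      exact one_lt_pow₀ hx1 (by omega)
    rw [Valuation.map_add_eq_of_lt_left _ h2, h1, Nat.add_sub_cancel]

theorem cusp_aa_ne_zero (hN : 1 ≤ N) (hF : F x u N = 0) (hx : x ∉ V) {n : ℕ} (hn : 1 ≤ n) :
    aa x u n ≠ 0 := by
  have h1 := cusp_aa V hN hF hx hn
  have hx1 := one_lt V hx
  intro h0
  rw [h0, map_zero] at h1
  exact pow_ne_zero _ (zero_lt_one.trans hx1).ne' h1.symm

end DynBad
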