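import Mathlib

/-!
# Module MvEtale: `n` equations in `n` unknowns with invertible Jacobian are étale

`C = (R'[X_1..X_n]/(r_1..r_n))[1/J]`, `J = det (∂r_i/∂X_j)`.  Finitely presented; formally étale
by Newton's method: for a square zero ideal `I ⊆ E` and `C → E/I`, lift the images of the
variables to `e ∈ E^n`; `r(e) ∈ I^n`; the matrix `(∂r_i/∂X_j)(e)` is invertible (its determinant is
a unit mod the nilpotent ideal `I`), and `r(e + h) = r(e) + Jac(e) h` for `h ∈ I^n` has exactly one
solution.  Or use `Algebra.SubmersivePresentation` / `IsStandardSmoothOfRelativeDimension 0`.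

Then for `v : Fin n → K` with `r_i(v) = 0`, `J(v) ≠ 0`, the homomorphism `C → K`, `X_i ↦ v_i`, has
range `adjoin R' (range v ∪ {J(v)⁻¹})`.
-/

namespace DynBad

open MvPolynomial

section

variable {R' : Type} [CommRing R'] {n : ℕ} (r : Fin n → MvPolynomial (Fin n) R')

/-- the Jacobian determinant -/
noncomputable def mvJ : MvPolynomial (Fin n) R' :=
  Matrix.det (Matrix.of fun i j => pderiv j (r i))

/-- the relations `r_i = 0`, `J Y = 1` -/
noncomputable def mvRel : Fin n ⊕ Unit → MvPolynomial (Fin n ⊕ Unit) R'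
  | Sum.inl i => rename Sum.inl (r i)
  | Sum.inr _ => rename Sum.inl (mvJ r) * X (Sum.inr ()) - 1

/-- the étale algebra -/
abbrev MvC : Type := MvPolynomial (Fin n ⊕ Unit) R' ⧸ Ideal.span (Set.range (mvRel r))

/-- the presentation -/
noncomputable def mvP : Algebra.PreSubmersivePresentation R' (MvC r) (Fin n ⊕ Unit) (Fin n ⊕ Unit) where
  __ := Algebra.Presentation.naive (v := mvRel r)
  map := id
  map_inj := Function.injective_id

lemma pderiv_inl_rename (i : Fin n) (q : MvPolynomial (Fin n) R') :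
    pderiv (Sum.inl i : Fin n ⊕ Unit) (rename Sum.inl q) = rename Sum.inl (pderiv i q) :=
  pderiv_rename Sum.inl_injective i q

lemma pderiv_inr_rename (u : Unit) (q : MvPolynomial (Fin n) R') :
    pderiv (Sum.inr u : Fin n ⊕ Unit) (rename Sum.inl q) = 0 := by
  induction q using MvPolynomial.induction_on with
  | C a => simp
  | add p q hp hq => simp [hp, hq]
  | mul_X p i hp =>
    rw [map_mul, rename_X, pderiv_mul, hp, pderiv_X_of_ne (by simp)]
    simp

lemma mvP_jacobiMatrix : (mvP r).jacobiMatrix = Matrix.fromBlocks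
    ((rename (Sum.inl : Fin n → Fin n ⊕ Unit)).mapMatrix
      (Matrix.transpose (Matrix.of fun i j => pderiv j (r i))))
    (Matrix.of fun i _ => rename Sum.inl (pderiv i (mvJ r)) * X (Sum.inr ()))
    0 (Matrix.of fun _ _ => rename Sum.inl (mvJ r)) := by
  ext i j : 1
  rw [Algebra.PreSubmersivePresentation.jacobiMatrix_apply]
  change pderiv i (mvRel r j) = _
  rcases i with i | i <;> rcases j with j | j
  · simp [mvRel, pderiv_inl_rename]
  · simp only [mvRel, map_sub, pderiv_mul, pderiv_inl_rename, Matrix.fromBlocks_apply₁₂,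
      Matrix.of_apply]
    rw [pderiv_X_of_ne (by simp)]
    simp
  · simp [mvRel, pderiv_inr_rename]
  · simp only [mvRel, map_sub, pderiv_mul, pderiv_inr_rename, Matrix.fromBlocks_apply₂₂,
      Matrix.of_apply]
    have : (Sum.inr i : Fin n ⊕ Unit) = Sum.inr () := rfl
    rw [this, pderiv_X_self]
    simp

end

theorem mv_etale (R' K : Type) [CommRing R'] [Field K] [Algebra R' K] (n : ℕ)
    (r : Fin n → MvPolynomial (Fin n) R') (v : Fin n → K)
    (hr : ∀ i, MvPolynomial.aeval v (r i) = 0)
    (hJ : MvPolynomial.aeval v (Matrix.det (Matrix.of fun i j => MvPolynomial.pderiv j (r i)))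
      ≠ 0) :
    ∃ (C : Type) (_ : CommRing C) (_ : Algebra R' C) (_ : Algebra.Etale R' C)
      (φ : C →ₐ[R'] K),
      φ.range = Algebra.adjoin R' (Set.range v ∪
        {(MvPolynomial.aeval v
          (Matrix.det (Matrix.of fun i j => MvPolynomial.pderiv j (r i))))⁻¹}) := by
  have hJ' : aeval v (mvJ r) ≠ 0 := hJ
  have hunit : IsUnit (mvP r).jacobian := by
    rw [Algebra.PreSubmersivePresentation.jacobian_eq_jacobiMatrix_det, mvP_jacobiMatrix,
      Matrix.det_fromBlocks_zero₂₁]
    have h1 : ((rename (Sum.inl : Fin n → Fin n ⊕ Unit) (R := R')).mapMatrix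
      (Matrix.transpose (Matrix.of fun i j => pderiv j (r i)))).det = rename Sum.inl (mvJ r) := by
      rw [← AlgHom.map_det, Matrix.det_transpose]
      rfl
    have h2 : (Matrix.of fun (_ _ : Unit) => rename (Sum.inl : Fin n → Fin n ⊕ Unit) (mvJ r)).det =
        rename Sum.inl (mvJ r) := by simp
    rw [h1, h2, map_mul]
    have h3 : IsUnit (algebraMap (mvP r).Ring (MvC r) (rename Sum.inl (mvJ r))) := by
      refine IsUnit.of_mul_eq_one (algebraMap (mvP r).Ring (MvC r) (X (Sum.inr ()))) ?_
      rw [← map_mul, ← sub_eq_zero, ← map_one (algebraMap (mvP r).Ring (MvC r)), ← map_sub]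
      exact (mvP r).toPresentation.relation_mem_ker (Sum.inr ())
    exact h3.mul h3
  let P : Algebra.SubmersivePresentation R' (MvC r) (Fin n ⊕ Unit) (Fin n ⊕ Unit) :=
    ⟨mvP r, hunit⟩
  have h0 : Algebra.IsStandardSmoothOfRelativeDimension 0 R' (MvC r) :=
    ⟨_, _, _, inferInstance, P, by simp [Algebra.Presentation.dimension]⟩
  have het : Algebra.Etale R' (MvC r) := inferInstance
  let w : Fin n ⊕ Unit → K := Sum.elim v (fun _ => (aeval v (mvJ r))⁻¹)
  have hw : ∀ q : MvPolynomial (Fin n) R', aeval w (rename Sum.inl q) = aeval v q := by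
    intro q
    rw [aeval_rename]
    rfl
  let φ : MvC r →ₐ[R'] K := Ideal.Quotient.liftₐ _ (aeval w) (by
    intro a ha
    have : Ideal.span (Set.range (mvRel r)) ≤ RingHom.ker (aeval w : _ →ₐ[R'] K) := by
      rw [Ideal.span_le]
      rintro _ ⟨i | i, rfl⟩
      · simp [mvRel, hw, hr]
      · simp only [mvRel, SetLike.mem_coe, RingHom.mem_ker, map_sub, map_mul, hw, map_one, aeval_X]
        simp only [w, Sum.elim_inr]
        rw [mul_inv_cancel₀ hJ', sub_self]
    exact this ha)
  refine ⟨MvC r, inferInstance, inferInstance, het, φ, ?_⟩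
  have h1 : φ.range = (aeval w : MvPolynomial (Fin n ⊕ Unit) R' →ₐ[R'] K).range := by
    ext z
    constructor
    · rintro ⟨c, rfl⟩
      obtain ⟨q, rfl⟩ := Ideal.Quotient.mk_surjective c
      exact ⟨q, rfl⟩
    · rintro ⟨q, rfl⟩
      exact ⟨Ideal.Quotient.mk _ q, rfl⟩
  rw [h1, ← Algebra.adjoin_range_eq_range_aeval]
  simp only [w, Set.Sum.elim_range, Set.range_const]
  rfl

end DynBad
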