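import Pool.Agent.DynBad.LemmaE
import Pool.Agent.DynBad.MvEtale
import Pool.Agent.DynBad.DynBasic
import Pool.Agent.DynBad.Cusp

/-!
# Module CuspChart: the étale chart at infinity

`y = x⁻¹`, `v_j = U_j y`, `ξ_j = X_j y`, `j < N`, `v_N = v_0` (`UU_add_of_eq_zero`);
`ξ_0 = 1`, `ξ_{j+1} = ξ_j + 2 v_j`, `v_j (v_j + ξ_j) = y v_{j+1}` (`UU_succ`).
`B' = adjoin ℤ_p ({y} ∪ {v_j : j < N})`.  `R' = ℤ_p[X]` acts on `K` via `X ↦ y` (injective: `x`,
hence `y`, is transcendental), it is an integrally closed domain.  Relations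
`r_i = v_i^2 + ξ_i v_i - y v_{i+1}` with `ξ_i = 1 + 2 ∑_{j<i} v_j` (index `i + 1` mod `N`), in
`MvPolynomial (Fin N) R'`.  The Jacobian matrix is `T - y P` with `T` lower triangular with
diagonal entries `ξ_i + 2 v_i = ξ_{i+1}` and `P` a permutation matrix, so
`J ≡ ∏_{i<N} ξ_{i+1}` mod `y B'`; and `ξ_{i+1}^2 = ξ_i^2 + 4 v_i(v_i + ξ_i) ≡ ξ_i^2 ≡ 1` mod `y B'`.
So `J^2 = 1 + y c`, `c ∈ B'`; `J ≠ 0` (otherwise `y` would be a unit of `B'`; but `B' ≤ V` for
every valuation ring `V` with `x ∉ V` by `cusp`, and `|y| < 1`; such a `V` exists as `x` is not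
integral over `ℤ`, `exists_val_notMem`).
`mv_etale` and `etale_range`: `S = adjoin R' ({v_j} ∪ {J⁻¹})`, which as a subset of `K` is
`adjoin ℤ_p ({y} ∪ {v_j} ∪ {J⁻¹})`, is étale over `R' = ℤ_p[y]`: `EtaleChart` with `t = y`.
`Frac`: `x = 1/y`, `u = v_0/y` and `D.frac`.
-/

namespace DynBad

open Polynomial

section Jac

variable {E E' : Type*} [CommRing E] [CommRing E']

/-- `ξ_i = 1 + 2 ∑_{j<i} v_j` -/
private def xi (v : ℕ → E) (i : ℕ) : E := 1 + 2 * ∑ j ∈ Finset.range i, v j

private lemma xi_zero (v : ℕ → E) : xi v 0 = 1 := by simp [xi]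

private lemma xi_succ (v : ℕ → E) (i : ℕ) : xi v (i + 1) = xi v i + 2 * v i := by
  simp only [xi, Finset.sum_range_succ]; ring

private lemma map_xi (φ : E →+* E') (v : ℕ → E) (i : ℕ) : φ (xi v i) = xi (fun j => φ (v j)) i := by
  simp [xi, map_sum, map_ofNat]

/-- the Jacobian matrix -/
private def JM (N : ℕ) (y : E) (v : ℕ → E) : Matrix (Fin N) (Fin N) E := Matrix.of fun i k =>
  (if (i : ℕ) = k then 2 * v i + xi v i else 0) +
    2 * v i * (∑ j ∈ Finset.range i, if j = (k : ℕ) then 1 else 0) -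
    y * (if ((i : ℕ) + 1) % N = k then 1 else 0)

private lemma map_JM (φ : E →+* E') (N : ℕ) (y : E) (v : ℕ → E) :
    φ (JM N y v).det = (JM N (φ y) (fun j => φ (v j))).det := by
  rw [RingHom.map_det]
  congr 1
  ext i k
  simp only [RingHom.mapMatrix_apply, Matrix.map_apply, JM, Matrix.of_apply, map_sub, map_add,
    map_mul, map_sum, map_ofNat, ← map_xi φ]
  split_ifs <;> simp [apply_ite φ, map_ofNat φ]

private lemma xi_sq (v : ℕ → E) (N : ℕ) (h : ∀ i < N, v i ^ 2 + xi v i * v i = 0) (i : ℕ) (hi : i ≤ N) :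
    xi v i ^ 2 = 1 := by
  induction i with
  | zero => simp [xi_zero]
  | succ i ih =>
    rw [xi_succ]
    linear_combination ih (by omega) + 4 * h i (by omega)

private lemma det_JM_zero (N : ℕ) (v : ℕ → E) (h : ∀ i < N, v i ^ 2 + xi v i * v i = 0) :
    (JM N (0 : E) v).det ^ 2 = 1 := by
  rw [Matrix.det_of_isLowerTriangular, ← Finset.prod_pow]
  · apply Finset.prod_eq_one
    intro i _
    have h1 : JM N (0 : E) v i i = xi v (i + 1) := by
      rw [xi_succ]
      simp only [JM, Matrix.of_apply, if_true, zero_mul, sub_zero]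
      rw [Finset.sum_eq_zero]
      · ring
      · intro j hj
        rw [Finset.mem_range] at hj
        rw [if_neg (by omega)]
    rw [h1]
    exact xi_sq v N h _ (by omega)
  · intro i k hik
    have hik' : i < k := by simpa using hik
    simp only [JM, Matrix.of_apply, zero_mul, sub_zero]
    rw [if_neg (by omega), Finset.sum_eq_zero, mul_zero, add_zero]
    intro j hj
    rw [Finset.mem_range] at hj
    rw [if_neg (by omega)]

end Jac

section Mv

variable {R' : Type*} [CommRing R'] (N : ℕ) (hN : 1 ≤ N)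

/-- variables indexed by `ℕ` -/
private noncomputable def XV (hN : 1 ≤ N) (j : ℕ) : MvPolynomial (Fin N) R' :=
  MvPolynomial.X ⟨j % N, Nat.mod_lt _ hN⟩

/-- the relations -/
private noncomputable def rel (hN : 1 ≤ N) (a : R') (i : Fin N) : MvPolynomial (Fin N) R' :=
  XV N hN i ^ 2 + xi (XV N hN) i * XV N hN i - MvPolynomial.C a * XV N hN (i + 1)

private lemma pderiv_XV (hN : 1 ≤ N) (j : ℕ) (k : Fin N) :
    MvPolynomial.pderiv k (XV (R' := R') N hN j) = if j % N = k then 1 else 0 := by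
  classical
  rw [XV, MvPolynomial.pderiv_X, Pi.single_apply]
  simp only [Fin.ext_iff, eq_comm]

private lemma pderiv_rel (hN : 1 ≤ N) (a : R') (i k : Fin N) :
    MvPolynomial.pderiv k (rel N hN a i) =
      JM N (MvPolynomial.C a) (XV N hN) i k := by
  have h1 : MvPolynomial.pderiv k (xi (XV (R' := R') N hN) i) =
      2 * ∑ j ∈ Finset.range i, if j = (k : ℕ) then 1 else 0 := by
    rw [xi, map_add, MvPolynomial.pderiv_one, zero_add]
    have h2 : (2 : MvPolynomial (Fin N) R') = MvPolynomial.C 2 := (map_ofNat MvPolynomial.C 2).symm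
    rw [h2, MvPolynomial.pderiv_C_mul, map_sum]
    congr 1
    refine Finset.sum_congr rfl fun j hj => ?_
    rw [Finset.mem_range] at hj
    rw [pderiv_XV, Nat.mod_eq_of_lt (by omega)]
  rw [rel, map_sub, map_add, pow_two, MvPolynomial.pderiv_mul, MvPolynomial.pderiv_mul,
    MvPolynomial.pderiv_C_mul, h1, pderiv_XV, pderiv_XV, Nat.mod_eq_of_lt i.2]
  simp only [JM, Matrix.of_apply]
  split_ifs <;> ring

end Mv


section Main

variable {p : ℕ} [Fact p.Prime] {K : Type} [Field K] [CharZero K] [Algebra ℤ_[p] K] {N : ℕ}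

/-- the coordinate ring `ℤ_p[y, v_0, …, v_{N-1}]` at infinity -/
noncomputable def DynField.B (D : DynField p N K) : Subalgebra ℤ_[p] K :=
  Algebra.adjoin ℤ_[p] ({D.x⁻¹} ∪ {z | ∃ j < N, z = UU D.x D.u j * D.x⁻¹})

private lemma DynField.x_ne_zero (D : DynField p N K) : D.x ≠ 0 := by
  intro h
  apply D.transc
  rw [h]
  exact isAlgebraic_zero

private lemma DynField.v_mem (D : DynField p N K) (hN : 1 ≤ N) (j : ℕ) : UU D.x D.u j * D.x⁻¹ ∈ D.B := by
  have h1 : UU D.x D.u j = UU D.x D.u (j % N) := by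
    conv_lhs => rw [← Nat.div_add_mod j N]
    rw [UU_add_of_eq_zero (F_eq_zero_of_dvd _ _ (dvd_mul_right _ _) (D.generic hN).1)]
  rw [h1]
  exact Algebra.subset_adjoin (Or.inr ⟨j % N, Nat.mod_lt _ hN, rfl⟩)

private lemma DynField.y_mem (D : DynField p N K) : D.x⁻¹ ∈ D.B :=
  Algebra.subset_adjoin (Or.inl rfl)

/-- the functions `v_j` -/
private noncomputable def DynField.v (D : DynField p N K) (j : ℕ) : K := UU D.x D.u j * D.x⁻¹

private lemma DynField.xi_eq (D : DynField p N K) (i : ℕ) : xi D.v i = XX D.x D.u i * D.x⁻¹ := by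
  rw [xi, XX, F_eq_sum]
  simp only [DynField.v]
  rw [← Finset.sum_mul, add_mul, mul_inv_cancel₀ D.x_ne_zero]
  ring

private lemma DynField.v_rel (D : DynField p N K) (i : ℕ) :
    D.v i ^ 2 + xi D.v i * D.v i = D.x⁻¹ * D.v (i + 1) := by
  rw [D.xi_eq]
  simp only [DynField.v]
  rw [UU_succ]; ring

private lemma DynField.v_add (D : DynField p N K) (hN : 1 ≤ N) (i : ℕ) : D.v (i % N) = D.v i := by
  have h1 : UU D.x D.u i = UU D.x D.u (i % N) := by
    conv_lhs => rw [← Nat.div_add_mod i N]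
    rw [UU_add_of_eq_zero (F_eq_zero_of_dvd _ _ (dvd_mul_right _ _) (D.generic hN).1)]
  simp only [DynField.v]
  rw [h1]

private theorem DynField.det_B (D : DynField p N K) (hN : 1 ≤ N) :
    (JM N D.x⁻¹ D.v).det ∈ D.B ∧
      ∃ c ∈ D.B, (JM N D.x⁻¹ D.v).det ^ 2 = 1 + D.x⁻¹ * c := by
  let yB : D.B := ⟨D.x⁻¹, D.y_mem⟩
  let vB : ℕ → D.B := fun j => ⟨D.v j, D.v_mem hN j⟩
  have h1 : (D.B.val : D.B →+* K) (JM N yB vB).det = (JM N D.x⁻¹ D.v).det := map_JM _ _ _ _
  refine ⟨?_, ?_⟩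
  · rw [← h1]; exact (JM N yB vB).det.2
  · have h2 : Ideal.Quotient.mk (Ideal.span {yB}) ((JM N yB vB).det ^ 2 - 1) = 0 := by
      rw [map_sub, map_pow, map_one, map_JM]
      have h3 : Ideal.Quotient.mk (Ideal.span {yB}) yB = 0 :=
        Ideal.Quotient.eq_zero_iff_mem.mpr (Ideal.mem_span_singleton_self yB)
      rw [h3, det_JM_zero, sub_self]
      intro i _
      rw [← map_xi, ← map_pow, ← map_mul, ← map_add]
      have h4 : vB i ^ 2 + xi vB i * vB i = yB * vB (i + 1) := by
        apply Subtype.ext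
        have h5 : (D.B.val : D.B →+* K) (xi vB i) = xi D.v i := map_xi _ _ _
        have h6 := D.v_rel i
        rw [← h5] at h6
        exact h6
      rw [h4, map_mul, h3, zero_mul]
    rw [Ideal.Quotient.eq_zero_iff_mem, Ideal.mem_span_singleton'] at h2
    obtain ⟨c, hc⟩ := h2
    refine ⟨c, c.2, ?_⟩
    have h3 := congrArg (D.B.val : D.B →+* K) hc
    rw [map_mul, map_sub, map_pow, h1, map_one] at h3
    have h4 : (D.B.val : D.B →+* K) yB = D.x⁻¹ := rfl
    have h5 : (D.B.val : D.B →+* K) c = c := rfl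
    rw [h4, h5] at h3
    linear_combination -h3

private lemma DynField.exists_V (D : DynField p N K) : ∃ V : ValuationSubring K, Over p V ∧ D.x ∉ V := by
  by_contra hcon
  push Not at hcon
  apply D.transc
  have h := isIntegral_of_forall_val_subalgebra (⊥ : Subalgebra ℤ_[p] K) D.x
    (fun V hV => hcon V hV.over)
  have h2 : IsIntegral ℤ_[p] D.x := by
    obtain ⟨P, hP, hP0⟩ := h
    have hs : Function.Surjective (algebraMap ℤ_[p] (⊥ : Subalgebra ℤ_[p] K)) := by
      rintro ⟨y, hy⟩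
      obtain ⟨n, hn⟩ := Algebra.mem_bot.mp hy
      exact ⟨n, Subtype.ext hn⟩
    obtain ⟨Q, hQ, hQd, hQm⟩ := Polynomial.lifts_and_natDegree_eq_and_monic
      (p := P) (f := algebraMap ℤ_[p] (⊥ : Subalgebra ℤ_[p] K))
      ((Polynomial.lifts_iff_coeff_lifts P).mpr fun n => by
        obtain ⟨a, ha⟩ := hs (P.coeff n)
        exact ⟨a, ha⟩) hP
    refine ⟨Q, hQm, ?_⟩
    rw [← hP0, ← hQ, eval₂_map]
    congr 1
  exact h2.isAlgebraic

private theorem DynField.det_ne_zero (D : DynField p N K) (hN : 1 ≤ N) :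
    (JM N D.x⁻¹ D.v).det ≠ 0 := by
  intro h
  obtain ⟨c, hc, hc1⟩ := (D.det_B hN).2
  rw [h] at hc1
  obtain ⟨V, hV, hx⟩ := D.exists_V
  have hvx : 1 < V.valuation D.x := by
    rw [← not_le, V.valuation_le_one_iff]; exact hx
  have hy : V.valuation D.x⁻¹ < 1 := by
    rw [map_inv₀]; exact inv_lt_one_of_one_lt₀ hvx
  have hB : Le D.B V := by
    intro z hz
    refine Algebra.adjoin_induction ?_ ?_ ?_ ?_ hz
    · rintro z (hz | ⟨j, hj, hz⟩)
      · rw [Set.mem_singleton_iff] at hz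
        rw [hz, ← V.valuation_le_one_iff]; exact hy.le
      · rw [hz, ← V.valuation_le_one_iff, map_mul, map_inv₀]
        have h1 := (cusp V hN (D.generic hN).1 hx j).1
        exact mul_inv_le_one_of_le₀ h1 zero_le
    · intro r; exact hV r
    · intro a b _ _ ha hb; exact V.add_mem _ _ ha hb
    · intro a b _ _ ha hb; exact V.mul_mem _ _ ha hb
  have h1 : V.valuation (D.x⁻¹ * c) < 1 := by
    rw [map_mul]
    exact mul_lt_one_of_lt_of_le hy ((V.valuation_le_one_iff c).mpr (hB c hc))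
  have h2 : D.x⁻¹ * c = -1 := by linear_combination -hc1
  rw [h2, Valuation.map_neg, map_one] at h1
  exact lt_irrefl _ h1


private theorem DynField.chart_B (D : DynField p N K) (hN : 1 ≤ N) :
    EtaleChart (Algebra.adjoin ℤ_[p] ((D.B : Set K) ∪ {(JM N D.x⁻¹ D.v).det⁻¹})) := by
  set J : K := (JM N D.x⁻¹ D.v).det with hJdef
  set S := Algebra.adjoin ℤ_[p] ((D.B : Set K) ∪ {J⁻¹}) with hS
  have hBS : ∀ z ∈ D.B, z ∈ S := fun z hz => Algebra.subset_adjoin (Or.inl hz)
  have hJS : J⁻¹ ∈ S := Algebra.subset_adjoin (Or.inr rfl)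
  refine ⟨?_, ?_, ?_⟩
  · rw [Subalgebra.fg_def]
    refine ⟨({D.x⁻¹} ∪ {z | ∃ j < N, z = UU D.x D.u j * D.x⁻¹}) ∪ {J⁻¹}, ?_, ?_⟩
    · refine ((Set.finite_singleton _).union ?_).union (Set.finite_singleton _)
      have h1 : {z | ∃ j < N, z = UU D.x D.u j * D.x⁻¹} =
          (fun j => UU D.x D.u j * D.x⁻¹) '' (Set.Iio N) := by
        ext z; simp only [Set.mem_ofPred_eq, Set.mem_image, Set.mem_Iio, eq_comm]
      rw [h1]
      exact (Set.finite_Iio N).image _
    · rw [hS, Algebra.adjoin_union, Algebra.adjoin_union (D.B : Set K), Algebra.adjoin_eq]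
      rfl
  · -- fractions
    have hy0 : D.x⁻¹ ≠ 0 := inv_ne_zero D.x_ne_zero
    let T : Subalgebra ℤ_[p] K :=
      { carrier := {z | ∃ a ∈ S, ∃ b ∈ S, b ≠ 0 ∧ z * b = a}
        mul_mem' := by
          rintro z z' ⟨a, ha, b, hb, hb1, h⟩ ⟨a', ha', b', hb', hb1', h'⟩
          exact ⟨a * a', S.mul_mem ha ha', b * b', S.mul_mem hb hb', mul_ne_zero hb1 hb1',
            by linear_combination z' * b' * h + a * h'⟩
        add_mem' := by
          rintro z z' ⟨a, ha, b, hb, hb1, h⟩ ⟨a', ha', b', hb', hb1', h'⟩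
          exact ⟨a * b' + a' * b, S.add_mem (S.mul_mem ha hb') (S.mul_mem ha' hb), b * b',
            S.mul_mem hb hb', mul_ne_zero hb1 hb1', by linear_combination b' * h + b * h'⟩
        algebraMap_mem' := fun r => ⟨algebraMap _ _ r, S.algebraMap_mem r, 1, S.one_mem,
          one_ne_zero, mul_one _⟩ }
    have hAT : ∀ z ∈ D.A, z ∈ T := by
      intro z hz
      have h1 : D.A ≤ T := by
        apply Algebra.adjoin_le
        rintro z (hz | hz)
        · rw [hz]
          exact ⟨1, S.one_mem, D.x⁻¹, hBS _ D.y_mem, hy0, mul_inv_cancel₀ D.x_ne_zero⟩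
        · rw [Set.mem_singleton_iff] at hz
          rw [hz]
          refine ⟨UU D.x D.u 0 * D.x⁻¹, hBS _ (D.v_mem hN 0), D.x⁻¹, hBS _ D.y_mem, hy0, ?_⟩
          rw [UU_zero]
      exact h1 hz
    intro z
    obtain ⟨a, ha, b, hb, hb0, hab⟩ := D.frac z
    obtain ⟨a1, ha1, a2, ha2, ha20, ha⟩ := hAT a ha
    obtain ⟨b1, hb1, b2, hb2, hb20, hb⟩ := hAT b hb
    have hb10 : b1 ≠ 0 := by rw [← hb]; exact mul_ne_zero hb0 hb20
    refine ⟨a1 * b2, S.mul_mem ha1 hb2, a2 * b1, S.mul_mem ha2 hb1, mul_ne_zero ha20 hb10, ?_⟩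
    rw [← ha, ← hb, ← hab]; ring
  · -- étale
    let _ : Algebra ℤ_[p][X] K := (aeval D.x⁻¹ : ℤ_[p][X] →ₐ[ℤ_[p]] K).toRingHom.toAlgebra
    have halg : ∀ r : ℤ_[p][X], algebraMap ℤ_[p][X] K r = aeval D.x⁻¹ r := fun r => rfl
    have hinj : Function.Injective (algebraMap ℤ_[p][X] K) := by
      have h1 : Transcendental ℤ_[p] D.x⁻¹ := by
        intro h
        exact D.transc (IsAlgebraic.inv_iff.mp h)
      exact transcendental_iff_injective.mp h1
    let vF : Fin N → K := fun i => D.v i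
    let ψ : MvPolynomial (Fin N) ℤ_[p][X] →+* K :=
      (MvPolynomial.aeval vF : MvPolynomial (Fin N) ℤ_[p][X] →ₐ[ℤ_[p][X]] K).toRingHom
    have hψ : ∀ P, MvPolynomial.aeval vF P = ψ P := fun P => rfl
    have hψC : ψ (MvPolynomial.C X) = D.x⁻¹ := by
      rw [← hψ, MvPolynomial.aeval_C, halg, aeval_X]
    have hψX : ∀ j, ψ (XV N hN j) = D.v j := by
      intro j
      rw [← hψ, XV, MvPolynomial.aeval_X]
      exact D.v_add hN j
    have hψX' : (fun j => ψ (XV N hN j)) = D.v := funext hψX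
    have hr : ∀ i, MvPolynomial.aeval vF (rel N hN (X : ℤ_[p][X]) i) = 0 := by
      intro i
      rw [hψ, rel, map_sub, map_add, map_mul, map_mul, map_pow, map_xi, hψX', hψX, hψX, hψC,
        D.v_rel, sub_self]
    have hdet : MvPolynomial.aeval vF (Matrix.det (Matrix.of fun i j =>
        MvPolynomial.pderiv j (rel N hN (X : ℤ_[p][X]) i))) = J := by
      have h1 : (Matrix.of fun i j => MvPolynomial.pderiv j (rel N hN (X : ℤ_[p][X]) i)) =
          JM N (MvPolynomial.C X) (XV N hN) := by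
        ext i k : 2
        rw [Matrix.of_apply, pderiv_rel]
      rw [h1, hψ, map_JM, hψX', hψC]
    obtain ⟨C', _, _, _, φ, hφ⟩ := mv_etale ℤ_[p][X] K N (rel N hN X) vF hr
      (by rw [hdet]; exact D.det_ne_zero hN)
    rw [hdet] at hφ
    have het : Algebra.Etale ℤ_[p][X] φ.range := etale_range _ C' K hinj φ
    -- the two subsets agree
    have hset : ∀ z, z ∈ φ.range ↔ z ∈ S := by
      intro z
      constructor
      · intro hz
        rw [hφ] at hz
        refine Algebra.adjoin_induction ?_ ?_ ?_ ?_ hz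
        · rintro z (⟨j, hj⟩ | hz)
          · rw [← hj]; exact hBS _ (D.v_mem hN j)
          · rw [Set.mem_singleton_iff] at hz
            rw [hz]; exact hJS
        · intro r
          rw [halg]
          have h1 := (aeval (⟨D.x⁻¹, hBS _ D.y_mem⟩ : S) r).2
          rwa [Polynomial.aeval_subalgebra_coe] at h1
        · intro a b _ _ ha hb; exact S.add_mem ha hb
        · intro a b _ _ ha hb; exact S.mul_mem ha hb
      · intro hz
        have hyr : D.x⁻¹ ∈ φ.range := by
          have h1 := φ.range.algebraMap_mem (X : ℤ_[p][X])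
          rwa [halg, aeval_X] at h1
        have hcr : ∀ a : ℤ_[p], algebraMap ℤ_[p] K a ∈ φ.range := by
          intro a
          have h1 := φ.range.algebraMap_mem (C a : ℤ_[p][X])
          rwa [halg, aeval_C] at h1
        have hvr : ∀ j, D.v j ∈ φ.range := by
          intro j
          rw [← D.v_add hN, hφ]
          exact Algebra.subset_adjoin (Or.inl ⟨⟨j % N, Nat.mod_lt _ hN⟩, rfl⟩)
        have hBr : ∀ z ∈ D.B, z ∈ φ.range := by
          intro z hz
          refine Algebra.adjoin_induction ?_ ?_ ?_ ?_ hz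
          · rintro z (hz | ⟨j, -, hz⟩)
            · rw [Set.mem_singleton_iff] at hz
              rw [hz]; exact hyr
            · rw [hz]; exact hvr j
          · exact hcr
          · intro a b _ _ ha hb; exact φ.range.add_mem ha hb
          · intro a b _ _ ha hb; exact φ.range.mul_mem ha hb
        refine Algebra.adjoin_induction ?_ ?_ ?_ ?_ hz
        · rintro z (hz | hz)
          · exact hBr z hz
          · rw [Set.mem_singleton_iff] at hz
            rw [hz, hφ]
            exact Algebra.subset_adjoin (Or.inr rfl)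
        · exact hcr
        · intro a b _ _ ha hb; exact φ.range.add_mem ha hb
        · intro a b _ _ ha hb; exact φ.range.mul_mem ha hb
    let e : φ.range ≃+* S :=
      { toFun := fun z => ⟨z, (hset z).mp z.2⟩
        invFun := fun z => ⟨z, (hset z).mpr z.2⟩
        left_inv := fun z => rfl
        right_inv := fun z => rfl
        map_mul' := fun a b => rfl
        map_add' := fun a b => rfl }
    refine ⟨⟨D.x⁻¹, hBS _ D.y_mem⟩, ?_⟩
    have h1 : (algebraMap ℤ_[p][X] φ.range).Etale := (RingHom.etale_algebraMap).mpr het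
    have h2 := RingHom.Etale.respectsIso.1 (algebraMap ℤ_[p][X] φ.range) e h1
    convert h2 using 1
    ext r
    · simp [e, halg]
    · simp [e, halg]

theorem DynField.cusp_chart (D : DynField p N K) (hN : 1 ≤ N) :
    ∃ J : K, J ≠ 0 ∧ J ∈ D.B ∧ (∃ c ∈ D.B, J ^ 2 = 1 + D.x⁻¹ * c) ∧
      EtaleChart (Algebra.adjoin ℤ_[p] ((D.B : Set K) ∪ {J⁻¹})) :=
  ⟨_, D.det_ne_zero hN, (D.det_B hN).1, (D.det_B hN).2, D.chart_B hN⟩

end Main

end DynBad
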