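import Pool.Agent.DynBad.CuspRing

/-!
# Module CuspCount: there are at most `deg Φ_N` cusps

For a cusp `V` put `δ_j = 1` if `|v_j + ξ_j| < 1` and `δ_j = 0` if `|v_j| < 1` (notation of
CuspRing; exactly one holds, since `|ξ_j| = 1`), `j < N`.
(1) `V ↦ (δ_j)_{j<N}` is injective: `V = loc V B` (see the proof of `cusp_struct`; or use
`cusp_struct`), and for `b = P(y, v_0, …, v_{N-1})`, `P` a polynomial over `ℚ_p`, the residue of
`b` at `V` is `P(0, c_0, …, c_{N-1})` where `c_j` is the residue of `v_j`: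
`c_j = - δ_j ξ̄_j`, `ξ̄_0 = 1`, `ξ̄_{j+1} = ξ̄_j + 2 c_j`, determined by `δ`.  So if `V, V'` have the
same `δ`, then for `b ∈ B`: `v(b) = 1 ↔ v'(b) = 1`, `loc V B = loc V' B`, `V = V'`.
So the set of cusps is finite.
(2) Put `f_V = ∏_{j<N} (if δ_j = 1 then - v_j ξ_j else 1 + v_j ξ_j)`.  As
`ξ̄_j^2 = 1` (`ξ̄_{j+1} = ± ξ̄_j`), the residue of `v_j ξ_j` at a cusp `V'` with symbol `δ'` is
`- δ'_j`, so `f_V` has residue `1` at `V` and `0` at `V' ≠ V`.
(3) Distinct cusps `V_1, …, V_r`: `f_i := f_{V_i}` are linearly independent over the subfield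
`ℚ_p(x) ⊆ K`: a nontrivial relation `∑ g_i f_i = 0`, scaled by a power of `x` such that all
`g_i ∈ ℚ_p(x)` have degree `≤ 0` and some `g_{i₀}` has degree `0`: at `V_{i₀}`,
`g_{i₀} f_{i₀}` is a unit and all other terms are in the maximal ideal (note that for
`g ∈ ℚ_p(x)` of degree `n`, `|g| = |x|^n` at every cusp), contradiction.
So `r ≤ [K : ℚ_p(x)] ≤ deg_U Φ_N` (`K` is generated over `ℚ_p(x)` by `u`, a root of the monic
polynomial `Φ_N(x, U)` of degree `deg_U Φ_N`).
-/

namespace DynBad

open Polynomial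

variable {p : ℕ} [Fact p.Prime] {K : Type*} [Field K] [CharZero K] [Algebra ℤ_[p] K]
  [Algebra ℚ_[p] K] [IsScalarTower ℤ_[p] ℚ_[p] K] {N : ℕ}

/-- the set of cusps of the generic fibre -/
def cusps (D : DynField p N K) : Set (ValuationSubring K) :=
  {V | Over p V ∧ V.valuation (p : K) = 1 ∧ D.x ∉ V}

section congr

variable {V : ValuationSubring K} {x u : K}

/-- congruence modulo the maximal ideal of `V` -/
def Cg (V : ValuationSubring K) (a b : K) : Prop := V.valuation (a - b) < 1

omit [CharZero K] in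
lemma Cg.add {a b c d : K} (h : Cg V a b) (h' : Cg V c d) : Cg V (a + c) (b + d) := by
  have := Valuation.map_add_lt V.valuation h h'
  rw [Cg]
  rwa [show a + c - (b + d) = (a - b) + (c - d) by ring]

omit [CharZero K] in
lemma Cg.neg {a b : K} (h : Cg V a b) : Cg V (-a) (-b) := by
  rw [Cg] at *
  rw [show -a - -b = -(a - b) by ring, Valuation.map_neg]
  exact h

omit [CharZero K] in
lemma Cg.symm {a b : K} (h : Cg V a b) : Cg V b a := by
  rw [Cg] at *
  rw [show b - a = -(a - b) by ring, Valuation.map_neg]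
  exact h

omit [CharZero K] in
lemma Cg.refl (a : K) : Cg V a a := by
  rw [Cg, sub_self, map_zero]; exact zero_lt_one

omit [CharZero K] in
lemma Cg.trans {a b c : K} (h : Cg V a b) (h' : Cg V b c) : Cg V a c := by
  have := Valuation.map_add_lt V.valuation h h'
  rwa [show a - b + (b - c) = a - c by ring] at this

omit [CharZero K] in
lemma Cg.mul {a b c d : K} (h : Cg V a b) (h' : Cg V c d) (hb : V.valuation b ≤ 1)
    (hc : V.valuation c ≤ 1) : Cg V (a * c) (b * d) := by
  rw [Cg, show a * c - b * d = (a - b) * c + b * (c - d) by ring]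
  refine Valuation.map_add_lt V.valuation ?_ ?_
  · rw [map_mul]; exact mul_lt_one_of_lt_of_le h hc
  · rw [map_mul, mul_comm]; exact mul_lt_one_of_lt_of_le h' hb

omit [CharZero K] in
lemma Cg.le_one {a b : K} (h : Cg V a b) (hb : V.valuation b ≤ 1) : V.valuation a ≤ 1 := by
  have := Valuation.map_add V.valuation (a - b) b
  rw [sub_add_cancel] at this
  exact this.trans (max_le h.le hb)

omit [CharZero K] in
lemma Cg.eq_one {a b : K} (h : Cg V a b) (hb : V.valuation b = 1) : V.valuation a = 1 := by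
  rw [show a = (a - b) + b by ring, Valuation.map_add_eq_of_lt_right _ (by rw [hb]; exact h), hb]

omit [CharZero K] in
lemma Cg.lt_one {a b : K} (h : Cg V a b) (hb : V.valuation b < 1) : V.valuation a < 1 := by
  rw [show a = (a - b) + b by ring]
  exact Valuation.map_add_lt V.valuation h hb

/-- same residue in `ℚ_p` at two cusps -/
def T2 (p : ℕ) [Fact p.Prime] [Algebra ℚ_[p] K] (V V' : ValuationSubring K) (b : K) : Prop :=
  ∃ c : ℚ_[p], Cg V b (algebraMap ℚ_[p] K c) ∧ Cg V' b (algebraMap ℚ_[p] K c)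

variable {V' : ValuationSubring K}

omit [CharZero K] [Algebra ℤ_[p] K] [IsScalarTower ℤ_[p] ℚ_[p] K] in
lemma T2.add {a b : K} (h : T2 p V V' a) (h' : T2 p V V' b) : T2 p V V' (a + b) := by
  obtain ⟨c, h1, h2⟩ := h
  obtain ⟨d, h3, h4⟩ := h'
  exact ⟨c + d, by rw [map_add]; exact h1.add h3, by rw [map_add]; exact h2.add h4⟩

omit [CharZero K] [Algebra ℤ_[p] K] [IsScalarTower ℤ_[p] ℚ_[p] K] in
lemma T2.neg {a : K} (h : T2 p V V' a) : T2 p V V' (-a) := by
  obtain ⟨c, h1, h2⟩ := h
  exact ⟨-c, by rw [map_neg]; exact h1.neg, by rw [map_neg]; exact h2.neg⟩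

omit [CharZero K] [Algebra ℤ_[p] K] [IsScalarTower ℤ_[p] ℚ_[p] K] in
lemma T2_padic (c : ℚ_[p]) : T2 p V V' (algebraMap ℚ_[p] K c) := ⟨c, Cg.refl _, Cg.refl _⟩

omit [CharZero K] [Algebra ℤ_[p] K] [IsScalarTower ℤ_[p] ℚ_[p] K] in
lemma T2_small {a : K} (h : V.valuation a < 1) (h' : V'.valuation a < 1) : T2 p V V' a :=
  ⟨0, by rw [map_zero, Cg, sub_zero]; exact h, by rw [map_zero, Cg, sub_zero]; exact h'⟩

lemma T2.mul (hV : Over p V) (hp : V.valuation (p : K) = 1) (hV' : Over p V')
    (hp' : V'.valuation (p : K) = 1) {a b : K} (h : T2 p V V' a) (h' : T2 p V V' b) :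
    T2 p V V' (a * b) := by
  obtain ⟨c, h1, h2⟩ := h
  obtain ⟨d, h3, h4⟩ := h'
  have k1 := (V.valuation_le_one_iff _).mpr (padic_mem V hV hp c)
  have k2 := (V'.valuation_le_one_iff _).mpr (padic_mem V' hV' hp' c)
  have k3 := (V.valuation_le_one_iff _).mpr (padic_mem V hV hp d)
  have k4 := (V'.valuation_le_one_iff _).mpr (padic_mem V' hV' hp' d)
  exact ⟨c * d, by rw [map_mul]; exact h1.mul h3 k1 (h3.le_one k3),
    by rw [map_mul]; exact h2.mul h4 k2 (h4.le_one k4)⟩

lemma T2_xi_v (hN : 1 ≤ N) (hF : F x u N = 0) (hV : Over p V)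
    (hp : V.valuation (p : K) = 1) (hV' : Over p V') (hp' : V'.valuation (p : K) = 1)
    (hx : x ∉ V) (hx' : x ∉ V')
    (hδ : ∀ j, V.valuation (cv x u j) < 1 ↔ V'.valuation (cv x u j) < 1) (j : ℕ) :
    T2 p V V' (cxi x u j) ∧ T2 p V V' (cv x u j) := by
  have h0 := ne_zero_of_notMem V hx
  have step : ∀ j, T2 p V V' (cxi x u j) → T2 p V V' (cv x u j) := by
    intro j hj
    by_cases h : V.valuation (cv x u j) < 1
    · exact T2_small h ((hδ j).mp h)
    · have h1 := (cv_alt V hN hF hx j).resolve_left h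
      have h2 := (cv_alt V' hN hF hx' j).resolve_left (fun h' => h ((hδ j).mpr h'))
      have := (T2_small (p := p) h1 h2).add hj.neg
      rwa [add_neg_cancel_right] at this
  induction j with
  | zero =>
    have : T2 p V V' (cxi x u 0) := by
      rw [cxi_zero h0]
      have := T2_padic (K := K) (V := V) (V' := V') (1 : ℚ_[p])
      rwa [map_one] at this
    exact ⟨this, step 0 this⟩
  | succ j ih =>
    have : T2 p V V' (cxi x u (j + 1)) := by
      rw [cxi_succ]
      have h2 := T2_padic (K := K) (V := V) (V' := V') (2 : ℚ_[p])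
      rw [map_ofNat] at h2
      exact ih.1.add (T2.mul hV hp hV' hp' h2 ih.2)
    exact ⟨this, step _ this⟩

lemma T2_of_cB (hN : 1 ≤ N) (hF : F x u N = 0) (hV : Over p V)
    (hp : V.valuation (p : K) = 1) (hV' : Over p V') (hp' : V'.valuation (p : K) = 1)
    (hx : x ∉ V) (hx' : x ∉ V')
    (hδ : ∀ j, V.valuation (cv x u j) < 1 ↔ V'.valuation (cv x u j) < 1) {z : K}
    (hz : z ∈ cB p x u) : T2 p V V' z := by
  induction hz using Algebra.adjoin_induction with
  | mem z hz =>
    rcases hz with (rfl | rfl) | ⟨j, rfl⟩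
    · have := T2_padic (K := K) (V := V) (V' := V') ((p : ℚ_[p])⁻¹)
      rwa [map_inv₀, map_natCast] at this
    · exact T2_small (val_inv_lt_one V hx) (val_inv_lt_one V' hx')
    · exact (T2_xi_v hN hF hV hp hV' hp' hx hx' hδ j).2
  | algebraMap r =>
    have := T2_padic (K := K) (V := V) (V' := V') (r : ℚ_[p])
    have h3 : algebraMap ℚ_[p] K (r : ℚ_[p]) = algebraMap ℤ_[p] K r :=
      (IsScalarTower.algebraMap_apply ℤ_[p] ℚ_[p] K r).symm
    rwa [h3] at this
  | add a b _ _ ha hb => exact ha.add hb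
  | mul a b _ _ ha hb => exact T2.mul hV hp hV' hp' ha hb

lemma T2.val_eq_one (hV : Over p V) (hp : V.valuation (p : K) = 1) (hV' : Over p V')
    (hp' : V'.valuation (p : K) = 1) {b : K} (h : T2 p V V' b) (hb : V.valuation b = 1) :
    V'.valuation b = 1 := by
  obtain ⟨c, h1, h2⟩ := h
  have hc : c ≠ 0 := by
    rintro rfl
    rw [map_zero, Cg, sub_zero] at h1
    exact h1.ne hb
  exact h2.eq_one (padic_val V' hV' hp' hc)

/-- two cusps with the same symbols are equal -/
lemma cusp_le_of_symbol (D : DynField p N K) (hN : 1 ≤ N) (hV : V ∈ cusps D) (hV' : V' ∈ cusps D)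
    (hδ : ∀ j, V.valuation (cv D.x D.u j) < 1 ↔ V'.valuation (cv D.x D.u j) < 1) {z : K}
    (hz : z ∈ V) : z ∈ V' := by
  have hF := F_eq_zero_of_ev_Phi D.x D.u hN D.root
  obtain ⟨h1, h2, h3⟩ := hV
  obtain ⟨h1', h2', h3'⟩ := hV'
  obtain ⟨a, ha, b, hb, hb1, h⟩ := (cusp_all D hN V h1 h2 h3).1 z hz
  have hT := T2_of_cB hN hF h1 h2 h1' h2' h3 h3' hδ hb
  have hb1' := hT.val_eq_one h1 h2 h1' h2' hb1
  exact loc_le (cB_le V' hN hF h1' h2' h3') ⟨a, ha, b, hb, hb1', h⟩

lemma cusp_eq_of_symbol (D : DynField p N K) (hN : 1 ≤ N) (hV : V ∈ cusps D) (hV' : V' ∈ cusps D)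
    (hδ : ∀ j < N, V.valuation (cv D.x D.u j) < 1 ↔ V'.valuation (cv D.x D.u j) < 1) :
    V = V' := by
  have hF := F_eq_zero_of_ev_Phi D.x D.u hN D.root
  have hδ' : ∀ j, V.valuation (cv D.x D.u j) < 1 ↔ V'.valuation (cv D.x D.u j) < 1 := by
    intro j
    have := hδ (j % N) (Nat.mod_lt _ hN)
    rwa [cv_mod hF] at this
  apply SetLike.ext
  intro z
  exact ⟨cusp_le_of_symbol D hN hV hV' hδ', cusp_le_of_symbol D hN hV' hV fun j => (hδ' j).symm⟩

end congr

open Classical in
/-- the symbol of a cusp -/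
noncomputable def symb (D : DynField p N K) (V : ValuationSubring K) (j : Fin N) : Bool :=
  decide (V.valuation (cv D.x D.u j) < 1)

lemma symb_injOn (D : DynField p N K) (hN : 1 ≤ N) : Set.InjOn (symb D) (cusps D) := by
  intro V hV V' hV' h
  refine cusp_eq_of_symbol D hN hV hV' fun j hj => ?_
  have := congrFun h ⟨j, hj⟩
  simpa [symb] using this

theorem cusps_finite (D : DynField p N K) (hN : 1 ≤ N) : (cusps D).Finite :=
  Set.Finite.of_finite_image (Set.toFinite _) (symb_injOn D hN)

section fV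

variable {V : ValuationSubring K} {x u : K}

omit [CharZero K] in
/-- `ξ_j² ≡ 1` -/
lemma xi_sq (hN : 1 ≤ N) (hF : F x u N = 0) (hx : x ∉ V) (j : ℕ) :
    Cg V (cxi x u j * cxi x u j) 1 := by
  have h0 := ne_zero_of_notMem V hx
  have h2 : V.valuation (2 : K) ≤ 1 := by
    rw [V.valuation_le_one_iff]
    have : (2 : K) = 1 + 1 := by norm_num
    rw [this]; exact V.add_mem _ _ V.one_mem V.one_mem
  have h2' : V.valuation (2 : K) * V.valuation (2 : K) ≤ 1 := mul_le_one' h2 h2
  induction j with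
  | zero => rw [cxi_zero h0, mul_one]; exact Cg.refl _
  | succ j ih =>
    refine Cg.trans ?_ ih
    rw [Cg]
    have e : cxi x u (j + 1) * cxi x u (j + 1) - cxi x u j * cxi x u j =
        (2 * 2) * (cv x u j * (cv x u j + cxi x u j)) := by
      rw [cxi_succ]; ring
    rw [e, map_mul, map_mul, mul_comm]
    refine mul_lt_one_of_lt_of_le ?_ h2'
    rw [cv_mul, map_mul]
    exact mul_lt_one_of_lt_of_le (val_inv_lt_one V hx) (cv_val V hN hF hx _)

omit [CharZero K] in
lemma v_xi_small (hN : 1 ≤ N) (hF : F x u N = 0) (hx : x ∉ V) {j : ℕ}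
    (h : V.valuation (cv x u j) < 1) : Cg V (cv x u j * cxi x u j) 0 := by
  rw [Cg, sub_zero, map_mul, cxi_val V hN hF hx, mul_one]
  exact h

omit [CharZero K] in
lemma v_xi_big (hN : 1 ≤ N) (hF : F x u N = 0) (hx : x ∉ V) {j : ℕ}
    (h : ¬ V.valuation (cv x u j) < 1) : Cg V (cv x u j * cxi x u j) (-1) := by
  have h1 := (cv_alt V hN hF hx j).resolve_left h
  have h2 := (xi_sq hN hF hx j).neg
  refine Cg.trans ?_ h2
  rw [Cg, show cv x u j * cxi x u j - -(cxi x u j * cxi x u j) =
    (cv x u j + cxi x u j) * cxi x u j by ring, map_mul, cxi_val V hN hF hx, mul_one]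
  exact h1

end fV

/-- the idempotent-like function of a symbol -/
noncomputable def fsym (x u : K) (δ : Fin N → Bool) : K :=
  ∏ j : Fin N, if δ j then 1 + cv x u j * cxi x u j else -(cv x u j * cxi x u j)

lemma fsym_self (D : DynField p N K) (hN : 1 ≤ N) {V : ValuationSubring K} (hV : V ∈ cusps D) :
    V.valuation (fsym D.x D.u (symb D V)) = 1 := by
  have hF := F_eq_zero_of_ev_Phi D.x D.u hN D.root
  rw [fsym, map_prod]
  refine Finset.prod_eq_one fun j _ => ?_
  by_cases h : V.valuation (cv D.x D.u j) < 1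
  · rw [if_pos (by simpa [symb] using h)]
    have := (Cg.refl (V := V) (1 : K)).add (v_xi_small hN hF hV.2.2 h)
    rw [add_zero] at this
    exact this.eq_one (map_one _)
  · rw [if_neg (by simpa [symb] using h)]
    have := (v_xi_big hN hF hV.2.2 h).neg
    rw [neg_neg] at this
    exact this.eq_one (map_one _)

lemma fsym_other (D : DynField p N K) (hN : 1 ≤ N) {V V' : ValuationSubring K}
    (hV : V ∈ cusps D) (hV' : V' ∈ cusps D) (hne : V ≠ V') :
    V.valuation (fsym D.x D.u (symb D V')) < 1 := by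
  have hF := F_eq_zero_of_ev_Phi D.x D.u hN D.root
  obtain ⟨i, hi⟩ : ∃ i, symb D V i ≠ symb D V' i := by
    by_contra hcon
    push Not at hcon
    exact hne (symb_injOn D hN hV hV' (funext hcon))
  have hle : ∀ j : Fin N, V.valuation (if symb D V' j then 1 + cv D.x D.u j * cxi D.x D.u j
      else -(cv D.x D.u j * cxi D.x D.u j)) ≤ 1 := by
    intro j
    have h1 : V.valuation (cv D.x D.u j * cxi D.x D.u j) ≤ 1 := by
      rw [map_mul, cxi_val V hN hF hV.2.2, mul_one]; exact cv_val V hN hF hV.2.2 j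
    split_ifs
    · exact (Valuation.map_add _ _ _).trans (max_le (map_one _).le h1)
    · rw [Valuation.map_neg]; exact h1
  rw [fsym, ← Finset.mul_prod_erase _ _ (Finset.mem_univ i), map_mul]
  refine mul_lt_one_of_lt_of_le ?_ ?_
  · by_cases h : V.valuation (cv D.x D.u i) < 1
    · have h1 : symb D V i = true := by simpa [symb] using h
      rw [h1] at hi
      have h2 : symb D V' i = false := by
        cases h3 : symb D V' i
        · rfl
        · exact absurd h3.symm hi
      rw [h2, if_neg (by simp)]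
      have := (v_xi_small hN hF hV.2.2 h).neg
      rw [neg_zero] at this
      exact this.lt_one (by rw [map_zero]; exact zero_lt_one)
    · have h1 : symb D V i = false := by simpa [symb] using h
      rw [h1] at hi
      have h2 : symb D V' i = true := by
        cases h3 : symb D V' i
        · exact absurd h3.symm hi
        · rfl
      rw [h2, if_pos rfl]
      have := (Cg.refl (V := V) (1 : K)).add (v_xi_big hN hF hV.2.2 h)
      rw [add_neg_cancel] at this
      exact this.lt_one (by rw [map_zero]; exact zero_lt_one)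
  · rw [map_prod]
    exact Finset.prod_le_one' fun j _ => hle j

/-- the absolute value of a polynomial in `x` at infinity -/
lemma val_aeval (V : ValuationSubring K) (hV : Over p V) (hp : V.valuation (p : K) = 1) {x : K}
    (hx : x ∉ V) {P : ℚ_[p][X]} (hP : P ≠ 0) :
    V.valuation (aeval x P) = V.valuation x ^ P.natDegree := by
  have hx1 := one_lt_val_of_notMem V hx
  rw [aeval_eq_sum_range, Finset.sum_range_succ]
  have hlead : V.valuation (P.coeff P.natDegree • x ^ P.natDegree) =
      V.valuation x ^ P.natDegree := by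
    rw [Algebra.smul_def, map_mul, map_pow, padic_val V hV hp (by simpa using hP), one_mul]
  have hlt : V.valuation (∑ i ∈ Finset.range P.natDegree, P.coeff i • x ^ i) <
      V.valuation x ^ P.natDegree := by
    refine Valuation.map_sum_lt _ (pow_ne_zero _ (zero_lt_one.trans hx1).ne') fun i hi => ?_
    rw [Algebra.smul_def, map_mul, map_pow]
    have h1 := (V.valuation_le_one_iff _).mpr (padic_mem V hV hp (P.coeff i))
    calc _ ≤ 1 * V.valuation x ^ i := mul_le_mul_left h1 _
      _ = V.valuation x ^ i := one_mul _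
      _ < V.valuation x ^ P.natDegree := pow_lt_pow_right₀ hx1 (Finset.mem_range.mp hi)
  rw [Valuation.map_add_eq_of_lt_right _ (by rw [hlead]; exact hlt), hlead]

open IntermediateField in
lemma val_rat (D : DynField p N K) {g : K} (hg : g ∈ ℚ_[p]⟮D.x⟯) (hg0 : g ≠ 0) :
    ∃ n : ℤ, ∀ V ∈ cusps D, V.valuation g = V.valuation D.x ^ n := by
  rw [mem_adjoin_simple_iff] at hg
  obtain ⟨r, s, rfl⟩ := hg
  have hr : r ≠ 0 := by rintro rfl; simp at hg0
  have hs : s ≠ 0 := by rintro rfl; simp at hg0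
  refine ⟨(r.natDegree : ℤ) - s.natDegree, fun V hV => ?_⟩
  have hx0 : V.valuation D.x ≠ 0 := by
    rw [Ne, map_eq_zero]; exact ne_zero_of_notMem V hV.2.2
  rw [map_div₀, val_aeval V hV.1 hV.2.1 hV.2.2 hr, val_aeval V hV.1 hV.2.1 hV.2.2 hs,
    zpow_sub₀ hx0, zpow_natCast, zpow_natCast]

open IntermediateField in
lemma linInd (D : DynField p N K) (hN : 1 ≤ N) :
    LinearIndependent ℚ_[p]⟮D.x⟯ (fun V : cusps D => fsym D.x D.u (symb D (V : ValuationSubring K))) := by
  classical
  have := cusps_finite D hN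
  have : Finite (cusps D) := this
  have := Fintype.ofFinite (cusps D)
  rw [Fintype.linearIndependent_iff]
  intro g hg
  by_contra hcon
  push Not at hcon
  obtain ⟨i, hi⟩ := hcon
  have hdeg : ∀ V : cusps D, ∃ n : ℤ, g V ≠ 0 → ∀ W ∈ cusps D,
      W.valuation ((g V : ℚ_[p]⟮D.x⟯) : K) = W.valuation D.x ^ n := by
    intro V
    by_cases h : g V = 0
    · exact ⟨0, fun h' => absurd h h'⟩
    · have h0 : ((g V : ℚ_[p]⟮D.x⟯) : K) ≠ 0 := by
        intro h1; exact h (Subtype.ext h1)
      obtain ⟨n, hn⟩ := val_rat D (g V).2 h0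
      exact ⟨n, fun _ => hn⟩
  choose n hn using hdeg
  obtain ⟨m, hm, hmax⟩ := Finset.exists_max_image
    (Finset.univ.filter fun V : cusps D => g V ≠ 0) n ⟨i, by simp [hi]⟩
  rw [Finset.mem_filter] at hm
  have hx1 := one_lt_val_of_notMem (m : ValuationSubring K) m.2.2.2
  have hx0 : (m : ValuationSubring K).valuation D.x ≠ 0 := (zero_lt_one.trans hx1).ne'
  rw [← Finset.add_sum_erase _ _ (Finset.mem_univ m)] at hg
  have h1 : (m : ValuationSubring K).valuation
      (g m • fsym D.x D.u (symb D (m : ValuationSubring K))) =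
      (m : ValuationSubring K).valuation D.x ^ n m := by
    rw [IntermediateField.smul_def, smul_eq_mul, map_mul, fsym_self D hN m.2, mul_one,
      hn m hm.2 _ m.2]
  have h2 : (m : ValuationSubring K).valuation
      (∑ x ∈ Finset.univ.erase m, g x • fsym D.x D.u (symb D (x : ValuationSubring K))) <
      (m : ValuationSubring K).valuation D.x ^ n m := by
    refine Valuation.map_sum_lt _ (zpow_ne_zero _ hx0) fun V hV => ?_
    have hVm : (m : ValuationSubring K) ≠ V := by
      intro h
      exact (Finset.mem_erase.mp hV).1 (Subtype.ext h.symm)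
    rw [IntermediateField.smul_def, smul_eq_mul, map_mul]
    by_cases h : g V = 0
    · rw [h]
      simp only [ZeroMemClass.coe_zero, map_zero, zero_mul]
      exact zero_lt_iff.mpr (zpow_ne_zero _ hx0)
    · rw [hn V h _ m.2]
      have h3 := fsym_other D hN m.2 V.2 hVm
      have h4 := hmax V (by simp [h])
      have hpos : 0 < (m : ValuationSubring K).valuation D.x ^ n V :=
        zero_lt_iff.mpr (zpow_ne_zero _ hx0)
      calc _ < (m : ValuationSubring K).valuation D.x ^ n V * 1 :=
            mul_lt_mul_of_pos_left h3 hpos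
        _ = (m : ValuationSubring K).valuation D.x ^ n V := mul_one _
        _ ≤ _ := zpow_le_zpow_right₀ hx1.le h4
  have h3 := Valuation.map_add_eq_of_lt_left _ (h2.trans_eq h1.symm)
  rw [hg, map_zero, h1] at h3
  exact zpow_ne_zero _ hx0 h3.symm

open IntermediateField in
lemma finrank_le (D : DynField p N K) (hN : 1 ≤ N) :
    FiniteDimensional ℚ_[p]⟮D.x⟯ K ∧
      Module.finrank ℚ_[p]⟮D.x⟯ K ≤ (Phi N).natDegree := by
  let E := ℚ_[p]⟮D.x⟯
  let xE : E := ⟨D.x, mem_adjoin_simple_self _ _⟩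
  let f : ℤ[X] →+* E := eval₂RingHom (Int.castRingHom E) xE
  let Q : E[X] := (Phi N).map f
  have hQm : Q.Monic := (Phi_monic hN).map f
  have hQd : Q.natDegree = (Phi N).natDegree := (Phi_monic hN).natDegree_map f
  have hQ0 : aeval D.u Q = 0 := by
    rw [aeval_def, eval₂_map]
    have hcomp : (algebraMap E K).comp f = eval₂RingHom (Int.castRingHom K) D.x := by
      apply Polynomial.ringHom_ext'
      · exact RingHom.ext_int _ _
      · simp [f, xE]
    rw [hcomp]
    exact D.root
  have hint : IsIntegral E D.u := ⟨Q, hQm, hQ0⟩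
  have htop : E⟮D.u⟯ = ⊤ := by
    rw [eq_top_iff]
    intro z _
    obtain ⟨a, ha, b, hb, hb0, h⟩ := D.frac z
    have key : ∀ w ∈ Algebra.adjoin ℤ_[p] ({D.x, D.u} : Set K), w ∈ E⟮D.u⟯ := by
      intro w hw
      induction hw using Algebra.adjoin_induction with
      | mem w hw =>
        rcases hw with rfl | rfl
        · exact (E⟮D.u⟯).algebraMap_mem xE
        · exact mem_adjoin_simple_self _ _
      | algebraMap r =>
        have h3 : algebraMap ℤ_[p] K r = algebraMap E K (algebraMap ℚ_[p] E (r : ℚ_[p])) := by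
          rw [IsScalarTower.algebraMap_apply ℤ_[p] ℚ_[p] K r,
            IsScalarTower.algebraMap_apply ℚ_[p] E K]
          rfl
        rw [h3]
        exact (E⟮D.u⟯).algebraMap_mem _
      | add a b _ _ ha hb => exact add_mem ha hb
      | mul a b _ _ ha hb => exact mul_mem ha hb
    have hz : z = a / b := by rw [← h, mul_div_cancel_right₀ _ hb0]
    rw [hz]
    exact div_mem (key a ha) (key b hb)
  have hfin : FiniteDimensional E K := by
    have h1 := adjoin.finiteDimensional hint
    rw [htop] at h1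
    exact topEquiv.toLinearEquiv.finiteDimensional
  refine ⟨hfin, ?_⟩
  have h2 := adjoin.finrank hint
  rw [htop, finrank_top'] at h2
  rw [h2, ← hQd]
  exact natDegree_le_natDegree (minpoly.min E D.u hQm hQ0)

theorem cusps_ncard (D : DynField p N K) (hN : 1 ≤ N) :
    (cusps D).ncard ≤ (Phi N).natDegree := by
  obtain ⟨h1, h2⟩ := finrank_le D hN
  have hf : Finite (cusps D) := cusps_finite D hN
  have := Fintype.ofFinite (cusps D)
  have h3 := (linInd D hN).fintype_card_le_finrank
  rw [← Nat.card_eq_fintype_card] at h3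
  exact h3.trans h2

theorem cusps_nonempty (D : DynField p N K) (hN : 1 ≤ N) : (cusps D).Nonempty := by
  by_contra hcon
  rw [Set.not_nonempty_iff_eq_empty] at hcon
  have hint : IsIntegral (⊥ : Subalgebra ℚ_[p] K) D.x := by
    refine isIntegral_of_forall_val_subalgebra _ _ fun V hV => ?_
    by_contra hx
    have hq : ∀ c : ℚ_[p], algebraMap ℚ_[p] K c ∈ V := fun c => hV _ (Subalgebra.algebraMap_mem _ c)
    have hover : Over p V := fun a => by
      rw [IsScalarTower.algebraMap_apply ℤ_[p] ℚ_[p] K a]; exact hq _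
    have hp0 : (p : K) ≠ 0 := by exact_mod_cast (Fact.out : p.Prime).ne_zero
    have hp : V.valuation (p : K) = 1 := by
      have h1 := (V.valuation_le_one_iff _).mpr (hq (p : ℚ_[p]))
      have h2 := (V.valuation_le_one_iff _).mpr (hq ((p : ℚ_[p])⁻¹))
      rw [map_natCast] at h1
      rw [map_inv₀, map_inv₀, map_natCast] at h2
      refine le_antisymm h1 ?_
      exact (inv_le_one₀ (zero_lt_iff.mpr (by rw [Ne, map_eq_zero]; exact hp0))).mp h2
    have : V ∈ cusps D := ⟨hover, hp, hx⟩
    rw [hcon] at this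
    exact this
  have h1 : IsIntegral ℚ_[p] D.x := by
    have : Algebra.IsIntegral ℚ_[p] (⊥ : Subalgebra ℚ_[p] K) := by
      refine ⟨fun z => ?_⟩
      obtain ⟨c, hc⟩ := Algebra.mem_bot.mp z.2
      have : z = algebraMap ℚ_[p] (⊥ : Subalgebra ℚ_[p] K) c := Subtype.ext hc.symm
      rw [this]
      exact isIntegral_algebraMap
    exact isIntegral_trans (A := (⊥ : Subalgebra ℚ_[p] K)) D.x hint
  have h2 := (IsFractionRing.isAlgebraic_iff ℤ_[p] ℚ_[p] K).mpr h1.isAlgebraic
  exact D.transc h2

end DynBad
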