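import Pool.Agent.DynBad.CuspCount
import Pool.Agent.DynBad.CompVal

/-!
# Module CuspPt: the composite valuation of a cusp with `ℤ_p`

`V₀` a cusp, `φ : V₀ → ℚ_p` the residue map (`cusp_residue`), `B` the valuation subring `ℤ_p` of
`ℚ_p`; `V₀₀ = {z ∈ V₀ : φ z ∈ ℤ_p}` (`compVal`).
-/

namespace DynBad

open Polynomial

variable {p : ℕ} [Fact p.Prime] {K : Type*} [Field K] [CharZero K] [Algebra ℤ_[p] K] {N : ℕ}

/-- a cusp `V₀` together with its composite `V₀₀` with `ℤ_p` -/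
structure CuspPt (D : DynField p N K) (V₀ V₀₀ : ValuationSubring K) : Prop where
  ov₀ : Over p V₀
  valp₀ : V₀.valuation (p : K) = 1
  x_notMem : D.x ∉ V₀
  le : ∀ z ∈ V₀₀, z ∈ V₀
  ov : Over p V₀₀
  valp : V₀₀.valuation (p : K) < 1
  res : ∀ z ∈ V₀₀, ∃ a : ℤ_[p], V₀.valuation (z - algebraMap ℤ_[p] K a) < 1
  res' : ∀ z ∈ V₀, ∃ (n : ℕ) (a : ℤ_[p]), V₀.valuation (z * p ^ n - algebraMap ℤ_[p] K a) < 1
  mem : ∀ (z : K) (a : ℤ_[p]), V₀.valuation (z - algebraMap ℤ_[p] K a) < 1 →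
    z ∈ V₀₀ ∧ (V₀₀.valuation z < 1 ↔ ¬ IsUnit a)

/-- the valuation subring `ℤ_p` of `ℚ_p` -/
private noncomputable def padicB (p : ℕ) [Fact p.Prime] : ValuationSubring ℚ_[p] where
  toSubring := PadicInt.subring p
  mem_or_inv_mem' x := by
    by_cases h : ‖x‖ ≤ 1
    · exact Or.inl h
    · right
      change ‖x⁻¹‖ ≤ 1
      rw [norm_inv]
      exact inv_le_one_of_one_le₀ (not_le.1 h).le

private lemma mem_padicB {x : ℚ_[p]} : x ∈ padicB p ↔ ‖x‖ ≤ 1 := Iff.rfl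

private lemma padicB_val_lt (x : ℚ_[p]) : (padicB p).valuation x < 1 ↔ ‖x‖ < 1 := by
  by_cases h0 : x = 0
  · subst h0
    simp
  · have h1 : (padicB p).valuation x⁻¹ ≤ 1 ↔ ‖x⁻¹‖ ≤ 1 := by
      rw [ValuationSubring.valuation_le_one_iff, mem_padicB]
    rw [map_inv₀, norm_inv, inv_le_one₀ (zero_lt_iff.2 (by rwa [Ne, map_eq_zero])),
      inv_le_one₀ (norm_pos_iff.2 h0)] at h1
    rw [← not_le, ← not_le, h1]

theorem exists_cuspPt [Algebra ℚ_[p] K] [IsScalarTower ℤ_[p] ℚ_[p] K] (D : DynField p N K)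
    (hN : 1 ≤ N) (V₀ : ValuationSubring K) (hV₀ : V₀ ∈ cusps D) :
    ∃ V₀₀, CuspPt D V₀ V₀₀ := by
  obtain ⟨hV, hp, hx⟩ := hV₀
  obtain ⟨φ, hφ0, hφc⟩ := cusp_residue D hN V₀ hV hp hx
  have hφa : ∀ (a : ℤ_[p]) (h : algebraMap ℤ_[p] K a ∈ V₀), φ ⟨_, h⟩ = (a : ℚ_[p]) := by
    intro a h
    have h1 : algebraMap ℤ_[p] K a = algebraMap ℚ_[p] K (a : ℚ_[p]) :=
      IsScalarTower.algebraMap_apply ℤ_[p] ℚ_[p] K a
    have h2 : (⟨_, h⟩ : V₀) = ⟨algebraMap ℚ_[p] K (a : ℚ_[p]), h1 ▸ h⟩ := Subtype.ext h1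
    rw [h2]
    exact hφc _ _
  have hp0 : (p : ℚ_[p]) ≠ 0 := by exact_mod_cast (Fact.out : p.Prime).ne_zero
  have hpV : (p : K) ∈ V₀ := natCast_mem V₀ p
  have hφp : φ ⟨(p : K), hpV⟩ = (p : ℚ_[p]) := by
    have h1 : (⟨(p : K), hpV⟩ : V₀) = (p : V₀) := Subtype.ext (by simp)
    rw [h1, map_natCast]
  obtain ⟨V', hV', hval⟩ := compVal V₀ φ hφ0 (padicB p)
  have hpV' : (p : K) ∈ V' := natCast_mem V' p
  have key : ∀ (z : K) (a : ℤ_[p]), V₀.valuation (z - algebraMap ℤ_[p] K a) < 1 →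
      ∃ h : z ∈ V₀, φ ⟨z, h⟩ = (a : ℚ_[p]) := by
    intro z a hza
    have h1 : z - algebraMap ℤ_[p] K a ∈ V₀ := (V₀.valuation_le_one_iff _).1 hza.le
    have h2 : z ∈ V₀ := by
      have := V₀.add_mem _ _ h1 (hV a)
      rwa [sub_add_cancel] at this
    refine ⟨h2, ?_⟩
    have h3 : φ (⟨z, h2⟩ - ⟨_, hV a⟩) = 0 := (hφ0 _).2 hza
    rw [map_sub, sub_eq_zero, hφa] at h3
    exact h3
  refine ⟨V', ⟨hV, hp, hx, fun z hz => ((hV' z).1 hz).1, ?_, ?_, ?_, ?_, ?_⟩⟩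
  · intro a
    rw [hV']
    refine ⟨hV a, ?_⟩
    rw [hφa, mem_padicB]
    exact a.2
  · rw [hval _ hpV hpV', hφp, padicB_val_lt, Padic.norm_p]
    exact inv_lt_one_of_one_lt₀ (by exact_mod_cast (Fact.out : p.Prime).one_lt)
  · intro z hz
    obtain ⟨h1, h2⟩ := (hV' z).1 hz
    refine ⟨⟨φ ⟨z, h1⟩, h2⟩, ?_⟩
    have h3 : φ (⟨z, h1⟩ - ⟨_, hV ⟨φ ⟨z, h1⟩, h2⟩⟩) = 0 := by
      rw [map_sub, hφa, sub_self]
    exact (hφ0 _).1 h3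
  · intro z hz
    obtain ⟨a, n, h⟩ := padic_eq_div (φ ⟨z, hz⟩)
    refine ⟨n, a, ?_⟩
    have h3 : φ (⟨z, hz⟩ * ⟨(p : K), hpV⟩ ^ n - ⟨_, hV a⟩) = 0 := by
      rw [map_sub, map_mul, map_pow, hφa, hφp, h, sub_self]
    exact (hφ0 _).1 h3
  · intro z a hza
    obtain ⟨h1, h2⟩ := key z a hza
    have h3 : z ∈ V' := by
      rw [hV']
      refine ⟨h1, ?_⟩
      rw [h2, mem_padicB]
      exact a.2
    refine ⟨h3, ?_⟩
    rw [hval z h1 h3, h2, padicB_val_lt, PadicInt.isUnit_iff]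
    have h4 : ‖(a : ℚ_[p])‖ = ‖a‖ := rfl
    rw [h4]
    constructor
    · exact fun h => h.ne
    · exact fun h => lt_of_le_of_ne (PadicInt.norm_le_one a) h

end DynBad
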