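import Pool.Agent.DynBad.Val

/-!
# Module ValPrinc: a Noetherian local ring with principal maximal ideal dominated by `V` equals `V`

`O = loc V S` is the localization of the Noetherian domain `S` at the prime `𝔪_V ∩ S`
(`IsLocalization.AtPrime`), so it is a Noetherian local domain; by hypothesis its maximal ideal
`{z ∈ O : v(z) < 1}` (use `loc_inv`) is generated by `π`.  So `O` is a field (`π = 0`) or a
discrete valuation ring (`IsDiscreteValuationRing.TFAE`), in particular a valuation ring with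
fraction field `K` (`Frac S`).  `V` dominates `O`, hence `V = O`: for `z ∈ V`, `z ∉ O` implies
`z⁻¹ ∈ O`, `z⁻¹` is a nonunit of `O`, so `v(z⁻¹) < 1`, contradiction.  Last claim: every nonzero
`z ∈ O` is `π^n w` with `w ∈ O` a unit, so `v(w) = 1`, and `K` is the fraction field.
-/

namespace DynBad

section

variable {R K : Type*} [CommRing R] [Field K] [Algebra R K]

/-- the ideal `z O ∩ S` of `S`, `O = loc V S` -/
def zIdeal (V : ValuationSubring K) (S : Subalgebra R K) (z : K) : Ideal S where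
  carrier := {s | ∃ o ∈ loc V S, (s : K) = z * o}
  add_mem' := by
    rintro a b ⟨o, ho, h⟩ ⟨o', ho', h'⟩
    exact ⟨o + o', add_mem ho ho', by rw [Subalgebra.coe_add, h, h']; ring⟩
  zero_mem' := ⟨0, zero_mem _, by simp⟩
  smul_mem' := by
    rintro c a ⟨o, ho, h⟩
    exact ⟨c * o, mul_mem (le_loc V S c.2) ho, by
      rw [smul_eq_mul, Subalgebra.coe_mul, h]; ring⟩

/-- every nonzero element of `O` is a power of `π` times a unit -/
lemma loc_factor [IsNoetherianRing R] (S : Subalgebra R K) (hfg : S.FG)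
    (V : ValuationSubring K) (hSV : Le S V) (π : K) (hπ : π ∈ loc V S) (hπ1 : V.valuation π < 1)
    (h : ∀ z ∈ loc V S, V.valuation z < 1 → ∃ w ∈ loc V S, z = π * w) (z : K)
    (hz : z ∈ loc V S) (hz0 : z ≠ 0) :
    ∃ (n : ℕ) (w : K), w ∈ loc V S ∧ V.valuation w = 1 ∧ z = π ^ n * w := by
  have hNoeth : IsNoetherianRing S := isNoetherianRing_of_fg hfg
  by_contra hcon
  let Bad : Set K := {z | z ∈ loc V S ∧ z ≠ 0 ∧
    ¬ ∃ (n : ℕ) (w : K), w ∈ loc V S ∧ V.valuation w = 1 ∧ z = π ^ n * w}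
  have hstep : ∀ z ∈ Bad, ∃ z' ∈ Bad, z = π * z' := by
    rintro z ⟨hz, hz0, hbad⟩
    have hle : V.valuation z ≤ 1 := (V.valuation_le_one_iff z).mpr (loc_le hSV hz)
    rcases hle.lt_or_eq with hlt | heq
    · obtain ⟨w, hw, rfl⟩ := h z hz hlt
      refine ⟨w, ⟨hw, right_ne_zero_of_mul hz0, ?_⟩, rfl⟩
      rintro ⟨n, w', hw', hw1, rfl⟩
      exact hbad ⟨n + 1, w', hw', hw1, by ring⟩
    · exact absurd ⟨0, z, hz, heq, by simp⟩ hbad
  obtain ⟨I, ⟨z₀, hz₀, rfl⟩, hmax⟩ := set_has_maximal_iff_noetherian.mpr hNoeth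
    ((zIdeal V S) '' Bad) ⟨_, z, ⟨hz, hz0, hcon⟩, rfl⟩
  obtain ⟨z₁, hz₁, he⟩ := hstep z₀ hz₀
  have hle : zIdeal V S z₀ ≤ zIdeal V S z₁ := by
    rintro s ⟨o, ho, hs⟩
    exact ⟨π * o, mul_mem hπ ho, by rw [hs, he]; ring⟩
  have heq : zIdeal V S z₀ = zIdeal V S z₁ := by
    by_contra hne
    exact hmax _ ⟨z₁, hz₁, rfl⟩ (lt_of_le_of_ne hle hne)
  obtain ⟨a, ha, b, hb, hb1, hab⟩ := hz₁.1
  have ha' : (⟨a, ha⟩ : S) ∈ zIdeal V S z₁ := ⟨b, le_loc V S hb, hab.symm⟩
  rw [← heq] at ha'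
  obtain ⟨o, ho, ho'⟩ := ha'
  have hb0 : b ≠ 0 := by rintro rfl; simp at hb1
  have h1 : z₁ * b = z₀ * o := by rw [hab]; exact ho'
  have h2 : b = π * o := by
    have : z₁ * b = z₁ * (π * o) := by rw [h1, he]; ring
    exact mul_left_cancel₀ hz₁.2.1 this
  have ho1 : V.valuation o ≤ 1 := (V.valuation_le_one_iff o).mpr (loc_le hSV ho)
  rw [h2, map_mul] at hb1
  exact (mul_lt_one_of_lt_of_le hπ1 ho1).ne hb1

end

theorem valPrinc {R K : Type*} [CommRing R] [IsNoetherianRing R] [Field K] [Algebra R K]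
    (S : Subalgebra R K) (hfg : S.FG) (hfr : Frac S) (V : ValuationSubring K) (hSV : Le S V)
    (π : K) (hπ : π ∈ loc V S) (hπ1 : V.valuation π < 1)
    (h : ∀ z ∈ loc V S, V.valuation z < 1 → ∃ w ∈ loc V S, z = π * w) :
    (∀ z ∈ V, z ∈ loc V S) ∧
      (π ≠ 0 → ∀ z : K, z ≠ 0 → ∃ n : ℤ, ∃ w : K, V.valuation w = 1 ∧ z = π ^ n * w) := by
  have key : ∀ z : K, z ≠ 0 → ∃ (n m : ℕ) (w : K), w ∈ loc V S ∧ V.valuation w = 1 ∧
      π ^ n ≠ 0 ∧ π ^ m ≠ 0 ∧ z * π ^ m = π ^ n * w := by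
    intro z hz
    obtain ⟨a, ha, b, hb, hb0, hab⟩ := hfr z
    have ha0 : a ≠ 0 := by rw [← hab]; exact mul_ne_zero hz hb0
    obtain ⟨n, w, hw, hw1, hwa⟩ := loc_factor S hfg V hSV π hπ hπ1 h a (le_loc V S ha) ha0
    obtain ⟨m, w', hw', hw1', hwb⟩ := loc_factor S hfg V hSV π hπ hπ1 h b (le_loc V S hb) hb0
    have hw0' : w' ≠ 0 := by rintro rfl; simp at hw1'
    refine ⟨n, m, w * w'⁻¹, mul_mem hw (loc_inv hw' hw1'), ?_, ?_, ?_, ?_⟩
    · rw [map_mul, map_inv₀, hw1, hw1', inv_one, mul_one]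
    · rw [hwa] at ha0; exact left_ne_zero_of_mul ha0
    · rw [hwb] at hb0; exact left_ne_zero_of_mul hb0
    · rw [hwa, hwb] at hab
      field_simp
      linear_combination hab
  refine ⟨fun z hz => ?_, fun hπ0 z hz => ?_⟩
  · by_cases hz0 : z = 0
    · rw [hz0]; exact zero_mem _
    · obtain ⟨n, m, w, hw, hw1, hn0, hm0, he⟩ := key z hz0
      have hz1 : V.valuation z ≤ 1 := (V.valuation_le_one_iff z).mpr hz
      rcases le_or_gt m n with hmn | hmn
      · have : z = π ^ (n - m) * w := by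
          have h1 : π ^ n = π ^ (n - m) * π ^ m := by rw [← pow_add, Nat.sub_add_cancel hmn]
          rw [h1] at he
          apply mul_right_cancel₀ hm0
          rw [he]; ring
        rw [this]
        exact mul_mem (pow_mem hπ _) hw
      · exfalso
        have h1 : π ^ m = π ^ (m - n) * π ^ n := by rw [← pow_add, Nat.sub_add_cancel hmn.le]
        have h2 : π ^ (m - n) * z = w := by
          rw [h1] at he
          apply mul_right_cancel₀ hn0
          linear_combination he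
        have h3 : V.valuation (π ^ (m - n)) < 1 := by
          rw [map_pow]
          exact pow_lt_one₀ zero_le' hπ1 (Nat.sub_pos_of_lt hmn).ne'
        rw [← h2, map_mul] at hw1
        exact (mul_lt_one_of_lt_of_le h3 hz1).ne hw1
  · obtain ⟨n, m, w, hw, hw1, hn0, hm0, he⟩ := key z hz
    refine ⟨(n : ℤ) - m, w, hw1, ?_⟩
    rw [zpow_sub₀ hπ0, zpow_natCast, zpow_natCast, div_mul_eq_mul_div, eq_div_iff hm0]
    exact he

end DynBad
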