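import Pool.Agent.DynBad.DynBasic
import Pool.Agent.DynBad.ValPrinc

/-!
# Module CuspRing: the valuation rings at infinity of the generic fibre

`V ⊇ ℚ_p`, `x ∉ V`.  Put `y = x⁻¹`, `v_j = U_j y`, `ξ_j = X_j y` (`U_j = UU x u j`,
`X_j = XX x u j`).  By `cusp`: `v_j ∈ V`, `|ξ_j| = 1`, and `|v_j| < 1` or `|v_j + ξ_j| < 1`.
`ξ_0 = 1`, `ξ_{j+1} = ξ_j + 2 v_j` (`XX_succ`), `v_j (v_j + ξ_j) = y v_{j+1}` (`UU_succ`).
Let `B = adjoin ℤ_p {1/p, y, v_0, ..., v_{N-1}} ≤ V` (finitely generated, `Frac B = K` because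
`x = 1/y`, `u = v_0 / y`) and `O = loc V B`.
By induction on `j`: `ξ_j ∈ ℤ + y O` and `v_j ∈ ℤ + y O`: if `|v_j| < 1` then `v_j + ξ_j` is a unit
of `O` (`loc_inv`), so `v_j = y v_{j+1} / (v_j + ξ_j) ∈ yO`; if `|v_j + ξ_j| < 1` then `v_j` is a
unit and `v_j ∈ - ξ_j + y O`.  Hence `B ⊆ ℚ_p + y O`, and `O ⊆ ℚ_p + yO`
(for `b ∈ B` with `v(b) = 1`, `b = c + y o` with `c ∈ ℚ_p^×`, `b⁻¹ - c⁻¹ ∈ yO`).
So `{z ∈ O : v(z) < 1} = yO` (an element of `ℚ_p` of absolute value `< 1` is `0`, as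
`ℚ_p ⊆ V`), and `valPrinc` with `π = y` gives `V = O` and `z = y^n w`.
-/

namespace DynBad

open Polynomial

section ring

variable {K : Type*} [Field K] {N : ℕ}

/-- `U_j / x` -/
noncomputable def cv (x u : K) (j : ℕ) : K := UU x u j * x⁻¹

/-- `X_j / x` -/
noncomputable def cxi (x u : K) (j : ℕ) : K := XX x u j * x⁻¹

/-- the finitely generated `ℤ_p`-algebra at infinity -/
noncomputable def cB (p : ℕ) [Fact p.Prime] {K : Type*} [Field K] [Algebra ℤ_[p] K] (x u : K) :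
    Subalgebra ℤ_[p] K :=
  Algebra.adjoin ℤ_[p] ({(p : K)⁻¹, x⁻¹} ∪ Set.range (cv x u))

variable (V : ValuationSubring K)

lemma one_lt_val_of_notMem {x : K} (hx : x ∉ V) : 1 < V.valuation x := by
  rw [← V.valuation_le_one_iff, not_le] at hx
  exact hx

lemma val_inv_lt_one {x : K} (hx : x ∉ V) : V.valuation x⁻¹ < 1 := by
  rw [map_inv₀]
  exact inv_lt_one_of_one_lt₀ (one_lt_val_of_notMem V hx)

lemma ne_zero_of_notMem {x : K} (hx : x ∉ V) : x ≠ 0 := by
  rintro rfl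
  exact hx V.zero_mem

variable {x u : K}

lemma cxi_zero (hx : x ≠ 0) : cxi x u 0 = 1 := by
  rw [cxi, XX_zero, mul_inv_cancel₀ hx]

lemma cxi_succ (j : ℕ) : cxi x u (j + 1) = cxi x u j + 2 * cv x u j := by
  rw [cxi, XX_succ, cxi, cv]; ring

lemma cv_mul (j : ℕ) :
    cv x u j * (cv x u j + cxi x u j) = x⁻¹ * cv x u (j + 1) := by
  rw [cv, cxi, cv, UU_succ]; ring

lemma cv_val (hN : 1 ≤ N) (hF : F x u N = 0) (hx : x ∉ V) (j : ℕ) :
    V.valuation (cv x u j) ≤ 1 := by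
  have h0 := ne_zero_of_notMem V hx
  have h := (cusp V hN hF hx j).1
  rw [cv, map_mul, map_inv₀]
  have hx0 : 0 < V.valuation x := zero_lt_iff.mpr (by rw [Ne, map_eq_zero]; exact h0)
  rw [← div_eq_mul_inv]
  exact div_le_one_of_le₀ h hx0.le

lemma cxi_val (hN : 1 ≤ N) (hF : F x u N = 0) (hx : x ∉ V) (j : ℕ) :
    V.valuation (cxi x u j) = 1 := by
  have h0 := ne_zero_of_notMem V hx
  have h := (cusp V hN hF hx j).2.1
  rw [cxi, map_mul, map_inv₀, h]
  exact mul_inv_cancel₀ (by rw [Ne, map_eq_zero]; exact h0)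

lemma cv_alt (hN : 1 ≤ N) (hF : F x u N = 0) (hx : x ∉ V) (j : ℕ) :
    V.valuation (cv x u j) < 1 ∨ V.valuation (cv x u j + cxi x u j) < 1 := by
  have h0 := ne_zero_of_notMem V hx
  have hx0 : 0 < V.valuation x := zero_lt_iff.mpr (by rw [Ne, map_eq_zero]; exact h0)
  rcases (cusp V hN hF hx j).2.2.1 with h | h
  · left
    rw [cv, map_mul, map_inv₀, ← div_eq_mul_inv]
    exact (div_lt_one₀ hx0).mpr h
  · right
    rw [cv, cxi, ← add_mul, map_mul, map_inv₀, ← div_eq_mul_inv]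
    exact (div_lt_one₀ hx0).mpr h

lemma cv_add_of_eq_zero (hF : F x u N = 0) (j : ℕ) : cv x u (N + j) = cv x u j := by
  rw [cv, UU_add_of_eq_zero hF, cv]

lemma cv_mod (hF : F x u N = 0) (j : ℕ) : cv x u (j % N) = cv x u j := by
  have h : ∀ k j, cv x u (N * k + j) = cv x u j := by
    intro k
    induction k with
    | zero => intro j; simp
    | succ k ih =>
      intro j
      rw [Nat.mul_succ, add_assoc, ih, cv_add_of_eq_zero hF]
  conv_rhs => rw [← Nat.div_add_mod j N]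
  rw [h]

lemma cv_range_finite (hN : 1 ≤ N) (hF : F x u N = 0) : (Set.range (cv x u)).Finite := by
  have : Set.range (cv x u) ⊆ (cv x u) '' (Set.Iio N) := by
    rintro _ ⟨j, rfl⟩
    exact ⟨j % N, Nat.mod_lt _ hN, cv_mod hF j⟩
  exact ((Set.finite_Iio N).image _).subset this

section B

variable {p : ℕ} [Fact p.Prime] [Algebra ℤ_[p] K]

lemma cB_fg (hN : 1 ≤ N) (hF : F x u N = 0) : (cB p x u).FG := by
  have hfin : ({(p : K)⁻¹, x⁻¹} ∪ Set.range (cv x u)).Finite :=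
    (Set.toFinite _).union (cv_range_finite hN hF)
  have := Subalgebra.fg_adjoin_finset (R := ℤ_[p]) hfin.toFinset
  rwa [Set.Finite.coe_toFinset] at this

lemma cB_p : (p : K)⁻¹ ∈ cB p x u := Algebra.subset_adjoin (Or.inl (Or.inl rfl))

lemma cB_y : x⁻¹ ∈ cB p x u := Algebra.subset_adjoin (Or.inl (Or.inr rfl))

lemma cB_v (j : ℕ) : cv x u j ∈ cB p x u := Algebra.subset_adjoin (Or.inr ⟨j, rfl⟩)

lemma cB_two : (2 : K) ∈ cB p x u := by
  have : (2 : K) = 1 + 1 := by norm_num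
  rw [this]
  exact add_mem (one_mem _) (one_mem _)

lemma cB_xi (hx : x ≠ 0) (j : ℕ) : cxi x u j ∈ cB p x u := by
  induction j with
  | zero => rw [cxi_zero hx]; exact one_mem _
  | succ j ih => rw [cxi_succ]; exact add_mem ih (mul_mem cB_two (cB_v j))

lemma cB_le (hN : 1 ≤ N) (hF : F x u N = 0) (hV : Over p V) (hp : V.valuation (p : K) = 1)
    (hx : x ∉ V) : Le (cB p x u) V := by
  intro z hz
  induction hz using Algebra.adjoin_induction with
  | mem z hz =>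
    rcases hz with (rfl | rfl) | ⟨j, rfl⟩
    · rw [← V.valuation_le_one_iff, map_inv₀, hp, inv_one]
    · rw [← V.valuation_le_one_iff]; exact (val_inv_lt_one V hx).le
    · rw [← V.valuation_le_one_iff]; exact cv_val V hN hF hx j
  | algebraMap r => exact hV r
  | add a b _ _ ha hb => exact V.add_mem _ _ ha hb
  | mul a b _ _ ha hb => exact V.mul_mem _ _ ha hb

lemma cB_clear (hx : x ≠ 0) {z : K} (hz : z ∈ Algebra.adjoin ℤ_[p] ({x, u} : Set K)) :
    ∃ n : ℕ, z * x⁻¹ ^ n ∈ cB p x u := by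
  induction hz using Algebra.adjoin_induction with
  | mem z hz =>
    rcases hz with rfl | rfl
    · exact ⟨1, by rw [pow_one, mul_inv_cancel₀ hx]; exact one_mem _⟩
    · refine ⟨1, ?_⟩
      have := cB_v (p := p) (x := x) (u := z) 0
      rw [cv, UU_zero] at this
      rwa [pow_one]
  | algebraMap r => exact ⟨0, by rw [pow_zero, mul_one]; exact Subalgebra.algebraMap_mem _ r⟩
  | add a b _ _ ha hb =>
    obtain ⟨n, hn⟩ := ha
    obtain ⟨m, hm⟩ := hb
    refine ⟨n + m, ?_⟩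
    have : (a + b) * x⁻¹ ^ (n + m) = a * x⁻¹ ^ n * x⁻¹ ^ m + b * x⁻¹ ^ m * x⁻¹ ^ n := by ring
    rw [this]
    exact add_mem (mul_mem hn (pow_mem cB_y m)) (mul_mem hm (pow_mem cB_y n))
  | mul a b _ _ ha hb =>
    obtain ⟨n, hn⟩ := ha
    obtain ⟨m, hm⟩ := hb
    refine ⟨n + m, ?_⟩
    have : a * b * x⁻¹ ^ (n + m) = (a * x⁻¹ ^ n) * (b * x⁻¹ ^ m) := by ring
    rw [this]
    exact mul_mem hn hm

lemma cB_frac (hx : x ≠ 0) (hfr : Frac (Algebra.adjoin ℤ_[p] ({x, u} : Set K))) :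
    Frac (cB p x u) := by
  intro z
  obtain ⟨a, ha, b, hb, hb0, h⟩ := hfr z
  obtain ⟨n, hn⟩ := cB_clear hx ha
  obtain ⟨m, hm⟩ := cB_clear hx hb
  refine ⟨a * x⁻¹ ^ n * x⁻¹ ^ m, mul_mem hn (pow_mem cB_y m), b * x⁻¹ ^ m * x⁻¹ ^ n,
    mul_mem hm (pow_mem cB_y n), ?_, ?_⟩
  · have := inv_ne_zero hx
    positivity
  · rw [← h]; ring

end B

end ring

variable {p : ℕ} [Fact p.Prime] {K : Type*} [Field K] [CharZero K] [Algebra ℤ_[p] K]
  [Algebra ℚ_[p] K] [IsScalarTower ℤ_[p] ℚ_[p] K] {N : ℕ}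

lemma padic_eq_div (c : ℚ_[p]) : ∃ (a : ℤ_[p]) (n : ℕ), c * (p : ℚ_[p]) ^ n = (a : ℚ_[p]) := by
  obtain ⟨n, hn⟩ := pow_unbounded_of_one_lt ‖c‖
    (by exact_mod_cast (Fact.out : p.Prime).one_lt : (1 : ℝ) < p)
  have h1 : ‖c * (p : ℚ_[p]) ^ n‖ ≤ 1 := by
    rw [norm_mul, norm_pow, Padic.norm_p, inv_pow, ← div_eq_mul_inv]
    exact div_le_one_of_le₀ hn.le (by positivity)
  exact ⟨⟨_, h1⟩, n, rfl⟩

lemma algebraMap_padic_eq (c : ℚ_[p]) : ∃ (a : ℤ_[p]) (n : ℕ),
    algebraMap ℚ_[p] K c = algebraMap ℤ_[p] K a * ((p : K)⁻¹) ^ n := by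
  obtain ⟨a, n, h⟩ := padic_eq_div c
  refine ⟨a, n, ?_⟩
  have hp0 : (p : K) ≠ 0 := by exact_mod_cast (Fact.out : p.Prime).ne_zero
  have h2 := congrArg (algebraMap ℚ_[p] K) h
  rw [map_mul, map_pow, map_natCast] at h2
  have h3 : algebraMap ℚ_[p] K (a : ℚ_[p]) = algebraMap ℤ_[p] K a :=
    (IsScalarTower.algebraMap_apply ℤ_[p] ℚ_[p] K a).symm
  rw [h3] at h2
  rw [← h2, mul_assoc, ← mul_pow, mul_inv_cancel₀ hp0, one_pow, mul_one]

lemma padic_mem (V : ValuationSubring K) (hV : Over p V) (hp : V.valuation (p : K) = 1)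
    (c : ℚ_[p]) : algebraMap ℚ_[p] K c ∈ V := by
  obtain ⟨a, n, h⟩ := algebraMap_padic_eq (K := K) c
  have h1 : (p : K)⁻¹ ∈ V := by
    rw [← V.valuation_le_one_iff, map_inv₀, hp, inv_one]
  rw [h]
  exact V.mul_mem _ _ (hV a) (pow_mem h1 n)

lemma padic_val (V : ValuationSubring K) (hV : Over p V) (hp : V.valuation (p : K) = 1)
    {c : ℚ_[p]} (hc : c ≠ 0) : V.valuation (algebraMap ℚ_[p] K c) = 1 := by
  have h1 := (V.valuation_le_one_iff _).mpr (padic_mem V hV hp c)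
  have h2 := (V.valuation_le_one_iff _).mpr (padic_mem V hV hp c⁻¹)
  rw [map_inv₀, map_inv₀] at h2
  have h0 : V.valuation (algebraMap ℚ_[p] K c) ≠ 0 := by
    rw [Ne, map_eq_zero, map_eq_zero]; exact hc
  refine le_antisymm h1 ?_
  exact (inv_le_one₀ (zero_lt_iff.mpr h0)).mp h2

lemma cB_padic (x u : K) (c : ℚ_[p]) : algebraMap ℚ_[p] K c ∈ cB p x u := by
  obtain ⟨a, n, h⟩ := algebraMap_padic_eq (K := K) c
  rw [h]
  exact mul_mem (Subalgebra.algebraMap_mem _ a) (pow_mem cB_p n)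

/-- elements of the form `c + y o` -/
def cT (V : ValuationSubring K) (p : ℕ) [Fact p.Prime] [Algebra ℤ_[p] K]
    [Algebra ℚ_[p] K] (x u : K) (z : K) : Prop :=
  ∃ c : ℚ_[p], ∃ o ∈ loc V (cB p x u), z = algebraMap ℚ_[p] K c + x⁻¹ * o

section T

variable {V : ValuationSubring K} {x u : K}

omit [IsScalarTower ℤ_[p] ℚ_[p] K] in
lemma cT.add {a b : K} (ha : cT V p x u a) (hb : cT V p x u b) : cT V p x u (a + b) := by
  obtain ⟨c, o, ho, rfl⟩ := ha
  obtain ⟨d, q, hq, rfl⟩ := hb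
  exact ⟨c + d, o + q, add_mem ho hq, by rw [map_add]; ring⟩

omit [IsScalarTower ℤ_[p] ℚ_[p] K] in
lemma cT.neg {a : K} (ha : cT V p x u a) : cT V p x u (-a) := by
  obtain ⟨c, o, ho, rfl⟩ := ha
  exact ⟨-c, -o, neg_mem ho, by rw [map_neg]; ring⟩

omit [IsScalarTower ℤ_[p] ℚ_[p] K] in
lemma cT_padic (c : ℚ_[p]) : cT V p x u (algebraMap ℚ_[p] K c) :=
  ⟨c, 0, zero_mem _, by ring⟩

omit [IsScalarTower ℤ_[p] ℚ_[p] K] in
lemma cT_y {o : K} (ho : o ∈ loc V (cB p x u)) : cT V p x u (x⁻¹ * o) :=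
  ⟨0, o, ho, by rw [map_zero]; ring⟩

lemma cT.mul {a b : K} (ha : cT V p x u a) (hb : cT V p x u b) : cT V p x u (a * b) := by
  obtain ⟨c, o, ho, rfl⟩ := ha
  obtain ⟨d, q, hq, rfl⟩ := hb
  have hc := le_loc V _ (cB_padic x u c)
  have hd := le_loc V _ (cB_padic x u d)
  have hy := le_loc V _ (cB_y (p := p) (x := x) (u := u))
  exact ⟨c * d, algebraMap ℚ_[p] K c * q + algebraMap ℚ_[p] K d * o + x⁻¹ * (o * q),
    add_mem (add_mem (mul_mem hc hq) (mul_mem hd ho)) (mul_mem hy (mul_mem ho hq)),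
    by rw [map_mul]; ring⟩

lemma cT_one : cT V p x u (1 : K) := by
  have := cT_padic (V := V) (x := x) (u := u) (1 : ℚ_[p])
  rwa [map_one] at this

lemma cT_two : cT V p x u (2 : K) := by
  have := cT_padic (V := V) (x := x) (u := u) (2 : ℚ_[p])
  rwa [map_ofNat] at this

lemma cT_xi_v (hN : 1 ≤ N) (hF : F x u N = 0) (hx : x ∉ V) (j : ℕ) :
    cT V p x u (cxi x u j) ∧ cT V p x u (cv x u j) := by
  have h0 := ne_zero_of_notMem V hx
  have step : ∀ j, cT V p x u (cxi x u j) → cT V p x u (cv x u j) := by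
    intro j hj
    rcases cv_alt V hN hF hx j with h | h
    · have h1 : V.valuation (cv x u j + cxi x u j) = 1 := by
        have h3 : V.valuation (cv x u j) < V.valuation (cxi x u j) := by
          rwa [cxi_val V hN hF hx j]
        rw [Valuation.map_add_eq_of_lt_right _ h3, cxi_val V hN hF hx j]
      have hmem : cv x u j + cxi x u j ∈ loc V (cB p x u) :=
        le_loc V _ (add_mem (cB_v j) (cB_xi h0 j))
      have hinv := loc_inv hmem h1
      have hne : cv x u j + cxi x u j ≠ 0 := by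
        intro h; rw [h, map_zero] at h1; exact zero_ne_one h1
      have e : cv x u j = x⁻¹ * (cv x u (j + 1) * (cv x u j + cxi x u j)⁻¹) := by
        rw [← mul_assoc, ← cv_mul, mul_assoc, mul_inv_cancel₀ hne, mul_one]
      rw [e]
      exact cT_y (mul_mem (le_loc V _ (cB_v _)) hinv)
    · have h1 : V.valuation (cv x u j) = 1 := by
        have e : cv x u j = (cv x u j + cxi x u j) + -(cxi x u j) := by ring
        have h2 : V.valuation (-(cxi x u j)) = 1 := by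
          rw [Valuation.map_neg, cxi_val V hN hF hx j]
        have h3 : V.valuation (cv x u j + cxi x u j) < V.valuation (-(cxi x u j)) := by rwa [h2]
        rw [e, Valuation.map_add_eq_of_lt_right _ h3, h2]
      have hmem : cv x u j ∈ loc V (cB p x u) := le_loc V _ (cB_v j)
      have hinv := loc_inv hmem h1
      have hne : cv x u j ≠ 0 := by
        intro h; rw [h, map_zero] at h1; exact zero_ne_one h1
      have e : cv x u j = -(cxi x u j) + x⁻¹ * (cv x u (j + 1) * (cv x u j)⁻¹) := by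
        have := cv_mul (x := x) (u := u) j
        field_simp at this ⊢
        linear_combination this
      rw [e]
      exact hj.neg.add (cT_y (mul_mem (le_loc V _ (cB_v _)) hinv))
  induction j with
  | zero =>
    have : cT V p x u (cxi x u 0) := by rw [cxi_zero h0]; exact cT_one
    exact ⟨this, step 0 this⟩
  | succ j ih =>
    have : cT V p x u (cxi x u (j + 1)) := by
      rw [cxi_succ]; exact ih.1.add (cT_two.mul ih.2)
    exact ⟨this, step _ this⟩

lemma cT_of_cB (hN : 1 ≤ N) (hF : F x u N = 0) (hx : x ∉ V) {z : K} (hz : z ∈ cB p x u) :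
    cT V p x u z := by
  induction hz using Algebra.adjoin_induction with
  | mem z hz =>
    rcases hz with (rfl | rfl) | ⟨j, rfl⟩
    · have := cT_padic (V := V) (x := x) (u := u) ((p : ℚ_[p])⁻¹)
      rwa [map_inv₀, map_natCast] at this
    · have := cT_y (p := p) (V := V) (x := x) (u := u) (o := 1) (one_mem _)
      rwa [mul_one] at this
    · exact (cT_xi_v hN hF hx j).2
  | algebraMap r =>
    have := cT_padic (V := V) (x := x) (u := u) (r : ℚ_[p])
    have h3 : algebraMap ℚ_[p] K (r : ℚ_[p]) = algebraMap ℤ_[p] K r :=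
      (IsScalarTower.algebraMap_apply ℤ_[p] ℚ_[p] K r).symm
    rwa [h3] at this
  | add a b _ _ ha hb => exact ha.add hb
  | mul a b _ _ ha hb => exact ha.mul hb

lemma cT_of_loc (hN : 1 ≤ N) (hF : F x u N = 0) (hV : Over p V)
    (hp : V.valuation (p : K) = 1) (hx : x ∉ V) {z : K} (hz : z ∈ loc V (cB p x u)) :
    cT V p x u z := by
  have hBV := cB_le V hN hF hV hp hx
  obtain ⟨a, ha, b, hb, hb1, h⟩ := hz
  obtain ⟨c, o, ho, hbc⟩ := cT_of_cB hN hF hx hb
  have hb0 : b ≠ 0 := by intro h; rw [h, map_zero] at hb1; exact zero_ne_one hb1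
  have ho1 : V.valuation o ≤ 1 := (V.valuation_le_one_iff _).mpr (loc_le hBV ho)
  have hyo : V.valuation (x⁻¹ * o) < 1 := by
    rw [map_mul]
    exact mul_lt_one_of_lt_of_le (val_inv_lt_one V hx) ho1
  have hc0 : c ≠ 0 := by
    rintro rfl
    rw [map_zero, zero_add] at hbc
    rw [hbc] at hb1
    exact hyo.ne hb1
  have hc0' : algebraMap ℚ_[p] K c ≠ 0 := by rwa [Ne, map_eq_zero]
  have hinv := loc_inv (le_loc V _ hb) hb1
  have hcinv := le_loc V _ (cB_padic x u c⁻¹)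
  have e : b⁻¹ = algebraMap ℚ_[p] K c⁻¹ +
      x⁻¹ * (-(o * b⁻¹ * algebraMap ℚ_[p] K c⁻¹)) := by
    rw [map_inv₀]
    field_simp
    rw [hbc]
    have := inv_ne_zero (ne_zero_of_notMem V hx)
    have hx0 := ne_zero_of_notMem V hx
    field_simp
    ring
  have hT : cT V p x u b⁻¹ := ⟨c⁻¹, _, neg_mem (mul_mem (mul_mem ho hinv) hcinv), e⟩
  have hz : z = a * b⁻¹ := by rw [← h, mul_assoc, mul_inv_cancel₀ hb0, mul_one]
  rw [hz]
  exact (cT_of_cB hN hF hx ha).mul hT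

end T

/-- everything at a cusp: `V = O`, `V ⊆ ℚ_p + y V`, and the value group is generated by `y` -/
lemma cusp_all (D : DynField p N K) (hN : 1 ≤ N) (V : ValuationSubring K) (hV : Over p V)
    (hp : V.valuation (p : K) = 1) (hx : D.x ∉ V) :
    (∀ z ∈ V, z ∈ loc V (cB p D.x D.u)) ∧
      (∀ z : K, z ≠ 0 → ∃ n : ℤ, ∃ w : K, V.valuation w = 1 ∧ z = D.x⁻¹ ^ n * w) := by
  have hF := F_eq_zero_of_ev_Phi D.x D.u hN D.root
  have h0 := ne_zero_of_notMem V hx
  have hBV := cB_le V hN hF hV hp hx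
  have key := valPrinc (cB p D.x D.u) (cB_fg hN hF) (cB_frac h0 D.frac) V hBV D.x⁻¹
    (le_loc V _ cB_y) (val_inv_lt_one V hx) ?_
  · exact ⟨key.1, key.2 (inv_ne_zero h0)⟩
  · intro z hz hz1
    obtain ⟨c, o, ho, rfl⟩ := cT_of_loc hN hF hV hp hx hz
    have ho1 : V.valuation o ≤ 1 := (V.valuation_le_one_iff _).mpr (loc_le hBV ho)
    have hyo : V.valuation (D.x⁻¹ * o) < 1 := by
      rw [map_mul]
      exact mul_lt_one_of_lt_of_le (val_inv_lt_one V hx) ho1
    have hc0 : c = 0 := by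
      by_contra hc
      have h1 := padic_val V hV hp hc
      have e : algebraMap ℚ_[p] K c =
          (algebraMap ℚ_[p] K c + D.x⁻¹ * o) - D.x⁻¹ * o := by ring
      have h2 := Valuation.map_sub_lt V.valuation hz1 hyo
      rw [← e, h1] at h2
      exact lt_irrefl _ h2
    refine ⟨o, ho, ?_⟩
    rw [hc0, map_zero, zero_add]

theorem cusp_struct (D : DynField p N K) (hN : 1 ≤ N) (V : ValuationSubring K) (hV : Over p V)
    (hp : V.valuation (p : K) = 1) (hx : D.x ∉ V) :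
    (∀ z ∈ V, ∃ c : ℚ_[p], V.valuation (z - algebraMap ℚ_[p] K c) < 1) ∧
    (∀ z : K, z ≠ 0 → ∃ n : ℤ, V.valuation z = V.valuation D.x ^ n) := by
  have hF := F_eq_zero_of_ev_Phi D.x D.u hN D.root
  have hBV := cB_le V hN hF hV hp hx
  obtain ⟨h1, h2⟩ := cusp_all D hN V hV hp hx
  refine ⟨fun z hz => ?_, fun z hz => ?_⟩
  · obtain ⟨c, o, ho, rfl⟩ := cT_of_loc hN hF hV hp hx (h1 z hz)
    refine ⟨c, ?_⟩
    have ho1 : V.valuation o ≤ 1 := (V.valuation_le_one_iff _).mpr (loc_le hBV ho)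
    rw [add_sub_cancel_left, map_mul]
    exact mul_lt_one_of_lt_of_le (val_inv_lt_one V hx) ho1
  · obtain ⟨n, w, hw, rfl⟩ := h2 z hz
    refine ⟨-n, ?_⟩
    rw [map_mul, hw, mul_one, map_zpow₀, map_inv₀, inv_zpow, zpow_neg]

/-- the residue map at a cusp -/
theorem cusp_residue (D : DynField p N K) (hN : 1 ≤ N) (V : ValuationSubring K) (hV : Over p V)
    (hp : V.valuation (p : K) = 1) (hx : D.x ∉ V) :
    ∃ φ : V →+* ℚ_[p], (∀ z : V, φ z = 0 ↔ V.valuation (z : K) < 1) ∧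
      ∀ (c : ℚ_[p]) (h : algebraMap ℚ_[p] K c ∈ V), φ ⟨_, h⟩ = c := by
  have hm : ∀ c : ℚ_[p], algebraMap ℚ_[p] K c ∈ V.toSubring := fun c => padic_mem V hV hp c
  let ι : ℚ_[p] →+* V := (algebraMap ℚ_[p] K).codRestrict V.toSubring hm
  let ρ : ℚ_[p] →+* IsLocalRing.ResidueField V := (IsLocalRing.residue V).comp ι
  have hsurj : Function.Surjective ρ := by
    intro r
    obtain ⟨z, rfl⟩ := IsLocalRing.residue_surjective r
    obtain ⟨c, hc⟩ := (cusp_struct D hN V hV hp hx).1 z z.2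
    refine ⟨c, ?_⟩
    have : z - ι c ∈ IsLocalRing.maximalIdeal V := by
      rw [ValuationSubring.valuation_lt_one_iff]
      exact hc
    rw [← sub_eq_zero]
    change IsLocalRing.residue V (ι c) - IsLocalRing.residue V z = 0
    rw [← map_sub, IsLocalRing.residue_eq_zero_iff, ← neg_sub]
    exact neg_mem this
  have hbij : Function.Bijective ρ := ⟨ρ.injective, hsurj⟩
  let e := RingEquiv.ofBijective ρ hbij
  refine ⟨(e.symm : IsLocalRing.ResidueField V →+* ℚ_[p]).comp (IsLocalRing.residue V), ?_, ?_⟩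
  · intro z
    change e.symm (IsLocalRing.residue V z) = 0 ↔ _
    rw [map_eq_zero_iff _ e.symm.injective, IsLocalRing.residue_eq_zero_iff,
      ValuationSubring.valuation_lt_one_iff]
  · intro c h
    change e.symm (IsLocalRing.residue V (ι c)) = c
    exact e.symm_apply_apply c

end DynBad
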