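import Mathlib

/-!
# Definitions for the bad reduction of dynatomic curves

Coordinates: `x = 2 z`, `u = f(z) - z` where `f(z) = z^2 + c`.
`F x u n = f^n(z) - z`, `XX x u n = 2 f^n(z)`, `UU x u n = f^(n+1)(z) - f^n(z)`.
-/

namespace DynBad

open Polynomial

section Rec

variable {E : Type*} [CommRing E]

/-- `F x u n = f^n(z) - z` (`x = 2 z`, `u = f(z) - z`) -/
def F (x u : E) : ℕ → E
  | 0 => 0
  | n + 1 => F x u n ^ 2 + x * F x u n + u

/-- `XX x u n = 2 f^n(z)` -/
def XX (x u : E) (n : ℕ) : E := x + 2 * F x u n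

/-- `UU x u n = f^(n+1)(z) - f^n(z)` -/
def UU (x u : E) (n : ℕ) : E := F x u (n + 1) - F x u n

/-- `aa x u n = ∂F_n/∂u` -/
def aa (x u : E) : ℕ → E
  | 0 => 0
  | n + 1 => XX x u n * aa x u n + 1

/-- `bb x u n = ∂F_n/∂x` -/
def bb (x u : E) : ℕ → E
  | 0 => 0
  | n + 1 => XX x u n * bb x u n + F x u n

end Rec

/-- `F_n` as a polynomial over `ℤ`, inner variable `X`, outer variable `U`. -/
noncomputable def FP (n : ℕ) : ℤ[X][X] := F (C X) X n

/-- The dynatomic polynomial `Φ_n` in the coordinates `(X, U)` (inner variable `X`, outer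
variable `U`): Moebius quotient of the `F_d`. -/
noncomputable def Phi (n : ℕ) : ℤ[X][X] :=
  (∏ d ∈ n.divisors.filter (fun d => ArithmeticFunction.moebius (n / d) = 1), FP d) /ₘ
    (∏ d ∈ n.divisors.filter (fun d => ArithmeticFunction.moebius (n / d) = -1), FP d)

/-- partial derivative in the inner variable -/
noncomputable def dX (P : ℤ[X][X]) : ℤ[X][X] :=
  Bivariate.swap (derivative (Bivariate.swap P))

section Ev

variable {R E E' : Type*} [CommRing R] [CommRing E] [Algebra R E] [CommRing E'] [Algebra R E']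

/-- evaluation of a bivariate polynomial: inner variable at `x`, outer variable at `u`. -/
noncomputable def ev (x u : E) : R[X][X] →+* E :=
  eval₂RingHom (eval₂RingHom (algebraMap R E) x) u

@[simp] lemma ev_X (x u : E) : ev (R := R) x u X = u := by simp [ev]
@[simp] lemma ev_C (x u : E) (P : R[X]) : ev (R := R) x u (C P) = eval₂ (algebraMap R E) x P := by
  simp [ev]
lemma ev_CX (x u : E) : ev (R := R) x u (C X) = x := by simp
lemma ev_CC (x u : E) (a : R) : ev (R := R) x u (C (C a)) = algebraMap R E a := by simp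

lemma ev_comp (φ : E →+* E') (h : φ.comp (algebraMap R E) = algebraMap R E') (x u : E)
    (P : R[X][X]) : φ (ev x u P) = ev (φ x) (φ u) P := by
  have : φ.comp (ev (R := R) x u) = ev (φ x) (φ u) := by
    apply Polynomial.ringHom_ext'
    · apply Polynomial.ringHom_ext'
      · ext a
        simp [ev, ← h]
      · simp [ev]
    · simp [ev]
  exact congr($this P)

lemma ev_comp_int (φ : E →+* E') (x u : E) (P : ℤ[X][X]) :
    φ (ev x u P) = ev (φ x) (φ u) P :=
  ev_comp φ (by ext; simp) x u P

lemma ev_map (x u : E) (P : ℤ[X][X]) :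
    ev (R := R) x u (P.map (mapRingHom (Int.castRingHom R))) = ev x u P := by
  have : (ev (R := R) x u).comp (mapRingHom (mapRingHom (Int.castRingHom R))) = ev x u := by
    apply Polynomial.ringHom_ext'
    · apply Polynomial.ringHom_ext'
      · ext a; simp [ev]
      · simp [ev]
    · simp [ev]
  exact congr($this P)

end Ev

/-- `(x, u)` is a singular point of the plane curve `Φ_N = 0`. -/
def Sing {E : Type*} [CommRing E] (N : ℕ) (x u : E) : Prop :=
  ev x u (Phi N) = 0 ∧ ev x u (dX (Phi N)) = 0 ∧ ev x u (derivative (Phi N)) = 0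

/-- the plane curve `Φ_N(X, U) = 0` is smooth over an algebraic closure of `𝔽_p` -/
def SmoothMod (N p : ℕ) [Fact p.Prime] : Prop :=
  ∀ x u : AlgebraicClosure (ZMod p), ¬ Sing N x u

end DynBad
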