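import Mathlib

/-!
# Degenerate points of the quadratic family

`orbit x c n = f_c^n(x)`, `f_c(z) = z^2 + c`, over any commutative ring (used over a field `k` and
over the dual numbers `k[ε]`), `mult x c n = (f_c^n)'(x)`.
-/

namespace DynBad

open Finset

/-- the iterate `f_c^n(x)`, `f_c(z) = z^2 + c` -/
def orbit {R : Type*} [CommRing R] (x c : R) (n : ℕ) : R := (fun z : R => z ^ 2 + c)^[n] x

/-- the derivative `(f_c^n)'(x) = ∏_{j<n} 2 f_c^j(x)` (the multiplier if `f_c^n(x) = x`) -/
def mult {R : Type*} [CommRing R] (x c : R) (n : ℕ) : R := ∏ j ∈ range n, (2 * orbit x c j)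

/-- `(x, c)` is a degenerate point for `N`: `x` has exact period `n ∣ N` under `f_c`, the
multiplier `λ` of its cycle is a primitive `(N/n)`-th root of unity, and
* if `n = N` (so `λ = 1`): every first order deformation `(x + ξ ε, c + κ ε)` is again
  `N`-periodic,
* if `n < N`: the multiplier of the cycle is constant to first order along the curve of points of
  period `n`. -/
def Degenerate (N : ℕ) {k : Type*} [Field k] (x c : k) : Prop :=
  ∃ n m : ℕ, n * m = N ∧ Function.minimalPeriod (fun z : k => z ^ 2 + c) x = n ∧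
    IsPrimitiveRoot (mult x c n) m ∧
    (m = 1 → ∀ ξ κ : k, orbit (TrivSqZeroExt.inl x + TrivSqZeroExt.inr ξ : DualNumber k)
      (TrivSqZeroExt.inl c + TrivSqZeroExt.inr κ) n = TrivSqZeroExt.inl x + TrivSqZeroExt.inr ξ) ∧
    (m ≠ 1 → ∀ ξ κ : k, orbit (TrivSqZeroExt.inl x + TrivSqZeroExt.inr ξ : DualNumber k)
      (TrivSqZeroExt.inl c + TrivSqZeroExt.inr κ) n = TrivSqZeroExt.inl x + TrivSqZeroExt.inr ξ →
      mult (TrivSqZeroExt.inl x + TrivSqZeroExt.inr ξ : DualNumber k)
        (TrivSqZeroExt.inl c + TrivSqZeroExt.inr κ) n = TrivSqZeroExt.inl (mult x c n))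

end DynBad
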