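import Pool.Agent.DynBad.DegDefs
import Pool.Agent.DynBad.ConvSing

/-!
# Module DegPoint: dynamical description of the singular points, characteristic prime to `2N`

With `x̃ = x + ξ ε`, `c̃ = c + κ ε` in `k[ε]`, the point `(x,c)` is singular on `Φ_N = 0` iff
`Φ_N(x̃, c̃) = 0` for all `ξ, κ`.  Let `n` be the exact period of `x`, `N = n m`, `λ` the multiplier.
`F_N = F_n G`, `G = Φ_N H`, `G = ∑_{i<m} ∏_{j<ni} (f^{n+j} + f^j)`.
-/

namespace DynBad

open Polynomial Finset TrivSqZeroExt

section ring
variable {R R' : Type*} [CommRing R] [CommRing R'] (x c : R)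

@[simp] lemma orbit_zero : orbit x c 0 = x := rfl

lemma orbit_succ (n : ℕ) : orbit x c (n + 1) = orbit x c n ^ 2 + c := by
  simp only [orbit, Function.iterate_succ_apply']

@[simp] lemma mult_zero : mult x c 0 = 1 := by simp [mult]

lemma mult_succ (n : ℕ) : mult x c (n + 1) = mult x c n * (2 * orbit x c n) := by
  simp only [mult, prod_range_succ]

lemma orbit_add (n j : ℕ) : orbit x c (n + j) = orbit (orbit x c n) c j := by
  simp only [orbit, add_comm n j, Function.iterate_add_apply]

lemma mult_add (n j : ℕ) : mult x c (n + j) = mult x c n * mult (orbit x c n) c j := by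
  simp only [mult, prod_range_add, orbit_add]

lemma map_orbit (φ : R →+* R') (n : ℕ) : φ (orbit x c n) = orbit (φ x) (φ c) n := by
  induction n with
  | zero => simp
  | succ n ih => rw [orbit_succ, orbit_succ, map_add, map_pow, ih]

lemma F_orbit (n : ℕ) : F (2 * x) (x ^ 2 - x + c) n = orbit x c n - x := by
  induction n with
  | zero => simp
  | succ n ih => rw [F_succ, ih, orbit_succ]; ring

lemma XX_orbit (n : ℕ) : XX (2 * x) (x ^ 2 - x + c) n = 2 * orbit x c n := by
  rw [XX, F_orbit]; ring

/-- the cofactor `(f^{nm}(x) - x) / (f^n(x) - x)` -/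
def cof (x c : R) (n m : ℕ) : R :=
  ∑ i ∈ range m, ∏ j ∈ range (n * i), (orbit x c (j + n) + orbit x c j)

lemma shift_orbit (n j : ℕ) :
    F (XX (2 * x) (x ^ 2 - x + c) j) (UU (2 * x) (x ^ 2 - x + c) j) n +
      XX (2 * x) (x ^ 2 - x + c) j = orbit x c (j + n) + orbit x c j := by
  rw [F_shift, F_orbit, F_orbit, XX_orbit]; ring

lemma orbit_mul_sub (n m : ℕ) :
    orbit x c (n * m) - x = (orbit x c n - x) * cof x c n m := by
  have h := F_mul_eq (2 * x) (x ^ 2 - x + c) n m
  rw [F_orbit, F_orbit] at h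
  rw [h, cof]
  congr 1
  refine sum_congr rfl fun i _ => prod_congr rfl fun j _ => ?_
  exact shift_orbit x c n j

variable {x c} in
/-- at an `n`-periodic point -/
lemma cof_of_periodic {n : ℕ} (h : orbit x c n = x) (m : ℕ) :
    cof x c n m = ∑ i ∈ range m, mult x c n ^ i := by
  have h1 : ∀ j, orbit x c (j + n) + orbit x c j = 2 * orbit x c j := fun j => by
    rw [add_comm j n, orbit_add, h]; ring
  have h2 : ∀ i, orbit x c (n * i) = x ∧ mult x c (n * i) = mult x c n ^ i := by
    intro i
    induction i with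
    | zero => simp
    | succ i ih =>
      rw [mul_add, mul_one, orbit_add, mult_add, ih.1, ih.2, h]
      exact ⟨rfl, by ring⟩
  rw [cof]
  refine sum_congr rfl fun i _ => ?_
  rw [← (h2 i).2, mult]
  exact prod_congr rfl fun j _ => h1 j

lemma map_cof (φ : R →+* R') (n m : ℕ) : φ (cof x c n m) = cof (φ x) (φ c) n m := by
  simp only [cof, map_sum, map_prod, map_add, map_orbit]

end ring

/-- evaluation of integral polynomials (`ev` with the standard `ℤ`-algebra structure) -/
noncomputable def evi {E : Type*} [CommRing E] (c x : E) : ℤ[X][X] →+* E := ev c x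

lemma evi_comp {E E' : Type*} [CommRing E] [CommRing E'] (φ : E →+* E') (c x : E) (P : ℤ[X][X]) :
    φ (evi c x P) = evi (φ c) (φ x) P := ev_comp_int φ c x P

lemma evi_add_sq_zero {E : Type*} [CommRing E] (x u : E) {ε : E} (hε : ε * ε = 0) (x' u' : E)
    (P : ℤ[X][X]) :
    evi (x + ε * x') (u + ε * u') P =
      evi x u P + ε * (x' * evi x u (dX P) + u' * evi x u (derivative P)) :=
  ev_add_sq_zero x u hε x' u' P

lemma evi_dyn {E : Type*} [CommRing E] {N : ℕ} (hN : 1 ≤ N) (x c : E) :
    evi c x (dynatomic N) = evi (2 * x) (x ^ 2 - x + c) (Phi N) := ConvSingAux.ev_dyn hN x c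

/-- `G = Φ_N H` evaluated -/
lemma exists_cof {n m : ℕ} (hn : 1 ≤ n) (hm : 2 ≤ m) :
    ∃ H : ℤ[X][X], H = ∏ e ∈ (n * m).properDivisors.filter (fun e => ¬ e ∣ n), Phi e ∧
      ∀ {R : Type} [CommRing R] (x c : R), cof x c n m =
        evi (2 * x) (x ^ 2 - x + c) (Phi (n * m)) * evi (2 * x) (x ^ 2 - x + c) H := by
  have hN : 1 ≤ n * m := Nat.mul_pos hn (by omega)
  have hlt : n < n * m := by nlinarith
  obtain ⟨G, H, h1, h2, h3⟩ := exists_cofactor hN (dvd_mul_right n m) hlt
  refine ⟨H, h3, ?_⟩
  intro R _ x c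
  have h4 := F_mul_eq (C X : ℤ[X][X]) X n m
  have h5 : G = ∑ i ∈ range m, ∏ j ∈ range (n * i),
      (F (XX (C X : ℤ[X][X]) X j) (UU (C X : ℤ[X][X]) X j) n + XX (C X : ℤ[X][X]) X j) := by
    have h6 : FP n * G = FP n * ∑ i ∈ range m, ∏ j ∈ range (n * i),
      (F (XX (C X : ℤ[X][X]) X j) (UU (C X : ℤ[X][X]) X j) n + XX (C X : ℤ[X][X]) X j) := by
      rw [← h1]
      exact h4
    exact mul_left_cancel₀ (FP_monic hn).ne_zero h6
  have h7 : evi (2 * x) (x ^ 2 - x + c) G = cof x c n m := by
    rw [h5, evi]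
    simp only [map_sum, map_prod, map_add, map_F, map_XX, map_UU, ev_CX, ev_X]
    rw [cof]
    exact sum_congr rfl fun i _ => prod_congr rfl fun j _ => shift_orbit x c n j
  rw [← h7, h2, map_mul]

section dual

variable {k : Type} [Field k]

/-- `∂_c f_c^n(x)` -/
private def dc (x c : k) : ℕ → k
  | 0 => 0
  | n + 1 => 2 * orbit x c n * dc x c n + 1

private lemma inl_add_inr_mul (a b a' b' : k) :
    (inl a + inr b : DualNumber k) * (inl a' + inr b') = inl (a * a') + inr (a * b' + b * a') := by
  ext
  · simp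
  · simp

private lemma inl_add_inr_inj {a b a' b' : k} :
    (inl a + inr b : DualNumber k) = inl a' + inr b' ↔ a = a' ∧ b = b' := by
  constructor
  · intro h
    have h1 := congrArg fst h
    have h2 := congrArg snd h
    simp only [fst_add, fst_inl, fst_inr, add_zero] at h1
    simp only [snd_add, snd_inl, snd_inr, zero_add] at h2
    exact ⟨h1, h2⟩
  · rintro ⟨rfl, rfl⟩; rfl

private lemma inl_add_inr_eq_zero {a b : k} :
    (inl a + inr b : DualNumber k) = 0 ↔ a = 0 ∧ b = 0 := by
  rw [← inl_add_inr_inj (k := k)]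
  simp

private lemma orbit_dual (x c ξ κ : k) (n : ℕ) :
    orbit (inl x + inr ξ : DualNumber k) (inl c + inr κ) n =
      inl (orbit x c n) + inr (ξ * mult x c n + κ * dc x c n) := by
  induction n with
  | zero => simp [dc]
  | succ n ih =>
    rw [orbit_succ, ih, orbit_succ, mult_succ, dc, pow_two, inl_add_inr_mul]
    ext
    · simp; ring
    · simp; ring

/-- Taylor expansion -/
private lemma ev_dual (x c ξ κ : k) (P : ℤ[X][X]) :
    evi (inl c + inr κ : DualNumber k) (inl x + inr ξ) P =
      inl (evi c x P) + inr (κ * evi c x (dX P) + ξ * evi c x (derivative P)) := by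
  have h := evi_add_sq_zero (inl c : DualNumber k) (inl x) (ε := DualNumber.eps)
    DualNumber.eps_mul_eps (inl κ) (inl ξ) P
  have e1 : ∀ a : k, (DualNumber.eps : DualNumber k) * inl a = inr a := by
    intro a
    ext <;> simp
  have e2 : ∀ Q : ℤ[X][X], evi (inl c : DualNumber k) (inl x) Q = inl (evi c x Q) := by
    intro Q
    exact (evi_comp (inlHom k k : k →+* DualNumber k) c x Q).symm
  rw [e1, e1, e2, e2, e2] at h
  rw [h]
  congr 1
  rw [← e1]
  simp

private lemma singular_iff_dual {N : ℕ} (hN : 1 ≤ N) (x c : k) :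
    IsSingularPt N x c ↔ ∀ ξ κ : k,
      evi (2 * (inl x + inr ξ) : DualNumber k)
        ((inl x + inr ξ) ^ 2 - (inl x + inr ξ) + (inl c + inr κ)) (Phi N) = 0 := by
  rw [ConvSingAux.singular_iff_ev]
  simp only [← evi_dyn hN, ev_dual, inl_add_inr_eq_zero]
  change evi c x _ = 0 ∧ evi c x _ = 0 ∧ evi c x _ = 0 ↔ _
  constructor
  · rintro ⟨h1, h2, h3⟩ ξ κ
    rw [h1, h2, h3]; simp
  · intro h
    have h1 := h 1 0
    have h2 := h 0 1
    simp only [one_mul, zero_mul, zero_add, add_zero] at h1 h2
    exact ⟨h1.1, h1.2, h2.2⟩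

/-- block products -/
private lemma block (x c : k) (n : ℕ) : ∃ S : k, ∀ μ : k,
    ∏ r ∈ range n, (inl (2 * orbit x c r) + inr (μ * mult x c r) : DualNumber k) =
      inl (mult x c n) + inr (μ * S) := by
  induction n with
  | zero => exact ⟨0, fun μ => by simp⟩
  | succ n ih =>
    obtain ⟨S, hS⟩ := ih
    refine ⟨mult x c n * mult x c n + S * (2 * orbit x c n), fun μ => ?_⟩
    rw [prod_range_succ, hS, inl_add_inr_mul, mult_succ]
    congr 2
    ring

private lemma periodic_shift {R : Type*} [CommRing R] {x c : R} {n : ℕ} (h : orbit x c n = x)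
    (i r : ℕ) : orbit x c (n * i + r) = orbit x c r ∧
      mult x c (n * i + r) = mult x c n ^ i * mult x c r := by
  induction i with
  | zero => simp
  | succ i ih =>
    have e : n * (i + 1) + r = n + (n * i + r) := by ring
    rw [e, orbit_add, mult_add, h, ih.1, ih.2]
    exact ⟨rfl, by ring⟩

/-- the coefficients of the partial products -/
private def cc (l S : k) : ℕ → k
  | 0 => 0
  | i + 1 => l ^ i * ((l + 1) * l ^ i * S) + cc l S i * l

private lemma cc_eq (l S : k) (i : ℕ) :
    (l - 1) * l * cc l S i = (l + 1) * S * ((l ^ 2) ^ i - l ^ i) := by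
  induction i with
  | zero => simp [cc]
  | succ i ih =>
    have e2 : ∀ i : ℕ, (l ^ 2) ^ i = (l ^ i) ^ 2 := fun i => by
      rw [← pow_mul, ← pow_mul, mul_comm]
    have e : (l - 1) * l * (l ^ i * ((l + 1) * l ^ i * S) + cc l S i * l) =
        (l - 1) * l * l ^ i * ((l + 1) * l ^ i * S) + ((l - 1) * l * cc l S i) * l := by ring
    rw [cc, e, ih, e2, e2, pow_succ l]
    ring

/-- the cofactor vanishes in the `x`-direction -/
private lemma cof_x {x c : k} {n m : ℕ} (h : orbit x c n = x) (hm : mult x c n ^ m = 1)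
    (hm0 : m ≠ 0) (h1 : mult x c n ≠ 1) :
    cof (inl x + inr 1 : DualNumber k) (inl c + inr 0) n m = 0 := by
  obtain ⟨S, hS⟩ := block x c n
  set l := mult x c n with hl
  have hl0 : l ≠ 0 := by
    rintro h0
    rw [h0, zero_pow hm0] at hm
    exact zero_ne_one hm
  have hfac : ∀ j, orbit (inl x + inr 1 : DualNumber k) (inl c + inr 0) (j + n) +
      orbit (inl x + inr 1 : DualNumber k) (inl c + inr 0) j =
        inl (2 * orbit x c j) + inr ((l + 1) * mult x c j) := by
    intro j
    have h2 := periodic_shift h 1 j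
    rw [mul_one, pow_one, add_comm n j] at h2
    rw [orbit_dual, orbit_dual, h2.1, h2.2]
    ext
    · simp; ring
    · simp; ring
  have hP : ∀ i, ∏ j ∈ range (n * i), (orbit (inl x + inr 1 : DualNumber k) (inl c + inr 0) (j + n) +
      orbit (inl x + inr 1 : DualNumber k) (inl c + inr 0) j) = inl (l ^ i) + inr (cc l S i) := by
    intro i
    induction i with
    | zero => simp [cc]
    | succ i ih =>
      rw [mul_add, mul_one, prod_range_add, ih]
      have h3 : ∏ r ∈ range n, (orbit (inl x + inr 1 : DualNumber k) (inl c + inr 0)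
          (n * i + r + n) + orbit (inl x + inr 1 : DualNumber k) (inl c + inr 0) (n * i + r)) =
          inl l + inr (((l + 1) * l ^ i) * S) := by
        rw [← hS]
        refine prod_congr rfl fun r _ => ?_
        rw [hfac, (periodic_shift h i r).1, (periodic_shift h i r).2, ← hl, mul_assoc]
      rw [h3, inl_add_inr_mul, ← pow_succ, cc]
  have hsum : cof (inl x + inr 1 : DualNumber k) (inl c + inr 0) n m =
      inl (∑ i ∈ range m, l ^ i) + inr (∑ i ∈ range m, cc l S i) := by
    rw [cof]
    simp only [hP]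
    rw [sum_add_distrib]
    congr 1
    · exact (map_sum (inlHom k k) _ _).symm
    · exact (map_sum (inrHom k k) _ _).symm
  have hg1 : ∑ i ∈ range m, l ^ i = 0 := by
    have := mul_geom_sum l m
    rw [hm, sub_self] at this
    exact (mul_eq_zero.mp this).resolve_left (sub_ne_zero.mpr h1)
  have hg2 : (l + 1) * ∑ i ∈ range m, (l ^ 2) ^ i = 0 := by
    have := mul_geom_sum (l ^ 2) m
    rw [← pow_mul, mul_comm 2 m, pow_mul, hm, one_pow, sub_self] at this
    have h2 : (l - 1) * ((l + 1) * ∑ i ∈ range m, (l ^ 2) ^ i) = 0 := by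
      rw [← this]; ring
    exact (mul_eq_zero.mp h2).resolve_left (sub_ne_zero.mpr h1)
  have hg3 : ∑ i ∈ range m, cc l S i = 0 := by
    have h2 : (l - 1) * l * ∑ i ∈ range m, cc l S i = 0 := by
      rw [mul_sum]
      simp only [cc_eq]
      rw [← mul_sum, sum_sub_distrib, hg1, sub_zero, mul_right_comm, hg2, zero_mul]
    exact (mul_eq_zero.mp h2).resolve_left (mul_ne_zero (sub_ne_zero.mpr h1) hl0)
  rw [hsum, hg1, hg3]
  simp

private lemma fst_orbit (x c ξ κ : k) (n : ℕ) :
    (orbit (inl x + inr ξ : DualNumber k) (inl c + inr κ) n).fst = orbit x c n := by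
  rw [orbit_dual]; simp

private lemma fst_mult (x c ξ κ : k) (n : ℕ) :
    (mult (inl x + inr ξ : DualNumber k) (inl c + inr κ) n).fst = mult x c n := by
  induction n with
  | zero => simp
  | succ n ih =>
    have h2 : (2 : DualNumber k).fst = 2 := map_ofNat (fstHom k k k) 2
    rw [mult_succ, mult_succ, fst_mul, ih, fst_mul, fst_orbit, h2]

/-- the cofactor vanishes to first order iff the multiplier is stationary -/
private lemma cof_iff {x c : k} {n m : ℕ} (h : orbit x c n = x) (hm : mult x c n ^ m = 1)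
    (hm0 : (m : k) ≠ 0) (h1 : mult x c n ≠ 1) :
    (∀ ξ κ : k, cof (inl x + inr ξ : DualNumber k) (inl c + inr κ) n m = 0) ↔
      ∀ ξ κ : k, orbit (inl x + inr ξ : DualNumber k) (inl c + inr κ) n = inl x + inr ξ →
        mult (inl x + inr ξ : DualNumber k) (inl c + inr κ) n = inl (mult x c n) := by
  have hm0' : m ≠ 0 := by rintro rfl; simp at hm0
  have hl0 : mult x c n ≠ 0 := by
    rintro h0
    rw [h0, zero_pow hm0'] at hm
    exact zero_ne_one hm
  constructor
  · intro hG ξ κ hper
    have h2 := hG ξ κ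
    rw [cof_of_periodic hper] at h2
    have h3 := mul_geom_sum (mult (inl x + inr ξ : DualNumber k) (inl c + inr κ) n) m
    rw [h2, mul_zero, eq_comm, sub_eq_zero] at h3
    have h4 := fst_mult x c ξ κ n
    set t := mult (inl x + inr ξ : DualNumber k) (inl c + inr κ) n with ht
    have h5 := congrArg snd h3
    rw [snd_pow, h4] at h5
    simp only [snd_one, smul_eq_mul, nsmul_eq_mul] at h5
    have h6 : t.snd = 0 := by
      by_contra h7
      have : (m : k) * (mult x c n ^ (m - 1) * t.snd) ≠ 0 :=
        mul_ne_zero hm0 (mul_ne_zero (pow_ne_zero _ hl0) h7)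
      exact this h5
    ext
    · rw [h4]; simp
    · rw [h6]; simp
  · intro hT
    -- the polynomial `cof` and linearity
    obtain ⟨A, B, hAB⟩ : ∃ A B : k, ∀ ξ κ : k,
        cof (inl x + inr ξ : DualNumber k) (inl c + inr κ) n m =
          inl (cof x c n m) + inr (κ * B + ξ * A) := by
      refine ⟨evi c x (derivative (cof (X : ℤ[X][X]) (C X) n m)),
        evi c x (dX (cof (X : ℤ[X][X]) (C X) n m)), fun ξ κ => ?_⟩
      have h2 : ∀ {E : Type} [CommRing E] (x c : E),
          evi c x (cof (X : ℤ[X][X]) (C X) n m) = cof x c n m := by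
        intro E _ x c
        rw [map_cof, evi, ev_X, ev_CX]
      rw [← h2, ev_dual, h2]
    have hz : cof x c n m = 0 := by
      rw [cof_of_periodic h]
      have := mul_geom_sum (mult x c n) m
      rw [hm, sub_self] at this
      exact (mul_eq_zero.mp this).resolve_left (sub_ne_zero.mpr h1)
    have hA : A = 0 := by
      have h2 := cof_x h hm hm0' h1
      rw [hAB, inl_add_inr_eq_zero] at h2
      simpa using h2.2
    have hB : B = 0 := by
      set ξ₀ := - dc x c n / (mult x c n - 1) with hξ
      have h3 : ξ₀ * mult x c n + 1 * dc x c n = ξ₀ := by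
        have : mult x c n - 1 ≠ 0 := sub_ne_zero.mpr h1
        rw [hξ]
        field_simp
        ring
      have h4 : orbit (inl x + inr ξ₀ : DualNumber k) (inl c + inr 1) n = inl x + inr ξ₀ := by
        rw [orbit_dual, h3, h]
      have h5 := hT ξ₀ 1 h4
      have h6 := cof_of_periodic h4 m
      rw [h5, hAB, hA, hz] at h6
      have h7 : ∑ i ∈ range m, (inl (mult x c n) : DualNumber k) ^ i = 0 := by
        have h8 : ∑ i ∈ range m, mult x c n ^ i = 0 := by
          rw [← cof_of_periodic h, hz]
        have h9 := congrArg (inlHom k k) h8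
        rw [map_sum, map_zero] at h9
        simpa using h9
      rw [h7, inl_add_inr_eq_zero] at h6
      simpa using h6.2
    intro ξ κ
    rw [hAB, hA, hB, hz]
    simp

private lemma dual_mul_unit {a b : DualNumber k} (hb : b.fst ≠ 0) (h : a * b = 0) : a = 0 := by
  have hu : IsUnit b := isUnit_iff_isUnit_fst.mpr (isUnit_iff_ne_zero.mpr hb)
  exact (hu.mul_left_eq_zero).mp h

private lemma minimal_iff {x c : k} {n : ℕ} (hn : 0 < n) :
    Function.minimalPeriod (fun z : k => z ^ 2 + c) x = n ↔
      orbit x c n = x ∧ ∀ j, 0 < j → j < n → orbit x c j ≠ x := by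
  constructor
  · rintro rfl
    exact ⟨Function.iterate_minimalPeriod, fun j hj0 hj h =>
      Function.not_isPeriodicPt_of_pos_of_lt_minimalPeriod (by omega) hj h⟩
  · rintro ⟨h1, h2⟩
    have h3 : Function.IsPeriodicPt (fun z : k => z ^ 2 + c) n x := h1
    refine le_antisymm (h3.minimalPeriod_le hn) ?_
    by_contra hlt
    push Not at hlt
    exact h2 _ (h3.minimalPeriod_pos hn) hlt Function.iterate_minimalPeriod

/-- for `e ∣ N`, if `Φ_e(x,c) = 0` then the exact period divides `e` -/
private lemma period_dvd {x c : k} {e : ℕ} (he : 1 ≤ e)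
    (h : evi (2 * x) (x ^ 2 - x + c) (Phi e) = 0) :
    Function.minimalPeriod (fun z : k => z ^ 2 + c) x ∣ e := by
  have h1 : F (2 * x) (x ^ 2 - x + c) e = 0 := F_eq_zero_of_ev_Phi _ _ he h
  rw [F_orbit, sub_eq_zero] at h1
  exact Function.IsPeriodicPt.minimalPeriod_dvd h1

private lemma pow_eq_one_of_cof {x c : k} {n m : ℕ} (h : orbit x c n = x)
    (h0 : cof x c n m = 0) : mult x c n ^ m = 1 := by
  rw [cof_of_periodic h] at h0
  have := mul_geom_sum (mult x c n) m
  rw [h0, mul_zero, eq_comm, sub_eq_zero] at this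
  exact this

private lemma fst_evi (x c ξ κ : k) (P : ℤ[X][X]) :
    (evi (2 * (inl x + inr ξ) : DualNumber k)
      ((inl x + inr ξ) ^ 2 - (inl x + inr ξ) + (inl c + inr κ)) P).fst =
      evi (2 * x) (x ^ 2 - x + c) P := by
  have h := evi_comp ((fstHom k k k : DualNumber k →ₐ[k] k) : DualNumber k →+* k)
    (2 * (inl x + inr ξ)) ((inl x + inr ξ) ^ 2 - (inl x + inr ξ) + (inl c + inr κ)) P
  have e1 : ((fstHom k k k : DualNumber k →ₐ[k] k) : DualNumber k →+* k) (inl x + inr ξ) = x := by
    simp
  have e2 : ((fstHom k k k : DualNumber k →ₐ[k] k) : DualNumber k →+* k) (inl c + inr κ) = c := by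
    simp
  rw [map_mul, map_add _ ((inl x + inr ξ) ^ 2 - (inl x + inr ξ)) (inl c + inr κ), map_sub,
    map_pow, map_ofNat, e1, e2] at h
  exact h

theorem singular_iff_degenerate {N : ℕ} (hN : 1 ≤ N) (hN0 : (N : k) ≠ 0) (x c : k) :
    IsSingularPt N x c ↔ Degenerate N x c := by
  constructor
  · intro hsing
    have hs := (singular_iff_dual hN x c).mp hsing
    have hs0 : evi (2 * x) (x ^ 2 - x + c) (Phi N) = 0 := by
      rw [← evi_dyn hN]
      exact ((ConvSingAux.singular_iff_ev x c).mp hsing).1
    obtain ⟨m, hm⟩ := period_dvd hN hs0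
    set n := Function.minimalPeriod (fun z : k => z ^ 2 + c) x with hn
    have hn0 : 0 < n := Nat.pos_of_ne_zero (by intro h0; rw [h0] at hm; omega)
    have hm0 : m ≠ 0 := by rintro rfl; omega
    have hmk : (m : k) ≠ 0 := by
      intro h0
      apply hN0
      rw [hm, Nat.cast_mul, h0, mul_zero]
    have hper : orbit x c n = x := ((minimal_iff hn0).mp hn.symm).1
    refine ⟨n, m, hm.symm, hn.symm, ?_⟩
    rcases eq_or_ne m 1 with rfl | hm1
    · have h1 : ∀ ξ κ : k, orbit (inl x + inr ξ : DualNumber k) (inl c + inr κ) n =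
          inl x + inr ξ := by
        intro ξ κ
        rw [mul_one] at hm
        have h2 := F_eq_zero_of_ev_Phi (E := DualNumber k) _ _ hN (hs ξ κ)
        rw [F_orbit, sub_eq_zero, hm] at h2
        exact h2
      refine ⟨?_, fun _ => h1, fun h => absurd rfl h⟩
      rw [IsPrimitiveRoot.one_right_iff]
      have h2 := h1 1 0
      rw [orbit_dual, inl_add_inr_inj] at h2
      simpa using h2.2
    · have hm2 : 2 ≤ m := by omega
      obtain ⟨H, -, hcof⟩ := exists_cof hn0 hm2
      have hc0 : cof x c n m = 0 := by rw [hcof, ← hm, hs0, zero_mul]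
      have hpow := pow_eq_one_of_cof hper hc0
      have hne1 : mult x c n ≠ 1 := by
        intro h1
        rw [cof_of_periodic hper, h1] at hc0
        apply hmk
        simpa using hc0
      have hroot : IsPrimitiveRoot (mult x c n) m := by
        have hrd : orderOf (mult x c n) ∣ m := orderOf_dvd_of_pow_eq_one hpow
        obtain ⟨q, hq⟩ := hrd
        have hr0 : orderOf (mult x c n) ≠ 0 := by intro h0; rw [h0] at hq; omega
        have hqk : (q : k) ≠ 0 := by
          intro h0
          apply hmk
          rw [hq, Nat.cast_mul, h0, mul_zero]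
        rcases eq_or_ne q 1 with rfl | hq1
        · rw [mul_one] at hq
          conv => arg 2; rw [hq]
          exact IsPrimitiveRoot.orderOf _
        · exfalso
          have hq2 : 2 ≤ q := by
            have : q ≠ 0 := by rintro rfl; omega
            omega
          obtain ⟨H', -, hcof'⟩ := exists_cof (n := n * orderOf (mult x c n)) (m := q)
            (Nat.mul_pos hn0 (Nat.pos_of_ne_zero hr0)) hq2
          have e : n * orderOf (mult x c n) * q = N := by rw [mul_assoc, ← hq, ← hm]
          have hp' := periodic_shift hper (orderOf (mult x c n)) 0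
          rw [add_zero, orbit_zero, mult_zero, mul_one, pow_orderOf_eq_one] at hp'
          have h1 := hcof' x c
          rw [e, hs0, zero_mul, cof_of_periodic hp'.1, hp'.2] at h1
          apply hqk
          simpa using h1
      refine ⟨hroot, fun h => absurd h hm1, fun _ => ?_⟩
      rw [← cof_iff hper hpow hmk hne1]
      intro ξ κ
      rw [hcof, ← hm, hs ξ κ, zero_mul]
  · rintro ⟨n, m, rfl, hn, hroot, h1, h2⟩
    rw [singular_iff_dual hN]
    have hn0 : 0 < n := Nat.pos_of_ne_zero (by rintro rfl; simp at hN)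
    have hm0 : m ≠ 0 := by rintro rfl; simp at hN
    have hmk : (m : k) ≠ 0 := by
      intro h0
      apply hN0
      rw [Nat.cast_mul, h0, mul_zero]
    have hn' := (minimal_iff hn0).mp hn
    intro ξ κ
    rcases eq_or_ne m 1 with rfl | hm1
    · have h3 := h1 rfl ξ κ
      have h4 : evi (2 * (inl x + inr ξ) : DualNumber k)
        ((inl x + inr ξ) ^ 2 - (inl x + inr ξ) + (inl c + inr κ)) (FP (n * 1)) = 0 := by
        rw [evi, ev_FP, F_orbit, mul_one, h3, sub_self]
      rw [← prod_Phi hN, ← Nat.cons_self_properDivisors (by omega), Finset.prod_cons,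
        map_mul] at h4
      refine dual_mul_unit ?_ h4
      rw [fst_evi, map_prod, Finset.prod_ne_zero_iff]
      intro d hd h5
      rw [Nat.mem_properDivisors] at hd
      have hd0 : 1 ≤ d := Nat.pos_of_dvd_of_pos hd.1 (by omega)
      have h6 := period_dvd hd0 h5
      rw [hn] at h6
      have := Nat.le_of_dvd hd0 h6
      omega
    · have hm2 : 2 ≤ m := by omega
      obtain ⟨H, hH, hcof⟩ := exists_cof hn0 hm2
      have hne1 : mult x c n ≠ 1 := by
        intro h0
        have := hroot.pow_ne_one_of_pos_of_lt (l := 1) one_ne_zero (by omega)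
        rw [pow_one] at this
        exact this h0
      have h3 := (cof_iff hn'.1 hroot.pow_eq_one hmk hne1).mpr (h2 hm1) ξ κ
      rw [hcof] at h3
      refine dual_mul_unit ?_ h3
      rw [fst_evi, hH, map_prod, Finset.prod_ne_zero_iff]
      intro e he h5
      rw [mem_filter, Nat.mem_properDivisors] at he
      have he0 : 1 ≤ e := Nat.pos_of_dvd_of_pos he.1.1 (by omega)
      have h6 := period_dvd he0 h5
      rw [hn] at h6
      obtain ⟨d, rfl⟩ := h6
      have hd0 : d ≠ 0 := by rintro rfl; simp at he0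
      have hd1 : d ≠ 1 := by rintro rfl; exact he.2 (by simp)
      have hdm : d < m := Nat.lt_of_mul_lt_mul_left he.1.2
      obtain ⟨H', -, hcof'⟩ := exists_cof (n := n) (m := d) hn0 (by omega)
      have h7 : cof x c n d = 0 := by rw [hcof', h5, zero_mul]
      exact hroot.pow_ne_one_of_pos_of_lt hd0 hdm (pow_eq_one_of_cof hn'.1 h7)

end dual

end DynBad
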