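import Pool.Agent.DynBad.DynBasic

/-!
# Module DynSigma: the automorphism `σ` of order `N`

`x_1 = XX x u 1 = x + 2 u`, `u_1 = UU x u 1 = u^2 + x u`.  `Φ_N(x_1,u_1) = 0` in `K`:
`F_N(x_1,u_1) = 0` (`F_shift_one`) and `F_d(x_1,u_1) ≠ 0` for proper `d ∣ N` (`F_orbit_iff`,
`generic`), so `ev_Phi_eq_zero`.  By `D.ker` the evaluation `ℤ_p[X][U] → K` at `(x_1,u_1)` factors
through `A`, giving a ring homomorphism `σ₀ : A → K` over `ℤ_p` with `x ↦ x_1`, `u ↦ u_1`.
`σ₀` extends to `K` if it is injective.  `σ₀(A) ⊆ A`, and the `N`-fold iterate of `σ₀ : A → A` is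
the identity (it fixes `x` and `u`: `XX x u N = x`, `UU x u N = u`, using `XX_shift`, `UU_shift`,
`map_XX`), so `σ₀ : A → A` is bijective and extends to `σ : K → K` with `σ^N = 1`.
-/

namespace DynBad

open Polynomial

variable {p : ℕ} [Fact p.Prime] {K : Type*} [Field K] [Algebra ℤ_[p] K] {N : ℕ}

/-- `(x + 2u, u^2 + x u)` is again a root of `Φ_N` -/
lemma DynField.root_one (D : DynField p N K) (hN : 1 ≤ N) :
    ev (XX D.x D.u 1) (UU D.x D.u 1) (Phi N) = 0 := by
  obtain ⟨h1, -, -, -, h5⟩ := D.generic hN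
  refine ev_Phi_eq_zero _ _ hN ?_ ?_
  · exact (F_orbit_iff hN h1 1 N).mpr h1
  · intro d hd hdN h0
    have hd0 : 0 < d := Nat.pos_of_dvd_of_pos hd (by omega)
    exact h5 d hd0 hdN ((F_orbit_iff hN h1 1 d).mp h0)

lemma DynField.ker_one (D : DynField p N K) (hN : 1 ≤ N) (P : ℤ_[p][X][X])
    (hP : ev D.x D.u P = 0) : ev (XX D.x D.u 1) (UU D.x D.u 1) P = 0 := by
  obtain ⟨Q, rfl⟩ := D.ker P hP
  rw [map_mul, ev_map, D.root_one hN, zero_mul]

theorem DynField.exists_sigma (D : DynField p N K) (hN : 1 ≤ N) :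
    ∃ σ : K ≃ₐ[ℤ_[p]] K, σ D.x = D.x + 2 * D.u ∧ σ D.u = D.u ^ 2 + D.x * D.u ∧
      ∀ z : K, σ^[N] z = z := by
  have hgen := (D.generic hN).1
  have hX1 : XX D.x D.u 1 = D.x + 2 * D.u := by simp [XX]
  have hU1 : UU D.x D.u 1 = D.u ^ 2 + D.x * D.u := by
    simp only [UU, F_one]
    rw [show (1 + 1 : ℕ) = 2 from rfl, F_two]; ring
  -- the evaluation onto `A`
  let π : ℤ_[p][X][X] →+* D.A :=
    (ev D.x D.u : ℤ_[p][X][X] →+* K).codRestrict D.A.toSubring
      (fun P => (D.mem_A_iff _).mpr ⟨P, rfl⟩)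
  have hπv : ∀ P, ((π P : D.A) : K) = ev D.x D.u P := fun P => rfl
  have hπ : Function.Surjective π := by
    rintro ⟨z, hz⟩
    obtain ⟨P, hP⟩ := (D.mem_A_iff z).mp hz
    exact ⟨P, Subtype.ext hP.symm⟩
  have hx1 : XX D.x D.u 1 ∈ D.A := by
    rw [hX1]
    exact D.A.add_mem D.x_mem (D.A.mul_mem (by simp) D.u_mem)
  have hu1 : UU D.x D.u 1 ∈ D.A := by
    rw [hU1]
    exact D.A.add_mem (D.A.pow_mem D.u_mem 2) (D.A.mul_mem D.x_mem D.u_mem)
  -- evaluation at the next point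
  have hval : ∀ (a b : D.A) (P : ℤ_[p][X][X]), ((ev a b P : D.A) : K) = ev (a : K) (b : K) P := by
    intro a b P
    exact ev_comp (D.A.val : D.A →+* K) (by ext; rfl) a b P
  let θ : ℤ_[p][X][X] →+* D.A := ev (⟨_, hx1⟩ : D.A) (⟨_, hu1⟩ : D.A)
  have hθ : RingHom.ker π ≤ RingHom.ker θ := by
    intro P hP
    rw [RingHom.mem_ker] at hP ⊢
    apply Subtype.ext
    rw [hval]
    exact D.ker_one hN P (congrArg Subtype.val hP)
  let σ₀ : D.A →+* D.A := π.liftOfSurjective hπ ⟨θ, hθ⟩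
  have hσ₀ : ∀ P, σ₀ (π P) = θ P := fun P => RingHom.liftOfSurjective_comp_apply π hπ ⟨θ, hθ⟩ P
  let ax : D.A := ⟨D.x, D.x_mem⟩
  let au : D.A := ⟨D.u, D.u_mem⟩
  have hπe : ∀ P, π P = ev ax au P := fun P => Subtype.ext (by rw [hval, hπv])
  have hσx : σ₀ ax = XX ax au 1 := by
    have h1 : ax = π (C X) := Subtype.ext (by rw [hπv, ev_CX])
    conv_lhs => rw [h1]
    rw [hσ₀]
    apply Subtype.ext
    rw [hval, ev_CX]
    exact (map_XX ax au (D.A.val : D.A →+* K) 1).symm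
  have hσu : σ₀ au = UU ax au 1 := by
    have h1 : au = π X := Subtype.ext (by rw [hπv, ev_X])
    conv_lhs => rw [h1]
    rw [hσ₀]
    apply Subtype.ext
    rw [hval, ev_X]
    exact (map_UU ax au (D.A.val : D.A →+* K) 1).symm
  have hσc : ∀ a : ℤ_[p], σ₀ (algebraMap ℤ_[p] D.A a) = algebraMap ℤ_[p] D.A a := by
    intro a
    have h1 : algebraMap ℤ_[p] D.A a = π (C (C a)) := Subtype.ext (by rw [hπv, ev_CC]; rfl)
    conv_lhs => rw [h1]
    rw [hσ₀]
    apply Subtype.ext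
    rw [hval, ev_CC]
    rfl
  have hσev : ∀ (a b : D.A) (P : ℤ_[p][X][X]), σ₀ (ev a b P) = ev (σ₀ a) (σ₀ b) P := by
    intro a b P
    exact ev_comp σ₀ (RingHom.ext hσc) a b P
  have hiter : ∀ (k : ℕ) (P : ℤ_[p][X][X]), σ₀^[k] (ev ax au P) = ev (XX ax au k) (UU ax au k) P := by
    intro k
    induction k with
    | zero => intro P; simp
    | succ k ih =>
      intro P
      rw [Function.iterate_succ_apply', ih, hσev, map_XX, map_UU, hσx, hσu, XX_shift, UU_shift,
        add_comm 1 k]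
  have hFA : F ax au N = 0 := by
    apply Subtype.ext
    have := map_F ax au (D.A.val : D.A →+* K) N
    rw [show (((F ax au N : D.A)) : K) = F D.x D.u N from this, hgen]
    rfl
  have hXN : XX ax au N = ax := by simpa using XX_add_of_eq_zero hFA 0
  have hUN : UU ax au N = au := by simpa using UU_add_of_eq_zero hFA 0
  have hid : ∀ z : D.A, σ₀^[N] z = z := by
    intro z
    obtain ⟨P, rfl⟩ := hπ z
    rw [hπe, hiter, hXN, hUN]
  have hbij : Function.Bijective σ₀ := by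
    obtain ⟨M, rfl⟩ : ∃ M, N = M + 1 := ⟨N - 1, by omega⟩
    constructor
    · intro a b hab
      have h1 : σ₀^[M + 1] a = σ₀^[M + 1] b := by
        rw [Function.iterate_succ_apply, Function.iterate_succ_apply, hab]
      rwa [hid, hid] at h1
    · intro b
      refine ⟨σ₀^[M] b, ?_⟩
      have h1 := hid b
      rwa [Function.iterate_succ_apply'] at h1
  let e₀ : D.A ≃+* D.A := RingEquiv.ofBijective σ₀ hbij
  have hfrac : IsFractionRing D.A K := by
    refine ⟨?_, ?_, ?_⟩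
    · rintro ⟨y, hy⟩
      exact IsUnit.mk0 _ (by simpa using nonZeroDivisors.ne_zero hy)
    · intro z
      obtain ⟨a, ha, b, hb, hb0, h⟩ := D.frac z
      exact ⟨⟨⟨a, ha⟩, ⟨⟨b, hb⟩, mem_nonZeroDivisors_of_ne_zero
        (by simpa [Subtype.ext_iff] using hb0)⟩⟩, h⟩
    · intro a b h
      exact ⟨1, by rw [Subtype.ext h]⟩
  let e : K ≃+* K := IsFractionRing.ringEquivOfRingEquiv e₀
  have he : ∀ a : D.A, e (a : K) = ((σ₀ a : D.A) : K) := by
    intro a
    exact IsFractionRing.ringEquivOfRingEquiv_algebraMap (K := K) (L := K) e₀ a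
  let σ : K ≃ₐ[ℤ_[p]] K := AlgEquiv.ofRingEquiv (f := e) (by
    intro r
    have h1 := he (algebraMap ℤ_[p] D.A r)
    rw [hσc] at h1
    exact h1)
  have hσ : ∀ a : D.A, σ (a : K) = ((σ₀ a : D.A) : K) := he
  refine ⟨σ, ?_, ?_, ?_⟩
  · have h1 := hσ ax
    rw [hσx] at h1
    rw [← hX1]
    exact h1.trans (map_XX ax au (D.A.val : D.A →+* K) 1)
  · have h1 := hσ au
    rw [hσu] at h1
    rw [← hU1]
    exact h1.trans (map_UU ax au (D.A.val : D.A →+* K) 1)
  · have hit : ∀ (k : ℕ) (a : D.A), σ^[k] (a : K) = ((σ₀^[k] a : D.A) : K) := by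
      intro k
      induction k with
      | zero => intro a; rfl
      | succ k ih =>
        intro a
        rw [Function.iterate_succ_apply', ih, hσ, Function.iterate_succ_apply']
    intro z
    obtain ⟨a, ha, b, hb, hb0, h⟩ := D.frac z
    have h1 : z = a / b := by rw [← h]; field_simp
    have h2 : ∀ (k : ℕ) (w v : K), σ^[k] (w / v) = σ^[k] w / σ^[k] v := by
      intro k
      induction k with
      | zero => intro w v; rfl
      | succ k ih =>
        intro w v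
        rw [Function.iterate_succ_apply, map_div₀, ih, ← Function.iterate_succ_apply,
          ← Function.iterate_succ_apply]
    rw [h1, h2]
    have h3 := hit N ⟨a, ha⟩
    have h4 := hit N ⟨b, hb⟩
    rw [hid] at h3 h4
    rw [h3, h4]

end DynBad
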