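import Pool.Agent.DynBad.JacInt

/-!
# Module FinitePrimes: the curve is smooth mod `p` for `p ∤ M`

From `exists_M`: reduce the identity `α Φ + β dX Φ + γ derivative Φ = M` at a singular point over
`AlgebraicClosure (ZMod p)`.
-/

namespace DynBad

open Polynomial

private theorem cast_eq_zero_of_sing {E : Type*} [CommRing E] {N : ℕ} {M : ℤ} {α β γ : ℤ[X][X]}
    (h : α * Phi N + β * dX (Phi N) + γ * derivative (Phi N) = C (C M)) {x u : E}
    (hs : Sing N x u) : (M : E) = 0 := by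
  obtain ⟨h1, h2, h3⟩ := hs
  have h4 := congrArg (ev x u) h
  rw [map_add, map_add, map_mul, map_mul, map_mul, h1, h2, h3, mul_zero, mul_zero, mul_zero,
    add_zero, add_zero, ev_CC, eq_comm, eq_intCast] at h4
  exact h4

theorem exists_M_smoothMod {N : ℕ} (hN : 1 ≤ N) :
    ∃ M : ℤ, M ≠ 0 ∧ ∀ (p : ℕ) [Fact p.Prime], ¬ (p : ℤ) ∣ M → SmoothMod N p := by
  obtain ⟨M, hM, α, β, γ, h⟩ := exists_M hN
  refine ⟨M, hM, fun p _ hp x u hs => hp ?_⟩
  exact (CharP.intCast_eq_zero_iff (AlgebraicClosure (ZMod p)) p M).mp (cast_eq_zero_of_sing h hs)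

end DynBad
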