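import Pool.Agent.DynBad.Val

/-! # Affine charts of an integral scheme inside its function field. -/

namespace DynBad

open AlgebraicGeometry CategoryTheory Polynomial

/-- the structure homomorphism from the base ring to the function field -/
noncomputable def baseMap {R : Type} [CommRing R] {X : Scheme.{0}} [IsIntegral X]
    (f : X ⟶ Spec (.of R)) : R →+* X.functionField :=
  ((Scheme.ΓSpecIso (.of R)).inv ≫ f.appTop ≫ X.presheaf.germ ⊤ (genericPoint X) trivial).hom

section
variable {R : Type} [CommRing R] {X : Scheme.{0}} [IsIntegral X] (f : X ⟶ Spec (.of R))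
  {K : Type} [Field K] [Algebra R K] (e : X.functionField ≃+* K)
  (he : ∀ a, e (baseMap f a) = algebraMap R K a)

/-- the coordinate ring of a nonempty open `U`, as a subalgebra of `K` -/
noncomputable def chart (U : X.Opens) [Nonempty U] : Subalgebra R K where
  carrier := Set.range fun s : Γ(X, U) => e (X.germToFunctionField U s)
  mul_mem' := by
    rintro _ _ ⟨s, rfl⟩ ⟨t, rfl⟩
    exact ⟨s * t, by simp⟩
  one_mem' := ⟨1, by simp⟩
  add_mem' := by
    rintro _ _ ⟨s, rfl⟩ ⟨t, rfl⟩
    exact ⟨s + t, by simp⟩
  zero_mem' := ⟨0, by simp⟩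
  algebraMap_mem' := by
    intro a
    refine ⟨(X.presheaf.map (homOfLE le_top).op) (f.appTop ((Scheme.ΓSpecIso (.of R)).inv a)), ?_⟩
    have := X.presheaf.germ_res_apply (homOfLE (le_top : U ≤ ⊤)) (genericPoint X)
      (((genericPoint_spec X).mem_open_set_iff U.isOpen).mpr (by simpa using ‹Nonempty U›))
      (f.appTop ((Scheme.ΓSpecIso (.of R)).inv a))
    rw [← he a]
    exact congrArg e this

/-- image of the stalk at `y` in `K` -/
noncomputable def stalkRange (y : X) : Subring K :=
  ((e : X.functionField →+* K).comp
    (algebraMap (X.presheaf.stalk y) X.functionField)).range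

end

end DynBad
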