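import Pool.Agent.DynBad.P1
import Pool.Agent.DynBad.SchDefs

/-!
# Module NormModel: a smooth proper model by relative normalization

`P, π, j, U₀, U₁` from `exists_P1`.  `Y = j.normalization` (relative normalization of `P` in
`Spec K`, `Mathlib/AlgebraicGeometry/Normalization.lean`), `ν = j.fromNormalization : Y → P` is
integral, `Y` is integral (instances).  `f = ν ≫ π`.
For the affine open `U_i`, `ν⁻¹(U_i)` is affine with sections
`integralClosure Γ(P, U_i) Γ(Spec K, j⁻¹ U_i)` (`normalizationObjIso`), which is (via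
`pointMap j U_i`) the ring `B_i` of elements of `K` integral over the image of `Γ(P,U_i)`, i.e. over
`R[x^{±1}]`; compatible with the `R`-algebra structures (`fromNormalization_app`,
`j ≫ π = Spec.map _`).
Smoothness of `f` is local on `Y` (`ν⁻¹ U₀ ⊔ ν⁻¹ U₁ = ⊤`) and follows from smoothness of
`R → B_i`.  `IsProper f`: `f` is locally of finite type (smooth), and separated, quasi-compact,
universally closed as a composition of the integral `ν` and the proper `π`.
Function field: `Y.functionField` is a fraction field of `Γ(Y, ν⁻¹ U₀) ≃ B₀`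
(`functionField_isFractionRing_of_isAffineOpen`), and so is `K` by `hfr`.
-/

namespace DynBad

open AlgebraicGeometry CategoryTheory

section NM

variable {K : Type} [Field K]

lemma pointMap_apply {P : Scheme.{0}} (j : Spec (.of K) ⟶ P) (U : P.Opens) (h : j ⁻¹ᵁ U = ⊤)
    (s : Γ(P, U)) : pointMap j U h s =
      (Scheme.ΓSpecIso (.of K)).hom (j.appLE U ⊤ (by rw [h]) s) := rfl

lemma isIntegralElem_iff_of_range {A : Type*} [CommRing A] {R : Type*} [CommRing R] [Algebra R K]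
    (ψ : A →+* K) (S : Subalgebra R K) (h : Set.range ψ = S) (z : K) :
    ψ.IsIntegralElem z ↔ IsIntegral S z := by
  have hmem : ∀ a, ψ a ∈ S := fun a => by
    rw [← SetLike.mem_coe, ← h]; exact ⟨a, rfl⟩
  let ψ' : A →+* S := ψ.codRestrict S hmem
  have hsurj : Function.Surjective ψ' := by
    rintro ⟨y, hy⟩
    have : y ∈ Set.range ψ := by rw [h]; exact hy
    obtain ⟨a, ha⟩ := this
    exact ⟨a, Subtype.ext ha⟩
  let : Algebra A K := ψ.toAlgebra
  let : Algebra A S := ψ'.toAlgebra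
  have : IsScalarTower A S K := IsScalarTower.of_algebraMap_eq' (by
    ext a; rfl)
  have : Algebra.IsIntegral A S := Algebra.isIntegral_of_surjective hsurj
  constructor
  · intro hz
    have hz' : IsIntegral A z := hz
    exact hz'.tower_top
  · intro hz
    have : IsIntegral A z := isIntegral_trans (R := A) z hz
    exact this

lemma normPoint {P : Scheme.{0}} (j : Spec (.of K) ⟶ P) [QuasiCompact j] [QuasiSeparated j]
    (U : P.Opens) (hU : IsAffineOpen U) (h : j ⁻¹ᵁ U = ⊤)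
    (h' : j.toNormalization ⁻¹ᵁ (j.fromNormalization ⁻¹ᵁ U) = ⊤) :
    Function.Injective (pointMap j.toNormalization (j.fromNormalization ⁻¹ᵁ U) h') ∧
    ∀ z : K, z ∈ Set.range (pointMap j.toNormalization (j.fromNormalization ⁻¹ᵁ U) h') ↔
      (pointMap j U h).IsIntegralElem z := by
  let : Algebra Γ(P, U) Γ(Spec (.of K), j ⁻¹ᵁ U) := (j.app U).hom.toAlgebra
  have hle : (⊤ : (Spec (.of K)).Opens) ≤ j ⁻¹ᵁ U := by rw [h]
  let ρ : Γ(Spec (.of K), j ⁻¹ᵁ U) ⟶ Γ(Spec (.of K), ⊤) :=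
    (Spec (.of K)).presheaf.map (homOfLE hle).op
  have : IsIso (homOfLE hle) := by
    have : (homOfLE hle) = eqToHom h.symm := Subsingleton.elim _ _
    rw [this]; infer_instance
  have : IsIso ρ := by
    dsimp only [ρ]; infer_instance
  let φ : Γ(Spec (.of K), j ⁻¹ᵁ U) ⟶ .of K := ρ ≫ (Scheme.ΓSpecIso (.of K)).hom
  have : IsIso φ := by dsimp only [φ]; infer_instance
  have hφ : Function.Bijective φ.hom := ConcreteCategory.bijective_of_isIso φ
  let N := j.normalizationObjIso hU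
  have hN : Function.Bijective N.hom.hom := ConcreteCategory.bijective_of_isIso N.hom
  have key : ∀ s, pointMap j.toNormalization (j.fromNormalization ⁻¹ᵁ U) h' s =
      φ.hom ((N.hom.hom s : integralClosure Γ(P, U) Γ(Spec (.of K), j ⁻¹ᵁ U)) :
        Γ(Spec (.of K), j ⁻¹ᵁ U)) := by
    intro s
    have h1 := j.normalizationObjIso_hom_val hU
    have h2 : j.toNormalization.appLE (j.fromNormalization ⁻¹ᵁ U) ⊤ (by rw [h']) =
        j.toNormalization.appLE (j.fromNormalization ⁻¹ᵁ U) (j ⁻¹ᵁ U)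
          (by simp [← Scheme.Hom.comp_preimage]) ≫ ρ := by
      rw [Scheme.Hom.appLE_map]
    rw [pointMap_apply, h2, ← h1]
    rfl
  have key2 : ∀ a, pointMap j U h a = φ.hom (algebraMap _ _ a) := by
    intro a
    have h2 : j.appLE U ⊤ (by rw [h]) = j.app U ≫ ρ := by
      rw [Scheme.Hom.app_eq_appLE, Scheme.Hom.appLE_map]
    rw [pointMap_apply, h2]
    rfl
  constructor
  · intro s t hst
    rw [key, key] at hst
    exact hN.1 (Subtype.ext (hφ.1 hst))
  · intro z
    obtain ⟨w, rfl⟩ := hφ.2 z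
    have e1 : φ.hom w ∈ Set.range
        (pointMap j.toNormalization (j.fromNormalization ⁻¹ᵁ U) h') ↔
        w ∈ integralClosure Γ(P, U) Γ(Spec (.of K), j ⁻¹ᵁ U) := by
      constructor
      · rintro ⟨s, hs⟩
        rw [key] at hs
        rw [← hφ.1 hs]
        exact Subtype.property _
      · intro hw
        obtain ⟨s, hs⟩ := hN.2 ⟨w, hw⟩
        refine ⟨s, ?_⟩
        rw [key, hs]
    rw [e1, mem_integralClosure_iff]
    let : Algebra Γ(P, U) K := (pointMap j U h).toAlgebra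
    let φ' : Γ(Spec (.of K), j ⁻¹ᵁ U) →ₐ[Γ(P, U)] K :=
      { φ.hom with commutes' := fun a => (key2 a).symm }
    exact (isIntegral_algHom_iff φ' hφ.1 (x := w)).symm

lemma pointMap_base {R : Type} [CommRing R] [Algebra R K] {Y : Scheme.{0}}
    (t : Spec (.of K) ⟶ Y) (f : Y ⟶ Spec (.of R))
    (hf : t ≫ f = Spec.map (CommRingCat.ofHom (algebraMap R K))) (V : Y.Opens) (h : t ⁻¹ᵁ V = ⊤)
    (a : R) :
    pointMap t V h ((f.appLE ⊤ V le_top) ((Scheme.ΓSpecIso (.of R)).inv a)) =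
      algebraMap R K a := by
  have h1 : f.appLE ⊤ V le_top ≫ t.appLE V ⊤ (by rw [h]) =
      (Spec.map (CommRingCat.ofHom (algebraMap R K))).appTop := by
    rw [Scheme.Hom.appLE_comp_appLE, Scheme.Hom.appTop, Scheme.Hom.app_eq_appLE]
    congr 1
  have h2 : (Scheme.ΓSpecIso (.of R)).inv ≫ f.appLE ⊤ V le_top ≫ t.appLE V ⊤ (by rw [h]) ≫
      (Scheme.ΓSpecIso (.of K)).hom = CommRingCat.ofHom (algebraMap R K) := by
    rw [reassoc_of% h1, ← Scheme.ΓSpecIso_inv_naturality_assoc]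
    simp
  exact congr($(h2) a)

end NM

theorem exists_model (R : Type) [CommRing R] (K : Type) [Field K] [Algebra R K] (x : K)
    (hx : x ≠ 0) (B₀ B₁ : Subalgebra R K)
    (h₀ : ∀ z : K, z ∈ B₀ ↔ IsIntegral (Algebra.adjoin R {x} : Subalgebra R K) z)
    (h₁ : ∀ z : K, z ∈ B₁ ↔ IsIntegral (Algebra.adjoin R {x⁻¹} : Subalgebra R K) z)
    (hs₀ : Algebra.Smooth R B₀) (hs₁ : Algebra.Smooth R B₁) (hfr : Frac B₀) :
    ∃ (X : Scheme.{0}) (_ : IsIntegral X) (f : X ⟶ Spec (.of R)) (_ : Smooth f)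
      (_ : IsProper f) (e : X.functionField ≃+* K),
      ∀ a : R, e (baseMap f a) = algebraMap R K a := by
  obtain ⟨P, π, j, U₀, U₁, hj₀, hj₁, hπ, hU₀, hU₁, hcov, hjπ, hr₀, hr₁⟩ := exists_P1 R K x hx
  have hqc : QuasiCompact j := by
    have : QuasiCompact (j ≫ π) := by rw [hjπ]; infer_instance
    exact MorphismProperty.of_postcomp (W := @QuasiCompact) (W' := @QuasiSeparated) j π
      inferInstance this
  have hqs : QuasiSeparated j := by
    have : QuasiSeparated (j ≫ π) := by rw [hjπ]; infer_instance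
    exact QuasiSeparated.of_comp j π
  set Y := j.normalization with hY
  let ν : Y ⟶ P := j.fromNormalization
  let t : Spec (.of K) ⟶ Y := j.toNormalization
  have htν : t ≫ ν = j := j.toNormalization_fromNormalization
  let f : Y ⟶ Spec (.of R) := ν ≫ π
  have htf : t ≫ f = Spec.map (CommRingCat.ofHom (algebraMap R K)) := by
    rw [← hjπ, ← htν, Category.assoc]
  have hYi : IsIntegral Y := inferInstance
  have main : ∀ (U : P.Opens) (hU : IsAffineOpen U) (hjU : j ⁻¹ᵁ U = ⊤) (B : Subalgebra R K)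
      (y : K) (_ : Set.range (pointMap j U hjU) = (Algebra.adjoin R {y} : Subalgebra R K))
      (_ : ∀ z : K, z ∈ B ↔ IsIntegral (Algebra.adjoin R {y} : Subalgebra R K) z),
      ∃ h' : t ⁻¹ᵁ (ν ⁻¹ᵁ U) = ⊤,
        Function.Injective (pointMap t (ν ⁻¹ᵁ U) h') ∧
        Set.range (pointMap t (ν ⁻¹ᵁ U) h') = B := by
    intro U hU hjU B y hr hB
    have h' : t ⁻¹ᵁ (ν ⁻¹ᵁ U) = ⊤ := by
      rw [← Scheme.Hom.comp_preimage, htν, hjU]
    refine ⟨h', (normPoint j U hU hjU h').1, ?_⟩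
    ext z
    rw [SetLike.mem_coe, hB, ← isIntegralElem_iff_of_range _ _ hr]
    exact (normPoint j U hU hjU h').2 z
  obtain ⟨ht₀, inj₀, rg₀⟩ := main U₀ hU₀ hj₀ B₀ x hr₀ h₀
  obtain ⟨ht₁, inj₁, rg₁⟩ := main U₁ hU₁ hj₁ B₁ x⁻¹ hr₁ h₁
  have sm : ∀ (V : Y.Opens) (h : t ⁻¹ᵁ V = ⊤) (B : Subalgebra R K) (_ : Algebra.Smooth R B)
      (_ : Function.Injective (pointMap t V h)) (_ : Set.range (pointMap t V h) = B),
      (f.appLE ⊤ V le_top).hom.Smooth := by
    intro V h B hB hinj hrg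
    have hmem : ∀ s, pointMap t V h s ∈ B := fun s => by
      rw [← SetLike.mem_coe, ← hrg]; exact ⟨s, rfl⟩
    let Φ : Γ(Y, V) ≃+* B := RingEquiv.ofBijective ((pointMap t V h).codRestrict B hmem) (by
      constructor
      · intro s s' hs
        exact hinj (congrArg Subtype.val hs)
      · rintro ⟨z, hz⟩
        have : z ∈ Set.range (pointMap t V h) := by rw [hrg]; exact hz
        obtain ⟨s, hs⟩ := this
        exact ⟨s, Subtype.ext hs⟩)
    have hsm : (algebraMap R B).Smooth := RingHom.smooth_algebraMap.mpr hB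
    have e1 : (Scheme.ΓSpecIso (.of R)).hom.hom.Smooth :=
      RingHom.Smooth.of_bijective (ConcreteCategory.bijective_of_isIso _)
    have e2 : (Φ.symm : B →+* Γ(Y, V)).Smooth := RingHom.Smooth.of_bijective Φ.symm.bijective
    have e3 : (f.appLE ⊤ V le_top).hom =
        ((Φ.symm : B →+* Γ(Y, V)).comp (algebraMap R B)).comp
          (Scheme.ΓSpecIso (.of R)).hom.hom := by
      ext a
      apply Φ.injective
      apply Subtype.ext
      have h3 := pointMap_base t f htf V h ((Scheme.ΓSpecIso (.of R)).hom a)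
      have h4 : (Scheme.ΓSpecIso (.of R)).inv ((Scheme.ΓSpecIso (.of R)).hom a) = a := by
        simp
      rw [h4] at h3
      have h5 : Φ (Φ.symm (algebraMap R B ((Scheme.ΓSpecIso (.of R)).hom.hom a))) =
        algebraMap R B ((Scheme.ΓSpecIso (.of R)).hom.hom a) := Φ.apply_symm_apply _
      simp only [RingHom.comp_apply, RingHom.coe_coe]
      rw [h5]
      exact h3
    rw [e3]
    exact e1.comp (hsm.comp e2)
  have sm₀ := sm _ ht₀ B₀ hs₀ inj₀ rg₀
  have sm₁ := sm _ ht₁ B₁ hs₁ inj₁ rg₁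
  have hV₀ : IsAffineOpen (ν ⁻¹ᵁ U₀) := hU₀.preimage ν
  have hV₁ : IsAffineOpen (ν ⁻¹ᵁ U₁) := hU₁.preimage ν
  have hfs : Smooth f := by
    refine HasRingHomProperty.of_iSup_eq_top (P := @Smooth)
      (fun b : Bool => if b then ⟨ν ⁻¹ᵁ U₀, hV₀⟩ else ⟨ν ⁻¹ᵁ U₁, hV₁⟩) ?_ ?_
    · rw [iSup_bool_eq]
      simp only [if_true, Bool.false_eq_true, if_false]
      rw [← Scheme.Hom.preimage_sup, hcov]
      rfl
    · rintro (_ | _)
      · exact sm₁
      · exact sm₀
  have hνi : IsIntegralHom ν := inferInstanceAs (IsIntegralHom j.fromNormalization)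
  have hfp : IsProper f := by
    have h1 : IsSeparated f := inferInstance
    have h2 : UniversallyClosed f := inferInstance
    have h3 : LocallyOfFiniteType f := inferInstance
    exact {}
  have hne : Nonempty (ν ⁻¹ᵁ U₀ : Y.Opens) := by
    let pt : Spec (.of K) := Classical.choice inferInstance
    have : pt ∈ t ⁻¹ᵁ (ν ⁻¹ᵁ U₀) := by rw [ht₀]; trivial
    exact ⟨⟨t pt, this⟩⟩
  have := functionField_isFractionRing_of_isAffineOpen Y (ν ⁻¹ᵁ U₀) hV₀
  let : Algebra Γ(Y, ν ⁻¹ᵁ U₀) K := (pointMap t (ν ⁻¹ᵁ U₀) ht₀).toAlgebra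
  have : FaithfulSMul Γ(Y, ν ⁻¹ᵁ U₀) K := (faithfulSMul_iff_algebraMap_injective _ _).mpr inj₀
  have : IsFractionRing Γ(Y, ν ⁻¹ᵁ U₀) K := by
    refine IsFractionRing.of_field _ _ fun z => ?_
    obtain ⟨a, ha, b, hb, hb0, hz⟩ := hfr z
    rw [← SetLike.mem_coe, ← rg₀] at ha hb
    obtain ⟨a', rfl⟩ := ha
    obtain ⟨b', rfl⟩ := hb
    refine ⟨a', b', ?_⟩
    exact (eq_div_iff hb0).mpr hz
  let e : Y.functionField ≃ₐ[Γ(Y, ν ⁻¹ᵁ U₀)] K :=
    IsLocalization.algEquiv (nonZeroDivisors Γ(Y, ν ⁻¹ᵁ U₀)) Y.functionField K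
  refine ⟨Y, hYi, f, hfs, hfp, e.toRingEquiv, fun a => ?_⟩
  have h1 : baseMap f a = algebraMap Γ(Y, ν ⁻¹ᵁ U₀) Y.functionField
      ((f.appLE ⊤ (ν ⁻¹ᵁ U₀) le_top) ((Scheme.ΓSpecIso (.of R)).inv a)) := by
    have h2 : f.appLE ⊤ (ν ⁻¹ᵁ U₀) le_top =
        f.appTop ≫ Y.presheaf.map (homOfLE le_top).op := rfl
    rw [h2]
    exact (Y.presheaf.germ_res_apply (homOfLE (le_top : ν ⁻¹ᵁ U₀ ≤ ⊤)) (genericPoint Y)
      (((genericPoint_spec Y).mem_open_set_iff (ν ⁻¹ᵁ U₀).isOpen).mpr (by simpa using hne))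
      (f.appTop ((Scheme.ΓSpecIso (.of R)).inv a))).symm
  rw [h1]
  exact (e.commutes _).trans (pointMap_base t f htf _ ht₀ a)

end DynBad
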