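import Pool.Agent.DynBad.InftySmooth
import Pool.Agent.DynBad.NormModel

/-! # Module GoodFinal: assembly of the good direction. -/

namespace DynBad

open AlgebraicGeometry CategoryTheory Polynomial

theorem good_direction {p : ℕ} [Fact p.Prime] {K : Type} [Field K] [Algebra ℤ_[p] K] {N : ℕ}
    (D : DynField p N K) (hN : 1 ≤ N) (hs : SmoothMod N p) :
    ∃ (X : Scheme.{0}) (_ : IsIntegral X) (f : X ⟶ Spec (.of ℤ_[p])) (_ : Smooth f)
      (_ : IsProper f) (e : X.functionField ≃+* K),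
      ∀ a : ℤ_[p], e (baseMap f a) = algebraMap ℤ_[p] K a := by
  have : CharZero K := D.charZero
  have h := D.jac_one hN hs
  let B₁ : Subalgebra ℤ_[p] K :=
    (integralClosure (Algebra.adjoin ℤ_[p] {D.x⁻¹} : Subalgebra ℤ_[p] K) K).restrictScalars ℤ_[p]
  have hx : D.x ≠ 0 := by
    intro h0
    exact D.transc ⟨X, X_ne_zero, by simp [h0]⟩
  exact exists_model ℤ_[p] K D.x hx D.A B₁ (D.mem_A_iff_integral hN) (fun z => Iff.rfl)
    (D.A_smooth hN h) (D.infty_smooth hN h B₁ fun z => Iff.rfl) D.frac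

end DynBad
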