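import Pool.Agent.DynBad.Defs

/-! # Basic identities for the iterates `F x u n = f^n(z) - z`. -/

namespace DynBad

open Polynomial Finset

section

variable {E E' : Type*} [CommRing E] [CommRing E'] (x u : E)

@[simp] lemma F_zero : F x u 0 = 0 := rfl
lemma F_succ (n : ℕ) : F x u (n + 1) = F x u n ^ 2 + x * F x u n + u := rfl
@[simp] lemma F_one : F x u 1 = u := by simp [F]
lemma F_two : F x u 2 = u * (u + x + 1) := by simp only [F]; ring
@[simp] lemma XX_zero : XX x u 0 = x := by simp [XX]
@[simp] lemma UU_zero : UU x u 0 = u := by simp [UU]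
@[simp] lemma aa_zero : aa x u 0 = 0 := rfl
@[simp] lemma aa_one : aa x u 1 = 1 := by simp [aa]
lemma aa_succ (n : ℕ) : aa x u (n + 1) = XX x u n * aa x u n + 1 := rfl
@[simp] lemma bb_zero : bb x u 0 = 0 := rfl
lemma bb_succ (n : ℕ) : bb x u (n + 1) = XX x u n * bb x u n + F x u n := rfl

lemma F_shift (n k : ℕ) : F (XX x u n) (UU x u n) k = F x u (n + k) - F x u n := by
  induction k with
  | zero => simp
  | succ k ih =>
    rw [F_succ, ih, ← add_assoc, F_succ x u (n + k)]
    simp only [XX, UU, F_succ]; ring

lemma XX_shift (n k : ℕ) : XX (XX x u n) (UU x u n) k = XX x u (n + k) := by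
  rw [XX, F_shift]; simp only [XX]; ring

lemma UU_shift (n k : ℕ) : UU (XX x u n) (UU x u n) k = UU x u (n + k) := by
  rw [UU, F_shift, F_shift]; simp only [UU, add_assoc]; ring

lemma UU_succ (n : ℕ) : UU x u (n + 1) = UU x u n * (UU x u n + XX x u n) := by
  simp only [UU, XX, F_succ]; ring

lemma XX_succ (n : ℕ) : XX x u (n + 1) = XX x u n + 2 * UU x u n := by
  simp only [UU, XX]; ring

lemma F_eq_sum (n : ℕ) : F x u n = ∑ j ∈ range n, UU x u j := by
  induction n with
  | zero => simp
  | succ n ih => rw [sum_range_succ, ← ih, UU]; ring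

/-- the multiplier identity: `∂_z (f^n(z) - z) = (f^n)'(z) - 1`. -/
lemma two_bb_add (n : ℕ) :
    2 * bb x u n + (x - 1) * aa x u n = (∏ j ∈ range n, XX x u j) - 1 := by
  induction n with
  | zero => simp
  | succ n ih =>
    rw [prod_range_succ, bb_succ, aa_succ]
    have : (∏ j ∈ range n, XX x u j) = 2 * bb x u n + (x - 1) * aa x u n + 1 := by rw [ih]; ring
    rw [this]; simp only [XX]; ring

lemma aa_eq_sum (n : ℕ) : aa x u n = ∑ j ∈ range n, ∏ k ∈ Ico (j + 1) n, XX x u k := by
  induction n with
  | zero => simp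
  | succ n ih =>
    rw [aa_succ, ih, sum_range_succ, mul_sum]
    simp only [Ico_self, prod_empty]
    congr 1
    refine sum_congr rfl fun j hj => ?_
    rw [mem_range] at hj
    rw [prod_Ico_succ_top (by omega), mul_comm]

/-- `F_(n+k) - F_n = (F_k ∘ σ^n)`; in particular divisibility of `F_k ∘ σ` by `F_k`. -/
lemma F_shift_one (k : ℕ) : F (XX x u 1) (UU x u 1) k = F x u k * (F x u k + x) := by
  rw [F_shift, F_one, add_comm, F_succ]; ring

lemma F_shift_succ (n k : ℕ) :
    F (XX x u (n + 1)) (UU x u (n + 1)) k =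
      F (XX x u n) (UU x u n) k * (F (XX x u n) (UU x u n) k + XX x u n) := by
  have h := F_shift_one (XX x u n) (UU x u n) k
  rwa [XX_shift, UU_shift] at h

lemma F_shift_eq_prod (n k : ℕ) :
    F (XX x u n) (UU x u n) k =
      F x u k * ∏ j ∈ range n, (F (XX x u j) (UU x u j) k + XX x u j) := by
  induction n with
  | zero => simp
  | succ n ih => rw [F_shift_succ, prod_range_succ, ← mul_assoc, ← ih]

/-- the cofactor of `F_d` in `F_(d m)` -/
lemma F_mul_eq (d m : ℕ) :
    F x u (d * m) = F x u d *
      ∑ i ∈ range m, ∏ j ∈ range (d * i), (F (XX x u j) (UU x u j) d + XX x u j) := by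
  induction m with
  | zero => simp
  | succ m ih =>
    rw [sum_range_succ, mul_add (F x u d), ← ih, ← F_shift_eq_prod, F_shift, mul_add, mul_one]
    ring

lemma F_dvd_mul (d m : ℕ) : F x u d ∣ F x u (d * m) := by
  rw [F_mul_eq]; exact dvd_mul_right _ _

lemma F_dvd {d n : ℕ} (h : d ∣ n) : F x u d ∣ F x u n := by
  obtain ⟨m, rfl⟩ := h
  exact F_dvd_mul x u d m

lemma F_eq_zero_of_dvd {d n : ℕ} (h : d ∣ n) (h0 : F x u d = 0) : F x u n = 0 := by
  have := F_dvd x u h
  rw [h0] at this
  exact zero_dvd_iff.mp this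

variable {x u} in
lemma F_add_of_eq_zero {n : ℕ} (h : F x u n = 0) (k : ℕ) : F x u (n + k) = F x u k := by
  induction k with
  | zero => simp [h]
  | succ k ih => rw [← add_assoc, F_succ, F_succ, ih]

variable {x u} in
lemma F_mod {n : ℕ} (h : F x u n = 0) (k : ℕ) : F x u (k % n) = F x u k := by
  conv_rhs => rw [← Nat.div_add_mod k n]
  have h' : F x u (n * (k / n)) = 0 := F_eq_zero_of_dvd x u (dvd_mul_right _ _) h
  rw [F_add_of_eq_zero h']

variable {x u} in
lemma F_gcd {m n : ℕ} (hm : F x u m = 0) (hn : F x u n = 0) : F x u (m.gcd n) = 0 := by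
  induction m, n using Nat.gcd.induction with
  | H0 n => simpa using hn
  | H1 m n hm0 ih =>
    rw [Nat.gcd_rec]
    exact ih (by rw [F_mod hm]; exact hn) hm

variable {x u} in
lemma XX_add_of_eq_zero {n : ℕ} (h : F x u n = 0) (k : ℕ) : XX x u (n + k) = XX x u k := by
  rw [XX, XX, F_add_of_eq_zero h]

variable {x u} in
lemma UU_add_of_eq_zero {n : ℕ} (h : F x u n = 0) (k : ℕ) : UU x u (n + k) = UU x u k := by
  rw [UU, UU, add_assoc, F_add_of_eq_zero h, F_add_of_eq_zero h]

variable {x u} in
/-- if `F_N(P) = 0` then `F_d` vanishes at `σ^j P` iff it vanishes at `P`. -/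
lemma F_orbit_iff {N : ℕ} (hN : 1 ≤ N) (h : F x u N = 0) (j d : ℕ) :
    F (XX x u j) (UU x u j) d = 0 ↔ F x u d = 0 := by
  constructor
  · intro h0
    obtain ⟨k, hk⟩ : ∃ k, j + k = N * j := ⟨N * j - j, by
      have : j ≤ N * j := Nat.le_mul_of_pos_left j hN
      omega⟩
    have h1 := F_shift_eq_prod (XX x u j) (UU x u j) k d
    rw [h0, zero_mul, XX_shift, UU_shift, hk] at h1
    have hz : F x u (N * j) = 0 := F_eq_zero_of_dvd x u (dvd_mul_right _ _) h
    have hX : XX x u (N * j) = x := by simpa using XX_add_of_eq_zero hz 0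
    have hU : UU x u (N * j) = u := by simpa using UU_add_of_eq_zero hz 0
    rwa [hX, hU] at h1
  · intro h0
    rw [F_shift_eq_prod, h0, zero_mul]

section map

variable (φ : E →+* E')

lemma map_F (n : ℕ) : φ (F x u n) = F (φ x) (φ u) n := by
  induction n with
  | zero => simp
  | succ n ih => simp [F_succ, ih]

lemma map_XX (n : ℕ) : φ (XX x u n) = XX (φ x) (φ u) n := by
  simp only [XX, map_add, map_mul, map_F, map_ofNat]

lemma map_UU (n : ℕ) : φ (UU x u n) = UU (φ x) (φ u) n := by simp [UU, map_F]

lemma map_aa (n : ℕ) : φ (aa x u n) = aa (φ x) (φ u) n := by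
  induction n with
  | zero => simp
  | succ n ih => simp [aa_succ, ih, map_XX]

lemma map_bb (n : ℕ) : φ (bb x u n) = bb (φ x) (φ u) n := by
  induction n with
  | zero => simp
  | succ n ih => simp [bb_succ, ih, map_XX, map_F]

end map

/-- first order expansion of `F` along a square-zero direction. -/
lemma F_add_sq_zero {ε : E} (hε : ε * ε = 0) (x' u' : E) (n : ℕ) :
    F (x + ε * x') (u + ε * u') n = F x u n + ε * (x' * bb x u n + u' * aa x u n) := by
  induction n with
  | zero => simp
  | succ n ih =>
    rw [F_succ, ih, F_succ, bb_succ, aa_succ]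
    simp only [XX]
    linear_combination ((x' * bb x u n + u' * aa x u n) ^ 2 +
      x' * (x' * bb x u n + u' * aa x u n)) * hε

lemma ev_FP (n : ℕ) : ev x u (FP n) = F x u n := by
  rw [FP, map_F]; simp

lemma ev_derivative_FP (n : ℕ) : ev x u (derivative (FP n)) = aa x u n := by
  have h : derivative (FP n) = aa (C X : ℤ[X][X]) X n := by
    rw [FP]
    induction n with
    | zero => simp
    | succ n ih =>
      rw [F_succ, aa_succ]
      simp only [derivative_add, derivative_mul, derivative_C, derivative_X, derivative_pow, ih, XX]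
      simp only [Nat.cast_ofNat, map_ofNat]
      ring
  rw [h, map_aa]; simp

end

/-! ### The partial derivative `dX` -/

lemma dX_add (P Q : ℤ[X][X]) : dX (P + Q) = dX P + dX Q := by simp [dX]
lemma dX_sub (P Q : ℤ[X][X]) : dX (P - Q) = dX P - dX Q := by simp [dX]
lemma dX_mul (P Q : ℤ[X][X]) : dX (P * Q) = dX P * Q + P * dX Q := by
  simp only [dX, map_mul, derivative_mul, map_add]
  rw [Bivariate.swap_swap_apply, Bivariate.swap_swap_apply]
lemma dX_C (a : ℤ[X]) : dX (C a) = C (derivative a) := by
  rw [dX, Bivariate.swap_C, derivative_map, Bivariate.swap_map_C]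
lemma dX_X : dX X = 0 := by
  have h : Bivariate.swap (R := ℤ) X = C X := Bivariate.swap_Y
  rw [dX, h]; simp
lemma dX_zero : dX 0 = 0 := by simp [dX]
lemma dX_one : dX 1 = 0 := by simp [dX]

lemma dX_FP (n : ℕ) : dX (FP n) = bb (C X : ℤ[X][X]) X n := by
  rw [FP]
  induction n with
  | zero => simp [dX_zero]
  | succ n ih =>
    rw [F_succ, bb_succ, dX_add, dX_add, dX_mul, dX_C, dX_X, pow_two, dX_mul, ih]
    simp only [XX, derivative_X, map_one]
    ring

lemma ev_dX_FP {E : Type*} [CommRing E] (x u : E) (n : ℕ) :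
    ev x u (dX (FP n)) = bb x u n := by
  rw [dX_FP, map_bb]; simp

/-- Taylor expansion to first order of `ev` along a square-zero direction -/
lemma ev_add_sq_zero {E : Type*} [CommRing E] (x u : E) {ε : E} (hε : ε * ε = 0) (x' u' : E)
    (P : ℤ[X][X]) :
    ev (x + ε * x') (u + ε * u') P =
      ev x u P + ε * (x' * ev x u (dX P) + u' * ev x u (derivative P)) := by
  induction P using Polynomial.induction_on' with
  | add P Q hP hQ =>
    simp only [map_add, dX_add, hP, hQ]; ring
  | monomial n a =>
    induction n with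
    | zero =>
      simp only [monomial_zero_left, ev_C, dX_C, derivative_C, map_zero, mul_zero, add_zero]
      induction a using Polynomial.induction_on' with
      | add p q hp hq => simp only [eval₂_add, derivative_add, hp, hq]; ring
      | monomial m b =>
        simp only [eval₂_monomial, derivative_monomial]
        have : (x + ε * x') ^ m = x ^ m + ε * x' * (m * x ^ (m - 1)) := by
          induction m with
          | zero => simp
          | succ m ih =>
            rw [pow_succ, ih]
            rcases m with _ | m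
            · simp
            · simp only [Nat.add_sub_cancel, Nat.cast_add, Nat.cast_one]
              linear_combination (x' * ((m + 1) * x ^ m) * x') * hε
        rw [this]; push_cast; simp; ring
    | succ n ih =>
      have h1 : (monomial (n + 1) a : ℤ[X][X]) = monomial n a * X := by
        rw [monomial_mul_X]
      rw [h1, map_mul, ih, dX_mul, derivative_mul, dX_X, derivative_X]
      simp only [map_add, map_mul, ev_X, map_zero, map_one]
      linear_combination (x' * ev x u (dX ((monomial n) a)) +
        u' * ev x u (derivative ((monomial n) a))) * u' * hε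

end DynBad
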