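import Pool.Agent.DynBad.DynBasic

/-!
# Module JacOne: smooth mod `p` implies the Jacobian ideal of `A` is the unit ideal

`I ⊆ ℤ_p[X][U]` generated by `Φ_N`, `dX Φ_N`, `derivative Φ_N`.  The image of `I` in
`𝔽_p[X][U]` is the unit ideal: otherwise it is contained in a maximal ideal, whose residue field is
a finite extension of `𝔽_p` (Zariski's lemma) and embeds in `AlgebraicClosure (ZMod p)`, giving a
singular point, contradicting `SmoothMod N p`.  So `I + (p) = (1)`.  By `exists_M`, `M ∈ I` with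
`M ≠ 0` an integer, `M = p^k * unit` in `ℤ_p`, so `p^k ∈ I`.  `I + (p) = (1)` implies
`I + (p^k) = (1)`, so `I = (1)`.  Evaluate at `(x, u)`.
-/

namespace DynBad

open Polynomial

/-- three bivariate polynomials over a field without common zero over the algebraic closure
generate the unit ideal -/
theorem bivariate_null {F : Type*} [Field F] (f g h : F[X][X])
    (H : ∀ x u : AlgebraicClosure F, ¬ (ev x u f = 0 ∧ ev x u g = 0 ∧ ev x u h = 0)) :
    ∃ a b c : F[X][X], a * f + b * g + c * h = 1 := by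
  by_contra hcon
  have hI : Ideal.span ({f, g, h} : Set F[X][X]) ≠ ⊤ := by
    intro htop
    have h1 : (1 : F[X][X]) ∈ Ideal.span ({f, g, h} : Set F[X][X]) := by
      rw [htop]; exact Submodule.mem_top
    rw [Ideal.mem_span_insert] at h1
    obtain ⟨a, z, hz, h1⟩ := h1
    rw [Ideal.mem_span_pair] at hz
    obtain ⟨b, c, hz⟩ := hz
    exact hcon ⟨a, b, c, by rw [h1, ← hz]; ring⟩
  obtain ⟨m, hm, hle⟩ := Ideal.exists_le_maximal _ hI
  let _ : Field (F[X][X] ⧸ m) := Ideal.Quotient.field m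
  have hft : Algebra.FiniteType F (F[X][X] ⧸ m) :=
    Algebra.FiniteType.of_surjective (Ideal.Quotient.mkₐ F m) (Ideal.Quotient.mkₐ_surjective F m)
  have hfin : Module.Finite F (F[X][X] ⧸ m) :=
    finite_of_finite_type_of_isJacobsonRing F (F[X][X] ⧸ m)
  let ι : (F[X][X] ⧸ m) →ₐ[F] AlgebraicClosure F := IsAlgClosed.lift
  let ψ : F[X][X] →+* AlgebraicClosure F :=
    (ι : (F[X][X] ⧸ m) →+* AlgebraicClosure F).comp (Ideal.Quotient.mk m)
  have hψ : ψ = ev (R := F) (ψ (C X)) (ψ X) := by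
    apply Polynomial.ringHom_ext'
    · apply Polynomial.ringHom_ext'
      · ext a
        have : ι (algebraMap F _ a) = algebraMap F _ a := ι.commutes a
        simp only [RingHom.comp_apply, ev_C, eval₂_C]
        exact this
      · simp [ev]
    · simp [ev]
  have h0 : ∀ w ∈ Ideal.span ({f, g, h} : Set F[X][X]), ψ w = 0 := by
    intro w hw
    have h1 : Ideal.Quotient.mk m w = 0 := Ideal.Quotient.eq_zero_iff_mem.mpr (hle hw)
    change ι (Ideal.Quotient.mk m w) = 0
    rw [h1, map_zero]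
  refine H (ψ (C X)) (ψ X) ⟨?_, ?_, ?_⟩
  · rw [← hψ]; exact h0 _ (Ideal.subset_span (by simp))
  · rw [← hψ]; exact h0 _ (Ideal.subset_span (by simp))
  · rw [← hψ]; exact h0 _ (Ideal.subset_span (by simp))

variable {p : ℕ} [Fact p.Prime]

/-- reduction modulo `p` of bivariate polynomials -/
noncomputable def red (p : ℕ) : ℤ[X][X] →+* (ZMod p)[X][X] :=
  mapRingHom (mapRingHom (Int.castRingHom (ZMod p)))

omit [Fact p.Prime] in
lemma red_surjective : Function.Surjective (red p) :=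
  map_surjective _ (map_surjective _ ZMod.intCast_surjective)

lemma red_eq_zero {P : ℤ[X][X]} (h : red p P = 0) : ∃ Q : ℤ[X][X], P = C (C (p : ℤ)) * Q := by
  have h1 : ∀ i j, (p : ℤ) ∣ (P.coeff i).coeff j := by
    intro i j
    have h2 := congrArg (fun Q : (ZMod p)[X][X] => (Q.coeff i).coeff j) h
    simp only [red, coe_mapRingHom, coeff_map, coeff_zero, eq_intCast] at h2
    rwa [ZMod.intCast_zmod_eq_zero_iff_dvd] at h2
  have h3 : C (C (p : ℤ)) ∣ P := by
    rw [C_dvd_iff_dvd_coeff]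
    intro i
    rw [C_dvd_iff_dvd_coeff]
    exact h1 i
  exact h3

variable {K : Type*} [Field K] [Algebra ℤ_[p] K] {N : ℕ}

lemma ev_int_mem (D : DynField p N K) (P : ℤ[X][X]) : ev D.x D.u P ∈ D.A := by
  rw [← ev_map (R := ℤ_[p])]
  exact (D.mem_A_iff _).mpr ⟨_, rfl⟩

theorem DynField.jac_one (D : DynField p N K) (hN : 1 ≤ N) (hs : SmoothMod N p) :
    ∃ α ∈ D.A, ∃ β ∈ D.A, α * D.PX + β * D.PU = 1 := by
  obtain ⟨a, b, c, habc⟩ := bivariate_null (F := ZMod p) (red p (Phi N)) (red p (dX (Phi N)))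
    (red p (derivative (Phi N))) (by
      rintro x u ⟨h1, h2, h3⟩
      refine hs x u ⟨?_, ?_, ?_⟩
      · rw [← ev_map (R := ZMod p)]; exact h1
      · rw [← ev_map (R := ZMod p)]; exact h2
      · rw [← ev_map (R := ZMod p)]; exact h3)
  obtain ⟨a, rfl⟩ := red_surjective a
  obtain ⟨b, rfl⟩ := red_surjective b
  obtain ⟨c, rfl⟩ := red_surjective c
  obtain ⟨Q, hQ⟩ := red_eq_zero (p := p)
    (P := a * Phi N + b * dX (Phi N) + c * derivative (Phi N) - 1) (by
      simp only [map_sub, map_add, map_mul, habc, map_one, sub_self])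
  -- the ideal generated by the partial derivatives
  let J : K → Prop := fun z => ∃ α ∈ D.A, ∃ β ∈ D.A, α * D.PX + β * D.PU = z
  have Jadd : ∀ z w, J z → J w → J (z + w) := by
    rintro z w ⟨α, hα, β, hβ, rfl⟩ ⟨α', hα', β', hβ', rfl⟩
    exact ⟨α + α', add_mem hα hα', β + β', add_mem hβ hβ', by ring⟩
  have Jmul : ∀ z w, z ∈ D.A → J w → J (z * w) := by
    rintro z w hz ⟨α, hα, β, hβ, rfl⟩
    exact ⟨z * α, mul_mem hz hα, z * β, mul_mem hz hβ, by ring⟩
  have hτ := ev_int_mem D Q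
  set τ := ev D.x D.u Q with hτdef
  have h1 : J (1 + (p : K) * τ) := by
    refine ⟨_, ev_int_mem D b, _, ev_int_mem D c, ?_⟩
    have h2 := congrArg (ev D.x D.u) hQ
    simp only [map_sub, map_add, map_mul, D.root, map_one, mul_zero, zero_add] at h2
    rw [ev_CC] at h2
    have h3 : (algebraMap ℤ K) (p : ℤ) = (p : K) := by simp
    rw [h3] at h2
    change ev D.x D.u b * ev D.x D.u (dX (Phi N)) +
      ev D.x D.u c * ev D.x D.u (derivative (Phi N)) = _
    linear_combination h2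
  obtain ⟨M, hM0, hM⟩ := D.exists_M_field hN
  have hJM : J (M : K) := hM
  obtain ⟨k, m, hMk, hm⟩ : ∃ (k : ℕ) (m : ℤ), M = (p : ℤ) ^ k * m ∧ ¬ (p : ℤ) ∣ m := by
    have hfin : FiniteMultiplicity (p : ℤ) M := by
      rw [Int.finiteMultiplicity_iff]
      exact ⟨by rw [Int.natAbs_natCast]; exact (Fact.out : p.Prime).ne_one, hM0⟩
    obtain ⟨m, h1, h2⟩ := hfin.exists_eq_pow_mul_and_not_dvd
    exact ⟨_, m, h1, h2⟩
  have hunit : IsUnit (m : ℤ_[p]) := by
    rw [PadicInt.isUnit_iff]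
    refine le_antisymm (PadicInt.norm_le_one _) ?_
    rw [← not_lt, PadicInt.norm_int_lt_one_iff_dvd]
    exact hm
  obtain ⟨m', hm'⟩ := hunit.exists_left_inv
  have hJp : J ((p : K) ^ k) := by
    have h2 : (p : K) ^ k = algebraMap ℤ_[p] K m' * (M : K) := by
      have h3 : algebraMap ℤ_[p] K m' * (m : K) = 1 := by
        have := congrArg (algebraMap ℤ_[p] K) hm'
        rwa [map_mul, map_intCast, map_one] at this
      rw [hMk]
      push_cast
      linear_combination -((p : K) ^ k) * h3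
    rw [h2]
    exact Jmul _ _ (Subalgebra.algebraMap_mem _ _) hJM
  have hpA : (p : K) ∈ D.A := natCast_mem _ p
  have hgeom : (∑ i ∈ Finset.range k, (-((p : K) * τ)) ^ i) * (1 + (p : K) * τ) =
      1 - (-((p : K) * τ)) ^ k := by
    have := geom_sum_mul_neg (-((p : K) * τ)) k
    rw [sub_neg_eq_add] at this
    exact this
  have h5 : (1 : K) = (∑ i ∈ Finset.range k, (-((p : K) * τ)) ^ i) * (1 + (p : K) * τ) +
      (-τ) ^ k * (p : K) ^ k := by
    rw [hgeom]
    have : (-((p : K) * τ)) ^ k = (-τ) ^ k * (p : K) ^ k := by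
      rw [← mul_pow]; congr 1; ring
    rw [this]; ring
  have h6 : J 1 := by
    rw [h5]
    refine Jadd _ _ (Jmul _ _ ?_ h1) (Jmul _ _ (pow_mem (neg_mem hτ) _) hJp)
    exact sum_mem fun i _ => pow_mem (neg_mem (mul_mem hpA hτ)) _
  exact h6

end DynBad
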