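import Pool.Agent.DynBad.Val

/-!
# Module SmoothCover: smoothness can be checked on a cover by two localizations

`S_i = S[1/f_i] ⊆ K`, `(f₁, f₂) = (1)` in `S`.  `S_i` is the localization of `S` away from `f_i`
(`IsLocalization.Away`), and smoothness is local on the target
(Mathlib: `Algebra.Smooth`, `RingHom.Smooth`, `OfLocalizationSpanTarget`; finite presentation and
formal smoothness are both local).
`smooth_of_chart`: `S` is étale over `ℤ_p[T]`, which is smooth over `ℤ_p`.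
-/

namespace DynBad

open Polynomial

/-- smoothness of the localization `S₁ = S[1/f₁] ⊆ K` in terms of `Localization.Away` -/
lemma smoothCover_away_iff {R K : Type*} [CommRing R] [Field K] [Algebra R K]
    (S S₁ : Subalgebra R K) (f₁ : K) (hf₁ : f₁ ∈ S) (h₁0 : f₁ ≠ 0)
    (h₁ : ∀ z : K, z ∈ S₁ ↔ ∃ n : ℕ, z * f₁ ^ n ∈ S) :
    Algebra.Smooth R (Localization.Away (⟨f₁, hf₁⟩ : S)) ↔ Algebra.Smooth R S₁ := by
  have hle : S ≤ S₁ := fun z hz => (h₁ z).mpr ⟨0, by simpa using hz⟩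
  have hinv : f₁⁻¹ ∈ S₁ := (h₁ _).mpr ⟨1, by rw [pow_one, inv_mul_cancel₀ h₁0]; exact S.one_mem⟩
  let alg : Algebra S S₁ := (Subalgebra.inclusion hle).toRingHom.toAlgebra
  have htow : IsScalarTower R S S₁ := IsScalarTower.of_algebraMap_eq fun r => rfl
  have hval : ∀ z : S, ((algebraMap S S₁ z : S₁) : K) = z := fun z => rfl
  have hloc : IsLocalization.Away (⟨f₁, hf₁⟩ : S) S₁ := by
    refine ⟨?_, ?_, ?_⟩
    · rintro ⟨y, n, rfl⟩
      refine IsUnit.of_mul_eq_one (⟨f₁⁻¹, hinv⟩ ^ n) ?_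
      apply Subtype.ext
      change f₁ ^ n * f₁⁻¹ ^ n = 1
      rw [← mul_pow, mul_inv_cancel₀ h₁0, one_pow]
    · rintro ⟨z, hz⟩
      obtain ⟨n, hn⟩ := (h₁ z).mp hz
      exact ⟨⟨⟨z * f₁ ^ n, hn⟩, ⟨_, n, rfl⟩⟩, Subtype.ext rfl⟩
    · intro x y hxy
      refine ⟨1, ?_⟩
      have h3 : ((algebraMap S S₁ x : S₁) : K) = ((algebraMap S S₁ y : S₁) : K) :=
        congrArg Subtype.val hxy
      have h4 : x = y := Subtype.ext h3
      rw [h4]
  let ee : Localization.Away (⟨f₁, hf₁⟩ : S) ≃ₐ[R] S₁ :=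
    (IsLocalization.algEquiv (Submonoid.powers (⟨f₁, hf₁⟩ : S)) _ S₁).restrictScalars R
  exact ⟨fun h => Algebra.Smooth.of_equiv ee, fun h => Algebra.Smooth.of_equiv ee.symm⟩

theorem smooth_of_cover {R K : Type*} [CommRing R] [Field K] [Algebra R K]
    (S S₁ S₂ : Subalgebra R K) (f₁ f₂ : K) (hf₁ : f₁ ∈ S) (hf₂ : f₂ ∈ S) (h₁0 : f₁ ≠ 0)
    (h₂0 : f₂ ≠ 0) (hcov : ∃ α ∈ S, ∃ β ∈ S, α * f₁ + β * f₂ = 1)
    (h₁ : ∀ z : K, z ∈ S₁ ↔ ∃ n : ℕ, z * f₁ ^ n ∈ S)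
    (h₂ : ∀ z : K, z ∈ S₂ ↔ ∃ n : ℕ, z * f₂ ^ n ∈ S)
    (hs₁ : Algebra.Smooth R S₁) (hs₂ : Algebra.Smooth R S₂) : Algebra.Smooth R S := by
  have k₁ := (smoothCover_away_iff S S₁ f₁ hf₁ h₁0 h₁).mpr hs₁
  have k₂ := (smoothCover_away_iff S S₂ f₂ hf₂ h₂0 h₂).mpr hs₂
  let s : Set S := {⟨f₁, hf₁⟩, ⟨f₂, hf₂⟩}
  have hs : Ideal.span s = ⊤ := by
    rw [Ideal.eq_top_iff_one, Ideal.mem_span_pair]
    obtain ⟨α, hα, β, hβ, h⟩ := hcov
    exact ⟨⟨α, hα⟩, ⟨β, hβ⟩, Subtype.ext h⟩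
  have H : ∀ r ∈ s, Algebra.Smooth R (Localization.Away r) := by
    intro r hr
    rcases hr with rfl | hr
    · exact k₁
    · rw [Set.mem_singleton_iff] at hr
      subst hr
      exact k₂
  have hfp : Algebra.FinitePresentation R S :=
    Algebra.FinitePresentation.of_span_eq_top_target s hs fun r hr =>
      (H r hr).finitePresentation
  refine ⟨?_, hfp⟩
  rw [← Algebra.smoothLocus_eq_univ_iff, ← Set.univ_subset_iff, ← TopologicalSpace.Opens.coe_top,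
    ← PrimeSpectrum.iSup_basicOpen_eq_top_iff'.mpr hs]
  simp only [TopologicalSpace.Opens.coe_iSup, Set.iUnion_subset_iff,
    Algebra.basicOpen_subset_smoothLocus_iff]
  exact fun r hr ↦ (H r hr).1

/-- a localization of a smooth algebra is smooth -/
theorem smooth_of_away {R K : Type*} [CommRing R] [Field K] [Algebra R K]
    (S S₁ : Subalgebra R K) (f₁ : K) (hf₁ : f₁ ∈ S) (h₁0 : f₁ ≠ 0)
    (h₁ : ∀ z : K, z ∈ S₁ ↔ ∃ n : ℕ, z * f₁ ^ n ∈ S) (hs : Algebra.Smooth R S) :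
    Algebra.Smooth R S₁ := by
  rw [← smoothCover_away_iff S S₁ f₁ hf₁ h₁0 h₁]
  have : Algebra.Etale S (Localization.Away (⟨f₁, hf₁⟩ : S)) :=
    Algebra.Etale.of_isLocalizationAway (⟨f₁, hf₁⟩ : S)
  exact Algebra.Smooth.comp R S _

theorem smooth_of_chart {R K : Type*} [CommRing R] [Field K] [Algebra R K] (S : Subalgebra R K)
    (hS : EtaleChart S) : Algebra.Smooth R S := by
  obtain ⟨-, -, t, ht⟩ := hS
  algebraize [((Polynomial.aeval t : R[X] →ₐ[R] S) : R[X] →+* S)]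
  have htow : IsScalarTower R R[X] S := by
    apply IsScalarTower.of_algebraMap_eq
    intro r
    exact ((Polynomial.aeval t : R[X] →ₐ[R] S).commutes r).symm
  have h1 : Algebra.Smooth R R[X] := ⟨inferInstance, inferInstance⟩
  exact Algebra.Smooth.comp R R[X] S

end DynBad
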