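import Pool.Agent.DynBad.CuspChart
import Pool.Agent.DynBad.JacOne
import Pool.Agent.DynBad.ANormal
import Pool.Agent.DynBad.SmoothCover
import Pool.Agent.DynBad.AEtale

/-!
# Module InftySmooth: the two integral closures are smooth over `ℤ_p`

Assume `α PX + β PU = 1` with `α, β ∈ A`.

`A_smooth`: if `PX = 0`, then `PU` is a unit of `A` and `A = adjoin {x,u,PU⁻¹}` is étale over
`ℤ_p[x]` (`etaleU`, `smooth_of_chart`).  Else `smooth_of_cover` with `f₁ = PU`, `f₂ = PX` and the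
charts `etaleU`, `etaleX`.

`mem_A_iff_integral`: `A` is integrally closed (`A_normal`), contains `ℤ_p[x]`, and `u` is integral
over `ℤ_p[x]`.

`infty_smooth`: `y = x⁻¹`, `B₁` = elements integral over `ℤ_p[y]`.
 * `B' = D.B ⊆ B₁`: each `v_j = U_j y` lies in every valuation ring `V ⊇ ℤ_p[y]`: if `x ∉ V` by
   `cusp` (`|U_j| ≤ |x|`); if `x ∈ V`, `A ≤ V` (`mem_of_x`), `U_j ∈ A`.  Use
   `isIntegral_of_forall_val_subalgebra`.
 * Let `S₂ = adjoin (B' ∪ {J⁻¹})` (`cusp_chart`), an étale chart, so integrally closed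
   (`chart_normal`) and smooth (`smooth_of_chart`).  `ℤ_p[y] ⊆ S₂`, so `B₁ ⊆ S₂`.  Hence
   `S₂ = {z : ∃ n, z J^n ∈ B₁}`.
 * `S₁ = {z : ∃ n, z y^n ∈ B₁} = {z : ∃ n, z y^n ∈ A} = A[1/x]`: both are the integral closure of
   `ℤ_p[x, x⁻¹]` in `K`: if `z y^n` is integral over `ℤ_p[y]` then `z` is integral over
   `ℤ_p[x,x⁻¹] ⊆ A[1/x]`, which is integrally closed (localization of `A`).  Conversely if
   `z x^n ∈ A` then `z` is integral over `ℤ_p[x,x⁻¹]`, and multiplying by a large power of `y`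
   clears denominators in the integral equation.  `S₁` is smooth (`smooth_of_away` from
   `A_smooth`, `f₁ = x`).
 * `J^2 = 1 + y c`, so `(y, J) = (1)` in `B₁`: `smooth_of_cover` with `f₁ = y`, `f₂ = J`.
-/

namespace DynBad

open Polynomial

namespace InftyAux

section
variable {R K : Type*} [CommRing R] [Field K] [Algebra R K]

/-- adjoining an inverse -/
theorem mem_adjoin_inv (s : Set K) (S : Subalgebra R K) (hS : S = Algebra.adjoin R s) {f : K}
    (hf : f ∈ S) (hf0 : f ≠ 0) (s' : Set K) (hs' : s' = s ∪ {f⁻¹}) (z : K) :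
    z ∈ Algebra.adjoin R s' ↔ ∃ n : ℕ, z * f ^ n ∈ S := by
  subst hS hs'
  constructor
  · intro hz
    induction hz using Algebra.adjoin_induction with
    | mem y hy =>
      rcases hy with hy | hy
      · exact ⟨0, by rw [pow_zero, mul_one]; exact Algebra.subset_adjoin hy⟩
      · refine ⟨1, ?_⟩
        rw [Set.mem_singleton_iff] at hy
        rw [hy, pow_one, inv_mul_cancel₀ hf0]
        exact Subalgebra.one_mem _
    | algebraMap a => exact ⟨0, by rw [pow_zero, mul_one]; exact Subalgebra.algebraMap_mem _ _⟩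
    | add y z _ _ h1 h2 =>
      obtain ⟨n, hn⟩ := h1
      obtain ⟨m, hm⟩ := h2
      refine ⟨n + m, ?_⟩
      have e : (y + z) * f ^ (n + m) = (y * f ^ n) * f ^ m + (z * f ^ m) * f ^ n := by ring
      rw [e]
      exact Subalgebra.add_mem _ (Subalgebra.mul_mem _ hn (Subalgebra.pow_mem _ hf _))
        (Subalgebra.mul_mem _ hm (Subalgebra.pow_mem _ hf _))
    | mul y z _ _ h1 h2 =>
      obtain ⟨n, hn⟩ := h1
      obtain ⟨m, hm⟩ := h2
      refine ⟨n + m, ?_⟩
      have e : (y * z) * f ^ (n + m) = (y * f ^ n) * (z * f ^ m) := by ring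
      rw [e]
      exact Subalgebra.mul_mem _ hn hm
  · rintro ⟨n, hn⟩
    have e : z = (z * f ^ n) * (f⁻¹) ^ n := by
      rw [mul_assoc, ← mul_pow, mul_inv_cancel₀ hf0, one_pow, mul_one]
    rw [e]
    refine Subalgebra.mul_mem _ ?_ (Subalgebra.pow_mem _ (Algebra.subset_adjoin (by simp)) _)
    exact Algebra.adjoin_mono Set.subset_union_left hn

/-- a localization of a normal ring is normal -/
theorem normal_of_away (S S' : Subalgebra R K) {f : K} (hf : f ∈ S) (hf0 : f ≠ 0)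
    (h : ∀ z : K, z ∈ S' ↔ ∃ n : ℕ, z * f ^ n ∈ S) (hS : ∀ z : K, IsIntegral S z → z ∈ S)
    (z : K) (hz : IsIntegral S' z) : z ∈ S' := by
  have hle : ∀ a ∈ S, a ∈ S' := fun a ha => (h a).2 ⟨0, by rwa [pow_zero, mul_one]⟩
  let i : S →+* S' :=
    { toFun := fun a => ⟨a, hle a a.2⟩
      map_one' := rfl
      map_mul' := fun _ _ => rfl
      map_zero' := rfl
      map_add' := fun _ _ => rfl }
  let : Algebra S S' := i.toAlgebra
  have : IsScalarTower S S' K := IsScalarTower.of_algebraMap_eq fun _ => rfl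
  have hinv : f⁻¹ ∈ S' := (h _).2 ⟨1, by rw [pow_one, inv_mul_cancel₀ hf0]; exact S.one_mem⟩
  have hloc : IsLocalization (Submonoid.powers (⟨f, hf⟩ : S)) S' :=
    { map_units := fun ⟨b, hb⟩ => by
        obtain ⟨n, rfl⟩ := hb
        refine IsUnit.of_mul_eq_one ⟨(f⁻¹) ^ n, S'.pow_mem hinv n⟩ ?_
        apply Subtype.ext
        change (f ^ n) * (f⁻¹) ^ n = 1
        rw [← mul_pow, mul_inv_cancel₀ hf0, one_pow]
      surj := fun z => by
        obtain ⟨n, hn⟩ := (h _).1 z.2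
        exact ⟨(⟨_, hn⟩, ⟨⟨f, hf⟩ ^ n, ⟨n, rfl⟩⟩), Subtype.ext rfl⟩
      exists_of_eq := fun {a b} hab => ⟨1, by
        have : (a : K) = b := congrArg (fun w : S' => (w : K)) hab
        rw [Subtype.ext this]⟩ }
  obtain ⟨⟨m, n, hm'⟩, hm⟩ := IsIntegral.exists_multiple_integral_of_isLocalization
    (Submonoid.powers (⟨f, hf⟩ : S)) z hz
  have h1 := hS _ hm
  refine (h z).2 ⟨n, ?_⟩
  have e : (⟨m, ⟨n, hm'⟩⟩ : Submonoid.powers (⟨f, hf⟩ : S)) • z = z * f ^ n := by
    rw [Submonoid.smul_def, Algebra.smul_def, mul_comm]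
    have : (m : S) = ⟨f, hf⟩ ^ n := hm'.symm
    change z * ((m : S) : K) = _
    rw [this]
    rfl
  rw [e] at h1
  exact h1

end

end InftyAux

open InftyAux

variable {p : ℕ} [Fact p.Prime] {K : Type} [Field K] [CharZero K] [Algebra ℤ_[p] K] {N : ℕ}

theorem DynField.A_smooth (D : DynField p N K) (hN : 1 ≤ N)
    (h : ∃ α ∈ D.A, ∃ β ∈ D.A, α * D.PX + β * D.PU = 1) : Algebra.Smooth ℤ_[p] D.A := by
  obtain ⟨α, hα, β, hβ, hab⟩ := h
  obtain ⟨-, -, hPU0, -, -⟩ := D.generic hN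
  have hU : ∀ z : K, z ∈ Algebra.adjoin ℤ_[p] {D.x, D.u, D.PU⁻¹} ↔
      ∃ n : ℕ, z * D.PU ^ n ∈ D.A :=
    mem_adjoin_inv {D.x, D.u} D.A rfl D.PU_mem hPU0 _ (by
      ext z
      simp only [Set.mem_insert_iff, Set.mem_singleton_iff, Set.mem_union]
      tauto)
  by_cases hPX0 : D.PX = 0
  · rw [hPX0, mul_zero, zero_add] at hab
    have hinv : D.PU⁻¹ ∈ D.A := by
      have : D.PU⁻¹ = β := by
        rw [inv_eq_iff_eq_inv]
        exact eq_inv_of_mul_eq_one_right hab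
      rw [this]
      exact hβ
    have e : Algebra.adjoin ℤ_[p] {D.x, D.u, D.PU⁻¹} = D.A := by
      ext z
      rw [hU]
      constructor
      · rintro ⟨n, hn⟩
        have e : z = (z * D.PU ^ n) * (D.PU⁻¹) ^ n := by
          rw [mul_assoc, ← mul_pow, mul_inv_cancel₀ hPU0, one_pow, mul_one]
        rw [e]
        exact D.A.mul_mem hn (D.A.pow_mem hinv _)
      · intro hz
        exact ⟨0, by rwa [pow_zero, mul_one]⟩
    have h1 := smooth_of_chart _ (D.etaleU hN)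
    rw [e] at h1
    exact h1
  · have hX : ∀ z : K, z ∈ Algebra.adjoin ℤ_[p] {D.x, D.u, D.PX⁻¹} ↔
        ∃ n : ℕ, z * D.PX ^ n ∈ D.A :=
      mem_adjoin_inv {D.x, D.u} D.A rfl D.PX_mem hPX0 _ (by
        ext z
        simp only [Set.mem_insert_iff, Set.mem_singleton_iff, Set.mem_union]
        tauto)
    exact smooth_of_cover D.A _ _ D.PU D.PX D.PU_mem D.PX_mem hPU0 hPX0
      ⟨β, hβ, α, hα, by rw [add_comm]; exact hab⟩ hU hX
      (smooth_of_chart _ (D.etaleU hN)) (smooth_of_chart _ (D.etaleX hN hPX0))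

theorem DynField.mem_A_iff_integral (D : DynField p N K) (hN : 1 ≤ N) (z : K) :
    z ∈ D.A ↔ IsIntegral (Algebra.adjoin ℤ_[p] {D.x} : Subalgebra ℤ_[p] K) z := by
  constructor
  · intro hz
    have hx : D.x ∈ Algebra.adjoin ℤ_[p] ({D.x} : Set K) :=
      Algebra.subset_adjoin (Set.mem_singleton _)
    have hu : IsIntegral (Algebra.adjoin ℤ_[p] {D.x} : Subalgebra ℤ_[p] K) D.u := by
      refine ⟨(Phi N).map (eval₂RingHom (Int.castRingHom _) ⟨D.x, hx⟩),
        (Phi_monic hN).map _, ?_⟩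
      rw [eval₂_map]
      have h1 : (algebraMap (Algebra.adjoin ℤ_[p] {D.x} : Subalgebra ℤ_[p] K) K).comp
          (eval₂RingHom (Int.castRingHom _) ⟨D.x, hx⟩) =
          eval₂RingHom (algebraMap ℤ K) D.x := by
        apply Polynomial.ringHom_ext'
        · exact RingHom.ext_int _ _
        · simp
      rw [h1]
      exact D.root
    have hz' : z ∈ Algebra.adjoin ℤ_[p] ({D.x, D.u} : Set K) := hz
    induction hz' using Algebra.adjoin_induction with
    | mem y hy =>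
      rcases hy with rfl | rfl
      · exact isIntegral_algebraMap (R := (Algebra.adjoin ℤ_[p] {D.x} : Subalgebra ℤ_[p] K))
          (x := ⟨D.x, hx⟩)
      · exact hu
    | algebraMap a =>
      exact isIntegral_algebraMap (R := (Algebra.adjoin ℤ_[p] {D.x} : Subalgebra ℤ_[p] K))
        (x := algebraMap ℤ_[p] _ a)
    | add y z _ _ h1 h2 => exact (h1 (by assumption)).add (h2 (by assumption))
    | mul y z _ _ h1 h2 => exact (h1 (by assumption)).mul (h2 (by assumption))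
  · intro hz
    refine D.A_normal hN z ?_
    have hle : Algebra.adjoin ℤ_[p] ({D.x} : Set K) ≤ D.A :=
      Algebra.adjoin_le (by
        intro y hy
        rw [Set.mem_singleton_iff] at hy
        rw [hy]
        exact D.x_mem)
    obtain ⟨P, hP, hP0⟩ := hz
    refine ⟨P.map (Subalgebra.inclusion hle : _ →+* _), hP.map _, ?_⟩
    rw [eval₂_map]
    exact hP0

theorem DynField.infty_smooth (D : DynField p N K) (hN : 1 ≤ N)
    (h : ∃ α ∈ D.A, ∃ β ∈ D.A, α * D.PX + β * D.PU = 1) (B₁ : Subalgebra ℤ_[p] K)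
    (hB₁ : ∀ z : K, z ∈ B₁ ↔ IsIntegral (Algebra.adjoin ℤ_[p] {D.x⁻¹} : Subalgebra ℤ_[p] K) z) :
    Algebra.Smooth ℤ_[p] B₁ := by
  obtain ⟨hF0, -, -, -, -⟩ := D.generic hN
  have hx0 : D.x ≠ 0 := by
    intro h0
    have h1 := D.transc
    rw [h0] at h1
    exact h1 isAlgebraic_zero
  set y : K := D.x⁻¹ with hy
  have hy0 : y ≠ 0 := inv_ne_zero hx0
  have hyx : y * D.x = 1 := inv_mul_cancel₀ hx0
  have hxy : D.x * y = 1 := mul_inv_cancel₀ hx0
  have hyad : y ∈ Algebra.adjoin ℤ_[p] ({y} : Set K) :=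
    Algebra.subset_adjoin (Set.mem_singleton _)
  have hyB : y ∈ B₁ := (hB₁ y).2 (isIntegral_algebraMap
    (R := (Algebra.adjoin ℤ_[p] {y} : Subalgebra ℤ_[p] K)) (x := ⟨y, hyad⟩))
  have hUU : ∀ j, UU D.x D.u j ∈ D.A := fun j => D.A.sub_mem (D.F_mem _) (D.F_mem _)
  have hvB : ∀ j, UU D.x D.u j * y ∈ B₁ := by
    intro j
    rw [hB₁]
    refine isIntegral_of_forall_val_subalgebra _ _ fun V hV => ?_
    have hyV : y ∈ V := hV _ hyad
    by_cases hxV : D.x ∈ V
    · exact V.mul_mem _ _ (D.mem_of_x hN V hV.over hxV _ (hUU j)) hyV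
    · rw [← V.valuation_le_one_iff, map_mul]
      have h1 := (cusp V hN hF0 hxV j).1
      calc V.valuation (UU D.x D.u j) * V.valuation y ≤ V.valuation D.x * V.valuation y :=
            mul_le_mul_left h1 _
        _ = 1 := by rw [← map_mul, hxy, map_one]
  have hBle : D.B ≤ B₁ := by
    refine Algebra.adjoin_le ?_
    rintro z (hz | ⟨j, _, hz⟩)
    · rw [Set.mem_singleton_iff] at hz
      rw [hz]
      exact hyB
    · rw [hz]
      exact hvB j
  obtain ⟨J, hJ0, hJB, ⟨c, hcB, hJc⟩, hchart⟩ := D.cusp_chart hN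
  -- the chart at infinity
  have hDBy : Algebra.adjoin ℤ_[p] ({y} : Set K) ≤ D.B :=
    Algebra.adjoin_mono Set.subset_union_left
  have hS2 : ∀ z : K, z ∈ Algebra.adjoin ℤ_[p] ((D.B : Set K) ∪ {J⁻¹}) ↔
      ∃ n : ℕ, z * J ^ n ∈ D.B :=
    mem_adjoin_inv (D.B : Set K) D.B (Algebra.adjoin_eq D.B).symm hJB hJ0 _ rfl
  have h2 : ∀ z : K, z ∈ Algebra.adjoin ℤ_[p] ((D.B : Set K) ∪ {J⁻¹}) ↔
      ∃ n : ℕ, z * J ^ n ∈ B₁ := by
    intro z
    constructor
    · intro hz
      obtain ⟨n, hn⟩ := (hS2 z).1 hz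
      exact ⟨n, hBle hn⟩
    · rintro ⟨n, hn⟩
      have h3 : z * J ^ n ∈ Algebra.adjoin ℤ_[p] ((D.B : Set K) ∪ {J⁻¹}) := by
        refine chart_normal _ hchart _ ?_
        obtain ⟨P, hP, hP0⟩ := (hB₁ _).1 hn
        have hle : Algebra.adjoin ℤ_[p] ({y} : Set K) ≤
            Algebra.adjoin ℤ_[p] ((D.B : Set K) ∪ {J⁻¹}) := by
          refine hDBy.trans ?_
          intro w hw
          exact Algebra.subset_adjoin (Or.inl hw)
        refine ⟨P.map (Subalgebra.inclusion hle : _ →+* _), hP.map _, ?_⟩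
        rw [eval₂_map]
        exact hP0
      obtain ⟨m, hm⟩ := (hS2 _).1 h3
      refine (hS2 z).2 ⟨n + m, ?_⟩
      rw [pow_add, ← mul_assoc]
      exact hm
  -- the finite part
  have hS1 : ∀ z : K, z ∈ Algebra.adjoin ℤ_[p] ((D.A : Set K) ∪ {y}) ↔
      ∃ n : ℕ, z * D.x ^ n ∈ D.A :=
    mem_adjoin_inv (D.A : Set K) D.A (Algebra.adjoin_eq D.A).symm D.x_mem hx0 _ rfl
  have hAB : ∀ a ∈ D.A, ∃ m : ℕ, a * y ^ m ∈ B₁ := by
    intro a ha
    have ha' : a ∈ Algebra.adjoin ℤ_[p] ({D.x, D.u} : Set K) := ha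
    clear ha
    induction ha' using Algebra.adjoin_induction with
    | mem w hw =>
      rcases hw with rfl | rfl
      · exact ⟨1, by rw [pow_one, hxy]; exact B₁.one_mem⟩
      · exact ⟨1, by
          rw [pow_one]
          have := hvB 0
          rwa [UU_zero] at this⟩
    | algebraMap a => exact ⟨0, by rw [pow_zero, mul_one]; exact B₁.algebraMap_mem a⟩
    | add w z _ _ h1 h2 =>
      obtain ⟨n, hn⟩ := h1
      obtain ⟨m, hm⟩ := h2
      refine ⟨n + m, ?_⟩
      have e : (w + z) * y ^ (n + m) = (w * y ^ n) * y ^ m + (z * y ^ m) * y ^ n := by ring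
      rw [e]
      exact B₁.add_mem (B₁.mul_mem hn (B₁.pow_mem hyB _)) (B₁.mul_mem hm (B₁.pow_mem hyB _))
    | mul w z _ _ h1 h2 =>
      obtain ⟨n, hn⟩ := h1
      obtain ⟨m, hm⟩ := h2
      refine ⟨n + m, ?_⟩
      have e : (w * z) * y ^ (n + m) = (w * y ^ n) * (z * y ^ m) := by ring
      rw [e]
      exact B₁.mul_mem hn hm
  have h1 : ∀ z : K, z ∈ Algebra.adjoin ℤ_[p] ((D.A : Set K) ∪ {y}) ↔
      ∃ n : ℕ, z * y ^ n ∈ B₁ := by
    intro z
    constructor
    · intro hz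
      obtain ⟨n, hn⟩ := (hS1 z).1 hz
      obtain ⟨m, hm⟩ := hAB _ hn
      refine ⟨m, ?_⟩
      have e : z * y ^ m = (z * D.x ^ n * y ^ m) * y ^ n := by
        have : D.x ^ n * y ^ n = 1 := by rw [← mul_pow, hxy, one_pow]
        calc z * y ^ m = z * y ^ m * (D.x ^ n * y ^ n) := by rw [this, mul_one]
          _ = _ := by ring
      rw [e]
      exact B₁.mul_mem hm (B₁.pow_mem hyB _)
    · rintro ⟨n, hn⟩
      have h3 : z * y ^ n ∈ Algebra.adjoin ℤ_[p] ((D.A : Set K) ∪ {y}) := by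
        refine normal_of_away D.A _ D.x_mem hx0 hS1 (fun w hw => D.A_normal hN w hw) _ ?_
        obtain ⟨P, hP, hP0⟩ := (hB₁ _).1 hn
        have hle : Algebra.adjoin ℤ_[p] ({y} : Set K) ≤
            Algebra.adjoin ℤ_[p] ((D.A : Set K) ∪ {y}) :=
          Algebra.adjoin_mono Set.subset_union_right
        refine ⟨P.map (Subalgebra.inclusion hle : _ →+* _), hP.map _, ?_⟩
        rw [eval₂_map]
        exact hP0
      have hxS : D.x ∈ Algebra.adjoin ℤ_[p] ((D.A : Set K) ∪ {y}) :=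
        Algebra.subset_adjoin (Or.inl D.x_mem)
      have e : z = (z * y ^ n) * D.x ^ n := by
        rw [mul_assoc, ← mul_pow, hyx, one_pow, mul_one]
      rw [e]
      exact Subalgebra.mul_mem _ h3 (Subalgebra.pow_mem _ hxS _)
  have hs1 : Algebra.Smooth ℤ_[p] (Algebra.adjoin ℤ_[p] ((D.A : Set K) ∪ {y})) :=
    smooth_of_away D.A _ D.x D.x_mem hx0 hS1 (D.A_smooth hN h)
  have hs2 := smooth_of_chart _ hchart
  exact smooth_of_cover B₁ _ _ y J hyB (hBle hJB) hy0 hJ0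
    ⟨-c, B₁.neg_mem (hBle hcB), J, hBle hJB, by
      have : J * J = 1 + y * c := by rw [← sq]; exact hJc
      rw [this]
      ring⟩ h1 h2 hs1 hs2

end DynBad
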