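import Mathlib

/-!
# Module IrrConn: connectivity of the set of `generators` of a torsion module

`E` an abelian group with an endomorphism `M` (over `𝔽_2`), `P ∈ 𝔽_2[T]` acts by `aeval M P`.
`Q ≠ 0`; `S` a set of polynomials.  `RN = {w : Q w = 0, and q w ≠ 0 for all q ∈ S}`.
(`hgen`) for every irreducible `m ∣ Q` with exact multiplicity `s` (`m^s ∣ Q`, `¬ m^(s+1) ∣ Q`)
there is `w_m` with `m^s w_m = 0`, `m^(s-1) w_m ≠ 0`.
(`hZ`) `Z ⊆ RN` and `w ∈ Z, w' ∈ RN, m^s (w' - w) = 0` for some irreducible `m ∣ Q` and some `s`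
imply `w' ∈ Z`.
Then `Z = ∅` or `Z = RN`.

Proof.  Let `m_1, ..., m_r` be the distinct irreducible factors of `Q`, `s_i` the multiplicities,
`w_i` the elements of (hgen), `w* = ∑ w_i`.  Idempotent polynomials `e_i ≡ 1 mod m_i^{s_i}`,
`e_i ≡ 0 mod Q / m_i^{s_i}`.  Step: for `w ∈ RN` and `i`, `w' := w - e_i w + w_i` is again in `RN`
and `m_i^{s_i} (w' - w) = 0`.  Indeed `Q w' = 0`; if `q w' = 0` for some `q ∈ S`, then applying
`e_j`, `j ≠ i`: `q e_j w = 0`; applying `e_i` (`e_i (1 - e_i)` is divisible by `Q`,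
`e_i w_i = w_i`): `q w_i = 0`, and as `m_i^{s_i - 1} w_i ≠ 0`, `m_i^{s_i} ∣ q` (Bezout), so
`q e_i w = 0` too; summing, `q w = 0`, contradiction.  After doing this for all `i` one arrives
at `w*` (same for every starting `w ∈ RN`): `w* = ∑ w_i`.  So if `Z` contains one `w ∈ RN` it
contains `w*`, and reversing the chain from any other `w'' ∈ RN` (the relation in (hZ) is used
symmetrically: all intermediate elements are in `RN`) `w'' ∈ Z`.
-/

namespace DynBad

open Polynomial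

section IrrConnModule

variable {R E : Type*} [CommRing R] [IsDomain R] [IsPrincipalIdealRing R] [AddCommGroup E]
  [Module R E]

/-- an element of order exactly `Q` -/
theorem irrConn_exists (Q : R) (hQ : Q ≠ 0)
    (hgen : ∀ m : R, Irreducible m → ∀ s : ℕ, 1 ≤ s → m ^ s ∣ Q → ¬ m ^ (s + 1) ∣ Q →
      ∃ w : E, m ^ s • w = 0 ∧ m ^ (s - 1) • w ≠ 0) (D : R) :
    ∀ C, D * C = Q → IsCoprime D C → ∃ w : E, D • w = 0 ∧ ∀ q : R, q • w = 0 → D ∣ q := by
  induction D using UniqueFactorizationMonoid.induction_on_coprime with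
  | h0 =>
    intro C hC
    rw [zero_mul] at hC
    exact absurd hC.symm hQ
  | h1 hx =>
    intro C _ _
    exact ⟨0, by simp, fun q _ => hx.dvd⟩
  | hpr i hp =>
    rename_i p
    intro C hC hcop
    rcases Nat.eq_zero_or_pos i with rfl | hi
    · exact ⟨0, by simp, fun q _ => by simp⟩
    · have hndvd : ¬ p ^ (i + 1) ∣ Q := by
        rintro ⟨c, hc⟩
        have h1 : p ^ i * C = p ^ i * (p * c) := by rw [hC, hc]; ring
        have h2 : C = p * c := mul_left_cancel₀ (pow_ne_zero i hp.ne_zero) h1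
        have h3 : IsCoprime p C := (IsCoprime.pow_left_iff hi).1 hcop
        rw [h2] at h3
        have h4 : IsUnit p := h3.isUnit_of_dvd' dvd_rfl (Dvd.intro c rfl)
        exact hp.not_isUnit h4
      obtain ⟨w, hw1, hw2⟩ := hgen p hp.irreducible i hi ⟨C, hC.symm⟩ hndvd
      refine ⟨w, hw1, fun q hq => ?_⟩
      by_contra hnd
      -- `gcd (q, p ^ i)` divides `p ^ (i - 1)`
      apply hw2
      obtain ⟨g, hg⟩ := IsPrincipalIdealRing.principal (Ideal.span {q, p ^ i})
      have hgmem : g ∈ Ideal.span {q, p ^ i} := by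
        rw [hg]; exact Ideal.mem_span_singleton_self g
      have hgq : g ∣ q := by
        have : q ∈ Ideal.span {q, p ^ i} := Ideal.subset_span (by simp)
        rw [hg] at this
        exact Ideal.mem_span_singleton.1 this
      have hgp : g ∣ p ^ i := by
        have : p ^ i ∈ Ideal.span {q, p ^ i} := Ideal.subset_span (by simp)
        rw [hg] at this
        exact Ideal.mem_span_singleton.1 this
      obtain ⟨j, hj, hassoc⟩ := (dvd_prime_pow hp i).1 hgp
      obtain ⟨a, b, hab⟩ := Ideal.mem_span_pair.1 hgmem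
      have hgw : g • w = 0 := by
        rw [← hab, add_smul, mul_smul, mul_smul, hq, hw1, smul_zero, smul_zero, add_zero]
      have hji : j ≤ i - 1 := by
        by_contra hlt
        have : j = i := by omega
        rw [this] at hassoc
        exact hnd (hassoc.symm.dvd.trans hgq)
      have hdvd : g ∣ p ^ (i - 1) := hassoc.dvd.trans (pow_dvd_pow p hji)
      obtain ⟨c, hc⟩ := hdvd
      rw [hc, mul_comm, mul_smul, hgw, smul_zero]
  | hcp hxy hx hy =>
    rename_i x y
    intro C hC hcop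
    have hxy' : IsCoprime x y := isRelPrime_iff_isCoprime.1 hxy
    have hxC : IsCoprime x C := hcop.of_mul_left_left
    have hyC : IsCoprime y C := hcop.of_mul_left_right
    obtain ⟨w₁, h1, h1'⟩ := hx (y * C) (by rw [← hC]; ring) (hxy'.mul_right hxC)
    obtain ⟨w₂, h2, h2'⟩ := hy (x * C) (by rw [← hC]; ring) (hxy'.symm.mul_right hyC)
    refine ⟨w₁ + w₂, ?_, fun q hq => ?_⟩
    · rw [smul_add, mul_comm, mul_smul, h1, smul_zero, zero_add, mul_comm, mul_smul, h2, smul_zero]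
    · have hx1 : x ∣ q := by
        have : (y * q) • w₁ = 0 := by
          have h3 : (y * q) • (w₁ + w₂) = 0 := by rw [mul_smul, hq, smul_zero]
          rw [smul_add, mul_comm y q, mul_smul q y w₂, h2, smul_zero, add_zero, mul_comm q y] at h3
          exact h3
        exact hxy'.dvd_of_dvd_mul_left (h1' _ this)
      have hy1 : y ∣ q := by
        have : (x * q) • w₂ = 0 := by
          have h3 : (x * q) • (w₁ + w₂) = 0 := by rw [mul_smul, hq, smul_zero]
          rw [smul_add, mul_comm x q, mul_smul q x w₁, h1, smul_zero, zero_add, mul_comm q x] at h3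
          exact h3
        exact hxy'.symm.dvd_of_dvd_mul_left (h2' _ this)
      exact hxy'.mul_dvd hx1 hy1

/-- a nonempty closed set contains the element of order `Q` -/
theorem irrConn_mem (Q : R) (hQ : Q ≠ 0) (S : Set R) (ws : E) (hws : Q • ws = 0)
    (hord : ∀ q : R, q • ws = 0 → Q ∣ q) (Z : Set E)
    (hZ : ∀ w ∈ Z, Q • w = 0 ∧ ∀ q ∈ S, q • w ≠ 0)
    (hZZ : ∀ w ∈ Z, ∀ w' : E, Q • w' = 0 → (∀ q ∈ S, q • w' ≠ 0) →
      ∀ m : R, Irreducible m → m ∣ Q → ∀ s : ℕ, m ^ s • (w' - w) = 0 → w' ∈ Z) (B : R) :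
    B ∣ Q → ∀ w ∈ Z, B • (w - ws) = 0 → ws ∈ Z := by
  induction B using WfDvdMonoid.induction_on_irreducible with
  | zero =>
    intro h
    exact absurd (zero_dvd_iff.1 h) hQ
  | unit u hu =>
    intro _ w hw h
    obtain ⟨v, rfl⟩ := hu
    have : w - ws = 0 := by
      have := congrArg (fun z => ((v⁻¹ : Rˣ) : R) • z) h
      simpa [smul_smul] using this
    rw [sub_eq_zero] at this
    rw [← this]; exact hw
  | mul a i ha hi ih =>
    intro hdvd w hw h
    have hiQ : i ∣ Q := (Dvd.intro a rfl).trans hdvd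
    have haQ : a ∣ Q := (Dvd.intro_left i rfl).trans hdvd
    have hip : Prime i := hi.prime
    -- exact multiplicity
    have hfin : FiniteMultiplicity i Q := FiniteMultiplicity.of_prime_left hip hQ
    obtain ⟨C, hC, hiC⟩ := hfin.exists_eq_pow_mul_and_not_dvd
    set s := multiplicity i Q with hs
    have hs1 : 1 ≤ s := by
      by_contra hlt
      have hs0 : s = 0 := by omega
      rw [hs0, pow_zero, one_mul] at hC
      rw [← hC] at hiC
      exact hiC hiQ
    have hcop : IsCoprime (i ^ s) C := by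
      apply IsCoprime.pow_left
      exact (hi.coprime_iff_not_dvd).2 hiC
    obtain ⟨a', b', hab⟩ := hcop
    -- `e = b' * C`
    set e : R := b' * C with he
    have he1 : 1 - e = a' * i ^ s := by rw [he, ← hab]; ring
    have hee : Q ∣ e * (1 - e) := by
      rw [he1, he, hC]
      exact ⟨a' * b', by ring⟩
    have hQw : Q • w = 0 := (hZ w hw).1
    have hkill : ∀ z : R, Q ∣ z → ∀ v : E, Q • v = 0 → z • v = 0 := by
      rintro z ⟨c, rfl⟩ v hv
      rw [mul_comm, mul_smul, hv, smul_zero]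
    set w' : E := w + e • (ws - w) with hw'
    have hQw' : Q • w' = 0 := by
      rw [hw', smul_add, hQw, zero_add, smul_smul, mul_comm, mul_smul, smul_sub, hws, hQw,
        sub_zero, smul_zero]
    have hmem : w' ∈ Z := by
      apply hZZ w hw w' hQw' _ i hi hiQ s
      · have : w' - w = e • (ws - w) := by rw [hw']; abel
        rw [this, smul_smul]
        apply hkill
        · rw [he, hC]; exact ⟨b', by ring⟩
        · rw [smul_sub, hws, hQw, sub_zero]
      · intro q hq hqw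
        have h1 : e • w' = e • ws := by
          have h2 : e • w' - e • ws = (e * (1 - e)) • (w - ws) := by
            rw [hw']
            module
          have h3 : (e * (1 - e)) • (w - ws) = 0 := by
            apply hkill _ hee
            rw [smul_sub, hws, hQw, sub_zero]
          rw [h3] at h2
          exact sub_eq_zero.1 h2
        have h4 : (q * e) • ws = 0 := by
          rw [mul_smul, ← h1, smul_smul, mul_comm, mul_smul, hqw, smul_zero]
        have h5 : Q ∣ q * e := hord _ h4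
        have h6 : (q * e) • w = 0 := hkill _ h5 w hQw
        apply (hZ w hw).2 q hq
        have h7 : q • w = q • w' - (q * e) • ws + (q * e) • w := by
          rw [hw']; module
        rw [h7, hqw, h4, h6]; simp
    apply ih haQ w' hmem
    have h8 : w' - ws = (1 - e) • (w - ws) := by
      rw [hw']; module
    rw [h8, he1, smul_smul]
    obtain ⟨s', hs'⟩ : ∃ s', s = s' + 1 := ⟨s - 1, by omega⟩
    have h9 : a * (a' * i ^ s) = (a' * i ^ s') * (i * a) := by
      rw [hs', pow_succ]; ring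
    rw [h9, mul_smul, h, smul_zero]

theorem irrConn_module (Q : R) (hQ : Q ≠ 0) (S : Set R)
    (hgen : ∀ m : R, Irreducible m → ∀ s : ℕ, 1 ≤ s → m ^ s ∣ Q → ¬ m ^ (s + 1) ∣ Q →
      ∃ w : E, m ^ s • w = 0 ∧ m ^ (s - 1) • w ≠ 0)
    (Z : Set E) (hZ : Z ⊆ {w | Q • w = 0 ∧ ∀ q ∈ S, q • w ≠ 0})
    (hZZ : ∀ w ∈ Z, ∀ w' : E, Q • w' = 0 → (∀ q ∈ S, q • w' ≠ 0) →
      ∀ m : R, Irreducible m → m ∣ Q → ∀ s : ℕ, m ^ s • (w' - w) = 0 → w' ∈ Z) :
    Z = ∅ ∨ Z = {w | Q • w = 0 ∧ ∀ q ∈ S, q • w ≠ 0} := by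
  obtain ⟨ws, hws, hord⟩ := irrConn_exists Q hQ hgen Q 1 (mul_one Q) isCoprime_one_right
  rcases Set.eq_empty_or_nonempty Z with h | ⟨w₀, hw₀⟩
  · exact Or.inl h
  right
  have hsub : ∀ w : E, Q • w = 0 → Q • (w - ws) = 0 := by
    intro w hw
    rw [smul_sub, hw, hws, sub_zero]
  have hin : ws ∈ Z := irrConn_mem Q hQ S ws hws hord Z (fun w hw => hZ hw) hZZ Q dvd_rfl w₀ hw₀
    (hsub _ (hZ hw₀).1)
  apply Set.Subset.antisymm hZ
  intro w₁ hw₁
  by_contra hnot
  have hin' : ws ∈ {w | (Q • w = 0 ∧ ∀ q ∈ S, q • w ≠ 0) ∧ w ∉ Z} := by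
    apply irrConn_mem Q hQ S ws hws hord {w | (Q • w = 0 ∧ ∀ q ∈ S, q • w ≠ 0) ∧ w ∉ Z}
      (fun w hw => hw.1) _ Q dvd_rfl w₁ ⟨hw₁, hnot⟩ (hsub _ hw₁.1)
    intro w hw w' hw' hqw' m hm hmQ s hs
    refine ⟨⟨hw', hqw'⟩, fun hmem => hw.2 ?_⟩
    apply hZZ w' hmem w hw.1.1 hw.1.2 m hm hmQ s
    have : w - w' = -(w' - w) := by abel
    rw [this, smul_neg, hs, neg_zero]
  exact hin'.2 hin

end IrrConnModule

theorem irrConn {E : Type*} [AddCommGroup E] [Module (ZMod 2) E] (M : Module.End (ZMod 2) E)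
    (Q : (ZMod 2)[X]) (hQ : Q ≠ 0) (S : Set (ZMod 2)[X])
    (hgen : ∀ m : (ZMod 2)[X], Irreducible m → ∀ s : ℕ, 1 ≤ s → m ^ s ∣ Q → ¬ m ^ (s + 1) ∣ Q →
      ∃ w : E, aeval M (m ^ s) w = 0 ∧ aeval M (m ^ (s - 1)) w ≠ 0)
    (Z : Set E)
    (hZ : Z ⊆ {w | aeval M Q w = 0 ∧ ∀ q ∈ S, aeval M q w ≠ 0})
    (hZZ : ∀ w ∈ Z, ∀ w' : E, aeval M Q w' = 0 → (∀ q ∈ S, aeval M q w' ≠ 0) →
      ∀ m : (ZMod 2)[X], Irreducible m → m ∣ Q → ∀ s : ℕ, aeval M (m ^ s) (w' - w) = 0 → w' ∈ Z) :
    Z = ∅ ∨ Z = {w | aeval M Q w = 0 ∧ ∀ q ∈ S, aeval M q w ≠ 0} := by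
  let _ : Module (ZMod 2)[X] E :=
    Module.compHom E (aeval M : (ZMod 2)[X] →ₐ[ZMod 2] Module.End (ZMod 2) E).toRingHom
  exact irrConn_module (R := (ZMod 2)[X]) (E := E) Q hQ S hgen Z hZ hZZ

end DynBad
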