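import Pool.Agent.DynBad.Carlitz
import Pool.Agent.DynBad.ValExist

/-!
# Module IrrKey: roots that differ by an `m`-torsion element lie in the same factor

`κ` algebraically closed of characteristic 2, `G, H ∈ κ[X][U]` monic without common zeros over
`κ`.  `Ω` a field containing `κ`, `x ∈ Ω` transcendental over `κ`, `m ∈ 𝔽_2[T]` irreducible.
If `G(x,w) = 0 = H(x,w')` then `m^s (w' - w) ≠ 0` (action via `MM x`).

Proof.  Let `ζ ∈ κ` be a root of `m`.  Choose a valuation subring `𝔳` of `Ω` containing the image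
of `κ[x]` with `v(x - ζ) < 1` (a valuation ring dominating the localization of `κ[x]` at
`(x - ζ)`; `x - ζ` is a nonunit in `κ[x]` since `x` is transcendental).  `w, w' ∈ 𝔳` because they
are integral over `κ[x]` (`G, H` monic).  Let `ρ : 𝔳 → k'` be the residue map (`k'` is a field of
char 2 containing `κ`), `ρ(x) = ζ`.  If `m^s (w' - w) = 0`, then reducing (`MM` is compatible with
ring homomorphisms) `aeval (MM ζ) (m^s) (ρ w' - ρ w) = 0` in `k'`, and by `MM_frob` +
`irreducible_map_eq` `aeval (MM ζ) m v = v^(2^deg m)`, so `ρ w' = ρ w`.  This is a common root in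
`k'` of the polynomials `G(ζ, ·), H(ζ, ·) ∈ κ[U]`, which are coprime since they have no common root
in the algebraically closed field `κ`.  Contradiction.
-/

namespace DynBad

open Polynomial

lemma IrrKey_map {E E' : Type*} [CommRing E] [Algebra (ZMod 2) E] [CommRing E']
    [Algebra (ZMod 2) E'] (φ : E →+* E') (x z : E) (P : (ZMod 2)[X]) :
    φ (aeval (MM x) P z) = aeval (MM (φ x)) P (φ z) := by
  have hpow : ∀ (n : ℕ) (z : E), φ (((MM x) ^ n) z) = ((MM (φ x)) ^ n) (φ z) := by
    intro n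
    induction n with
    | zero => intro z; simp
    | succ n ih =>
      intro z
      rw [pow_succ, Module.End.mul_apply, ih, pow_succ, Module.End.mul_apply]
      congr 1
      simp
  induction P using Polynomial.induction_on' with
  | add p q hp hq =>
    rw [map_add, map_add, LinearMap.add_apply, LinearMap.add_apply, map_add, hp, hq]
  | monomial n a =>
    rw [aeval_monomial, aeval_monomial, Module.End.mul_apply, Module.End.mul_apply,
      Module.algebraMap_end_apply, Module.algebraMap_end_apply, ← hpow]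
    exact ZMod.map_smul φ a _

lemma IrrKey_core {Ω V k : Type*} [Field Ω] [Algebra (ZMod 2) Ω] [CommRing V]
    [Algebra (ZMod 2) V] [Field k] [Algebra (ZMod 2) k] (ι : V →+* Ω)
    (hι : Function.Injective ι) (ρ : V →+* k) (x w₁ w₂ : V) (ζ : k) (hx : ρ x = ζ)
    (m : (ZMod 2)[X]) (hm : Irreducible m) (hζ : aeval ζ m = 0) (s : ℕ)
    (hzero : aeval (MM (ι x)) (m ^ s) (ι w₂ - ι w₁) = 0) : ρ w₂ = ρ w₁ := by
  have hD : aeval (MM x) (m ^ s) (w₂ - w₁) = 0 := by
    apply hι
    rw [IrrKey_map, map_sub, hzero, map_zero]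
  have hρD : aeval (MM ζ) (m ^ s) (ρ w₂ - ρ w₁) = 0 := by
    have := IrrKey_map ρ x (w₂ - w₁) (m ^ s)
    rw [hD, map_zero, map_sub, hx] at this
    exact this.symm
  have hfrob : ∀ v, aeval (MM ζ) m v = v ^ (2 ^ m.natDegree) := fun v =>
    MM_frob ζ m.natDegree m (irreducible_map_eq m hm _ hζ) v
  have hker : ∀ (s : ℕ) (v : k), aeval (MM ζ) (m ^ s) v = 0 → v = 0 := by
    intro s
    induction s with
    | zero => intro v hv; simpa using hv
    | succ s ih =>
      intro v hv
      rw [pow_succ, map_mul, Module.End.mul_apply, hfrob] at hv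
      exact pow_eq_zero_iff (by positivity) |>.1 (ih _ hv)
  exact sub_eq_zero.1 (hker s _ hρD)

lemma IrrKey_root {κ k : Type*} [CommRing κ] [Algebra (ZMod 2) κ] [CommRing k]
    [Algebra (ZMod 2) k] (ψ : κ →+* k) (ζ : κ) (m : (ZMod 2)[X]) (h : aeval ζ m = 0) :
    aeval (ψ ζ) m = 0 := by
  have h1 := congrArg ψ h
  rw [map_zero] at h1
  rw [← h1, aeval_def, aeval_def, hom_eval₂]
  congr 1
  exact Subsingleton.elim _ _

theorem irrKey {κ : Type*} [Field κ] [IsAlgClosed κ] [Algebra (ZMod 2) κ]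
    {Ω : Type*} [Field Ω] [Algebra κ Ω] [Algebra (ZMod 2) Ω] [IsScalarTower (ZMod 2) κ Ω]
    (x : Ω) (hx : Transcendental κ x) (G H : κ[X][X]) (hG : G.Monic) (hH : H.Monic)
    (hno : ∀ a b : κ, ¬ (ev a b G = 0 ∧ ev a b H = 0))
    (m : (ZMod 2)[X]) (hm : Irreducible m) (s : ℕ) (w w' : Ω) (hw : ev x w G = 0)
    (hw' : ev x w' H = 0) : aeval (MM x) (m ^ s) (w' - w) ≠ 0 := by
  intro hzero
  -- a root of `m`
  obtain ⟨ζ, hζ⟩ := IsAlgClosed.exists_aeval_eq_zero κ m (ne_of_gt hm.degree_pos)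
  have h2 : (2 : Ω) = 0 := by
    have h := map_ofNat (algebraMap (ZMod 2) Ω) 2
    rw [← h, show (OfNat.ofNat 2 : ZMod 2) = 0 from rfl, map_zero]
  -- the valuation ring
  let a₀ : κ[X] →+* Ω := ((aeval x : κ[X] →ₐ[κ] Ω) : κ[X] →+* Ω)
  have hinj : Function.Injective a₀ := transcendental_iff_injective.1 hx
  let B : Subring Ω := a₀.range
  let r : κ[X] →+* B := a₀.rangeRestrict
  have hr_surj : Function.Surjective r := a₀.rangeRestrict_surjective
  have hr_inj : Function.Injective r := fun p q h => hinj (congrArg Subtype.val h)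
  have : (Ideal.span {(X - C ζ : κ[X])}).IsPrime :=
    (Ideal.span_singleton_prime (X_sub_C_ne_zero ζ)).2 (prime_X_sub_C ζ)
  have hP : (Ideal.map r (Ideal.span {(X - C ζ : κ[X])})).IsPrime := by
    apply Ideal.map_isPrime_of_surjective hr_surj
    rw [(RingHom.injective_iff_ker_eq_bot r).1 hr_inj]
    exact bot_le
  obtain ⟨V, hBV, hV⟩ := exists_val B (Ideal.map r (Ideal.span {(X - C ζ : κ[X])}))
  have hxB : x ∈ B := ⟨X, by simp [a₀]⟩
  have hκB : ∀ c : κ, algebraMap κ Ω c ∈ B := fun c => ⟨C c, by simp [a₀]⟩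
  -- the ring homomorphisms
  let j : κ →+* V := (algebraMap κ Ω).codRestrict V (fun c => hBV _ (hκB c))
  let x' : V := ⟨x, hBV _ hxB⟩
  let φ : κ[X] →+* V := eval₂RingHom j x'
  have hφ : (V.subtype).comp φ = eval₂RingHom (algebraMap κ Ω) x := by
    apply Polynomial.ringHom_ext'
    · ext c; simp [φ, j]
    · simp [φ, x']
  -- integrality
  have hint : ∀ (T : κ[X][X]), T.Monic → ∀ z : Ω, ev x z T = 0 → z ∈ V := by
    intro T hT z hz
    apply mem_of_isIntegral V hBV
    refine ⟨T.map r, hT.map r, ?_⟩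
    rw [eval₂_map]
    have : (algebraMap B Ω).comp r = eval₂RingHom (algebraMap κ Ω) x := by
      apply Polynomial.ringHom_ext'
      · ext c
        change a₀ (C c) = _
        simp [a₀]
      · change a₀ X = _
        simp [a₀]
    rw [this]
    exact hz
  let w₁ : V := ⟨w, hint G hG w hw⟩
  let w₂ : V := ⟨w', hint H hH w' hw'⟩
  have hG' : eval₂ φ w₁ G = 0 := by
    apply Subtype.ext
    have : (V.subtype) (eval₂ φ w₁ G) = 0 := by
      rw [hom_eval₂, hφ]
      exact hw
    exact this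
  have hH' : eval₂ φ w₂ H = 0 := by
    apply Subtype.ext
    have : (V.subtype) (eval₂ φ w₂ H) = 0 := by
      rw [hom_eval₂, hφ]
      exact hw'
    exact this
  -- algebra structures
  have h2V : (2 : V) = 0 := by
    apply Subtype.ext
    exact h2
  have hc1 : CharP V 2 := CharTwo.of_one_ne_zero_of_two_eq_zero one_ne_zero h2V
  let ρ : V →+* IsLocalRing.ResidueField V := IsLocalRing.residue V
  have h2k : (2 : IsLocalRing.ResidueField V) = 0 := by
    have := congrArg ρ h2V
    rwa [map_ofNat, map_zero] at this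
  have hc2 : CharP (IsLocalRing.ResidueField V) 2 :=
    CharTwo.of_one_ne_zero_of_two_eq_zero one_ne_zero h2k
  have hρx : ρ x' = ρ (j ζ) := by
    have h1 : V.valuation (((x' - j ζ : V)) : Ω) < 1 := by
      have h3 := (hV (r (X - C ζ))).2
        (Ideal.mem_map_of_mem r (Ideal.mem_span_singleton_self _))
      have h4 : ((r (X - C ζ) : B) : Ω) = ((x' - j ζ : V) : Ω) := by
        change a₀ (X - C ζ) = x - algebraMap κ Ω ζ
        simp [a₀]
      rw [← h4]; exact h3
    rw [← ValuationSubring.valuation_lt_one_iff] at h1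
    rw [← sub_eq_zero, ← map_sub]
    exact (IsLocalRing.residue_eq_zero_iff _).2 h1
  have hζ' : (@aeval (ZMod 2) (IsLocalRing.ResidueField V) _ _ (ZMod.algebra _ 2)
      (ρ (j ζ))) m = 0 :=
    @IrrKey_root κ (IsLocalRing.ResidueField V) _ _ _ (ZMod.algebra _ 2) (ρ.comp j) ζ m hζ
  have hω : ρ w₂ = ρ w₁ :=
    @IrrKey_core Ω V (IsLocalRing.ResidueField V) _ _ _ (ZMod.algebra _ 2) _ (ZMod.algebra _ 2)
      V.subtype Subtype.val_injective ρ x' w₁ w₂ (ρ (j ζ)) hρx m hm hζ' s hzero
  -- reduction of `G` and `H`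
  have hφρ : ρ.comp φ = (ρ.comp j).comp (evalRingHom ζ) := by
    apply Polynomial.ringHom_ext'
    · ext c; simp [φ]
    · simp [φ, hρx]
  have hGr : eval₂ (ρ.comp j) (ρ w₁) (G.map (evalRingHom ζ)) = 0 := by
    have h1 := congrArg ρ hG'
    rw [hom_eval₂, map_zero, hφρ] at h1
    rw [eval₂_map]; exact h1
  have hHr : eval₂ (ρ.comp j) (ρ w₁) (H.map (evalRingHom ζ)) = 0 := by
    have h1 := congrArg ρ hH'
    rw [hom_eval₂, map_zero, hφρ, hω] at h1
    rw [eval₂_map]; exact h1
  have hcop : IsCoprime (G.map (evalRingHom ζ)) (H.map (evalRingHom ζ)) := by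
    rw [isCoprime_iff_aeval_ne_zero_of_isAlgClosed κ κ]
    intro b
    by_contra hcon
    push Not at hcon
    have hev : ∀ T : κ[X][X], aeval b (T.map (evalRingHom ζ)) = ev ζ b T := by
      intro T
      rw [aeval_def, eval₂_map]
      unfold ev
      simp only [coe_eval₂RingHom]
      congr 1
    rw [hev, hev] at hcon
    exact hno ζ b hcon
  obtain ⟨a, b, hab⟩ := hcop
  have := congrArg (eval₂ (ρ.comp j) (ρ w₁)) hab
  rw [eval₂_add, eval₂_mul, eval₂_mul, hGr, hHr, mul_zero, mul_zero, add_zero, eval₂_one] at this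
  exact zero_ne_one this

end DynBad
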