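import Pool.Agent.DynBad.IrrModTwo
import Pool.Agent.DynBad.JacInt

/-!
# Module IrrLift: reduction of a factorization of `Φ_N` from characteristic 0 to 2

`Ω` algebraically closed of characteristic 0, `G H = Φ_N` over `Ω`, `G, H ∈ Ω[X][U]` monic.

(1) `G, H` have no common zero `(a,b) ∈ Ω × Ω`: at a common zero `Φ_N`, `derivative Φ_N`, `dX Φ_N`
vanish (product rule; `dX` = partial derivative in the inner variable), contradicting `exists_M`
(`M ≠ 0` in `Ω`).
(2) Let `V` be a valuation subring of `Ω` with `v(2) < 1` (a valuation ring dominating the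
localization of `ℤ` at `2`; `2 ≠ 0`).  The coefficients of `G` and `H` lie in `V[X]`:
`V` is integrally closed, so `V[X]` is integrally closed in `Ω[X]` and in `Ω(X)`; the roots of `G`
in an algebraic closure of `Ω(X)` are roots of `Φ_N ∈ ℤ[X][U]` monic, hence integral over `V[X]`,
and the coefficients of the monic `G` are polynomials in the roots, so integral over `V[X]`.
(Mathlib: `Polynomial.Monic` divisors & integrally closed: search `integralClosure`, `minpoly`,
`Polynomial.isIntegral_coeff_of_dvd`, `IsIntegrallyClosed`.)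
So `G, H` are images of monic `G₀, H₀ ∈ V[X][U]` (`Polynomial.lifts`), `G₀ H₀ = Φ_N` over `V`.
(3) The resultant `r = resultant G H ∈ Ω[X]` has no root `a ∈ Ω`
(`resultant_map_map` with evaluation at `a`: for monic polynomials over a field the resultant is
the product of the differences of the roots, `resultant_eq_prod_roots_sub`, and `G(a,·)`, `H(a,·)`
have no common root), so `r` is a nonzero constant; `r` is the image of
`r₀ = resultant G₀ H₀ ∈ V[X]`, so `r₀ = C c`, `c ∈ V`, `c ≠ 0`.
(4) Let `κ = V ⧸ 𝔪` be the residue field: algebraically closed of characteristic 2.  Reducing,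
`Ḡ H̄ = Φ_N` over `κ`, `resultant Ḡ H̄ = C c̄`.  `c̄ ≠ 0`: over an algebraic closure of `κ(X)`,
`Φ_N(x,·)` has only simple roots (`generic_of_not_integral`, `x` = image of `X`), so `Ḡ` and `H̄`
have no common root there and the resultant is nonzero.  Hence for all `a ∈ κ`,
`resultant (Ḡ(a,·)) (H̄(a,·)) = c̄ ≠ 0` and `Ḡ, H̄` have no common zero over `κ`.
(5) `irrModTwo` gives `natDegree Ḡ = 0` or `natDegree H̄ = 0`, and the degrees are those of `G, H`.
-/

namespace DynBad

open Polynomial

lemma IrrLift_sing_aux {R E D : Type*} [CommRing R] [Field E] [CommRing D] [Algebra R E]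
    [Algebra R D] (φ : D →+* E) (hφ : φ.comp (algebraMap R D) = algebraMap R E) (ι : E →+* D)
    (ε : D) (hφι : ∀ z, φ (ι z) = z) (hφε : φ ε = 0)
    (hmul : ∀ a b : D, φ a = 0 → φ b = 0 → a * b = 0) (hε0 : ∀ z : E, ε * ι z = 0 → z = 0)
    {N : ℕ} (G H : R[X][X])
    (hGH : G * H = (Phi N).map (mapRingHom (Int.castRingHom R))) (x u : E)
    (hG : ev x u G = 0) (hH : ev x u H = 0) : Sing N x u := by
  have hε : ε * ε = 0 := hmul ε ε hφε hφε
  have key : ∀ x' u' : D, ev (ι x + ε * x') (ι u + ε * u') (Phi N) = 0 := by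
    intro x' u'
    have hfst : ∀ P : R[X][X], φ (ev (ι x + ε * x') (ι u + ε * u') P) = ev x u P := by
      intro P
      have h1 := ev_comp (R := R) φ hφ (ι x + ε * x') (ι u + ε * u') P
      rw [h1]
      simp [hφι, hφε]
    rw [← ev_map (R := R), ← hGH, map_mul]
    exact hmul _ _ ((hfst G).trans hG) ((hfst H).trans hH)
  have hinl : ∀ P : ℤ[X][X], ev (ι x) (ι u) P = ι (ev x u P) := by
    intro P
    exact (ev_comp_int ι x u P).symm
  have h0 := key 0 0
  have h1 := key 1 0
  have h2 := key 0 1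
  rw [ev_add_sq_zero _ _ hε, hinl, hinl, hinl] at h0 h1 h2
  have e0 : ev x u (Phi N) = 0 := by
    have := congrArg φ h0
    simpa [hφι] using this
  refine ⟨e0, hε0 _ ?_, hε0 _ ?_⟩
  · simpa [e0] using h1
  · simpa [e0] using h2

/-- a common zero of the factors of `Φ_N` is a singular point -/
lemma IrrLift_sing {R E : Type*} [CommRing R] [Field E] [Algebra R E] {N : ℕ} (G H : R[X][X])
    (hGH : G * H = (Phi N).map (mapRingHom (Int.castRingHom R))) (x u : E)
    (hG : ev x u G = 0) (hH : ev x u H = 0) : Sing N x u := by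
  refine IrrLift_sing_aux (D := DualNumber E) ((TrivSqZeroExt.fstHom E E E : DualNumber E →ₐ[E] E) :
        DualNumber E →+* E) (by ext r; simp) (TrivSqZeroExt.inlHom E E) DualNumber.eps
    (fun z => by simp) (by simp) ?_ ?_ G H hGH x u hG hH
  · intro a b ha hb
    have ha' : a.fst = 0 := ha
    have hb' : b.fst = 0 := hb
    ext <;> simp [ha', hb']
  · intro z hz
    have := congrArg TrivSqZeroExt.snd hz
    simpa using this

lemma IrrLift_trans {κ Ω : Type*} [Field κ] [Field Ω] [Algebra κ Ω] (x : Ω)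
    (hx : Transcendental κ x) : ¬ IsIntegral ℤ x := by
  intro h
  have h1 : IsIntegral κ x := h.tower_top
  exact hx h1.isAlgebraic

attribute [local instance] Polynomial.algebra in
lemma IrrLift_integral {L : Type*} [Field L] {N : ℕ} (hN : 1 ≤ N)
    (T : L[X][X]) (hT : T.Monic) (hd : T ∣ (Phi N).map (mapRingHom (Int.castRingHom L)))
    (n k : ℕ) : IsIntegral ℤ ((T.coeff n).coeff k) := by
  have h1 : IsIntegral ℤ[X] (T.coeff n) :=
    isIntegral_coeff_of_dvd (R := ℤ[X]) (S := L[X]) (Phi N) T (Phi_monic hN) hT hd n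
  exact Polynomial.isIntegral_iff_isIntegral_coeff.1 h1 k

lemma IrrLift_lift {L : Type*} [Field L] {N : ℕ} (hN : 1 ≤ N) (V : ValuationSubring L)
    (T : L[X][X]) (hT : T.Monic) (hd : T ∣ (Phi N).map (mapRingHom (Int.castRingHom L))) :
    ∃ T₀ : V[X][X], T₀.Monic ∧ T₀.map (mapRingHom V.subtype) = T := by
  have h1 : T ∈ lifts (mapRingHom V.subtype) := by
    rw [lifts_iff_coeff_lifts]
    intro n
    have h2 : T.coeff n ∈ lifts V.subtype := by
      rw [lifts_iff_coeff_lifts]
      intro k
      have h3 : IsIntegral V.toSubring ((T.coeff n).coeff k) :=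
        (IrrLift_integral hN T hT hd n k).tower_top
      exact ⟨⟨_, mem_of_isIntegral (B := V.toSubring) V (fun b hb => hb) h3⟩, rfl⟩
    obtain ⟨q, hq⟩ := h2
    exact ⟨q, hq⟩
  obtain ⟨q, hq, -, hqm⟩ := lifts_and_natDegree_eq_and_monic h1 hT
  exact ⟨q, hqm, hq⟩

lemma IrrLift_res {A k : Type*} [CommRing A] [Field k] [IsAlgClosed k] (ψ : A →+* k)
    (G H : A[X]) (hG : G.Monic) (hH : H.Monic) :
    ψ (resultant G H) ≠ 0 ↔ ∀ b : k, ¬ (eval₂ ψ b G = 0 ∧ eval₂ ψ b H = 0) := by
  have h1 : resultant (G.map ψ) (H.map ψ) = ψ (resultant G H) := by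
    rw [hG.natDegree_map, hH.natDegree_map, resultant_map_map]
  have h2 : G.map ψ ≠ 0 := (hG.map ψ).ne_zero
  rw [← h1, Ne, resultant_eq_zero_iff]
  have h3 : ((G.map ψ ≠ 0 ∨ H.map ψ ≠ 0) ∧ ¬ IsCoprime (G.map ψ) (H.map ψ)) ↔
      ¬ IsCoprime (G.map ψ) (H.map ψ) := ⟨fun h => h.2, fun h => ⟨Or.inl h2, h⟩⟩
  rw [h3, not_not, isCoprime_iff_aeval_ne_zero_of_isAlgClosed k k]
  refine forall_congr' fun b => ?_
  rw [not_and_or, aeval_def, aeval_def, eval₂_map, eval₂_map]
  simp

lemma IrrLift_isAlgClosed {L : Type*} [Field L] [IsAlgClosed L] (V : ValuationSubring L) :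
    IsAlgClosed (IsLocalRing.ResidueField V) := by
  apply IsAlgClosed.of_exists_root
  intro p hp hirr
  have h1 : p ∈ lifts (IsLocalRing.residue V) := by
    rw [lifts_iff_coeff_lifts]
    intro n
    exact IsLocalRing.residue_surjective _
  obtain ⟨q, hq, hqd, hqm⟩ := lifts_and_natDegree_eq_and_monic h1 hp
  have h2 : (q.map V.subtype).degree ≠ 0 := by
    rw [hqm.degree_map]
    intro h0
    have h3 : q.natDegree = 0 := natDegree_eq_of_degree_eq_some h0
    have h4 := hirr.natDegree_pos
    omega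
  obtain ⟨z, hz⟩ := IsAlgClosed.exists_root _ h2
  rw [IsRoot.def, eval_map] at hz
  have hzV : z ∈ V := by
    apply mem_of_isIntegral (B := V.toSubring) V (fun b hb => hb)
    exact ⟨q, hqm, hz⟩
  refine ⟨IsLocalRing.residue V ⟨z, hzV⟩, ?_⟩
  rw [← hq, eval_map]
  have h5 : eval₂ (RingHom.id V) (⟨z, hzV⟩ : V) q = 0 := by
    apply Subtype.ext
    have h6 := hom_eval₂ q (RingHom.id V) V.subtype (⟨z, hzV⟩ : V)
    rw [RingHom.comp_id] at h6
    exact h6.trans hz
  have h7 := hom_eval₂ q (RingHom.id V) (IsLocalRing.residue V) (⟨z, hzV⟩ : V)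
  rw [h5, map_zero, RingHom.comp_id] at h7
  exact h7.symm

lemma IrrLift_val {L : Type*} [Field L] [CharZero L] :
    ∃ V : ValuationSubring L, V.valuation (2 : L) < 1 := by
  let f : ℤ →+* L := Int.castRingHom L
  let B : Subring L := f.range
  let r : ℤ →+* B := f.rangeRestrict
  have hr_inj : Function.Injective r := fun p q h => Int.cast_injective (congrArg Subtype.val h)
  have : (Ideal.span {(2 : ℤ)}).IsPrime :=
    (Ideal.span_singleton_prime two_ne_zero).2 Int.prime_two
  have hP : (Ideal.map r (Ideal.span {(2 : ℤ)})).IsPrime := by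
    apply Ideal.map_isPrime_of_surjective f.rangeRestrict_surjective
    rw [(RingHom.injective_iff_ker_eq_bot r).1 hr_inj]
    exact bot_le
  obtain ⟨V, -, hV⟩ := exists_val B (Ideal.map r (Ideal.span {(2 : ℤ)}))
  refine ⟨V, ?_⟩
  have h3 := (hV (r 2)).2 (Ideal.mem_map_of_mem r (Ideal.mem_span_singleton_self _))
  have h4 : ((r 2 : B) : L) = 2 := by
    change f 2 = 2
    simp [f]
  rw [← h4]; exact h3

theorem irrLift {L : Type*} [Field L] [IsAlgClosed L] [CharZero L] {N : ℕ} (hN : 1 ≤ N)
    (G H : L[X][X]) (hG : G.Monic) (hH : H.Monic)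
    (hGH : G * H = (Phi N).map (mapRingHom (Int.castRingHom L))) :
    G.natDegree = 0 ∨ H.natDegree = 0 := by
  obtain ⟨V, hV2⟩ := IrrLift_val (L := L)
  obtain ⟨G₀, hG₀, rfl⟩ := IrrLift_lift hN V G hG ⟨H, hGH.symm⟩
  obtain ⟨H₀, hH₀, rfl⟩ := IrrLift_lift hN V H hH ⟨_, by rw [← hGH]; ring⟩
  let ρ : V →+* IsLocalRing.ResidueField V := IsLocalRing.residue V
  have : IsAlgClosed (IsLocalRing.ResidueField V) := IrrLift_isAlgClosed V
  have h2 : (2 : IsLocalRing.ResidueField V) = 0 := by
    have h1 : ρ 2 = 0 := by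
      rw [IsLocalRing.residue_eq_zero_iff, ValuationSubring.valuation_lt_one_iff]
      exact hV2
    rwa [map_ofNat] at h1
  have : CharP (IsLocalRing.ResidueField V) 2 :=
    CharTwo.of_one_ne_zero_of_two_eq_zero one_ne_zero h2
  -- the factorization over `V`
  have hV : G₀ * H₀ = (Phi N).map (mapRingHom (Int.castRingHom V)) := by
    apply Polynomial.map_injective (mapRingHom V.subtype)
      (Polynomial.map_injective _ Subtype.val_injective)
    rw [Polynomial.map_mul, hGH, Polynomial.map_map]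
    congr 1
    rw [mapRingHom_comp]
    congr 1
  have hκ : G₀.map (mapRingHom ρ) * H₀.map (mapRingHom ρ) =
      (Phi N).map (mapRingHom (Int.castRingHom (IsLocalRing.ResidueField V))) := by
    rw [← Polynomial.map_mul, hV, Polynomial.map_map, mapRingHom_comp]
    congr 2
  obtain ⟨M, hM, α, β, γ, hMM⟩ := exists_M hN
  -- no common zeros in characteristic zero
  have hno : ∀ a b : L, ¬ (ev a b (G₀.map (mapRingHom V.subtype)) = 0 ∧
      ev a b (H₀.map (mapRingHom V.subtype)) = 0) := by
    rintro a b ⟨h1, h2⟩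
    obtain ⟨e1, e2, e3⟩ := IrrLift_sing _ _ hGH a b h1 h2
    have h3 := congrArg (ev (R := ℤ) a b) hMM
    rw [map_add, map_add, map_mul, map_mul, map_mul, e1, e2, e3, ev_CC] at h3
    simp only [mul_zero, add_zero, eq_intCast] at h3
    exact hM (by exact_mod_cast h3.symm)
  have hres0 : (resultant G₀ H₀).natDegree = 0 := by
    have h1 : ∀ a : L, ((resultant G₀ H₀).map V.subtype).eval a ≠ 0 := by
      intro a
      rw [eval_map]
      have h2 := (IrrLift_res (eval₂RingHom V.subtype a) G₀ H₀ hG₀ hH₀).2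
      apply h2
      intro b hb
      apply hno a b
      have h3 : (eval₂RingHom (algebraMap L L) a).comp (mapRingHom V.subtype) =
          eval₂RingHom V.subtype a := by
        apply Polynomial.ringHom_ext'
        · ext z; simp
        · simp
      constructor
      · have := hb.1
        rw [← h3, ← eval₂_map] at this
        exact this
      · have := hb.2
        rw [← h3, ← eval₂_map] at this
        exact this
    have h4 : ((resultant G₀ H₀).map V.subtype).degree = 0 := by
      by_contra hne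
      obtain ⟨a, ha⟩ := IsAlgClosed.exists_root _ hne
      exact h1 a ha
    have h5 := natDegree_eq_of_degree_eq_some h4
    rwa [natDegree_map_eq_of_injective Subtype.val_injective] at h5
  obtain ⟨c, hc⟩ : ∃ c, resultant G₀ H₀ = C c := ⟨_, eq_C_of_natDegree_eq_zero hres0⟩
  -- the constant is a unit
  have hρc : ρ c ≠ 0 := by
    intro h0
    let x : AlgebraicClosure (RatFunc (IsLocalRing.ResidueField V)) :=
      algebraMap (RatFunc (IsLocalRing.ResidueField V)) _ RatFunc.X
    have hx : Transcendental (IsLocalRing.ResidueField V) x :=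
      (transcendental_algebraMap_iff (algebraMap (RatFunc (IsLocalRing.ResidueField V))
        (AlgebraicClosure (RatFunc (IsLocalRing.ResidueField V)))).injective).2
        RatFunc.transcendental_X
    have hxZ := IrrLift_trans x hx
    have h2 := (IrrLift_res ((eval₂RingHom (algebraMap (IsLocalRing.ResidueField V)
      (AlgebraicClosure (RatFunc (IsLocalRing.ResidueField V)))) x).comp (mapRingHom ρ))
      G₀ H₀ hG₀ hH₀).2
    have h3 := h2 (by
      rintro w ⟨ha, hb⟩
      rw [← eval₂_map] at ha hb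
      obtain ⟨e1, e2, e3⟩ := IrrLift_sing _ _ hκ x w ha hb
      exact (generic_of_not_integral hN e1 hxZ).2.1 e3)
    apply h3
    rw [hc]
    simp [h0]
  have hnoκ : ∀ a b : IsLocalRing.ResidueField V, ¬ (ev a b (G₀.map (mapRingHom ρ)) = 0 ∧
      ev a b (H₀.map (mapRingHom ρ)) = 0) := by
    intro a b
    have h2 := (IrrLift_res ((eval₂RingHom (algebraMap (IsLocalRing.ResidueField V)
      (IsLocalRing.ResidueField V)) a).comp (mapRingHom ρ)) G₀ H₀ hG₀ hH₀).1
      (by rw [hc]; simpa using hρc) b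
    rw [← eval₂_map, ← eval₂_map] at h2
    exact h2
  have hfin := irrModTwo hN _ _ (hG₀.map (mapRingHom ρ)) (hH₀.map (mapRingHom ρ)) hκ hnoκ
  rw [hG₀.natDegree_map, hH₀.natDegree_map] at hfin
  rw [hG₀.natDegree_map, hH₀.natDegree_map]
  exact hfin

end DynBad
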