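import Pool.Agent.DynBad.IrrConn
import Pool.Agent.DynBad.IrrKey

/-!
# Module IrrModTwo: a factorization of `Φ_N` mod 2 without common zeros is trivial

`κ` algebraically closed of characteristic 2, `G H = Φ_N` over `κ`, `G, H` monic without common
zeros in `κ × κ`.  Then one of them is constant (`= 1`).

Proof.  `Ω = AlgebraicClosure (RatFunc κ)` (or of `FractionRing κ[X]`), `x` = image of `X`.
The set `RN = {w ∈ Ω : Φ_N(x,w) = 0} = {w : F x w N = 0, F x w d ≠ 0 for d ∣ N, d < N}`: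
`⊆` is `generic_of_not_integral` (`x` is not integral over `ℤ`), `⊇` is `ev_Phi_eq_zero`.
With `F_eq_MM` this is the set of `irrConn` for `M = MM x`, `Q = Qn N`,
`S = {Qn d : d ∣ N, d < N}`.  `hgen`: `m(x) ≠ 0` (`x` transcendental), so by `MM_ker` there is
`v ≠ 0` with `m v = 0` and by `MM_surj` `w` with `m^(s-1) w = v`.  Let `Z` be the set of roots of
`G(x, ·)`; `RN` is the union of `Z` and the set `Z'` of the roots of `H(x, ·)`.  By `irrKey`,
`hZZ` holds (a `w' ∈ RN` with `m^s(w'-w) = 0`, `w ∈ Z`, cannot be in `Z'`).  So `Z = ∅` or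
`Z = RN`.  If `natDegree G > 0` then `Z ≠ ∅`, so `Z = RN ⊇ Z'`; if also `natDegree H > 0`, pick
`w' ∈ Z' ⊆ Z`, then `irrKey` with `w = w'`, `s = 0`... gives `aeval _ 1 0 = 0 ≠ 0`, contradiction
(any irreducible `m`, e.g. `X`).
-/

namespace DynBad

open Polynomial

lemma IrrModTwo_core {κ : Type*} [Field κ] [IsAlgClosed κ] [Algebra (ZMod 2) κ]
    {Ω : Type*} [Field Ω] [IsAlgClosed Ω] [Algebra κ Ω] [Algebra (ZMod 2) Ω]
    [IsScalarTower (ZMod 2) κ Ω] (x : Ω) (hx : Transcendental κ x) {N : ℕ} (hN : 1 ≤ N)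
    (G H : κ[X][X]) (hG : G.Monic) (hH : H.Monic)
    (hGH : G * H = (Phi N).map (mapRingHom (Int.castRingHom κ)))
    (hno : ∀ a b : κ, ¬ (ev a b G = 0 ∧ ev a b H = 0)) :
    G.natDegree = 0 ∨ H.natDegree = 0 := by
  have hxZ : ¬ IsIntegral ℤ x := by
    intro h
    have h1 : IsIntegral κ x := h.tower_top
    exact hx h1.isAlgebraic
  have hGHev : ∀ w : Ω, ev x w G * ev x w H = ev x w (Phi N) := by
    intro w
    rw [← map_mul, hGH, ev_map]
  have hroot : ∀ w : Ω, ev x w (Phi N) = 0 ↔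
      (aeval (MM x) (Qn N) w = 0 ∧ ∀ q ∈ {q : (ZMod 2)[X] | ∃ d, d ∣ N ∧ d < N ∧ q = Qn d},
        aeval (MM x) q w ≠ 0) := by
    intro w
    constructor
    · intro h
      refine ⟨?_, ?_⟩
      · rw [← F_eq_MM]; exact F_eq_zero_of_ev_Phi x w hN h
      · rintro q ⟨d, hd, hdN, rfl⟩
        rw [← F_eq_MM]
        exact (generic_of_not_integral hN h hxZ).2.2.2 d (Nat.pos_of_dvd_of_pos hd hN) hdN
    · rintro ⟨h1, h2⟩
      apply ev_Phi_eq_zero x w hN
      · rw [F_eq_MM]; exact h1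
      · intro d hd hdN
        rw [F_eq_MM]
        exact h2 _ ⟨d, hd, hdN, rfl⟩
  have hQ : Qn N ≠ 0 := by
    intro h0
    have h1 : (Qn N).coeff 0 = 1 := by
      unfold Qn
      obtain ⟨N', rfl⟩ : ∃ N', N = N' + 1 := ⟨N - 1, by omega⟩
      rw [Finset.sum_range_succ', coeff_add, finsetSum_coeff]
      simp
    rw [h0, coeff_zero] at h1
    exact zero_ne_one h1
  have hxm : ∀ m : (ZMod 2)[X], m ≠ 0 → aeval x m ≠ 0 := by
    intro m hm h0
    apply hx
    refine ⟨m.map (algebraMap (ZMod 2) κ), ?_, ?_⟩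
    · rw [Ne, Polynomial.map_eq_zero]; exact hm
    · rw [aeval_map_algebraMap]; exact h0
  have hexroot : ∀ T : κ[X][X], T.Monic → T.natDegree ≠ 0 → ∃ w : Ω, ev x w T = 0 := by
    intro T hT hdeg
    have h1 : (T.map (eval₂RingHom (algebraMap κ Ω) x)).degree ≠ 0 := by
      rw [hT.degree_map]
      intro h0
      exact hdeg (natDegree_eq_of_degree_eq_some h0)
    obtain ⟨w, hw⟩ := IsAlgClosed.exists_root _ h1
    refine ⟨w, ?_⟩
    rw [IsRoot.def, eval_map] at hw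
    exact hw
  by_contra hcon
  push Not at hcon
  obtain ⟨w₀, hw₀⟩ := hexroot G hG hcon.1
  obtain ⟨w₁, hw₁⟩ := hexroot H hH hcon.2
  have hmain := irrConn (MM x) (Qn N) hQ
    {q : (ZMod 2)[X] | ∃ d, d ∣ N ∧ d < N ∧ q = Qn d}
    (by
      intro m hm s hs _ _
      obtain ⟨v, hv0, hv⟩ := MM_ker x m hm.natDegree_pos (hxm m hm.ne_zero)
      obtain ⟨w, hw⟩ := MM_surj x (m ^ (s - 1)) (pow_ne_zero _ hm.ne_zero) v
      refine ⟨w, ?_, ?_⟩
      · obtain ⟨s', rfl⟩ : ∃ s', s = s' + 1 := ⟨s - 1, by omega⟩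
        rw [Nat.add_sub_cancel] at hw
        rw [pow_succ', map_mul, Module.End.mul_apply, hw, hv]
      · rw [hw]; exact hv0)
    {w | ev x w G = 0}
    (by
      intro w hw
      rw [Set.mem_ofPred_eq] at hw ⊢
      apply (hroot w).1
      rw [← hGHev, hw, zero_mul])
    (by
      intro w hw w' h1 h2 m hm _ s hs
      have h3 := (hroot w').2 ⟨h1, h2⟩
      rw [← hGHev, mul_eq_zero] at h3
      rcases h3 with h3 | h3
      · exact h3
      · exact absurd hs (irrKey x hx G H hG hH hno m hm s w w' hw h3))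
  rcases hmain with h | h
  · have : w₀ ∈ ({w | ev x w G = 0} : Set Ω) := hw₀
    rw [h] at this
    exact this
  · have h1 : w₁ ∈ ({w | ev x w G = 0} : Set Ω) := by
      rw [h]
      apply (hroot w₁).1
      rw [← hGHev, hw₁, mul_zero]
    exact irrKey x hx G H hG hH hno X irreducible_X 0 w₁ w₁ h1 hw₁ (by simp)

lemma IrrModTwo_core' {κ : Type*} [Field κ] [IsAlgClosed κ] [Algebra (ZMod 2) κ]
    {Ω : Type*} [Field Ω] [IsAlgClosed Ω] [Algebra κ Ω] (x : Ω) (hx : Transcendental κ x) {N : ℕ}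
    (hN : 1 ≤ N) (G H : κ[X][X]) (hG : G.Monic) (hH : H.Monic)
    (hGH : G * H = (Phi N).map (mapRingHom (Int.castRingHom κ)))
    (hno : ∀ a b : κ, ¬ (ev a b G = 0 ∧ ev a b H = 0)) :
    G.natDegree = 0 ∨ H.natDegree = 0 := by
  let a₂ : Algebra (ZMod 2) Ω := ((algebraMap κ Ω).comp (algebraMap (ZMod 2) κ)).toAlgebra
  have a₃ : IsScalarTower (ZMod 2) κ Ω := IsScalarTower.of_algebraMap_eq' rfl
  exact IrrModTwo_core x hx hN G H hG hH hGH hno

theorem irrModTwo {κ : Type*} [Field κ] [IsAlgClosed κ] [CharP κ 2] {N : ℕ} (hN : 1 ≤ N)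
    (G H : κ[X][X]) (hG : G.Monic) (hH : H.Monic)
    (hGH : G * H = (Phi N).map (mapRingHom (Int.castRingHom κ)))
    (hno : ∀ a b : κ, ¬ (ev a b G = 0 ∧ ev a b H = 0)) :
    G.natDegree = 0 ∨ H.natDegree = 0 := by
  let a₁ : Algebra (ZMod 2) κ := ZMod.algebra κ 2
  have hx : Transcendental κ
      (algebraMap (RatFunc κ) (AlgebraicClosure (RatFunc κ)) RatFunc.X) :=
    (transcendental_algebraMap_iff (algebraMap (RatFunc κ)
      (AlgebraicClosure (RatFunc κ))).injective).2 RatFunc.transcendental_X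
  exact IrrModTwo_core' _ hx hN G H hG hH hGH hno

end DynBad
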