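import Mathlib

/-!
# Module JacEtale: `R[X]/(f)` is étale over `R` where `f'` is invertible

`B` is the localization away from `f'(x)` of `R[X]/(f)` (`f` arbitrary, not nec. monic), given
abstractly: a ring `B` with an element `x` such that
(i) `f(x) = 0`, `f'(x)` is a unit, (ii) every element of `B` is `g(x)/f'(x)^n`, (iii) if `g(x) = 0`
in `B` then `f'^n g ∈ (f)` for some `n`.  Then `B` is étale over `R`.

Proof.  `B` is isomorphic to `(R[X]/(f))[1/f']`, which is of finite presentation; formally étale:
given a square zero ideal `I` of an `R`-algebra `C` and `B → C/I`, lift the image of `x` to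
`c ∈ C`; `f(c) ∈ I`, `f'(c)` is a unit, and `f(c + ε) = f(c) + f'(c) ε` has exactly one solution
`ε ∈ I`.  (Or use a `SubmersivePresentation`/`Algebra.Generators` with relations
`f(X)`, `f'(X) Y - 1`.)
-/

namespace DynBad

open Polynomial

theorem jac_etale (R B : Type*) [CommRing R] [CommRing B] [Algebra R B] (f : R[X]) (x : B)
    (hf : aeval x f = 0) (hu : IsUnit (aeval x (derivative f)))
    (hsurj : ∀ b : B, ∃ (n : ℕ) (g : R[X]), b * aeval x (derivative f) ^ n = aeval x g)
    (hker : ∀ g : R[X], aeval x g = 0 → ∃ n : ℕ, f ∣ derivative f ^ n * g) :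
    Algebra.Etale R B := by
  -- the localization structure
  let φ : AdjoinRoot f →ₐ[R] B := AdjoinRoot.liftAlgHom f (Algebra.ofId R B) x hf
  have hφ : ∀ g : R[X], φ (AdjoinRoot.mk f g) = aeval x g := fun g => by
    show AdjoinRoot.liftAlgHom f (Algebra.ofId R B) x hf (AdjoinRoot.mk f g) = _
    rw [AdjoinRoot.liftAlgHom_mk]
    rfl
  letI alg : Algebra (AdjoinRoot f) B := φ.toRingHom.toAlgebra
  have hmap : ∀ g : R[X], algebraMap (AdjoinRoot f) B (AdjoinRoot.mk f g) = aeval x g := hφ
  haveI tower : IsScalarTower R (AdjoinRoot f) B :=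
    IsScalarTower.of_algebraMap_eq fun r => (φ.commutes r).symm
  haveI loc : IsLocalization.Away (AdjoinRoot.mk f (derivative f)) B := by
    refine (isLocalization_iff _ _).2 ⟨?_, ?_, ?_⟩
    · rintro ⟨_, n, rfl⟩
      show IsUnit (algebraMap (AdjoinRoot f) B (AdjoinRoot.mk f (derivative f) ^ n))
      rw [map_pow, hmap]
      exact hu.pow n
    · intro b
      obtain ⟨n, g, h⟩ := hsurj b
      refine ⟨(AdjoinRoot.mk f g, ⟨AdjoinRoot.mk f (derivative f) ^ n, n, rfl⟩), ?_⟩
      show b * algebraMap (AdjoinRoot f) B (AdjoinRoot.mk f (derivative f) ^ n) =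
        algebraMap (AdjoinRoot f) B (AdjoinRoot.mk f g)
      rw [map_pow, hmap, hmap, h]
    · intro a b hab
      obtain ⟨g, rfl⟩ := AdjoinRoot.mk_surjective a
      obtain ⟨g', rfl⟩ := AdjoinRoot.mk_surjective b
      rw [hmap, hmap] at hab
      obtain ⟨n, hn⟩ := hker (g - g') (by rw [map_sub, hab, sub_self])
      refine ⟨⟨AdjoinRoot.mk f (derivative f) ^ n, n, rfl⟩, ?_⟩
      show AdjoinRoot.mk f (derivative f) ^ n * AdjoinRoot.mk f g =
        AdjoinRoot.mk f (derivative f) ^ n * AdjoinRoot.mk f g'
      rw [← sub_eq_zero, ← map_pow, ← map_mul, ← map_mul, ← map_sub, ← mul_sub,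
        AdjoinRoot.mk_eq_zero]
      exact hn
  haveI fp1 : Algebra.FinitePresentation (AdjoinRoot f) B :=
    IsLocalization.Away.finitePresentation (AdjoinRoot.mk f (derivative f))
  haveI fp2 : Algebra.FinitePresentation R (AdjoinRoot f) := by
    show Algebra.FinitePresentation R (R[X] ⧸ Ideal.span {f})
    exact Algebra.FinitePresentation.quotient ⟨{f}, by simp⟩
  haveI fp : Algebra.FinitePresentation R B :=
    Algebra.FinitePresentation.trans R (AdjoinRoot f) B
  -- infinitesimal lifting
  haveI fe : Algebra.FormallyEtale R B := by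
    refine Algebra.FormallyEtale.iff_comp_bijective.mpr fun S _ _ I hI => ⟨?_, ?_⟩
    · intro ψ ψ' h
      have hx : ψ' x - ψ x ∈ I := by
        rw [← Ideal.Quotient.mk_eq_mk_iff_sub_mem]
        exact (AlgHom.congr_fun h x).symm
      have hsq : (ψ' x - ψ x) ^ 2 = 0 := by
        have := Ideal.pow_mem_pow hx 2
        rw [hI] at this
        exact this
      have h1 := Polynomial.aeval_add_of_sq_eq_zero f (ψ x) (ψ' x - ψ x) hsq
      rw [add_sub_cancel, aeval_algHom_apply, aeval_algHom_apply, aeval_algHom_apply, hf, map_zero,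
        map_zero, zero_add] at h1
      have h2 : IsUnit (ψ (aeval x (derivative f))) := hu.map ψ
      have h3 : ψ' x - ψ x = 0 := by
        have h4 : ψ (aeval x (derivative f)) * (ψ' x - ψ x) = 0 := by
          exact h1.symm
        exact (h2.mul_right_eq_zero).1 h4
      have h4 : ψ' x = ψ x := sub_eq_zero.1 h3
      ext b
      obtain ⟨n, g, hb⟩ := hsurj b
      have e1 := congrArg ψ hb
      have e2 := congrArg ψ' hb
      rw [map_mul, map_pow, ← aeval_algHom_apply, ← aeval_algHom_apply] at e1 e2
      rw [h4, ← e1] at e2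
      rw [aeval_algHom_apply] at e2
      exact ((h2.pow n).mul_left_inj.1 e2).symm
    · intro ψ
      obtain ⟨c, hc⟩ := Ideal.Quotient.mk_surjective (ψ x)
      have hcmk : ∀ g : R[X], Ideal.Quotient.mk I (aeval c g) = ψ (aeval x g) := by
        intro g
        have := aeval_algHom_apply (Ideal.Quotient.mkₐ R I) c g
        rw [← aeval_algHom_apply ψ, ← hc]
        exact this.symm
      have hfc : aeval c f ∈ I := by
        rw [← Ideal.Quotient.eq_zero_iff_mem, hcmk, hf, map_zero]
      have huc : IsUnit (aeval c (derivative f)) := by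
        rw [← IsNilpotent.isUnit_quotient_mk_iff (I := I) ⟨2, hI⟩, hcmk]
        exact hu.map ψ
      obtain ⟨v, hv⟩ := huc.exists_right_inv
      set ε : S := -(aeval c f * v) with hε
      have hεI : ε ∈ I := I.neg_mem (I.mul_mem_right _ hfc)
      have hmulI : ∀ a ∈ I, ∀ b ∈ I, a * b = 0 := by
        intro a ha b hb
        have := Ideal.mul_mem_mul ha hb
        rw [← sq, hI] at this
        exact this
      have hεsq : ε ^ 2 = 0 := by rw [sq]; exact hmulI _ hεI _ hεI
      have hf1 : aeval (c + ε) f = 0 := by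
        rw [Polynomial.aeval_add_of_sq_eq_zero f c ε hεsq]
        have : aeval c (derivative f) * ε = - aeval c f := by
          rw [hε]
          linear_combination (-(aeval c f)) * hv
        rw [this]; ring
      have hmk : Ideal.Quotient.mk I (c + ε) = ψ x := by
        rw [map_add, Ideal.Quotient.eq_zero_iff_mem.2 hεI, add_zero, hc]
      have hmkg : ∀ g : R[X], Ideal.Quotient.mk I (aeval (c + ε) g) = ψ (aeval x g) := by
        intro g
        have := aeval_algHom_apply (Ideal.Quotient.mkₐ R I) (c + ε) g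
        rw [← aeval_algHom_apply ψ, ← hmk]
        exact this.symm
      have hu1 : IsUnit (aeval (c + ε) (derivative f)) := by
        rw [← IsNilpotent.isUnit_quotient_mk_iff (I := I) ⟨2, hI⟩, hmkg]
        exact hu.map ψ
      let θ : AdjoinRoot f →ₐ[R] S := AdjoinRoot.liftAlgHom f (Algebra.ofId R S) (c + ε) hf1
      have hθ : ∀ g : R[X], θ (AdjoinRoot.mk f g) = aeval (c + ε) g := fun g => by
        show AdjoinRoot.liftAlgHom f (Algebra.ofId R S) (c + ε) hf1 (AdjoinRoot.mk f g) = _
        rw [AdjoinRoot.liftAlgHom_mk]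
        rfl
      have hθu : IsUnit (θ.toRingHom (AdjoinRoot.mk f (derivative f))) := by
        show IsUnit (θ (AdjoinRoot.mk f (derivative f)))
        rw [hθ]
        exact hu1
      let Θ : B →+* S := IsLocalization.Away.lift (AdjoinRoot.mk f (derivative f)) hθu
      have hΘ : ∀ a : AdjoinRoot f, Θ (algebraMap (AdjoinRoot f) B a) = θ a := fun a =>
        IsLocalization.Away.lift_eq _ hθu a
      have hΘg : ∀ g : R[X], Θ (aeval x g) = aeval (c + ε) g := fun g => by
        rw [← hmap, hΘ, hθ]
      let Θ' : B →ₐ[R] S :=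
        { Θ with
          commutes' := fun r => by
            have := hΘg (C r)
            rw [aeval_C, aeval_C] at this
            exact this }
      refine ⟨Θ', ?_⟩
      ext b
      obtain ⟨n, g, hb⟩ := hsurj b
      show Ideal.Quotient.mk I (Θ b) = ψ b
      have e1 : Ideal.Quotient.mk I (Θ b) * ψ (aeval x (derivative f)) ^ n = ψ (aeval x g) := by
        rw [← hmkg, ← hmkg, ← map_pow, ← map_mul, ← hΘg, ← hΘg, ← map_pow, ← map_mul, hb]
      have e2 : ψ b * ψ (aeval x (derivative f)) ^ n = ψ (aeval x g) := by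
        rw [← map_pow, ← map_mul, hb]
      exact ((hu.map ψ).pow n).mul_left_inj.1 (e1.trans e2.symm)
  exact { formallyEtale := fe, finitePresentation := fp }

end DynBad
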