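import Mathlib

/-!
# Module LemmaE: the image of an étale algebra over a normal domain in a field is étale

`R'` an integrally closed domain, `C` étale over `R'`, `φ : C → K` an `R'`-algebra homomorphism to a
field with `R' → K` injective.  Then `φ(C)` is étale over `R'`.

`L = Frac R'`, `C_L = C ⊗_{R'} L` (localization of `C` at the nonzero elements of `R'`): étale over
the field `L`, so a finite product of fields, reduced Artinian.  `C → C_L` is injective (flatness),
and `C` is integrally closed in `C_L` (Mathlib: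
`TensorProduct.toIntegralClosure_bijective_of_smooth` with `B = L`,
`integralClosure R' L = R'`).  `φ` extends to `φ_L : C_L → K`; its kernel is a prime (so maximal)
ideal of the reduced Artinian ring `C_L`, hence generated by an idempotent `ε`
(`IsArtinianRing`, e.g. `Ideal` finitely generated with `I^2 = I`:
`Ideal.isIdempotentElem_iff_of_fg`).  `ε` is integral over `C` (`ε^2 = ε`), so `ε ∈ C`, and
`ker φ = ker φ_L ∩ C = ε C`.  `φ(C) ≃ C/εC ≃ C[1/(1-ε)]` is étale over `R'`.
-/

namespace DynBad

open TensorProduct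

theorem etale_range (R' C K : Type*) [CommRing R'] [IsDomain R'] [IsIntegrallyClosed R']
    [CommRing C] [Algebra R' C] [Algebra.Etale R' C] [Field K] [Algebra R' K]
    (hinj : Function.Injective (algebraMap R' K)) (φ : C →ₐ[R'] K) :
    Algebra.Etale R' φ.range := by
  let L := FractionRing R'
  -- the reduced Artinian ring `C_L`
  have hfin : Module.Finite L (L ⊗[R'] C) := Algebra.FormallyUnramified.finite_of_free L _
  have hart0 : IsArtinianRing (L ⊗[R'] C) := IsArtinianRing.of_finite L _
  have hred0 : IsReduced (L ⊗[R'] C) := Algebra.FormallyUnramified.isReduced_of_field L _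
  have hss0 : IsSemisimpleRing (L ⊗[R'] C) := IsArtinianRing.isSemisimpleRing_of_isReduced _
  let sw : (L ⊗[R'] C) ≃ₐ[R'] (C ⊗[R'] L) := Algebra.TensorProduct.comm R' L C
  have hss : IsSemisimpleRing (C ⊗[R'] L) :=
    sw.toRingEquiv.isSemisimpleRing
  -- the homomorphism on `C_L`
  let ψ : L →ₐ[R'] K := IsFractionRing.liftAlgHom (g := Algebra.ofId R' K) hinj
  let φL : C ⊗[R'] L →ₐ[R'] K := Algebra.TensorProduct.lift φ ψ (fun _ _ => Commute.all _ _)
  have hφL : ∀ c : C, φL (c ⊗ₜ 1) = φ c := by
    intro c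
    simp [φL]
  obtain ⟨ε, hε, hker⟩ := IsSemisimpleRing.ideal_eq_span_idempotent (RingHom.ker φL)
  -- `ε` comes from `C`
  have hint : IsIntegral C ε := by
    refine ⟨Polynomial.X ^ 2 - Polynomial.X, ?_, ?_⟩
    · monicity!
    · simp [sq, hε.eq]
  have hbij := TensorProduct.toIntegralClosure_bijective_of_smooth (R := R') (S := C) (B := L)
  obtain ⟨t, ht⟩ := hbij.2 ⟨ε, hint⟩
  have hflat : Module.Flat R' C := Algebra.Smooth.flat R' C
  have hinjC : Function.Injective (fun c : C => (c ⊗ₜ[R'] (1 : L))) :=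
    Algebra.TensorProduct.includeLeft_injective (S := R') (IsFractionRing.injective R' L)
  obtain ⟨c, hc⟩ : ∃ c : C, c ⊗ₜ[R'] (1 : L) = ε := by
    have h1 : ∀ t : C ⊗[R'] (integralClosure R' L), ∃ c : C,
        ((TensorProduct.toIntegralClosure R' C L t : integralClosure C (C ⊗[R'] L)) :
          C ⊗[R'] L) = c ⊗ₜ[R'] (1 : L) := by
      intro t
      induction t with
      | zero => exact ⟨0, by simp⟩
      | add x y hx hy =>
        obtain ⟨c, hc⟩ := hx
        obtain ⟨d, hd⟩ := hy
        exact ⟨c + d, by simp [hc, hd, TensorProduct.add_tmul]⟩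
      | tmul x y =>
        obtain ⟨r, hr⟩ := IsIntegrallyClosed.isIntegral_iff.mp y.2
        refine ⟨r • x, ?_⟩
        have : (TensorProduct.toIntegralClosure R' C L (x ⊗ₜ y) : C ⊗[R'] L) =
          x ⊗ₜ[R'] (y : L) := rfl
        rw [this, ← hr, TensorProduct.smul_tmul, Algebra.algebraMap_eq_smul_one]
    obtain ⟨c, hc⟩ := h1 t
    exact ⟨c, by rw [← hc, ht]⟩
  have hcid : IsIdempotentElem c := by
    apply hinjC
    change (c * c) ⊗ₜ[R'] (1 : L) = c ⊗ₜ[R'] (1 : L)
    have : (c * c) ⊗ₜ[R'] (1 : L) = (c ⊗ₜ[R'] (1 : L)) * (c ⊗ₜ[R'] (1 : L)) := by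
      rw [Algebra.TensorProduct.tmul_mul_tmul, mul_one]
    rw [this, hc, hε.eq]
  have hkerφ : RingHom.ker φ = Ideal.span {c} := by
    apply le_antisymm
    · intro x hx
      have h1 : x ⊗ₜ[R'] (1 : L) ∈ RingHom.ker φL := by
        rw [RingHom.mem_ker, hφL]
        exact hx
      rw [hker, Ideal.mem_span_singleton'] at h1
      obtain ⟨y, hy⟩ := h1
      have h2 : (x * c) ⊗ₜ[R'] (1 : L) = x ⊗ₜ[R'] (1 : L) := by
        have : (x * c) ⊗ₜ[R'] (1 : L) = (x ⊗ₜ[R'] (1 : L)) * (c ⊗ₜ[R'] (1 : L)) := by
          rw [Algebra.TensorProduct.tmul_mul_tmul, mul_one]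
        rw [this, hc, ← hy, mul_assoc, hε.eq]
      have h3 : x * c = x := hinjC h2
      rw [Ideal.mem_span_singleton']
      exact ⟨x, h3⟩
    · rw [Ideal.span_singleton_le_iff_mem, RingHom.mem_ker]
      have h1 : ε ∈ RingHom.ker φL := by
        rw [hker]
        exact Ideal.mem_span_singleton_self ε
      rw [← hc, RingHom.mem_ker, hφL] at h1
      exact h1
  -- conclusion
  algebraize [(φ.rangeRestrict : C →+* φ.range)]
  have htower : IsScalarTower R' C φ.range := by
    apply IsScalarTower.of_algebraMap_eq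
    intro r
    exact (φ.rangeRestrict.commutes r).symm
  have hloc : IsLocalization.Away (1 - c) φ.range := by
    apply IsLocalization.away_of_isIdempotentElem hcid.one_sub
    · rw [sub_sub_cancel, ← hkerφ]
      ext x
      rw [RingHom.mem_ker, RingHom.mem_ker]
      change φ.rangeRestrict x = 0 ↔ φ x = 0
      rw [Subtype.ext_iff]
      rfl
    · exact φ.rangeRestrict_surjective
  have het : Algebra.Etale C φ.range := Algebra.Etale.of_isLocalizationAway (1 - c)
  exact Algebra.Etale.comp R' C φ.range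

end DynBad
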