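import Pool.Agent.DynBad.SchDefs

/-!
# Module SchCentre: the centre of a valuation ring on a proper scheme

`V` a valuation subring of `K` containing `ℤ_p` (here any base ring `R`).  Valuative commutative
square: `Spec K → X` (generic point: `Spec` of `e`, composed with
`X.fromSpecStalk (genericPoint X)`), `Spec V → Spec R`.  `f` proper: there is a unique lift
`l : Spec V → X` (`IsProper.eq_valuativeCriterion`).  `y = l(closedPoint)`.
For an affine open `U ∋ y`: `l⁻¹(U)` is an open subset of `Spec V` containing the closed point, so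
it is everything, `l` factors through `U` and gives `Γ(X,U) → V` compatible with
`Γ(X,U) → K`: `chart U ≤ V`, and the prime of `Γ(X,U)` corresponding to `y` is the preimage of
`𝔪_V`.  As the stalk at `y` is the localization of `Γ(X,U)` at this prime
(`IsAffineOpen.isLocalization_stalk`), `loc V (chart U) = stalkRange y`.
Conversely, if `U` is an affine open with `chart U ≤ V`, then `Spec V → Spec Γ(X,U) = U → X` is
another lift of the same square, so by uniqueness it is `l` and `y ∈ U`.
-/

namespace DynBad

open AlgebraicGeometry CategoryTheory Polynomial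

section
variable {R : Type} [CommRing R] {X : Scheme.{0}} [IsIntegral X] (f : X ⟶ Spec (.of R))

/-- the structure morphism restricted to the generic point -/
private lemma fromSpecStalk_comp :
    X.fromSpecStalk (genericPoint X) ≫ f =
      Spec.map (CommRingCat.ofHom (baseMap f)) := by
  have h1 : f = X.toSpecΓ ≫ Spec.map ((Scheme.ΓSpecIso (.of R)).inv ≫ f.appTop) := by
    rw [Spec.map_comp, ← Category.assoc, ← Scheme.toSpecΓ_naturality, Category.assoc,
      ← SpecMap_ΓSpecIso_hom, ← Spec.map_comp, Iso.inv_hom_id, Spec.map_id, Category.comp_id]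
  conv_lhs => rw [h1]
  rw [← Category.assoc, Scheme.fromSpecStalk_toSpecΓ, ← Spec.map_comp]
  rfl

end

theorem exists_centre {R : Type} [CommRing R] {X : Scheme.{0}} [IsIntegral X]
    (f : X ⟶ Spec (.of R)) [IsProper f] {K : Type} [Field K] [Algebra R K]
    (e : X.functionField ≃+* K) (he : ∀ a, e (baseMap f a) = algebraMap R K a)
    (V : ValuationSubring K) (hV : ∀ a : R, algebraMap R K a ∈ V) :
    ∃ y : X, (∀ (U : X.Opens) [Nonempty U], IsAffineOpen U → y ∈ U →
        Le (chart f e he U) V ∧ loc V (chart f e he U) = stalkRange e y) ∧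
      ∀ (U : X.Opens) [Nonempty U], IsAffineOpen U → Le (chart f e he U) V → y ∈ U := by
  classical
  -- the valuative square
  let ε : X.functionField ⟶ CommRingCat.of K := CommRingCat.ofHom (e : X.functionField →+* K)
  let ι : CommRingCat.of V ⟶ CommRingCat.of K := CommRingCat.ofHom (algebraMap V K)
  let β : R →+* V := (algebraMap R K).codRestrict V.toSubring hV
  let i₁ : Spec (.of K) ⟶ X := Spec.map ε ≫ X.fromSpecStalk (genericPoint X)
  let i₂ : Spec (.of V) ⟶ Spec (.of R) := Spec.map (CommRingCat.ofHom β)
  have hsq : CommSq i₁ (Spec.map ι) f i₂ := by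
    constructor
    simp only [i₁, i₂]
    rw [Category.assoc, fromSpecStalk_comp, ← Spec.map_comp, ← Spec.map_comp]
    congr 1
    ext a
    exact he a
  let Sq : ValuativeCommSq f := { R := V, K := K, i₁ := i₁, i₂ := i₂, commSq := hsq }
  have hvc : ValuativeCriterion f := by
    have h : IsProper f := inferInstance
    rw [IsProper.eq_valuativeCriterion] at h
    exact h.1.1.1
  obtain ⟨huniq⟩ := hvc Sq
  let L : hsq.LiftStruct := huniq.default
  let l : Spec (.of V) ⟶ X := L.l
  have hl1 : Spec.map ι ≫ l = i₁ := L.fac_left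
  have hl2 : l ≫ f = i₂ := L.fac_right
  let y : X := l (IsLocalRing.closedPoint V)
  let φ : X.presheaf.stalk y ⟶ CommRingCat.of V := Scheme.stalkClosedPointTo l
  have hφloc : IsLocalHom φ.hom := Scheme.isLocalHom_stalkClosedPointTo' l
  have hφ : ∀ s : X.presheaf.stalk y,
      ((φ s : V) : K) = e (algebraMap (X.presheaf.stalk y) X.functionField s) := by
    have hsp : genericPoint X ⤳ y := (genericPoint_spec X).specializes trivial
    have h1 : Spec.map (φ ≫ ι) ≫ X.fromSpecStalk y =
        Spec.map (X.presheaf.stalkSpecializes hsp ≫ ε) ≫ X.fromSpecStalk y := by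
      rw [Spec.map_comp, Spec.map_comp, Category.assoc, Category.assoc,
        Scheme.SpecMap_stalkSpecializes_fromSpecStalk]
      have h2 : Spec.map φ ≫ X.fromSpecStalk y = l := Scheme.Spec_stalkClosedPointTo_fromSpecStalk l
      rw [h2, hl1]
    rw [cancel_mono] at h1
    have h3 := Spec.map_injective h1
    intro s
    exact congrArg (fun g => g.hom s) h3
  have hφgerm : ∀ (U : X.Opens) [Nonempty U] (hy : y ∈ U) (s : Γ(X, U)),
      ((φ (X.presheaf.germ U y hy s) : V) : K) = e (X.germToFunctionField U s) := by
    intro U _ hy s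
    rw [hφ, Scheme.algebraMap_germ_eq_germToFunctionField]
  have hunit : ∀ s : X.presheaf.stalk y, V.valuation ((φ s : V) : K) = 1 ↔ IsUnit s := by
    intro s
    rw [← V.valuation_eq_one_iff (φ s : V)]
    constructor
    · intro h
      exact (isUnit_map_iff φ.hom s).mp h
    · intro h
      exact h.map φ.hom
  refine ⟨y, ?_, ?_⟩
  · intro U _ hU hy
    refine ⟨?_, ?_⟩
    · rintro _ ⟨s, rfl⟩
      change e (X.germToFunctionField U s) ∈ V
      rw [← hφgerm U hy s]
      exact (φ (X.presheaf.germ U y hy s) : V).2
    · ext z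
      constructor
      · rintro ⟨_, ⟨a, rfl⟩, _, ⟨b, rfl⟩, hb1, hab⟩
        change V.valuation (e (X.germToFunctionField U b)) = 1 at hb1
        change z * e (X.germToFunctionField U b) = e (X.germToFunctionField U a) at hab
        rw [← hφgerm U hy b, hunit] at hb1
        obtain ⟨c, hc⟩ := hb1.exists_right_inv
        rw [← hφgerm U hy b, ← hφgerm U hy a, hφ, hφ] at hab
        refine ⟨X.presheaf.germ U y hy a * c, ?_⟩
        change e (algebraMap (X.presheaf.stalk y) X.functionField _) = z
        rw [map_mul, map_mul, ← hab, mul_assoc, ← map_mul, ← map_mul, hc, map_one, map_one, mul_one]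
      · rintro ⟨w, rfl⟩
        let _ : Algebra Γ(X, U) (X.presheaf.stalk y) := (X.presheaf.germ U y hy).hom.toAlgebra
        have hloc : IsLocalization.AtPrime (X.presheaf.stalk y)
            (hU.primeIdealOf ⟨y, hy⟩).asIdeal := hU.isLocalization_stalk ⟨y, hy⟩
        obtain ⟨⟨a, b⟩, hab⟩ := IsLocalization.surj
          (hU.primeIdealOf ⟨y, hy⟩).asIdeal.primeCompl w
        have hbu : IsUnit (X.presheaf.germ U y hy (b : Γ(X, U))) :=
          IsLocalization.map_units (X.presheaf.stalk y) b
        have hab' : w * X.presheaf.germ U y hy (b : Γ(X, U)) = X.presheaf.germ U y hy a := hab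
        refine ⟨_, ⟨a, rfl⟩, _, ⟨(b : Γ(X, U)), rfl⟩, ?_, ?_⟩
        · change V.valuation (e (X.germToFunctionField U (b : Γ(X, U)))) = 1
          rw [← hφgerm U hy, hunit]
          exact hbu
        · change e (algebraMap (X.presheaf.stalk y) X.functionField w) *
            e (X.germToFunctionField U (b : Γ(X, U))) = e (X.germToFunctionField U a)
          rw [← hφgerm U hy, ← hφgerm U hy a, hφ, hφ, ← map_mul, ← map_mul, hab']
  · intro U _ hU hle
    have hη : genericPoint X ∈ U :=
      ((genericPoint_spec X).mem_open_set_iff U.isOpen).mpr (by simpa using ‹Nonempty U›)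
    let ψ : Γ(X, U) →+* V :=
      ((e : X.functionField →+* K).comp (X.germToFunctionField U).hom).codRestrict V.toSubring
        (fun s => hle _ ⟨s, rfl⟩)
    let l' : Spec (.of V) ⟶ X := Spec.map (CommRingCat.ofHom ψ) ≫ hU.fromSpec
    have h1 : Spec.map ι ≫ l' = i₁ := by
      simp only [l', i₁]
      rw [← Category.assoc, ← Spec.map_comp]
      have h2 : CommRingCat.ofHom ψ ≫ ι = X.presheaf.germ U (genericPoint X) hη ≫ ε := by
        ext s
        rfl
      rw [h2, Spec.map_comp, Category.assoc, ← hU.fromSpecStalk_eq_fromSpecStalk hη]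
      rfl
    have h2 : l' ≫ f = i₂ := by
      have h3 : Spec.map ι ≫ l' ≫ f = Spec.map ι ≫ i₂ := by
        rw [← Category.assoc, h1]
        exact hsq.w
      obtain ⟨α, hα⟩ := Spec.map_surjective (l' ≫ f)
      rw [← hα] at h3 ⊢
      simp only [i₂] at h3 ⊢
      rw [← Spec.map_comp, ← Spec.map_comp] at h3
      have h4 := Spec.map_injective h3
      congr 1
      ext a
      exact congrArg (fun g => g.hom a) h4
    have h5 : (⟨l', h1, h2⟩ : hsq.LiftStruct) = L := huniq.uniq _
    have h6 : l' = l := congrArg CommSq.LiftStruct.l h5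
    have h7 : y = hU.fromSpec (Spec.map (CommRingCat.ofHom ψ) (IsLocalRing.closedPoint V)) := by
      simp only [y]
      rw [← h6]
      rfl
    rw [h7]
    have h8 := hU.range_fromSpec
    have h9 : hU.fromSpec (Spec.map (CommRingCat.ofHom ψ) (IsLocalRing.closedPoint V)) ∈
        Set.range hU.fromSpec := ⟨_, rfl⟩
    rw [h8] at h9
    exact h9

end DynBad
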