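import Pool.Agent.DynBad.SchChart
import Pool.Agent.DynBad.SchCentre

/-! # Module SchModel: a smooth proper integral scheme gives a `SmoothModel`. -/

namespace DynBad

open AlgebraicGeometry CategoryTheory Polynomial

theorem exists_smoothModel {p : ℕ} [Fact p.Prime] {X : Scheme.{0}} [IsIntegral X]
    (f : X ⟶ Spec (.of ℤ_[p])) [Smooth f] [IsProper f] {K : Type} [Field K] [CharZero K]
    [Algebra ℤ_[p] K]
    (e : X.functionField ≃+* K) (he : ∀ a, e (baseMap f a) = algebraMap ℤ_[p] K a)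
    (x : K) (hx : Transcendental ℤ_[p] x)
    (halg : ∀ z : K, ∃ P : ℤ_[p][X][X], P ≠ 0 ∧ ev x z P = 0) :
    Nonempty (SmoothModel p K) := by
  refine ⟨{
    charts := {S | EtaleChart S ∧ ∃ (U : X.Opens) (_ : Nonempty U), IsAffineOpen U ∧
      S = chart f e he U}
    etale := fun S hS => hS.1
    cover := ?_
    sep := ?_ }⟩
  · intro V hV
    obtain ⟨y, hy, -⟩ := exists_centre f e he V hV
    obtain ⟨U, hUn, hU, hyU, hE⟩ := exists_etale_chart f e he x hx halg y
    exact ⟨chart f e he U, ⟨hE, U, hUn, hU, rfl⟩, (hy U hU hyU).1⟩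
  · rintro S ⟨-, U, hUn, hU, rfl⟩ S' ⟨-, U', hUn', hU', rfl⟩ V hS hS'
    obtain ⟨y, hy, hy'⟩ := exists_centre f e he V hS.over
    rw [(hy U hU (hy' U hU hS)).2, (hy U' hU' (hy' U' hU' hS')).2]

end DynBad
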