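import Pool.Agent.DynBad.PhiEv

/-!
# Module SmallN: `N ≤ 3`

`Φ_1 = U`, `Φ_2 = U + X + 1` (`F_2 = Φ_1 Φ_2`), `Φ_3 = w(w-1)(w-X) + 1` with `w = U + X + 1`
(`F_3 = Φ_1 Φ_3`).  For `N = 1, 2` the derivative in `U` is `1`.  `N = 3`: at a singular point
`∂_X Φ_3 - ∂_U Φ_3 = - w(w-1)` vanishes, so `Φ_3 = 1`, contradiction.
-/

namespace DynBad

open Polynomial

private theorem FP_step (n : ℕ) : FP (n + 1) = FP n ^ 2 + C X * FP n + X := rfl

private theorem FP_z : FP 0 = 0 := rfl

private theorem FP_one' : FP 1 = X := by rw [FP_step, FP_z]; ring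

private theorem Phi_one' : Phi 1 = X := by
  have h := prod_Phi (n := 1) le_rfl
  rw [FP_one', Nat.divisors_one, Finset.prod_singleton] at h
  exact h

private theorem Phi_two' : Phi 2 = X + C X + 1 := by
  have h := prod_Phi (n := 2) (by norm_num)
  rw [Nat.Prime.divisors Nat.prime_two, Finset.prod_pair (by norm_num), Phi_one', FP_step,
    FP_one'] at h
  refine mul_left_cancel₀ (X_ne_zero : (X : ℤ[X][X]) ≠ 0) ?_
  rw [h]
  ring

private theorem Phi_three' :
    Phi 3 = X * ((X + C X + 1) * (X + C X + 1)) + C X * (X + C X + 1) + 1 := by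
  have h := prod_Phi (n := 3) (by norm_num)
  rw [Nat.Prime.divisors Nat.prime_three, Finset.prod_pair (by norm_num), Phi_one', FP_step,
    FP_step, FP_one'] at h
  refine mul_left_cancel₀ (X_ne_zero : (X : ℤ[X][X]) ≠ 0) ?_
  rw [h]
  ring

theorem smoothMod_small {N : ℕ} (hN : 1 ≤ N) (hN3 : N ≤ 3) (p : ℕ) [Fact p.Prime] :
    SmoothMod N p := by
  rintro x u ⟨h1, h2, h3⟩
  obtain rfl | rfl | rfl : N = 1 ∨ N = 2 ∨ N = 3 := by omega
  · rw [Phi_one', derivative_X, map_one] at h3
    exact one_ne_zero h3
  · rw [Phi_two', derivative_add, derivative_add, derivative_X, derivative_C, derivative_one,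
      add_zero, add_zero, map_one] at h3
    exact one_ne_zero h3
  · have e1 : u * ((u + x + 1) * (u + x + 1)) + x * (u + x + 1) + 1 = 0 := by
      rw [Phi_three'] at h1
      simpa only [map_add, map_mul, map_one, ev_X, ev_CX] using h1
    have dw : dX (X + C X + 1 : ℤ[X][X]) = 1 := by
      rw [dX_add, dX_add, dX_X, dX_C, dX_one, derivative_X]
      simp
    have dc : dX (C X : ℤ[X][X]) = 1 := by
      rw [dX_C, derivative_X]
      simp
    have e2 : u * ((u + x + 1) + (u + x + 1)) + ((u + x + 1) + x) = 0 := by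
      rw [Phi_three', dX_add, dX_add, dX_mul, dX_mul, dX_mul, dw, dc, dX_X, dX_one] at h2
      simp only [map_add, map_mul, map_one, map_zero, ev_X, ev_CX] at h2
      linear_combination h2
    have e3 : (u + x + 1) * (u + x + 1) + u * ((u + x + 1) + (u + x + 1)) + x = 0 := by
      rw [Phi_three'] at h3
      have hw : derivative (X + C X + 1 : ℤ[X][X]) = 1 := by
        rw [derivative_add, derivative_add, derivative_X, derivative_C, derivative_one]
        ring
      rw [derivative_add, derivative_add, derivative_mul, derivative_mul, derivative_mul, hw,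
        derivative_X, derivative_C, derivative_one] at h3
      simp only [map_add, map_mul, map_one, map_zero, ev_X, ev_CX] at h3
      linear_combination h3
    refine one_ne_zero (α := AlgebraicClosure (ZMod p)) ?_
    linear_combination e1 + (e2 - e3) * (u + 1)

end DynBad
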