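import Pool.Agent.DynBad.TwoSingPt

/-!
# Module TwoEven: `N = 2^k n`, `n ≥ 3` odd, `k ≥ 1`: singular mod 2

Over `𝔽_2`, `T^N - 1 = (T^n - 1)^(2^k)`, so `Q_N = (T-1)^(2^k - 1) Q_n^(2^k)`; similarly for
`d = 2^j n'`, `n' ∣ n`: `Q_d = (T-1)^(2^j-1) Q_{n'}^(2^j)`.  Take `m = T - 1` (`X + 1`, divides
`Q_N` as `k ≥ 1`), `ζ = 1 ∈ k = AlgebraicClosure (ZMod 2)`, and `P` an irreducible factor of
`cyclotomic n (ZMod 2)` (`n ≥ 3`, so `P ≠ T - 1`, `P(1) ≠ 0`).  By `MM_ker` there is `w ≠ 0` with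
`P(MM 1) w = 0` and by `MM_surj` there is `u` with `P(MM 1)^(2^k - 1) u = w`.  `P^(2^k) ∣ Q_N` so
`F 1 u N = 0`.  For a proper divisor `d = 2^j n'` of `N` the multiplicity of `P` in `Q_d` is at
most `2^k - 1` (`0` if `n' ≠ n`, as `P` is coprime to `T^(n') - 1`; `2^j ≤ 2^(k-1)` if `n' = n`,
`P` a simple factor of `Q_n`).  If `Q_d(MM 1) u = 0` then with `P^(2^k)(MM 1) u = 0` and Bezout
(`gcd(Q_d, P^(2^k)) ∣ P^(2^k-1)`) we get `w = P^(2^k-1)(MM 1) u = 0`, contradiction.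
Apply `sing_of_root` with `ζ = 1`.
-/

namespace DynBad

open Polynomial Finset

lemma Qn_mul (n : ℕ) : Qn n * (X - 1) = X ^ n - 1 := by rw [Qn]; exact geom_sum_mul X n

lemma X_pow_sub_one_two (n k : ℕ) :
    (X ^ (2 ^ k * n) - 1 : (ZMod 2)[X]) = (X ^ n - 1) ^ 2 ^ k := by
  rw [sub_pow_expChar_pow, one_pow, ← pow_mul, mul_comm]

lemma aeval_irr_primitive {n : ℕ} (hn : Odd n) {P : (ZMod 2)[X]}
    (hPN : P ∣ cyclotomic n (ZMod 2)) (z : AlgebraicClosure (ZMod 2)) (hz : aeval z P = 0) :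
    IsPrimitiveRoot z n := by
  have hne : NeZero ((n : ℕ) : AlgebraicClosure (ZMod 2)) := by
    refine ⟨fun h => ?_⟩
    have h2 := (CharP.cast_eq_zero_iff (AlgebraicClosure (ZMod 2)) 2 n).mp h
    rw [Nat.odd_iff] at hn
    omega
  rw [← isRoot_cyclotomic_iff, IsRoot.def, ← map_cyclotomic n (algebraMap (ZMod 2) _),
    eval_map_algebraMap]
  exact aeval_eq_zero_of_dvd_aeval_eq_zero hPN hz

lemma exists_root_irr' (m : (ZMod 2)[X]) (hm : Irreducible m) :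
    ∃ ζ : AlgebraicClosure (ZMod 2), aeval ζ m = 0 := by
  have hdeg' : (m.map (algebraMap (ZMod 2) (AlgebraicClosure (ZMod 2)))).degree ≠ 0 := by
    rw [degree_map]
    intro h
    have := natDegree_eq_of_degree_eq_some (n := 0) (by simpa using h)
    have := hm.natDegree_pos
    omega
  obtain ⟨z, hz⟩ := IsAlgClosed.exists_root _ hdeg'
  exact ⟨z, by rw [IsRoot.def, eval_map_algebraMap] at hz; exact hz⟩

lemma cyclotomic_dvd_Qn' {N : ℕ} (hN : 1 ≤ N) (h1 : N ≠ 1) :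
    cyclotomic N (ZMod 2) ∣ Qn N := by
  have h := prod_cyclotomic_eq_geom_sum (show 0 < N by omega) (ZMod 2)
  rw [Qn, ← h]
  apply Finset.dvd_prod_of_mem
  rw [mem_erase, Nat.mem_divisors]
  exact ⟨h1, dvd_rfl, by omega⟩

lemma not_pow_dvd_Qn {N k n : ℕ} (hN : N = 2 ^ k * n) (hn : Odd n) (hn3 : 3 ≤ n)
    {P : (ZMod 2)[X]} (hP : Irreducible P) (hPn : P ∣ cyclotomic n (ZMod 2)) {d : ℕ}
    (hd : d ∣ N) (hdN : d < N) : ¬ P ^ 2 ^ k ∣ Qn d := by
  intro hdvd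
  have hP1 : P ∣ Qn d := (dvd_pow_self P (by positivity)).trans hdvd
  obtain ⟨z, hz⟩ := exists_root_irr' P hP
  have hz2 := aeval_irr_primitive hn hPn z hz
  have hz3 : aeval z (Qn d) = 0 := aeval_eq_zero_of_dvd_aeval_eq_zero hP1 hz
  have hz4 : z ^ d = 1 := by
    have h6 := congrArg (aeval z) (Qn_mul d)
    rw [map_mul, hz3, zero_mul] at h6
    simp only [map_sub, map_pow, aeval_X, map_one] at h6
    exact (sub_eq_zero.mp h6.symm)
  have hnd : n ∣ d := hz2.dvd_of_pow_eq_one d hz4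
  obtain ⟨e, rfl⟩ := hnd
  have he : e ∣ 2 ^ k := by
    rw [hN, mul_comm (2 ^ k)] at hd
    exact Nat.dvd_of_mul_dvd_mul_left (show 0 < n by omega) hd
  obtain ⟨j, hjk, rfl⟩ := (Nat.dvd_prime_pow Nat.prime_two).mp he
  have hjk' : j < k := by
    rcases lt_or_eq_of_le hjk with h | h
    · exact h
    · subst h; rw [hN, mul_comm] at hdN; exact absurd hdN (lt_irrefl _)
  have h1 : P ^ 2 ^ k ∣ (X ^ n - 1) ^ 2 ^ j := by
    rw [← X_pow_sub_one_two n j, ← Qn_mul (2 ^ j * n), mul_comm (2 ^ j) n]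
    exact hdvd.mul_right _
  have hne : NeZero ((n : ℕ) : ZMod 2) := by
    refine ⟨fun h => ?_⟩
    have h2 := (CharP.cast_eq_zero_iff (ZMod 2) 2 n).mp h
    rw [Nat.odd_iff] at hn
    omega
  have hsep : (X ^ n - 1 : (ZMod 2)[X]).Separable :=
    X_pow_sub_one_separable_iff.mpr hne.out
  have hPd : P ∣ X ^ n - 1 := hPn.trans (cyclotomic.dvd_X_pow_sub_one n (ZMod 2))
  obtain ⟨B, hB⟩ := hPd
  rw [hB] at hsep h1
  have hcop := hsep.isCoprime
  rw [mul_pow] at h1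
  have hlt : 2 ^ j < 2 ^ k := Nat.pow_lt_pow_right (by norm_num) hjk'
  obtain ⟨c, hc⟩ : ∃ c, 2 ^ k = 2 ^ j + (c + 1) := ⟨2 ^ k - 2 ^ j - 1, by omega⟩
  rw [hc, pow_add] at h1
  have h2 : P ^ (c + 1) ∣ B ^ 2 ^ j :=
    (mul_dvd_mul_iff_left (pow_ne_zero _ hP.ne_zero)).mp h1
  have h3 : P ∣ B ^ 2 ^ j := (dvd_pow_self P (by omega)).trans h2
  have h4 : IsCoprime P (B ^ 2 ^ j) := hcop.pow_right
  exact hP.not_isUnit (h4.isUnit_of_dvd' dvd_rfl h3)

theorem sing_two_even {N k n : ℕ} (hN : N = 2 ^ k * n) (hk : 1 ≤ k) (hn : Odd n) (hn3 : 3 ≤ n) :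
    ¬ SmoothMod N 2 := by
  intro hsm
  have hNpos : 1 ≤ N := by rw [hN]; exact Nat.mul_pos (by positivity) (by omega)
  have hpos : 0 < (cyclotomic n (ZMod 2)).natDegree := by
    rw [natDegree_cyclotomic]; exact Nat.totient_pos.mpr (by omega)
  obtain ⟨P, hP, hPn⟩ := exists_irreducible_of_natDegree_pos hpos
  have hPdeg : 1 ≤ P.natDegree := hP.natDegree_pos
  have hP1 : aeval (1 : AlgebraicClosure (ZMod 2)) P ≠ 0 := by
    intro h
    have h1 := aeval_irr_primitive hn hPn 1 h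
    have h2 := h1.unique (IsPrimitiveRoot.one)
    omega
  obtain ⟨w, hw, hPw⟩ := MM_ker (1 : AlgebraicClosure (ZMod 2)) P hPdeg hP1
  obtain ⟨u, hu⟩ := MM_surj (1 : AlgebraicClosure (ZMod 2)) (P ^ (2 ^ k - 1))
    (pow_ne_zero _ hP.ne_zero) w
  have h2k : 1 ≤ 2 ^ k := Nat.one_le_two_pow
  have hPk : aeval (MM (1 : AlgebraicClosure (ZMod 2))) (P ^ 2 ^ k) u = 0 := by
    obtain ⟨c, hc⟩ : ∃ c, 2 ^ k = c + 1 := ⟨2 ^ k - 1, by omega⟩
    have hc' : 2 ^ k - 1 = c := by omega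
    rw [hc, pow_succ', map_mul, Module.End.mul_apply, ← hc', hu, hPw]
  have hQN : P ^ 2 ^ k ∣ Qn N := by
    have h1 : Qn N * (X - 1) = (Qn n) ^ 2 ^ k * (X - 1) ^ 2 ^ k := by
      rw [Qn_mul, hN, X_pow_sub_one_two, ← Qn_mul n, mul_pow]
    obtain ⟨c, hc⟩ : ∃ c, 2 ^ k = c + 1 := ⟨2 ^ k - 1, by omega⟩
    have h2 : Qn N = (Qn n) ^ 2 ^ k * (X - 1) ^ c := by
      have h3 : (X - 1 : (ZMod 2)[X]) ≠ 0 := by
        have := X_sub_C_ne_zero (1 : ZMod 2)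
        simpa using this
      apply mul_right_cancel₀ h3
      rw [h1, mul_assoc, ← pow_succ, ← hc]
    rw [h2]
    apply Dvd.dvd.mul_right
    apply pow_dvd_pow_of_dvd
    exact hPn.trans (cyclotomic_dvd_Qn' (by omega) (by omega))
  have hF : F (1 : AlgebraicClosure (ZMod 2)) u N = 0 := by
    obtain ⟨R, hR⟩ := hQN
    rw [F_eq_MM, hR, mul_comm, map_mul, Module.End.mul_apply, hPk, map_zero]
  have hm : Irreducible (X - 1 : (ZMod 2)[X]) := by
    have := irreducible_X_sub_C (1 : ZMod 2)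
    simpa using this
  have hmQ : (X - 1 : (ZMod 2)[X]) ∣ Qn N := by
    have h1 : (X - C 1 : (ZMod 2)[X]) ∣ Qn N := by
      rw [dvd_iff_isRoot, IsRoot.def, Qn, eval_finsetSum]
      simp only [eval_pow, eval_X, one_pow, sum_const, card_range, nsmul_eq_mul, mul_one]
      rw [CharP.cast_eq_zero_iff (ZMod 2) 2 N, hN]
      exact Dvd.dvd.mul_right (dvd_pow_self 2 (by omega)) n
    simpa using h1
  have hFd : ∀ d, d ∣ N → d < N → F (1 : AlgebraicClosure (ZMod 2)) u d ≠ 0 := by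
    intro d hd hdN h0
    have hnot := not_pow_dvd_Qn hN hn hn3 hP hPn hd hdN
    rw [F_eq_MM] at h0
    have hg1 : EuclideanDomain.gcd (P ^ 2 ^ k) (Qn d) ∣ P ^ 2 ^ k :=
      EuclideanDomain.gcd_dvd_left _ _
    have hg2 : EuclideanDomain.gcd (P ^ 2 ^ k) (Qn d) ∣ Qn d :=
      EuclideanDomain.gcd_dvd_right _ _
    obtain ⟨i, hi, hassoc⟩ := (dvd_prime_pow hP.prime _).mp hg1
    have hi' : i ≤ 2 ^ k - 1 := by
      by_contra hcon
      have : i = 2 ^ k := by omega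
      rw [this] at hassoc
      exact hnot (hassoc.symm.dvd.trans hg2)
    have hdv : EuclideanDomain.gcd (P ^ 2 ^ k) (Qn d) ∣ P ^ (2 ^ k - 1) :=
      hassoc.dvd.trans (pow_dvd_pow P hi')
    obtain ⟨c, hc⟩ := hdv
    have hb := EuclideanDomain.gcd_eq_gcd_ab (P ^ 2 ^ k) (Qn d)
    have hg0 : aeval (MM (1 : AlgebraicClosure (ZMod 2)))
        (EuclideanDomain.gcd (P ^ 2 ^ k) (Qn d)) u = 0 := by
      rw [hb, mul_comm (P ^ 2 ^ k), mul_comm (Qn d), map_add, map_mul, map_mul,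
        LinearMap.add_apply, Module.End.mul_apply, Module.End.mul_apply, hPk, h0, map_zero,
        map_zero, add_zero]
    rw [hc, mul_comm, map_mul, Module.End.mul_apply, hg0, map_zero] at hu
    exact hw hu.symm
  exact hsm 1 u (sing_of_root hNpos (X - 1) hm hmQ 1 u (by simp) hF hFd)

end DynBad
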