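import Pool.Agent.DynBad.TwoSingPt

/-!
# Module TwoOdd: `N` odd, not (prime with primitive root 2): singular mod 2

`k = AlgebraicClosure (ZMod 2)`.  `N` odd so `T^N - 1` is separable over `𝔽_2`,
`Q_N = ∏_{1 < d ∣ N} Ψ_d`, `Ψ_d = cyclotomic d (ZMod 2)`, and the roots of `Ψ_d` in `k` are the
elements of order `d`.  Choose an irreducible factor `P` of `Ψ_N` and an irreducible factor `m ≠ P`
of `Q_N`: if `N` is not prime take `m ∣ Ψ_d`, `1 < d < N`; if `N` is prime, `Ψ_N = Q_N` is not
irreducible because the degree of an irreducible factor is `orderOf (2 : ZMod N) < N - 1` (a root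
`ζ` of order `N` satisfies `ζ^(2^o) = ζ`, `o = orderOf 2`, so its minimal polynomial has degree
`≤ o`), take another irreducible factor (distinct by separability).
Let `ζ ∈ k` be a root of `m`; `P(ζ) ≠ 0` (`P ≠ m` irreducible).  `MM_ker` gives `u ≠ 0` with
`aeval (MM ζ) P u = 0`.  `P ∣ Q_N` gives `F ζ u N = 0`.  For `d ∣ N`, `d < N`, `P` and `Q_d` are
coprime (the roots of `Q_d` are `d`-th roots of unity), so `aeval (MM ζ) Q_d u = 0` would give
`u = 0` by Bezout.  Apply `sing_of_root`.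
-/

namespace DynBad

open Polynomial Finset

lemma cyclotomic_dvd_Qn {N d : ℕ} (hN : 1 ≤ N) (hd : d ∣ N) (h1 : d ≠ 1) :
    cyclotomic d (ZMod 2) ∣ Qn N := by
  have h := prod_cyclotomic_eq_geom_sum (show 0 < N by omega) (ZMod 2)
  rw [Qn, ← h]
  apply Finset.dvd_prod_of_mem
  rw [mem_erase, Nat.mem_divisors]
  exact ⟨h1, hd, by omega⟩

/-- main construction -/
lemma sing_two_aux {N : ℕ} (hN : 3 ≤ N) (hodd : Odd N) (P m : (ZMod 2)[X]) (hP : Irreducible P)
    (hPN : P ∣ cyclotomic N (ZMod 2)) (hm : Irreducible m) (hmQ : m ∣ Qn N)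
    (ζ : AlgebraicClosure (ZMod 2)) (hζ : aeval ζ m = 0) (hPζ : aeval ζ P ≠ 0) :
    ¬ SmoothMod N 2 := by
  intro hsm
  have hne : NeZero ((N : ℕ) : AlgebraicClosure (ZMod 2)) := by
    refine ⟨fun h => ?_⟩
    have h2 := (CharP.cast_eq_zero_iff (AlgebraicClosure (ZMod 2)) 2 N).mp h
    rw [Nat.odd_iff] at hodd
    omega
  have hPQ : P ∣ Qn N := hPN.trans (cyclotomic_dvd_Qn (by omega) dvd_rfl (by omega))
  have hdeg : 1 ≤ P.natDegree := hP.natDegree_pos
  obtain ⟨u, hu, hPu⟩ := MM_ker ζ P hdeg hPζ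
  have hF : F ζ u N = 0 := by
    obtain ⟨R, hR⟩ := hPQ
    rw [F_eq_MM, hR, mul_comm, map_mul, Module.End.mul_apply, hPu, map_zero]
  have hFd : ∀ d, d ∣ N → d < N → F ζ u d ≠ 0 := by
    intro d hd hdN h0
    have hd0 : 0 < d := Nat.pos_of_dvd_of_pos hd (by omega)
    have hnd : ¬ P ∣ Qn d := by
      intro hdvd
      have hdeg' : (P.map (algebraMap (ZMod 2) (AlgebraicClosure (ZMod 2)))).degree ≠ 0 := by
        rw [degree_map]
        intro h
        have := natDegree_eq_of_degree_eq_some (n := 0) (by simpa using h)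
        omega
      obtain ⟨z, hz⟩ := IsAlgClosed.exists_root _ hdeg'
      have hz1 : aeval z P = 0 := by
        rw [IsRoot.def, eval_map_algebraMap] at hz; exact hz
      have hz2 : IsPrimitiveRoot z N := by
        rw [← isRoot_cyclotomic_iff, IsRoot.def, ← map_cyclotomic N (algebraMap (ZMod 2) _),
          eval_map_algebraMap]
        exact aeval_eq_zero_of_dvd_aeval_eq_zero hPN hz1
      have hz3 : aeval z (Qn d) = 0 := aeval_eq_zero_of_dvd_aeval_eq_zero hdvd hz1
      have hz4 : z ^ d = 1 := by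
        have h5 : (Qn d) * (X - 1) = X ^ d - 1 := by rw [Qn]; exact geom_sum_mul X d
        have h6 := congrArg (aeval z) h5
        rw [map_mul, hz3, zero_mul] at h6
        simp only [map_sub, map_pow, aeval_X, map_one] at h6
        exact (sub_eq_zero.mp h6.symm)
      have h7 := hz2.dvd_of_pow_eq_one d hz4
      have := Nat.le_of_dvd hd0 h7
      omega
    obtain ⟨a, b, hab⟩ := (hP.coprime_iff_not_dvd.mpr hnd)
    rw [F_eq_MM] at h0
    have h8 : u = aeval (MM ζ) (a * P + b * Qn d) u := by rw [hab]; simp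
    rw [map_add, map_mul, map_mul, LinearMap.add_apply, Module.End.mul_apply,
      Module.End.mul_apply, hPu, h0, map_zero, map_zero, add_zero] at h8
    exact hu h8
  exact hsm ζ u (sing_of_root (by omega) m hm hmQ ζ u hζ hF hFd)

lemma exists_root_irr (m : (ZMod 2)[X]) (hm : Irreducible m) :
    ∃ ζ : AlgebraicClosure (ZMod 2), aeval ζ m = 0 := by
  have hdeg' : (m.map (algebraMap (ZMod 2) (AlgebraicClosure (ZMod 2)))).degree ≠ 0 := by
    rw [degree_map]
    intro h
    have := natDegree_eq_of_degree_eq_some (n := 0) (by simpa using h)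
    have := hm.natDegree_pos
    omega
  obtain ⟨z, hz⟩ := IsAlgClosed.exists_root _ hdeg'
  exact ⟨z, by rw [IsRoot.def, eval_map_algebraMap] at hz; exact hz⟩

theorem sing_two_odd {N : ℕ} (hN : 3 ≤ N) (hodd : Odd N)
    (h : ¬ (N.Prime ∧ orderOf (2 : ZMod N) = N - 1)) : ¬ SmoothMod N 2 := by
  have h2N : ¬ 2 ∣ N := by rw [Nat.odd_iff] at hodd; omega
  have hcop : Nat.Coprime 2 N := (Nat.prime_two.coprime_iff_not_dvd).mpr h2N
  have hpos : 0 < (cyclotomic N (ZMod 2)).natDegree := by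
    rw [natDegree_cyclotomic]; exact Nat.totient_pos.mpr (by omega)
  obtain ⟨P, hP, hPN⟩ := exists_irreducible_of_natDegree_pos hpos
  have hne : NeZero ((N : ℕ) : AlgebraicClosure (ZMod 2)) := by
    refine ⟨fun h => h2N ?_⟩
    exact (CharP.cast_eq_zero_iff (AlgebraicClosure (ZMod 2)) 2 N).mp h
  by_cases hp : N.Prime
  · have ho : orderOf (2 : ZMod N) ≠ N - 1 := fun h' => h ⟨hp, h'⟩
    have hPdeg : P.natDegree = orderOf (2 : ZMod N) := by
      rw [natDegree_of_dvd_cyclotomic_of_irreducible (K := ZMod 2) (p := 2) (f := 1) (by simp)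
        hcop hPN hP]
      rw [← orderOf_units, ZMod.coe_unitOfCoprime]
      norm_num
    obtain ⟨R, hR⟩ := hPN
    have hR0 : R ≠ 0 := by
      rintro rfl
      rw [mul_zero] at hR
      exact cyclotomic_ne_zero N (ZMod 2) hR
    have hRdeg : 0 < R.natDegree := by
      by_contra hcon
      have h3 := congrArg natDegree hR
      rw [natDegree_mul hP.ne_zero hR0, natDegree_cyclotomic, Nat.totient_prime hp, hPdeg] at h3
      omega
    obtain ⟨m, hm, hmR⟩ := exists_irreducible_of_natDegree_pos hRdeg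
    obtain ⟨ζ, hζ⟩ := exists_root_irr m hm
    have hRζ : aeval ζ R = 0 := aeval_eq_zero_of_dvd_aeval_eq_zero hmR hζ
    have hne' : NeZero ((N : ℕ) : ZMod 2) := by
      refine ⟨fun h => h2N ?_⟩
      exact (CharP.cast_eq_zero_iff (ZMod 2) 2 N).mp h
    have hsep := separable_cyclotomic N (ZMod 2)
    rw [hR] at hsep
    obtain ⟨a, b, hab⟩ := hsep.isCoprime
    have hPζ : aeval ζ P ≠ 0 := by
      intro h0
      have h4 := congrArg (aeval ζ) hab
      rw [map_add, map_mul, map_mul, h0, hRζ, mul_zero, mul_zero, add_zero, map_one] at h4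
      exact zero_ne_one h4
    refine sing_two_aux hN hodd P m hP ⟨R, hR⟩ hm ?_ ζ hζ hPζ
    have h5 : m ∣ cyclotomic N (ZMod 2) := by rw [hR]; exact hmR.mul_left P
    exact h5.trans (cyclotomic_dvd_Qn (by omega) dvd_rfl (by omega))
  · obtain ⟨d, hd, hd2, hdN⟩ := Nat.exists_dvd_of_not_prime2 (by omega) hp
    have hposd : 0 < (cyclotomic d (ZMod 2)).natDegree := by
      rw [natDegree_cyclotomic]; exact Nat.totient_pos.mpr (by omega)
    obtain ⟨m, hm, hmd⟩ := exists_irreducible_of_natDegree_pos hposd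
    obtain ⟨ζ, hζ⟩ := exists_root_irr m hm
    have h2d : ¬ 2 ∣ d := fun h' => h2N (h'.trans hd)
    have hned : NeZero ((d : ℕ) : AlgebraicClosure (ZMod 2)) := by
      refine ⟨fun h => h2d ?_⟩
      exact (CharP.cast_eq_zero_iff (AlgebraicClosure (ZMod 2)) 2 d).mp h
    have hz : ∀ n : ℕ, (NeZero ((n : ℕ) : AlgebraicClosure (ZMod 2))) → ∀ Q : (ZMod 2)[X],
        Q ∣ cyclotomic n (ZMod 2) → aeval ζ Q = 0 → IsPrimitiveRoot ζ n := by
      intro n hn Q hQ hQζ
      rw [← isRoot_cyclotomic_iff, IsRoot.def, ← map_cyclotomic n (algebraMap (ZMod 2) _),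
        eval_map_algebraMap]
      exact aeval_eq_zero_of_dvd_aeval_eq_zero hQ hQζ
    refine sing_two_aux hN hodd P m hP hPN hm
      (hmd.trans (cyclotomic_dvd_Qn (by omega) hd (by omega))) ζ hζ ?_
    intro h0
    have h6 := hz N hne P hPN h0
    have h7 := hz d hned m hmd hζ
    have := h6.unique h7
    omega

end DynBad
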