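import Pool.Agent.DynBad.Carlitz

/-!
# Module TwoPow: `N = 2^k`, `k ≥ 2`: singular mod 2 at `(1, 0)`

`prod_Phi` for `N` and `N/2` gives `FP N = Phi N * FP (N/2)` (the divisors of `2^k` are those of
`2^(k-1)` and `2^k`).  Over an `𝔽_2`-algebra `E` let `𝓔 w = MM x w + w = w (w + x + 1)`.  Since
`Q_N = (T-1)^(N-1)` over `𝔽_2` for `N = 2^k`, `F x u N = 𝓔^(N-1) u`, `F x u (N/2) = 𝓔^(N/2-1) u`
and `𝓔^(i+1) u = 𝓔^i u (𝓔^i u + x + 1)`, so in `E = 𝔽_2[X][U]` (a domain, `x = X`, `u = U`)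
`Φ_N = ∏_{i=N/2-1}^{N-2} (𝓔^i U + X + 1)`, a product of `N/2 ≥ 2` polynomials all vanishing at
`(X,U) = (1,0)` (`𝓔^i 0 = 0`).  Hence `Φ_N` and both partial derivatives vanish at `(1,0)`
(e.g. evaluate in the dual numbers: `Φ_N(1 + ε x', ε u') = 0`, by `ev_add_sq_zero`).
-/

namespace DynBad

open Polynomial Finset

/-- iterates of `w ↦ w (w + x - 1)` -/
def ee {E : Type*} [CommRing E] (x u : E) : ℕ → E
  | 0 => u
  | n + 1 => ee x u n * (ee x u n + x - 1)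

lemma map_ee {E E' : Type*} [CommRing E] [CommRing E'] (φ : E →+* E') (x u : E) (n : ℕ) :
    φ (ee x u n) = ee (φ x) (φ u) n := by
  induction n with
  | zero => rfl
  | succ n ih => simp only [ee, map_mul, map_sub, map_add, map_one, ih]

lemma ee_add {E : Type*} [CommRing E] (x u : E) (a b : ℕ) :
    ee x u (a + b) = ee x u a * ∏ i ∈ range b, (ee x u (a + i) + x - 1) := by
  induction b with
  | zero => simp
  | succ b ih => rw [← add_assoc, ee, ih, prod_range_succ, mul_assoc, ← ih]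

lemma aeval_pow_eq_ee {E : Type*} [CommRing E] [Algebra (ZMod 2) E] (x u : E) (i : ℕ) :
    aeval (MM x) ((X - 1 : (ZMod 2)[X]) ^ i) u = ee x u i := by
  induction i with
  | zero => simp [ee]
  | succ i ih =>
    rw [pow_succ', map_mul, Module.End.mul_apply, ih, map_sub, aeval_X, map_one,
      LinearMap.sub_apply, Module.End.one_apply, MM_apply, ee]
    ring

lemma Qn_two_pow (j : ℕ) : Qn (2 ^ j) = (X - 1) ^ (2 ^ j - 1) := by
  have h3 : (X - 1 : (ZMod 2)[X]) ≠ 0 := by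
    have := X_sub_C_ne_zero (1 : ZMod 2)
    simpa using this
  apply mul_right_cancel₀ h3
  have h1 : Qn (2 ^ j) * (X - 1) = X ^ 2 ^ j - 1 := by rw [Qn]; exact geom_sum_mul X _
  have h2 : 2 ^ j - 1 + 1 = 2 ^ j := Nat.sub_add_cancel Nat.one_le_two_pow
  rw [h1, ← pow_succ, h2, sub_pow_expChar_pow, one_pow]

lemma F_two_pow {E : Type*} [CommRing E] [Algebra (ZMod 2) E] (x u : E) (j : ℕ) :
    F x u (2 ^ j) = ee x u (2 ^ j - 1) := by
  rw [F_eq_MM, Qn_two_pow, aeval_pow_eq_ee]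

lemma F_one_one_two {n : ℕ} (hn : 1 ≤ n) : F (1 : ZMod 2) 1 n = 1 := by
  induction n, hn using Nat.le_induction with
  | base => simp
  | succ n _ ih => rw [F_succ, ih]; decide

lemma Phi_two_pow_dom {E : Type*} [CommRing E] [IsDomain E] [Algebra (ZMod 2) E] (x0 u0 : E)
    (j : ℕ) (h3 : F x0 u0 (2 ^ j) ≠ 0) :
    ev x0 u0 (Phi (2 ^ (j + 1))) =
      ∏ i ∈ range (2 ^ j), (ee x0 u0 (2 ^ j - 1 + i) + x0 - 1) := by
  have h1 := prod_ev_Phi x0 u0 (n := 2 ^ (j + 1)) Nat.one_le_two_pow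
  have h2 := prod_ev_Phi x0 u0 (n := 2 ^ j) Nat.one_le_two_pow
  rw [Nat.prod_divisors_prime_pow Nat.prime_two] at h1 h2
  rw [prod_range_succ, h2] at h1
  apply mul_left_cancel₀ h3
  rw [h1, F_two_pow, F_two_pow, ← ee_add]
  congr 1
  have : 1 ≤ 2 ^ j := Nat.one_le_two_pow
  rw [pow_succ]
  omega

lemma F_univ_ne_zero {n : ℕ} (hn : 1 ≤ n) : F (C X : (ZMod 2)[X][X]) X n ≠ 0 := by
  intro h0
  have h4 := congrArg (ev (R := ZMod 2) (1 : ZMod 2) 1) h0
  rw [map_F, map_zero] at h4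
  have h5 : ev (R := ZMod 2) (1 : ZMod 2) 1 (C X : (ZMod 2)[X][X]) = 1 := by simp
  have h6 : ev (R := ZMod 2) (1 : ZMod 2) 1 (X : (ZMod 2)[X][X]) = 1 := by simp
  rw [h5, h6, F_one_one_two hn] at h4
  exact one_ne_zero h4

lemma ev_Phi_two_pow {E : Type*} [CommRing E] [Algebra (ZMod 2) E] (x u : E) (j : ℕ) :
    ev x u (Phi (2 ^ (j + 1))) = ∏ i ∈ range (2 ^ j), (ee x u (2 ^ j - 1 + i) + x - 1) := by
  have h := congrArg (ev (R := ZMod 2) x u) (Phi_two_pow_dom (C X : (ZMod 2)[X][X]) X j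
    (F_univ_ne_zero Nat.one_le_two_pow))
  rw [ev_comp_int] at h
  have h5 : ev (R := ZMod 2) x u (C X) = x := by simp
  have h6 : ev (R := ZMod 2) x u X = u := by simp
  rw [h5, h6] at h
  rw [h, map_prod]
  apply Finset.prod_congr rfl
  intro i _
  rw [map_sub, map_add, map_ee, h5, h6, map_one]

/-- in the dual numbers everything on `ε` is killed -/
lemma ee_mem {E : Type*} [CommRing E] (ε x' u' : E) (i : ℕ) :
    ∃ c, ee (1 + ε * x') (ε * u') i = ε * c := by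
  induction i with
  | zero => exact ⟨u', rfl⟩
  | succ i ih =>
    obtain ⟨c, hc⟩ := ih
    exact ⟨c * (ε * c + (1 + ε * x') - 1), by rw [ee, hc]; ring⟩

lemma ev_Phi_two_pow_zero {E : Type*} [CommRing E] [Algebra (ZMod 2) E] (ε x' u' : E)
    (hε : ε * ε = 0) {j : ℕ} (hj : 1 ≤ j) :
    ev (1 + ε * x') (ε * u') (Phi (2 ^ (j + 1))) = 0 := by
  rw [ev_Phi_two_pow]
  have h2 : 2 ≤ 2 ^ j := by
    calc 2 = 2 ^ 1 := by norm_num
      _ ≤ 2 ^ j := Nat.pow_le_pow_right (by norm_num) hj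
  obtain ⟨c, hc⟩ : ∃ c, 2 ^ j = c + 1 + 1 := ⟨2 ^ j - 2, by omega⟩
  rw [hc, prod_range_succ, prod_range_succ]
  obtain ⟨a, ha⟩ := ee_mem ε x' u' (c + 1 + 1 - 1 + c)
  obtain ⟨b, hb⟩ := ee_mem ε x' u' (c + 1 + 1 - 1 + (c + 1))
  rw [ha, hb]
  linear_combination (∏ x ∈ range c, (ee (1 + ε * x') (ε * u') (c + 1 + 1 - 1 + x) +
    (1 + ε * x') - 1)) * (a + x') * (b + x') * hε

lemma key_generic {k D : Type*} [Field k] [CommRing D] [Algebra (ZMod 2) D] (φ : k →+* D)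
    (ε : D) (hε : ε * ε = 0) (hφ : ∀ a b : k, φ a + ε * φ b = 0 → a = 0 ∧ b = 0) {j : ℕ}
    (hj : 1 ≤ j) : Sing (2 ^ (j + 1)) (1 : k) 0 := by
  have key : ∀ x' u' : k, (ev (1 : k) 0 (Phi (2 ^ (j + 1))) = 0) ∧
      x' * ev (1 : k) 0 (dX (Phi (2 ^ (j + 1)))) +
        u' * ev (1 : k) 0 (derivative (Phi (2 ^ (j + 1)))) = 0 := by
    intro x' u'
    have h1 := ev_Phi_two_pow_zero ε (φ x') (φ u') hε hj
    have h2 := ev_add_sq_zero (1 : D) 0 hε (φ x') (φ u') (Phi (2 ^ (j + 1)))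
    rw [zero_add, h1] at h2
    have h3 : ∀ P : ℤ[X][X], ev (1 : D) 0 P = φ (ev (1 : k) 0 P) := by
      intro P
      have := ev_comp_int φ 1 0 P
      rw [map_one, map_zero] at this
      exact this.symm
    rw [h3, h3, h3, ← map_mul, ← map_mul, ← map_add] at h2
    exact hφ _ _ h2.symm
  refine ⟨(key 0 0).1, ?_, ?_⟩
  · simpa using (key 1 0).2
  · simpa using (key 0 1).2

theorem sing_two_pow {k : ℕ} (hk : 2 ≤ k) : ¬ SmoothMod (2 ^ k) 2 := by
  intro hsm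
  obtain ⟨j, rfl⟩ : ∃ j, k = j + 1 := ⟨k - 1, by omega⟩
  apply hsm 1 0
  have he : (DualNumber.eps : DualNumber (AlgebraicClosure (ZMod 2))) * DualNumber.eps = 0 :=
    DualNumber.eps_mul_eps
  refine key_generic (TrivSqZeroExt.inlHom (AlgebraicClosure (ZMod 2))
        (AlgebraicClosure (ZMod 2))) DualNumber.eps he ?_ (by omega)
  intro a b hab
  have h4 := congrArg TrivSqZeroExt.fst hab
  have h5 := congrArg TrivSqZeroExt.snd hab
  refine ⟨by simpa using h4, by simpa using h5⟩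

end DynBad
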