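import Pool.Agent.DynBad.TwoSmooth
import Pool.Agent.DynBad.TwoOdd
import Pool.Agent.DynBad.TwoEven
import Pool.Agent.DynBad.TwoPow

/-! # Module TwoIff: smoothness mod 2 for `N ≥ 4` (assembly; write `N = 2^k n`, `n` odd). -/

namespace DynBad

theorem smoothMod_two_iff {N : ℕ} (hN : 4 ≤ N) :
    SmoothMod N 2 ↔ N.Prime ∧ orderOf (2 : ZMod N) = N - 1 := by
  constructor
  · intro hs
    by_contra h
    rcases Nat.even_or_odd N with he | ho
    · obtain ⟨k, n, hn, hNe⟩ := Nat.exists_eq_two_pow_mul_odd (n := N) (by omega)
      have hk : 1 ≤ k := by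
        rcases Nat.eq_zero_or_pos k with h0 | h0
        · subst h0
          rw [pow_zero, one_mul] at hNe
          subst hNe
          exact absurd he (Nat.not_even_iff_odd.2 hn)
        · exact h0
      by_cases hn3 : 3 ≤ n
      · exact sing_two_even hNe hk hn hn3 hs
      · have hn1 : n = 1 := by
          rcases hn with ⟨m, hm⟩
          omega
        subst hn1
        rw [mul_one] at hNe
        have hk2 : 2 ≤ k := by
          by_contra hk2
          have hk1 : k = 1 := by omega
          subst hk1
          omega
        rw [hNe] at hs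
        exact sing_two_pow hk2 hs
    · exact sing_two_odd (by omega) ho h hs
  · rintro ⟨h1, h2⟩
    exact smooth_two (by omega) h1 h2

end DynBad
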