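import Pool.Agent.DynBad.MkDynField
import Pool.Agent.DynBad.ConvSing
import Pool.Agent.DynBad.SmallN
import Pool.Agent.DynBad.FinitePrimes
import Pool.Agent.DynBad.TwoIff
import Pool.Agent.DynBad.BadFinal
import Pool.Agent.DynBad.GoodFinal
import Pool.Agent.DynBad.SchModel

/-! # Module Main: the criterion for good reduction (assembly). -/

namespace DynBad

open Polynomial AlgebraicGeometry CategoryTheory

theorem hasGoodReduction_iff_smoothMod {N : ℕ} (hN : 1 ≤ N) (p : ℕ) [Fact p.Prime] :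
    HasGoodReduction N p ↔ SmoothMod N p := by
  have hdom : IsDomain (AdjoinRoot (dynatomicOver N ℚ_[p])) := coordRing_isDomain hN
  obtain ⟨D⟩ := exists_dynField (p := p) hN
  have : CharZero (FunField N ℚ_[p]) := D.charZero
  constructor
  · rintro ⟨X, hX, f, hf, hf', e, he⟩
    rcases Nat.lt_or_ge 3 N with h3 | h3
    · obtain ⟨M⟩ := exists_smoothModel f e he D.x D.transc (D.algebraic hN)
      exact (bad_direction D h3 M).1
    · exact smoothMod_small hN h3 p
  · intro hs
    exact good_direction D hN hs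

theorem not_hasGoodReduction_of_dvd {N : ℕ} (hN : 4 ≤ N) (p : ℕ) [Fact p.Prime] (hpN : p ∣ N) :
    ¬ HasGoodReduction N p := by
  intro hg
  have hN1 : 1 ≤ N := by omega
  by_cases hp : p = 2
  · have h := (hasGoodReduction_iff_smoothMod hN1 p).mp hg
    subst hp
    have hprime := ((smoothMod_two_iff hN).mp h).1
    have := (Nat.prime_dvd_prime_iff_eq Nat.prime_two hprime).mp hpN
    omega
  · have hdom : IsDomain (AdjoinRoot (dynatomicOver N ℚ_[p])) := coordRing_isDomain hN1
    obtain ⟨D⟩ := exists_dynField (p := p) hN1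
    have : CharZero (FunField N ℚ_[p]) := D.charZero
    obtain ⟨X, hX, f, hf, hf', e, he⟩ := hg
    obtain ⟨M⟩ := exists_smoothModel f e he D.x D.transc (D.algebraic hN1)
    exact (bad_direction D hN M).2 (Or.inl ⟨hp, hpN⟩)

theorem main {N : ℕ} (hN : 1 ≤ N) (p : ℕ) [Fact p.Prime] :
    (p ≠ 2 → (HasGoodReduction N p ↔
      ∀ x c : AlgebraicClosure (ZMod p), ¬ IsSingularPt N x c)) ∧
    (p = 2 → (HasGoodReduction N p ↔
      N ≤ 3 ∨ (N.Prime ∧ orderOf (2 : ZMod N) = N - 1))) ∧
    (4 ≤ N → p ∣ N → ¬ HasGoodReduction N p) := by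
  refine ⟨fun hp => ?_, fun hp => ?_, fun h4 hpN => not_hasGoodReduction_of_dvd h4 p hpN⟩
  · rw [hasGoodReduction_iff_smoothMod hN p, smoothMod_iff hp hN]
  · rw [hasGoodReduction_iff_smoothMod hN p]
    subst hp
    rcases Nat.lt_or_ge 3 N with h3 | h3
    · rw [smoothMod_two_iff h3]
      constructor
      · exact Or.inr
      · rintro (h | h)
        · omega
        · exact h
    · exact ⟨fun _ => Or.inl h3, fun _ => smoothMod_small hN h3 2⟩

theorem finite_bad {N : ℕ} (hN : 1 ≤ N) :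
    {p : ℕ | ∃ _ : Fact p.Prime, ¬ HasGoodReduction N p}.Finite := by
  obtain ⟨M, hM, h⟩ := exists_M_smoothMod hN
  refine (Set.finite_Iic M.natAbs).subset ?_
  rintro p ⟨hp, hbad⟩
  have hdvd : (p : ℤ) ∣ M := by
    by_contra hnd
    exact hbad ((hasGoodReduction_iff_smoothMod hN p).mpr (h p hnd))
  exact Nat.le_of_dvd (Int.natAbs_pos.mpr hM) (Int.natCast_dvd.mp hdvd)

end DynBad
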