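import Pool.Agent.DynBad.Cusp
import Pool.Agent.DynBad.ValExist

/-!
# Module PhiBasic: the polynomials `Φ_n`

(a) `FP n` is monic in the outer variable of degree `2^(n-1)` for `n ≥ 1` (induction on
`F_{n+1} = F_n^2 + X F_n + U`).

(b) Separability and coprimality.  Let `Ω` be an algebraic closure of `Frac ℤ[X]`, `x ∈ Ω` the
image of `X`; there is a valuation subring `V` of `Ω` with `x ∉ V` (extend the valuation ring at
infinity; e.g. a valuation ring dominating the localization of `ℤ[x⁻¹] ⊆ Ω` at the prime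
`(x⁻¹)`, use `LocalSubring` / `exists_le_valuationSubring` or `exists_factor_valuationRing`).
If `w ∈ Ω` and `F x w n = 0` then `aa x w n ≠ 0` (`cusp_aa_ne_zero`), i.e. the roots of
`F_n(x, ·)` in `Ω` are simple.  If `F x w m = 0 = F x w n` then `F x w (gcd m n) = 0` (`F_gcd`).

(c) Define `Ψ_n` recursively by `Ψ_n = FP n /ₘ ∏_{d ∣ n, d < n} Ψ_d`.  Claim: `Ψ_n` is monic and
`∏_{d ∣ n} Ψ_d = FP n` for `n ≥ 1`.  Strong induction: for `d, e ∣ n` proper and `d ≠ e` the
polynomials `Ψ_d, Ψ_e` have no common root in `Ω`: if `w` is a common root, `F_d(w) = F_e(w) = 0`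
so `F_g(w) = 0`, `g = gcd(d,e)`, and say `g < d` (or `g < e`); then
`F_d = Ψ_d * (∏_{e' ∣ d, e' < d} Ψ_{e'})` and the second factor is divisible by
`F_g = ∏_{e' ∣ g} Ψ_{e'}`, so `w` is a double root of `F_d`, contradiction to (b).  So the `Ψ_d`
(`d ∣ n`, `d < n`) are pairwise coprime over `Frac ℤ[X]`, each divides `F_d ∣ F_n` (`F_dvd`), so
their product divides `F_n` over `Frac ℤ[X]`, hence over `ℤ[X]` as it is monic.

(d) Moebius inversion (`ArithmeticFunction.prod_eq_iff_prod_pow_moebius_eq_of_nonzero` in the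
fraction field of `ℤ[X][X]`) gives `∏_{μ(n/d)=1} F_d = Ψ_n ∏_{μ(n/d)=-1} F_d`, hence
`Phi n = Ψ_n` (`Polynomial.mul_divByMonic_cancel_left`).
-/

namespace DynBad

open Polynomial Finset

namespace PhiBasicAux

theorem FP_succ (n : ℕ) : FP (n + 1) = FP n ^ 2 + C X * FP n + X := rfl

theorem FP_aux (n : ℕ) : (FP (n + 1)).Monic ∧ (FP (n + 1)).natDegree = 2 ^ n := by
  induction n with
  | zero =>
    have h : FP (0 + 1) = X := by
      rw [FP_succ]
      have : FP 0 = 0 := rfl
      rw [this]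
      ring
    rw [h]
    exact ⟨monic_X, by rw [natDegree_X, pow_zero]⟩
  | succ n ih =>
    obtain ⟨hm, hd⟩ := ih
    have h2 : (FP (n + 1) ^ 2).Monic := hm.pow 2
    have h2d : (FP (n + 1) ^ 2).natDegree = 2 ^ (n + 1) := by
      rw [hm.natDegree_pow, hd, pow_succ]
      ring
    have h1 : (1 : ℕ) ≤ 2 ^ n := Nat.one_le_two_pow
    have hlt : (C X * FP (n + 1) + X : ℤ[X][X]).natDegree < (FP (n + 1) ^ 2).natDegree := by
      rw [h2d]
      have h3 : (C X * FP (n + 1) + X : ℤ[X][X]).natDegree ≤ 2 ^ n := by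
        refine (natDegree_add_le _ _).trans (max_le ?_ ?_)
        · exact (natDegree_C_mul_le _ _).trans hd.le
        · rw [natDegree_X]
          exact h1
      rw [pow_succ]
      omega
    have h4 : FP (n + 1 + 1) = FP (n + 1) ^ 2 + (C X * FP (n + 1) + X) := by
      rw [FP_succ (n + 1), add_assoc]
    rw [h4]
    refine ⟨h2.add_of_left (degree_lt_degree hlt), ?_⟩
    rw [natDegree_add_eq_left_of_natDegree_lt hlt, h2d]

theorem field_aux {Ω : Type*} [Field Ω] (j : ℤ[X] →+* Ω) (hinj : Function.Injective j) :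
    ¬ IsIntegral ℤ (j X) ∧ Function.Injective (eval₂RingHom (algebraMap ℤ Ω) (j X)) := by
  have heq : eval₂RingHom (algebraMap ℤ Ω) (j X) = j := by
    apply Polynomial.ringHom_ext'
    · ext a
      simp
    · simp
  refine ⟨fun hi => ?_, ?_⟩
  · have h2 : IsIntegral ℤ (j.toIntAlgHom X) := hi
    have h1 : IsIntegral ℤ (X : ℤ[X]) := (isIntegral_algHom_iff j.toIntAlgHom hinj).mp h2
    exact transcendental_X ℤ h1.isAlgebraic
  · rw [heq]
    exact hinj

theorem exists_field : ∃ (Ω : Type) (_ : Field Ω) (_ : IsAlgClosed Ω) (x : Ω),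
    ¬ IsIntegral ℤ x ∧ Function.Injective (eval₂RingHom (algebraMap ℤ Ω) x) := by
  have hinj : Function.Injective ((algebraMap (FractionRing ℤ[X])
      (AlgebraicClosure (FractionRing ℤ[X]))).comp (algebraMap ℤ[X] (FractionRing ℤ[X]))) :=
    (algebraMap (FractionRing ℤ[X]) (AlgebraicClosure (FractionRing ℤ[X]))).injective.comp
      (IsFractionRing.injective ℤ[X] _)
  exact ⟨AlgebraicClosure (FractionRing ℤ[X]), inferInstance, inferInstance, _,
    field_aux _ hinj⟩

theorem simple_root {Ω : Type*} [Field Ω] {x w : Ω} (hx : ¬ IsIntegral ℤ x) {n : ℕ} (hn : 1 ≤ n)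
    (h : F x w n = 0) : aa x w n ≠ 0 := by
  obtain ⟨V, hV⟩ := exists_val_notMem hx
  exact cusp_aa_ne_zero V hn h hV hn

theorem no_common {Ω : Type*} [Field Ω] {x w : Ω} (hx : ¬ IsIntegral ℤ x) {d g : ℕ} (hd : 1 ≤ d)
    (hg : g ∣ d) (hgd : g < d) (Pd : ∏ e ∈ d.divisors, Phi e = FP d)
    (Pg : ∏ e ∈ g.divisors, Phi e = FP g) (h1 : ev x w (Phi d) = 0) (h2 : F x w g = 0) :
    False := by
  have hsub : g.divisors ⊆ d.properDivisors := by
    intro e he
    rw [Nat.mem_divisors] at he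
    rw [Nat.mem_properDivisors]
    exact ⟨he.1.trans hg, (Nat.le_of_dvd (Nat.pos_of_ne_zero he.2) he.1).trans_lt hgd⟩
  have h3 : FP d = Phi d * ((∏ e ∈ d.properDivisors \ g.divisors, Phi e) * FP g) := by
    rw [← Pg, Finset.prod_sdiff hsub, ← Pd, ← Nat.cons_self_properDivisors (by omega),
      Finset.prod_cons]
  have h4 := ev_derivative_FP x w d
  rw [h3, derivative_mul] at h4
  simp only [map_add, map_mul, h1, ev_FP, h2, mul_zero, zero_mul, add_zero] at h4
  have h5 : F x w d = 0 := by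
    rw [← ev_FP, h3, map_mul, h1, zero_mul]
  exact simple_root hx hd h5 h4.symm

theorem moebius_split {K : Type*} [Field K] (n : ℕ) (D : Finset ℕ) (a : ℕ → K) :
    ∏ d ∈ D, a d ^ (ArithmeticFunction.moebius (n / d)) =
      (∏ d ∈ D.filter (fun d => ArithmeticFunction.moebius (n / d) = 1), a d) *
        (∏ d ∈ D.filter (fun d => ArithmeticFunction.moebius (n / d) = -1), a d)⁻¹ := by
  rw [← Finset.prod_inv_distrib, Finset.prod_filter, Finset.prod_filter, ← Finset.prod_mul_distrib]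
  refine Finset.prod_congr rfl fun d _ => ?_
  rcases ArithmeticFunction.moebius_eq_or (n / d) with h | h | h
  · rw [h]; simp
  · rw [h]; simp
  · rw [h]; simp

theorem phi_main (n : ℕ) (hn : 1 ≤ n) : (Phi n).Monic ∧ ∏ d ∈ n.divisors, Phi d = FP n := by
  induction n using Nat.strong_induction_on with
  | _ n ih =>
  obtain ⟨Ω, hΩ, hΩ', x, hx, hinj⟩ := exists_field
  set φ := eval₂RingHom (algebraMap ℤ Ω) x with hφ
  have hlt : ∀ d ∈ n.properDivisors, 1 ≤ d ∧ d < n := by
    intro d hd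
    rw [Nat.mem_properDivisors] at hd
    exact ⟨Nat.pos_of_dvd_of_pos hd.1 (by omega), hd.2⟩
  have hih : ∀ d, 1 ≤ d → d < n → (Phi d).Monic ∧ ∏ e ∈ d.divisors, Phi e = FP d :=
    fun d h1 h2 => ih d h2 h1
  have hdvd : ∀ d, 1 ≤ d → d < n → Phi d ∣ FP d := by
    intro d h1 h2
    rw [← (hih d h1 h2).2]
    exact Finset.dvd_prod_of_mem _ (Nat.mem_divisors_self d (by omega))
  have hFz : ∀ d, 1 ≤ d → d < n → ∀ w : Ω, ev x w (Phi d) = 0 → F x w d = 0 := by
    intro d h1 h2 w hw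
    rw [← ev_FP]
    obtain ⟨q, hq⟩ := hdvd d h1 h2
    rw [hq, map_mul, hw, zero_mul]
  have hcop : ∀ d ∈ n.properDivisors, ∀ e ∈ n.properDivisors, d ≠ e →
      IsCoprime ((Phi d).map φ) ((Phi e).map φ) := by
    intro d hd e he hde
    obtain ⟨hd1, hdn⟩ := hlt d hd
    obtain ⟨he1, hen⟩ := hlt e he
    rw [isCoprime_iff_aeval_ne_zero_of_isAlgClosed Ω Ω]
    intro w
    by_contra hcon
    push Not at hcon
    obtain ⟨h1, h2⟩ := hcon
    have hev : ∀ P : ℤ[X][X], aeval w (P.map φ) = ev x w P := by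
      intro P
      rw [coe_aeval_eq_eval, eval_map]
      rfl
    rw [hev] at h1 h2
    have h3 := hFz d hd1 hdn w h1
    have h4 := hFz e he1 hen w h2
    have h5 := F_gcd h3 h4
    have hg1 : 1 ≤ d.gcd e := Nat.gcd_pos_of_pos_left _ hd1
    rcases lt_or_ge (d.gcd e) d with h | h
    · exact no_common hx hd1 (Nat.gcd_dvd_left d e) h (hih d hd1 hdn).2
        (hih _ hg1 (h.trans hdn)).2 h1 h5
    · have h6 : d.gcd e = d := le_antisymm (Nat.le_of_dvd hd1 (Nat.gcd_dvd_left d e)) h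
      have h7 : d ∣ e := by
        rw [← h6]
        exact Nat.gcd_dvd_right d e
      have h8 : d < e := lt_of_le_of_ne (Nat.le_of_dvd he1 h7) hde
      exact no_common hx he1 h7 h8 (hih e he1 hen).2 (hih d hd1 hdn).2 h2 h3
  have hmon : ∀ d ∈ n.properDivisors, (Phi d).Monic := fun d hd =>
    (hih d (hlt d hd).1 (hlt d hd).2).1
  have hprodmon : (∏ d ∈ n.properDivisors, Phi d).Monic := monic_prod_of_monic _ _ hmon
  have hdiv : (∏ d ∈ n.properDivisors, Phi d) ∣ FP n := by
    rw [← Polynomial.map_dvd_map φ hinj hprodmon, Polynomial.map_prod]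
    refine Finset.prod_dvd_of_coprime ?_ ?_
    · intro d hd e he hde
      exact hcop d hd e he hde
    · intro d hd
      have h1 : Phi d ∣ FP n := (hdvd d (hlt d hd).1 (hlt d hd).2).trans
        (F_dvd _ _ (Nat.mem_properDivisors.mp hd).1)
      obtain ⟨q, hq⟩ := h1
      exact ⟨q.map φ, by rw [hq, Polynomial.map_mul]⟩
  obtain ⟨Ψ, hΨ⟩ := hdiv
  have hFPn : (FP n).Monic := by
    obtain ⟨m, rfl⟩ : ∃ m, n = m + 1 := ⟨n - 1, by omega⟩
    exact (FP_aux m).1
  have hΨm : Ψ.Monic := hprodmon.of_mul_monic_left (by rw [← hΨ]; exact hFPn)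
  -- Moebius inversion
  let K := FractionRing ℤ[X][X]
  let ι : ℤ[X][X] →+* K := algebraMap ℤ[X][X] K
  have hι : Function.Injective ι := IsFractionRing.injective _ _
  have hFP0 : ∀ d, 1 ≤ d → ι (FP d) ≠ 0 := by
    intro d hd
    rw [map_ne_zero_iff ι hι]
    obtain ⟨m, rfl⟩ : ∃ m, d = m + 1 := ⟨d - 1, by omega⟩
    exact (FP_aux m).1.ne_zero
  have hΨ0 : ι Ψ ≠ 0 := by
    rw [map_ne_zero_iff ι hι]
    exact hΨm.ne_zero
  have hPhi0 : ∀ d, 1 ≤ d → d < n → ι (Phi d) ≠ 0 := by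
    intro d h1 h2
    rw [map_ne_zero_iff ι hι]
    exact (hih d h1 h2).1.ne_zero
  let f : ℕ → K := fun m => if m = n then ι Ψ else if 1 ≤ m ∧ m < n then ι (Phi m) else 1
  let g : ℕ → K := fun m => if 1 ≤ m then ι (FP m) else 1
  have hf0 : ∀ m > 0, f m ≠ 0 := by
    intro m hm
    simp only [f]
    split_ifs with h1 h2
    · exact hΨ0
    · exact hPhi0 m h2.1 h2.2
    · exact one_ne_zero
  have hg0 : ∀ m > 0, g m ≠ 0 := by
    intro m hm
    simp only [g]
    split_ifs with h1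
    · exact hFP0 m h1
    · exact one_ne_zero
  have hmob := (ArithmeticFunction.prod_eq_iff_prod_pow_moebius_eq_on_of_nonzero
    {m | m ∣ n} (fun a b hab hb => hab.trans hb) (f := f) (g := g) hf0 hg0).mp (by
      intro m hm hmn
      have hmn' : m ∣ n := hmn
      have hmle : m ≤ n := Nat.le_of_dvd (by omega) hmn'
      have hg' : g m = ι (FP m) := by
        simp only [g]
        rw [if_pos (by omega)]
      rw [hg']
      rcases lt_or_eq_of_le hmle with h | h
      · rw [← (hih m hm h).2, map_prod]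
        refine Finset.prod_congr rfl fun i hi => ?_
        rw [Nat.mem_divisors] at hi
        have hi1 : 1 ≤ i := Nat.pos_of_dvd_of_pos hi.1 hm
        have hi2 : i < n := (Nat.le_of_dvd hm hi.1).trans_lt h
        simp only [f]
        rw [if_neg (by omega), if_pos ⟨hi1, hi2⟩]
      · subst h
        rw [← Nat.cons_self_properDivisors (by omega), Finset.prod_cons, hΨ, map_mul, map_prod]
        have h1 : f m = ι Ψ := by simp [f]
        rw [h1, mul_comm]
        congr 1
        refine Finset.prod_congr rfl fun i hi => ?_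
        obtain ⟨hi1, hi2⟩ := hlt i hi
        simp only [f]
        rw [if_neg (by omega), if_pos ⟨hi1, hi2⟩]) n hn (dvd_refl n)
  rw [Nat.prod_divisorsAntidiagonal' (f := fun a b => g b ^ (ArithmeticFunction.moebius a))] at hmob
  have hfn : f n = ι Ψ := by simp [f]
  rw [hfn, moebius_split n n.divisors g] at hmob
  have hgd : ∀ s ⊆ n.divisors, ∏ d ∈ s, g d = ι (∏ d ∈ s, FP d) := by
    intro s hs
    rw [map_prod]
    refine Finset.prod_congr rfl fun d hd => ?_
    have hd1 : 1 ≤ d := Nat.pos_of_mem_divisors (hs hd)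
    simp only [g]
    rw [if_pos hd1]
  rw [hgd _ (Finset.filter_subset _ _), hgd _ (Finset.filter_subset _ _)] at hmob
  have hmonneg : (∏ d ∈ n.divisors.filter
      (fun d => ArithmeticFunction.moebius (n / d) = -1), FP d).Monic := by
    refine monic_prod_of_monic _ _ fun d hd => ?_
    have hd1 : 1 ≤ d := Nat.pos_of_mem_divisors (Finset.mem_filter.mp hd).1
    obtain ⟨m, rfl⟩ : ∃ m, d = m + 1 := ⟨d - 1, by omega⟩
    exact (FP_aux m).1
  have hne : ι (∏ d ∈ n.divisors.filter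
      (fun d => ArithmeticFunction.moebius (n / d) = -1), FP d) ≠ 0 := by
    rw [map_ne_zero_iff ι hι]
    exact hmonneg.ne_zero
  have hfin : ∏ d ∈ n.divisors.filter (fun d => ArithmeticFunction.moebius (n / d) = 1), FP d =
      (∏ d ∈ n.divisors.filter (fun d => ArithmeticFunction.moebius (n / d) = -1), FP d) * Ψ := by
    apply hι
    rw [map_mul, ← hmob, mul_left_comm, mul_inv_cancel₀ hne, mul_one]
  have hPhi : Phi n = Ψ := by
    rw [Phi, hfin]
    exact mul_divByMonic_cancel_left _ hmonneg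
  rw [hPhi]
  refine ⟨hΨm, ?_⟩
  rw [← Nat.cons_self_properDivisors (by omega), Finset.prod_cons, hPhi, hΨ, mul_comm]

end PhiBasicAux

open PhiBasicAux

theorem FP_monic {n : ℕ} (hn : 1 ≤ n) : (FP n).Monic := by
  obtain ⟨m, rfl⟩ : ∃ m, n = m + 1 := ⟨n - 1, by omega⟩
  exact (FP_aux m).1

theorem natDegree_FP {n : ℕ} (hn : 1 ≤ n) : (FP n).natDegree = 2 ^ (n - 1) := by
  obtain ⟨m, rfl⟩ : ∃ m, n = m + 1 := ⟨n - 1, by omega⟩
  exact (FP_aux m).2

theorem Phi_monic {n : ℕ} (hn : 1 ≤ n) : (Phi n).Monic := (phi_main n hn).1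

theorem prod_Phi {n : ℕ} (hn : 1 ≤ n) : ∏ d ∈ n.divisors, Phi d = FP n := (phi_main n hn).2

theorem Phi_one : Phi 1 = X := by
  have h := prod_Phi (n := 1) le_rfl
  rw [Nat.divisors_one, Finset.prod_singleton] at h
  rw [h]
  have : FP 1 = FP 0 ^ 2 + C X * FP 0 + X := rfl
  rw [this]
  have h0 : FP 0 = 0 := rfl
  rw [h0]
  ring

end DynBad
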