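import Pool.Agent.DynBad.IrrLift

/-!
# Module PhiPrime: `Φ_N` is a prime element of `k[X][U]` for every field `k` of characteristic 0

`Φ_N` is monic of positive degree in `U`.  If `Φ_N = G H` over `k`, the leading coefficients of
`G`, `H` in `k[X]` have product 1, so they are constants and after scaling `G, H` are monic.  Map to
`Ω = AlgebraicClosure k` and use `irrLift`: one of them has degree 0, i.e. is `1`.  So `Φ_N` is
irreducible, and `k[X][U]` is a UFD, so it is prime.
(`natDegree (Phi N) > 0`: e.g. `Φ_N` has a root in an algebraic closure... or by counting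
degrees: `∑_{d ∣ N} natDegree Φ_d = 2^(N-1)` and `∑_{d ∣ N, d < N} natDegree Φ_d ≤
∑_{d ∣ N, d<N} 2^(d-1) < 2^(N-1)`; for `N = 1`, `Φ_1 = U`.)
-/

namespace DynBad

open Polynomial

lemma PhiPrime_sum {n : ℕ} (hn : 1 ≤ n) :
    ∑ d ∈ n.divisors, (Phi d).natDegree = 2 ^ (n - 1) := by
  rw [← natDegree_FP hn, ← prod_Phi hn, natDegree_prod_of_monic]
  intro d hd
  exact Phi_monic (Nat.pos_of_mem_divisors hd)

lemma PhiPrime_le {n : ℕ} (hn : 1 ≤ n) : (Phi n).natDegree ≤ 2 ^ (n - 1) := by
  rw [← PhiPrime_sum hn]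
  exact Finset.single_le_sum (f := fun d => (Phi d).natDegree) (fun _ _ => Nat.zero_le _)
    (Nat.mem_divisors_self n (by omega))

theorem natDegree_Phi_pos {N : ℕ} (hN : 1 ≤ N) : 0 < (Phi N).natDegree := by
  by_contra h0
  have h1 := PhiPrime_sum hN
  rw [← Nat.cons_self_properDivisors (by omega : N ≠ 0), Finset.sum_cons] at h1
  have h2 : ∑ d ∈ N.properDivisors, (Phi d).natDegree ≤ ∑ d ∈ N.properDivisors, 2 ^ (d - 1) := by
    apply Finset.sum_le_sum
    intro d hd
    exact PhiPrime_le (Nat.pos_of_mem_properDivisors hd)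
  have h3 : ∑ d ∈ N.properDivisors, 2 ^ (d - 1) ≤ ∑ d ∈ Finset.Ico 1 N, 2 ^ (d - 1) := by
    apply Finset.sum_le_sum_of_subset
    intro d hd
    rw [Finset.mem_Ico]
    exact ⟨Nat.pos_of_mem_properDivisors hd, (Nat.mem_properDivisors.1 hd).2⟩
  have h4 : ∑ d ∈ Finset.Ico 1 N, 2 ^ (d - 1) = ∑ i ∈ Finset.range (N - 1), 2 ^ i := by
    rw [Finset.sum_Ico_eq_sum_range]
    apply Finset.sum_congr rfl
    intro i _
    rw [Nat.add_sub_cancel_left]
  have h5 : ∀ m : ℕ, ∑ i ∈ Finset.range m, 2 ^ i < 2 ^ m := by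
    intro m
    induction m with
    | zero => simp
    | succ m ih =>
      rw [Finset.sum_range_succ, pow_succ]
      omega
  have h6 := h5 (N - 1)
  omega

theorem Phi_prime {k : Type*} [Field k] [CharZero k] {N : ℕ} (hN : 1 ≤ N) :
    Prime ((Phi N).map (mapRingHom (Int.castRingHom k))) := by
  apply Irreducible.prime
  have hm : ((Phi N).map (mapRingHom (Int.castRingHom k))).Monic := (Phi_monic hN).map _
  rw [Monic.irreducible_iff_natDegree hm]
  refine ⟨?_, ?_⟩
  · intro h1
    have h2 := congrArg natDegree h1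
    rw [(Phi_monic hN).natDegree_map, natDegree_one] at h2
    have := natDegree_Phi_pos hN
    omega
  · intro f g hf hg hfg
    have hchar : CharZero (AlgebraicClosure k) :=
      charZero_of_injective_algebraMap (algebraMap k (AlgebraicClosure k)).injective
    have h1 := irrLift (L := AlgebraicClosure k) hN
      (f.map (mapRingHom (algebraMap k (AlgebraicClosure k))))
      (g.map (mapRingHom (algebraMap k (AlgebraicClosure k)))) (hf.map _) (hg.map _)
      (by
        rw [← Polynomial.map_mul, hfg, Polynomial.map_map, mapRingHom_comp]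
        congr 2)
    rw [hf.natDegree_map, hg.natDegree_map] at h1
    exact h1

end DynBad
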