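import Pool.Agent.DynBad.Conv
import Pool.Agent.DynBad.PhiPrime
import Pool.Agent.DynBad.PhiBasic

/-!
# Module MkDynField: the function field as a `DynField`

`coordRing_isDomain`: `θ` of `conv` maps `dynatomicOver N k` to `Phi N` over `k`, which is prime
(`Phi_prime`), so `dynatomicOver N k` is prime, and `AdjoinRoot` of a prime element is a domain.

`exists_dynField`: `k = ℚ_p`, `K = FunField N ℚ_p`, `x₀ = ` image of the outer variable
(`AdjoinRoot.root`), `c₀ = ` image of the inner variable; `x = 2 x₀`, `u = x₀^2 - x₀ + c₀`.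
`root`: `ev_conv`.
`ker`: if `P ∈ ℤ_p[X][U]` with `P(x,u) = 0` then the preimage of `P` under `θ` over `ℚ_p` is
divisible by `dynatomicOver N ℚ_p`, so `Phi N ∣ P` over `ℚ_p`, hence over `ℤ_p` as `Phi N` is
monic (`Polynomial.Monic` division commutes with the injective map `ℤ_p → ℚ_p`).
`transc`: from `ker`: a nonzero `P ∈ ℤ_p[X]` viewed as constant in `U` is not divisible by the monic
`Phi N` of positive degree (`natDegree_Phi_pos`).
`frac`: every element of `K` is `a/b` with `a, b` polynomials in `x₀, c₀` over `ℚ_p`; `x₀ = x/2`,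
`c₀ = u + x/2 - x^2/4`, and `ℚ_p = ℤ_p[1/p]`: clear denominators.
-/

namespace DynBad

open Polynomial

lemma dynatomicOver_prime {k : Type} [Field k] [CharZero k] {N : ℕ} (hN : 1 ≤ N) :
    Prime (dynatomicOver N k) := by
  obtain ⟨θ, _, _, h3⟩ := conv (k := k) two_ne_zero hN
  have h := Phi_prime (k := k) hN
  rw [← h3] at h
  exact (MulEquiv.prime_iff θ.toRingEquiv.toMulEquiv).mp h

theorem coordRing_isDomain {k : Type} [Field k] [CharZero k] {N : ℕ} (hN : 1 ≤ N) :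
    IsDomain (AdjoinRoot (dynatomicOver N k)) :=
  AdjoinRoot.isDomain_of_prime (dynatomicOver_prime hN)

section mk

variable {p : ℕ} [Fact p.Prime] {N : ℕ}

/-- the evaluation `ℚ_p[c][x] → K` -/
noncomputable def toFun (p : ℕ) [Fact p.Prime] (N : ℕ) : ℚ_[p][X][X] →+* FunField N ℚ_[p] :=
  (algebraMap (AdjoinRoot (dynatomicOver N ℚ_[p])) (FunField N ℚ_[p])).comp
    (AdjoinRoot.mk (dynatomicOver N ℚ_[p]))

/-- the coordinate `x = 2 x₀` -/
noncomputable def gx (p : ℕ) [Fact p.Prime] (N : ℕ) : FunField N ℚ_[p] := toFun p N (2 * X)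

/-- the coordinate `u = x₀² - x₀ + c₀` -/
noncomputable def gu (p : ℕ) [Fact p.Prime] (N : ℕ) : FunField N ℚ_[p] :=
  toFun p N (X ^ 2 - X + C X)

lemma toFun_CC (a : ℚ_[p]) :
    toFun p N (C (C a)) = algebraMap ℚ_[p] (FunField N ℚ_[p]) a := rfl

lemma toFun_CC' (a : ℤ_[p]) :
    toFun p N (C (C (a : ℚ_[p]))) = algebraMap ℤ_[p] (FunField N ℚ_[p]) a := rfl

lemma toFun_eq (θ : ℚ_[p][X][X] ≃ₐ[ℚ_[p]] ℚ_[p][X][X])
    (h1 : θ (C X) = X + C (C (1 / 2) * X - C (1 / 4) * X ^ 2))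
    (h2 : θ X = C (C (1 / 2) * X)) (P : ℚ_[p][X][X]) :
    ev (R := ℚ_[p]) (gx p N) (gu p N) (θ P) = toFun p N P := by
  have hs1 : θ (2 * X) = C X := by
    rw [map_mul, h2, map_ofNat]
    rw [← C_ofNat, ← C_mul, ← C_ofNat, ← mul_assoc, ← C_mul]
    norm_num
  have hs2 : θ (X ^ 2 - X + C X) = X := by
    rw [map_add, map_sub, map_pow, h1, h2]
    have : (C (C (1 / 2 : ℚ_[p]) * X) : ℚ_[p][X][X]) ^ 2 = C (C (1 / 4) * X ^ 2) := by
      rw [← C_pow, mul_pow, ← C_pow]; norm_num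
    rw [this, C_sub]; ring
  have key : ((ev (R := ℚ_[p]) (gx p N) (gu p N)).comp (θ : ℚ_[p][X][X] →+* ℚ_[p][X][X])) =
      toFun p N := by
    have e1 : ∀ Q : ℚ_[p][X][X],
        ev (R := ℚ_[p]) (gx p N) (gu p N) Q = toFun p N (θ.symm Q) := by
      have hr : ev (R := ℚ_[p]) (gx p N) (gu p N) =
          (toFun p N).comp (θ.symm : ℚ_[p][X][X] →+* ℚ_[p][X][X]) := by
        apply Polynomial.ringHom_ext'
        · apply Polynomial.ringHom_ext'
          · ext a
            have : θ.symm (C (C a)) = C (C a) := θ.symm.commutes a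
            simp only [RingHom.comp_apply, RingHom.coe_coe, this, toFun_CC, ev_C, eval₂_C]
          · have : θ.symm (C X) = 2 * X := by rw [← hs1, AlgEquiv.symm_apply_apply]
            simp only [RingHom.comp_apply, RingHom.coe_coe, this, ev_C, eval₂_X]
            rfl
        · have : θ.symm X = X ^ 2 - X + C X := by
            conv_lhs => rw [← hs2]
            rw [AlgEquiv.symm_apply_apply]
          simp only [RingHom.comp_apply, RingHom.coe_coe, this, ev_X]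
          rfl
      intro Q
      exact congr($hr Q)
    refine RingHom.ext fun Q => ?_
    rw [RingHom.comp_apply, e1]
    simp
  exact congr($key P)

lemma ev_padic (x u : FunField N ℚ_[p]) (P : ℤ_[p][X][X]) :
    ev (R := ℚ_[p]) x u (P.map (mapRingHom (algebraMap ℤ_[p] ℚ_[p]))) = ev x u P := by
  have : (ev (R := ℚ_[p]) x u).comp (mapRingHom (mapRingHom (algebraMap ℤ_[p] ℚ_[p]))) =
      ev x u := by
    apply Polynomial.ringHom_ext'
    · apply Polynomial.ringHom_ext'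
      · ext a
        simp only [RingHom.comp_apply, coe_mapRingHom, map_C, ev_C, eval₂_C]
        rfl
      · simp [ev]
    · simp [ev]
  exact congr($this P)

lemma toFun_eq_zero [IsDomain (AdjoinRoot (dynatomicOver N ℚ_[p]))] (P : ℚ_[p][X][X]) :
    toFun p N P = 0 ↔ dynatomicOver N ℚ_[p] ∣ P := by
  rw [toFun, RingHom.comp_apply, map_eq_zero_iff _ (IsFractionRing.injective _ _),
    AdjoinRoot.mk_eq_zero]

lemma gker [IsDomain (AdjoinRoot (dynatomicOver N ℚ_[p]))] (hN : 1 ≤ N) (P : ℤ_[p][X][X])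
    (hP : ev (gx p N) (gu p N) P = 0) :
    (Phi N).map (mapRingHom (Int.castRingHom ℤ_[p])) ∣ P := by
  obtain ⟨θ, h1, h2, h3⟩ := conv (k := ℚ_[p]) two_ne_zero hN
  rw [← ev_padic] at hP
  have h4 := toFun_eq (N := N) θ h1 h2
    (θ.symm (P.map (mapRingHom (algebraMap ℤ_[p] ℚ_[p]))))
  rw [AlgEquiv.apply_symm_apply, hP] at h4
  have h5 := (toFun_eq_zero _).mp h4.symm
  have h6 := map_dvd θ h5
  rw [AlgEquiv.apply_symm_apply, h3] at h6
  have hinj : Function.Injective (mapRingHom (algebraMap ℤ_[p] ℚ_[p])) :=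
    map_injective _ (IsFractionRing.injective _ _)
  rw [← map_dvd_map _ hinj ((Phi_monic hN).map _), Polynomial.map_map]
  have h7 : (mapRingHom (algebraMap ℤ_[p] ℚ_[p])).comp (mapRingHom (Int.castRingHom ℤ_[p])) =
      mapRingHom (Int.castRingHom ℚ_[p]) := by
    rw [mapRingHom_comp]
    congr 1
  rw [h7]
  exact h6

/-- `p^m z ∈ S` for some `m` -/
def Cl (p : ℕ) [Fact p.Prime] {K : Type*} [CommRing K] [Algebra ℤ_[p] K] (S : Subalgebra ℤ_[p] K)
    (z : K) : Prop := ∃ m : ℕ, (p : K) ^ m * z ∈ S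

lemma Cl.add {K : Type*} [CommRing K] [Algebra ℤ_[p] K] {S : Subalgebra ℤ_[p] K} {a b : K}
    (ha : Cl p S a) (hb : Cl p S b) : Cl p S (a + b) := by
  obtain ⟨m, hm⟩ := ha
  obtain ⟨n, hn⟩ := hb
  refine ⟨m + n, ?_⟩
  have hp : (p : K) ∈ S := natCast_mem S p
  have : (p : K) ^ (m + n) * (a + b) = (p : K) ^ n * ((p : K) ^ m * a) +
      (p : K) ^ m * ((p : K) ^ n * b) := by ring
  rw [this]
  exact add_mem (mul_mem (pow_mem hp n) hm) (mul_mem (pow_mem hp m) hn)

lemma Cl.mul {K : Type*} [CommRing K] [Algebra ℤ_[p] K] {S : Subalgebra ℤ_[p] K} {a b : K}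
    (ha : Cl p S a) (hb : Cl p S b) : Cl p S (a * b) := by
  obtain ⟨m, hm⟩ := ha
  obtain ⟨n, hn⟩ := hb
  refine ⟨m + n, ?_⟩
  have : (p : K) ^ (m + n) * (a * b) = ((p : K) ^ m * a) * ((p : K) ^ n * b) := by ring
  rw [this]
  exact mul_mem hm hn

lemma Cl.of_mem {K : Type*} [CommRing K] [Algebra ℤ_[p] K] {S : Subalgebra ℤ_[p] K} {a : K}
    (ha : a ∈ S) : Cl p S a := ⟨0, by simpa using ha⟩

lemma Cl.pow {K : Type*} [CommRing K] [Algebra ℤ_[p] K] {S : Subalgebra ℤ_[p] K} {a : K}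
    (ha : Cl p S a) (n : ℕ) : Cl p S (a ^ n) := by
  induction n with
  | zero => rw [pow_zero]; exact Cl.of_mem (one_mem _)
  | succ n ih => rw [pow_succ]; exact ih.mul ha

lemma Cl_padic (S : Subalgebra ℤ_[p] (FunField N ℚ_[p])) (c : ℚ_[p]) :
    Cl p S (algebraMap ℚ_[p] (FunField N ℚ_[p]) c) := by
  obtain ⟨n, hn⟩ := pow_unbounded_of_one_lt ‖c‖
    (by exact_mod_cast (Fact.out : p.Prime).one_lt : (1 : ℝ) < p)
  have h1 : ‖(p : ℚ_[p]) ^ n * c‖ ≤ 1 := by
    rw [norm_mul, norm_pow, Padic.norm_p, inv_pow, mul_comm, ← div_eq_mul_inv]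
    exact div_le_one_of_le₀ hn.le (by positivity)
  refine ⟨n, ?_⟩
  have h2 : ((p : FunField N ℚ_[p]) ^ n * algebraMap ℚ_[p] (FunField N ℚ_[p]) c) =
      algebraMap ℤ_[p] (FunField N ℚ_[p]) ⟨_, h1⟩ := by
    rw [← toFun_CC', ← toFun_CC]
    simp
  rw [h2]
  exact Subalgebra.algebraMap_mem _ _

lemma Cl_ev (P : ℚ_[p][X][X]) :
    Cl p (Algebra.adjoin ℤ_[p] {gx p N, gu p N}) (ev (R := ℚ_[p]) (gx p N) (gu p N) P) := by
  have hx : gx p N ∈ Algebra.adjoin ℤ_[p] {gx p N, gu p N} :=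
    Algebra.subset_adjoin (Or.inl rfl)
  have hu : gu p N ∈ Algebra.adjoin ℤ_[p] {gx p N, gu p N} :=
    Algebra.subset_adjoin (Or.inr rfl)
  have h1 : ∀ a : ℚ_[p][X], Cl p (Algebra.adjoin ℤ_[p] {gx p N, gu p N})
      (eval₂ (algebraMap ℚ_[p] (FunField N ℚ_[p])) (gx p N) a) := by
    intro a
    induction a using Polynomial.induction_on' with
    | add a b ha hb => rw [eval₂_add]; exact ha.add hb
    | monomial n c =>
      rw [eval₂_monomial]
      exact (Cl_padic _ c).mul ((Cl.of_mem hx).pow n)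
  induction P using Polynomial.induction_on' with
  | add a b ha hb => rw [map_add]; exact ha.add hb
  | monomial n c =>
    rw [← C_mul_X_pow_eq_monomial, map_mul, map_pow, ev_X, ev_C]
    exact (h1 c).mul ((Cl.of_mem hu).pow n)

end mk

theorem exists_dynField {p : ℕ} [Fact p.Prime] {N : ℕ} (hN : 1 ≤ N)
    [IsDomain (AdjoinRoot (dynatomicOver N ℚ_[p]))] :
    Nonempty (DynField p N (FunField N ℚ_[p])) := by
  obtain ⟨θ, h1, h2, h3⟩ := conv (k := ℚ_[p]) two_ne_zero hN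
  refine ⟨⟨gx p N, gu p N, ?_, ?_, ?_, gker hN⟩⟩
  · rw [← ev_map (R := ℚ_[p]), ← h3, toFun_eq θ h1 h2, toFun_eq_zero]
  · rintro ⟨P, hP0, hP⟩
    have h4 := gker (p := p) hN (C P) (by rw [ev_C]; exact hP)
    have h5 := natDegree_le_of_dvd h4 (by rwa [Ne, C_eq_zero])
    rw [natDegree_C, (Phi_monic hN).natDegree_map] at h5
    exact (natDegree_Phi_pos hN).ne' (Nat.le_zero.mp h5)
  · intro z
    obtain ⟨a, b, hb, hab⟩ := IsFractionRing.div_surjective
      (A := AdjoinRoot (dynatomicOver N ℚ_[p])) z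
    obtain ⟨P, rfl⟩ := AdjoinRoot.mk_surjective a
    obtain ⟨Q, rfl⟩ := AdjoinRoot.mk_surjective b
    obtain ⟨m, hm⟩ := Cl_ev (p := p) (N := N) (θ P)
    obtain ⟨n, hn⟩ := Cl_ev (p := p) (N := N) (θ Q)
    rw [toFun_eq θ h1 h2] at hm hn
    have hp : (p : FunField N ℚ_[p]) ∈ Algebra.adjoin ℤ_[p] {gx p N, gu p N} := natCast_mem _ p
    have hQ0 : toFun p N Q ≠ 0 := by
      rw [toFun, RingHom.comp_apply, Ne, map_eq_zero_iff _ (IsFractionRing.injective _ _)]
      exact nonZeroDivisors.ne_zero hb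
    have hp0 : (p : FunField N ℚ_[p]) ≠ 0 := by
      have h5 : (p : FunField N ℚ_[p]) = algebraMap ℚ_[p] (FunField N ℚ_[p]) (p : ℚ_[p]) := by
        rw [map_natCast]
      rw [h5, Ne, map_eq_zero_iff _ (algebraMap ℚ_[p] (FunField N ℚ_[p])).injective]
      exact_mod_cast (Fact.out : p.Prime).ne_zero
    refine ⟨(p : FunField N ℚ_[p]) ^ n * ((p : FunField N ℚ_[p]) ^ m * toFun p N P),
      mul_mem (pow_mem hp n) hm,
      (p : FunField N ℚ_[p]) ^ m * ((p : FunField N ℚ_[p]) ^ n * toFun p N Q),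
      mul_mem (pow_mem hp m) hn,
      mul_ne_zero (pow_ne_zero _ hp0) (mul_ne_zero (pow_ne_zero _ hp0) hQ0), ?_⟩
    have hz : z * toFun p N Q = toFun p N P := by
      rw [← hab]
      exact div_mul_cancel₀ _ hQ0
    rw [← hz]; ring

/-- elements of `K` are algebraic over `ℤ_p[x]` -/
theorem DynField.algebraic {p : ℕ} [Fact p.Prime] {K : Type*} [Field K] [Algebra ℤ_[p] K]
    {N : ℕ} (D : DynField p N K) (hN : 1 ≤ N) (z : K) :
    ∃ P : ℤ_[p][X][X], P ≠ 0 ∧ ev D.x z P = 0 := by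
  let _ : Algebra ℤ_[p][X] K := (eval₂RingHom (algebraMap ℤ_[p] K) D.x).toAlgebra
  have hmap : ∀ P : ℤ_[p][X], algebraMap ℤ_[p][X] K P = eval₂ (algebraMap ℤ_[p] K) D.x P :=
    fun _ => rfl
  have hu : IsAlgebraic ℤ_[p][X] D.u := by
    refine ⟨(Phi N).map (mapRingHom (Int.castRingHom ℤ_[p])), ((Phi_monic hN).map _).ne_zero, ?_⟩
    have := D.root
    rw [← ev_map (R := ℤ_[p])] at this
    exact this
  have key : ∀ w ∈ Algebra.adjoin ℤ_[p] ({D.x, D.u} : Set K), IsAlgebraic ℤ_[p][X] w := by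
    intro w hw
    induction hw using Algebra.adjoin_induction with
    | mem w hw =>
      rcases hw with rfl | rfl
      · have := isAlgebraic_algebraMap (R := ℤ_[p][X]) (A := K) (X : ℤ_[p][X])
        rwa [hmap, eval₂_X] at this
      · exact hu
    | algebraMap r =>
      have := isAlgebraic_algebraMap (R := ℤ_[p][X]) (A := K) (C r : ℤ_[p][X])
      rwa [hmap, eval₂_C] at this
    | add a b _ _ ha hb => exact ha.add hb
    | mul a b _ _ ha hb => exact ha.mul hb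
  obtain ⟨a, ha, b, hb, hb0, h⟩ := D.frac z
  have hz : z = a * b⁻¹ := by rw [← h, mul_assoc, mul_inv_cancel₀ hb0, mul_one]
  have halg : IsAlgebraic ℤ_[p][X] z := by
    rw [hz]; exact (key a ha).mul (key b hb).inv
  exact halg

end DynBad
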