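import Mathlib

/-!
# Module P1: the projective line over `R` with a `K`-point

`P = Proj 𝒜`, `𝒜 = MvPolynomial.homogeneousSubmodule (Fin 2) R` (graded ring structure:
`MvPolynomial.gradedAlgebra`), `𝒜 0 ≃ R` (constants), `MvPolynomial (Fin 2) R` is of finite type
over `𝒜 0`, so `Proj.toSpecZero 𝒜` is proper
(`Mathlib/AlgebraicGeometry/ProjectiveSpectrum/Proper.lean`), and `π` is its composition with the
isomorphism `Spec (𝒜 0) ≅ Spec R`.  `U₀ = D₊(X 1)`, `U₁ = D₊(X 0)` (basic opens, affine;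
`Proj.awayι`, `Proj.basicOpenIsoSpec`), they cover `Proj` as `X 0, X 1` generate the irrelevant
ideal (`Proj.iSup_basicOpen_eq_top'`).
`j` : `Spec K → Spec (Away 𝒜 (X 1)) → P` given by the ring homomorphism
`Away 𝒜 (X 1) → K`, `F/(X 1)^n ↦ F(x, 1)` (`F` homogeneous of degree `n`).  Its image is
`R[x]` (`F(x,1)`; `X 0 / X 1 ↦ x`).  As `x ≠ 0`, the unique point of `Spec K` also maps into
`D₊(X 0)`, and there `G/(X 0)^n ↦ G(x,1)/x^n = G(1, x⁻¹)`, with image `R[x⁻¹]`.
(`Spec K` is a point, so `j⁻¹(U)` is everything as soon as it is nonempty.)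
Any other construction of a proper `P` with these properties is fine.
-/

namespace DynBad

open AlgebraicGeometry CategoryTheory

/-- restriction of functions along a `K`-point -/
noncomputable def pointMap {K : Type} [Field K] {P : Scheme.{0}} (j : Spec (.of K) ⟶ P)
    (U : P.Opens) (hU : j ⁻¹ᵁ U = ⊤) : Γ(P, U) →+* K :=
  (j.appLE U ⊤ (by rw [hU]) ≫ (Scheme.ΓSpecIso (.of K)).hom).hom

private theorem isIso_appLE {X Y : Scheme.{0}} (f : X ⟶ Y) [IsOpenImmersion f] (U : Y.Opens)
    (V : X.Opens) (e : V ≤ f ⁻¹ᵁ U) (hV : V = f ⁻¹ᵁ U) (hU : U ≤ f.opensRange) :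
    IsIso (f.appLE U V e) := by
  subst hV
  rw [Scheme.Hom.appLE_eq_app]
  exact f.isIso_app U hU

private theorem range_pointMap {K : Type} [Field K] {P : Scheme.{0}} (A : CommRingCat.{0})
    (i : Spec A ⟶ P) [IsOpenImmersion i] (φ : A ⟶ .of K) (j : Spec (.of K) ⟶ P)
    (hj : Spec.map φ ≫ i = j) (U : P.Opens)
    (hiU : i.opensRange = U) (hU : j ⁻¹ᵁ U = ⊤) :
    Set.range (pointMap j U hU) = Set.range φ.hom := by
  subst hj
  have hle : (⊤ : (Spec A).Opens) = i ⁻¹ᵁ U := by rw [← hiU]; simp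
  have h1 : (Spec.map φ ≫ i).appLE U ⊤ (by rw [hU]) =
      i.appLE U ⊤ hle.le ≫ (Spec.map φ).appTop := by
    have h0 : (Spec.map φ).appLE ⊤ ⊤ le_rfl = (Spec.map φ).appTop :=
      Scheme.Hom.appLE_eq_app (Spec.map φ)
    rw [← h0]
    exact (Scheme.Hom.appLE_comp_appLE (Spec.map φ) i U ⊤ ⊤ hle.le le_rfl).symm
  have hiso : IsIso (i.appLE U ⊤ hle.le) := isIso_appLE _ _ _ _ hle hiU.ge
  have h2 : (Spec.map φ ≫ i).appLE U ⊤ (by rw [hU]) ≫ (Scheme.ΓSpecIso (.of K)).hom =
      (i.appLE U ⊤ hle.le ≫ (Scheme.ΓSpecIso A).hom) ≫ φ := by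
    rw [h1, Category.assoc, Category.assoc, Scheme.ΓSpecIso_naturality]
  have hsurj : Function.Surjective (i.appLE U ⊤ hle.le ≫ (Scheme.ΓSpecIso A).hom).hom :=
    ((asIso (i.appLE U ⊤ hle.le ≫ (Scheme.ΓSpecIso A).hom)).commRingCatIsoToRingEquiv).surjective
  unfold pointMap
  rw [h2, CommRingCat.hom_comp, RingHom.coe_comp, hsurj.range_comp]

section Alg

open MvPolynomial

attribute [local instance] MvPolynomial.gradedAlgebra

variable (R : Type) [CommRing R] (K : Type) [Field K] [Algebra R K] (x : K)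

private noncomputable abbrev gr : ℕ → Submodule R (MvPolynomial (Fin 2) R) :=
  MvPolynomial.homogeneousSubmodule (Fin 2) R

private noncomputable def evl : MvPolynomial (Fin 2) R →ₐ[R] K := MvPolynomial.aeval ![x, 1]

private noncomputable def pt (f : MvPolynomial (Fin 2) R) (hf : IsUnit (evl R K x f)) :
    HomogeneousLocalization.Away (gr R) f →+* K :=
  (Localization.awayLift (evl R K x : MvPolynomial (Fin 2) R →+* K) f hf).comp
    (algebraMap (HomogeneousLocalization.Away (gr R) f) (Localization.Away f))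

private theorem pt_comp (f g h : MvPolynomial (Fin 2) R) (hf : IsUnit (evl R K x f))
    (hh : IsUnit (evl R K x h)) {e : ℕ} (hg : g ∈ gr R e) (hx : h = f * g) :
    (pt R K x h hh).comp (HomogeneousLocalization.awayMap (gr R) hg hx) = pt R K x f hf := by
  have key : (Localization.awayLift (evl R K x : MvPolynomial (Fin 2) R →+* K) h hh).comp
      (Localization.awayLift (algebraMap (MvPolynomial (Fin 2) R) (Localization.Away h)) f
        (isUnit_of_dvd_unit (map_dvd _ ⟨_, hx⟩) (IsLocalization.Away.algebraMap_isUnit h))) =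
      Localization.awayLift (evl R K x : MvPolynomial (Fin 2) R →+* K) f hf := by
    apply IsLocalization.ringHom_ext (Submonoid.powers f)
    ext a
    · simp [Localization.awayLift]
    · simp [Localization.awayLift]
  ext a
  have := HomogeneousLocalization.val_awayMap (gr R) hg hx a
  simp only [pt, RingHom.comp_apply, HomogeneousLocalization.algebraMap_apply] at this ⊢
  rw [this, ← key, RingHom.comp_apply]

private theorem pt_fromZero (f : MvPolynomial (Fin 2) R) (hf : IsUnit (evl R K x f)) :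
    ((pt R K x f hf).comp (HomogeneousLocalization.fromZeroRingHom (gr R) (.powers f))).comp
      (algebraMap R (gr R 0)) = algebraMap R K := by
  ext a
  have h1 : (HomogeneousLocalization.fromZeroRingHom (gr R) (.powers f)
      (algebraMap R (gr R 0) a)).val = algebraMap (MvPolynomial (Fin 2) R) (Localization.Away f)
        (algebraMap R (MvPolynomial (Fin 2) R) a) := by
    rfl
  simp only [pt, RingHom.comp_apply, HomogeneousLocalization.algebraMap_apply, h1]
  simp [Localization.awayLift]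

private theorem pt_mk (f : MvPolynomial (Fin 2) R) (hf : IsUnit (evl R K x f)) {d : ℕ}
    (hd : f ∈ gr R d) (n : ℕ) (a : MvPolynomial (Fin 2) R) (ha : a ∈ gr R (n • d)) :
    pt R K x f hf (HomogeneousLocalization.Away.mk (gr R) hd n a ha) =
      evl R K x a * ((evl R K x f)⁻¹) ^ n := by
  simp only [pt, RingHom.comp_apply, HomogeneousLocalization.algebraMap_apply,
    HomogeneousLocalization.Away.val_mk]
  exact Localization.awayLift_mk (evl R K x : MvPolynomial (Fin 2) R →+* K) f a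
    ((evl R K x f)⁻¹) (mul_inv_cancel₀ hf.ne_zero) n

private theorem adjoin_le_range (f : MvPolynomial (Fin 2) R) (hf : IsUnit (evl R K x f))
    (y : K) (hy : y ∈ Set.range (pt R K x f hf)) :
    ((Algebra.adjoin R {y} : Subalgebra R K) : Set K) ⊆ Set.range (pt R K x f hf) := by
  let S : Subalgebra R K :=
    { (pt R K x f hf).range with
      algebraMap_mem' := fun r => by
        have := RingHom.congr_fun (pt_fromZero R K x f hf) r
        exact ⟨_, this⟩ }
  have h1 : Algebra.adjoin R {y} ≤ S := by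
    rw [Algebra.adjoin_le_iff]
    rintro _ rfl
    exact hy
  exact h1

private theorem evl_eq (a : MvPolynomial (Fin 2) R) :
    evl R K x a = ∑ m ∈ a.support, algebraMap R K (a.coeff m) * x ^ (m 0) := by
  rw [evl, MvPolynomial.aeval_def, MvPolynomial.eval₂_eq']
  simp [Fin.prod_univ_two]

private theorem range_pt_one (hf : IsUnit (evl R K x (X 1))) :
    Set.range (pt R K x (X 1) hf) = (Algebra.adjoin R {x} : Subalgebra R K) := by
  have hX : (X 1 : MvPolynomial (Fin 2) R) ∈ gr R 1 := isHomogeneous_X R 1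
  have h1 : evl R K x (X 1) = 1 := by simp [evl]
  apply Set.Subset.antisymm
  · rintro _ ⟨z, rfl⟩
    obtain ⟨n, a, ha, rfl⟩ := HomogeneousLocalization.Away.mk_surjective (gr R) hX z
    rw [pt_mk, h1]
    simp only [inv_one, one_pow, mul_one, SetLike.mem_coe]
    rw [evl_eq]
    refine Subalgebra.sum_mem _ fun m _ => Subalgebra.mul_mem _ (Subalgebra.algebraMap_mem _ _) ?_
    exact Subalgebra.pow_mem _ (Algebra.self_mem_adjoin_singleton R x) _
  · apply adjoin_le_range
    have h0 : (X 0 : MvPolynomial (Fin 2) R) ∈ gr R ((1 : ℕ) • (1 : ℕ)) := by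
      rw [show ((1 : ℕ) • (1 : ℕ) : ℕ) = 1 from rfl]
      exact isHomogeneous_X R 0
    refine ⟨HomogeneousLocalization.Away.mk (gr R) hX 1 (X 0) h0, ?_⟩
    rw [pt_mk, h1]
    simp [evl]

private theorem range_pt_zero (hx : x ≠ 0) (hf : IsUnit (evl R K x (X 0))) :
    Set.range (pt R K x (X 0) hf) = (Algebra.adjoin R {x⁻¹} : Subalgebra R K) := by
  have hX : (X 0 : MvPolynomial (Fin 2) R) ∈ gr R 1 := isHomogeneous_X R 0
  have h1 : evl R K x (X 0) = x := by simp [evl]
  apply Set.Subset.antisymm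
  · rintro _ ⟨z, rfl⟩
    obtain ⟨n, a, ha, rfl⟩ := HomogeneousLocalization.Away.mk_surjective (gr R) hX z
    rw [pt_mk, h1, evl_eq, Finset.sum_mul]
    refine Subalgebra.sum_mem _ fun m hm => ?_
    have hdeg : m 0 + m 1 = n := by
      have h2 : (a : MvPolynomial (Fin 2) R).IsHomogeneous (n • 1) := ha
      have h3 := h2 (MvPolynomial.mem_support_iff.mp hm)
      rw [Finsupp.weight_apply, Finsupp.sum_fintype _ _ (by simp), Fin.sum_univ_two] at h3
      simpa using h3
    have h4 : x ^ (m 0) * (x⁻¹) ^ n = (x⁻¹) ^ (m 1) := by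
      rw [← hdeg, pow_add, ← mul_assoc, ← mul_pow, mul_inv_cancel₀ hx, one_pow, one_mul]
    rw [mul_assoc, h4]
    refine Subalgebra.mul_mem _ (Subalgebra.algebraMap_mem _ _) ?_
    exact Subalgebra.pow_mem _ (Algebra.self_mem_adjoin_singleton R x⁻¹) _
  · apply adjoin_le_range
    have h0 : (X 1 : MvPolynomial (Fin 2) R) ∈ gr R ((1 : ℕ) • (1 : ℕ)) := by
      rw [show ((1 : ℕ) • (1 : ℕ) : ℕ) = 1 from rfl]
      exact isHomogeneous_X R 1
    refine ⟨HomogeneousLocalization.Away.mk (gr R) hX 1 (X 1) h0, ?_⟩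
    rw [pt_mk, h1]
    simp [evl]

private theorem finiteType_zero :
    Algebra.FiniteType (gr R 0) (MvPolynomial (Fin 2) R) := by
  have : IsScalarTower R (gr R 0) (MvPolynomial (Fin 2) R) := by
    exact IsScalarTower.of_algebraMap_eq (R := R) (S := gr R 0) (A := MvPolynomial (Fin 2) R)
      (fun r => rfl)
  exact Algebra.FiniteType.of_restrictScalars_finiteType R (gr R 0) (MvPolynomial (Fin 2) R)

private theorem bij_zero : Function.Bijective (algebraMap R (gr R 0)) := by
  constructor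
  · intro a b h
    have h1 := congrArg (fun z : gr R 0 => (z : MvPolynomial (Fin 2) R)) h
    simpa using h1
  · rintro ⟨a, ha⟩
    have h1 : a.IsHomogeneous 0 := ha
    have h2 := (MvPolynomial.totalDegree_zero_iff_isHomogeneous (Fin 2)).mpr h1
    rw [MvPolynomial.totalDegree_eq_zero_iff_eq_C] at h2
    refine ⟨a.coeff 0, ?_⟩
    apply Subtype.ext
    exact h2.symm

end Alg

open MvPolynomial in
attribute [local instance] MvPolynomial.gradedAlgebra in
theorem exists_P1 (R : Type) [CommRing R] (K : Type) [Field K] [Algebra R K] (x : K)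
    (hx : x ≠ 0) :
    ∃ (P : Scheme.{0}) (π : P ⟶ Spec (.of R)) (j : Spec (.of K) ⟶ P) (U₀ U₁ : P.Opens)
      (h₀ : j ⁻¹ᵁ U₀ = ⊤) (h₁ : j ⁻¹ᵁ U₁ = ⊤),
      IsProper π ∧ IsAffineOpen U₀ ∧ IsAffineOpen U₁ ∧ U₀ ⊔ U₁ = ⊤ ∧
      j ≫ π = Spec.map (CommRingCat.ofHom (algebraMap R K)) ∧
      Set.range (pointMap j U₀ h₀) = (Algebra.adjoin R {x} : Subalgebra R K) ∧
      Set.range (pointMap j U₁ h₁) = (Algebra.adjoin R {x⁻¹} : Subalgebra R K) := by
  have hX0 : (X 0 : MvPolynomial (Fin 2) R) ∈ gr R 1 := isHomogeneous_X R 0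
  have hX1 : (X 1 : MvPolynomial (Fin 2) R) ∈ gr R 1 := isHomogeneous_X R 1
  have e0 : evl R K x (X 0) = x := by simp [evl]
  have e1 : evl R K x (X 1) = 1 := by simp [evl]
  have u0 : IsUnit (evl R K x (X 0)) := by rw [e0]; exact hx.isUnit
  have u1 : IsUnit (evl R K x (X 1)) := by rw [e1]; exact isUnit_one
  have u : IsUnit (evl R K x (X 0 * X 1)) := by rw [map_mul]; exact u0.mul u1
  have c0 := pt_comp R K x (X 0) (X 1) (X 0 * X 1) u0 u hX1 rfl
  have c1 := pt_comp R K x (X 1) (X 0) (X 0 * X 1) u1 u hX0 (mul_comm _ _)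
  have hft := finiteType_zero R
  let π : Proj (gr R) ⟶ Spec (.of R) :=
    Proj.toSpecZero (gr R) ≫ Spec.map (CommRingCat.ofHom (algebraMap R (gr R 0)))
  have hiso : IsIso (Spec.map (CommRingCat.ofHom (algebraMap R (gr R 0)))) := by
    have : IsIso (CommRingCat.ofHom (algebraMap R (gr R 0))) :=
      (RingEquiv.ofBijective _ (bij_zero R)).toCommRingCatIso.isIso_hom
    infer_instance
  have hprop : IsProper π := inferInstance
  let i0 := Proj.awayι (gr R) (X 0) hX0 one_pos
  let i1 := Proj.awayι (gr R) (X 1) hX1 one_pos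
  let j : Spec (.of K) ⟶ Proj (gr R) := Spec.map (CommRingCat.ofHom (pt R K x (X 0) u0)) ≫ i0
  have hj0 : Spec.map (CommRingCat.ofHom (pt R K x (X 0) u0)) ≫ i0 = j := rfl
  have hj1 : Spec.map (CommRingCat.ofHom (pt R K x (X 1) u1)) ≫ i1 = j := by
    rw [← hj0, ← c0, ← c1, CommRingCat.ofHom_comp, CommRingCat.ofHom_comp, Spec.map_comp,
      Spec.map_comp, Category.assoc, Category.assoc]
    congr 1
    rw [Proj.SpecMap_awayMap_awayι, Proj.SpecMap_awayMap_awayι]
  have r0 : i0.opensRange = Proj.basicOpen (gr R) (X 0) := Proj.opensRange_awayι _ _ _ _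
  have r1 : i1.opensRange = Proj.basicOpen (gr R) (X 1) := Proj.opensRange_awayι _ _ _ _
  have h0 : j ⁻¹ᵁ (Proj.basicOpen (gr R) (X 0)) = ⊤ := by
    rw [← r0, ← hj0]
    simp
  have h1 : j ⁻¹ᵁ (Proj.basicOpen (gr R) (X 1)) = ⊤ := by
    rw [← r1, ← hj1]
    simp
  refine ⟨Proj (gr R), π, j, Proj.basicOpen (gr R) (X 1), Proj.basicOpen (gr R) (X 0), h1, h0,
    hprop, Proj.isAffineOpen_basicOpen _ _ hX1 one_pos, Proj.isAffineOpen_basicOpen _ _ hX0 one_pos,
    ?_, ?_, ?_, ?_⟩
  · have := Proj.iSup_basicOpen_eq_top' (gr R) (fun i : Fin 2 => (X i : MvPolynomial (Fin 2) R))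
      (fun i => ⟨1, isHomogeneous_X R i⟩) ?_
    · rw [← this]
      apply le_antisymm
      · exact sup_le (le_iSup (fun i : Fin 2 => Proj.basicOpen (gr R) (X i)) 1)
          (le_iSup (fun i : Fin 2 => Proj.basicOpen (gr R) (X i)) 0)
      · refine iSup_le fun i => ?_
        fin_cases i
        · exact le_sup_right
        · exact le_sup_left
    · rw [eq_top_iff]
      intro a _
      induction a using MvPolynomial.induction_on with
      | C r => exact Subalgebra.algebraMap_mem _ (algebraMap R (gr R 0) r)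
      | add p q hp hq => exact Subalgebra.add_mem _ (hp trivial) (hq trivial)
      | mul_X p i hp => exact Subalgebra.mul_mem _ (hp trivial) (Algebra.subset_adjoin ⟨i, rfl⟩)
  · rw [← hj0]
    change (_ ≫ i0) ≫ Proj.toSpecZero (gr R) ≫ Spec.map _ = _
    rw [Category.assoc, Proj.awayι_toSpecZero_assoc, ← Spec.map_comp, ← Spec.map_comp,
      ← CommRingCat.ofHom_comp, ← CommRingCat.ofHom_comp, ← RingHom.comp_assoc, pt_fromZero]
  · rw [range_pointMap _ i1 _ j hj1 _ r1 h1]
    exact range_pt_one R K x u1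
  · rw [range_pointMap _ i0 _ j hj0 _ r0 h0]
    exact range_pt_zero R K x hx u0

end DynBad
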