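import Pool.Agent.DynBad.QSets

/-!
# Module QAnn: the contribution of the thin annuli `V_r \ U_r`

`ρ_j = rad z r j = r k_j`, `k_j > 0`, `ρ_{j+1} = 2‖z_j‖ ρ_j` and `ρ_d = ρ_0` (`hmul`).
Let `y ∈ V_r \ U_r`: there is `j < d` with `‖y - z_j‖ ≤ ρ_j` and `‖y^2 + c - z_k‖ > ρ_k` for all
`k < d`; with `k = j + 1` (or `k = 0` if `j + 1 = d`, `z_d = z_0`, `ρ_d = ρ_0`),
`y^2 + c - z_{j+1} = (y - z_j)(y + z_j)`, so `‖y - z_j‖ ‖y + z_j‖ > 2 ‖z_j‖ ρ_j`, and
`‖y + z_j‖ ≤ 2‖z_j‖ + ρ_j`, so `‖y - z_j‖ > ρ_j (1 - ρ_j/(2‖z_j‖))` `≥ ρ_j - C₁ ρ_j^2`.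
The area of `{ρ_j - C₁ρ_j^2 < ‖y - z_j‖ ≤ ρ_j}` is `≤ π (ρ_j^2 - (ρ_j - C₁ρ_j^2)^2) ≤ 2π C₁ ρ_j^3`,
and for `r` small `‖RR y‖ ≤ C₂ ρ_j^(-2)` there (`‖y - z_j‖ ≥ ρ_j/2`, and the other `z_k` are at
distance `≥` a positive constant, the `z_k` being distinct).  Sum over `j`: `≤ C r`.
-/

namespace DynBad

open Finset MeasureTheory

private lemma vol_ann (z : ℂ) {s ρ : ℝ} (hs : 0 ≤ s) (h : s ≤ ρ) :
    volume (Metric.closedBall z ρ \ Metric.closedBall z s) =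
      ENNReal.ofReal (Real.pi * (ρ ^ 2 - s ^ 2)) := by
  have hfin : volume (Metric.closedBall z s) ≠ ⊤ := measure_closedBall_lt_top.ne
  rw [measure_sdiff (Metric.closedBall_subset_closedBall h)
    Metric.isClosed_closedBall.measurableSet.nullMeasurableSet hfin,
    Complex.volume_closedBall, Complex.volume_closedBall]
  have hpi : ((NNReal.pi : NNReal) : ENNReal) = ENNReal.ofReal Real.pi := by
    rw [ENNReal.ofReal, ← NNReal.coe_real_pi, Real.toNNReal_coe]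
  have e : ∀ t : ℝ, 0 ≤ t → ENNReal.ofReal t ^ 2 * (NNReal.pi : NNReal) =
      ENNReal.ofReal (Real.pi * t ^ 2) := by
    intro t ht
    rw [hpi, ← ENNReal.ofReal_pow ht, ← ENNReal.ofReal_mul (by positivity), mul_comm]
  rw [e ρ (hs.trans h), e s hs, ← ENNReal.ofReal_sub _ (by positivity)]
  congr 1
  ring

theorem RR_annulus {d : ℕ} (hd : 1 ≤ d) (z β : ℕ → ℂ) (c α : ℂ)
    (hz : ∀ j, z (j + 1) = z j ^ 2 + c)
    (hper : z d = z 0) (hinj : ∀ i < d, ∀ j < d, z i = z j → i = j)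
    (hmul : ‖∏ j ∈ range d, 2 * z j‖ = 1) :
    ∃ C r₀ : ℝ, 0 < C ∧ 0 < r₀ ∧ ∀ r : ℝ, 0 < r → r < r₀ →
      ∫⁻ y in Vset d z c r \ Uset d z r, ENNReal.ofReal ‖RR d z β α y‖ ≤
        ENNReal.ofReal (C * r) := by
  classical
  -- nonvanishing
  have hz0 : ∀ j < d, z j ≠ 0 := by
    intro j hj h0
    have : ∏ j ∈ range d, 2 * z j = 0 := prod_eq_zero (mem_range.mpr hj) (by rw [h0, mul_zero])
    rw [this, norm_zero] at hmul
    exact zero_ne_one hmul
  set k : ℕ → ℝ := fun j => ∏ i ∈ range j, ‖2 * z i‖ with hk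
  have hk0 : ∀ j, j ≤ d → 0 < k j := by
    intro j hj
    refine prod_pos fun i hi => norm_pos_iff.mpr ?_
    exact mul_ne_zero two_ne_zero (hz0 i ((mem_range.mp hi).trans_le hj))
  have hrad : ∀ r j, rad z r j = r * k j := fun r j => rfl
  have hkd : k d = 1 := by
    simp only [hk]
    rw [← norm_prod]
    exact hmul
  have hk1 : k 0 = 1 := by simp [hk]
  have hks : ∀ j, k (j + 1) = 2 * ‖z j‖ * k j := by
    intro j
    simp only [hk]
    rw [prod_range_succ, norm_mul, Complex.norm_ofNat, mul_comm]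
  -- separation
  set D : ℝ := 1 + ∑ i ∈ range d, ∑ j ∈ range d, ‖z i - z j‖⁻¹ with hD
  have hD1 : 1 ≤ D := by
    have : 0 ≤ ∑ i ∈ range d, ∑ j ∈ range d, ‖z i - z j‖⁻¹ := by positivity
    linarith
  have hsep : ∀ i < d, ∀ j < d, i ≠ j → 1 / D ≤ ‖z i - z j‖ := by
    intro i hi j hj hij
    have h0 : 0 < ‖z i - z j‖ := norm_pos_iff.mpr (sub_ne_zero.mpr fun h => hij (hinj i hi j hj h))
    have h1 : ‖z i - z j‖⁻¹ ≤ D := by
      have h2 : ‖z i - z j‖⁻¹ ≤ ∑ j ∈ range d, ‖z i - z j‖⁻¹ :=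
        single_le_sum (f := fun j => ‖z i - z j‖⁻¹) (fun _ _ => by positivity) (mem_range.mpr hj)
      have h3 : ∑ j ∈ range d, ‖z i - z j‖⁻¹ ≤ ∑ i ∈ range d, ∑ j ∈ range d, ‖z i - z j‖⁻¹ :=
        single_le_sum (f := fun i => ∑ j ∈ range d, ‖z i - z j‖⁻¹)
          (fun _ _ => by positivity) (mem_range.mpr hi)
      linarith
    rw [div_le_iff₀ (by linarith)]
    calc (1 : ℝ) = ‖z i - z j‖ * ‖z i - z j‖⁻¹ := by field_simp
      _ ≤ ‖z i - z j‖ * D := by gcongr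
  set S : ℝ := 1 + ∑ j ∈ range d, k j * (1 + 2 * D + 1 / ‖z j‖) with hS
  have hSle : ∀ j < d, k j * (1 + 2 * D + 1 / ‖z j‖) ≤ S := by
    intro j hj
    have h1 : k j * (1 + 2 * D + 1 / ‖z j‖) ≤ ∑ j ∈ range d, k j * (1 + 2 * D + 1 / ‖z j‖) :=
      single_le_sum (f := fun j => k j * (1 + 2 * D + 1 / ‖z j‖)) (fun i hi => by
        have := hk0 i (mem_range.mp hi).le
        positivity) (mem_range.mpr hj)
    linarith
  have hS0 : 0 < S := by
    have h := hSle 0 (by omega)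
    have h1 := hk0 0 (by omega)
    have h2 : 0 < k 0 * (1 + 2 * D + 1 / ‖z 0‖) := by positivity
    linarith
  set C₂ : ℝ := ∑ i ∈ range d, (4 * ‖α‖ + 2 * ‖β i‖) with hC₂
  have hC₂0 : 0 ≤ C₂ := by positivity
  set C : ℝ := 1 + ∑ j ∈ range d, (C₂ * Real.pi * (1 / ‖z j‖) * k j) with hC
  have hC0 : 0 < C := by
    have : 0 ≤ ∑ j ∈ range d, (C₂ * Real.pi * (1 / ‖z j‖) * k j) := by
      refine sum_nonneg fun j hj => ?_
      have := hk0 j (mem_range.mp hj).le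
      positivity
    linarith
  refine ⟨C, 1 / S, hC0, by positivity, fun r hr hr0 => ?_⟩
  have hrS : r * S < 1 := by rwa [lt_div_iff₀ hS0] at hr0
  -- facts on ρ
  have hρ : ∀ j < d, 0 < r * k j ∧ r * k j < 1 ∧ r * k j * (2 * D) < 1 ∧
      r * k j < ‖z j‖ := by
    intro j hj
    have hkj := hk0 j hj.le
    have hzj : 0 < ‖z j‖ := norm_pos_iff.mpr (hz0 j hj)
    have h1 : r * (k j * (1 + 2 * D + 1 / ‖z j‖)) < 1 :=
      (mul_le_mul_of_nonneg_left (hSle j hj) hr.le).trans_lt hrS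
    have h2 : r * (k j * (1 + 2 * D + 1 / ‖z j‖)) =
      r * k j + r * k j * (2 * D) + r * k j / ‖z j‖ := by ring
    rw [h2] at h1
    have h3 : 0 < r * k j := by positivity
    have h4 : 0 < r * k j * (2 * D) := by positivity
    have h5 : 0 < r * k j / ‖z j‖ := by positivity
    refine ⟨h3, by linarith, by linarith, ?_⟩
    have h6 : r * k j / ‖z j‖ < 1 := by linarith
    rwa [div_lt_one hzj] at h6
  set A : Fin d → Set ℂ := fun j => Metric.closedBall (z j) (r * k j) \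
    Metric.closedBall (z j) (r * k j - (r * k j) ^ 2 / (2 * ‖z j‖)) with hA
  have hsub : Vset d z c r \ Uset d z r ⊆ ⋃ j, A j := by
    rintro y ⟨hyV, hyU⟩
    simp only [Uset, Set.mem_ofPred_eq, not_forall, not_lt] at hyU
    obtain ⟨j, hj, hyj⟩ := hyU
    rw [hrad] at hyj
    obtain ⟨h1, h2, h3, h4⟩ := hρ j hj
    have hzj : 0 < ‖z j‖ := norm_pos_iff.mpr (hz0 j hj)
    have hkey : 2 * ‖z j‖ * (r * k j) < ‖y - z j‖ * ‖y + z j‖ := by
      rw [← norm_mul]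
      have e : (y - z j) * (y + z j) = y ^ 2 + c - z (j + 1) := by rw [hz j]; ring
      rw [e]
      rcases Nat.lt_or_ge (j + 1) d with hlt | hge
      · have := hyV (j + 1) hlt
        rw [hrad, hks] at this
        linarith
      · have hjd : j + 1 = d := by omega
        have := hyV 0 (by omega)
        rw [hrad, hk1] at this
        rw [hjd, hper]
        have h5 : 2 * ‖z j‖ * k j = 1 := by rw [← hks, hjd, hkd]
        have h6 : 2 * ‖z j‖ * (r * k j) = r := by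
          calc _ = r * (2 * ‖z j‖ * k j) := by ring
            _ = r := by rw [h5, mul_one]
        rw [h6]
        linarith
    refine Set.mem_iUnion.mpr ⟨⟨j, hj⟩, ?_⟩
    simp only [hA, Set.mem_sdiff, mem_closedBall_iff_norm]
    refine ⟨hyj, ?_⟩
    rw [not_le]
    have h7 : ‖y + z j‖ ≤ 2 * ‖z j‖ + r * k j := by
      have : y + z j = (y - z j) + 2 * z j := by ring
      rw [this]
      refine (norm_add_le _ _).trans ?_
      rw [norm_mul, Complex.norm_ofNat]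
      linarith
    have h8 : 2 * ‖z j‖ * (r * k j) < ‖y - z j‖ * (2 * ‖z j‖ + r * k j) :=
      hkey.trans_le (by gcongr)
    have h9 : (r * k j - (r * k j) ^ 2 / (2 * ‖z j‖)) * (2 * ‖z j‖ + r * k j) ≤
        2 * ‖z j‖ * (r * k j) := by
      have e : (r * k j - (r * k j) ^ 2 / (2 * ‖z j‖)) * (2 * ‖z j‖ + r * k j) =
        2 * ‖z j‖ * (r * k j) - (r * k j) ^ 3 / (2 * ‖z j‖) := by
        field_simp
        ring
      rw [e]
      have : 0 ≤ (r * k j) ^ 3 / (2 * ‖z j‖) := by positivity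
      linarith
    have h10 := h9.trans_lt h8
    exact lt_of_mul_lt_mul_right h10 (by positivity)
  have hAj : ∀ j : Fin d, ∫⁻ y in A j, ENNReal.ofReal ‖RR d z β α y‖ ≤
      ENNReal.ofReal (C₂ * Real.pi * (1 / ‖z j‖) * k j * r) := by
    intro j
    obtain ⟨h1, h2, h3, h4⟩ := hρ j j.2
    have hzj : 0 < ‖z j‖ := norm_pos_iff.mpr (hz0 j j.2)
    set ρ : ℝ := r * k j with hρdef
    have hq : ρ ^ 2 / (2 * ‖z j‖) ≤ ρ / 2 := by
      rw [div_le_div_iff₀ (by positivity) (by positivity)]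
      nlinarith
    have hq0 : 0 ≤ ρ ^ 2 / (2 * ‖z j‖) := by positivity
    have hb : ∀ y ∈ A j, ENNReal.ofReal ‖RR d z β α y‖ ≤ ENNReal.ofReal (C₂ / ρ ^ 2) := by
      intro y hy
      simp only [hA, Set.mem_sdiff, mem_closedBall_iff_norm, not_le] at hy
      obtain ⟨hy1, hy2⟩ := hy
      refine ENNReal.ofReal_le_ofReal ?_
      have hfar : ∀ i < d, ρ / 2 ≤ ‖y - z i‖ := by
        intro i hi
        by_cases hij : i = (j : ℕ)
        · rw [hij]
          linarith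
        · have h5 := hsep i hi j j.2 hij
          have h6 : ρ ≤ 1 / (2 * D) := by
            rw [le_div_iff₀ (by positivity)]
            linarith
          have h7 : 1 / D = 1 / (2 * D) + 1 / (2 * D) := by field_simp; norm_num
          have h8 : ‖z i - z j‖ ≤ ‖y - z i‖ + ‖y - z j‖ := by
            have : z i - z j = (y - z j) - (y - z i) := by ring
            rw [this, add_comm]
            exact norm_sub_le _ _
          linarith
      refine (norm_sum_le _ _).trans ?_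
      rw [hC₂, sum_div]
      refine sum_le_sum fun i hi => ?_
      have h5 := hfar i (mem_range.mp hi)
      refine (norm_add_le _ _).trans ?_
      rw [norm_div, norm_div, norm_pow]
      have h6 : ‖α‖ / ‖y - z i‖ ^ 2 ≤ ‖α‖ / (ρ / 2) ^ 2 := by gcongr
      have h7 : ‖β i‖ / ‖y - z i‖ ≤ ‖β i‖ / (ρ / 2) := by gcongr
      have h8 : ‖β i‖ / (ρ / 2) ≤ 2 * ‖β i‖ / ρ ^ 2 := by
        rw [div_le_div_iff₀ (by positivity) (by positivity)]
        have : ‖β i‖ * ρ ^ 2 ≤ ‖β i‖ * ρ := by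
          have : ρ ^ 2 ≤ ρ := by nlinarith
          gcongr
        linarith
      have h9 : ‖α‖ / (ρ / 2) ^ 2 = 4 * ‖α‖ / ρ ^ 2 := by field_simp; norm_num
      calc _ ≤ ‖α‖ / (ρ / 2) ^ 2 + ‖β i‖ / (ρ / 2) := add_le_add h6 h7
        _ ≤ 4 * ‖α‖ / ρ ^ 2 + 2 * ‖β i‖ / ρ ^ 2 := by rw [h9]; gcongr
        _ = _ := by ring
    have hAm : MeasurableSet (A j) :=
      Metric.isClosed_closedBall.measurableSet.diff Metric.isClosed_closedBall.measurableSet
    calc ∫⁻ y in A j, ENNReal.ofReal ‖RR d z β α y‖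
        ≤ ∫⁻ _ in A j, ENNReal.ofReal (C₂ / ρ ^ 2) := setLIntegral_mono' hAm hb
      _ = ENNReal.ofReal (C₂ / ρ ^ 2) * volume (A j) := by rw [setLIntegral_const]
      _ = ENNReal.ofReal (C₂ / ρ ^ 2) *
          ENNReal.ofReal (Real.pi * (ρ ^ 2 - (ρ - ρ ^ 2 / (2 * ‖z j‖)) ^ 2)) := by
        simp only [hA]
        rw [vol_ann (z j) (by linarith) (by linarith)]
      _ = ENNReal.ofReal (C₂ / ρ ^ 2 * (Real.pi * (ρ ^ 2 - (ρ - ρ ^ 2 / (2 * ‖z j‖)) ^ 2))) := by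
        rw [← ENNReal.ofReal_mul (by positivity : (0 : ℝ) ≤ C₂ / ρ ^ 2)]
      _ ≤ ENNReal.ofReal (C₂ * Real.pi * (1 / ‖z j‖) * k j * r) := by
        refine ENNReal.ofReal_le_ofReal ?_
        have h5 : ρ ^ 2 - (ρ - ρ ^ 2 / (2 * ‖z j‖)) ^ 2 ≤ ρ ^ 3 / ‖z j‖ := by
          have e : ρ ^ 2 - (ρ - ρ ^ 2 / (2 * ‖z j‖)) ^ 2 =
            ρ ^ 3 / ‖z j‖ - (ρ ^ 2 / (2 * ‖z j‖)) ^ 2 := by
            field_simp
            ring
          rw [e]
          have : 0 ≤ (ρ ^ 2 / (2 * ‖z j‖)) ^ 2 := by positivity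
          linarith
        have h6 : 0 ≤ C₂ / ρ ^ 2 := by positivity
        calc C₂ / ρ ^ 2 * (Real.pi * (ρ ^ 2 - (ρ - ρ ^ 2 / (2 * ‖z j‖)) ^ 2))
            ≤ C₂ / ρ ^ 2 * (Real.pi * (ρ ^ 3 / ‖z j‖)) := by gcongr
          _ = C₂ * Real.pi * (1 / ‖z j‖) * ρ := by field_simp
          _ = C₂ * Real.pi * (1 / ‖z j‖) * k j * r := by rw [hρdef]; ring
  calc ∫⁻ y in Vset d z c r \ Uset d z r, ENNReal.ofReal ‖RR d z β α y‖
      ≤ ∫⁻ y in ⋃ j, A j, ENNReal.ofReal ‖RR d z β α y‖ := lintegral_mono_set hsub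
    _ ≤ ∑' j, ∫⁻ y in A j, ENNReal.ofReal ‖RR d z β α y‖ := lintegral_iUnion_le _ _
    _ = ∑ j, ∫⁻ y in A j, ENNReal.ofReal ‖RR d z β α y‖ := tsum_fintype _
    _ ≤ ∑ j : Fin d, ENNReal.ofReal (C₂ * Real.pi * (1 / ‖z j‖) * k j * r) :=
        sum_le_sum fun j _ => hAj j
    _ = ENNReal.ofReal (∑ j : Fin d, C₂ * Real.pi * (1 / ‖z j‖) * k j * r) := by
        rw [ENNReal.ofReal_sum_of_nonneg]
        intro j _
        have := hk0 j j.2.le
        positivity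
    _ ≤ ENNReal.ofReal (C * r) := by
        refine ENNReal.ofReal_le_ofReal ?_
        rw [Fin.sum_univ_eq_sum_range (fun j => C₂ * Real.pi * (1 / ‖z j‖) * k j * r) d,
          ← sum_mul, hC]
        nlinarith

end DynBad
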