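import Mathlib

/-!
# Module QCov: change of variables for `y ↦ y^2 + c`

On the open half plane `H = {Re y > 0}` the map `f(y) = y^2 + c` is injective with image
`{w : w - c ∈ slitPlane}`, whose complement has measure zero, and real Jacobian `‖2 y‖^2`
(`Complex.det_...`/`hasFDerivAt` of a holomorphic function; e.g.
`MeasureTheory.lintegral_image_eq_lintegral_abs_det_fderiv_mul`; the real determinant of
multiplication by a complex number `a` on `ℂ` is `‖a‖^2`).  The same on `-H`; the line
`Re y = 0` is a null set.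
-/

namespace DynBad

open MeasureTheory

private lemma det_mul (a : ℂ) :
    ((ContinuousLinearMap.toSpanSingleton ℂ a : ℂ →L[ℂ] ℂ).restrictScalars ℝ).det = ‖a‖ ^ 2 := by
  have h1 : ((ContinuousLinearMap.toSpanSingleton ℂ a : ℂ →L[ℂ] ℂ).restrictScalars ℝ).det =
      LinearMap.det (LinearMap.mulLeft ℝ a) := by
    unfold ContinuousLinearMap.det
    congr 1
    ext <;> simp [mul_comm]
  rw [h1]
  have h2 : LinearMap.det (LinearMap.mulLeft ℝ a) = Algebra.norm ℝ a := rfl
  rw [h2, Algebra.norm_complex_apply, Complex.normSq_eq_norm_sq]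

private lemma null_re : volume {y : ℂ | y.re = 0} = 0 := by
  have h : ({y : ℂ | y.re = 0} : Set ℂ) = (LinearMap.ker Complex.reLm : Submodule ℝ ℂ) := by
    ext y; simp
  rw [h]
  refine Measure.addHaar_submodule _ _ ?_
  intro htop
  have h1 : (1 : ℂ) ∈ LinearMap.ker Complex.reLm := htop ▸ Submodule.mem_top
  simp at h1

private lemma null_im (c : ℂ) : volume {w : ℂ | (w - c).im = 0} = 0 := by
  have h : ({w : ℂ | (w - c).im = 0} : Set ℂ) =
      (fun w => w - c) ⁻¹' (LinearMap.ker Complex.imLm : Submodule ℝ ℂ) := by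
    ext y; simp
  have h3 : MeasurePreserving (fun w : ℂ => w - c) volume volume := by
    simpa [sub_eq_add_neg] using measurePreserving_add_right volume (-c)
  rw [h, h3.measure_preimage (Submodule.closed_of_finiteDimensional _).measurableSet.nullMeasurableSet]
  refine Measure.addHaar_submodule _ _ ?_
  intro htop
  have h1 : (Complex.I : ℂ) ∈ LinearMap.ker Complex.imLm := htop ▸ Submodule.mem_top
  simp at h1

private lemma half (c : ℂ) (g : ℂ → ENNReal) (s : Set ℂ) (hs : MeasurableSet s)
    (hinj : ∀ x ∈ s, - x ∉ s) (hsurj : ∀ y : ℂ, y.re ≠ 0 → y ∈ s ∨ - y ∈ s) :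
    ∫⁻ y in s, g (y ^ 2 + c) * ENNReal.ofReal (‖2 * y‖ ^ 2) = ∫⁻ w : ℂ, g w := by
  have hd : ∀ x ∈ s, HasFDerivWithinAt (fun y : ℂ => y ^ 2 + c)
      ((ContinuousLinearMap.toSpanSingleton ℂ (2 * x) : ℂ →L[ℂ] ℂ).restrictScalars ℝ) s x := by
    intro x _
    have h1 : HasDerivAt (fun y : ℂ => y ^ 2 + c) (2 * x) x := by
      have := (hasDerivAt_pow 2 x).add_const c
      simpa using this
    exact (h1.hasFDerivAt.restrictScalars ℝ).hasFDerivWithinAt
  have hi : Set.InjOn (fun y : ℂ => y ^ 2 + c) s := by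
    intro a ha b hb hab
    have h1 : a ^ 2 = b ^ 2 := by simpa using hab
    rcases sq_eq_sq_iff_eq_or_eq_neg.mp h1 with h | h
    · exact h
    · exact absurd (h ▸ ha) (hinj b hb)
  have key := lintegral_image_eq_lintegral_abs_det_fderiv_mul volume hs hd hi g
  have himg : ∀ᵐ w : ℂ, w ∈ (fun y : ℂ => y ^ 2 + c) '' s := by
    refine measure_mono_null (t := {w : ℂ | (w - c).im = 0}) ?_ (null_im c)
    intro w hw
    by_contra him
    apply hw
    obtain ⟨y, hy⟩ := IsAlgClosed.exists_pow_nat_eq (w - c) (n := 2) (by norm_num)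
    have hre : y.re ≠ 0 := by
      intro h0
      apply him
      change (w - c).im = 0
      rw [← hy, sq, Complex.mul_im, h0]
      ring
    rcases hsurj y hre with h | h
    · exact ⟨y, h, by simp [hy]⟩
    · exact ⟨-y, h, by simp [hy]⟩
  have h2 : ∫⁻ w in (fun y : ℂ => y ^ 2 + c) '' s, g w = ∫⁻ w : ℂ, g w := by
    rw [← setLIntegral_univ (μ := volume) (f := g)]
    refine setLIntegral_congr ?_
    filter_upwards [himg] with w hw
    simp only [eq_iff_iff]
    exact ⟨fun _ => trivial, fun _ => hw⟩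
  rw [← h2, key]
  refine lintegral_congr fun y => ?_
  rw [det_mul, abs_of_nonneg (by positivity), mul_comm]

theorem lintegral_sq_add (c : ℂ) (g : ℂ → ENNReal) (hg : Measurable g) :
    ∫⁻ y : ℂ, g (y ^ 2 + c) * ENNReal.ofReal (‖2 * y‖ ^ 2) = 2 * ∫⁻ w : ℂ, g w := by
  have hp : MeasurableSet {y : ℂ | 0 < y.re} := measurableSet_lt measurable_const Complex.measurable_re
  have hm : MeasurableSet {y : ℂ | y.re < 0} := measurableSet_lt Complex.measurable_re measurable_const
  have h1 := half c g {y : ℂ | 0 < y.re} hp (fun x hx => by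
    simp only [Set.mem_ofPred_eq] at hx ⊢
    simp only [Complex.neg_re]; linarith) (fun y hy => by
    simp only [Set.mem_ofPred_eq, Complex.neg_re]
    rcases lt_or_gt_of_ne hy with h | h
    · right; linarith
    · left; exact h)
  have h2 := half c g {y : ℂ | y.re < 0} hm (fun x hx => by
    simp only [Set.mem_ofPred_eq] at hx ⊢
    simp only [Complex.neg_re]; linarith) (fun y hy => by
    simp only [Set.mem_ofPred_eq, Complex.neg_re]
    rcases lt_or_gt_of_ne hy with h | h
    · left; exact h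
    · right; linarith)
  have hun : ∫⁻ y : ℂ, g (y ^ 2 + c) * ENNReal.ofReal (‖2 * y‖ ^ 2) =
      ∫⁻ y in ({y : ℂ | 0 < y.re} ∪ {y : ℂ | y.re < 0}),
        g (y ^ 2 + c) * ENNReal.ofReal (‖2 * y‖ ^ 2) := by
    rw [← setLIntegral_univ]
    refine setLIntegral_congr ?_
    have h0 : ∀ᵐ y : ℂ, ¬ (y.re = 0) := by
      have := null_re
      rw [ae_iff]
      simpa using this
    filter_upwards [h0] with y hy
    simp only [eq_iff_iff]
    refine ⟨fun _ => ?_, fun _ => trivial⟩
    rcases lt_or_gt_of_ne hy with h | h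
    · exact Or.inr h
    · exact Or.inl h
  rw [hun, lintegral_union hm, h1, h2, two_mul]
  rw [Set.disjoint_left]
  intro y hy hy'
  simp only [Set.mem_ofPred_eq] at hy hy'
  linarith

end DynBad
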