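import Pool.Agent.DynBad.QSets

/-!
# Module QDecay: `RR` is `O(|y|^(-3))` at infinity, and integrable on `U_r`

`1/(y-z) = 1/y + z/y^2 + O(|y|^(-3))`, `1/(y-z)^2 = 1/y^2 + O(|y|^(-3))`, so
`RR y = (∑ β_j)/y + κ/y^2 + O(|y|^(-3))` with `κ = d α + ∑ β_j z_j`, `∑ β_j = 0`.  The functional
equation `RR_eq` multiplied by `y^2`, as `y → ∞`: left side `→ 2 κ`, right side
`4 y^4 RR(y^2 + c) → 4 κ`.  So `κ = 0`.

`RR_integrable`: `RR` is bounded on `{‖y‖ ≤ B} ∩ U_r` (each term is bounded by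
`|α|/ρ_j^2 + |β_j|/ρ_j`, in fact on all of `U_r`), and `C/‖y‖^3` is integrable on `{‖y‖ ≥ B}` in the
plane (e.g. `integrable_one_add_norm` with exponent `3 > 2 = dim_ℝ ℂ`).
-/

namespace DynBad

open Finset MeasureTheory Filter Topology

private lemma term_bound {y z α β : ℂ} (hy : 2 * ‖z‖ + 1 ≤ ‖y‖) :
    ‖α / (y - z) ^ 2 + β / (y - z) - (β / y + (α + β * z) / y ^ 2)‖ ≤
      (12 * ‖α‖ * ‖z‖ + 2 * ‖β‖ * ‖z‖ ^ 2) / ‖y‖ ^ 3 := by
  have hzn := norm_nonneg z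
  have hy0 : 0 < ‖y‖ := by linarith
  have hy' : y ≠ 0 := norm_pos_iff.mp hy0
  have hd : ‖y‖ / 2 ≤ ‖y - z‖ := by
    have := norm_sub_norm_le y z
    linarith
  have hd0 : 0 < ‖y - z‖ := by linarith
  have hd' : y - z ≠ 0 := norm_pos_iff.mp hd0
  have e : α / (y - z) ^ 2 + β / (y - z) - (β / y + (α + β * z) / y ^ 2) =
      α * z * (2 * y - z) / (y ^ 2 * (y - z) ^ 2) + β * z ^ 2 / (y ^ 2 * (y - z)) := by
    field_simp
    ring
  rw [e]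
  refine (norm_add_le _ _).trans ?_
  rw [norm_div, norm_div, norm_mul, norm_mul, norm_mul, norm_mul, norm_mul, norm_pow, norm_pow,
    norm_pow]
  have h1 : ‖2 * y - z‖ ≤ 3 * ‖y‖ := by
    refine (norm_sub_le _ _).trans ?_
    rw [norm_mul, Complex.norm_ofNat]
    linarith
  have h2 : ‖α‖ * ‖z‖ * ‖2 * y - z‖ / (‖y‖ ^ 2 * ‖y - z‖ ^ 2) ≤ 12 * ‖α‖ * ‖z‖ / ‖y‖ ^ 3 := by
    rw [div_le_div_iff₀ (by positivity) (by positivity)]
    have h3 : ‖α‖ * ‖z‖ * ‖2 * y - z‖ * ‖y‖ ^ 3 ≤ ‖α‖ * ‖z‖ * (3 * ‖y‖) * ‖y‖ ^ 3 := by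
      gcongr
    have h4 : ‖α‖ * ‖z‖ * (12 * (‖y‖ ^ 2 * (‖y‖ / 2) ^ 2)) ≤
        ‖α‖ * ‖z‖ * (12 * (‖y‖ ^ 2 * ‖y - z‖ ^ 2)) := by
      gcongr
    calc _ ≤ _ := h3
      _ = ‖α‖ * ‖z‖ * (12 * (‖y‖ ^ 2 * (‖y‖ / 2) ^ 2)) := by ring
      _ ≤ _ := h4
      _ = _ := by ring
  have h5 : ‖β‖ * ‖z‖ ^ 2 / (‖y‖ ^ 2 * ‖y - z‖) ≤ 2 * ‖β‖ * ‖z‖ ^ 2 / ‖y‖ ^ 3 := by
    rw [div_le_div_iff₀ (by positivity) (by positivity)]
    have h4 : ‖β‖ * ‖z‖ ^ 2 * (2 * (‖y‖ ^ 2 * (‖y‖ / 2))) ≤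
        ‖β‖ * ‖z‖ ^ 2 * (2 * (‖y‖ ^ 2 * ‖y - z‖)) := by
      gcongr
    calc _ = ‖β‖ * ‖z‖ ^ 2 * (2 * (‖y‖ ^ 2 * (‖y‖ / 2))) := by ring
      _ ≤ _ := h4
      _ = _ := by ring
  calc _ ≤ 12 * ‖α‖ * ‖z‖ / ‖y‖ ^ 3 + 2 * ‖β‖ * ‖z‖ ^ 2 / ‖y‖ ^ 3 := add_le_add h2 h5
    _ = _ := by ring

/-- second order expansion at infinity -/
private lemma RR_exp {d : ℕ} (z β : ℕ → ℂ) (α : ℂ) (hsum : ∑ j ∈ range d, β j = 0) :
    ∃ C B : ℝ, 0 < C ∧ 1 ≤ B ∧ ∀ y : ℂ, B ≤ ‖y‖ →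
      ‖RR d z β α y - (∑ j ∈ range d, (α + β j * z j)) / y ^ 2‖ ≤ C / ‖y‖ ^ 3 := by
  refine ⟨1 + ∑ j ∈ range d, (12 * ‖α‖ * ‖z j‖ + 2 * ‖β j‖ * ‖z j‖ ^ 2),
    1 + ∑ j ∈ range d, (2 * ‖z j‖), by positivity, ?_, ?_⟩
  · have : 0 ≤ ∑ j ∈ range d, (2 * ‖z j‖) := by positivity
    linarith
  intro y hy
  have hy0 : 0 < ‖y‖ := by
    have : 0 ≤ ∑ j ∈ range d, (2 * ‖z j‖) := by positivity
    linarith
  have e : RR d z β α y - (∑ j ∈ range d, (α + β j * z j)) / y ^ 2 =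
      ∑ j ∈ range d, (α / (y - z j) ^ 2 + β j / (y - z j) -
        (β j / y + (α + β j * z j) / y ^ 2)) := by
    rw [sum_sub_distrib, sum_add_distrib (f := fun j => β j / y), ← sum_div, ← sum_div, hsum,
      zero_div, zero_add]
    rfl
  rw [e]
  refine (norm_sum_le _ _).trans ?_
  have hle : ∀ j ∈ range d, ‖α / (y - z j) ^ 2 + β j / (y - z j) -
        (β j / y + (α + β j * z j) / y ^ 2)‖ ≤
      (12 * ‖α‖ * ‖z j‖ + 2 * ‖β j‖ * ‖z j‖ ^ 2) / ‖y‖ ^ 3 := by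
    intro j hj
    refine term_bound ?_
    have h1 : 2 * ‖z j‖ ≤ ∑ j ∈ range d, (2 * ‖z j‖) :=
      single_le_sum (f := fun j => 2 * ‖z j‖) (fun i _ => by positivity) hj
    linarith
  refine (sum_le_sum hle).trans ?_
  rw [← sum_div]
  gcongr
  linarith

private lemma kappa_zero {d : ℕ} (z β : ℕ → ℂ) (c α : ℂ) (hz : ∀ j, z (j + 1) = z j ^ 2 + c)
    (hper : z d = z 0) (hz0 : ∀ j < d, z j ≠ 0)
    (hβ : ∀ j < d, 2 * z j * β (j + 1) = β j - α / z j) (hβper : β d = β 0)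
    (hsum : ∑ j ∈ range d, β j = 0) : ∑ j ∈ range d, (α + β j * z j) = 0 := by
  set κ : ℂ := ∑ j ∈ range d, (α + β j * z j) with hκ
  obtain ⟨C, B, hC, hB, hexp⟩ := RR_exp z β α hsum
  have hT : Tendsto (fun y : ℂ => y ^ 2 * RR d z β α y) (Bornology.cobounded ℂ) (𝓝 κ) := by
    rw [tendsto_iff_norm_sub_tendsto_zero]
    have h1 : Tendsto (fun y : ℂ => C / ‖y‖) (Bornology.cobounded ℂ) (𝓝 0) :=
      tendsto_const_nhds.div_atTop tendsto_norm_cobounded_atTop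
    refine squeeze_zero' (Eventually.of_forall fun y => norm_nonneg _) ?_ h1
    filter_upwards [tendsto_norm_cobounded_atTop.eventually_ge_atTop B] with y hy
    have hy0 : 0 < ‖y‖ := by linarith
    have hy' : y ≠ 0 := norm_pos_iff.mp hy0
    have e : y ^ 2 * RR d z β α y - κ = y ^ 2 * (RR d z β α y - κ / y ^ 2) := by
      field_simp
    rw [e, norm_mul, norm_pow]
    calc ‖y‖ ^ 2 * ‖RR d z β α y - κ / y ^ 2‖ ≤ ‖y‖ ^ 2 * (C / ‖y‖ ^ 3) := by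
          gcongr; exact hexp y hy
      _ = C / ‖y‖ := by field_simp
  have hN : Tendsto (fun n : ℕ => (n : ℂ)) atTop (Bornology.cobounded ℂ) := by
    rw [← tendsto_norm_atTop_iff_cobounded]
    simpa using (tendsto_natCast_atTop_atTop (R := ℝ))
  have hN' : Tendsto (fun n : ℕ => -(n : ℂ)) atTop (Bornology.cobounded ℂ) := by
    rw [← tendsto_norm_atTop_iff_cobounded]
    simpa using (tendsto_natCast_atTop_atTop (R := ℝ))
  have hN2 : Tendsto (fun n : ℕ => (n : ℂ) ^ 2 + c) atTop (Bornology.cobounded ℂ) := by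
    rw [← tendsto_norm_atTop_iff_cobounded]
    have h1 : Tendsto (fun n : ℕ => (n : ℝ) ^ 2 - ‖c‖) atTop atTop :=
      tendsto_atTop_add_const_right _ _
        ((tendsto_pow_atTop two_ne_zero).comp tendsto_natCast_atTop_atTop)
    refine tendsto_atTop_mono (fun n => ?_) h1
    have := norm_sub_le ((n : ℂ) ^ 2 + c) c
    simp only [add_sub_cancel_right, norm_pow, Complex.norm_natCast] at this
    linarith
  have hL : Tendsto (fun n : ℕ => (n : ℂ) ^ 2 * (RR d z β α n + RR d z β α (-n))) atTop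
      (𝓝 (κ + κ)) := by
    have := (hT.comp hN).add (hT.comp hN')
    refine this.congr fun n => ?_
    simp only [Function.comp]
    ring
  have hR : Tendsto (fun n : ℕ => 4 * ((n : ℂ) ^ 2 / ((n : ℂ) ^ 2 + c)) ^ 2 *
      (((n : ℂ) ^ 2 + c) ^ 2 * RR d z β α ((n : ℂ) ^ 2 + c))) atTop (𝓝 (4 * 1 ^ 2 * κ)) := by
    refine Tendsto.mul (Tendsto.const_mul _ (Tendsto.pow ?_ 2)) (hT.comp hN2)
    have h1 : Tendsto (fun n : ℕ => c / ((n : ℂ) ^ 2 + c)) atTop (𝓝 0) := by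
      have h2 : Tendsto (fun n : ℕ => ((n : ℂ) ^ 2 + c)⁻¹) atTop (𝓝 0) :=
        tendsto_inv₀_cobounded.comp hN2
      simpa [div_eq_mul_inv] using h2.const_mul c
    have h3 : Tendsto (fun n : ℕ => 1 - c / ((n : ℂ) ^ 2 + c)) atTop (𝓝 1) := by
      simpa using tendsto_const_nhds.sub h1
    refine h3.congr' ?_
    filter_upwards [(tendsto_norm_cobounded_atTop.comp hN2).eventually_gt_atTop 0] with n hn
    have hn' : (n : ℂ) ^ 2 + c ≠ 0 := norm_pos_iff.mp hn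
    field_simp
    ring
  have hEq : (fun n : ℕ => (n : ℂ) ^ 2 * (RR d z β α n + RR d z β α (-n))) =ᶠ[atTop]
      (fun n : ℕ => 4 * ((n : ℂ) ^ 2 / ((n : ℂ) ^ 2 + c)) ^ 2 *
      (((n : ℂ) ^ 2 + c) ^ 2 * RR d z β α ((n : ℂ) ^ 2 + c))) := by
    have hbig : ∀ᶠ n : ℕ in atTop, ∑ j ∈ range d, ‖z j‖ < (n : ℝ) :=
      tendsto_natCast_atTop_atTop.eventually_gt_atTop _
    filter_upwards [(tendsto_norm_cobounded_atTop.comp hN2).eventually_gt_atTop 0, hbig] with n hn hb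
    have hn' : (n : ℂ) ^ 2 + c ≠ 0 := norm_pos_iff.mp hn
    have hzj : ∀ j < d, ‖z j‖ < (n : ℝ) := fun j hj =>
      (single_le_sum (f := fun j => ‖z j‖) (fun i _ => norm_nonneg _) (mem_range.mpr hj)).trans_lt hb
    rw [RR_eq z β c α hz hper hz0 hβ hβper hsum (n : ℂ)]
    · field_simp
    · intro j hj h
      have := hzj j hj
      rw [← h, Complex.norm_natCast] at this
      exact lt_irrefl _ this
    · intro j hj h
      have := hzj j hj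
      have h2 : z j = -(n : ℂ) := by rw [h, neg_neg]
      rw [h2, norm_neg, Complex.norm_natCast] at this
      exact lt_irrefl _ this
  have huniq := tendsto_nhds_unique (hL.congr' hEq) hR
  have : (2 : ℂ) * κ = 0 := by linear_combination -huniq
  simpa using this

theorem RR_decay {d : ℕ} (z β : ℕ → ℂ) (c α : ℂ) (hz : ∀ j, z (j + 1) = z j ^ 2 + c)
    (hper : z d = z 0) (hz0 : ∀ j < d, z j ≠ 0)
    (hβ : ∀ j < d, 2 * z j * β (j + 1) = β j - α / z j) (hβper : β d = β 0)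
    (hsum : ∑ j ∈ range d, β j = 0) :
    ∃ C B : ℝ, 0 < C ∧ 0 < B ∧ ∀ y : ℂ, B ≤ ‖y‖ → ‖RR d z β α y‖ ≤ C / ‖y‖ ^ 3 := by
  obtain ⟨C, B, hC, hB, hexp⟩ := RR_exp z β α hsum
  refine ⟨C, B, hC, by linarith, fun y hy => ?_⟩
  have := hexp y hy
  rwa [kappa_zero z β c α hz hper hz0 hβ hβper hsum, zero_div, sub_zero] at this

lemma rad_pos {z : ℕ → ℂ} {d : ℕ} (hz0 : ∀ j < d, z j ≠ 0) {r : ℝ} (hr : 0 < r) {j : ℕ}
    (hj : j < d) : 0 < rad z r j := by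
  unfold rad
  refine mul_pos hr (prod_pos fun i hi => norm_pos_iff.mpr ?_)
  exact mul_ne_zero two_ne_zero (hz0 i ((mem_range.mp hi).trans hj))

theorem RR_integrable {d : ℕ} (z β : ℕ → ℂ) (c α : ℂ) (hz : ∀ j, z (j + 1) = z j ^ 2 + c)
    (hper : z d = z 0) (hz0 : ∀ j < d, z j ≠ 0)
    (hβ : ∀ j < d, 2 * z j * β (j + 1) = β j - α / z j) (hβper : β d = β 0)
    (hsum : ∑ j ∈ range d, β j = 0) {r : ℝ} (hr : 0 < r) :
    ∫⁻ y in Uset d z r, ENNReal.ofReal ‖RR d z β α y‖ < ⊤ := by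
  obtain ⟨C, B, hC, hB, hdec⟩ := RR_decay z β c α hz hper hz0 hβ hβper hsum
  set M : ℝ := ∑ j ∈ range d, (‖α‖ / rad z r j ^ 2 + ‖β j‖ / rad z r j) with hM
  have hM0 : 0 ≤ M := by
    refine sum_nonneg fun j hj => ?_
    have := rad_pos hz0 hr (mem_range.mp hj)
    positivity
  have hbd : ∀ y ∈ Uset d z r, ‖RR d z β α y‖ ≤ M := by
    intro y hy
    refine (norm_sum_le _ _).trans (sum_le_sum fun j hj => ?_)
    have h1 := rad_pos hz0 hr (mem_range.mp hj)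
    have h2 : rad z r j < ‖y - z j‖ := hy j (mem_range.mp hj)
    refine (norm_add_le _ _).trans ?_
    rw [norm_div, norm_div, norm_pow]
    gcongr
  set K : ℝ := M * (1 + (B + 1)) ^ 3 + 8 * C with hK
  have hK0 : 0 ≤ K := by positivity
  have hfin : ∀ y ∈ Uset d z r, ‖RR d z β α y‖ ≤ K * (1 + ‖y‖) ^ (-(3 : ℝ)) := by
    intro y hy
    have hy0 := norm_nonneg y
    rw [Real.rpow_neg (by positivity)]
    have e3 : (1 + ‖y‖) ^ (3 : ℝ) = (1 + ‖y‖) ^ 3 := by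
      rw [← Real.rpow_natCast]; norm_num
    rw [e3, ← div_eq_mul_inv, le_div_iff₀ (by positivity)]
    rcases le_or_gt (B + 1) ‖y‖ with h | h
    · have h1 := hdec y (by linarith)
      have h2 : 0 < ‖y‖ := by linarith
      have h3 : (1 + ‖y‖) ^ 3 ≤ (2 * ‖y‖) ^ 3 := by
        gcongr
        linarith
      calc ‖RR d z β α y‖ * (1 + ‖y‖) ^ 3 ≤ C / ‖y‖ ^ 3 * (2 * ‖y‖) ^ 3 := by gcongr
        _ = 8 * C := by field_simp; ring
        _ ≤ K := by rw [hK]; nlinarith [mul_nonneg hM0 (by positivity : (0:ℝ) ≤ (1 + (B + 1)) ^ 3)]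
    · calc ‖RR d z β α y‖ * (1 + ‖y‖) ^ 3 ≤ M * (1 + (B + 1)) ^ 3 := by
            gcongr
            exact hbd y hy
        _ ≤ K := by rw [hK]; linarith
  have hint : Integrable (fun y : ℂ => K * (1 + ‖y‖) ^ (-(3 : ℝ))) := by
    refine (integrable_one_add_norm ?_).const_mul K
    rw [Complex.finrank_real_complex]
    norm_num
  have hmeas : MeasurableSet (Uset d z r) := by
    have : Uset d z r = ⋂ j ∈ range d, {y : ℂ | rad z r j < ‖y - z j‖} := by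
      ext y
      simp [Uset]
    rw [this]
    refine Finset.measurableSet_biInter _ fun j _ => ?_
    exact measurableSet_lt measurable_const (measurable_id.sub_const _).norm
  calc ∫⁻ y in Uset d z r, ENNReal.ofReal ‖RR d z β α y‖
      ≤ ∫⁻ y in Uset d z r, ENNReal.ofReal (K * (1 + ‖y‖) ^ (-(3 : ℝ))) := by
        refine setLIntegral_mono' hmeas fun y hy => ENNReal.ofReal_le_ofReal (hfin y hy)
    _ ≤ ∫⁻ y : ℂ, ENNReal.ofReal (K * (1 + ‖y‖) ^ (-(3 : ℝ))) := setLIntegral_le_lintegral _ _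
    _ < ⊤ := by
        have := hint.lintegral_lt_top
        exact this

end DynBad
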