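import Mathlib

/-!
# Module QEq: the functional equation of the quadratic differential on a cycle

Cycle `z_{j+1} = z_j^2 + c` of length `d`, all `z_j ≠ 0`,
`2 z_j β_{j+1} = β_j - α / z_j`, everything `d`-periodic, `∑_{j<d} β_j = 0`.
`RR y = ∑_{j<d} (α / (y - z_j)^2 + β_j / (y - z_j))`.
Then `RR y + RR (-y) = 4 y^2 RR (y^2 + c)` for `y ≠ ± z_j`.

Proof.  `y^2 + c - z_{j+1} = (y - z_j)(y + z_j)`.  By periodicity
`RR (y^2 + c) = ∑_{j<d} (α / (y^2-z_j^2)^2 + β_{j+1} / (y^2 - z_j^2))`.  Use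
`4 y^2/(y^2-z^2)^2 = 1/(y-z)^2 + 1/(y+z)^2 + (1/z)(1/(y-z) - 1/(y+z))` and
`4 y^2/(y^2-z^2) = 4 + 2 z (1/(y-z) - 1/(y+z))` and `2 z_j β_{j+1} = β_j - α/z_j`:
`4 y^2 RR(y^2+c) = ∑_j α (1/(y-z_j)^2 + 1/(y+z_j)^2) + β_j (1/(y-z_j) - 1/(y+z_j)) + 4 ∑ β_{j+1}`,
and the last sum is `∑ β_j = 0`.
-/

namespace DynBad

open Finset

/-- the rational function of the quadratic differential -/
noncomputable def RR (d : ℕ) (z β : ℕ → ℂ) (α y : ℂ) : ℂ :=
  ∑ j ∈ range d, (α / (y - z j) ^ 2 + β j / (y - z j))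

private lemma term_eq {y z α β β' : ℂ} (hz : z ≠ 0) (hy : y ≠ z) (hy' : y ≠ -z)
    (h : 2 * z * β' = β - α / z) :
    4 * y ^ 2 * (α / (y ^ 2 - z ^ 2) ^ 2 + β' / (y ^ 2 - z ^ 2)) =
      (α / (y - z) ^ 2 + β / (y - z)) + (α / (-y - z) ^ 2 + β / (-y - z)) + 4 * β' := by
  have h1 : y - z ≠ 0 := sub_ne_zero.mpr hy
  have h2 : y + z ≠ 0 := fun h => hy' (eq_neg_of_add_eq_zero_left h)
  have h3 : y ^ 2 - z ^ 2 ≠ 0 := by
    have : y ^ 2 - z ^ 2 = (y - z) * (y + z) := by ring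
    rw [this]
    exact mul_ne_zero h1 h2
  have h4 : -y - z ≠ 0 := by
    have : -y - z = -(y + z) := by ring
    rw [this]
    exact neg_ne_zero.mpr h2
  have hb : β = 2 * z * β' + α / z := by rw [h]; ring
  subst hb
  have e1 : α / (-y - z) ^ 2 = α / (y + z) ^ 2 := by
    congr 1
    ring
  have e2 : (2 * z * β' + α / z) / (-y - z) = -((2 * z * β' + α / z) / (y + z)) := by
    have : -y - z = -(y + z) := by ring
    rw [this, div_neg]
  have e3 : y ^ 2 - z ^ 2 = (y - z) * (y + z) := by ring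
  rw [e1, e2, e3]
  field_simp
  ring

theorem RR_eq {d : ℕ} (z β : ℕ → ℂ) (c α : ℂ) (hz : ∀ j, z (j + 1) = z j ^ 2 + c)
    (hper : z d = z 0) (hz0 : ∀ j < d, z j ≠ 0)
    (hβ : ∀ j < d, 2 * z j * β (j + 1) = β j - α / z j) (hβper : β d = β 0)
    (hsum : ∑ j ∈ range d, β j = 0) (y : ℂ) (hy : ∀ j < d, y ≠ z j) (hy' : ∀ j < d, y ≠ - z j) :
    RR d z β α y + RR d z β α (-y) = 4 * y ^ 2 * RR d z β α (y ^ 2 + c) := by
  have hshift : ∀ t : ℕ → ℂ, t d = t 0 → ∑ j ∈ range d, t (j + 1) = ∑ j ∈ range d, t j := by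
    intro t ht
    have h1 := sum_range_succ t d
    have h2 := sum_range_succ' t d
    rw [h1] at h2
    rw [ht] at h2
    exact (add_right_cancel h2).symm
  have h1 : RR d z β α (y ^ 2 + c) =
      ∑ j ∈ range d, (α / (y ^ 2 - z j ^ 2) ^ 2 + β (j + 1) / (y ^ 2 - z j ^ 2)) := by
    unfold RR
    rw [← hshift (fun j => α / (y ^ 2 + c - z j) ^ 2 + β j / (y ^ 2 + c - z j))
      (by simp only [hper, hβper])]
    refine sum_congr rfl fun j _ => ?_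
    have : y ^ 2 + c - z (j + 1) = y ^ 2 - z j ^ 2 := by rw [hz j]; ring
    rw [this]
  have h2 : ∑ j ∈ range d, β (j + 1) = 0 := by rw [hshift β hβper, hsum]
  have h3 : 4 * y ^ 2 * RR d z β α (y ^ 2 + c) = ∑ j ∈ range d,
      ((α / (y - z j) ^ 2 + β j / (y - z j)) + (α / (-y - z j) ^ 2 + β j / (-y - z j)) +
        4 * β (j + 1)) := by
    rw [h1, mul_sum]
    refine sum_congr rfl fun j hj => ?_
    have hj' := mem_range.mp hj
    exact term_eq (hz0 j hj') (hy j hj') (hy' j hj') (hβ j hj')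
  rw [h3, sum_add_distrib, sum_add_distrib, ← mul_sum, h2, mul_zero, add_zero]
  rfl

end DynBad
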