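import Pool.Agent.DynBad.QDecay
import Pool.Agent.DynBad.QAnn
import Pool.Agent.DynBad.QCov

/-!
# Module QInt: `|RR y| + |RR (-y)| = |RR y + RR (-y)|` off the poles

Setting of `QEq` with in addition the `z_j` (`j < d`) distinct and `∏_{j<d} ‖2 z_j‖ = 1`.
`f(y) = y^2 + c`, `U_r = Uset d z r`, `V_r = Vset d z c r = f⁻¹(U_r)` (open sets), `I_r(S) = ∫_S |RR|`.

(1) `lintegral_sq_add` with `g` = indicator of `U_r` times `|RR|`, and
`4 |y|^2 |RR(f y)| = |RR y + RR(-y)|` for `y` off the finite set `{± z_j}` (`RR_eq`):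
`∫_{V_r} |RR y + RR(-y)| = 2 I_r(U_r)`, finite by `RR_integrable`.
(2) `V_r` is symmetric under `y ↦ -y`, so
`∫_{V_r} (|RR y| + |RR (-y)|) = 2 I_r(V_r) ≤ 2 I_r(U_r) + 2 I_r(V_r \ U_r) ≤ 2 I_r(U_r) + 2 C r`
(`RR_annulus`).
(3) Suppose `‖RR y₀ + RR(-y₀)‖ < ‖RR y₀‖ + ‖RR (-y₀)‖` at some `y₀ ∉ {± z_j}`.  By continuity
there are `η > 0` and a closed disc `K₀` around `y₀` on which the difference is `≥ η`.  `f(y₀) ≠ z_j`
for all `j < d` (`f(y₀) = z_{j+1} = f(z_j)` means `y₀ = ± z_j`; every index `k < d` is of the form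
`j + 1` mod `d`), so after shrinking `K₀ ⊆ V_r` for all small `r`.  Then
`2 I_r(U_r) + η area(K₀) = ∫_{V_r} |RR y + RR(-y)| + η area(K₀) ≤ ∫_{V_r} (|RR y| + |RR(-y)|)
≤ 2 I_r(U_r) + 2 C r`, so `η area(K₀) ≤ 2 C r` for all small `r`, contradiction.
-/

namespace DynBad

open Finset MeasureTheory Filter Topology

private lemma meas_RR (d : ℕ) (z β : ℕ → ℂ) (α : ℂ) : Measurable (fun y => RR d z β α y) := by
  unfold RR
  fun_prop

private lemma meas_U (d : ℕ) (z : ℕ → ℂ) (r : ℝ) : MeasurableSet (Uset d z r) := by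
  have : Uset d z r = ⋂ j ∈ range d, {y : ℂ | rad z r j < ‖y - z j‖} := by
    ext y
    simp [Uset]
  rw [this]
  refine Finset.measurableSet_biInter _ fun j _ => ?_
  exact measurableSet_lt measurable_const (measurable_id.sub_const _).norm

private lemma meas_V (d : ℕ) (z : ℕ → ℂ) (c : ℂ) (r : ℝ) : MeasurableSet (Vset d z c r) := by
  have : Vset d z c r = (fun y : ℂ => y ^ 2 + c) ⁻¹' Uset d z r := rfl
  rw [this]
  exact (meas_U d z r).preimage (by fun_prop)

private lemma cont_RR {d : ℕ} {z β : ℕ → ℂ} {α y : ℂ} (hy : ∀ j < d, y ≠ z j) :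
    ContinuousAt (fun y => RR d z β α y) y := by
  unfold RR
  refine tendsto_finsetSum _ fun j hj => ?_
  have h : y - z j ≠ 0 := sub_ne_zero.mpr (hy j (mem_range.mp hj))
  have h1 : ContinuousAt (fun y : ℂ => y - z j) y := by fun_prop
  exact (continuousAt_const.div (h1.pow 2) (pow_ne_zero 2 h)).add (continuousAt_const.div h1 h)

theorem norm_RR_add {d : ℕ} (hd : 1 ≤ d) (z β : ℕ → ℂ) (c α : ℂ)
    (hz : ∀ j, z (j + 1) = z j ^ 2 + c)
    (hper : z d = z 0) (hinj : ∀ i < d, ∀ j < d, z i = z j → i = j)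
    (hmul : ‖∏ j ∈ range d, 2 * z j‖ = 1)
    (hβ : ∀ j < d, 2 * z j * β (j + 1) = β j - α / z j) (hβper : β d = β 0)
    (hsum : ∑ j ∈ range d, β j = 0) (y : ℂ) (hy : ∀ j < d, y ≠ z j) (hy' : ∀ j < d, y ≠ - z j) :
    ‖RR d z β α y + RR d z β α (-y)‖ = ‖RR d z β α y‖ + ‖RR d z β α (-y)‖ := by
  by_contra hne
  have hlt : ‖RR d z β α y + RR d z β α (-y)‖ < ‖RR d z β α y‖ + ‖RR d z β α (-y)‖ :=
    lt_of_le_of_ne (norm_add_le _ _) hne
  have hz0 : ∀ j < d, z j ≠ 0 := by
    intro j hj h0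
    have : ∏ j ∈ range d, 2 * z j = 0 := prod_eq_zero (mem_range.mpr hj) (by rw [h0, mul_zero])
    rw [this, norm_zero] at hmul
    exact zero_ne_one hmul
  -- abbreviations
  set R : ℂ → ℂ := fun y => RR d z β α y with hR
  have hRm : Measurable R := meas_RR d z β α
  have hNm : Measurable fun y => ENNReal.ofReal ‖R y‖ := hRm.norm.ennreal_ofReal
  have hN'm : Measurable fun y => ENNReal.ofReal ‖R (-y)‖ :=
    (hRm.comp measurable_neg).norm.ennreal_ofReal
  have hGm : Measurable fun y => ENNReal.ofReal ‖R y + R (-y)‖ :=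
    (hRm.add (hRm.comp measurable_neg)).norm.ennreal_ofReal
  -- the gap function
  set H : ℂ → ℝ := fun y => ‖R y‖ + ‖R (-y)‖ - ‖R y + R (-y)‖ with hH
  have hHy : 0 < H y := by simp only [hH, hR]; linarith
  have hc1 : ContinuousAt R y := cont_RR hy
  have hc2 : ContinuousAt (fun y => R (-y)) y := by
    have h1 : ContinuousAt R (-y) := cont_RR fun j hj h => hy' j hj (by rw [← h, neg_neg])
    exact ContinuousAt.comp (g := R) h1 continuous_neg.continuousAt
  have hHc : ContinuousAt H y := (hc1.norm.add hc2.norm).sub (hc1.add hc2).norm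
  have hev1 : ∀ᶠ x in 𝓝 y, H y / 2 < H x := hHc.eventually (lt_mem_nhds (by linarith))
  have hfy : ∀ k < d, y ^ 2 + c ≠ z k := by
    intro k hk h
    obtain ⟨j, hj, hjk⟩ : ∃ j < d, z (j + 1) = z k := by
      rcases Nat.eq_zero_or_pos k with h0 | h0
      · refine ⟨d - 1, by omega, ?_⟩
        rw [Nat.sub_add_cancel hd, hper, h0]
      · refine ⟨k - 1, by omega, ?_⟩
        rw [Nat.sub_add_cancel h0]
    rw [← hjk, hz j] at h
    have h2 : y ^ 2 = z j ^ 2 := by linear_combination h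
    rcases sq_eq_sq_iff_eq_or_eq_neg.mp h2 with h3 | h3
    · exact hy j hj h3
    · exact hy' j hj h3
  have hev2 : ∀ᶠ x in 𝓝 y, ∀ k ∈ range d, ‖y ^ 2 + c - z k‖ / 2 < ‖x ^ 2 + c - z k‖ := by
    rw [Filter.eventually_all_finset]
    intro k hk
    have h0 : 0 < ‖y ^ 2 + c - z k‖ := norm_pos_iff.mpr (sub_ne_zero.mpr (hfy k (mem_range.mp hk)))
    have h1 : ContinuousAt (fun x : ℂ => ‖x ^ 2 + c - z k‖) y := by fun_prop
    exact h1.eventually (lt_mem_nhds (by linarith))
  obtain ⟨ε, hε, hball⟩ := Metric.eventually_nhds_iff_ball.mp (hev1.and hev2)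
  set K : Set ℂ := Metric.ball y ε with hK
  have hKm : MeasurableSet K := Metric.isOpen_ball.measurableSet
  have hKpos : 0 < volume K := Metric.measure_ball_pos _ _ hε
  obtain ⟨C, r₀, hC, hr₀, hann⟩ := RR_annulus hd z β c α hz hper hinj hmul
  -- `K ⊆ V_r` for small `r`
  have hev3 : ∀ᶠ r : ℝ in 𝓝[>] 0, K ⊆ Vset d z c r := by
    have h1 : ∀ᶠ r : ℝ in 𝓝[>] 0, ∀ k ∈ range d, rad z r k < ‖y ^ 2 + c - z k‖ / 2 := by
      rw [Filter.eventually_all_finset]
      intro k hk
      have h0 : 0 < ‖y ^ 2 + c - z k‖ :=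
        norm_pos_iff.mpr (sub_ne_zero.mpr (hfy k (mem_range.mp hk)))
      have h2 : ContinuousAt (fun r : ℝ => rad z r k) 0 := by
        unfold rad
        fun_prop
      have h3 : rad z 0 k < ‖y ^ 2 + c - z k‖ / 2 := by
        unfold rad
        rw [zero_mul]
        linarith
      exact nhdsWithin_le_nhds (h2.eventually (gt_mem_nhds h3))
    filter_upwards [h1] with r hr x hx k hk
    exact (hr k (mem_range.mpr hk)).trans ((hball x hx).2 k (mem_range.mpr hk))
  -- main inequality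
  have hmain : ∀ r : ℝ, 0 < r → r < r₀ → K ⊆ Vset d z c r →
      ENNReal.ofReal (H y / 2) * volume K ≤ 2 * ENNReal.ofReal (C * r) := by
    intro r hr hrr hKV
    set U := Uset d z r with hU
    set V := Vset d z c r with hV
    have hUm : MeasurableSet U := meas_U d z r
    have hVm : MeasurableSet V := meas_V d z c r
    have hI : ∫⁻ y in U, ENNReal.ofReal ‖R y‖ < ⊤ :=
      RR_integrable z β c α hz hper hz0 hβ hβper hsum hr
    -- step 1
    have hs1 : ∫⁻ y in V, ENNReal.ofReal ‖R y + R (-y)‖ = 2 * ∫⁻ y in U, ENNReal.ofReal ‖R y‖ := by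
      rw [← lintegral_indicator hUm, ← lintegral_sq_add c _ (hNm.indicator hUm),
        ← lintegral_indicator hVm]
      refine lintegral_congr_ae ?_
      filter_upwards [((range d).image z ∪ (range d).image (fun j => - z j) :
        Finset ℂ).finite_toSet.countable.ae_notMem (volume : Measure ℂ)] with x hx
      simp only [coe_union, coe_image, Set.mem_union, Set.mem_image, Finset.mem_coe, mem_range,
        not_or, not_exists, not_and] at hx
      by_cases hxV : x ∈ V
      · have hxU : x ^ 2 + c ∈ U := hxV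
        rw [Set.indicator_of_mem hxV, Set.indicator_of_mem hxU,
          ← ENNReal.ofReal_mul (norm_nonneg _)]
        congr 1
        have := RR_eq z β c α hz hper hz0 hβ hβper hsum x (fun j hj h => hx.1 j hj h.symm)
          (fun j hj h => hx.2 j hj h.symm)
        simp only [hR]
        rw [this, norm_mul, norm_mul, norm_mul, norm_pow, Complex.norm_ofNat, Complex.norm_ofNat]
        ring
      · have hxU : x ^ 2 + c ∉ U := hxV
        rw [Set.indicator_of_notMem hxV, Set.indicator_of_notMem hxU, zero_mul]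
    -- step 2
    have hsymm : ∫⁻ y in V, ENNReal.ofReal ‖R (-y)‖ = ∫⁻ y in V, ENNReal.ofReal ‖R y‖ := by
      rw [← lintegral_indicator hVm, ← lintegral_indicator hVm,
        ← lintegral_neg_eq_self (V.indicator fun y => ENNReal.ofReal ‖R y‖)]
      refine lintegral_congr fun x => ?_
      have hiff : -x ∈ V ↔ x ∈ V := by
        simp only [hV, Vset, Set.mem_ofPred_eq]
        rw [neg_sq]
      by_cases hx : x ∈ V
      · rw [Set.indicator_of_mem hx, Set.indicator_of_mem (hiff.mpr hx)]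
      · rw [Set.indicator_of_notMem hx, Set.indicator_of_notMem (fun h => hx (hiff.mp h))]
    have hs2 : ∫⁻ y in V, ENNReal.ofReal ‖R y‖ ≤
        (∫⁻ y in U, ENNReal.ofReal ‖R y‖) + ENNReal.ofReal (C * r) := by
      calc ∫⁻ y in V, ENNReal.ofReal ‖R y‖ ≤ ∫⁻ y in U ∪ V \ U, ENNReal.ofReal ‖R y‖ :=
            lintegral_mono_set (by
              intro x hx
              by_cases h : x ∈ U
              · exact Or.inl h
              · exact Or.inr ⟨hx, h⟩)
        _ ≤ (∫⁻ y in U, ENNReal.ofReal ‖R y‖) + ∫⁻ y in V \ U, ENNReal.ofReal ‖R y‖ :=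
            lintegral_union_le _ _ _
        _ ≤ _ := by
            gcongr
            exact hann r hr hrr
    -- step 3
    have hs3 : (∫⁻ y in V, ENNReal.ofReal ‖R y + R (-y)‖) + ENNReal.ofReal (H y / 2) * volume K ≤
        ∫⁻ y in V, (ENNReal.ofReal ‖R y‖ + ENNReal.ofReal ‖R (-y)‖) := by
      have e1 : ENNReal.ofReal (H y / 2) * volume K =
          ∫⁻ x in V, K.indicator (fun _ => ENNReal.ofReal (H y / 2)) x := by
        rw [lintegral_indicator hKm, setLIntegral_const, Measure.restrict_apply hKm,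
          Set.inter_eq_left.mpr hKV]
      rw [e1, ← lintegral_add_left hGm]
      refine lintegral_mono fun x => ?_
      by_cases hx : x ∈ K
      · simp only [Set.indicator_of_mem hx]
        rw [← ENNReal.ofReal_add (norm_nonneg _) (by linarith),
          ← ENNReal.ofReal_add (norm_nonneg _) (norm_nonneg _)]
        refine ENNReal.ofReal_le_ofReal ?_
        have := (hball x hx).1
        simp only [hH] at this ⊢
        linarith
      · simp only [Set.indicator_of_notMem hx, add_zero]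
        rw [← ENNReal.ofReal_add (norm_nonneg _) (norm_nonneg _)]
        exact ENNReal.ofReal_le_ofReal (norm_add_le _ _)
    rw [lintegral_add_left hNm, hsymm, hs1] at hs3
    have hs4 : 2 * (∫⁻ y in U, ENNReal.ofReal ‖R y‖) + ENNReal.ofReal (H y / 2) * volume K ≤
        2 * (∫⁻ y in U, ENNReal.ofReal ‖R y‖) + 2 * ENNReal.ofReal (C * r) := by
      refine hs3.trans ?_
      rw [← two_mul, ← mul_add]
      gcongr
    exact (ENNReal.add_le_add_iff_left (ENNReal.mul_ne_top (by norm_num) hI.ne)).mp hs4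
  have hlim : Tendsto (fun r : ℝ => 2 * ENNReal.ofReal (C * r)) (𝓝[>] 0) (𝓝 0) := by
    have h1 : Tendsto (fun r : ℝ => 2 * ENNReal.ofReal (C * r)) (𝓝 0)
        (𝓝 (2 * ENNReal.ofReal (C * 0))) := by
      refine ENNReal.Tendsto.const_mul ?_ (Or.inr (by norm_num))
      exact ENNReal.tendsto_ofReal ((continuous_const.mul continuous_id).tendsto 0)
    rw [mul_zero, ENNReal.ofReal_zero, mul_zero] at h1
    exact h1.mono_left nhdsWithin_le_nhds
  have hle0 : ENNReal.ofReal (H y / 2) * volume K ≤ 0 := by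
    refine ge_of_tendsto hlim ?_
    filter_upwards [hev3, self_mem_nhdsWithin, nhdsWithin_le_nhds (gt_mem_nhds hr₀)] with r h1 h2 h3
    exact hmain r h2 h3 h1
  have hpos : 0 < ENNReal.ofReal (H y / 2) * volume K :=
    ENNReal.mul_pos (by simpa using hHy) hKpos.ne'
  exact absurd hle0 (not_le.mpr hpos)

end DynBad
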