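import Pool.Agent.DynBad.QEq

/-! # The sets `U_r`, `V_r = f⁻¹(U_r)` of the contraction argument (definitions only). -/

namespace DynBad

open Finset

/-- radii `ρ_j = r ∏_{i<j} ‖2 z_i‖` -/
noncomputable def rad (z : ℕ → ℂ) (r : ℝ) (j : ℕ) : ℝ := r * ∏ i ∈ range j, ‖2 * z i‖

/-- complement of the closed discs of radius `ρ_j` around the `z_j` -/
def Uset (d : ℕ) (z : ℕ → ℂ) (r : ℝ) : Set ℂ := {y | ∀ j < d, rad z r j < ‖y - z j‖}

/-- preimage of `Uset` under `y ↦ y^2 + c` -/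
def Vset (d : ℕ) (z : ℕ → ℂ) (c : ℂ) (r : ℝ) : Set ℂ := {y | y ^ 2 + c ∈ Uset d z r}

end DynBad
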