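import Mathlib

/-!
# Module RamAlg: the algebraic contradiction in the ramified case

`O` is a local domain, `p` a nonunit, `𝔪 = (p, t)`, every `z ∉ pO` is `t^n w + p c` with `w` a
unit.  `d` is a derivation of `O`, `τ : O → O` a ring endomorphism, `d T = 1`, `φ : O → L` a ring
homomorphism to a field of characteristic 0 with `φ ∘ τ = φ`, `ker φ ⊄ pO`, `φ(d(τ T)) = ζ` a
primitive `N`-th root of unity, `N ≥ 4`, and (`p ≠ 2`, `p ∣ N`) or (`p = 2`, `4 ∣ N`).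

`I = φ(O)` is a local domain (quotient of `O`) with maximal ideal `𝔪_I = (p, τ₁)`, `τ₁ = φ(t)`,
nonzero; `ζ ∈ I`.
`e := min {n : ∃ z ∈ ker φ, ∃ w unit, ∃ c, z = t^n w + p c}` (nonempty since `ker φ ⊄ pO`);
`e ≥ 1` (else a unit would be in `ker φ`), `τ₁^e ∈ pI`.
(*) `τT - T ∈ ker φ`, so `τT - T = t^e b + p c` (either it is in `pO`, or it is `t^n w + p c'` with
`n ≥ e`).  Apply `d` and then `φ`: `ζ - 1 ∈ e τ₁^(e-1) I + τ₁^e I + p I = e τ₁^(e-1) I + p I`.

Let `p^a ∥ N`, `a ≥ 1` (`a ≥ 2` if `p = 2`), `ξ = ζ^(N/p^a)`, a primitive `p^a`-th root of unity,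
`π = ξ - 1`; in `ℤ[ξ] ⊆ I`, `p = ε π^n`, `n = φ_Euler(p^a) ≥ 2`, `ε` a unit
(`p = ∏_{(j,p)=1} (1 - ξ^j)`; `cyclotomic (p^a)` at `1`).  As `p` is a nonunit of `I` so is `π`.

Case 1: `N` is not a power of `p`, so `N` is not a prime power and `1 - ζ` is a unit of `ℤ[ζ] ⊆ I`
(`cyclotomic N` at `1` is `1`: `∏_{(j,N)=1} (1 - ζ^j) = 1`).  If `e ≥ 2`, (*) gives
`ζ - 1 ∈ 𝔪_I`, contradiction.  So `e = 1`, `τ₁ ∈ pI`, `𝔪_I = pI ∋ π`, `π = p i = ε π^n i`,
`1 = ε π^(n-1) i`, contradiction to `π` nonunit.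

Case 2: `N = p^a`, `ξ = ζ`, `π = ζ - 1`.  If `e = 1` the same contradiction.  Let `e ≥ 2`.
Squaring (*): `π^2 ∈ τ₁^(2e-2) I + pI ⊆ τ₁^e I + pI = pI = π^n I`, so `n ≤ 2`, hence `n = 2` and
`N = 4`, `p = 2` (`N = p^a ≥ 4`, `φ_Euler(p^a) = 2`).  `2I = π^2 I`.  If `e` is even (*) gives
`π ∈ 2I = π^2 I`, contradiction.  `e` is even: `π = φ(z)`, `z ∉ 2O` (`π ∉ 2I`), so
`z = t^j w + 2c`, `π = τ₁^j φ(w) + 2 φ(c)`, and `2 ∈ π^2 I` gives `π (1 - π c') = τ₁^j φ(w)`,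
i.e. `π ~ τ₁^j` (associates in `I`), `j ≥ 1`, so `2 ~ τ₁^(2j)`.  `τ₁^e ∈ 2I` gives `e ≥ 2j`
(`τ₁ ≠ 0` a nonunit of a domain).  `τ₁^(2j) ∈ 2I` means `t^(2j) - 2c ∈ ker φ` for some `c`, so
`e ≤ 2j`.  So `e = 2j`.
-/

namespace DynBad

/-- `p = ε (ξ - 1)^φ(p^(k+1))` -/
private lemma ramAlg_assoc {R : Type*} [CommRing R] [IsDomain R] {p : ℕ} (hp : p.Prime) (k : ℕ)
    {ξ : R} (hξ : IsPrimitiveRoot ξ (p ^ (k + 1))) :
    Associated ((ξ - 1) ^ (p ^ (k + 1)).totient) (p : R) := by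
  have : Fact p.Prime := ⟨hp⟩
  rw [← Polynomial.eval_one_cyclotomic_prime_pow (R := R) (p := p) k,
    Polynomial.cyclotomic_eq_prod_X_sub_primitiveRoots hξ, Polynomial.eval_prod]
  simp only [Polynomial.eval_sub, Polynomial.eval_X, Polynomial.eval_C]
  rw [← hξ.card_primitiveRoots, ← Finset.prod_const]
  refine Associated.prod _ _ _ fun η hη ↦ ?_
  have : NeZero (p ^ (k + 1)) := ⟨(pow_pos hp.pos _).ne'⟩
  have hη' : IsPrimitiveRoot η (p ^ (k + 1)) := isPrimitiveRoot_of_mem_primitiveRoots hη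
  obtain ⟨i, -, hi, rfl⟩ := hξ.isPrimitiveRoot_iff.mp hη'
  have := hξ.associated_sub_one_pow_sub_one_of_coprime hi
  rw [← neg_sub (1 : R) (ξ ^ i)] at this
  exact (Associated.neg_right_iff).1 this

/-- `1 - ζ` is a unit if the order is not a prime power -/
private lemma ramAlg_unit {R : Type*} [CommRing R] [IsDomain R] {N : ℕ} (hN : 0 < N)
    (h : ∀ {q : ℕ}, q.Prime → ∀ k : ℕ, q ^ k ≠ N) {ζ : R} (hζ : IsPrimitiveRoot ζ N) :
    IsUnit (1 - ζ) := by
  classical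
  have h1 : ∏ μ ∈ primitiveRoots N R, (1 - μ) = 1 := by
    have h0 := Polynomial.eval_one_cyclotomic_not_prime_pow (R := R) h
    rw [Polynomial.cyclotomic_eq_prod_X_sub_primitiveRoots hζ, Polynomial.eval_prod] at h0
    simpa using h0
  have hmem : ζ ∈ primitiveRoots N R := (mem_primitiveRoots hN).2 hζ
  rw [← Finset.mul_prod_erase _ _ hmem] at h1
  exact IsUnit.of_mul_eq_one _ h1

/-- the contradiction in the local domain `R` -/
private lemma ramAlg_core {R : Type*} [CommRing R] [IsDomain R] [IsLocalRing R] [CharZero R]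
    {p N : ℕ} (hp : p.Prime) (hN : 4 ≤ N) (hram : (p ≠ 2 ∧ p ∣ N) ∨ (p = 2 ∧ 4 ∣ N)) (t : R)
    (hmax : ∀ z : R, ¬ IsUnit z → ∃ a b : R, z = a * p + b * t) (hpu : ¬ IsUnit (p : R))
    (htu : ¬ IsUnit t)
    (hord : ∀ z : R, ¬ (p : R) ∣ z → ∃ n : ℕ, ∃ w : R, IsUnit w ∧ ∃ c : R, z = t ^ n * w + p * c)
    (ζ : R) (hζ : IsPrimitiveRoot ζ N) (e : ℕ) (he1 : 1 ≤ e) (hte : (p : R) ∣ t ^ e)
    (hmin : ∀ m, (p : R) ∣ t ^ m → e ≤ m) (b c : R)
    (hstar : ζ - 1 = e * t ^ (e - 1) * b + p * c) : False := by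
  have hp0 : (p : R) ≠ 0 := Nat.cast_ne_zero.2 hp.ne_zero
  have hNpos : 0 < N := by omega
  have hpN : p ∣ N := by
    rcases hram with h | h
    · exact h.2
    · rw [h.1]; exact dvd_trans (by norm_num) h.2
  -- the `p`-part
  obtain ⟨a, M, hpM, hNa⟩ := Nat.exists_eq_pow_mul_and_not_dvd hNpos.ne' p hp.ne_one
  have ha1 : 1 ≤ a := by
    rcases Nat.eq_zero_or_pos a with h | h
    · exfalso
      rw [h, pow_zero, one_mul] at hNa
      exact hpM (hNa ▸ hpN)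
    · exact h
  obtain ⟨k, rfl⟩ : ∃ k, a = k + 1 := ⟨a - 1, by omega⟩
  have hξ : IsPrimitiveRoot (ζ ^ M) (p ^ (k + 1)) :=
    hζ.pow hNpos (by rw [hNa, mul_comm])
  set π : R := ζ ^ M - 1 with hπ
  set n := (p ^ (k + 1)).totient with hn
  have hassoc : Associated (π ^ n) (p : R) := ramAlg_assoc hp k hξ
  have hn2 : 2 ≤ n := by
    rw [hn, Nat.totient_prime_pow_succ hp]
    rcases hram with h | h
    · have h3 : 3 ≤ p := by
        rcases hp.eq_two_or_odd' with h' | h'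
        · exact absurd h' h.1
        · have := hp.two_le
          rcases h' with ⟨r, hr⟩
          omega
      have : 1 ≤ p ^ k := Nat.one_le_pow _ _ hp.pos
      calc 2 ≤ 1 * (p - 1) := by omega
        _ ≤ p ^ k * (p - 1) := Nat.mul_le_mul_right _ this
    · obtain ⟨rfl, h4⟩ := h
      have hk : 1 ≤ k := by
        by_contra hk
        have hk0 : k = 0 := by omega
        subst hk0
        rw [zero_add, pow_one] at hNa
        rw [hNa] at h4
        apply hpM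
        obtain ⟨s, hs⟩ := h4
        exact ⟨s, by omega⟩
      calc 2 = 2 ^ 1 * (2 - 1) := by norm_num
        _ ≤ 2 ^ k * (2 - 1) := Nat.mul_le_mul_right _ (Nat.pow_le_pow_right (by norm_num) hk)
  have hπ0 : π ≠ 0 := by
    intro h
    rw [h, zero_pow (by omega)] at hassoc
    exact hp0 ((associated_zero_iff_eq_zero _).1 hassoc.symm)
  have hπu : ¬ IsUnit π := by
    intro h
    exact hpu (hassoc.isUnit (h.pow n))
  -- the case `𝔪 = (p)`
  have hcase1 : ¬ (p : R) ∣ t := by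
    rintro ⟨s, hs⟩
    obtain ⟨x, y, hxy⟩ := hmax π hπu
    have h1 : (p : R) ∣ π := ⟨x + y * s, by rw [hxy, hs]; ring⟩
    have h2 : π ^ n ∣ π := hassoc.dvd.trans h1
    have h3 : π ^ n ∣ π ^ 1 := by rwa [pow_one]
    have := (pow_dvd_pow_iff hπ0 hπu).1 h3
    omega
  have he2 : 2 ≤ e := by
    by_contra h
    have : e = 1 := by omega
    rw [this, pow_one] at hte
    exact hcase1 hte
  have hnonunit : ¬ IsUnit (ζ - 1) := by
    rw [hstar]
    have h1 : (e : R) * t ^ (e - 1) * b ∈ IsLocalRing.maximalIdeal R := by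
      apply Ideal.mul_mem_right
      apply Ideal.mul_mem_left
      apply Ideal.pow_mem_of_mem
      · exact htu
      · omega
    have h2 : (p : R) * c ∈ IsLocalRing.maximalIdeal R := Ideal.mul_mem_right _ _ hpu
    exact (Ideal.add_mem _ h1 h2 : _ ∈ IsLocalRing.maximalIdeal R)
  -- `N` is a power of `p`
  have hM1 : M = 1 := by
    by_contra hM
    apply hnonunit
    have := ramAlg_unit (R := R) hNpos (by
      intro q hq r hqr
      have h1 : p ∣ q ^ r := hqr ▸ hpN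
      have h2 : p ∣ q := hp.dvd_of_dvd_pow h1
      have h3 : p = q := (Nat.prime_dvd_prime_iff_eq hp hq).1 h2
      subst h3
      have h4 : M ∣ p ^ r := by rw [hqr, hNa]; exact Dvd.intro_left _ rfl
      obtain ⟨s, hs, hs'⟩ := (Nat.dvd_prime_pow hp).1 h4
      rcases Nat.eq_zero_or_pos s with h5 | h5
      · rw [h5, pow_zero] at hs'
        exact hM hs'
      · apply hpM
        rw [hs']
        exact dvd_pow_self _ (by omega)) hζ
    rw [← neg_sub]
    exact this.neg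
  subst hM1
  rw [mul_one] at hNa
  rw [pow_one] at hπ
  rw [← hπ] at hstar
  -- squaring
  have hsq : (p : R) ∣ π ^ 2 := by
    have h1 : (p : R) ∣ t ^ (2 * (e - 1)) := hte.trans (pow_dvd_pow _ (by omega))
    obtain ⟨s, hs⟩ := h1
    refine ⟨(e : R) ^ 2 * s * b ^ 2 + 2 * (e * t ^ (e - 1) * b) * c + p * c ^ 2, ?_⟩
    have h2 : (t ^ (e - 1)) ^ 2 = p * s := by rw [← hs, ← pow_mul, mul_comm]
    calc π ^ 2 = (e * t ^ (e - 1) * b + p * c) ^ 2 := by rw [hstar]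
      _ = (e : R) ^ 2 * (t ^ (e - 1)) ^ 2 * b ^ 2 + 2 * (e * t ^ (e - 1) * b) * (p * c)
          + (p * c) ^ 2 := by ring
      _ = _ := by rw [h2]; ring
  have hn2' : n = 2 := by
    have h1 : π ^ n ∣ π ^ 2 := hassoc.dvd.trans hsq
    have := (pow_dvd_pow_iff hπ0 hπu).1 h1
    omega
  have hp2 : p = 2 := by
    rw [hn2', Nat.totient_prime_pow_succ hp] at hn
    by_contra hne
    have h3 : 3 ≤ p := by
      have := hp.two_le
      omega
    have hdv : p ^ k * (p - 1) = 2 := hn.symm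
    rcases Nat.eq_zero_or_pos k with h5 | h5
    · rw [h5, pow_zero, one_mul] at hdv
      rw [h5, zero_add, pow_one] at hNa
      omega
    · have h6 : 3 ≤ p ^ k := by
        calc 3 ≤ p := h3
          _ = p ^ 1 := (pow_one p).symm
          _ ≤ p ^ k := Nat.pow_le_pow_right hp.pos h5
      have h7 : 3 * 2 ≤ p ^ k * (p - 1) := Nat.mul_le_mul h6 (by omega)
      omega
  subst hp2
  rw [hn2'] at hassoc
  have h2sq : ¬ ((2 : ℕ) : R) ∣ π := by
    intro h
    have h1 : π ^ 2 ∣ π ^ 1 := by rw [pow_one]; exact hassoc.dvd.trans h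
    have := (pow_dvd_pow_iff hπ0 hπu).1 h1
    omega
  have hodd : ¬ 2 ∣ e := by
    rintro ⟨s, hs⟩
    apply h2sq
    rw [hstar]
    refine Dvd.dvd.mul_right ?_ _ |>.add (Dvd.intro _ rfl)
    refine Dvd.dvd.mul_right ?_ _
    rw [hs, Nat.cast_mul]
    exact Dvd.intro _ rfl
  obtain ⟨j, w, hw, c', hc'⟩ := hord π h2sq
  obtain ⟨ε, hε⟩ := hassoc
  -- hε : π ^ 2 * ε = 2
  have hπt : Associated π (t ^ j) := by
    have h1 : π * (1 - π * ε * c') = t ^ j * w := by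
      have : ((2 : ℕ) : R) * c' = π ^ 2 * ε * c' := by rw [hε]
      rw [this] at hc'
      linear_combination hc'
    have h2 : IsUnit (1 - π * ε * c') := by
      apply IsLocalRing.isUnit_one_sub_self_of_mem_nonunits
      have h3 : π * (ε * c') ∈ IsLocalRing.maximalIdeal R := Ideal.mul_mem_right _ _ hπu
      rw [mul_assoc]
      exact h3
    obtain ⟨u1, hu1⟩ := h2
    obtain ⟨u2, hu2⟩ := hw
    refine ⟨u1 * u2⁻¹, ?_⟩
    rw [Units.val_mul, hu1, ← mul_assoc, h1, ← hu2, mul_assoc, Units.mul_inv, mul_one]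
  have hassoc2 : Associated ((2 : ℕ) : R) (t ^ (2 * j)) := by
    have h1 : Associated (π ^ 2) ((2 : ℕ) : R) := ⟨ε, hε⟩
    rw [mul_comm 2 j, pow_mul]
    exact h1.symm.trans (hπt.pow_pow)
  have ht0 : t ≠ 0 := by
    rintro rfl
    apply hcase1
    exact dvd_zero _
  have h4 : t ^ (2 * j) ∣ t ^ e := hassoc2.symm.dvd.trans hte
  have h5 : 2 * j ≤ e := (pow_dvd_pow_iff ht0 htu).1 h4
  have h6 : e ≤ 2 * j := hmin _ hassoc2.dvd
  exact hodd ⟨j, by omega⟩

theorem ramAlg {O L : Type*} [CommRing O] [IsDomain O] [IsLocalRing O] [Field L] [CharZero L]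
    {p N : ℕ} (hp : p.Prime) (hN : 4 ≤ N) (hram : (p ≠ 2 ∧ p ∣ N) ∨ (p = 2 ∧ 4 ∣ N)) (t : O)
    (hmax : IsLocalRing.maximalIdeal O = Ideal.span {(p : O), t})
    (hord : ∀ z : O, ¬ (p : O) ∣ z →
      ∃ n : ℕ, ∃ w : O, IsUnit w ∧ ∃ c : O, z = t ^ n * w + p * c)
    (d : Derivation ℤ O O) (τ : O →+* O) (T : O) (hT : d T = 1)
    (φ : O →+* L) (hφτ : ∀ z, φ (τ z) = φ z) (hker : ∃ z, φ z = 0 ∧ ¬ (p : O) ∣ z)
    (ζ : L) (hζ : IsPrimitiveRoot ζ N) (hζd : φ (d (τ T)) = ζ) : False := by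
  classical
  have hpm : (p : O) ∈ IsLocalRing.maximalIdeal O := by
    rw [hmax]; exact Ideal.subset_span (by simp)
  have htm : t ∈ IsLocalRing.maximalIdeal O := by
    rw [hmax]; exact Ideal.subset_span (by simp)
  -- the image
  let R := φ.range
  let ψ : O →+* R := φ.rangeRestrict
  have hψs : Function.Surjective ψ := φ.rangeRestrict_surjective
  have hψ0 : ∀ z, ψ z = 0 ↔ φ z = 0 := by
    intro z
    rw [← Subtype.coe_inj]
    rfl
  have hlocal : IsLocalRing R := IsLocalRing.of_surjective' ψ hψs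
  have hunit : ∀ z : O, z ∈ IsLocalRing.maximalIdeal O → ¬ IsUnit (ψ z) := by
    intro z hz hu
    obtain ⟨y, hy⟩ := hu.exists_right_inv
    obtain ⟨y', rfl⟩ := hψs y
    have h1 : ψ (z * y' - 1) = 0 := by rw [map_sub, map_mul, hy, map_one, sub_self]
    have h2 : IsUnit (z * y' - 1) := by
      rw [← neg_sub]
      apply IsUnit.neg
      apply IsLocalRing.isUnit_one_sub_self_of_mem_nonunits
      exact (Ideal.mul_mem_right _ _ hz : z * y' ∈ IsLocalRing.maximalIdeal O)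
    have h3 := h2.map ψ
    rw [h1] at h3
    exact not_isUnit_zero h3
  -- minimal exponent
  let Q : ℕ → Prop := fun n => ∃ z w c : O, φ z = 0 ∧ IsUnit w ∧ z = t ^ n * w + p * c
  have hQ : ∃ n, Q n := by
    obtain ⟨z, hz, hpz⟩ := hker
    obtain ⟨n, w, hw, c, hc⟩ := hord z hpz
    exact ⟨n, z, w, c, hz, hw, hc⟩
  set e := Nat.find hQ with he
  obtain ⟨z0, w0, c0, hz0, hw0, hzc0⟩ := Nat.find_spec hQ
  rw [← he] at hzc0
  have hmin0 : ∀ m, Q m → e ≤ m := fun m hm => Nat.find_min' hQ hm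
  have he1 : 1 ≤ e := by
    by_contra h
    have h0 : e = 0 := by omega
    rw [h0, pow_zero, one_mul] at hzc0
    have h1 : IsUnit z0 := by
      by_contra hz
      have h2 : w0 ∈ IsLocalRing.maximalIdeal O := by
        have h3 : w0 = z0 - p * c0 := by rw [hzc0]; ring
        rw [h3]
        exact Ideal.sub_mem _ hz (Ideal.mul_mem_right _ _ hpm)
      exact h2 hw0
    have h2 := h1.map φ
    rw [hz0] at h2
    exact not_isUnit_zero h2
  have hψp : ψ (p : O) = (p : R) := map_natCast ψ p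
  have hte : (p : R) ∣ ψ t ^ e := by
    obtain ⟨u, rfl⟩ := hw0
    have h1 : ψ (t ^ e * u + p * c0) = 0 := by rw [← hzc0]; exact (hψ0 _).2 hz0
    have h2 : ψ t ^ e * ψ (u : O) = (p : R) * (-ψ c0) := by
      rw [map_add, map_mul, map_mul, map_pow, hψp] at h1
      linear_combination h1
    have h3 : ψ (u : O) * ψ ((u⁻¹ : Oˣ) : O) = 1 := by rw [← map_mul, Units.mul_inv, map_one]
    refine ⟨-ψ c0 * ψ ((u⁻¹ : Oˣ) : O), ?_⟩
    calc ψ t ^ e = ψ t ^ e * (ψ (u : O) * ψ ((u⁻¹ : Oˣ) : O)) := by rw [h3, mul_one]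
      _ = (ψ t ^ e * ψ (u : O)) * ψ ((u⁻¹ : Oˣ) : O) := by ring
      _ = _ := by rw [h2]; ring
  -- the key relation
  have hy : ∃ b c : O, τ T - T = t ^ e * b + p * c := by
    by_cases hdv : (p : O) ∣ τ T - T
    · obtain ⟨c, hc⟩ := hdv
      exact ⟨0, c, by rw [hc]; ring⟩
    · obtain ⟨n, w, hw, c, hc⟩ := hord _ hdv
      have h1 : e ≤ n := hmin0 n ⟨τ T - T, w, c, by rw [map_sub, hφτ, sub_self], hw, hc⟩
      refine ⟨t ^ (n - e) * w, c, ?_⟩
      rw [hc, ← mul_assoc, ← pow_add, Nat.add_sub_cancel' h1]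
  obtain ⟨b, c, hbc⟩ := hy
  have hd : d (τ T) - 1 = (e : O) * t ^ (e - 1) * (d t * b) + t ^ e * d b + p * d c := by
    have h1 : d (τ T - T) = d (t ^ e * b + p * c) := by rw [hbc]
    rw [map_sub, hT, map_add, Derivation.leibniz, Derivation.leibniz, Derivation.leibniz_pow,
      Derivation.map_natCast] at h1
    rw [h1]
    simp only [smul_eq_mul, nsmul_eq_mul, mul_zero, add_zero]
    ring
  have hψζ : ((ψ (d (τ T)) : R) : L) = ζ := hζd
  have hζR : IsPrimitiveRoot (ψ (d (τ T))) N := by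
    apply IsPrimitiveRoot.of_map_of_injective (f := R.subtype)
    · have h0 : R.subtype (ψ (d (τ T))) = ζ := hψζ
      rw [h0]
      exact hζ
    · exact Subtype.val_injective
  obtain ⟨s, hs⟩ := hte
  refine ramAlg_core hp hN hram (ψ t) ?_ ?_ (hunit t htm) ?_ (ψ (d (τ T))) hζR e he1 ⟨s, hs⟩ ?_
    (ψ (d t * b)) (s * ψ (d b) + ψ (d c)) ?_
  · intro z hz
    obtain ⟨z', rfl⟩ := hψs z
    have h1 : z' ∈ IsLocalRing.maximalIdeal O := fun hu => hz (hu.map ψ)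
    rw [hmax, Ideal.mem_span_pair] at h1
    obtain ⟨x, y, hxy⟩ := h1
    refine ⟨ψ x, ψ y, ?_⟩
    rw [← hxy, map_add, map_mul, map_mul, hψp]
  · rw [← hψp]
    exact hunit _ hpm
  · intro z hz
    obtain ⟨z', rfl⟩ := hψs z
    have h1 : ¬ (p : O) ∣ z' := by
      rintro ⟨y, rfl⟩
      exact hz ⟨ψ y, by rw [map_mul, hψp]⟩
    obtain ⟨n, w, hw, c', hc'⟩ := hord z' h1
    exact ⟨n, ψ w, hw.map ψ, ψ c', by rw [hc', map_add, map_mul, map_mul, map_pow, hψp]⟩
  · rintro m ⟨y, hy⟩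
    obtain ⟨y', rfl⟩ := hψs y
    apply hmin0
    refine ⟨t ^ m - p * y', 1, -y', ?_, isUnit_one, by ring⟩
    rw [← hψ0, map_sub, map_mul, map_pow, hψp, hy, sub_self]
  · have h1 : ψ (d (τ T) - 1) = ψ ((e : O) * t ^ (e - 1) * (d t * b) + t ^ e * d b + p * d c) := by
      rw [hd]
    simp only [map_sub, map_one, map_add, map_mul, map_pow, hψp, hs, map_natCast] at h1
    rw [h1, map_mul]
    ring

end DynBad
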