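import Pool.Agent.DynBad.DynSigma
import Pool.Agent.DynBad.GaussW
import Pool.Agent.DynBad.PhiZero

/-!
# Module RamPoint: the fixed point `u = 0`, `x = ζ`

`L` is an algebraically closed field of characteristic 0 which is a `ℤ_p`-algebra with injective
structure map (e.g. `AlgebraicClosure ℚ_[p]`), `ζ ∈ L` a primitive `N`-th root of unity, `N ≥ 2`.
`Φ_N(ζ, 0) = cyclotomic N (ζ) = 0` (`ev_zero_Phi`), so by `D.ker` there is a ring homomorphism
`φ₀ : A → L` over `ℤ_p` with `x ↦ ζ`, `u ↦ 0`.  `𝔮 = ker φ₀`, `p ∉ 𝔮`; let `V₁` be a valuation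
subring of `K` with centre `𝔮` on `A` (`exists_val_subalgebra`); `v₁(p) = 1`, `V₁ = loc V₁ A`
(`A_zero`) so `φ₀` extends to `φ : V₁ → L` with kernel `𝔪_{V₁}`.

`φ(PX) = (cyclotomic N)'(ζ) ≠ 0` (`ev_zero_dX_Phi`), so `PX` is a unit of `V₁`.
`σ(V₁) ⊆ V₁` and `φ ∘ σ = φ`: for `a ∈ A`, `σ a ∈ A` and `φ₀(σ a) = φ₀(a)` because `φ₀ ∘ σ` and
`φ₀` agree on `x` (`ζ + 0`) and `u` (`0`); for `z = a/b`, `φ₀(b) ≠ 0`, `σ z = σa/σb` with
`φ₀(σ b) = φ₀(b) ≠ 0`.
-/

namespace DynBad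

open Polynomial

variable {p : ℕ} [Fact p.Prime] {K : Type*} [Field K] [CharZero K] [Algebra ℤ_[p] K] {N : ℕ}
  {L : Type*} [Field L] [CharZero L] [Algebra ℤ_[p] L]

/-- the data of the fixed point -/
structure RamPt (D : DynField p N K) (ζ : L) (V₁ : ValuationSubring K) (φ : V₁ →+* L) : Prop where
  le : Le D.A V₁
  valp : V₁.valuation (p : K) = 1
  ker : ∀ z : V₁, φ z = 0 ↔ V₁.valuation (z : K) < 1
  base : ∀ (a : ℤ_[p]) (h : algebraMap ℤ_[p] K a ∈ V₁), φ ⟨_, h⟩ = algebraMap ℤ_[p] L a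
  map_x : ∀ h : D.x ∈ V₁, φ ⟨D.x, h⟩ = ζ
  map_u : ∀ h : D.u ∈ V₁, φ ⟨D.u, h⟩ = 0

/-- evaluation with values in a valuation ring -/
private noncomputable def evV (V : ValuationSubring K) (hV : Over p V) (a b : V) :
    ℤ_[p][X][X] →+* V :=
  eval₂RingHom (eval₂RingHom ((algebraMap ℤ_[p] K).codRestrict V.toSubring hV) a) b

private lemma coe_evV (V : ValuationSubring K) (hV : Over p V) (a b : V) (P : ℤ_[p][X][X]) :
    ((evV V hV a b P : V) : K) = ev (a : K) (b : K) P := by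
  have : (V.subtype).comp (evV V hV a b) = ev (R := ℤ_[p]) (a : K) (b : K) := by
    apply Polynomial.ringHom_ext'
    · apply Polynomial.ringHom_ext'
      · ext r
        simp [ev, evV]
      · simp [ev, evV]
    · simp [ev, evV]
  exact congr($this P)

private lemma map_evV (V : ValuationSubring K) (hV : Over p V) (φ : V →+* L)
    (hbase : ∀ (r : ℤ_[p]) (h : algebraMap ℤ_[p] K r ∈ V), φ ⟨_, h⟩ = algebraMap ℤ_[p] L r)
    (a b : V) (P : ℤ_[p][X][X]) :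
    φ (evV V hV a b P) = ev (φ a) (φ b) P := by
  have : φ.comp (evV V hV a b) = ev (R := ℤ_[p]) (φ a) (φ b) := by
    apply Polynomial.ringHom_ext'
    · apply Polynomial.ringHom_ext'
      · ext r
        simp [ev, evV]
        exact hbase r (hV r)
      · simp [ev, evV]
    · simp [ev, evV]
  exact congr($this P)

private lemma ev_zeta_Phi (hN : 2 ≤ N) (ζ : L) (hζ : IsPrimitiveRoot ζ N) :
    ev ζ 0 (Phi N) = 0 := by
  rw [ev_zero_Phi ζ hN, aeval_def, eval₂_eq_eval_map, map_cyclotomic]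
  exact hζ.isRoot_cyclotomic (by omega)

private lemma ev_zeta_dX_Phi (hN : 2 ≤ N) (ζ : L) (hζ : IsPrimitiveRoot ζ N) :
    ev ζ 0 (dX (Phi N)) ≠ 0 := by
  rw [ev_zero_dX_Phi ζ hN, aeval_def, eval₂_eq_eval_map, ← derivative_map, map_cyclotomic]
  have hr : (cyclotomic N L).IsRoot ζ := hζ.isRoot_cyclotomic (by omega)
  haveI : NeZero (N : L) := ⟨by exact_mod_cast (by omega : N ≠ 0)⟩
  have hsep : (cyclotomic N L).Separable := separable_cyclotomic N L
  exact hsep.eval₂_derivative_ne_zero (RingHom.id L) (x := ζ) (by simpa using hr) |> fun h => by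
    simpa using h

theorem DynField.exists_ramPt (D : DynField p N K) (hN : 2 ≤ N)
    (hL : Function.Injective (algebraMap ℤ_[p] L)) (ζ : L) (hζ : IsPrimitiveRoot ζ N) :
    ∃ (V₁ : ValuationSubring K) (φ : V₁ →+* L), RamPt D ζ V₁ φ := by
  classical
  -- the evaluation onto `A`
  let f : ℤ_[p][X][X] →+* D.A :=
    (ev (R := ℤ_[p]) D.x D.u).codRestrict D.A.toSubring
      (fun P => (D.mem_A_iff _).mpr ⟨P, rfl⟩)
  have hf : Function.Surjective f := by
    rintro ⟨z, hz⟩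
    obtain ⟨P, hP⟩ := (D.mem_A_iff z).mp hz
    exact ⟨P, Subtype.ext hP.symm⟩
  have hfc : ∀ P, ((f P : D.A) : K) = ev D.x D.u P := fun P => rfl
  let g : ℤ_[p][X][X] →+* L := ev (R := ℤ_[p]) ζ 0
  have hker : RingHom.ker f ≤ RingHom.ker g := by
    intro P hP
    rw [RingHom.mem_ker] at hP ⊢
    have h1 : ev D.x D.u P = 0 := by rw [← hfc, hP]; rfl
    obtain ⟨Q, hQ⟩ := D.ker P h1
    rw [hQ, map_mul]
    have h2 : g ((Phi N).map (mapRingHom (Int.castRingHom ℤ_[p]))) = 0 := by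
      show ev ζ 0 _ = 0
      rw [ev_map, ev_zeta_Phi hN ζ hζ]
    rw [h2, zero_mul]
  let φ₀ : D.A →+* L := f.liftOfSurjective hf ⟨g, hker⟩
  have hφ₀ : ∀ P, φ₀ (f P) = g P := fun P =>
    RingHom.liftOfRightInverse_comp_apply f _ (Function.rightInverse_surjInv hf) ⟨g, hker⟩ P
  let q : Ideal D.A := RingHom.ker φ₀
  haveI : q.IsPrime := RingHom.ker_isPrime φ₀
  obtain ⟨V₁, hle, hV₁⟩ := exists_val_subalgebra D.A q
  have hone : ∀ b : D.A, V₁.valuation (b : K) = 1 ↔ φ₀ b ≠ 0 := by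
    intro b
    have h1 : V₁.valuation (b : K) ≤ 1 := (V₁.valuation_le_one_iff _).mpr (hle _ b.2)
    have h2 := hV₁ b
    constructor
    · intro h h0
      have := h2.mpr h0
      rw [h] at this
      exact lt_irrefl _ this
    · intro h
      refine le_antisymm h1 (not_lt.mp fun hlt => h (h2.mp hlt))
  have hbase0 : ∀ r : ℤ_[p], φ₀ (algebraMap ℤ_[p] D.A r) = algebraMap ℤ_[p] L r := by
    intro r
    have : algebraMap ℤ_[p] D.A r = f (C (C r)) := by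
      apply Subtype.ext
      rw [hfc, ev_CC]
      rfl
    rw [this, hφ₀]
    exact ev_CC _ _ _
  have hvalp : V₁.valuation (p : K) = 1 := by
    have h1 := hone (algebraMap ℤ_[p] D.A (p : ℤ_[p]))
    have h2 : ((algebraMap ℤ_[p] D.A (p : ℤ_[p]) : D.A) : K) = (p : K) := by simp
    rw [h2] at h1
    apply h1.mpr
    rw [hbase0]
    simp only [map_natCast]
    exact_mod_cast (Fact.out : p.Prime).ne_zero
  have hloc : ∀ z ∈ V₁, z ∈ loc V₁ D.A := D.A_zero (by omega) V₁ hle hvalp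
  have hex : ∀ z : V₁, ∃ ab : D.A × D.A, V₁.valuation (ab.2 : K) = 1 ∧
      (z : K) * (ab.2 : K) = (ab.1 : K) := by
    intro z
    obtain ⟨a, ha, b, hb, hb1, hab⟩ := hloc z z.2
    exact ⟨(⟨a, ha⟩, ⟨b, hb⟩), hb1, hab⟩
  choose ab hab1 hab2 using hex
  let ψ : V₁ → L := fun z => φ₀ (ab z).1 / φ₀ (ab z).2
  have hψ : ∀ (z : V₁) (a b : D.A), V₁.valuation (b : K) = 1 → (z : K) * (b : K) = (a : K) →
      ψ z * φ₀ b = φ₀ a := by
    intro z a b hb h
    have h0 : φ₀ (ab z).2 ≠ 0 := (hone _).mp (hab1 z)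
    have h1 : (ab z).1 * b = a * (ab z).2 := by
      apply Subtype.ext
      push_cast
      rw [← hab2 z, ← h]
      ring
    have h2 := congr(φ₀ $h1)
    rw [map_mul, map_mul] at h2
    show φ₀ (ab z).1 / φ₀ (ab z).2 * φ₀ b = φ₀ a
    field_simp
    linear_combination h2
  have huniq : ∀ (z : V₁) (a b : D.A) (w : L), V₁.valuation (b : K) = 1 →
      (z : K) * (b : K) = (a : K) → w * φ₀ b = φ₀ a → ψ z = w := by
    intro z a b w hb h hw
    have h0 : φ₀ b ≠ 0 := (hone _).mp hb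
    apply mul_right_cancel₀ h0
    rw [hψ z a b hb h, hw]
  have hA : ∀ (a : D.A) (h : (a : K) ∈ V₁), ψ ⟨a, h⟩ = φ₀ a := by
    intro a h
    refine huniq _ a 1 _ (by simp) (by simp) (by simp)
  let φ : V₁ →+* L :=
    { toFun := ψ
      map_one' := huniq 1 1 1 1 (by simp) (by simp) (by simp)
      map_zero' := huniq 0 0 1 0 (by simp) (by simp) (by simp)
      map_mul' := by
        intro z z'
        refine huniq _ ((ab z).1 * (ab z').1) ((ab z).2 * (ab z').2) _ ?_ ?_ ?_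
        · push_cast
          rw [map_mul, hab1, hab1, one_mul]
        · push_cast
          rw [← hab2 z, ← hab2 z']
          ring
        · rw [map_mul, map_mul, ← hψ z _ _ (hab1 z) (hab2 z), ← hψ z' _ _ (hab1 z') (hab2 z')]
          ring
      map_add' := by
        intro z z'
        refine huniq _ ((ab z).1 * (ab z').2 + (ab z').1 * (ab z).2) ((ab z).2 * (ab z').2) _
          ?_ ?_ ?_
        · push_cast
          rw [map_mul, hab1, hab1, one_mul]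
        · push_cast
          rw [← hab2 z, ← hab2 z']
          ring
        · rw [map_mul, map_add, map_mul, map_mul, ← hψ z _ _ (hab1 z) (hab2 z),
            ← hψ z' _ _ (hab1 z') (hab2 z')]
          ring }
  have hφψ : ∀ z, φ z = ψ z := fun z => rfl
  refine ⟨V₁, φ, ?_⟩
  refine ⟨hle, hvalp, ?_, ?_, ?_, ?_⟩
  · intro z
    have h0 : φ₀ (ab z).2 ≠ 0 := (hone _).mp (hab1 z)
    have h1 : φ z = 0 ↔ φ₀ (ab z).1 = 0 := by
      rw [hφψ, ← hψ z _ _ (hab1 z) (hab2 z), mul_eq_zero]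
      exact ⟨fun h => Or.inl h, fun h => h.resolve_right h0⟩
    have h2 : V₁.valuation (z : K) = V₁.valuation ((ab z).1 : K) := by
      rw [← hab2 z, map_mul, hab1, mul_one]
    rw [h1, h2, hV₁]
    rfl
  · intro r h
    rw [hφψ]
    have := hA (algebraMap ℤ_[p] D.A r) h
    rw [hbase0] at this
    exact this
  · intro h
    rw [hφψ]
    have h1 := hA (f (C X)) (by rw [hfc, ev_CX]; exact h)
    have h2 : (⟨D.x, h⟩ : V₁) = ⟨(f (C X) : D.A), by rw [hfc, ev_CX]; exact h⟩ :=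
      Subtype.ext (by rw [hfc, ev_CX])
    rw [h2, h1, hφ₀]
    exact ev_CX _ _
  · intro h
    rw [hφψ]
    have h1 := hA (f X) (by rw [hfc, ev_X]; exact h)
    have h2 : (⟨D.u, h⟩ : V₁) = ⟨(f X : D.A), by rw [hfc, ev_X]; exact h⟩ :=
      Subtype.ext (by rw [hfc, ev_X])
    rw [h2, h1, hφ₀]
    exact ev_X _ _

private lemma RamPt.val_eq_one {D : DynField p N K} {ζ : L} {V₁ : ValuationSubring K}
    {φ : V₁ →+* L} (h : RamPt D ζ V₁ φ) (z : V₁) (hz : φ z ≠ 0) :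
    V₁.valuation (z : K) = 1 := by
  have h1 : V₁.valuation (z : K) ≤ 1 := (V₁.valuation_le_one_iff _).mpr z.2
  exact le_antisymm h1 (not_lt.mp fun hlt => hz ((h.ker z).mpr hlt))

theorem RamPt.unit_PX {D : DynField p N K} {ζ : L} {V₁ : ValuationSubring K} {φ : V₁ →+* L}
    (h : RamPt D ζ V₁ φ) (hN : 2 ≤ N) (hζ : IsPrimitiveRoot ζ N) :
    V₁.valuation D.PX = 1 := by
  have hx := h.le _ D.x_mem
  have hu := h.le _ D.u_mem
  have h1 := ev_comp_int V₁.subtype ⟨D.x, hx⟩ ⟨D.u, hu⟩ (dX (Phi N))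
  have h2 := ev_comp_int φ ⟨D.x, hx⟩ ⟨D.u, hu⟩ (dX (Phi N))
  rw [h.map_x hx, h.map_u hu] at h2
  have h3 := h.val_eq_one _ (by rw [h2]; exact ev_zeta_dX_Phi hN ζ hζ)
  have h4 : ((ev (⟨D.x, hx⟩ : V₁) ⟨D.u, hu⟩ (dX (Phi N)) : V₁) : K) = D.PX := h1
  rwa [h4] at h3

theorem RamPt.sigma {D : DynField p N K} {ζ : L} {V₁ : ValuationSubring K} {φ : V₁ →+* L}
    (h : RamPt D ζ V₁ φ) (hN : 2 ≤ N) (hζ : IsPrimitiveRoot ζ N) (σ : K ≃ₐ[ℤ_[p]] K)
    (hx : σ D.x = D.x + 2 * D.u) (hu : σ D.u = D.u ^ 2 + D.x * D.u) (z : K) (hz : z ∈ V₁) :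
    ∃ hz' : σ z ∈ V₁, φ ⟨σ z, hz'⟩ = φ ⟨z, hz⟩ := by
  have hxV := h.le _ D.x_mem
  have huV := h.le _ D.u_mem
  let x' : V₁ := ⟨D.x, hxV⟩
  let u' : V₁ := ⟨D.u, huV⟩
  have hx' : φ x' = ζ := h.map_x hxV
  have hu' : φ u' = 0 := h.map_u huV
  -- for elements of `A`
  have hA : ∀ a ∈ D.A, ∀ ha : a ∈ V₁, ∃ ha' : σ a ∈ V₁, φ ⟨σ a, ha'⟩ = φ ⟨a, ha⟩ := by
    intro a haA ha
    obtain ⟨P, hP⟩ := (D.mem_A_iff a).mp haA
    have h1 : σ a = ev (σ D.x) (σ D.u) P := by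
      rw [hP]
      exact ev_comp (σ : K →+* K) (by ext r; simp) D.x D.u P
    have h2 : (⟨a, ha⟩ : V₁) = evV V₁ h.le.over x' u' P :=
      Subtype.ext (by rw [coe_evV]; exact hP)
    have h3 : σ a = ((evV V₁ h.le.over (x' + 2 * u') (u' ^ 2 + x' * u') P : V₁) : K) := by
      rw [coe_evV, h1, hx, hu]
      rfl
    have h4 : σ a ∈ V₁ := by rw [h3]; exact Subtype.property _
    refine ⟨h4, ?_⟩
    have h5 : (⟨σ a, h4⟩ : V₁) = evV V₁ h.le.over (x' + 2 * u') (u' ^ 2 + x' * u') P :=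
      Subtype.ext h3
    rw [h5, h2, map_evV V₁ _ φ h.base, map_evV V₁ _ φ h.base]
    simp only [map_add, map_mul, map_pow, hx', hu']
    norm_num
  obtain ⟨a, ha, b, hb, hb1, hab⟩ := D.A_zero (by omega) V₁ h.le h.valp z hz
  obtain ⟨ha', ha2⟩ := hA a ha (h.le _ ha)
  obtain ⟨hb', hb2⟩ := hA b hb (h.le _ hb)
  have hbne : φ ⟨b, h.le _ hb⟩ ≠ 0 := by
    intro h0
    have := (h.ker _).mp h0
    simp only [] at this
    rw [hb1] at this
    exact lt_irrefl _ this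
  have hσb : V₁.valuation (σ b) = 1 := h.val_eq_one ⟨σ b, hb'⟩ (by rw [hb2]; exact hbne)
  have hσ : σ z * σ b = σ a := by rw [← map_mul, hab]
  have hz' : σ z ∈ V₁ := by
    rw [← V₁.valuation_le_one_iff]
    have : V₁.valuation (σ z) = V₁.valuation (σ a) := by
      rw [← hσ, map_mul, hσb, mul_one]
    rw [this]
    exact (V₁.valuation_le_one_iff _).mpr ha'
  refine ⟨hz', ?_⟩
  apply mul_right_cancel₀ hbne
  have e1 : φ ⟨σ z, hz'⟩ * φ ⟨σ b, hb'⟩ = φ ⟨σ a, ha'⟩ := by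
    rw [← map_mul]
    congr 1
    exact Subtype.ext hσ
  have e2 : φ ⟨z, hz⟩ * φ ⟨b, h.le _ hb⟩ = φ ⟨a, h.le _ ha⟩ := by
    rw [← map_mul]
    congr 1
    exact Subtype.ext hab
  rw [e2, ← ha2, ← e1, hb2]

end DynBad
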