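import Pool.Agent.DynBad.Val

/-!
# Module RelDim: the relative dimension is one

`S ⊆ K` étale over `MvPolynomial (Fin n) ℤ_p`, `Frac S = K`, `x ∈ K` transcendental over `ℤ_p` and
every `z ∈ K` algebraic over `ℤ_p[x]`.  Then `n = 1` and `S` is étale over `ℤ_p[T]`.

The images `t_i ∈ S` of the variables are algebraically independent over `ℤ_p` (étale implies
flat, so `MvPolynomial (Fin n) ℤ_p → S` is injective, `S` being a nonzero domain), and every element
of `K` is algebraic over `Frac ℤ_p[t_1, …, t_n]` (étale over the fraction field implies finite).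
So both `{x}` and `{t_i}` are transcendence bases of `K` over `Frac ℤ_p`, and `n = 1`
(Mathlib: `IsTranscendenceBasis`, `Algebra.trdeg`; or by hand).  Compose with
`MvPolynomial (Fin 1) ℤ_p ≃ ℤ_p[X]` (`MvPolynomial.uniqueAlgEquiv` / `MvPolynomial.pUnitAlgEquiv`).
-/

namespace DynBad

open Polynomial

variable {p : ℕ} [Fact p.Prime] {K : Type*} [Field K] [CharZero K] [Algebra ℤ_[p] K]

omit [CharZero K] in
lemma relDim_isFractionRing (S : Subalgebra ℤ_[p] K) (hfr : Frac S) : IsFractionRing S K where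
  map_units := by
    rintro ⟨y, hy⟩
    exact IsUnit.mk0 _ (by simpa using nonZeroDivisors.ne_zero hy)
  surj := by
    intro z
    obtain ⟨a, ha, b, hb, hb0, h⟩ := hfr z
    exact ⟨⟨⟨a, ha⟩, ⟨⟨b, hb⟩, mem_nonZeroDivisors_of_ne_zero
      (by simpa [Subtype.ext_iff] using hb0)⟩⟩, h⟩
  exists_of_eq := by
    intro a b h
    exact ⟨1, by rw [Subtype.ext h]⟩

omit [CharZero K] in
lemma relDim_alg (S : Subalgebra ℤ_[p] K) (hfr : Frac S) (n : ℕ)
    (g : MvPolynomial (Fin n) ℤ_[p] →ₐ[ℤ_[p]] S)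
    (hg : (g : MvPolynomial (Fin n) ℤ_[p] →+* S).Etale) :
    IsTranscendenceBasis ℤ_[p] (fun i => (g (MvPolynomial.X i) : K)) := by
  have hfr' := relDim_isFractionRing S hfr
  let Rp := MvPolynomial (Fin n) ℤ_[p]
  let : Algebra Rp S := (g : Rp →+* S).toAlgebra
  have : Algebra.Etale Rp S := hg
  let : Algebra Rp K := ((S.val : S →+* K).comp (g : Rp →+* S)).toAlgebra
  have t1 : IsScalarTower Rp S K := IsScalarTower.of_algebraMap_eq fun _ => rfl
  have t2 : IsScalarTower ℤ_[p] Rp K := IsScalarTower.of_algebraMap_eq fun a => by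
    have : g (algebraMap ℤ_[p] Rp a) = algebraMap ℤ_[p] S a := g.commutes a
    change algebraMap ℤ_[p] K a = (g (algebraMap ℤ_[p] Rp a) : K)
    rw [this]; rfl
  -- injectivity
  have : Module.Flat Rp S := Algebra.Smooth.flat Rp S
  have hinj : Function.Injective (algebraMap Rp S) := by
    rw [injective_iff_map_eq_zero]
    intro a ha
    by_contra h0
    have h1 : Function.Injective (fun s : S => a • s) := by
      have := Module.Flat.isSMulRegular_of_isRegular (M := S) (IsRegular.of_ne_zero h0)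
      exact this
    have h2 : (1 : S) = 0 := h1 (by simp [Algebra.smul_def, ha])
    exact one_ne_zero h2
  have hinjK : Function.Injective (algebraMap Rp K) := by
    rw [IsScalarTower.algebraMap_eq Rp S K]
    exact (IsFractionRing.injective S K).comp hinj
  have : FaithfulSMul Rp K := (faithfulSMul_iff_algebraMap_injective Rp K).mpr hinjK
  let F := FractionRing Rp
  let : Algebra F K := FractionRing.liftAlgebra Rp K
  have : IsScalarTower Rp F K := FractionRing.isScalarTower_liftAlgebra Rp K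
  have : Algebra.FormallyUnramified S K :=
    Algebra.FormallyUnramified.of_isLocalization (nonZeroDivisors S)
  have : Algebra.FormallyUnramified Rp K := Algebra.FormallyUnramified.comp Rp S K
  have : Algebra.FormallyUnramified F K := Algebra.FormallyUnramified.of_restrictScalars Rp F K
  have : Algebra.EssFiniteType S K := Algebra.EssFiniteType.of_isLocalization K (nonZeroDivisors S)
  have : Algebra.EssFiniteType Rp K := Algebra.EssFiniteType.comp Rp S K
  have : Algebra.EssFiniteType F K := Algebra.EssFiniteType.of_comp Rp F K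
  have : Module.Finite F K := Algebra.FormallyUnramified.finite_of_free F K
  have : Algebra.IsAlgebraic F K := Algebra.IsAlgebraic.of_finite F K
  have : Algebra.IsAlgebraic Rp K := (IsFractionRing.comap_isAlgebraic_iff (K := F)).mpr inferInstance
  exact (IsTranscendenceBasis.mvPolynomial (Fin n) ℤ_[p]).algebraMap_comp (A := K)

omit [CharZero K] in
lemma relDim_x (x : K) (hx : Transcendental ℤ_[p] x)
    (halg : ∀ z : K, ∃ P : ℤ_[p][X][X], P ≠ 0 ∧ ev x z P = 0) :
    IsTranscendenceBasis ℤ_[p] (fun _ : Unit => x) := by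
  have hi : AlgebraicIndependent ℤ_[p] (fun _ : Unit => x) :=
    (algebraicIndependent_unique_type_iff (ι := Unit)).mpr hx
  rw [hi.isTranscendenceBasis_iff_isAlgebraic]
  constructor
  intro z
  obtain ⟨P, hP0, hP⟩ := halg z
  have hr : Set.range (fun _ : Unit => x) = {x} := Set.range_const
  rw [hr]
  let f : ℤ_[p][X] →+* Algebra.adjoin ℤ_[p] {x} :=
    (Polynomial.aeval (⟨x, Algebra.subset_adjoin rfl⟩ : Algebra.adjoin ℤ_[p] {x}) :
      ℤ_[p][X] →ₐ[ℤ_[p]] Algebra.adjoin ℤ_[p] {x}).toRingHom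
  have hfv : ∀ Q : ℤ_[p][X], ((f Q : Algebra.adjoin ℤ_[p] {x}) : K) = Polynomial.aeval x Q := by
    intro Q
    have := Polynomial.aeval_algHom_apply (Algebra.adjoin ℤ_[p] {x}).val
      (⟨x, Algebra.subset_adjoin rfl⟩ : Algebra.adjoin ℤ_[p] {x}) Q
    exact this.symm
  have hf : Function.Injective f := by
    rw [injective_iff_map_eq_zero]
    intro Q hQ
    by_contra h0
    have := hfv Q
    rw [hQ] at this
    exact (transcendental_iff.mp hx) Q this.symm |> h0
  refine ⟨P.map f, ?_, ?_⟩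
  · exact (Polynomial.map_ne_zero_iff hf).mpr hP0
  · rw [Polynomial.aeval_def, Polynomial.eval₂_map]
    have h2 : (algebraMap (Algebra.adjoin ℤ_[p] {x}) K).comp f =
        eval₂RingHom (algebraMap ℤ_[p] K) x := by
      apply RingHom.ext
      intro Q
      change ((f Q : Algebra.adjoin ℤ_[p] {x}) : K) = eval₂ (algebraMap ℤ_[p] K) x Q
      rw [hfv Q, Polynomial.aeval_def]
    rw [h2]
    exact hP

lemma relDim_etale_comp {A B C : Type*} [CommRing A] [CommRing B] [CommRing C] (f : A →+* B)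
    (g : B →+* C) (hf : f.Etale) (hg : g.Etale) : (g.comp f).Etale := by
  algebraize [f, g, g.comp f]
  exact Algebra.Etale.comp A B C

theorem relDim (S : Subalgebra ℤ_[p] K) (hfg : S.FG) (hfr : Frac S) (n : ℕ)
    (g : MvPolynomial (Fin n) ℤ_[p] →ₐ[ℤ_[p]] S) (hg : (g : MvPolynomial (Fin n) ℤ_[p] →+* S).Etale)
    (x : K) (hx : Transcendental ℤ_[p] x)
    (halg : ∀ z : K, ∃ P : ℤ_[p][X][X], P ≠ 0 ∧ ev x z P = 0) : EtaleChart S := by
  have h1 := relDim_alg S hfr n g hg
  have h2 := relDim_x x hx halg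
  have h3 := h1.lift_cardinalMk_eq h2
  have hn : n = 1 := by
    simpa using h3
  subst hn
  refine ⟨hfg, hfr, g (MvPolynomial.X 0), ?_⟩
  let e : ℤ_[p][X] ≃ₐ[ℤ_[p]] MvPolynomial (Fin 1) ℤ_[p] :=
    (MvPolynomial.uniqueAlgEquiv ℤ_[p] (Fin 1)).symm
  have : ((Polynomial.aeval (g (MvPolynomial.X 0)) : ℤ_[p][X] →ₐ[ℤ_[p]] S) : ℤ_[p][X] →+* S) =
      (g : MvPolynomial (Fin 1) ℤ_[p] →+* S).comp
        ((e : ℤ_[p][X] →ₐ[ℤ_[p]] MvPolynomial (Fin 1) ℤ_[p]) :
          ℤ_[p][X] →+* MvPolynomial (Fin 1) ℤ_[p]) := by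
    have h : (Polynomial.aeval (g (MvPolynomial.X 0)) : ℤ_[p][X] →ₐ[ℤ_[p]] S) =
        g.comp (e : ℤ_[p][X] →ₐ[ℤ_[p]] MvPolynomial (Fin 1) ℤ_[p]) := by
      apply Polynomial.algHom_ext
      have : e X = MvPolynomial.X 0 := by
        simp [e, MvPolynomial.uniqueAlgEquiv]
      simp [this]
    rw [h]
    rfl
  rw [this]
  have he : ((e : ℤ_[p][X] →ₐ[ℤ_[p]] MvPolynomial (Fin 1) ℤ_[p]) :
      ℤ_[p][X] →+* MvPolynomial (Fin 1) ℤ_[p]).Etale := RingHom.Etale.of_bijective e.bijective
  exact relDim_etale_comp _ _ he hg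

end DynBad
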