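import Pool.Agent.DynBad.SchDefs

/-!
# Definitions for the final statement: dynatomic curves and good reduction
-/

namespace DynBad

open Polynomial AlgebraicGeometry CategoryTheory

/-- the iterate `f_c^n(x)`, `f_c(x) = x^2 + c`, as an element of `ℤ[c][x]` (inner variable `c`,
outer variable `x`) -/
noncomputable def iter : ℕ → ℤ[X][X]
  | 0 => X
  | n + 1 => iter n ^ 2 + C X

/-- the dynatomic polynomial `Φ_N(x,c) = ∏_{d ∣ N} (f_c^d(x) - x)^{μ(N/d)}` in `ℤ[c][x]`: the
product over the `d` with `μ(N/d) = 1` divided by the (monic) product over the `d` with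
`μ(N/d) = -1` -/
noncomputable def dynatomic (N : ℕ) : ℤ[X][X] :=
  (∏ d ∈ N.divisors.filter (fun d => ArithmeticFunction.moebius (N / d) = 1), (iter d - X)) /ₘ
    (∏ d ∈ N.divisors.filter (fun d => ArithmeticFunction.moebius (N / d) = -1), (iter d - X))

/-- `Φ_N` over a field `k` -/
noncomputable def dynatomicOver (N : ℕ) (k : Type) [Field k] : k[X][X] :=
  (dynatomic N).map (mapRingHom (Int.castRingHom k))

/-- the function field of the curve `Φ_N(x,c) = 0` over `k`: the (total) fraction ring of
`k[c][x]/(Φ_N)` -/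
abbrev FunField (N : ℕ) (k : Type) [Field k] : Type :=
  FractionRing (AdjoinRoot (dynatomicOver N k))

/-- `X_1^dyn(N)` has good reduction at `p`: there is an integral scheme, smooth and proper over
`ℤ_p`, whose function field is isomorphic over `ℤ_p` to the function field of
`X_1^dyn(N)` over `ℚ_p` -/
def HasGoodReduction (N p : ℕ) [Fact p.Prime] : Prop :=
  ∃ (X : Scheme.{0}) (_ : IsIntegral X) (f : X ⟶ Spec (.of ℤ_[p])) (_ : Smooth f)
    (_ : IsProper f) (e : X.functionField ≃+* FunField N ℚ_[p]),
    ∀ a : ℤ_[p], e (baseMap f a) = algebraMap ℤ_[p] (FunField N ℚ_[p]) a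

/-- `(x,c) ∈ k × k` is a singular point of the affine curve `Φ_N(x,c) = 0` -/
def IsSingularPt (N : ℕ) {k : Type} [Field k] (x c : k) : Prop :=
  ((dynatomicOver N k).eval (C x)).eval c = 0 ∧
    ((dynatomicOver N k).derivative.eval (C x)).eval c = 0 ∧
    ((dynatomicOver N k).eval (C x)).derivative.eval c = 0

end DynBad
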