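import Pool.Agent.DynBad.PhiEv

/-!
# Module SLowerA: singular points of `Φ_N` of lower period: multiplier and its derivative

`P = (x,u)`, `F_d(P) = 0`, `F_k(P) ≠ 0` for `0 < k < d`, `N = d m`, `m ≥ 2`, `Sing N x u`, over a
field `k` of characteristic 0.  `X_j = XX x u j`, `λ = ∏_{j<d} X_j`.

(0) Cofactor: for `d ∣ N`, `F_N = F_d G` in `ℤ[X][X]` with `G = Φ_N H` (`exists_cofactor`), and by
`F_mul_eq` (in `ℤ[X][X]` at `(C X, X)`, cancel the monic `F_d`)
`G = ∑_{i<m} ∏_{j<di} (F_d∘σ^j + X_j)`.  If `(x',u')` is a point in a commutative ring `E` with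
`F_d(x',u') = 0`, then `F_d∘σ^j = 0` and `X_{j+d} = X_j` there (`F_shift_eq_prod`,
`XX_add_of_eq_zero`), so `G(x',u') = ∑_{i<m} Λ^i`, `Λ = ∏_{j<d} X_j(x',u')`.
(1) `G(P) = 0` so `∑_{i<m} λ^i = 0`; `λ^m = 1`, `λ ≠ 1`.
(2) The order `r` of `λ` is `m`: suppose `1 < r < m`, `e = d r`.  `∏_{j<e} X_j = λ^r = 1`,
`F_e(P) = 0`, `e ∣ N`, `e < N`: by (0) for `e`, the cofactor of `F_e` in `F_N` takes at `P` the
value `∑_{i<m/r} 1 = m/r ≠ 0`, but it is a multiple of `Φ_N(P) = 0`, contradiction.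
(3) `H(P) ≠ 0`: `H = ∏ Φ_e`, `e ∣ N`, `e < N`, `¬ e ∣ d`.  If `Φ_e(P) = 0`, then `F_e(P) = 0`,
`d ∣ e` (`F_gcd` and minimality of `d`), `e = d s`, `1 < s < m`, and by (0) for `d ∣ e`:
`∑_{i<s} λ^i = 0`, `λ^s = 1`, contradiction to (2).  [(3) is not needed in step (4).]
(4) Dual numbers `E = k[ε]`, `x' = x + ε a_d`, `u' = u - ε b_d`
(`a_d = aa x u d`, `b_d = bb x u d`).  `F_d(x',u') = ε (a_d b_d - b_d a_d) = 0`
(`F_add_sq_zero`), `Φ_N(x',u') = 0` (`ev_add_sq_zero` and `Sing`), so `G(x',u') = 0` and by (0)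
`∑_{i<m} Λ^i = 0` in `k[ε]`, `Λ = λ + ε λ'`; hence `λ' ∑_{i<m} i λ^(i-1) = 0`, and
`∑_{i<m} i λ^(i-1) ≠ 0`: differentiating `(T-1) ∑ T^i = T^m - 1` at `λ`:
`(λ-1) ∑ i λ^(i-1) = m λ^(m-1) ≠ 0`.  So `λ' = 0`, i.e. `Λ = λ`.
-/

namespace DynBad

open Polynomial Finset

/-- the value of the cofactor of `F_d` in `F_{dm}` at a point with `F_d = 0` -/
private lemma ev_cofactor {E : Type*} [CommRing E] {d m : ℕ} (hd : 1 ≤ d) {G : ℤ[X][X]}
    (hG : FP (d * m) = FP d * G) (x u : E) (h : F x u d = 0) :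
    ev x u G = ∑ i ∈ range m, (∏ j ∈ range d, XX x u j) ^ i := by
  have h1 : G = ∑ i ∈ range m, ∏ j ∈ range (d * i),
      (F (XX (C X : ℤ[X][X]) X j) (UU (C X : ℤ[X][X]) X j) d + XX (C X : ℤ[X][X]) X j) := by
    have h2 := F_mul_eq (C X : ℤ[X][X]) X d m
    have h3 : FP d ≠ 0 := (FP_monic hd).ne_zero
    have h4 : FP (d * m) = FP d * ∑ i ∈ range m, ∏ j ∈ range (d * i),
      (F (XX (C X : ℤ[X][X]) X j) (UU (C X : ℤ[X][X]) X j) d + XX (C X : ℤ[X][X]) X j) := h2
    rw [hG] at h4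
    exact mul_left_cancel₀ h3 h4
  rw [h1, map_sum]
  refine sum_congr rfl fun i _ => ?_
  rw [map_prod]
  have h5 : ∀ j, ev x u (F (XX (C X : ℤ[X][X]) X j) (UU (C X : ℤ[X][X]) X j) d +
      XX (C X : ℤ[X][X]) X j) = XX x u j := by
    intro j
    rw [map_add, map_F, map_XX, map_UU, ev_CX, ev_X, F_shift_eq_prod, h, zero_mul, zero_add]
  rw [prod_congr rfl fun j _ => h5 j]
  rename_i hi
  clear hi
  induction i with
  | zero => simp
  | succ i ih =>
    rw [mul_add, mul_one, prod_range_add, ih, pow_succ]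
    congr 1
    refine prod_congr rfl fun j _ => ?_
    exact XX_add_of_eq_zero (F_eq_zero_of_dvd x u (dvd_mul_right d i) h) j

private lemma tangent {k E : Type*} [Field k] [CommRing E] [Algebra k E] {d m : ℕ} (hd : 1 ≤ d)
    {G H : ℤ[X][X]} (hG : FP (d * m) = FP d * G) (hGH : G = Phi (d * m) * H) (x u : k)
    (h : F x u d = 0) (hs : Sing (d * m) x u) {e : E} (he : e * e = 0) :
    ∑ i ∈ range m, (∏ j ∈ range d, XX (algebraMap k E x + e * algebraMap k E (aa x u d))
      (algebraMap k E u + e * algebraMap k E (- bb x u d)) j) ^ i = 0 := by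
  obtain ⟨hs1, hs2, hs3⟩ := hs
  have hF : F (algebraMap k E x + e * algebraMap k E (aa x u d))
      (algebraMap k E u + e * algebraMap k E (- bb x u d)) d = 0 := by
    rw [F_add_sq_zero _ _ he, ← map_F, ← map_bb, ← map_aa, h, map_zero, map_neg]
    ring
  have hPhi : ev (algebraMap k E x + e * algebraMap k E (aa x u d))
      (algebraMap k E u + e * algebraMap k E (- bb x u d)) (Phi (d * m)) = 0 := by
    rw [ev_add_sq_zero _ _ he, ← ev_comp_int, ← ev_comp_int, ← ev_comp_int, hs1, hs2, hs3]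
    simp
  rw [← ev_cofactor hd hG _ _ hF, hGH, map_mul, hPhi, zero_mul]

theorem lower_mult {k : Type*} [Field k] [CharZero k] {N d : ℕ} (hN : 1 ≤ N) (hd : 1 ≤ d)
    (hdN : d ∣ N) (hlt : d < N) (x u : k)
    (h : F x u d = 0) (h' : ∀ i, 0 < i → i < d → F x u i ≠ 0) (hs : Sing N x u) :
    (∏ j ∈ range d, XX x u j) ≠ 1 ∧ (∃ m : ℕ, 0 < m ∧ (∏ j ∈ range d, XX x u j) ^ m = 1) ∧
      (∏ j ∈ range d,
        XX (algebraMap k (DualNumber k) x + DualNumber.eps * algebraMap k _ (aa x u d))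
          (algebraMap k (DualNumber k) u + DualNumber.eps * algebraMap k _ (- bb x u d)) j) =
        algebraMap k (DualNumber k) (∏ j ∈ range d, XX x u j) := by
  obtain ⟨G, H, hG, hGH, -⟩ := exists_cofactor hN hdN hlt
  obtain ⟨m, rfl⟩ := hdN
  have hm : 0 < m := by
    rcases Nat.eq_zero_or_pos m with h0 | h0
    · rw [h0, mul_zero] at hN
      omega
    · exact h0
  have hs1 := hs.1
  set lam : k := ∏ j ∈ range d, XX x u j with hlam
  have hsum : ∑ i ∈ range m, lam ^ i = 0 := by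
    rw [hlam, ← ev_cofactor hd hG x u h, hGH, map_mul, hs1, zero_mul]
  have hne : lam ≠ 1 := by
    intro h1
    rw [h1] at hsum
    simp only [one_pow, sum_const, card_range, nsmul_eq_mul, mul_one] at hsum
    exact hm.ne' (by exact_mod_cast hsum)
  have hpow : lam ^ m = 1 := by
    have := mul_geom_sum lam m
    rw [hsum, mul_zero] at this
    exact (sub_eq_zero.mp this.symm)
  refine ⟨hne, ⟨m, hm, hpow⟩, ?_⟩
  set x' : DualNumber k := algebraMap k (DualNumber k) x + DualNumber.eps * algebraMap k _ (aa x u d)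
    with hx'
  set u' : DualNumber k := algebraMap k (DualNumber k) u +
    DualNumber.eps * algebraMap k _ (- bb x u d) with hu'
  have heps : (DualNumber.eps : DualNumber k) * DualNumber.eps = 0 := DualNumber.eps_mul_eps
  have hsum' : ∑ i ∈ range m, (∏ j ∈ range d, XX x' u' j) ^ i = 0 :=
    tangent hd hG hGH x u h hs heps
  set Lam : DualNumber k := ∏ j ∈ range d, XX x' u' j with hLam
  have hpow' : Lam ^ m = 1 := by
    have := mul_geom_sum Lam m
    rw [hsum', mul_zero] at this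
    exact (sub_eq_zero.mp this.symm)
  have hfst : TrivSqZeroExt.fst Lam = lam := by
    have h1 : TrivSqZeroExt.fst Lam =
        (TrivSqZeroExt.fstHom k k k : DualNumber k →+* k) Lam := rfl
    rw [h1, hLam, map_prod, hlam]
    refine prod_congr rfl fun j _ => ?_
    rw [map_XX]
    congr 1
    · change TrivSqZeroExt.fst x' = x
      rw [hx']
      simp only [TrivSqZeroExt.fst_add, TrivSqZeroExt.fst_mul, DualNumber.fst_eps, zero_mul,
        add_zero]
      rfl
    · change TrivSqZeroExt.fst u' = u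
      rw [hu']
      simp only [TrivSqZeroExt.fst_add, TrivSqZeroExt.fst_mul, DualNumber.fst_eps, zero_mul,
        add_zero]
      rfl
  have hsnd : TrivSqZeroExt.snd Lam = 0 := by
    have h1 := congrArg TrivSqZeroExt.snd hpow'
    rw [TrivSqZeroExt.snd_pow, TrivSqZeroExt.snd_one, hfst] at h1
    have hlam0 : lam ≠ 0 := by
      intro h0
      rw [h0, zero_pow hm.ne'] at hpow
      exact zero_ne_one hpow
    simp only [smul_eq_mul, nsmul_eq_mul, mul_eq_zero, Nat.cast_eq_zero] at h1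
    rcases h1 with h1 | h1 | h1
    · exact absurd h1 hm.ne'
    · exact absurd h1 (pow_ne_zero _ hlam0)
    · exact h1
  refine TrivSqZeroExt.ext ?_ ?_
  · rw [hfst]
    rfl
  · rw [hsnd]
    rfl

end DynBad
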