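import Pool.Agent.DynBad.SchDefs
import Pool.Agent.DynBad.RelDim

/-!
# Module SchChart: affine charts of a smooth integral scheme over `ℤ_p`

`chart_frac`: `functionField_isFractionRing_of_isAffineOpen`.
`exists_etale_chart`: `Smooth.exists_isStandardSmooth f y` gives affine opens `y ∈ V ⊆ X`,
`W ⊆ Spec ℤ_p` with `f.appLE W V` standard smooth.  One may shrink/choose `W = ⊤`: if
`W ≠ ⊤` is an open subset of `Spec ℤ_p` (`ℤ_p` a DVR), it is empty or the generic point
`Spec ℚ_p = Spec ℤ_p[1/p]`, and localization away from `p` composed with standard smooth is standard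
smooth, so in all cases `Γ(X, V)` is standard smooth over `ℤ_p` (alternatively use
`Algebra.Smooth` of `Γ(X, V')` over `ℤ_p` for any affine open `V'` (`Smooth` is a ring-hom property,
`f.appLE ⊤ V'`), then `Algebra.Smooth` implies locally standard smooth, see
`Mathlib/RingTheory/Smooth/StandardSmoothOfFree.lean`,
`RingHom.Smooth`/`locally IsStandardSmooth`).  By
`RingHom.IsStandardSmooth.exists_etale_mvPolynomial` there are `n` and an étale map
`MvPolynomial (Fin n) ℤ_p → Γ(X, V)`.  Transport along `Γ(X, V) ≃ chart V` and apply `relDim`.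
`fg`: smooth implies finite presentation.
-/

namespace DynBad

open AlgebraicGeometry CategoryTheory Polynomial

section
variable {R : Type} [CommRing R] {X : Scheme.{0}} [IsIntegral X] (f : X ⟶ Spec (.of R))
  {K : Type} [Field K] [Algebra R K] (e : X.functionField ≃+* K)
  (he : ∀ a, e (baseMap f a) = algebraMap R K a)

theorem chart_frac (U : X.Opens) [Nonempty U] (hU : IsAffineOpen U) :
    Frac (chart f e he U) := by
  intro z
  have := functionField_isFractionRing_of_isAffineOpen X U hU
  obtain ⟨⟨a, b⟩, hab⟩ := IsLocalization.surj (nonZeroDivisors Γ(X, U)) (e.symm z)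
  refine ⟨e (X.germToFunctionField U a), ⟨a, rfl⟩, e (X.germToFunctionField U b.1), ⟨b.1, rfl⟩,
    ?_, ?_⟩
  · have h1 : (X.germToFunctionField U b.1) ≠ 0 := by
      intro h0
      have h2 : b.1 = 0 := by
        apply X.germToFunctionField_injective U
        rw [h0, map_zero]
      exact nonZeroDivisors.ne_zero b.2 h2
    exact (map_ne_zero_iff e e.injective).mpr h1
  · have h1 := congrArg e hab
    rw [map_mul, e.apply_symm_apply] at h1
    exact h1

/-- the sections over `U` map isomorphically to the chart -/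
noncomputable def chartMap (U : X.Opens) [Nonempty U] : Γ(X, U) →+* chart f e he U where
  toFun s := ⟨e (X.germToFunctionField U s), s, rfl⟩
  map_one' := Subtype.ext (by simp)
  map_zero' := Subtype.ext (by simp)
  map_mul' s t := Subtype.ext (by simp)
  map_add' s t := Subtype.ext (by simp)

lemma chartMap_bijective (U : X.Opens) [Nonempty U] :
    Function.Bijective (chartMap f e he U) := by
  constructor
  · intro s t h
    have h1 : e (X.germToFunctionField U s) = e (X.germToFunctionField U t) :=
      congrArg Subtype.val h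
    exact X.germToFunctionField_injective U (e.injective h1)
  · rintro ⟨_, s, rfl⟩
    exact ⟨s, rfl⟩

/-- the structure map `R → Γ(X, U)` -/
noncomputable def secMap (U : X.Opens) : R →+* Γ(X, U) :=
  ((Scheme.ΓSpecIso (.of R)).inv ≫ f.appLE ⊤ U le_top).hom

lemma chartMap_secMap (U : X.Opens) [Nonempty U] (a : R) :
    chartMap f e he U (secMap f U a) = algebraMap R (chart f e he U) a := by
  apply Subtype.ext
  change e (X.germToFunctionField U (secMap f U a)) = algebraMap R K a
  rw [← he a]
  congr 1
  simp only [secMap, baseMap, Scheme.Hom.appLE]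
  exact X.presheaf.germ_res_apply (homOfLE (le_top : U ≤ ⊤)) (genericPoint X)
      (((genericPoint_spec X).mem_open_set_iff U.isOpen).mpr (by simpa using ‹Nonempty U›))
      (f.appTop ((Scheme.ΓSpecIso (.of R)).inv a))

end

theorem exists_etale_chart {p : ℕ} [Fact p.Prime] {X : Scheme.{0}} [IsIntegral X]
    (f : X ⟶ Spec (.of ℤ_[p])) [Smooth f] {K : Type} [Field K] [CharZero K] [Algebra ℤ_[p] K]
    (e : X.functionField ≃+* K) (he : ∀ a, e (baseMap f a) = algebraMap ℤ_[p] K a)
    (x : K) (hx : Transcendental ℤ_[p] x)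
    (halg : ∀ z : K, ∃ P : ℤ_[p][X][X], P ≠ 0 ∧ ev x z P = 0) (y : X) :
    ∃ (U : X.Opens) (_ : Nonempty U), IsAffineOpen U ∧ y ∈ U ∧ EtaleChart (chart f e he U) := by
  obtain ⟨_, ⟨V, hV, rfl⟩, hyV, -⟩ :=
    X.isBasis_affineOpens.exists_subset_of_mem_open (Set.mem_univ y) isOpen_univ
  have hsm : (secMap f V).Smooth := by
    have h1 := f.smooth_appLE (isAffineOpen_top _) hV le_top
    have h2 : ((Scheme.ΓSpecIso (.of ℤ_[p])).inv.hom).Smooth :=
      RingHom.Smooth.of_bijective
        (ConcreteCategory.bijective_of_isIso (Scheme.ΓSpecIso (.of ℤ_[p])).inv)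
    exact RingHom.Smooth.stableUnderComposition _ _ h2 h1
  let : Algebra ℤ_[p] Γ(X, V) := (secMap f V).toAlgebra
  have : Algebra.Smooth ℤ_[p] Γ(X, V) := hsm
  obtain ⟨s, hs, hstd⟩ := Algebra.IsSmoothAt.exists_notMem_isStandardSmooth ℤ_[p]
    (hV.primeIdealOf ⟨y, hyV⟩).asIdeal
  have hyU : y ∈ X.basicOpen s := by
    have h1 : hV.primeIdealOf ⟨y, hyV⟩ ∈ PrimeSpectrum.basicOpen s := hs
    rw [← hV.fromSpec_preimage_basicOpen] at h1
    have h2 : hV.fromSpec (hV.primeIdealOf ⟨y, hyV⟩) ∈ X.basicOpen s := h1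
    rwa [hV.fromSpec_primeIdealOf] at h2
  have hne : Nonempty (X.basicOpen s) := ⟨⟨y, hyU⟩⟩
  have hU : IsAffineOpen (X.basicOpen s) := hV.basicOpen s
  refine ⟨X.basicOpen s, hne, hU, hyU, ?_⟩
  have hstd' : (secMap f (X.basicOpen s)).IsStandardSmooth := by
    have hloc := hV.isLocalization_basicOpen s
    have h1 : secMap f (X.basicOpen s) =
        (algebraMap Γ(X, V) Γ(X, X.basicOpen s)).comp (secMap f V) := by
      have h0 : f.appLE ⊤ V le_top ≫ X.presheaf.map (homOfLE (X.basicOpen_le s)).op =
          f.appLE ⊤ (X.basicOpen s) le_top := f.appLE_map _ _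
      unfold secMap
      rw [← h0]
      rfl
    let : Algebra ℤ_[p] Γ(X, X.basicOpen s) := (secMap f (X.basicOpen s)).toAlgebra
    have : IsScalarTower ℤ_[p] Γ(X, V) Γ(X, X.basicOpen s) :=
      IsScalarTower.of_algebraMap_eq' h1
    let ee : Localization.Away s ≃ₐ[Γ(X, V)] Γ(X, X.basicOpen s) :=
      IsLocalization.algEquiv (Submonoid.powers s) _ _
    have h2 : Algebra.IsStandardSmooth ℤ_[p] Γ(X, X.basicOpen s) :=
      .of_algEquiv (ee.restrictScalars ℤ_[p])
    exact h2
  obtain ⟨n, g, hg1, hg2⟩ := hstd'.exists_etale_mvPolynomial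
  let g' : MvPolynomial (Fin n) ℤ_[p] →ₐ[ℤ_[p]] chart f e he (X.basicOpen s) :=
    { ((chartMap f e he (X.basicOpen s)).comp g) with
      commutes' := by
        intro a
        have h1 : g (MvPolynomial.C a) = secMap f (X.basicOpen s) a := by
          rw [← hg1]; rfl
        change chartMap f e he (X.basicOpen s) (g (MvPolynomial.C a)) = _
        rw [h1, chartMap_secMap] }
  have hg' : (g' : MvPolynomial (Fin n) ℤ_[p] →+* chart f e he (X.basicOpen s)).Etale := by
    have h1 : (g' : MvPolynomial (Fin n) ℤ_[p] →+* chart f e he (X.basicOpen s)) =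
      (chartMap f e he (X.basicOpen s)).comp g := rfl
    rw [h1]
    exact relDim_etale_comp _ _ hg2 (RingHom.Etale.of_bijective (chartMap_bijective f e he _))
  have hfg : (chart f e he (X.basicOpen s)).FG := by
    rw [Subalgebra.fg_iff_finiteType]
    algebraize [(g' : MvPolynomial (Fin n) ℤ_[p] →+* chart f e he (X.basicOpen s))]
    have : IsScalarTower ℤ_[p] (MvPolynomial (Fin n) ℤ_[p]) (chart f e he (X.basicOpen s)) :=
      IsScalarTower.of_algebraMap_eq fun a => (g'.commutes a).symm
    exact Algebra.FiniteType.trans (S := MvPolynomial (Fin n) ℤ_[p]) inferInstance inferInstance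
  exact relDim _ hfg (chart_frac f e he _ hU) n g' hg' x hx halg

end DynBad
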