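import Pool.Agent.DynBad.PhiEv
import Pool.Agent.DynBad.LemmaQ

/-!
# Module SingExact: no singular point of exact period `N` over `ℂ`

By `sing_iff_of_exact`: `aa x u N = 0 = bb x u N`.  By `two_bb_add`, `∏_{j<N} X_j = 1`
(`X_j = XX x u j`).  Put `z_j = X_j / 2`, `c = u + x/2 - x^2/4`; then `z_{j+1} = z_j^2 + c`
(check: `X_{j+1} = x + 2 F_{j+1}`, `F_{j+1} = F_j^2 + x F_j + u`, `X_j = x + 2 F_j`), `z_N = z_0`
(`XX_add_of_eq_zero`), and the `z_j`, `j < N`, are distinct: `z_j - z_i = F_j - F_i =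
F (XX i) (UU i) (j - i)` (`F_shift`) is nonzero by `F_orbit_iff`.
Put `κ_j = 1/∏_{k<j} X_k` (so `κ_0 = 1`, `X_j κ_{j+1} = κ_j`, `κ_N = 1`).  By `aa_eq_sum`,
`0 = aa x u N = ∑_{j<N} ∏_{k=j+1}^{N-1} X_k = ∑_{j<N} κ_{j+1} = ∑_{j<N} κ_j`.
Apply `lemmaQ` with `d = N`, `α = 0`, `β = κ`.
-/

namespace DynBad

open Finset

theorem no_sing_exact {N : ℕ} (hN : 1 ≤ N) (x u : ℂ) (h : F x u N = 0)
    (h' : ∀ k, 0 < k → k < N → F x u k ≠ 0) : ¬ Sing N x u := by
  intro hs
  have h'' : ∀ d, d ∣ N → d < N → F x u d ≠ 0 := fun d hd hdN =>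
    h' d (Nat.pos_of_dvd_of_pos hd (by omega)) hdN
  obtain ⟨ha, hb⟩ := (sing_iff_of_exact x u hN h h'').mp hs
  have hprod : ∏ j ∈ range N, XX x u j = 1 := by
    have := two_bb_add x u N
    rw [ha, hb] at this
    linear_combination -this
  have hX0 : ∀ j < N, XX x u j ≠ 0 := by
    intro j hj h0
    rw [prod_eq_zero (mem_range.mpr hj) h0] at hprod
    exact zero_ne_one hprod
  set z : ℕ → ℂ := fun j => XX x u j / 2 with hz
  set κ : ℕ → ℂ := fun j => (∏ k ∈ range j, XX x u k)⁻¹ with hκ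
  have h2z : ∀ j, 2 * z j = XX x u j := fun j => by simp only [hz]; ring
  have hκN : κ N = κ 0 := by simp [hκ, hprod]
  have hinj' : ∀ i j, i < j → j < N → z i ≠ z j := by
    intro i j hij hj he
    have h1 : XX x u i = XX x u j := by rw [← h2z, ← h2z, he]
    have h2 : F x u i = F x u j := by
      have h3 : (2 : ℂ) * F x u i = 2 * F x u j := by
        simp only [XX] at h1
        linear_combination h1
      exact mul_left_cancel₀ two_ne_zero h3
    have h3 := F_shift x u i (j - i)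
    rw [Nat.add_sub_cancel' hij.le, h2, sub_self] at h3
    exact h' (j - i) (by omega) (by omega) ((F_orbit_iff hN h i (j - i)).mp h3)
  have hinj : ∀ i < N, ∀ j < N, z i = z j → i = j := by
    intro i hi j hj he
    rcases lt_trichotomy i j with hlt | heq | hgt
    · exact absurd he (hinj' i j hlt hj)
    · exact heq
    · exact absurd he.symm (hinj' j i hgt hi)
  have hsum : ∑ j ∈ range N, κ j = 0 := by
    have h1 := sum_range_succ κ N
    have h2 := sum_range_succ' κ N
    rw [h1, hκN] at h2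
    have h3 := add_right_cancel h2
    rw [h3, ← ha, aa_eq_sum]
    refine sum_congr rfl fun j hj => ?_
    rw [mem_range] at hj
    have h4 : (∏ k ∈ range (j + 1), XX x u k) * ∏ k ∈ Ico (j + 1) N, XX x u k = 1 := by
      rw [prod_range_mul_prod_Ico _ (by omega : j + 1 ≤ N), hprod]
    simp only [hκ]
    exact inv_eq_of_mul_eq_one_right h4
  refine lemmaQ hN z κ (u + x / 2 - x ^ 2 / 4) 0 ?_ ?_ hinj ?_ ?_ hκN hsum (Or.inr ?_)
  · intro j
    simp only [hz, XX, F_succ]
    ring
  · have := XX_add_of_eq_zero h 0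
    simp only [add_zero] at this
    simp only [hz, this]
  · have : ∏ j ∈ range N, 2 * z j = 1 := by
      rw [← hprod]
      exact prod_congr rfl fun j _ => h2z j
    rw [this, norm_one]
  · intro j hj
    rw [h2z, zero_div, sub_zero]
    simp only [hκ, prod_range_succ]
    have h1 : ∏ k ∈ range j, XX x u k ≠ 0 :=
      prod_ne_zero_iff.mpr fun k hk => hX0 k ((mem_range.mp hk).trans hj)
    have h2 := hX0 j hj
    field_simp
  · simp [hκ]

end DynBad
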