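import Pool.Agent.DynBad.ConvSing

/-!
# Good reduction, in short definitions
-/

namespace DynBad

open Polynomial AlgebraicGeometry CategoryTheory

/-- the ring homomorphism `R → Γ(X, ⊤)` attached to a scheme over `Spec R` -/
noncomputable def toSections {R : Type} [CommRing R] {X : Scheme.{0}} (f : X ⟶ Spec (.of R)) :
    CommRingCat.of R ⟶ Γ(X, ⊤) :=
  (Scheme.ΓSpecIso (.of R)).inv ≫ f.appTop

/-- the ring homomorphism from `R` to the function field of an integral scheme over `Spec R` -/
noncomputable def toFunctionField {R : Type} [CommRing R] {X : Scheme.{0}} [IsIntegral X]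
    (f : X ⟶ Spec (.of R)) : R →+* X.functionField :=
  (toSections f ≫ X.presheaf.germ ⊤ (genericPoint X) trivial).hom

/-- the function field of the integral `R`-scheme `X` is isomorphic to `K` as an `R`-algebra -/
def HasFunctionField {R : Type} [CommRing R] {X : Scheme.{0}} [IsIntegral X]
    (f : X ⟶ Spec (.of R)) (K : Type) [CommRing K] [Algebra R K] : Prop :=
  ∃ e : X.functionField ≃+* K, ∀ a : R, e (toFunctionField f a) = algebraMap R K a

/-- there is an integral scheme, smooth and proper over `R`, with function field `K` -/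
def HasSmoothProperModel (R : Type) [CommRing R] (K : Type) [CommRing K] [Algebra R K] : Prop :=
  ∃ (X : Scheme.{0}) (_ : IsIntegral X) (f : X ⟶ Spec (.of R)),
    Smooth f ∧ IsProper f ∧ HasFunctionField f K

/-- `X_1^dyn(N)` has good reduction at `p`: there is an integral scheme, smooth and proper over
`ℤ_p`, whose function field is isomorphic over `ℤ_p` to the function field of
`X_1^dyn(N)` over `ℚ_p` -/
def GoodReduction (N p : ℕ) [Fact p.Prime] : Prop :=
  HasSmoothProperModel ℤ_[p] (FunField N ℚ_[p])

/-- `P(x, c)` for `P ∈ ℤ[c][x]` and `x, c` in a field -/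
noncomputable def evalAt {k : Type} [Field k] (x c : k) (P : ℤ[X][X]) : k :=
  (P.map (mapRingHom (Int.castRingHom k))).evalEval c x

/-- `(x, c)` is a singular point of the affine curve `Φ_N(x,c) = 0` over the field `k`: `Φ_N`,
`∂Φ_N/∂x` and `∂Φ_N/∂c` vanish -/
def SingularPoint (N : ℕ) {k : Type} [Field k] (x c : k) : Prop :=
  evalAt x c (dynatomic N) = 0 ∧ evalAt x c (derivative (dynatomic N)) = 0 ∧
    evalAt x c (dX (dynatomic N)) = 0

theorem goodReduction_iff (N p : ℕ) [Fact p.Prime] :
    GoodReduction N p ↔ HasGoodReduction N p := by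
  constructor
  · rintro ⟨X, hX, f, hs, hp, e, he⟩
    exact ⟨X, hX, f, hs, hp, e, he⟩
  · rintro ⟨X, hX, f, hs, hp, e, he⟩
    exact ⟨X, hX, f, hs, hp, e, he⟩

theorem singularPoint_iff {N : ℕ} {k : Type} [Field k] (x c : k) :
    SingularPoint N x c ↔ IsSingularPt N x c := by
  rw [ConvSingAux.singular_iff_ev]
  have h : ∀ P : ℤ[X][X], evalAt x c P = ev c x P := fun P => by
    rw [evalAt, evalEval, ConvSingAux.eval_map_eq]
  rw [SingularPoint, h, h, h]

end DynBad
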