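import Pool.Agent.DynBad.PhiZero

/-!
# Module TwoCentre: three `𝔽_2`-points not on the curve

In `ZMod 2`.  `ev a 0 (Φ_N) = cyclotomic N (a)` (`ev_zero_Phi`): at `a = 0` it is `± 1`; at
`a = 1`, `cyclotomic N` evaluated at `1` is `1` if `N` is not a prime power and `q` if `N = q^k`;
as `N ≥ 4` and `4 ∤ N`, `N` is not a power of `2`, so this is odd.
`(0,1)`: `F_n(0,1)` is `1, 0, 1, 0, …` (`F_{n+1} = F_n^2 + 1`), so for odd `N` `F_N = 1 ≠ 0` and
`Φ_N ≠ 0` (`F_eq_zero_of_ev_Phi`).  For even `N` (`N ≥ 4`): `aa 0 1 N = ∑_{j<N} 0^j = 1`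
(`aa_{n+1} = X_n aa_n + 1`, `X_n = 0 + 2 F_n = 0`), while if `Φ_N(0,1) = 0` then by
`aa_eq_of_root` `aa = Φ_U * ∏_{d ∣ N, d<N} Φ_d(0,1)` and `Φ_2(0,1) = 0`
(`F_2 = Φ_1 Φ_2`, `F_2(0,1) = 1 * (1 + 0 + 1) = 0`, `Φ_1(0,1) = 1`), so `aa = 0`, contradiction.
-/

namespace DynBad

open Polynomial Finset

lemma aeval_cyclotomic_int {E : Type*} [CommRing E] (x : E) (N : ℕ) :
    aeval x (cyclotomic N ℤ) = (cyclotomic N E).eval x := by
  rw [← map_cyclotomic_int N E, eval_map, aeval_def]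
  rfl

lemma two_centre_zero {E : Type*} [CommRing E] [IsDomain E] {N : ℕ} (hN : 4 ≤ N) :
    ev (0 : E) 0 (Phi N) ≠ 0 := by
  rw [ev_zero_Phi _ (by omega), aeval_cyclotomic_int, ← coeff_zero_eq_eval_zero,
    cyclotomic_coeff_zero _ (by omega)]
  exact one_ne_zero

lemma two_centre_one {E : Type*} [CommRing E] [IsDomain E] [CharP E 2] {N : ℕ} (hN : 4 ≤ N)
    (h4 : ¬ 4 ∣ N) : ev (1 : E) 0 (Phi N) ≠ 0 := by
  rw [ev_zero_Phi _ (by omega), aeval_cyclotomic_int]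
  by_cases h : ∃ p k : ℕ, p.Prime ∧ p ^ k = N
  · obtain ⟨p, k, hp, hk⟩ := h
    obtain ⟨k, rfl⟩ : ∃ j, k = j + 1 := by
      rcases k with _ | k
      · simp at hk; omega
      · exact ⟨k, rfl⟩
    have : Fact p.Prime := ⟨hp⟩
    rw [← hk, eval_one_cyclotomic_prime_pow]
    intro h0
    have h2 := (CharP.cast_eq_zero_iff E 2 p).mp h0
    have h3 : p = 2 := ((Nat.prime_dvd_prime_iff_eq Nat.prime_two hp).mp h2).symm
    subst h3
    apply h4
    rw [← hk]
    rcases k with _ | k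
    · simp at hk; omega
    · exact ⟨2 ^ k, by ring⟩
  · push Not at h
    rw [eval_one_cyclotomic_not_prime_pow fun {p} hp k => h p k hp]
    exact one_ne_zero

lemma F_zero_one {E : Type*} [CommRing E] [CharP E 2] (n : ℕ) :
    F (0 : E) 1 (2 * n) = 0 ∧ F (0 : E) 1 (2 * n + 1) = 1 := by
  have h2 : (2 : E) = 0 := by
    have := CharP.cast_eq_zero E 2
    simpa using this
  induction n with
  | zero => simp
  | succ n ih =>
    obtain ⟨h0, h1⟩ := ih
    have h3 : F (0 : E) 1 (2 * (n + 1)) = 0 := by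
      rw [show 2 * (n + 1) = 2 * n + 1 + 1 by ring, F_succ, h1]
      linear_combination h2
    refine ⟨h3, ?_⟩
    rw [F_succ, h3]
    ring

lemma two_centre_last {E : Type*} [CommRing E] [IsDomain E] [CharP E 2] {N : ℕ} (hN : 4 ≤ N) :
    ev (0 : E) 1 (Phi N) ≠ 0 := by
  intro h0
  have h2 : (2 : E) = 0 := by
    have := CharP.cast_eq_zero E 2
    simpa using this
  have hF := F_eq_zero_of_ev_Phi (0 : E) 1 (by omega) h0
  rcases Nat.even_or_odd' N with ⟨n, rfl | rfl⟩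
  · have haa : aa (0 : E) 1 (2 * n) = 1 := by
      obtain ⟨m, hm⟩ : ∃ m, 2 * n = m + 1 := ⟨2 * n - 1, by omega⟩
      rw [hm, aa_succ, XX, h2]
      ring
    have h5 := aa_eq_of_root (0 : E) 1 (by omega) h0
    have h6 : ev (0 : E) 1 (Phi 2) = 0 := by
      have h7 := prod_ev_Phi (0 : E) 1 (n := 2) (by omega)
      have h8 := prod_ev_Phi (0 : E) 1 (n := 1) (by omega)
      have h9 : Nat.divisors 2 = {1, 2} := by decide
      have h10 : Nat.divisors 1 = {1} := by decide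
      rw [h9, prod_pair (by norm_num)] at h7
      rw [h10, prod_singleton, F_one] at h8
      rw [h8, one_mul, F_two] at h7
      rw [h7]
      linear_combination h2
    have h11 : ∏ d ∈ (2 * n).properDivisors, ev (0 : E) 1 (Phi d) = 0 := by
      apply prod_eq_zero (i := 2) _ h6
      rw [Nat.mem_properDivisors]
      exact ⟨⟨n, rfl⟩, by omega⟩
    rw [haa, h11, mul_zero] at h5
    exact one_ne_zero h5
  · rw [(F_zero_one n).2] at hF
    exact one_ne_zero hF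

theorem two_centre {N : ℕ} (hN : 4 ≤ N) (h4 : ¬ 4 ∣ N) :
    ev (0 : ZMod 2) 0 (Phi N) ≠ 0 ∧ ev (1 : ZMod 2) 0 (Phi N) ≠ 0 ∧
      ev (0 : ZMod 2) 1 (Phi N) ≠ 0 :=
  ⟨two_centre_zero hN, two_centre_one hN h4, two_centre_last hN⟩

end DynBad
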