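import Pool.Agent.DynBad.Carlitz

/-!
# Module TwoSingPt: every point over a root of `Q_N` is singular on `F_N = 0` (char 2)

`aa ζ u N = Q_N(ζ) = 0` since `m ∣ Q_N` and `m(ζ) = 0`.  For `bb`: work in the dual numbers
`k[ε]` (an `𝔽_2`-algebra).  `F_N(ζ + ε, u) = F_N(ζ,u) + ε bb` (`F_add_sq_zero`).  Write
`Q_N = m q` and `g = aeval (MM (ζ+ε)) q u = g_0 + ε g_1 ∈ k[ε]`, `g_0 = aeval (MM ζ) q u`.
`0 = F_N(ζ,u) = aeval (MM ζ) m g_0 = g_0^(2^(deg m))` by `MM_frob` and `irreducible_map_eq`, so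
`g_0 = 0`.  On `ε k` the map `MM (ζ+ε)` is multiplication by `ζ` (`ε^2 = 0`), so
`F_N(ζ+ε, u) = aeval (MM (ζ+ε)) m (ε g_1) = m(ζ) ε g_1 = 0` and `bb ζ u N = 0`.
Conclude with `sing_iff_of_exact`.
-/

namespace DynBad

open Polynomial Finset

lemma MM_aeval_hom {E E' : Type*} [CommRing E] [Algebra (ZMod 2) E] [CommRing E']
    [Algebra (ZMod 2) E'] (φ : E →+* E') (x w : E) (P : (ZMod 2)[X]) :
    φ (aeval (MM x) P w) = aeval (MM (φ x)) P (φ w) := by
  have h1 : φ.comp (algebraMap (ZMod 2) E) = algebraMap (ZMod 2) E' := Subsingleton.elim _ _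
  rw [aeval_eq_sum_range, aeval_eq_sum_range, LinearMap.sum_apply, LinearMap.sum_apply, map_sum]
  apply Finset.sum_congr rfl
  intro i _
  rw [LinearMap.smul_apply, LinearMap.smul_apply, Algebra.smul_def, Algebra.smul_def, map_mul,
    MM_pow_hom φ x w i, ← h1]
  rfl

lemma MM_pow_inr {k : Type*} [Field k] [Algebra (ZMod 2) k] (ζ w : k) (n : ℕ) :
    (MM (TrivSqZeroExt.inl ζ + DualNumber.eps : DualNumber k) ^ n) (TrivSqZeroExt.inr w) =
      TrivSqZeroExt.inr (ζ ^ n * w) := by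
  induction n with
  | zero => simp
  | succ n ih =>
    rw [pow_succ', Module.End.mul_apply, ih, MM_apply]
    ext
    · simp
    · simp [pow_succ']
      ring

lemma MM_aeval_inr {k : Type*} [Field k] [Algebra (ZMod 2) k] (ζ w : k) (P : (ZMod 2)[X]) :
    aeval (MM (TrivSqZeroExt.inl ζ + DualNumber.eps : DualNumber k)) P (TrivSqZeroExt.inr w) =
      TrivSqZeroExt.inr (aeval ζ P * w) := by
  rw [aeval_eq_sum_range, aeval_eq_sum_range, LinearMap.sum_apply, Finset.sum_mul]
  have h : (TrivSqZeroExt.inr (∑ i ∈ range (P.natDegree + 1), P.coeff i • ζ ^ i * w) :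
      DualNumber k) = ∑ i ∈ range (P.natDegree + 1), TrivSqZeroExt.inr (P.coeff i • ζ ^ i * w) :=
    map_sum (TrivSqZeroExt.inrHom k k) _ _
  rw [h]
  apply Finset.sum_congr rfl
  intro i _
  rw [LinearMap.smul_apply, MM_pow_inr, smul_mul_assoc, TrivSqZeroExt.inr_smul]

theorem sing_of_root {k : Type*} [Field k] [Algebra (ZMod 2) k] {N : ℕ} (hN : 1 ≤ N)
    (m : (ZMod 2)[X]) (hm : Irreducible m) (hmQ : m ∣ Qn N) (ζ u : k) (hζ : aeval ζ m = 0)
    (hF : F ζ u N = 0) (hd : ∀ d, d ∣ N → d < N → F ζ u d ≠ 0) : Sing N ζ u := by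
  rw [sing_iff_of_exact ζ u hN hF hd]
  obtain ⟨q, hq⟩ := hmQ
  refine ⟨?_, ?_⟩
  · rw [aa_eq_Qn, hq, map_mul, hζ, zero_mul]
  · set y : DualNumber k := TrivSqZeroExt.inl ζ + DualNumber.eps with hy
    have he : (DualNumber.eps : DualNumber k) * DualNumber.eps = 0 := DualNumber.eps_mul_eps
    have h1 := F_add_sq_zero (E := DualNumber k) (x := TrivSqZeroExt.inl ζ)
      (u := TrivSqZeroExt.inl u) he 1 0 N
    have hyz : (TrivSqZeroExt.inl ζ + DualNumber.eps * 1 : DualNumber k) = y := by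
      rw [mul_one]
    rw [hyz, mul_zero, add_zero, one_mul, zero_mul, add_zero] at h1
    have h2 : F (TrivSqZeroExt.inl ζ : DualNumber k) (TrivSqZeroExt.inl u) N =
        TrivSqZeroExt.inl (F ζ u N) := by
      have := map_F ζ u (TrivSqZeroExt.inlHom k k) N
      exact this.symm
    have h3 : bb (TrivSqZeroExt.inl ζ : DualNumber k) (TrivSqZeroExt.inl u) N =
        TrivSqZeroExt.inl (bb ζ u N) := by
      have := map_bb ζ u (TrivSqZeroExt.inlHom k k) N
      exact this.symm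
    rw [h2, hF, h3, TrivSqZeroExt.inl_zero, zero_add, F_eq_MM, hq, map_mul,
      Module.End.mul_apply] at h1
    set g : DualNumber k := aeval (MM y) q (TrivSqZeroExt.inl u) with hg
    have hfst : g.fst = aeval (MM ζ) q u := by
      have h4 := MM_aeval_hom (TrivSqZeroExt.fstHom k k k).toRingHom y
        (TrivSqZeroExt.inl u : DualNumber k) q
      have h5 : (TrivSqZeroExt.fstHom k k k).toRingHom y = ζ := by simp [hy]
      have h6 : (TrivSqZeroExt.fstHom k k k).toRingHom (TrivSqZeroExt.inl u : DualNumber k) = u := by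
        simp
      rw [h5, h6] at h4
      rw [← h4]
      rfl
    have h7 : g.fst = 0 := by
      rw [hfst]
      have h8 : aeval (MM ζ) m (aeval (MM ζ) q u) = 0 := by
        rw [← Module.End.mul_apply, ← map_mul, ← hq, ← F_eq_MM, hF]
      rw [MM_frob ζ m.natDegree m (irreducible_map_eq m hm ζ hζ)] at h8
      exact pow_eq_zero_iff (by positivity) |>.mp h8
    have h9 : g = TrivSqZeroExt.inr g.snd := by
      ext
      · simpa using h7
      · simp
    rw [h9, hy, MM_aeval_inr, hζ, zero_mul, TrivSqZeroExt.inr_zero] at h1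
    have h10 := congrArg TrivSqZeroExt.snd h1
    simpa using h10.symm

end DynBad
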