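import Pool.Agent.DynBad.Carlitz
import Pool.Agent.DynBad.PhiZero

/-!
# Module TwoSmooth: `N` prime with `2` a primitive root mod `N` gives a smooth curve mod 2

`N` is an odd prime.  `Qn N = cyclotomic N (ZMod 2)` is irreducible of degree `N-1` since the order
of `2` mod `N` is `N - 1` (all irreducible factors of `cyclotomic N` over `𝔽_2` have degree
`orderOf 2`; Mathlib: search for `cyclotomic`, `orderOf`, `ZMod`, or argue: a root `ζ` in an
extension field has order `N`, and `ζ^(2^i) = ζ^(2^j)` iff `2^i ≡ 2^j mod N`, so `ζ` has `N - 1`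
conjugates under Frobenius and the minimal polynomial has degree `N - 1`).

Let `(x,u)` be a singular point over `k = AlgebraicClosure (ZMod 2)`.  `F_N = F_1 Φ_N = u Φ_N`.
Case `u ≠ 0`: `aa x u N = 0` (`aa_eq_of_root`), i.e. `Q_N(x) = 0` (`aa_eq_Qn`).  By `MM_frob` and
`irreducible_map_eq` (with `m = Qn N`), `0 = F_N(x,u) = aeval (MM x) (Qn N) u = u^(2^(N-1))`, so
`u = 0`, contradiction.
Case `u = 0`: by `ev_zero_Phi`, `ev_zero_dX_Phi`, `x` is a common root of `cyclotomic N` and its
derivative over `k`, but `N` is odd so `cyclotomic N k` is separable.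
-/

namespace DynBad

open Polynomial Finset

lemma orderOf_unit_two {N : ℕ} (h : Nat.Coprime 2 N) :
    orderOf (ZMod.unitOfCoprime 2 h) = orderOf (2 : ZMod N) := by
  rw [← orderOf_units, ZMod.coe_unitOfCoprime]
  norm_num

lemma Qn_eq_cyclotomic {N : ℕ} (hp : N.Prime) : Qn N = cyclotomic N (ZMod 2) := by
  have : Fact N.Prime := ⟨hp⟩
  rw [cyclotomic_prime, Qn]

theorem smooth_two {N : ℕ} (hN : 3 ≤ N) (hp : N.Prime) (ho : orderOf (2 : ZMod N) = N - 1) :
    SmoothMod N 2 := by
  intro x u hs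
  obtain ⟨h1, h2, h3⟩ := hs
  have hN1 : 1 ≤ N := by omega
  have h2N : ¬ 2 ∣ N := by
    intro h
    rcases (Nat.dvd_prime hp).mp h with h | h <;> omega
  have hcop : Nat.Coprime 2 N := (Nat.prime_two.coprime_iff_not_dvd).mpr h2N
  have hQ := Qn_eq_cyclotomic hp
  have hdeg : (Qn N).natDegree = N - 1 := by
    rw [hQ, natDegree_cyclotomic, Nat.totient_prime hp]
  have hirr : Irreducible (Qn N) := by
    apply ZMod.irreducible_of_dvd_cyclotomic_of_natDegree (p := 2) h2N
    · rw [hQ]
    · rw [hdeg, orderOf_unit_two hcop, ho]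
  have haa : aa x u N = 0 := by
    rw [aa_eq_of_root x u hN1 h1, h3, zero_mul]
  have hF : F x u N = 0 := F_eq_zero_of_ev_Phi x u hN1 h1
  have hx : aeval x (Qn N) = 0 := by rw [← aa_eq_Qn x u]; exact haa
  have hu : u = 0 := by
    rw [F_eq_MM, MM_frob x _ (Qn N) (irreducible_map_eq _ hirr x hx)] at hF
    exact (pow_eq_zero_iff (by positivity)).mp hF
  subst hu
  rw [ev_zero_Phi x (by omega)] at h1
  rw [ev_zero_dX_Phi x (by omega)] at h2
  have hne : NeZero ((N : ℕ) : AlgebraicClosure (ZMod 2)) := by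
    refine ⟨fun h => h2N ?_⟩
    exact (CharP.cast_eq_zero_iff (AlgebraicClosure (ZMod 2)) 2 N).mp h
  have hsep := separable_cyclotomic N (AlgebraicClosure (ZMod 2))
  obtain ⟨a, b, hab⟩ := hsep
  have h4 : (cyclotomic N (AlgebraicClosure (ZMod 2))).eval x = 0 := by
    rw [← map_cyclotomic_int, eval_map, ← h1, aeval_def]
    rfl
  have h5 : (derivative (cyclotomic N (AlgebraicClosure (ZMod 2)))).eval x = 0 := by
    rw [← map_cyclotomic_int, derivative_map, eval_map, ← h2, aeval_def]
    rfl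
  have h6 := congrArg (eval x) hab
  rw [eval_add, eval_mul, eval_mul, h4, h5, mul_zero, mul_zero, add_zero, eval_one] at h6
  exact zero_ne_one h6

end DynBad
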