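import Pool.Agent.DynBad.Ident

/-!
# Valuation-theoretic language for models of curves over `ℤ_p`

`K` is a field with an algebra structure over `R` (mostly `R = ℤ_[p]`).  A valuation subring `V`
of `K` and a subalgebra `S ≤ V` determine the centre of `V` on `S` and the local ring
`loc V S = S_{𝔪_V ∩ S} ⊆ K`.
-/

namespace DynBad

open Polynomial

section
variable {R K : Type*} [CommRing R] [Field K] [Algebra R K]

/-- the subalgebra `S` is contained in the valuation ring `V` -/
def Le (S : Subalgebra R K) (V : ValuationSubring K) : Prop := ∀ z ∈ S, z ∈ V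

/-- local ring of `S` at the centre of `V` -/
def loc (V : ValuationSubring K) (S : Subalgebra R K) : Subring K where
  carrier := {z | ∃ a ∈ S, ∃ b ∈ S, V.valuation b = 1 ∧ z * b = a}
  mul_mem' := by
    rintro z z' ⟨a, ha, b, hb, hb1, h⟩ ⟨a', ha', b', hb', hb1', h'⟩
    exact ⟨a * a', S.mul_mem ha ha', b * b', S.mul_mem hb hb', by simp [hb1, hb1'],
      by linear_combination z' * b' * h + a * h'⟩
  one_mem' := ⟨1, S.one_mem, 1, S.one_mem, by simp, by simp⟩
  add_mem' := by
    rintro z z' ⟨a, ha, b, hb, hb1, h⟩ ⟨a', ha', b', hb', hb1', h'⟩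
    exact ⟨a * b' + a' * b, S.add_mem (S.mul_mem ha hb') (S.mul_mem ha' hb), b * b',
      S.mul_mem hb hb', by simp [hb1, hb1'], by linear_combination b' * h + b * h'⟩
  zero_mem' := ⟨0, S.zero_mem, 1, S.one_mem, by simp, by simp⟩
  neg_mem' := by
    rintro z ⟨a, ha, b, hb, hb1, h⟩
    exact ⟨-a, S.neg_mem ha, b, hb, hb1, by linear_combination -h⟩

lemma mem_loc {V : ValuationSubring K} {S : Subalgebra R K} {z : K} :
    z ∈ loc V S ↔ ∃ a ∈ S, ∃ b ∈ S, V.valuation b = 1 ∧ z * b = a := Iff.rfl

lemma le_loc (V : ValuationSubring K) (S : Subalgebra R K) {z : K} (hz : z ∈ S) : z ∈ loc V S :=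
  ⟨z, hz, 1, S.one_mem, by simp, by simp⟩

lemma loc_le {V : ValuationSubring K} {S : Subalgebra R K} (h : Le S V) {z : K}
    (hz : z ∈ loc V S) : z ∈ V := by
  obtain ⟨a, ha, b, hb, hb1, hab⟩ := hz
  rw [← V.valuation_le_one_iff] at *
  have := (V.valuation_le_one_iff a).mpr (h a ha)
  rw [← hab, map_mul, hb1, mul_one] at this
  exact this

lemma loc_inv {V : ValuationSubring K} {S : Subalgebra R K} {z : K}
    (hz : z ∈ loc V S) (h1 : V.valuation z = 1) : z⁻¹ ∈ loc V S := by
  obtain ⟨a, ha, b, hb, hb1, hab⟩ := hz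
  have hz0 : z ≠ 0 := by rintro rfl; simp at h1
  refine ⟨b, hb, a, ha, ?_, ?_⟩
  · rw [← hab, map_mul, h1, hb1, one_mul]
  · rw [← hab]; field_simp

/-- the fraction field of `S` is `K` -/
def Frac (S : Subalgebra R K) : Prop := ∀ z : K, ∃ a ∈ S, ∃ b ∈ S, b ≠ 0 ∧ z * b = a

/-- `S` is étale over `R[t]` for some `t ∈ S`, and has fraction field `K`. -/
structure EtaleChart (S : Subalgebra R K) : Prop where
  fg : S.FG
  frac : Frac S
  etale : ∃ t : S, ((Polynomial.aeval t : R[X] →ₐ[R] S) : R[X] →+* S).Etale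

end

section

variable {p : ℕ} [Fact p.Prime] {K : Type*} [Field K] [Algebra ℤ_[p] K]

variable (p) in
/-- `V` contains the image of `ℤ_p` -/
def Over (V : ValuationSubring K) : Prop := ∀ a : ℤ_[p], algebraMap ℤ_[p] K a ∈ V

lemma Le.over {S : Subalgebra ℤ_[p] K} {V : ValuationSubring K} (h : Le S V) : Over p V :=
  fun a => h _ (S.algebraMap_mem a)

variable (p) in
/-- the residue class of `z` is algebraic over `𝔽_p` -/
def ResAlg (V : ValuationSubring K) (z : K) : Prop :=
  ∃ n : ℕ, 1 ≤ n ∧ V.valuation (z ^ p ^ n - z) < 1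

/-- the centre of `V` on `S` is a closed point (only used when `V.valuation p < 1`) -/
def Closed (V : ValuationSubring K) (S : Subalgebra ℤ_[p] K) : Prop := ∀ z ∈ S, ResAlg p V z

variable (p K) in
/-- a smooth proper model of `K` over `ℤ_p`, in the language of valuation rings -/
structure SmoothModel where
  /-- the affine charts -/
  charts : Set (Subalgebra ℤ_[p] K)
  etale : ∀ S ∈ charts, EtaleChart S
  cover : ∀ V : ValuationSubring K, Over p V → ∃ S ∈ charts, Le S V
  sep : ∀ S ∈ charts, ∀ S' ∈ charts, ∀ V : ValuationSubring K, Le S V → Le S' V →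
    loc V S = loc V S'

/-- the centre of `V` on the model is a generic point of the special fibre -/
def SmoothModel.Gen (M : SmoothModel p K) (V : ValuationSubring K) : Prop :=
  V.valuation (p : K) < 1 ∧ ∃ S ∈ M.charts, Le S V ∧ ¬ Closed V S

variable (p) in
/-- the function field of the plane curve `Φ_N = 0` over `ℚ_p` -/
structure DynField (N : ℕ) (K : Type*) [Field K] [Algebra ℤ_[p] K] where
  /-- the coordinate `x` -/
  x : K
  /-- the coordinate `u` -/
  u : K
  root : ev x u (Phi N) = 0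
  transc : Transcendental ℤ_[p] x
  frac : Frac (Algebra.adjoin ℤ_[p] {x, u})
  ker : ∀ P : ℤ_[p][X][X], ev x u P = 0 →
    (Phi N).map (mapRingHom (Int.castRingHom ℤ_[p])) ∣ P

/-- the coordinate ring of the affine plane model -/
noncomputable def DynField.A {N : ℕ} (D : DynField p N K) : Subalgebra ℤ_[p] K :=
  Algebra.adjoin ℤ_[p] {D.x, D.u}

/-- `∂Φ_N/∂U` at the generic point -/
noncomputable def DynField.PU {N : ℕ} (D : DynField p N K) : K := ev D.x D.u (derivative (Phi N))

/-- `∂Φ_N/∂X` at the generic point -/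
noncomputable def DynField.PX {N : ℕ} (D : DynField p N K) : K := ev D.x D.u (dX (Phi N))

/-- Gauss valuations: `A ≤ W` and `x mod 𝔪_W` transcendental over `𝔽_p` -/
def DynField.Gauss {N : ℕ} (D : DynField p N K) (W : ValuationSubring K) : Prop :=
  Le D.A W ∧ W.valuation (p : K) < 1 ∧ ¬ Closed W D.A

/-- `S`-span of `∂ S` -/
def Lam (δ : Derivation ℤ_[p] K K) (S : Subring K) : Submodule S K :=
  Submodule.span S (δ '' (S : Set K))

/-- regular differential on the generic fibre -/
def Regular (δ : Derivation ℤ_[p] K K) (η : K) : Prop :=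
  ∀ V : ValuationSubring K, Over p V → V.valuation (p : K) = 1 → η ∈ Lam δ V.toSubring

/-- `η ∈ p^k Λ(V)` -/
def InLp (δ : Derivation ℤ_[p] K K) (V : ValuationSubring K) (k : ℤ) (η : K) : Prop :=
  ∃ z ∈ Lam δ V.toSubring, η = (p : K) ^ k * z

/-- the basic regular differential `∏_{q ∣ N prime} F_{N/q} / (∂F_N/∂u)` -/
noncomputable def DynField.eta {N : ℕ} (D : DynField p N K) : K :=
  (∏ q ∈ N.primeFactors, F D.x D.u (N / q)) / aa D.x D.u N

end

end DynBad
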